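import Pool.Agent.Lib.MP_dcb6ed_co_CD.Defs

/-!
# Counting in hypergraphs of bounded degree

All degrees in `W` are at most `D`, `D ≥ 1`, and every hyperedge has three vertices.

`rr_card`: a member `g` of `RR W y e` is equal to or meets some `f ∈ W` with `y ∈ el f`: at most
`D` choices of `f`, and then `g` is in the star of one of the three vertices of `f`: at most `3 D`
choices (`g = f` is among them).  So `|RR| ≤ 3 D²`.
`sup_card`: `|Sup| ≤ 1 + 2 · 4 D² ≤ 9 D²`.
`nadj_card`: for `f ∈ F` the hyperedges of `F` which meet `f` are the disjoint union over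
`w ∈ el f` of `star F w` without `f` (disjoint by linearity: `g ≠ f` contains at most one vertex of
`f`).
`sup_rev`: given `i`, we count the `x` such that `i ∈ Sup W x e` for some `e ∈ star W x`.  Either
`i = e`, then `x ∈ el i` (3 choices).  Or `i ∈ RR W y e` for some `y ∈ el e`, `y ≠ x`: there is
`f ∈ W` with `y ∈ el f`, `i = f` or `i` meets `f`; `f` is in the star of one of the vertices of `i`
(`≤ 3 D` choices), `y ∈ el f` (3), `e ∈ star W y` (`D`), `x ∈ el e` (3): at most `27 D²`.
`rr_rev`: the same for the tests: `f` (`3 D`), `y = sl τ g ∈ el f` (3), `g ∈ star W y` (`D`),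
`base τ ∈ el g` (3), `τ` with this base (`K`): at most `27 K D²`.
-/

set_option autoImplicit false

namespace Pool.Agent.Lib.CD

open Finset

variable {E X : Type} [Fintype E] [DecidableEq E] [Fintype X] [DecidableEq X]
variable {el : E → Finset X} {W : Finset E} {D : ℕ}

/-- the hyperedges of `W` which meet `i` -/
def HCount_N (el : E → Finset X) (W : Finset E) (i : E) : Finset E :=
  (el i).biUnion (fun x => star el W x)

theorem HCount_N_card (hG : HG el) (hD : ∀ x, (star el W x).card ≤ D) (i : E) :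
    (HCount_N el W i).card ≤ 3 * D := by
  have h := Finset.card_biUnion_le_card_mul (el i) (fun x => star el W x) D fun x _ => hD x
  rwa [hG.card3 i] at h

theorem HCount_N_mem (hG : HG el) {f g : E} (hg : g ∈ W)
    (h : g = f ∨ ¬ Disjoint (el f) (el g)) : g ∈ HCount_N el W f := by
  rcases h with rfl | h
  · have h1 : (el g).Nonempty := by
      rw [← Finset.card_pos, hG.card3]
      norm_num
    obtain ⟨x, hx⟩ := h1
    exact Finset.mem_biUnion.2 ⟨x, hx, Finset.mem_filter.2 ⟨hg, hx⟩⟩
  · obtain ⟨x, hx, hx'⟩ := Finset.not_disjoint_iff.1 h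
    exact Finset.mem_biUnion.2 ⟨x, hx, Finset.mem_filter.2 ⟨hg, hx'⟩⟩

theorem HCount_N_mem' (hG : HG el) {f g : E} (hf : f ∈ W)
    (h : g = f ∨ ¬ Disjoint (el f) (el g)) : f ∈ HCount_N el W g := by
  refine HCount_N_mem hG hf ?_
  rcases h with h | h
  · exact Or.inl h.symm
  · exact Or.inr fun h' => h h'.symm

theorem HCount_mem {y : X} {e g : E} : g ∈ RR el W y e ↔
    g ∈ W ∧ g ≠ e ∧ ∃ f ∈ W, f ≠ e ∧ y ∈ el f ∧ (g = f ∨ ¬ Disjoint (el f) (el g)) := by
  simp only [RR, Finset.mem_filter]

theorem rr_sub (y : X) (e : E) : RR el W y e ⊆ W := by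
  exact Finset.filter_subset _ _

theorem rr_notmem (y : X) (e : E) : e ∉ RR el W y e := by
  intro h
  exact (HCount_mem.1 h).2.1 rfl

theorem rr_mono {F : Finset E} (h : F ⊆ W) (y : X) (e : E) : RR el F y e ⊆ RR el W y e := by
  intro g hg
  obtain ⟨h1, h2, f, hf, h3⟩ := HCount_mem.1 hg
  exact HCount_mem.2 ⟨h h1, h2, f, h hf, h3⟩

theorem rr_card (hG : HG el) (hD : ∀ x, (star el W x).card ≤ D) (y : X) (e : E) :
    (RR el W y e).card ≤ 4 * D ^ 2 := by
  have h1 : RR el W y e ⊆ (star el W y).biUnion (fun f => HCount_N el W f) := by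
    intro g hg
    obtain ⟨h1, h2, f, hf, h3, h4, h5⟩ := HCount_mem.1 hg
    exact Finset.mem_biUnion.2 ⟨f, Finset.mem_filter.2 ⟨hf, h4⟩, HCount_N_mem hG h1 h5⟩
  have h2 := Finset.card_biUnion_le_card_mul (star el W y) (fun f => HCount_N el W f) (3 * D)
    fun f _ => HCount_N_card hG hD f
  have h3 := Finset.card_le_card h1
  have h4 : (star el W y).card * (3 * D) ≤ D * (3 * D) := Nat.mul_le_mul_right _ (hD y)
  nlinarith

theorem sup_card (hG : HG el) (hD1 : 1 ≤ D) (hD : ∀ x, (star el W x).card ≤ D) {x : X} {e : E}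
    (hx : x ∈ el e) : (Sup el W x e).card ≤ 9 * D ^ 2 := by
  have h1 := Finset.card_biUnion_le_card_mul ((el e).erase x) (fun y => RR el W y e) (4 * D ^ 2)
    fun y _ => rr_card hG hD y e
  rw [Finset.card_erase_of_mem hx, hG.card3] at h1
  have h2 : (Sup el W x e).card ≤ (((el e).erase x).biUnion (fun y => RR el W y e)).card + 1 :=
    Finset.card_insert_le _ _
  have h3 : 1 ≤ D ^ 2 := Nat.one_le_pow _ _ hD1
  omega

open Classical in
theorem nadj_card (hG : HG el) {F : Finset E} {f : E} (hf : f ∈ F) :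
    (F.filter (fun g => Adj el f g)).card = ∑ w ∈ el f, ((star el F w).card - 1) := by
  have h1 : F.filter (fun g => Adj el f g) = (el f).biUnion (fun w => (star el F w).erase f) := by
    ext g
    simp only [Finset.mem_filter, Finset.mem_biUnion, Finset.mem_erase, star, Adj,
      Finset.not_disjoint_iff]
    constructor
    · rintro ⟨h1, h2, w, hw, hw'⟩
      exact ⟨w, hw, h2, h1, hw'⟩
    · rintro ⟨w, hw, h2, h1, hw'⟩
      exact ⟨h1, h2, w, hw, hw'⟩
  rw [h1, Finset.card_biUnion]
  · refine Finset.sum_congr rfl fun w hw => ?_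
    exact Finset.card_erase_of_mem (Finset.mem_filter.2 ⟨hf, hw⟩ : f ∈ star el F w)
  · intro w hw w' hw' hne
    rw [Function.onFun, Finset.disjoint_left]
    intro g hg hg'
    rw [Finset.mem_erase, star, Finset.mem_filter] at hg hg'
    have h2 := hG.lin f g (Ne.symm hg.1)
    have h3 : 1 < (el f ∩ el g).card := Finset.one_lt_card.2
      ⟨w, Finset.mem_inter.2 ⟨hw, hg.2.2⟩, w', Finset.mem_inter.2 ⟨hw', hg'.2.2⟩, hne⟩
    omega

open Classical in
theorem sup_rev (hG : HG el) (hD1 : 1 ≤ D) (hD : ∀ x, (star el W x).card ≤ D) (i : E) :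
    (univ.filter (fun x => ∃ e ∈ star el W x, i ∈ Sup el W x e)).card ≤ 40 * D ^ 2 := by
  have h1 : univ.filter (fun x => ∃ e ∈ star el W x, i ∈ Sup el W x e) ⊆
      el i ∪ (HCount_N el W i).biUnion (fun f => (el f).biUnion (fun y =>
        (star el W y).biUnion (fun e => el e))) := by
    intro x hx
    obtain ⟨e, he, hi⟩ := (Finset.mem_filter.1 hx).2
    obtain ⟨heW, hxe⟩ := Finset.mem_filter.1 he
    rcases Finset.mem_insert.1 hi with rfl | hi
    · exact Finset.mem_union_left _ hxe
    · obtain ⟨y, hy, hi⟩ := Finset.mem_biUnion.1 hi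
      obtain ⟨h1, h2, f, hf, h3, h4, h5⟩ := HCount_mem.1 hi
      refine Finset.mem_union_right _ (Finset.mem_biUnion.2 ⟨f, HCount_N_mem' hG hf h5,
        Finset.mem_biUnion.2 ⟨y, h4, Finset.mem_biUnion.2 ⟨e, Finset.mem_filter.2
          ⟨heW, (Finset.mem_erase.1 hy).2⟩, hxe⟩⟩⟩)
  have h2 : ∀ y, ((star el W y).biUnion (fun e => el e)).card ≤ D * 3 := fun y =>
    (Finset.card_biUnion_le_card_mul _ _ 3 fun e _ => (hG.card3 e).le).trans
      (Nat.mul_le_mul_right _ (hD y))
  have h3 : ∀ f, ((el f).biUnion (fun y => (star el W y).biUnion (fun e => el e))).card ≤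
      3 * (D * 3) := fun f => by
    have := Finset.card_biUnion_le_card_mul (el f)
      (fun y => (star el W y).biUnion (fun e => el e)) (D * 3) fun y _ => h2 y
    rwa [hG.card3] at this
  have h4 : ((HCount_N el W i).biUnion (fun f => (el f).biUnion (fun y =>
        (star el W y).biUnion (fun e => el e)))).card ≤ (3 * D) * (3 * (D * 3)) :=
    (Finset.card_biUnion_le_card_mul _ _ _ fun f _ => h3 f).trans
      (Nat.mul_le_mul_right _ (HCount_N_card hG hD i))
  have h5 := (Finset.card_le_card h1).trans (Finset.card_union_le _ _)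
  rw [hG.card3] at h5
  have h6 : 1 ≤ D ^ 2 := Nat.one_le_pow _ _ hD1
  nlinarith

open Classical in
theorem rr_rev {T : Type} [Fintype T] (hG : HG el) (hD : ∀ x, (star el W x).card ≤ D)
    {Y : Finset X} {K : ℕ} {t : TestF E X T} (ht : TestOK el W Y K t) (i : E) :
    (univ.filter (fun τ => ∃ g ∈ t.G τ, i ∈ RR el W (t.sl τ g) g)).card ≤ 36 * K * D ^ 2 := by
  have h1 : univ.filter (fun τ => ∃ g ∈ t.G τ, i ∈ RR el W (t.sl τ g) g) ⊆
      (HCount_N el W i).biUnion (fun f => (el f).biUnion (fun y =>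
        (star el W y).biUnion (fun g => (el g).biUnion (fun b =>
          univ.filter (fun τ => t.base τ = b))))) := by
    intro τ hτ
    obtain ⟨g, hg, hi⟩ := (Finset.mem_filter.1 hτ).2
    obtain ⟨h1, h2, f, hf, h3, h4, h5⟩ := HCount_mem.1 hi
    refine Finset.mem_biUnion.2 ⟨f, HCount_N_mem' hG hf h5,
      Finset.mem_biUnion.2 ⟨t.sl τ g, h4, Finset.mem_biUnion.2 ⟨g, Finset.mem_filter.2
        ⟨ht.sub τ hg, ht.sl_mem τ g hg⟩, Finset.mem_biUnion.2 ⟨t.base τ, ht.base_mem τ g hg,
          Finset.mem_filter.2 ⟨Finset.mem_univ _, rfl⟩⟩⟩⟩⟩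
  have h0 : ∀ g, ((el g).biUnion (fun b => univ.filter (fun τ => t.base τ = b))).card ≤
      3 * K := fun g => by
    have := Finset.card_biUnion_le_card_mul (el g)
      (fun b => univ.filter (fun τ => t.base τ = b)) K fun b _ => ht.few b
    rwa [hG.card3] at this
  have h2 : ∀ y, ((star el W y).biUnion (fun g => (el g).biUnion (fun b =>
          univ.filter (fun τ => t.base τ = b)))).card ≤ D * (3 * K) := fun y =>
    (Finset.card_biUnion_le_card_mul _ _ _ fun e _ => h0 e).trans
      (Nat.mul_le_mul_right _ (hD y))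
  have h3 : ∀ f, ((el f).biUnion (fun y => (star el W y).biUnion (fun g =>
      (el g).biUnion (fun b => univ.filter (fun τ => t.base τ = b))))).card ≤
      3 * (D * (3 * K)) := fun f => by
    have := Finset.card_biUnion_le_card_mul (el f)
      (fun y => (star el W y).biUnion (fun g => (el g).biUnion (fun b =>
        univ.filter (fun τ => t.base τ = b)))) (D * (3 * K)) fun y _ => h2 y
    rwa [hG.card3] at this
  have h4 : ((HCount_N el W i).biUnion (fun f => (el f).biUnion (fun y =>
        (star el W y).biUnion (fun g => (el g).biUnion (fun b =>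
          univ.filter (fun τ => t.base τ = b)))))).card ≤ (3 * D) * (3 * (D * (3 * K))) :=
    (Finset.card_biUnion_le_card_mul _ _ _ fun f _ => h3 f).trans
      (Nat.mul_le_mul_right _ (HCount_N_card hG hD i))
  have h5 := Finset.card_le_card h1
  have h6 : (3 * D) * (3 * (D * (3 * K))) = 27 * (K * D ^ 2) := by ring
  have h7 : 36 * K * D ^ 2 = 36 * (K * D ^ 2) := by ring
  have h8 := h5.trans h4
  omega

end Pool.Agent.Lib.CD
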