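import Pool.Agent.Lib.MP_dcb6ed_co_CD.Pw
import Pool.Agent.Lib.MP_dcb6ed_co_CD.HCount

/-!
# The probability that a vertex is covered

`hit_prob`: for different `f`, `f'` of `(star F y).erase e` the events in the definition of `Hit`
exclude each other (`f'` meets `f` in `y` and `f' ≠ e`, so the event of `f` says `ω f' = false`, the
event of `f'` says `ω f' = true`).  So the probability is the sum (`pw_ex_eq`).  The event of `f`
prescribes the bits of `f` (true) and of the hyperedges `g ∈ F`, `g ≠ e`, `Adj el f g` (false), all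
of them in `F` and different from `f`; by `pw_all` its probability is `π (1 - π) ^ n` with `n` the
number of these `g`.
`hit_dep`: the bits which occur in the definition of `Hit` are bits of members of `RR W y e`
(`F ⊆ W`).
-/

set_option autoImplicit false

namespace Pool.Agent.Lib.CD

open Finset

variable {E X : Type} [Fintype E] [DecidableEq E] [Fintype X] [DecidableEq X]
variable {el : E → Finset X} {F W : Finset E}

theorem bw_isW (F : Finset E) {π : ℝ} (h0 : 0 ≤ π) (h1 : π ≤ 1) : IsW (BW F π) := by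
  constructor
  · intro i s
    unfold BW
    split_ifs
    · exact h0
    · linarith
    · exact le_rfl
    · exact zero_le_one
  · intro i
    rw [Fintype.sum_bool]
    unfold BW
    split_ifs <;> simp_all

omit [Fintype E] [Fintype X] in
theorem Acc_dep_aux (hFW : F ⊆ W) (y : X) (e : E) {ω ω' : E → Bool}
    (h : ∀ i ∈ RR el W y e, ω i = ω' i) (hω : Hit el F y e ω) : Hit el F y e ω' := by
  obtain ⟨f, hf, hfe, hy, h1, h2⟩ := hω
  refine ⟨f, hf, hfe, hy, ?_, fun g hg hge hadj => ?_⟩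
  · rw [← h f, h1]
    unfold RR
    rw [mem_filter]
    exact ⟨hFW hf, hfe, f, hFW hf, hfe, hy, Or.inl rfl⟩
  · rw [← h g, h2 g hg hge hadj]
    unfold RR
    rw [mem_filter]
    exact ⟨hFW hg, hge, f, hFW hf, hfe, hy, Or.inr hadj.2⟩

theorem hit_dep (hFW : F ⊆ W) (y : X) (e : E) : Dep (RR el W y e) (Hit el F y e) := by
  intro ω ω' h
  exact propext ⟨Acc_dep_aux hFW y e h, Acc_dep_aux hFW y e fun i hi => (h i hi).symm⟩

open Classical in
theorem Acc_one {π : ℝ} (h0 : 0 ≤ π) (h1 : π ≤ 1) (e : E) {f : E} (hf : f ∈ F) :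
    PW (BW F π) (fun ω => ω f = true ∧ ∀ g ∈ F, g ≠ e → Adj el f g → ω g = false) =
      π * (1 - π) ^ (F.filter (fun g => g ≠ e ∧ Adj el f g)).card := by
  have hfn : f ∉ F.filter (fun g => g ≠ e ∧ Adj el f g) := by
    rw [mem_filter]
    exact fun h => h.2.2.1 rfl
  have h2 := pw_all (bw_isW F h0 h1) (insert f (F.filter (fun g => g ≠ e ∧ Adj el f g)))
    (fun i s => s = decide (i = f))
  have h3 : (fun ω : E → Bool => ω f = true ∧ ∀ g ∈ F, g ≠ e → Adj el f g → ω g = false) =
      fun ω => ∀ i ∈ insert f (F.filter (fun g => g ≠ e ∧ Adj el f g)),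
        ω i = decide (i = f) := by
    funext ω
    apply propext
    constructor
    · rintro ⟨h4, h5⟩ i hi
      rcases mem_insert.1 hi with rfl | hi
      · simp [h4]
      · obtain ⟨h6, h7, h8⟩ := mem_filter.1 hi
        rw [h5 i h6 h7 h8, decide_eq_false h8.1]
    · intro h4
      refine ⟨by simpa using h4 f (mem_insert_self _ _), fun g hg hge hadj => ?_⟩
      rw [h4 g (mem_insert_of_mem (mem_filter.2 ⟨hg, hge, hadj⟩)), decide_eq_false hadj.1]
  rw [h3, h2, prod_insert hfn]
  congr 1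
  · rw [sum_ite_eq' univ (decide (f = f)), if_pos (mem_univ _)]
    unfold BW
    simp [hf]
  · rw [← prod_const]
    refine prod_congr rfl fun i hi => ?_
    obtain ⟨h6, h7, h8⟩ := mem_filter.1 hi
    rw [sum_ite_eq' univ (decide (i = f)), if_pos (mem_univ _), decide_eq_false h8.1]
    unfold BW
    simp [h6]

open Classical in
theorem hit_prob {π : ℝ} (h0 : 0 ≤ π) (h1 : π ≤ 1) (y : X) (e : E) :
    PW (BW F π) (Hit el F y e) = ∑ f ∈ (star el F y).erase e,
      π * (1 - π) ^ (F.filter (fun g => g ≠ e ∧ Adj el f g)).card := by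
  have h2 : Hit el F y e = fun ω : E → Bool => ∃ f ∈ (star el F y).erase e,
      (ω f = true ∧ ∀ g ∈ F, g ≠ e → Adj el f g → ω g = false) := by
    funext ω
    apply propext
    constructor
    · rintro ⟨f, hf, hfe, hy, h3, h4⟩
      exact ⟨f, mem_erase.2 ⟨hfe, mem_filter.2 ⟨hf, hy⟩⟩, h3, h4⟩
    · rintro ⟨f, hf, h3, h4⟩
      obtain ⟨hfe, h5⟩ := mem_erase.1 hf
      obtain ⟨hf, hy⟩ := mem_filter.1 h5
      exact ⟨f, hf, hfe, hy, h3, h4⟩
  rw [h2, pw_ex_eq]
  · refine sum_congr rfl fun f hf => ?_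
    exact Acc_one h0 h1 e (mem_filter.1 (mem_erase.1 hf).2).1
  · rintro f hf f' hf' hne ω ⟨⟨-, h4⟩, h5, -⟩
    obtain ⟨hfe', h6⟩ := mem_erase.1 hf'
    obtain ⟨hf', hy'⟩ := mem_filter.1 h6
    obtain ⟨hfe, h7⟩ := mem_erase.1 hf
    obtain ⟨hf, hy⟩ := mem_filter.1 h7
    have h8 := h4 f' hf' hfe' ⟨hne.symm, fun hd => disjoint_left.1 hd hy hy'⟩
    rw [h5] at h8
    exact absurd h8 (by simp)

end Pool.Agent.Lib.CD
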