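import Pool.Agent.Lib.MP_dcb6ed_co_CD.Pw

/-!
# Chernoff's bound for the lower tail

Let `0 ≤ F_j ≤ 1`, `j ∈ T`, depend on disjoint sets of coordinates and `μ ≤ ∑ E F_j =: M`.
By convexity `exp (-F) ≤ 1 - (1 - e⁻¹) F` for `0 ≤ F ≤ 1`, so
`E exp (-F_j) ≤ exp (-(1 - e⁻¹) E F_j)` and, with `ew_prod` and `markov`,
`P (∑ F_j ≤ μ / 2) ≤ exp (μ / 2) E exp (-∑ F_j) ≤ exp (μ / 2 - (1 - e⁻¹) M)
  ≤ exp (-μ / 8)`, because `1 - e⁻¹ ≥ 0.63` and `M ≥ μ ≥ 0`.
-/

set_option autoImplicit false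

namespace Pool.Agent.Lib.CD

open Finset

variable {I S : Type} [Fintype I] [DecidableEq I] [Fintype S] [DecidableEq S]

theorem chern_lo {κ : Type} [DecidableEq κ] {w : I → S → ℝ} (hw : IsW w) (T : Finset κ)
    (F : κ → (I → S) → ℝ) (V : κ → Finset I) (h0 : ∀ k ∈ T, ∀ ω, 0 ≤ F k ω)
    (h1 : ∀ k ∈ T, ∀ ω, F k ω ≤ 1) (hd : ∀ k ∈ T, Dep (V k) (F k))
    (hV : ∀ k ∈ T, ∀ l ∈ T, k ≠ l → Disjoint (V k) (V l)) {μ : ℝ} (hμ0 : 0 ≤ μ)
    (hμ : μ ≤ ∑ k ∈ T, EW w (F k)) :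
    PW w (fun ω => ∑ k ∈ T, F k ω ≤ μ / 2) ≤ Real.exp (-(μ / 8)) := by
  have e1 : PW w (fun ω => ∑ k ∈ T, F k ω ≤ μ / 2) ≤
      EW w (fun ω => Real.exp (μ / 2) * ∏ k ∈ T, (fun k ω => Real.exp (-F k ω)) k ω) := by
    refine markov hw (fun ω => mul_nonneg (Real.exp_pos _).le
      (Finset.prod_nonneg fun k _ => (Real.exp_pos _).le)) fun ω hω => ?_
    rw [← Real.exp_sum, ← Real.exp_add]
    refine Real.one_le_exp ?_
    rw [Finset.sum_neg_distrib]
    linarith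
  rw [ew_smul, ew_prod hw T (fun k ω => Real.exp (-F k ω)) V ?_ hV] at e1
  · have e2 : ∀ k ∈ T, EW w (fun ω => Real.exp (-F k ω)) ≤ Real.exp (-(5 / 8 * EW w (F k))) := by
      intro k hk
      have e3 : EW w (fun ω => Real.exp (-F k ω)) ≤ EW w (fun ω => 1 + (-(5 / 8)) * F k ω) := by
        refine ew_mono hw fun ω => ?_
        have a1 := h0 k hk ω
        have a2 := h1 k hk ω
        have a3 := convexOn_exp.2 (Set.mem_univ (0 : ℝ)) (Set.mem_univ (-1 : ℝ))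
          (sub_nonneg.2 a2) a1 (by ring)
        simp only [smul_eq_mul, mul_zero, zero_add, mul_neg, mul_one, Real.exp_zero] at a3
        have a4 : Real.exp (-1) < 3 / 8 := lt_trans Real.exp_neg_one_lt_d9 (by norm_num)
        nlinarith
      rw [ew_add, ew_const hw, ew_smul] at e3
      have e4 := Real.add_one_le_exp (-(5 / 8 * EW w (F k)))
      linarith
    refine le_trans e1 (le_trans (mul_le_mul_of_nonneg_left
      (Finset.prod_le_prod (fun k _ => ?_) e2) (Real.exp_pos _).le) ?_)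
    · have := ew_mono hw (F := fun _ => 0)
        (G := fun ω => Real.exp (-F k ω)) (fun ω => (Real.exp_pos _).le)
      rwa [ew_const hw] at this
    · rw [← Real.exp_sum, ← Real.exp_add]
      refine Real.exp_le_exp.2 ?_
      rw [Finset.sum_neg_distrib, ← Finset.mul_sum]
      linarith
  · intro k hk ω ω' h
    have := hd k hk ω ω' h
    simp only [this]

end Pool.Agent.Lib.CD
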