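import Pool.Agent.Lib.MP_dcb6ed_co_CD.LLLs
import Pool.Agent.Lib.MP_dcb6ed_co_CD.Chern

/-!
# Random assignment of resources

Every link `g ∈ Gf` needs the resource `res g`; every resource may serve one link.  Each resource
`r` has at most `Q` links, and we let it pick the link `g` (`g ∈ Gf`, `res g = r`) with
probability `1 / Q` (and none with the remaining probability), independently.

Proof.  `I = R`, `S = Option E`, `w r (some g) = 1 / Q` if `g ∈ Gf` and `res g = r`, else `0`;
`w r none = 1 - |{g ∈ Gf : res g = r}| / Q`.  `Pk = {g ∈ Gf : ω (res g) = some g}`; two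
picked links with the same resource are equal.

Local event of `x`: `|Lo x ∩ Pk| ≤ ℓ / (2 Q)`.  The indicators of `ω (res g) = some g`, `g ∈ Lo x`,
depend on different coordinates, and their expectations are `1 / Q`, so by `chern_lo` with
`μ = ℓ / Q` the probability is at most `p = exp (- ℓ / (8 Q))`.  It depends on the coordinates in
`(Lo x).image res` (at most `D₁`).
Global event of `S ∈ Gls`: no `g ∈ S` is picked.  By `pw_all` (with the property of `ω r`:
`∀ g ∈ S, res g = r → ω r ≠ some g`, for `r` in `S.image res`) its probability is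
`∏_r (1 - |{g ∈ S : res g = r}| / Q) ≤ exp (- |S| / Q)`.  It depends on `S.image res`.

Apply `lll` with index type `Λ ⊕ {S // S ∈ Gls}`, `x = 2 p` for the local events and
`x = 2 exp (- |S| / (2 Q))` for the global events (`≤ 1/32` by `h3`); also `p ≤ 1/64` by `h1`.
A local event has at most `D₁ D₂` local neighbours, a global event `S` at most `|S| D₂`.
The product of `1 - x` over all global events is at least `1 - ∑ x ≥ 31/32`.
Local: `(1 - 2 p)^(D₁ D₂) ≥ 1 - 2 p D₁ D₂ ≥ 31/32`, and `2 p (31/32)^2 ≥ p`.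
Global: `(1 - 2 p)^(|S| D₂) ≥ exp (- 4 p |S| D₂) ≥ exp (- |S| / (4 Q))` by `h2`, and
`2 exp (- |S| / (2 Q)) exp (- |S| / (4 Q)) (31/32) ≥ exp (- |S| / Q)`.
-/

set_option autoImplicit false

namespace Pool.Agent.Lib.CD

open Finset

open Classical in
/-- the weights -/
noncomputable def Pick_w {E R : Type} (Gf : Finset E) (res : E → R) (Q : ℝ) :
    R → Option E → ℝ :=
  fun r s => match s with
    | none => 1 - ((Gf.filter (fun g => res g = r)).card : ℝ) / Q
    | some g => if g ∈ Gf ∧ res g = r then 1 / Q else 0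

open Classical in
theorem Pick_isW {E R : Type} [Fintype E] (Gf : Finset E) (res : E → R) {Q : ℝ} (hQ1 : 1 ≤ Q)
    (hQ : ∀ r, ((Gf.filter (fun g => res g = r)).card : ℝ) ≤ Q) : IsW (Pick_w Gf res Q) := by
  have hQ0 : 0 < Q := by linarith
  constructor
  · intro r s
    rcases s with _ | g
    · have h := div_le_one_of_le₀ (hQ r) hQ0.le
      simp only [Pick_w]
      linarith
    · simp only [Pick_w]
      split_ifs
      · positivity
      · exact le_rfl
  · intro r
    rw [Fintype.sum_option]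
    simp only [Pick_w]
    have h1 : ∑ g : E, (if g ∈ Gf ∧ res g = r then 1 / Q else 0) =
        ((Gf.filter (fun g => res g = r)).card : ℝ) / Q := by
      rw [← Finset.sum_filter, Finset.sum_const, nsmul_eq_mul, mul_one_div]
      congr 3
      ext g
      simp
    rw [h1]
    ring

theorem Pick_exp {t : ℝ} (h0 : 0 ≤ t) (h1 : t ≤ 1 / 2) : Real.exp (-(2 * t)) ≤ 1 - t := by
  rw [Real.exp_neg, inv_le_iff_one_le_mul₀ (Real.exp_pos _)]
  have h2 := Real.add_one_le_exp (2 * t)
  nlinarith

open Classical in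
theorem Pick_global {E R : Type} [Fintype E] [Fintype R] (Gf : Finset E) (res : E → R)
    {Q : ℝ} (hQ1 : 1 ≤ Q) (hQ : ∀ r, ((Gf.filter (fun g => res g = r)).card : ℝ) ≤ Q)
    {S : Finset E} (hS : S ⊆ Gf) :
    PW (Pick_w Gf res Q) (fun ω : R → Option E => ∀ g ∈ S, ω (res g) ≠ some g) ≤
      Real.exp (-((S.card : ℝ) / Q)) := by
  have hw := Pick_isW Gf res hQ1 hQ
  have hQ0 : 0 < Q := by linarith
  have h1 : (fun ω : R → Option E => ∀ g ∈ S, ω (res g) ≠ some g) =
      fun ω => ∀ r ∈ S.image res, (fun (r : R) (s : Option E) =>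
        ∀ g ∈ S, res g = r → s ≠ some g) r (ω r) := by
    funext ω
    apply propext
    constructor
    · intro h r _ g hg hr
      rw [← hr]
      exact h g hg
    · intro h g hg
      exact h (res g) (Finset.mem_image_of_mem res hg) g hg rfl
  have h1' := pw_all hw (S.image res) (fun (r : R) (s : Option E) =>
        ∀ g ∈ S, res g = r → s ≠ some g)
  refine (le_of_eq ((congrArg _ h1).trans h1')).trans ?_
  have h2 : ∀ r ∈ S.image res, (∑ s : Option E, if (∀ g ∈ S, res g = r → s ≠ some g) then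
      Pick_w Gf res Q r s else 0) ≤
      Real.exp (-(((S.filter (fun g => res g = r)).card : ℝ) / Q)) := by
    intro r _
    have h3 := hw.one r
    rw [← Finset.sum_filter_add_sum_filter_not Finset.univ
      (fun s : Option E => ∀ g ∈ S, res g = r → s ≠ some g)] at h3
    have h4 : ((S.filter (fun g => res g = r)).card : ℝ) / Q ≤
        ∑ s ∈ univ.filter (fun s : Option E => ¬ ∀ g ∈ S, res g = r → s ≠ some g),
          Pick_w Gf res Q r s := by
      have h5 : ((S.filter (fun g => res g = r)).card : ℝ) / Q =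
          ∑ s ∈ (S.filter (fun g => res g = r)).image some, Pick_w Gf res Q r s := by
        rw [Finset.sum_image fun a _ b _ h => Option.some.inj h]
        have h6 : ∀ g ∈ S.filter (fun g => res g = r), Pick_w Gf res Q r (some g) = 1 / Q := by
          intro g hg
          obtain ⟨h7, h8⟩ := Finset.mem_filter.1 hg
          simp only [Pick_w]
          rw [if_pos ⟨hS h7, h8⟩]
        rw [Finset.sum_congr rfl h6, Finset.sum_const, nsmul_eq_mul, mul_one_div]
      rw [h5]
      refine Finset.sum_le_sum_of_subset_of_nonneg ?_ fun s _ _ => hw.nonneg r s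
      intro s hs
      obtain ⟨g, hg, rfl⟩ := Finset.mem_image.1 hs
      obtain ⟨h7, h8⟩ := Finset.mem_filter.1 hg
      exact Finset.mem_filter.2 ⟨Finset.mem_univ _, fun h => h g h7 h8 rfl⟩
    have h9 := Real.add_one_le_exp (-(((S.filter (fun g => res g = r)).card : ℝ) / Q))
    rw [← Finset.sum_filter]
    linarith
  refine (Finset.prod_le_prod (fun r _ => Finset.sum_nonneg fun s _ => ?_) h2).trans ?_
  · split_ifs
    · exact hw.nonneg r s
    · exact le_rfl
  · rw [← Real.exp_sum]
    refine Real.exp_le_exp.2 (le_of_eq ?_)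
    rw [Finset.sum_neg_distrib, ← Finset.sum_div, ← Nat.cast_sum,
      ← Finset.card_eq_sum_card_image]

open Classical in
theorem Pick_local {E R : Type} [Fintype E] [Fintype R] (Gf : Finset E) (res : E → R)
    {Q ℓ : ℝ} (hQ1 : 1 ≤ Q) (hQ : ∀ r, ((Gf.filter (fun g => res g = r)).card : ℝ) ≤ Q)
    (hℓ0 : 0 ≤ ℓ) {L : Finset E} (hL : L ⊆ Gf)
    (hinj : ∀ g ∈ L, ∀ g' ∈ L, res g = res g' → g = g') (hℓ : ℓ ≤ (L.card : ℝ)) :
    PW (Pick_w Gf res Q) (fun ω : R → Option E =>
      (∑ g ∈ L, if ω (res g) = some g then (1 : ℝ) else 0) ≤ ℓ / Q / 2) ≤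
      Real.exp (-(ℓ / (8 * Q))) := by
  have hw := Pick_isW Gf res hQ1 hQ
  have hQ0 : 0 < Q := by linarith
  have h1 := chern_lo hw L (fun g (ω : R → Option E) =>
    if ω (res g) = some g then (1 : ℝ) else 0) (fun g => {res g})
    (fun g _ ω => by split_ifs <;> norm_num)
    (fun g _ ω => by split_ifs <;> norm_num)
    (fun g _ ω ω' h => by
      dsimp only
      rw [h (res g) (Finset.mem_singleton_self _)])
    (fun g hg g' hg' hne => by
      rw [Finset.disjoint_singleton]
      exact fun h => hne (hinj g hg g' hg' h))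
    (μ := ℓ / Q) (by positivity) ?_
  · refine h1.trans (Real.exp_le_exp.2 (le_of_eq ?_))
    field_simp
  · have h2 : ∀ g ∈ L, EW (Pick_w Gf res Q) (fun ω : R → Option E =>
        if ω (res g) = some g then (1 : ℝ) else 0) = 1 / Q := by
      intro g hg
      rw [ew_coord hw (res g) (fun s => if s = some g then (1 : ℝ) else 0)]
      simp only [mul_ite, mul_one, mul_zero]
      rw [Finset.sum_ite_eq' univ (some g), if_pos (Finset.mem_univ _)]
      simp only [Pick_w]
      rw [if_pos ⟨hL hg, trivial⟩]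
    rw [Finset.sum_congr rfl h2, Finset.sum_const, nsmul_eq_mul, mul_one_div]
    exact div_le_div_of_nonneg_right hℓ hQ0.le

open Classical in
/-- the number of local events which share a resource with the set `V` -/
theorem Pick_count {E R Λ : Type} [Fintype E] [Fintype R] [Fintype Λ] (res : E → R)
    {D₂ m : ℝ} (hD21 : 1 ≤ D₂) (Lo : Λ → Finset E)
    (hD2 : ∀ r, ((univ.filter (fun x => ∃ g ∈ Lo x, res g = r)).card : ℝ) ≤ D₂)
    (V : Finset R) (hV : (V.card : ℝ) ≤ m) :
    ((univ.filter (fun y => ¬ Disjoint V ((Lo y).image res))).card : ℝ) ≤ m * D₂ := by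
  have h1 : univ.filter (fun y => ¬ Disjoint V ((Lo y).image res)) ⊆
      V.biUnion (fun r => univ.filter (fun x => ∃ g ∈ Lo x, res g = r)) := by
    intro y hy
    obtain ⟨r, hr, hr'⟩ := Finset.not_disjoint_iff.1 (Finset.mem_filter.1 hy).2
    obtain ⟨g, hg, hgr⟩ := Finset.mem_image.1 hr'
    exact Finset.mem_biUnion.2 ⟨r, hr, Finset.mem_filter.2 ⟨Finset.mem_univ _, g, hg, hgr⟩⟩
  have h2 : ((V.biUnion (fun r => univ.filter (fun x => ∃ g ∈ Lo x, res g = r))).card : ℝ) ≤
      ∑ r ∈ V, ((univ.filter (fun x => ∃ g ∈ Lo x, res g = r)).card : ℝ) := by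
    exact_mod_cast Finset.card_biUnion_le
  have h3 : ∑ r ∈ V, ((univ.filter (fun x => ∃ g ∈ Lo x, res g = r)).card : ℝ) ≤
      ∑ r ∈ V, D₂ := Finset.sum_le_sum fun r _ => hD2 r
  rw [Finset.sum_const, nsmul_eq_mul] at h3
  have h4 : (V.card : ℝ) * D₂ ≤ m * D₂ := mul_le_mul_of_nonneg_right hV (by linarith)
  have h5 : ((univ.filter (fun y => ¬ Disjoint V ((Lo y).image res))).card : ℝ) ≤
      ((V.biUnion (fun r => univ.filter (fun x => ∃ g ∈ Lo x, res g = r))).card : ℝ) := by
    exact_mod_cast Finset.card_le_card h1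
  linarith

open Classical in
/-- the product over the neighbours -/
theorem Pick_prod {Λ Γ : Type} [Fintype Λ] [Fintype Γ] (t : ℝ) (z : Γ → ℝ) (h0 : 0 ≤ t)
    (h1 : t ≤ 1) (hz0 : ∀ S, 0 ≤ z S) (hz1 : ∀ S, z S ≤ 1) (hz : ∑ S, z S ≤ 1 / 32)
    (N : Finset (Λ ⊕ Γ)) (M : Finset Λ) (hM : ∀ y, Sum.inl y ∈ N → y ∈ M) :
    (1 - t) ^ M.card * (31 / 32) ≤
      ∏ l ∈ N, (1 - (Sum.elim (fun _ => t) z l : ℝ)) := by
  have e1 : ∏ l ∈ N, (1 - (Sum.elim (fun _ => t) z l : ℝ)) =
      ∏ l : Λ ⊕ Γ, if l ∈ N then (1 - (Sum.elim (fun _ => t) z l : ℝ)) else 1 := by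
    rw [Finset.prod_ite_mem, Finset.univ_inter]
  rw [e1, Fintype.prod_sum_type]
  simp only [Sum.elim_inl, Sum.elim_inr]
  refine mul_le_mul ?_ ?_ (by norm_num) ?_
  · have e2 : (1 - t) ^ M.card = ∏ y : Λ, if y ∈ M then (1 - t) else 1 := by
      rw [Finset.prod_ite_mem, Finset.univ_inter, Finset.prod_const]
    rw [e2]
    refine Finset.prod_le_prod (fun y _ => ?_) fun y _ => ?_
    · split_ifs
      · linarith
      · norm_num
    · by_cases h : Sum.inl y ∈ N
      · rw [if_pos (hM y h), if_pos h]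
      · rw [if_neg h]
        split_ifs
        · linarith
        · exact le_rfl
  · have e3 := LLLs_prod (Finset.univ : Finset Γ) z hz0 hz1
    refine le_trans (by linarith) (e3.trans (Finset.prod_le_prod (fun S _ => ?_) fun S _ => ?_))
    · linarith [hz1 S]
    · split_ifs
      · exact le_rfl
      · linarith [hz0 S]
  · refine Finset.prod_nonneg fun y _ => ?_
    split_ifs
    · linarith
    · norm_num

open Classical in
theorem pick {E R Λ : Type} [Fintype E] [Fintype R] [Fintype Λ] (Gf : Finset E) (res : E → R)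
    {Q ℓ D₁ D₂ : ℝ} (hQ1 : 1 ≤ Q) (hℓ0 : 0 ≤ ℓ) (hD11 : 1 ≤ D₁) (hD21 : 1 ≤ D₂)
    (hQ : ∀ r, ((Gf.filter (fun g => res g = r)).card : ℝ) ≤ Q)
    (Lo : Λ → Finset E) (hLs : ∀ x, Lo x ⊆ Gf)
    (hinj : ∀ x, ∀ g ∈ Lo x, ∀ g' ∈ Lo x, res g = res g' → g = g')
    (hℓ : ∀ x, ℓ ≤ ((Lo x).card : ℝ)) (hD1 : ∀ x, ((Lo x).card : ℝ) ≤ D₁)
    (hD2 : ∀ r, ((univ.filter (fun x => ∃ g ∈ Lo x, res g = r)).card : ℝ) ≤ D₂)
    (Gls : Finset (Finset E)) (hGs : ∀ S ∈ Gls, S ⊆ Gf)
    (h1 : D₁ * D₂ * Real.exp (-(ℓ / (8 * Q))) ≤ 1 / 64)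
    (h2 : 16 * Q * D₂ * Real.exp (-(ℓ / (8 * Q))) ≤ 1)
    (h3 : ∑ S ∈ Gls, Real.exp (-((S.card : ℝ) / (2 * Q))) ≤ 1 / 64) :
    ∃ Pk ⊆ Gf, (∀ g ∈ Pk, ∀ g' ∈ Pk, res g = res g' → g = g') ∧
      (∀ x, ℓ / (2 * Q) ≤ ((Lo x ∩ Pk).card : ℝ)) ∧ ∀ S ∈ Gls, ∃ g ∈ S, g ∈ Pk := by
  set p : ℝ := Real.exp (-(ℓ / (8 * Q))) with hp
  have hQ0 : 0 < Q := by linarith
  have hp0 : 0 < p := Real.exp_pos _
  have hw := Pick_isW Gf res hQ1 hQ
  have hDD : 1 ≤ D₁ * D₂ := by nlinarith
  have hp64 : p ≤ 1 / 64 := by nlinarith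
  -- the index type
  let Γ : Type := {S : Finset E // S ∈ Gls}
  let z : Γ → ℝ := fun S => 2 * Real.exp (-((S.1.card : ℝ) / (2 * Q)))
  have hz0 : ∀ S, 0 ≤ z S := fun S => mul_nonneg (by norm_num) (Real.exp_pos _).le
  have hzs : ∑ S, z S ≤ 1 / 32 := by
    have e1 : ∑ S : Γ, z S = 2 * ∑ S ∈ Gls, Real.exp (-((S.card : ℝ) / (2 * Q))) := by
      rw [← Finset.mul_sum, Finset.sum_coe_sort Gls
        (fun S => Real.exp (-((S.card : ℝ) / (2 * Q))))]
    rw [e1]
    linarith
  have hz32 : ∀ S, z S ≤ 1 / 32 := fun S =>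
    (Finset.single_le_sum (f := z) (fun S _ => hz0 S) (Finset.mem_univ S)).trans hzs
  let V : Λ ⊕ Γ → Finset R := Sum.elim (fun x => (Lo x).image res) (fun S => S.1.image res)
  let A : Λ ⊕ Γ → (R → Option E) → Prop := Sum.elim
    (fun x ω => (∑ g ∈ Lo x, if ω (res g) = some g then (1 : ℝ) else 0) ≤ ℓ / Q / 2)
    (fun S ω => ∀ g ∈ S.1, ω (res g) ≠ some g)
  have hd : ∀ k, Dep (V k) (A k) := by
    rintro (x | S) ω ω' h
    · have e1 : ∀ g ∈ Lo x, (if ω (res g) = some g then (1 : ℝ) else 0) =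
          if ω' (res g) = some g then (1 : ℝ) else 0 := fun g hg => by
        rw [h (res g) (Finset.mem_image_of_mem res hg)]
      simp only [A, Sum.elim_inl]
      rw [Finset.sum_congr rfl e1]
    · simp only [A, Sum.elim_inr]
      refine propext ⟨fun h' g hg => ?_, fun h' g hg => ?_⟩
      · rw [← h (res g) (Finset.mem_image_of_mem res hg)]
        exact h' g hg
      · rw [h (res g) (Finset.mem_image_of_mem res hg)]
        exact h' g hg
  have hcard : ∀ T : Finset E, ((T.image res).card : ℝ) ≤ (T.card : ℝ) := fun T => by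
    exact_mod_cast Finset.card_image_le
  have hM : ∀ (k : Λ ⊕ Γ) (y : Λ),
      Sum.inl y ∈ univ.filter (fun l => l ≠ k ∧ ¬ Disjoint (V k) (V l)) →
      y ∈ univ.filter (fun y => ¬ Disjoint (V k) ((Lo y).image res)) := by
    intro k y hy
    exact Finset.mem_filter.2 ⟨Finset.mem_univ _, (Finset.mem_filter.1 hy).2.2⟩
  have hprod : ∀ k : Λ ⊕ Γ,
      (1 - 2 * p) ^ (univ.filter (fun y => ¬ Disjoint (V k) ((Lo y).image res))).card *
        (31 / 32) ≤ ∏ l ∈ univ.filter (fun l => l ≠ k ∧ ¬ Disjoint (V k) (V l)),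
          (1 - (Sum.elim (fun _ => 2 * p) z l : ℝ)) := fun k =>
    Pick_prod (2 * p) z (by linarith) (by linarith) hz0 (fun S => by linarith [hz32 S]) hzs _ _
      (hM k)
  obtain ⟨ω, hω0, hω⟩ := lll hw A V hd (Sum.elim (fun _ => 2 * p) z)
    (by
      rintro (x | S)
      · simp only [Sum.elim_inl]
        linarith
      · exact hz0 S)
    (by
      rintro (x | S)
      · simp only [Sum.elim_inl]
        linarith
      · simp only [Sum.elim_inr]
        linarith [hz32 S])
    (by
      rintro (x | S)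
      · have e1 := Pick_local Gf res hQ1 hQ hℓ0 (hLs x) (hinj x) (hℓ x)
        have e2 := hprod (Sum.inl x)
        have e3 := Pick_count res hD21 Lo hD2 (V (Sum.inl x))
          ((hcard (Lo x)).trans (hD1 x))
        have e4 := one_add_mul_le_pow (a := -(2 * p)) (by linarith)
          (univ.filter (fun y => ¬ Disjoint (V (Sum.inl x)) ((Lo y).image res))).card
        rw [← sub_eq_add_neg] at e4
        set n := (univ.filter (fun y => ¬ Disjoint (V (Sum.inl x)) ((Lo y).image res))).card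
        have e5 : 31 / 32 ≤ (1 - 2 * p) ^ n := by
          have : (n : ℝ) * (2 * p) ≤ D₁ * D₂ * (2 * p) :=
            mul_le_mul_of_nonneg_right e3 (by linarith)
          linarith
        refine e1.trans ?_
        simp only [Sum.elim_inl]
        refine le_trans ?_ (mul_le_mul_of_nonneg_left (e2.trans (le_of_eq
          (Finset.prod_congr (by ext; simp) fun _ _ => rfl))) (by linarith))
        nlinarith
      · have e1 := Pick_global Gf res hQ1 hQ (hGs S.1 S.2)
        have e2 := hprod (Sum.inr S)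
        have e3 := Pick_count res hD21 Lo hD2 (V (Sum.inr S)) (hcard S.1)
        set n := (univ.filter (fun y => ¬ Disjoint (V (Sum.inr S)) ((Lo y).image res))).card
        have e4 : Real.exp (-((S.1.card : ℝ) / (4 * Q))) ≤ (1 - 2 * p) ^ n := by
          have f1 := Pick_exp (t := 2 * p) (by linarith) (by linarith)
          refine le_trans ?_ (pow_le_pow_left₀ (Real.exp_pos _).le f1 n)
          rw [← Real.exp_nat_mul]
          refine Real.exp_le_exp.2 ?_
          have f2 : (n : ℝ) * (4 * p) ≤ (S.1.card : ℝ) * D₂ * (4 * p) :=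
            mul_le_mul_of_nonneg_right e3 (by linarith)
          have f3 : D₂ * (4 * p) ≤ 1 / (4 * Q) := by
            rw [le_div_iff₀ (by linarith)]
            linarith
          have f4 : (S.1.card : ℝ) * (D₂ * (4 * p)) ≤ (S.1.card : ℝ) * (1 / (4 * Q)) :=
            mul_le_mul_of_nonneg_left f3 (Nat.cast_nonneg _)
          have f5 : (S.1.card : ℝ) * (1 / (4 * Q)) = (S.1.card : ℝ) / (4 * Q) := by ring
          linarith
        refine e1.trans ?_
        simp only [Sum.elim_inr]
        refine le_trans ?_ (mul_le_mul_of_nonneg_left (e2.trans (le_of_eq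
          (Finset.prod_congr (by ext; simp) fun _ _ => rfl))) (hz0 S))
        have e5 : Real.exp (-((S.1.card : ℝ) / Q)) ≤
            Real.exp (-((S.1.card : ℝ) / (2 * Q))) * Real.exp (-((S.1.card : ℝ) / (4 * Q))) := by
          rw [← Real.exp_add]
          refine Real.exp_le_exp.2 ?_
          have g1 : (S.1.card : ℝ) / (2 * Q) = 2 * ((S.1.card : ℝ) / (4 * Q)) := by
            field_simp
            ring
          have g2 : (S.1.card : ℝ) / Q = 4 * ((S.1.card : ℝ) / (4 * Q)) := by
            field_simp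
          have g3 : 0 ≤ (S.1.card : ℝ) / (4 * Q) := by positivity
          linarith
        have e6 : Real.exp (-((S.1.card : ℝ) / (2 * Q))) *
            Real.exp (-((S.1.card : ℝ) / (4 * Q))) ≤
            Real.exp (-((S.1.card : ℝ) / (2 * Q))) * (1 - 2 * p) ^ n :=
          mul_le_mul_of_nonneg_left e4 (Real.exp_pos _).le
        have e7 : 0 < Real.exp (-((S.1.card : ℝ) / Q)) := Real.exp_pos _
        have e8 : z S * ((1 - 2 * p) ^ n * (31 / 32)) = 31 / 16 *
            (Real.exp (-((S.1.card : ℝ) / (2 * Q))) * (1 - 2 * p) ^ n) := by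
          simp only [z]
          ring
        rw [e8]
        linarith)
  refine ⟨Gf.filter (fun g => ω (res g) = some g), Finset.filter_subset _ _, ?_, ?_, ?_⟩
  · intro g hg g' hg' h
    have e1 := (Finset.mem_filter.1 hg).2
    have e2 := (Finset.mem_filter.1 hg').2
    rw [← h, e1] at e2
    exact Option.some.inj e2
  · intro x
    have e1 := hω (Sum.inl x)
    simp only [A, Sum.elim_inl, not_le] at e1
    have e2 : Lo x ∩ Gf.filter (fun g => ω (res g) = some g) =
        (Lo x).filter (fun g => ω (res g) = some g) := by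
      ext g
      simp only [Finset.mem_inter, Finset.mem_filter]
      exact ⟨fun h => ⟨h.1, h.2.2⟩, fun h => ⟨h.1, hLs x h.1, h.2⟩⟩
    have e3 : ((Lo x ∩ Gf.filter (fun g => ω (res g) = some g)).card : ℝ) =
        ∑ g ∈ Lo x, if ω (res g) = some g then (1 : ℝ) else 0 := by
      rw [e2, Finset.sum_boole]
    rw [e3]
    have e4 : ℓ / (2 * Q) = ℓ / Q / 2 := by
      field_simp
    rw [e4]
    exact e1.le
  · intro S hS
    have e1 := hω (Sum.inr ⟨S, hS⟩)
    simp only [A, Sum.elim_inr] at e1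
    push Not at e1
    obtain ⟨g, hg, e2⟩ := e1
    exact ⟨g, hg, Finset.mem_filter.2 ⟨hGs S hS hg, e2⟩⟩

end Pool.Agent.Lib.CD
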