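import Pool.Agent.Lib.MP_dcb6ed_co_CD.Glob
import Pool.Agent.Lib.MP_dcb6ed_co_CD.Pick

/-!
# The picked triples

Apply `pick` with `E = J n`, `R = El n`, `Gf`, `res g` = the element of `g` with `wE = 2` (for `g ∈ Gf`
it is unique by `w_two`; for other `g` any element), `Q = 18 u^194`, `ℓ = u^196 / 4`,
`D₁ = 4 u^200`, `D₂ = 36 u^194`, `Λ` = the subtype of the `x` with `wE x = 1`, `x ∉ cov M`,
`Lo x = Gf ∩ st x`, `Gls`.
`hQ`: `Stg.res` (for `r` with `wE r ≠ 2` the set is empty).  `hinj`: two triples with the common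
elements `x ≠ r` are equal (`eq_of_two`).  `hℓ`: `Stg.deg`.  `hD1`: `Gf ⊆ H ⊆ W1`, `Gd.maxd`.
`hD2`: if `g ∈ Gf ∩ st x`, `res g = r`, then `g ∈ Gf ∩ st r` and `x` is one of the two elements `≠ r` of
`g`; so at most `2 · 18 u^194`.  `ℓ / (8 Q) = u^2 / 576`; `144 u^394 exp (- u^2 / 576) ≤ 1/64` and
`16 · 18 · 36 · u^388 exp (- u^2 / 576) ≤ 1` for large `u`.  `h3`: `glob_sum`.
The result: `ℓ / (2 Q) = u^2 / 144`, and `lks Pk P X T = Pk ∩ lks Gf P X T`.
-/

set_option autoImplicit false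

namespace Pool.Agent.Lib.CD

open Finset Filter
open Pool.Agent.Lib.FR (J El Edge st Cf)

theorem FinPick_ev : ∀ᶠ u : ℝ in atTop, u ^ 394 * Real.exp (-(u ^ 2 / 576)) ≤ 1 / 10368 := by
  have h1 := (Real.tendsto_pow_mul_exp_neg_atTop_nhds_zero 197).const_mul ((576 : ℝ) ^ 197)
  rw [mul_zero] at h1
  have h2 : Tendsto (fun u : ℝ => u ^ 2 / 576) atTop atTop :=
    (tendsto_pow_atTop (by norm_num)).atTop_div_const (by norm_num)
  have h3 := (h1.comp h2).eventually_le_const (u := 1 / 10368) (by norm_num)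
  refine h3.mono fun u hu => ?_
  have h4 : u ^ 394 = (576 : ℝ) ^ 197 * (u ^ 2 / 576) ^ 197 := by
    rw [← mul_pow, mul_div_cancel₀ _ (by norm_num : (576 : ℝ) ≠ 0), ← pow_mul]
  rw [h4, mul_assoc]
  exact hu

open Classical in
/-- the element with two special points -/
noncomputable def FinPick_res (n : ℕ) (Z : Finset (Pt n)) (g : J n) : El n :=
  if h : ∃ r ∈ els n g, wE n Z r = 2 then h.choose else Sum.inl g.2

theorem FinPick_res_spec {n : ℕ} {Z : Finset (Pt n)} {g : J n} (h : wJ n Z g = 2) :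
    FinPick_res n Z g ∈ els n g ∧ wE n Z (FinPick_res n Z g) = 2 := by
  obtain ⟨r, hr, hr2, -⟩ := w_two h
  have h1 : ∃ r ∈ els n g, wE n Z r = 2 := ⟨r, hr, hr2⟩
  unfold FinPick_res
  rw [dif_pos h1]
  exact h1.choose_spec

theorem FinPick_res_eq {n : ℕ} {Z : Finset (Pt n)} {g : J n} (h : wJ n Z g = 2) {r : El n}
    (hr : r ∈ els n g) (hr2 : wE n Z r = 2) : FinPick_res n Z g = r := by
  obtain ⟨r0, hr0, -, h0⟩ := w_two h
  obtain ⟨h1, h2⟩ := FinPick_res_spec h
  have e1 : FinPick_res n Z g = r0 := by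
    by_contra h3
    have := h0 _ h1 h3
    omega
  have e2 : r = r0 := by
    by_contra h3
    have := h0 _ hr h3
    omega
  rw [e1, e2]

theorem FinPick_gf {n : ℕ} {Z : Finset (Pt n)} {H M : Finset (J n)} {g : J n}
    (h : g ∈ Gf n Z H M) : g ∈ H ∧ wJ n Z g = 2 := by
  unfold Gf at h
  exact ⟨(mem_filter.1 h).1, (mem_filter.1 h).2.1⟩

theorem FinPick_Q {n : ℕ} {u : ℝ} (hu : 1 ≤ u) {Z : Finset (Pt n)} {W1 H M : Finset (J n)}
    (hs : Stg n u Z W1 H M) (r : El n) (T : Finset (J n)) (hT : T ⊆ Gf n Z H M)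
    (hT' : ∀ g ∈ T, FinPick_res n Z g = r) : (T.card : ℝ) ≤ 18 * u ^ 194 := by
  by_cases h : wE n Z r = 2
  · refine le_trans ?_ (hs.res r h)
    have h1 : T ⊆ Gf n Z H M ∩ st n r := by
      intro g hg
      have h2 := (FinPick_res_spec (FinPick_gf (hT hg)).2).1
      rw [hT' g hg] at h2
      exact mem_inter.2 ⟨hT hg, mem_els.1 h2⟩
    exact_mod_cast card_le_card h1
  · have h1 : T = ∅ := by
      rw [eq_empty_iff_forall_notMem]
      intro g hg
      have h2 := (FinPick_res_spec (FinPick_gf (hT hg)).2).2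
      rw [hT' g hg] at h2
      exact h h2
    rw [h1]
    have : 0 ≤ 18 * u ^ 194 := by positivity
    simpa using this

theorem FinPick_D2 {n : ℕ} {u : ℝ} (hu : 1 ≤ u) {Z : Finset (Pt n)} {W1 H M : Finset (J n)}
    (hs : Stg n u Z W1 H M) (r : El n) (T : Finset (El n))
    (hT : ∀ x ∈ T, wE n Z x = 1 ∧ ∃ g ∈ Gf n Z H M ∩ st n x, FinPick_res n Z g = r) :
    (T.card : ℝ) ≤ 36 * u ^ 194 := by
  classical
  have h1 : T ⊆ ((Gf n Z H M).filter (fun g => FinPick_res n Z g = r)).biUnion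
      (fun g => (els n g).erase r) := by
    intro x hx
    obtain ⟨h2, g, hg, hgr⟩ := hT x hx
    obtain ⟨h3, h4⟩ := mem_inter.1 hg
    have h5 := (FinPick_res_spec (FinPick_gf h3).2).2
    rw [hgr] at h5
    refine mem_biUnion.2 ⟨g, mem_filter.2 ⟨h3, hgr⟩, mem_erase.2 ⟨?_, mem_els.2 h4⟩⟩
    rintro rfl
    omega
  have h2 := (card_le_card h1).trans card_biUnion_le
  have h3 : ∀ g ∈ (Gf n Z H M).filter (fun g => FinPick_res n Z g = r),
      ((els n g).erase r).card ≤ 2 := by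
    intro g hg
    obtain ⟨h3, h4⟩ := mem_filter.1 hg
    have h5 := (FinPick_res_spec (FinPick_gf h3).2).1
    rw [h4] at h5
    rw [card_erase_of_mem h5, (hg_els n).card3]
  have h4 := h2.trans (sum_le_sum h3)
  rw [sum_const, smul_eq_mul] at h4
  have h5 := FinPick_Q hu hs r ((Gf n Z H M).filter (fun g => FinPick_res n Z g = r))
    (filter_subset _ _) (fun g hg => (mem_filter.1 hg).2)
  have h6 : (T.card : ℝ) ≤
      (((Gf n Z H M).filter (fun g => FinPick_res n Z g = r)).card : ℝ) * 2 := by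
    exact_mod_cast h4
  linarith

theorem FinPick_Q' {n : ℕ} {u : ℝ} (hu : 1 ≤ u) {Z : Finset (Pt n)} {W1 H M : Finset (J n)}
    (hs : Stg n u Z W1 H M) (r : El n)
    (inst : DecidablePred (fun g : J n => FinPick_res n Z g = r)) :
    ((@Finset.filter _ (fun g : J n => FinPick_res n Z g = r) inst (Gf n Z H M)).card : ℝ) ≤
      18 * u ^ 194 :=
  FinPick_Q hu hs r _ (fun _ hg => ((@Finset.mem_filter _ _ inst _ _).1 hg).1)
    (fun _ hg => ((@Finset.mem_filter _ _ inst _ _).1 hg).2)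

theorem FinPick_D2' {n : ℕ} {u : ℝ} (hu : 1 ≤ u) {Z : Finset (Pt n)} {W1 H M : Finset (J n)}
    (hs : Stg n u Z W1 H M) (r : El n)
    (ft : Fintype {x : El n // wE n Z x = 1 ∧ x ∉ cov (els n) M})
    (inst : DecidablePred (fun x : {x : El n // wE n Z x = 1 ∧ x ∉ cov (els n) M} =>
      ∃ g ∈ Gf n Z H M ∩ st n x.1, FinPick_res n Z g = r)) :
    ((@Finset.filter _ (fun x : {x : El n // wE n Z x = 1 ∧ x ∉ cov (els n) M} =>
      ∃ g ∈ Gf n Z H M ∩ st n x.1, FinPick_res n Z g = r) inst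
        (@Finset.univ _ ft)).card : ℝ) ≤ 36 * u ^ 194 := by
  have h2 := FinPick_D2 hu hs r ((@Finset.filter _ (fun x : {x : El n // wE n Z x = 1 ∧
    x ∉ cov (els n) M} => ∃ g ∈ Gf n Z H M ∩ st n x.1, FinPick_res n Z g = r) inst
        (@Finset.univ _ ft)).image Subtype.val) ?_
  · rw [card_image_of_injective _ Subtype.val_injective] at h2
    exact h2
  · intro y hy
    obtain ⟨x, hx, rfl⟩ := mem_image.1 hy
    exact ⟨x.2.1, ((@Finset.mem_filter _ _ inst _ _).1 hx).2⟩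

theorem fin_pick : ∀ᶠ u : ℝ in atTop, ∀ (n : ℕ) (α : ℝ), u ^ 400 ≤ n →
    ∀ (Z : Finset (Pt n)) (W0 W1 H M : Finset (J n)), Gd n u α Z W0 W1 → W0 ⊆ H → H ⊆ W1 →
    Stg n u Z W1 H M → ∃ Pk, PkOK n u Z H M Pk := by
  classical
  filter_upwards [glob_sum, eventually_ge_atTop (1 : ℝ), FinPick_ev] with u hgl hu hev
  intro n α hn Z W0 W1 H M hg h0 h1 hs
  have hu0 : 0 < u := by linarith
  have e200 : 1 ≤ u ^ 200 := one_le_pow₀ hu
  have e194 : 1 ≤ u ^ 194 := one_le_pow₀ hu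
  have e8 : u ^ 196 / 4 / (8 * (18 * u ^ 194)) = u ^ 2 / 576 := by
    have : u ^ 196 = u ^ 2 * u ^ 194 := by rw [← pow_add]
    rw [this]
    have h3 : u ^ 194 ≠ 0 := by positivity
    field_simp
    norm_num
  have e2 : u ^ 196 / 4 / (2 * (18 * u ^ 194)) = u ^ 2 / 144 := by
    have : u ^ 196 = u ^ 2 * u ^ 194 := by rw [← pow_add]
    rw [this]
    have h3 : u ^ 194 ≠ 0 := by positivity
    field_simp
    norm_num
  have hexp : 0 < Real.exp (-(u ^ 2 / 576)) := Real.exp_pos _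
  obtain ⟨Pk, hPk, hinj, hdeg, hglob⟩ := pick (Λ := {x : El n // wE n Z x = 1 ∧
      x ∉ cov (els n) M}) (Gf n Z H M) (FinPick_res n Z) (Q := 18 * u ^ 194)
    (ℓ := u ^ 196 / 4) (D₁ := 4 * u ^ 200) (D₂ := 36 * u ^ 194) (by linarith) (by positivity)
    (by linarith) (by linarith)
    (fun r => FinPick_Q' hu hs r _)
    (fun x => Gf n Z H M ∩ st n x.1) (fun x => inter_subset_left)
    (by
      intro x g hg g' hg' h
      obtain ⟨h2, h3⟩ := mem_inter.1 hg
      obtain ⟨h4, h5⟩ := mem_inter.1 hg'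
      obtain ⟨h6, h7⟩ := FinPick_res_spec (FinPick_gf h2).2
      obtain ⟨h8, -⟩ := FinPick_res_spec (FinPick_gf h4).2
      rw [← h] at h8
      refine eq_of_two (a := x.1) (b := FinPick_res n Z g) ?_ (mem_els.2 h3) h6
        (mem_els.2 h5) h8
      intro h9
      have := x.2.1
      rw [h9] at this
      omega)
    (fun x => hs.deg x.1 x.2.1 x.2.2)
    (by
      intro x
      refine le_trans ?_ (hg.maxd x.1)
      have : Gf n Z H M ∩ st n x.1 ⊆ W1 ∩ st n x.1 :=
        inter_subset_inter_right fun g hg => h1 (FinPick_gf hg).1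
      exact_mod_cast card_le_card this)
    (fun r => FinPick_D2' hu hs r _ _)
    (Gls n u Z H M)
    (by
      intro S hS
      unfold Gls at hS
      obtain ⟨P, -, X, R, T, -, -, -, -, -, -, -, -, rfl⟩ := (mem_filter.1 hS).2
      unfold lks
      exact filter_subset _ _)
    (by
      rw [e8]
      have : u ^ 394 = u ^ 200 * u ^ 194 := by rw [← pow_add]
      rw [this] at hev
      nlinarith)
    (by
      rw [e8]
      have h2 : u ^ 194 * u ^ 194 ≤ u ^ 394 := by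
        rw [← pow_add]
        exact pow_le_pow_right₀ hu (by norm_num)
      have h3 := mul_le_mul_of_nonneg_right h2 hexp.le
      nlinarith)
    (hgl n α hn Z W0 W1 H M hg h0 hs)
  refine ⟨Pk, hPk, ?_, ?_, ?_⟩
  · intro g hg g' hg' r hr hr' hr2
    refine hinj g hg g' hg' ?_
    rw [FinPick_res_eq (FinPick_gf (hPk hg)).2 hr hr2,
      FinPick_res_eq (FinPick_gf (hPk hg')).2 hr' hr2]
  · intro x hx hx'
    have h2 := hdeg ⟨x, hx, hx'⟩
    rw [e2] at h2
    refine h2.trans ?_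
    have h3 : Gf n Z H M ∩ st n x ∩ Pk ⊆ Pk ∩ st n x := by
      intro g hg
      rw [mem_inter, mem_inter] at hg
      exact mem_inter.2 ⟨hg.2, hg.1.2⟩
    refine le_trans (le_of_eq ?_) (Nat.cast_le.2 (card_le_card h3))
    rw [Nat.cast_inj]
    refine congrArg Finset.card (Finset.ext fun g => ?_)
    simp only [Finset.mem_inter]
  · intro P hP X R T hX hT hXT hV hXc hTc hR hor
    obtain ⟨g, hg, hg'⟩ := hglob (lks n (Gf n Z H M) P X T) (by
      unfold Gls
      exact mem_filter.2 ⟨mem_univ _, P, hP, X, R, T, hX, hT, hXT, hV, hXc, hTc, hR, hor, rfl⟩)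
    refine ⟨g, ?_⟩
    unfold lks at hg ⊢
    exact mem_filter.2 ⟨hg', (mem_filter.1 hg).2⟩

end Pool.Agent.Lib.CD
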