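import Mathlib

/-!
# A criterion for perfect matchings in graphs

The graph `R` on `U`, `|U|` even, minimal degree at least `k`, small sets `X ⊆ Y ⊆ U` span at most
`2 K (|X| + |Y|)` (ordered) pairs, `6 K < k`.

Proof.  Let `G` be the graph on the subtype of `U`.  By Tutte's theorem (`SimpleGraph.tutte`), if
there is no perfect matching there is a set `S` such that `U \ S` has more than `|S|` odd
components.  So `U \ S` has `q ≥ |S| + 1` components, all nonempty; if `S = ∅` the number of odd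
components is even (`SimpleGraph.odd_ncard_oddComponents`), so `q ≥ 2` in all cases.
In particular `|S| + 1 ≤ |U| - |S|`, so `2 |S| < |U|`.

Case 1: there is a component `T` with `8 |T| ≥ |U|`.  Let `X = (U \ S) \ T`, the union of the other
components: `|X| ≥ q - 1 ≥ |S|`, `|X| ≥ 1`.  There is no edge between `X` and `T`, and
`U \ (X ∪ T) = S` has at most `|X|` elements.  So by `hl` we have `5 |X| < s`.  All neighbours of
the elements of `X` are in `Y = X ∪ S`, `|Y| ≤ 2 |X| ≤ s`, so
`k |X| ≤ |{(x, y) ∈ X × Y : R x y}| ≤ 2 K (|X| + |Y|) ≤ 6 K |X|`, a contradiction.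

Case 2: all components have less than `|U| / 8` elements.  As `|U \ S| > |U| / 2` a union `T` of
some components satisfies `|U| / 8 ≤ |T| < |U| / 4` (take a union `T` of components which is
maximal with `|T| < |U| / 4`; adding one more component would add less than `|U| / 8`, so
`|T| ≥ |U| / 8`).  Let `X` be the union of the remaining components, `|X| > |U| / 4`, so
`4 |X| ≥ |U| ≥ |S|` and `s ≤ |U| / 2 ≤ 5 |X|`; there is no edge between `X` and `T`: a
contradiction to `hl`.
-/

set_option autoImplicit false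

namespace Pool.Agent.Lib.CD

open Finset

open Classical in
/-- The combinatorial part: `c` is the component. -/
private theorem TutteC_aux {V ι : Type} [Fintype V] [DecidableEq ι] (U S : Finset V)
    (R : V → V → Prop)
    (hSU : S ⊆ U) (c : V → ι) (hc : ∀ x ∈ U \ S, ∀ y ∈ U \ S, R x y → c x = c y)
    (h1 : S.card + 1 ≤ ((U \ S).image c).card) (h2 : 2 ≤ ((U \ S).image c).card) {k K s : ℝ}
    (hK0 : 0 ≤ K) (hK : 6 * K < k) (hU : 2 * s ≤ U.card)
    (hd : ∀ x ∈ U, k ≤ ((U.filter (fun y => R x y)).card : ℝ))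
    (hsp : ∀ X Y : Finset V, X ⊆ Y → Y ⊆ U → (Y.card : ℝ) ≤ s →
      (((X ×ˢ Y).filter (fun p => R p.1 p.2)).card : ℝ) ≤ 2 * K * (X.card + Y.card))
    (hl : ∀ X ⊆ U, ∀ T ⊆ U, Disjoint X T → s ≤ 5 * X.card → U.card ≤ 8 * T.card →
      (U \ (X ∪ T)).card ≤ 4 * X.card → ∃ x ∈ X, ∃ t ∈ T, R x t) : False := by
  obtain ⟨W, hW⟩ : ∃ W : Finset V, W = U \ S := ⟨_, rfl⟩
  rw [← hW] at hc h1 h2
  have hWU : W ⊆ U := by rw [hW]; exact sdiff_subset
  have hWS : W.card + S.card = U.card := by
    rw [hW]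
    exact card_sdiff_add_card_eq_card hSU
  have hqW : (W.image c).card ≤ W.card := card_image_le
  have hUS : ∀ X T : Finset V, X ∪ T = W → U \ (X ∪ T) = S := by
    intro X T h
    rw [h, hW, sdiff_sdiff_right_self]
    exact inf_eq_right.2 hSU
  by_cases hbig : ∃ a ∈ W.image c, U.card ≤ 8 * (W.filter (fun x => c x = a)).card
  · obtain ⟨a, ha, ha8⟩ := hbig
    obtain ⟨X, hX⟩ : ∃ X : Finset V, X = W.filter (fun x => c x ≠ a) := ⟨_, rfl⟩
    obtain ⟨T, hT⟩ : ∃ T : Finset V, T = W.filter (fun x => c x = a) := ⟨_, rfl⟩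
    have hXW : X ⊆ W := by rw [hX]; exact filter_subset _ _
    have hTW : T ⊆ W := by rw [hT]; exact filter_subset _ _
    have hXT : X ∪ T = W := by
      rw [hX, hT, union_comm]
      exact filter_union_filter_not_eq (fun x => c x = a) W
    have hdis : Disjoint X T := by
      rw [hX, hT]
      exact (disjoint_filter_filter_not W W (fun x => c x = a)).symm
    have hXc : (W.image c).card - 1 ≤ X.card := by
      have h3 : (W.image c).erase a ⊆ X.image c := by
        intro b hb
        obtain ⟨hb1, hb2⟩ := mem_erase.1 hb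
        obtain ⟨x, hx, rfl⟩ := mem_image.1 hb2
        refine mem_image.2 ⟨x, ?_, rfl⟩
        rw [hX]
        exact mem_filter.2 ⟨hx, hb1⟩
      have h4 := card_le_card h3
      rw [card_erase_of_mem ha] at h4
      exact h4.trans card_image_le
    have hXS : S.card ≤ X.card := by omega
    have hX1 : 1 ≤ X.card := by omega
    have h5 : (5:ℝ) * X.card < s := by
      by_contra h5
      push Not at h5
      obtain ⟨x, hx, t, ht, hxt⟩ := hl X (hXW.trans hWU) T (hTW.trans hWU) hdis h5
        (by rw [hT]; exact ha8) (by rw [hUS X T hXT]; omega)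
      have h6 := hc x (hXW hx) t (hTW ht) hxt
      rw [hX] at hx
      rw [hT] at ht
      exact (mem_filter.1 hx).2 (h6.trans (mem_filter.1 ht).2)
    obtain ⟨Y, hY⟩ : ∃ Y : Finset V, Y = X ∪ S := ⟨_, rfl⟩
    have hYU : Y ⊆ U := by
      rw [hY]
      exact union_subset (hXW.trans hWU) hSU
    have hYc : Y.card ≤ 2 * X.card := by
      rw [hY]
      exact (card_union_le _ _).trans (by omega)
    have hYr : (Y.card : ℝ) ≤ 2 * X.card := by exact_mod_cast hYc
    have hXr : (1:ℝ) ≤ X.card := by exact_mod_cast hX1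
    have h6 := hsp X Y (by rw [hY]; exact subset_union_left) hYU (by linarith)
    have h7 : ((X ×ˢ Y).filter (fun p => R p.1 p.2)).card =
        ∑ x ∈ X, (Y.filter (fun y => R x y)).card := by
      rw [card_filter, sum_product]
      refine sum_congr rfl fun x _ => ?_
      rw [card_filter]
    have h8 : ∀ x ∈ X, k ≤ ((Y.filter (fun y => R x y)).card : ℝ) := by
      intro x hx
      refine (hd x (hWU (hXW hx))).trans ?_
      have h9 : U.filter (fun y => R x y) ⊆ Y.filter (fun y => R x y) := by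
        intro y hy
        obtain ⟨hy1, hy2⟩ := mem_filter.1 hy
        refine mem_filter.2 ⟨?_, hy2⟩
        rw [hY]
        by_cases hyS : y ∈ S
        · exact mem_union_right _ hyS
        · refine mem_union_left _ ?_
          have hyW : y ∈ W := by
            rw [hW]
            exact mem_sdiff.2 ⟨hy1, hyS⟩
          have h10 := hc x (hXW hx) y hyW hy2
          rw [hX] at hx ⊢
          refine mem_filter.2 ⟨hyW, ?_⟩
          rw [← h10]
          exact (mem_filter.1 hx).2
      exact_mod_cast card_le_card h9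
    rw [h7] at h6
    push_cast at h6
    have h9 : (X.card : ℝ) * k ≤ ∑ x ∈ X, ((Y.filter (fun y => R x y)).card : ℝ) := by
      rw [← nsmul_eq_mul, ← sum_const]
      exact sum_le_sum h8
    nlinarith
  · push Not at hbig
    have hex : ((W.image c).powerset.filter
        (fun A => 4 * (W.filter (fun x => c x ∈ A)).card < U.card)).Nonempty := by
      refine ⟨∅, mem_filter.2 ⟨empty_mem_powerset _, ?_⟩⟩
      have h0 : W.filter (fun x => c x ∈ (∅ : Finset ι)) = ∅ := by simp
      rw [h0, card_empty]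
      omega
    obtain ⟨A, hA, hmax⟩ := exists_max_image _ (fun A => (W.filter (fun x => c x ∈ A)).card) hex
    obtain ⟨hA1, hA2⟩ := mem_filter.1 hA
    rw [mem_powerset] at hA1
    obtain ⟨X, hX⟩ : ∃ X : Finset V, X = W.filter (fun x => c x ∉ A) := ⟨_, rfl⟩
    obtain ⟨T, hT⟩ : ∃ T : Finset V, T = W.filter (fun x => c x ∈ A) := ⟨_, rfl⟩
    rw [← hT] at hA2
    have hXW : X ⊆ W := by rw [hX]; exact filter_subset _ _
    have hTW : T ⊆ W := by rw [hT]; exact filter_subset _ _
    have hXT : X ∪ T = W := by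
      rw [hX, hT, union_comm]
      exact filter_union_filter_not_eq (fun x => c x ∈ A) W
    have hdis : Disjoint X T := by
      rw [hX, hT]
      exact (disjoint_filter_filter_not W W (fun x => c x ∈ A)).symm
    have hcard : X.card + T.card = W.card := by
      rw [← hXT, card_union_of_disjoint hdis]
    have hX4 : U.card < 4 * X.card := by omega
    have hT8 : U.card ≤ 8 * T.card := by
      have hne : ∃ x ∈ W, c x ∉ A := by
        have : 0 < X.card := by omega
        obtain ⟨x, hx⟩ := card_pos.1 this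
        rw [hX] at hx
        exact ⟨x, (mem_filter.1 hx).1, (mem_filter.1 hx).2⟩
      obtain ⟨x, hxW, hxA⟩ := hne
      have h3 := hbig (c x) (mem_image_of_mem _ hxW)
      have h4 : W.filter (fun y => c y ∈ insert (c x) A) =
          W.filter (fun y => c y = c x) ∪ T := by
        rw [hT, ← filter_or]
        refine filter_congr fun y _ => ?_
        rw [mem_insert]
      have h5 : Disjoint (W.filter (fun y => c y = c x)) T := by
        rw [hT, disjoint_filter]
        intro y _ hy1 hy2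
        rw [hy1] at hy2
        exact hxA hy2
      have h6 : 0 < (W.filter (fun y => c y = c x)).card :=
        card_pos.2 ⟨x, mem_filter.2 ⟨hxW, rfl⟩⟩
      by_contra h7
      have h8 : insert (c x) A ∈ (W.image c).powerset.filter
          (fun A => 4 * (W.filter (fun x => c x ∈ A)).card < U.card) := by
        refine mem_filter.2 ⟨mem_powerset.2 (insert_subset (mem_image_of_mem _ hxW) hA1), ?_⟩
        rw [h4, card_union_of_disjoint h5]
        omega
      have h9 := hmax _ h8
      rw [h4, card_union_of_disjoint h5, ← hT] at h9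
      omega
    have hXr : (U.card : ℝ) ≤ 4 * X.card := by exact_mod_cast hX4.le
    have hX0 : (0:ℝ) ≤ X.card := Nat.cast_nonneg _
    obtain ⟨x, hx, t, ht, hxt⟩ := hl X (hXW.trans hWU) T (hTW.trans hWU) hdis (by linarith)
      hT8 (by rw [hUS X T hXT]; omega)
    have h6 := hc x (hXW hx) t (hTW ht) hxt
    rw [hX] at hx
    rw [hT] at ht
    have h7 := (mem_filter.1 ht).2
    rw [← h6] at h7
    exact (mem_filter.1 hx).2 h7

open Classical in
theorem tutte_crit {V : Type} [Fintype V] (U : Finset V) (R : V → V → Prop)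
    (hs : ∀ x y, R x y → R y x) (hi : ∀ x, ¬ R x x) (he : Even U.card) {k K s : ℝ}
    (hK0 : 0 ≤ K) (hK : 6 * K < k) (hU : 2 * s ≤ U.card)
    (hd : ∀ x ∈ U, k ≤ ((U.filter (fun y => R x y)).card : ℝ))
    (hsp : ∀ X Y : Finset V, X ⊆ Y → Y ⊆ U → (Y.card : ℝ) ≤ s →
      (((X ×ˢ Y).filter (fun p => R p.1 p.2)).card : ℝ) ≤ 2 * K * (X.card + Y.card))
    (hl : ∀ X ⊆ U, ∀ T ⊆ U, Disjoint X T → s ≤ 5 * X.card → U.card ≤ 8 * T.card →
      (U \ (X ∪ T)).card ≤ 4 * X.card → ∃ x ∈ X, ∃ t ∈ T, R x t) :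
    ∃ f : V → V, ∀ x ∈ U, f x ∈ U ∧ R x (f x) ∧ f (f x) = x := by
  let G : SimpleGraph {x // x ∈ U} :=
    { Adj := fun x y => R x.1 y.1
      symm := ⟨fun x y h => hs _ _ h⟩
      loopless := ⟨fun x h => hi _ h⟩ }
  have hG : ∃ M : G.Subgraph, M.IsPerfectMatching := by
    rw [SimpleGraph.tutte]
    intro u hu
    unfold SimpleGraph.IsTutteViolator at hu
    have hvm : ∀ v : {x // x ∈ U}, v ∈ ((⊤ : G.Subgraph).deleteVerts u).verts ↔ v ∉ u := by
      intro v
      simp
    have hfin : Finite ((⊤ : G.Subgraph).deleteVerts u).verts := inferInstance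
    obtain ⟨S, hS⟩ : ∃ S : Finset V,
        S = U.filter (fun x => ∃ h : x ∈ U, (⟨x, h⟩ : {x // x ∈ U}) ∈ u) := ⟨_, rfl⟩
    have hmemS : ∀ x, x ∈ U \ S ↔ ∃ h : x ∈ U, (⟨x, h⟩ : {x // x ∈ U}) ∉ u := by
      intro x
      rw [hS, mem_sdiff, mem_filter]
      constructor
      · rintro ⟨h1, h2⟩
        exact ⟨h1, fun h3 => h2 ⟨h1, h1, h3⟩⟩
      · rintro ⟨h1, h2⟩
        exact ⟨h1, fun h3 => h2 (by obtain ⟨_, h4, h5⟩ := h3; exact h5)⟩
    have hScard : S.card = u.ncard := by
      have h1 : (Subtype.val '' u : Set V) = (S : Set V) := by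
        ext x
        rw [hS]
        constructor
        · rintro ⟨y, hy, rfl⟩
          exact mem_coe.2 (mem_filter.2 ⟨y.2, y.2, hy⟩)
        · intro hx
          obtain ⟨_, h2, h3⟩ := mem_filter.1 (mem_coe.1 hx)
          exact ⟨⟨x, h2⟩, h3, rfl⟩
      rw [← Set.ncard_coe_finset, ← h1, Set.ncard_image_of_injective _ Subtype.val_injective]
    obtain ⟨c, hc⟩ : ∃ c : V → Option ((⊤ : G.Subgraph).deleteVerts u).coe.ConnectedComponent,
        c = fun x => if h : ∃ h : x ∈ U, (⟨x, h⟩ : {x // x ∈ U}) ∉ u then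
          some (((⊤ : G.Subgraph).deleteVerts u).coe.connectedComponentMk
            ⟨⟨x, h.1⟩, (hvm _).2 h.2⟩) else none := ⟨_, rfl⟩
    have hcx : ∀ (x : V) (h : x ∈ U) (h' : (⟨x, h⟩ : {x // x ∈ U}) ∉ u),
        c x = some (((⊤ : G.Subgraph).deleteVerts u).coe.connectedComponentMk
            ⟨⟨x, h⟩, (hvm _).2 h'⟩) := by
      intro x h h'
      rw [hc]
      exact dif_pos ⟨h, h'⟩
    have hodd : ((⊤ : G.Subgraph).deleteVerts u).coe.oddComponents.ncard ≤
        ((U \ S).image c).card := by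
      rw [← Set.ncard_image_of_injective _ (Option.some_injective _), ← Set.ncard_coe_finset]
      refine Set.ncard_le_ncard ?_ (finite_toSet _)
      rintro _ ⟨C, _, rfl⟩
      obtain ⟨v, rfl⟩ := C.exists_rep
      obtain ⟨⟨x, hx⟩, hv⟩ := v
      have hv' := (hvm _).1 hv
      exact mem_coe.2 (mem_image.2 ⟨x, (hmemS x).2 ⟨hx, hv'⟩, hcx x hx hv'⟩)
    have hpar : ((⊤ : G.Subgraph).deleteVerts u).coe.oddComponents.ncard ≠ 1 := by
      intro h1
      have hu0 : u = ∅ := by
        rw [← Set.ncard_eq_zero]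
        omega
      have h2 : Odd (((⊤ : G.Subgraph).deleteVerts u).coe.oddComponents.ncard) := by
        rw [h1]
        exact odd_one
      rw [SimpleGraph.odd_ncard_oddComponents] at h2
      have h3 : Nat.card ((⊤ : G.Subgraph).deleteVerts u).verts = U.card := by
        rw [hu0]
        simp
      rw [h3] at h2
      exact (Nat.not_odd_iff_even.2 he) h2
    refine TutteC_aux U S R (by rw [hS]; exact filter_subset _ _) c ?_ (by omega) (by omega)
      hK0 hK hU hd hsp hl
    intro x hx y hy hxy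
    obtain ⟨hx1, hx2⟩ := (hmemS x).1 hx
    obtain ⟨hy1, hy2⟩ := (hmemS y).1 hy
    rw [hcx x hx1 hx2, hcx y hy1 hy2]
    congr 1
    apply SimpleGraph.ConnectedComponent.connectedComponentMk_eq_of_adj
    rw [SimpleGraph.Subgraph.coe_adj, SimpleGraph.Subgraph.deleteVerts_adj]
    exact ⟨trivial, hx2, trivial, hy2, hxy⟩
  obtain ⟨M, hM⟩ := hG
  have hM1 : ∀ v : {x // x ∈ U}, ∃! w, M.Adj v w := by
    intro v
    exact hM.1 (hM.2 v)
  choose w hw hw' using hM1
  refine ⟨fun x => if h : x ∈ U then (w ⟨x, h⟩).1 else x, fun x hx => ?_⟩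
  have h1 : (fun x => if h : x ∈ U then (w ⟨x, h⟩).1 else x) x = (w ⟨x, hx⟩).1 := dif_pos hx
  have h2 : (w ⟨x, hx⟩).1 ∈ U := (w ⟨x, hx⟩).2
  refine ⟨?_, ?_, ?_⟩
  · rw [h1]
    exact h2
  · rw [h1]
    exact M.adj_sub (hw ⟨x, hx⟩)
  · rw [h1]
    have h3 : (fun x => if h : x ∈ U then (w ⟨x, h⟩).1 else x) (w ⟨x, hx⟩).1 =
        (w ⟨(w ⟨x, hx⟩).1, h2⟩).1 := dif_pos h2
    rw [h3]
    have h4 := hw' (w ⟨x, hx⟩) ⟨x, hx⟩ (M.symm.symm _ _ (hw ⟨x, hx⟩))
    exact (congrArg Subtype.val h4).symm

end Pool.Agent.Lib.CD
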