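import Pool.Agent.Lib.MP_dcb6ed_co_CD.Size
import Pool.Agent.Lib.MP_dcb6ed_co_CD.TutteC

/-!
# Completion at a colour which is not special

`P = inr c ∉ Z`, `U = UP P`, all elements of `U` are vertices and `|U|` is even (`up_colour`).  If
`U = ∅` take `N = ∅`.  Otherwise `|U| > n / (512 u^4)` (`size_colour`).  `R x y` : `x ≠ y` and there is
`g ∈ Pk` with `ptJ g = {P, x, y}`.  Apply `tutte_crit` with `V = Pt n`, `k = u^2 / 144`, `K = 2 u`,
`s = n / (8 u^199)`; `12 u < u^2 / 144` and `2 s ≤ n / (512 u^4)` for large `u`.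
`hd`: for `x ∈ U` let `a` be the element with `ptE a = {P, x}`; by `PkOK.deg` there are at least `k`
triples in `Pk ∩ st a`, each is `{P, x, t}` with `t ∈ U`, `t ≠ x` (`gf_at`); `t` determines it.
`hsp`: `X ⊆ Y ⊆ U`: an ordered pair `(x, y) ∈ X × Y` with `R x y` gives a triple of `lks W1 P X Y`, and
every triple is obtained from at most two ordered pairs; `Gd.sp1` (`|X| ≤ |Y| ≤ s`).
`hl`: `|X| ≥ s / 5 = n / (40 u^199)`, `|T| ≥ |U| / 8 ≥ n / (4096 u^4)`; with
`R = U \ (X ∪ T)` we have `T = U \ (X ∪ R)`; `Val P X T` by `exists_ptJ` (`x ≠ t` are vertices);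
`PkOK.glob`.
`N` is the set of the `g ∈ Pk` with `ptJ g = {P, x, f x}` for some `x ∈ U`; the pairs
`{x, f x}` are equal or disjoint.
-/

set_option autoImplicit false

namespace Pool.Agent.Lib.CD

open Finset Filter
open Pool.Agent.Lib.FR (J El Edge st Cf)

private theorem PMc_num {u : ℝ} (hu : 2000 ≤ u) (n : ℕ) :
    2 * ((n : ℝ) / (8 * u ^ 199)) ≤ n / (512 * u ^ 4) := by
  have hu0 : (0 : ℝ) < u := by linarith
  have h1 : (128 : ℝ) ≤ u ^ 195 := by
    have h2 : u ≤ u ^ 195 := le_self_pow₀ (by linarith) (by norm_num)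
    linarith
  have h3 : 512 * u ^ 4 ≤ 4 * u ^ 199 := by
    have h4 : u ^ 199 = u ^ 195 * u ^ 4 := by rw [← pow_add]
    rw [h4]
    have h5 : 0 < u ^ 4 := by positivity
    nlinarith
  calc 2 * ((n : ℝ) / (8 * u ^ 199)) = n / (4 * u ^ 199) := by
        field_simp
        ring
    _ ≤ n / (512 * u ^ 4) := by
        exact div_le_div_of_nonneg_left (Nat.cast_nonneg n) (by positivity) h3

private theorem PMc_UP {n : ℕ} {Z : Finset (Pt n)} {M : Finset (J n)} {P x : Pt n}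
    (h : x ∈ UP n Z M P) : x ∈ Z := by
  unfold UP at h
  exact (mem_filter.1 h).1

private theorem PMc_swap {n : ℕ} (P x y : Pt n) : ({P, x, y} : Finset (Pt n)) = {P, y, x} := by
  ext z
  simp only [mem_insert, mem_singleton]
  tauto

open Classical in
private theorem PMc_hd {n : ℕ} {u : ℝ} {Z : Finset (Pt n)} {H M Pk : Finset (J n)} {P : Pt n}
    (hP : P ∉ Z) (hk : PkOK n u Z H M Pk) (x : Pt n) (hx : x ∈ UP n Z M P) :
    u ^ 2 / 144 ≤ (((UP n Z M P).filter
      (fun y => x ≠ y ∧ ∃ g ∈ Pk, ptJ n g = {P, x, y})).card : ℝ) := by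
  obtain ⟨a, ha1, ha2, ha3, ha4⟩ := gf_at (H := H) hP hx
  refine (hk.deg a ha2 ha3).trans ?_
  have h1 : ∀ g ∈ Pk ∩ st n a, ∃ t ∈ UP n Z M P, t ≠ x ∧ t ≠ P ∧ ptJ n g = {P, x, t} := by
    intro g hg
    rw [mem_inter] at hg
    exact ha4 g (mem_inter.2 ⟨hk.sub hg.1, hg.2⟩)
  have : Nonempty (Pt n) := ⟨x⟩
  choose! t ht1 ht2 ht3 ht4 using h1
  have h2 : (Pk ∩ st n a).card ≤ ((UP n Z M P).filter
      (fun y => x ≠ y ∧ ∃ g ∈ Pk, ptJ n g = {P, x, y})).card := by
    refine card_le_card_of_injOn t (fun g hg => ?_) ?_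
    · have hg' : g ∈ Pk ∩ st n a := hg
      exact mem_filter.2 ⟨ht1 g hg', (ht2 g hg').symm, g, (mem_inter.1 hg').1, ht4 g hg'⟩
    · intro g hg g' hg' h
      have h3 := ht4 g hg
      have h4 := ht4 g' hg'
      rw [h] at h3
      exact ptJ_inj (h3.trans h4.symm)
  exact_mod_cast h2

open Classical in
private theorem PMc_hsp {n : ℕ} {W : Finset (J n)} {Pk : Finset (J n)} (hW : Pk ⊆ W) {P : Pt n}
    (X Y : Finset (Pt n)) (hX : ∀ x ∈ X, x ≠ P) (hY : ∀ y ∈ Y, y ≠ P) :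
    ((X ×ˢ Y).filter (fun p => p.1 ≠ p.2 ∧ ∃ g ∈ Pk, ptJ n g = {P, p.1, p.2})).card ≤
      2 * (lks n W P X Y).card := by
  obtain ⟨S, hS⟩ : ∃ S : Finset (Pt n × Pt n), S = (X ×ˢ Y).filter
    (fun p => p.1 ≠ p.2 ∧ ∃ g ∈ Pk, ptJ n g = {P, p.1, p.2}) := ⟨_, rfl⟩
  rw [← hS]
  have h1 : ∀ p ∈ S, p.1 ∈ X ∧ p.2 ∈ Y ∧ p.1 ≠ p.2 ∧ ∃ g ∈ Pk, ptJ n g = {P, p.1, p.2} := by
    intro p hp
    rw [hS, mem_filter, mem_product] at hp
    exact ⟨hp.1.1, hp.1.2, hp.2.1, hp.2.2⟩
  rcases S.eq_empty_or_nonempty with he | ⟨p0, hp0⟩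
  · rw [he, card_empty]
    exact Nat.zero_le _
  obtain ⟨g0, -, -⟩ := (h1 p0 hp0).2.2.2
  have : Nonempty (J n) := ⟨g0⟩
  choose! g hg1 hg2 using fun p (hp : p ∈ S) => (h1 p hp).2.2.2
  refine card_le_mul_card_image_of_maps_to (f := g) (fun p hp => ?_) 2 (fun b _ => ?_)
  · unfold lks
    obtain ⟨h2, h3, h4, -⟩ := h1 p hp
    exact mem_filter.2 ⟨hW (hg1 p hp), p.1, h2, p.2, h3, h4, hX _ h2, hY _ h3, hg2 p hp⟩
  · have h2 : S.filter (fun p => g p = b) ⊆ ((ptJ n b).erase P).offDiag := by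
      intro p hp
      obtain ⟨hp1, hp2⟩ := mem_filter.1 hp
      obtain ⟨h2, h3, h4, -⟩ := h1 p hp1
      have h5 := hg2 p hp1
      rw [hp2] at h5
      rw [mem_offDiag, mem_erase, mem_erase, h5]
      refine ⟨⟨hX _ h2, ?_⟩, ⟨hY _ h3, ?_⟩, h4⟩
      · exact mem_insert_of_mem (mem_insert_self _ _)
      · exact mem_insert_of_mem (mem_insert_of_mem (mem_singleton_self _))
    by_cases hPb : P ∈ ptJ n b
    · refine (card_le_card h2).trans ?_
      rw [offDiag_card, card_erase_of_mem hPb, card_ptJ]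
    · have h3 : S.filter (fun p => g p = b) = ∅ := by
        refine eq_empty_of_forall_notMem fun p hp => ?_
        obtain ⟨hp1, hp2⟩ := mem_filter.1 hp
        have h5 := hg2 p hp1
        rw [hp2] at h5
        exact hPb (by rw [h5]; exact mem_insert_self _ _)
      rw [h3, card_empty]
      exact Nat.zero_le _

private theorem PMc_val {n : ℕ} {c : Fin (2 * n - 1)} {X T : Finset (Pt n)}
    (hX : ∀ x ∈ X, x.isLeft = true) (hT : ∀ t ∈ T, t.isLeft = true) (hd : Disjoint X T) :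
    Val n (Sum.inr c) X T := by
  intro x hx t ht
  have h1 := hX x hx
  have h2 := hT t ht
  have h3 : x ≠ t := by
    rintro rfl
    exact disjoint_left.1 hd hx ht
  rcases x with v | c'
  · rcases t with w | c'
    · obtain ⟨g, hg⟩ := exists_ptJ (n := n) (v := v) (w := w) (fun h => h3 (by rw [h])) c
      refine ⟨g, hg.trans ?_⟩
      ext z
      simp only [mem_insert, mem_singleton]
      tauto
    · simp at h2
  · simp at h1

open Classical in
private theorem PMc_fin {n : ℕ} {Z : Finset (Pt n)} {M Pk : Finset (J n)} {P : Pt n}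
    (f : Pt n → Pt n) (hf : ∀ x ∈ UP n Z M P, f x ∈ UP n Z M P ∧
      (x ≠ f x ∧ ∃ g ∈ Pk, ptJ n g = {P, x, f x}) ∧ f (f x) = x) :
    ∃ N ⊆ Pk, (∀ g ∈ N, P ∈ ptJ n g) ∧
      (∀ g ∈ N, ∀ g' ∈ N, g ≠ g' → ptJ n g ∩ ptJ n g' = {P}) ∧
      ∀ z ∈ UP n Z M P, ∃ g ∈ N, z ∈ ptJ n g := by
  refine ⟨Pk.filter (fun g => ∃ x ∈ UP n Z M P, ptJ n g = {P, x, f x}), filter_subset _ _,
    fun g hg => ?_, fun g hg g' hg' hne => ?_, fun z hz => ?_⟩
  · obtain ⟨-, x, -, hx⟩ := mem_filter.1 hg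
    rw [hx]
    exact mem_insert_self _ _
  · obtain ⟨-, x, hx, hx2⟩ := mem_filter.1 hg
    obtain ⟨-, x', hx', hx2'⟩ := mem_filter.1 hg'
    have key : ∀ (x z : Pt n), x ∈ UP n Z M P → z = x ∨ z = f x →
        ({P, x, f x} : Finset (Pt n)) = {P, z, f z} := by
      rintro x z hx (rfl | rfl)
      · rfl
      · rw [(hf x hx).2.2, PMc_swap]
    ext z
    rw [mem_inter, mem_singleton]
    constructor
    · rintro ⟨h1, h2⟩
      by_contra hzP
      rw [hx2, mem_insert, mem_insert, mem_singleton] at h1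
      rw [hx2', mem_insert, mem_insert, mem_singleton] at h2
      have h3 := key x z hx (h1.resolve_left hzP)
      have h4 := key x' z hx' (h2.resolve_left hzP)
      exact hne (ptJ_inj (hx2.trans (h3.trans (h4.symm.trans hx2'.symm))))
    · rintro rfl
      rw [hx2, hx2']
      exact ⟨mem_insert_self _ _, mem_insert_self _ _⟩
  · obtain ⟨-, ⟨-, g, hg, hg2⟩, -⟩ := hf z hz
    refine ⟨g, mem_filter.2 ⟨hg, z, hz, hg2⟩, ?_⟩
    rw [hg2]
    exact mem_insert_of_mem (mem_insert_self _ _)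

theorem pm_colour : ∀ᶠ u : ℝ in atTop, ∀ (n : ℕ) (α : ℝ) (Z : Finset (Pt n))
    (W0 W1 H M Pk : Finset (J n)), Gd n u α Z W0 W1 → H ⊆ W1 →
    Stg n u Z W1 H M → PkOK n u Z H M Pk → ∀ c : Fin (2 * n - 1), Sum.inr c ∉ Z →
    ∃ N ⊆ Pk, (∀ g ∈ N, Sum.inr c ∈ ptJ n g) ∧
      (∀ g ∈ N, ∀ g' ∈ N, g ≠ g' → ptJ n g ∩ ptJ n g' = {Sum.inr c}) ∧
      ∀ z ∈ UP n Z M (Sum.inr c), ∃ g ∈ N, z ∈ ptJ n g := by
  classical
  filter_upwards [eventually_ge_atTop (2000 : ℝ)] with u hu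
  intro n α Z W0 W1 H M Pk hG hH hM hk c hc
  have hu0 : (0 : ℝ) < u := by linarith
  obtain ⟨hev, hleft⟩ := up_colour hM.mat hM.zero hc
  rcases (UP n Z M (Sum.inr c)).eq_empty_or_nonempty with he | hne
  · refine ⟨∅, empty_subset _, fun g hg => absurd hg (notMem_empty _),
      fun g hg => absurd hg (notMem_empty _), fun z hz => ?_⟩
    rw [he] at hz
    exact absurd hz (notMem_empty _)
  · have hsz := size_colour hu0 hG hH hM hc hne
    have hZ : ∀ x ∈ UP n Z M (Sum.inr c), x ≠ Sum.inr c := by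
      rintro x hx rfl
      exact hc (PMc_UP hx)
    have hPkW : Pk ⊆ W1 := fun g hg => hH (mem_filter.1 (hk.sub hg)).1
    have hR : ∃ f : Pt n → Pt n, ∀ x ∈ UP n Z M (Sum.inr c), f x ∈ UP n Z M (Sum.inr c) ∧
        (x ≠ f x ∧ ∃ g ∈ Pk, ptJ n g = {Sum.inr c, x, f x}) ∧ f (f x) = x := by
      refine tutte_crit (UP n Z M (Sum.inr c))
        (fun x y => x ≠ y ∧ ∃ g ∈ Pk, ptJ n g = {Sum.inr c, x, y}) ?_ ?_ hev
        (k := u ^ 2 / 144) (K := 2 * u) (s := n / (8 * u ^ 199)) (by linarith) (by nlinarith)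
        ((PMc_num hu n).trans hsz.le) ?_ ?_ ?_
      · rintro x y ⟨h1, g, hg, h2⟩
        exact ⟨h1.symm, g, hg, by rw [h2, PMc_swap]⟩
      · rintro x ⟨h1, -⟩
        exact h1 rfl
      · intro x hx
        refine (PMc_hd hc hk x hx).trans (le_of_eq ?_)
        rw [Nat.cast_inj]
        refine congrArg Finset.card (Finset.ext fun y => ?_)
        simp only [Finset.mem_filter]
      · intro X Y hXY hYU hY
        have hX : (X.card : ℝ) ≤ n / (8 * u ^ 199) := by
          have h1 : (X.card : ℝ) ≤ Y.card := by exact_mod_cast card_le_card hXY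
          linarith
        have h1 := PMc_hsp hPkW (P := Sum.inr c) X Y (fun x hx => hZ x (hYU (hXY hx)))
          (fun y hy => hZ y (hYU hy))
        have h2 := hG.sp1 (Sum.inr c) X Y hX hY
        have h3 : ((((X ×ˢ Y).filter (fun p => p.1 ≠ p.2 ∧
            ∃ g ∈ Pk, ptJ n g = {Sum.inr c, p.1, p.2})).card : ℕ) : ℝ) ≤
            2 * ((lks n W1 (Sum.inr c) X Y).card : ℝ) := by exact_mod_cast h1
        have h4 : ((((X ×ˢ Y).filter (fun p => p.1 ≠ p.2 ∧
            ∃ g ∈ Pk, ptJ n g = {Sum.inr c, p.1, p.2})).card : ℕ) : ℝ) ≤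
            2 * (2 * u) * (X.card + Y.card) := h3.trans (by linarith)
        refine le_trans (le_of_eq ?_) h4
        rw [Nat.cast_inj]
        refine congrArg Finset.card (Finset.ext fun p => ?_)
        simp only [Finset.mem_filter, Finset.mem_product]
      · intro X hX T hT hd hs5 hT8 hR4
        have hT8' : ((UP n Z M (Sum.inr c)).card : ℝ) ≤ 8 * T.card := by exact_mod_cast hT8
        have hx : (n : ℝ) / (40 * u ^ 199) ≤ X.card := by
          have h1 : (n : ℝ) / (40 * u ^ 199) = (n / (8 * u ^ 199)) / 5 := by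
            field_simp
            ring
          rw [h1]
          linarith
        have ht : (n : ℝ) / (4096 * u ^ 4) ≤ T.card := by
          have h1 : (n : ℝ) / (4096 * u ^ 4) = (n / (512 * u ^ 4)) / 8 := by
            field_simp
            ring
          rw [h1]
          linarith
        have hne2 := hk.glob (Sum.inr c) hc X (UP n Z M (Sum.inr c) \ (X ∪ T)) T hX hT hd
          (PMc_val (fun x hx => hleft x (hX hx)) (fun t ht => hleft t (hT ht)) hd) hx ht
          (by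
            refine le_trans (le_of_eq ?_) hR4
            refine congrArg Finset.card (Finset.ext fun z => ?_)
            simp only [Finset.mem_sdiff, Finset.mem_union])
          (Or.inl (by
            ext z
            have h1 : z ∈ T → z ∈ UP n Z M (Sum.inr c) := fun h => hT h
            have h2 : z ∈ X → z ∉ T := fun h => disjoint_left.1 hd h
            simp only [Finset.mem_sdiff, Finset.mem_union]
            tauto))
        obtain ⟨g, hg⟩ := hne2
        unfold lks at hg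
        obtain ⟨hg1, x, hx1, y, hy1, hxy, -, -, hg2⟩ := mem_filter.1 hg
        exact ⟨x, hx1, y, hy1, hxy, g, hg1, hg2⟩
    obtain ⟨f, hf⟩ := hR
    exact PMc_fin f hf

end Pool.Agent.Lib.CD
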