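import Mathlib

/-!
# A criterion for perfect matchings in bipartite graphs

`|A'| = |C'| = m`, all degrees at least `k`, small sets `X ⊆ A'`, `Y ⊆ C'` span at most
`K (|X| + |Y|)` edges, `2 K < k`.

Proof.  Hall (`Finset.all_card_le_biUnion_card_iff_exists_injective` or
`Fintype.all_card_le_rel_image_card_iff_exists_injective`); as `|A'| = |C'|` the injection is a
bijection.  Suppose Hall's condition fails: `X ⊆ A'` with `|N(X)| < |X|`, `N(X) ⊆ C'` the set of the
neighbours of `X` in `C'`.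

(a) `2 |X| ≤ m + 1`.  If `|X| ≤ s`, then `k |X| ≤ e (X, N(X)) ≤ K (|X| + |N(X)|) ≤ 2 K |X|`,
a contradiction as `X` is not empty.  If `|X| > s`, `hl` with `Y = N(X)` gives an edge between
`X` and `C' \ N(X)`, a contradiction.

(b) `2 |X| > m + 1`.  `C' \ N(X)` has at least `m - |X| + 1` elements; let `X₁` be a subset with
exactly `m - |X| + 1` elements.  The neighbours of `X₁` are in `A' \ X`, `m - |X| < |X₁|`
elements, and `2 |X₁| = 2 m - 2 |X| + 2 < m + 1`.  So we are in case (a) with the roles of `A'` and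
`C'` exchanged (use `hC`, `hr`; prove (a) once for a general pair of sets and apply it twice).
-/

set_option autoImplicit false

namespace Pool.Agent.Lib.CD

open Finset

open Classical in
private theorem HallC_edges {A C : Type} (R : A → C → Prop) (X : Finset A) (Y : Finset C) :
    (((X ×ˢ Y).filter (fun p => R p.1 p.2)).card : ℝ) =
      ∑ x ∈ X, ∑ y ∈ Y, if R x y then (1 : ℝ) else 0 := by
  rw [Finset.card_filter, Nat.cast_sum, Finset.sum_product]
  refine sum_congr rfl fun x _ => sum_congr rfl fun y _ => ?_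
  split_ifs <;> simp

open Classical in
private theorem HallC_a {A C : Type} (A' : Finset A) (C' : Finset C)
    (R : A → C → Prop) {k K s : ℝ} (hK0 : 0 ≤ K) (hK : 2 * K < k)
    (hA : ∀ a ∈ A', k ≤ ((C'.filter (fun c => R a c)).card : ℝ))
    (hsp : ∀ X ⊆ A', ∀ Y ⊆ C', (X.card : ℝ) ≤ s → (Y.card : ℝ) ≤ s →
      (∑ x ∈ X, ∑ y ∈ Y, if R x y then (1 : ℝ) else 0) ≤ K * (X.card + Y.card))
    (hl : ∀ X ⊆ A', ∀ Y ⊆ C', s < X.card → 2 * X.card ≤ A'.card + 1 → Y.card < X.card →
      ∃ x ∈ X, ∃ c ∈ C' \ Y, R x c) (X : Finset A) (hX : X ⊆ A')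
    (h2 : 2 * X.card ≤ A'.card + 1) :
    X.card ≤ (C'.filter (fun c => ∃ x ∈ X, R x c)).card := by
  by_contra hlt
  push Not at hlt
  set N := C'.filter (fun c => ∃ x ∈ X, R x c) with hN
  have hNC : N ⊆ C' := filter_subset _ _
  rcases le_or_gt (X.card : ℝ) s with hs | hs
  · have hNs : (N.card : ℝ) ≤ s := by
      have h1 : (N.card : ℝ) ≤ X.card := by exact_mod_cast hlt.le
      linarith
    have h3 := hsp X hX N hNC hs hNs
    have h4 : ∀ x ∈ X, k ≤ ∑ y ∈ N, if R x y then (1 : ℝ) else 0 := by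
      intro x hx
      refine (hA x (hX hx)).trans ?_
      rw [← Finset.sum_filter, Finset.sum_const, nsmul_eq_mul, mul_one]
      refine Nat.cast_le.2 (card_le_card fun c hc => ?_)
      rw [mem_filter] at hc
      exact mem_filter.2 ⟨mem_filter.2 ⟨hc.1, x, hx, hc.2⟩, hc.2⟩
    have h5 : k * X.card ≤ ∑ x ∈ X, ∑ y ∈ N, if R x y then (1 : ℝ) else 0 := by
      have h6 := Finset.sum_le_sum h4
      rw [Finset.sum_const, nsmul_eq_mul] at h6
      linarith
    have h7 : (0 : ℝ) < X.card := by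
      have h8 : 0 < X.card := lt_of_le_of_lt (Nat.zero_le _) hlt
      exact_mod_cast h8
    have h9 : (N.card : ℝ) ≤ X.card := by exact_mod_cast hlt.le
    have h10 : K * (X.card + N.card) ≤ K * (X.card + X.card) :=
      mul_le_mul_of_nonneg_left (by linarith) hK0
    have h11 : 2 * K * X.card < k * X.card := mul_lt_mul_of_pos_right hK h7
    linarith
  · obtain ⟨x, hx, c, hc, hR⟩ := hl X hX N hNC hs h2 hlt
    rw [mem_sdiff] at hc
    exact hc.2 (mem_filter.2 ⟨hc.1, x, hx, hR⟩)

open Classical in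
theorem hall_crit {A C : Type} [Fintype A] [Fintype C] (A' : Finset A) (C' : Finset C)
    (R : A → C → Prop) (hc : A'.card = C'.card) {k K s : ℝ} (hK0 : 0 ≤ K) (hK : 2 * K < k)
    (hA : ∀ a ∈ A', k ≤ ((C'.filter (fun c => R a c)).card : ℝ))
    (hC : ∀ c ∈ C', k ≤ ((A'.filter (fun a => R a c)).card : ℝ))
    (hsp : ∀ X ⊆ A', ∀ Y ⊆ C', (X.card : ℝ) ≤ s → (Y.card : ℝ) ≤ s →
      (((X ×ˢ Y).filter (fun p => R p.1 p.2)).card : ℝ) ≤ K * (X.card + Y.card))
    (hl : ∀ X ⊆ A', ∀ Y ⊆ C', s < X.card → 2 * X.card ≤ A'.card + 1 → Y.card < X.card →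
      ∃ x ∈ X, ∃ c ∈ C' \ Y, R x c)
    (hr : ∀ X ⊆ C', ∀ Y ⊆ A', s < X.card → 2 * X.card ≤ A'.card + 1 → Y.card < X.card →
      ∃ x ∈ X, ∃ a ∈ A' \ Y, R a x) :
    ∃ f : {a // a ∈ A'} ≃ {c // c ∈ C'}, ∀ a, R a.1 (f a).1 := by
  -- case (a) for both sides
  have ha := HallC_a A' C' R (s := s) hK0 hK hA
    (fun X hX Y hY h1 h2 => by rw [← HallC_edges]; exact hsp X hX Y hY h1 h2) hl
  have hb := HallC_a C' A' (fun c a => R a c) (s := s) hK0 hK hC
    (fun X hX Y hY h1 h2 => by
      rw [Finset.sum_comm, ← HallC_edges, add_comm]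
      exact hsp Y hY X hX h2 h1)
    (fun X hX Y hY h1 h2 h3 => hr X hX Y hY h1 (by rw [hc]; exact h2) h3)
  -- the condition of Hall
  have hall : ∀ X ⊆ A', X.card ≤ (C'.filter (fun c => ∃ x ∈ X, R x c)).card := by
    intro X hX
    by_cases h2 : 2 * X.card ≤ A'.card + 1
    · exact ha X hX h2
    · by_contra hlt
      push Not at hlt h2
      set N := C'.filter (fun c => ∃ x ∈ X, R x c) with hN
      have hXc := card_le_card hX
      have h3 : (C' \ N).card = C'.card - N.card := card_sdiff_of_subset (filter_subset _ _)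
      have h4 : A'.card - X.card + 1 ≤ (C' \ N).card := by omega
      obtain ⟨X1, hX1, hX1c⟩ := exists_subset_card_eq h4
      have h5 := hb X1 (hX1.trans sdiff_subset) (by omega)
      have h6 : (A'.filter (fun a => ∃ x ∈ X1, R a x)) ⊆ A' \ X := by
        intro a haa
        rw [mem_filter] at haa
        obtain ⟨h7, c, hcX, hR⟩ := haa
        refine mem_sdiff.2 ⟨h7, fun haX => ?_⟩
        have h8 := mem_sdiff.1 (hX1 hcX)
        exact h8.2 (mem_filter.2 ⟨h8.1, a, haX, hR⟩)
      have h9 := card_le_card h6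
      rw [card_sdiff_of_subset hX] at h9
      omega
  -- the matching
  have hH := (Finset.all_card_le_biUnion_card_iff_exists_injective
    (fun a : {a // a ∈ A'} => C'.filter (fun c => R a.1 c))).1 (by
      intro S
      have h1 := hall (S.map (Function.Embedding.subtype _)) (by
        intro a ha
        rw [mem_map] at ha
        obtain ⟨b, _, rfl⟩ := ha
        exact b.2)
      rw [card_map] at h1
      refine h1.trans (card_le_card fun c hcc => ?_)
      rw [mem_filter] at hcc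
      obtain ⟨h2, x, hx, hR⟩ := hcc
      rw [mem_map] at hx
      obtain ⟨b, hb', rfl⟩ := hx
      exact mem_biUnion.2 ⟨b, hb', mem_filter.2 ⟨h2, hR⟩⟩)
  obtain ⟨f, hf, hfR⟩ := hH
  have hfC : ∀ a, f a ∈ C' := fun a => (mem_filter.1 (hfR a)).1
  have hfR' : ∀ a, R a.1 (f a) := fun a => (mem_filter.1 (hfR a)).2
  have hg : Function.Bijective (fun a : {a // a ∈ A'} => (⟨f a, hfC a⟩ : {c // c ∈ C'})) := by
    rw [Fintype.bijective_iff_injective_and_card]
    refine ⟨fun a b hab => hf (congrArg Subtype.val hab), ?_⟩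
    rw [Fintype.card_coe, Fintype.card_coe, hc]
  exact ⟨Equiv.ofBijective _ hg, hfR'⟩

end Pool.Agent.Lib.CD
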