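import Pool.Agent.Lib.MP_dcb6ed_co_CD.Size
import Pool.Agent.Lib.MP_dcb6ed_co_CD.HallC

/-!
# Completion at a vertex which is not special

`P = inl v ∉ Z`.  If `UP P = ∅` take `N = ∅`.  Otherwise let `A'`, `C'` be the parts of `UP P` (vertices,
colours), `|A'| = |C'| = m` (`up_vertex`), `m > n / (512 u^4)` (`size_vertex`).  `R a c` : there is
`g ∈ Pk` with `ptJ g = {P, a, c}`.  Apply `hall_crit` (with `A = C = Pt n`) with `k = u^2 / 144`,
`K = 2 u`, `s = n / (8 u^199)`; `4 u < u^2 / 144` for large `u`.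
`hA`, `hC`: for `z ∈ UP P` let `x` be the element with `ptE x = {P, z}`; it is uncovered, and by
`PkOK.deg` there are at least `k` triples `g ∈ Pk ∩ st x`; by `gf_at` (`Pk ⊆ Gf`) each is
`{P, z, t}` with `t ∈ UP P`, and `t` is a colour if `z` is a vertex and a vertex if `z` is a colour
(`ptJ_left`, `ptJ_right`); `t` determines `g`.
`hsp`: for `(a, c) ∈ X × Y` with `R a c` the triple `{P, a, c}` is in `lks W1 P X Y`, and different
pairs give different triples (`a` is a vertex, `c` a colour); `Gd.sp1`.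
`hl`: `X ⊆ A'`, `Y ⊆ C'`, `|X| > s`, `2 |X| ≤ m + 1`, `|Y| < |X|`: let `T = C' \ Y`; it is
`(UP P).filter isRight \ (X ∪ Y)`.  `|T| ≥ m - |Y| ≥ m - |X| + 1 ≥ m / 2 ≥ n / (1024 u^4)`,
`|X| > n / (8 u^199) ≥ n / (40 u^199)`, `Val P X T` (`exists_ptJ`, `v ≠ x` as `P ∉ Z`, `x ∈ Z`).
`PkOK.glob` (with `R := Y`) gives a triple `{P, x, t}` in `Pk`.  `hr`: the same.
From the bijection `f` choose `g_a ∈ Pk` with `ptJ g_a = {P, a, f a}` for `a ∈ A'`; `N` is the set of
these triples.
-/

set_option autoImplicit false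

namespace Pool.Agent.Lib.CD

open Finset Filter
open Pool.Agent.Lib.FR (J El Edge st Cf)

theorem PMv_side {n : ℕ} {v : Fin (2 * n)} {z t : Pt n} {g : J n} (hz : z ≠ Sum.inl v)
    (ht : t ≠ Sum.inl v) (hzt : z ≠ t) (hg : ptJ n g = {Sum.inl v, z, t}) :
    (z.isLeft = true → t.isRight = true) ∧ (z.isRight = true → t.isLeft = true) := by
  classical
  constructor
  · intro h
    rcases t with w | c
    · exfalso
      rcases z with w' | c'
      · have h1 := ptJ_left g
        rw [hg, Finset.filter_true_of_mem] at h1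
        · rw [Finset.card_eq_three.2 ⟨_, _, _, hz.symm, ht.symm, hzt, rfl⟩] at h1
          omega
        · intro p hp
          simp only [Finset.mem_insert, Finset.mem_singleton] at hp
          rcases hp with rfl | rfl | rfl <;> rfl
      · simp at h
    · rfl
  · intro h
    rcases t with w | c
    · rfl
    · exfalso
      rcases z with w' | c'
      · simp at h
      · have h1 := ptJ_right g
        rw [hg] at h1
        have h2 : ({Sum.inr c', Sum.inr c} : Finset (Pt n)) ⊆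
            ({Sum.inl v, Sum.inr c', Sum.inr c} : Finset (Pt n)).filter
              (fun p => p.isRight = true) := by
          intro p hp
          simp only [Finset.mem_insert, Finset.mem_singleton] at hp
          rcases hp with rfl | rfl <;> simp
        have h3 := Finset.card_le_card h2
        rw [h1, Finset.card_pair hzt] at h3
        omega

theorem PMv_ne {n : ℕ} {Z : Finset (Pt n)} {M : Finset (J n)} {P z : Pt n} (hP : P ∉ Z)
    (hz : z ∈ UP n Z M P) : z ≠ P := by
  classical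
  intro h
  subst h
  unfold UP at hz
  exact hP (Finset.mem_filter.1 hz).1

theorem PMv_deg {n : ℕ} {u : ℝ} {Z : Finset (Pt n)} {H M Pk : Finset (J n)}
    (hk : PkOK n u Z H M Pk) {P z : Pt n} (hP : P ∉ Z) (hz : z ∈ UP n Z M P)
    (C : Finset (Pt n)) (Q : Pt n → Prop) {_ : DecidablePred Q}
    (hC : ∀ t ∈ UP n Z M P, ∀ g ∈ Pk, z ≠ t → t ≠ P → ptJ n g = {P, z, t} → t ∈ C ∧ Q t) :
    u ^ 2 / 144 ≤ ((C.filter Q).card : ℝ) := by
  classical
  obtain ⟨x, hx, hw, hcov, hat⟩ := gf_at (H := H) hP hz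
  refine (hk.deg x hw hcov).trans ?_
  have h1 : ∀ g ∈ Pk ∩ st n x, ∃ t ∈ UP n Z M P, t ≠ z ∧ t ≠ P ∧ ptJ n g = {P, z, t} := by
    intro g hg
    rw [Finset.mem_inter] at hg
    exact hat g (Finset.mem_inter.2 ⟨hk.sub hg.1, hg.2⟩)
  have : Nonempty (Pt n) := ⟨P⟩
  choose! t ht using h1
  have h2 : (Pk ∩ st n x).card ≤ (C.filter Q).card := by
    refine Finset.card_le_card_of_injOn t ?_ ?_
    · intro g hg
      have hg' : g ∈ Pk ∩ st n x := hg
      obtain ⟨h3, h4, h5, h6⟩ := ht g hg'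
      have h7 := hC (t g) h3 g (Finset.mem_inter.1 hg').1 h4.symm h5 h6
      exact Finset.mem_coe.2 (Finset.mem_filter.2 h7)
    · intro g hg g' hg' he
      obtain ⟨h3, h4, h5, h6⟩ := ht g hg
      obtain ⟨h3', h4', h5', h6'⟩ := ht g' hg'
      apply ptJ_inj
      rw [h6, h6', he]
  exact_mod_cast h2

theorem PMv_lks {n : ℕ} {W : Finset (J n)} {P x t : Pt n} {X Y : Finset (Pt n)} {g : J n}
    (hg : g ∈ W) (hx : x ∈ X) (ht : t ∈ Y) (h1 : x ≠ t) (h2 : x ≠ P) (h3 : t ≠ P)
    (h : ptJ n g = {P, x, t}) : g ∈ lks n W P X Y := by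
  classical
  unfold lks
  exact Finset.mem_filter.2 ⟨hg, x, hx, t, ht, h1, h2, h3, h⟩

theorem PMv_sp {n : ℕ} {W : Finset (J n)} {v : Fin (2 * n)} {X Y : Finset (Pt n)}
    (hX : ∀ x ∈ X, x.isLeft = true ∧ x ≠ Sum.inl v) (hY : ∀ y ∈ Y, y.isRight = true)
    (R : Pt n → Pt n → Prop) {_ : DecidablePred (fun p : Pt n × Pt n => R p.1 p.2)}
    (hR : ∀ x y, R x y → ∃ g ∈ W, ptJ n g = {Sum.inl v, x, y}) :
    ((X ×ˢ Y).filter (fun p => R p.1 p.2)).card ≤ (lks n W (Sum.inl v) X Y).card := by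
  classical
  have h1 : ∀ p ∈ (X ×ˢ Y).filter (fun p => R p.1 p.2),
      ∃ g ∈ W, ptJ n g = {Sum.inl v, p.1, p.2} := by
    intro p hp
    exact hR _ _ (Finset.mem_filter.1 hp).2
  rcases ((X ×ˢ Y).filter (fun p => R p.1 p.2)).eq_empty_or_nonempty with he | ⟨p0, hp0⟩
  · rw [he]
    simp
  have : Nonempty (J n) := ⟨(h1 p0 hp0).choose⟩
  choose! g hg using h1
  have hlr : ∀ x y : Pt n, x.isLeft = true → y.isRight = true → x ≠ y := by
    intro x y hx hy he
    subst he
    rcases x with w | c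
    · simp at hy
    · simp at hx
  refine Finset.card_le_card_of_injOn g ?_ ?_
  · intro p hp
    have hp' : p ∈ (X ×ˢ Y).filter (fun p => R p.1 p.2) := hp
    have h3 := Finset.mem_product.1 (Finset.mem_filter.1 hp').1
    have h4 := hX p.1 h3.1
    have h5 := hY p.2 h3.2
    exact Finset.mem_coe.2 (PMv_lks (hg p hp').1 h3.1 h3.2 (hlr _ _ h4.1 h5) h4.2
      (hlr _ _ rfl h5).symm (hg p hp').2)
  · intro p hp q hq he
    have hp' : p ∈ (X ×ˢ Y).filter (fun p => R p.1 p.2) := hp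
    have hq' : q ∈ (X ×ˢ Y).filter (fun p => R p.1 p.2) := hq
    have h3 := Finset.mem_product.1 (Finset.mem_filter.1 hp').1
    have h4 := hX p.1 h3.1
    have h5 := hY p.2 h3.2
    have h3' := Finset.mem_product.1 (Finset.mem_filter.1 hq').1
    have h4' := hX q.1 h3'.1
    have h5' := hY q.2 h3'.2
    have h6 : ({Sum.inl v, p.1, p.2} : Finset (Pt n)) = {Sum.inl v, q.1, q.2} := by
      rw [← (hg p hp').2, ← (hg q hq').2, he]
    have h7 : p.1 ∈ ({Sum.inl v, q.1, q.2} : Finset (Pt n)) := by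
      rw [← h6]
      simp
    have h8 : p.2 ∈ ({Sum.inl v, q.1, q.2} : Finset (Pt n)) := by
      rw [← h6]
      simp
    simp only [Finset.mem_insert, Finset.mem_singleton] at h7 h8
    have h9 : p.1 = q.1 := by
      rcases h7 with h | h | h
      · exact absurd h h4.2
      · exact h
      · exact absurd h (hlr _ _ h4.1 h5')
    have h10 : p.2 = q.2 := by
      rcases h8 with h | h | h
      · exact absurd h.symm (hlr _ _ rfl h5)
      · exact absurd h.symm (hlr _ _ h4'.1 h5)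
      · exact h
    exact Prod.ext h9 h10

theorem PMv_num {n m x y : ℕ} {u : ℝ} (hu : 0 < u) (hm : n / (512 * u ^ 4) < (m : ℝ))
    (hx : n / (8 * u ^ 199) < (x : ℝ)) (h2 : 2 * x ≤ m + 1) (hy : y < x) :
    n / (40 * u ^ 199) ≤ (x : ℝ) ∧ n / (4096 * u ^ 4) ≤ ((m - y : ℕ) : ℝ) ∧ y ≤ 4 * x := by
  have hn : (0 : ℝ) ≤ n := Nat.cast_nonneg n
  refine ⟨?_, ?_, by omega⟩
  · refine le_trans ?_ hx.le
    apply div_le_div_of_nonneg_left hn (by positivity)
    have : (0 : ℝ) < u ^ 199 := by positivity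
    linarith
  · have h3 : m ≤ 2 * (m - y) := by omega
    have h4 : (m : ℝ) ≤ 2 * ((m - y : ℕ) : ℝ) := by exact_mod_cast h3
    have h5 : (n : ℝ) / (4096 * u ^ 4) = n / (512 * u ^ 4) / 8 := by
      have : (u : ℝ) ≠ 0 := hu.ne'
      field_simp
      ring
    have h6 : 0 ≤ (n : ℝ) / (512 * u ^ 4) := by positivity
    rw [h5]
    linarith

theorem pm_vertex : ∀ᶠ u : ℝ in atTop, ∀ (n : ℕ) (α : ℝ) (Z : Finset (Pt n))
    (W0 W1 H M Pk : Finset (J n)), Gd n u α Z W0 W1 → H ⊆ W1 →
    Stg n u Z W1 H M → PkOK n u Z H M Pk → ∀ v : Fin (2 * n), Sum.inl v ∉ Z →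
    ∃ N ⊆ Pk, (∀ g ∈ N, Sum.inl v ∈ ptJ n g) ∧
      (∀ g ∈ N, ∀ g' ∈ N, g ≠ g' → ptJ n g ∩ ptJ n g' = {Sum.inl v}) ∧
      ∀ z ∈ UP n Z M (Sum.inl v), ∃ g ∈ N, z ∈ ptJ n g := by
  filter_upwards [eventually_gt_atTop (576 : ℝ)] with u hu n α Z W0 W1 H M Pk hG hHW hM hk v hv
  classical
  have hu0 : 0 < u := by linarith
  rcases (UP n Z M (Sum.inl v)).eq_empty_or_nonempty with he | hne
  · refine ⟨∅, Finset.empty_subset _, by simp, by simp, ?_⟩
    intro z hz
    rw [he] at hz
    simp at hz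
  set U := UP n Z M (Sum.inl v) with hU
  have hUP : ∀ z ∈ U, z ≠ Sum.inl v := fun z hz => PMv_ne hv hz
  set A' := U.filter (fun z => z.isLeft = true) with hA'
  set C' := U.filter (fun z => z.isRight = true) with hC'
  have hAC : A'.card = C'.card := up_vertex hM.mat hM.zero hv
  have hsz : n / (512 * u ^ 4) < (A'.card : ℝ) := size_vertex hu0 hG hHW hM hv hne
  have hAm : ∀ a ∈ A', a ∈ U ∧ a.isLeft = true := fun a ha => Finset.mem_filter.1 ha
  have hCm : ∀ a ∈ C', a ∈ U ∧ a.isRight = true := fun a ha => Finset.mem_filter.1 ha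
  have hlr : ∀ x y : Pt n, x.isLeft = true → y.isRight = true → x ≠ y := by
    intro x y hx hy he
    subst he
    rcases x with w | c
    · simp at hy
    · simp at hx
  have hval : ∀ a ∈ A', ∀ c ∈ C', ∃ g : J n, ptJ n g = {Sum.inl v, a, c} := by
    intro a ha c hc
    obtain ⟨ha1, ha2⟩ := hAm a ha
    obtain ⟨hc1, hc2⟩ := hCm c hc
    rcases a with w | c'
    · rcases c with w' | c
      · simp at hc2
      · refine exists_ptJ (v := v) (w := w) ?_ c
        intro h
        exact hUP _ ha1 (by rw [h])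
    · simp at ha2
  have hsubG : Pk ⊆ W1 := by
    intro g hg
    have h1 := hk.sub hg
    unfold Gf at h1
    exact hHW (Finset.mem_filter.1 h1).1
  obtain ⟨f, hf⟩ := hall_crit A' C' (fun a c => ∃ g ∈ Pk, ptJ n g = {Sum.inl v, a, c}) hAC
    (k := u ^ 2 / 144) (K := 2 * u) (s := n / (8 * u ^ 199)) (by linarith) (by nlinarith)
    (by
      intro a ha
      obtain ⟨ha1, ha2⟩ := hAm a ha
      refine PMv_deg hk hv ha1 C' _ ?_
      intro t ht g hg hat htP hgt
      refine ⟨Finset.mem_filter.2 ⟨ht, (PMv_side (hUP a ha1) htP hat hgt).1 ha2⟩, g, hg, hgt⟩)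
    (by
      intro c hc
      obtain ⟨hc1, hc2⟩ := hCm c hc
      refine PMv_deg hk hv hc1 A' _ ?_
      intro t ht g hg hat htP hgt
      refine ⟨Finset.mem_filter.2 ⟨ht, (PMv_side (hUP c hc1) htP hat hgt).2 hc2⟩, g, hg, ?_⟩
      rw [hgt, Finset.pair_comm c t])
    (by
      intro X hX Y hY hXs hYs
      have h2 := hG.sp1 (Sum.inl v) X Y hXs hYs
      refine le_trans (Nat.cast_le.2 ?_) h2
      exact PMv_sp (W := W1) (v := v) (X := X) (Y := Y)
        (fun x hx => ⟨(hAm x (hX hx)).2, hUP x (hAm x (hX hx)).1⟩)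
        (fun y hy => (hCm y (hY hy)).2)
        (fun a c => ∃ g ∈ Pk, ptJ n g = {Sum.inl v, a, c})
        (fun x y ⟨g, hg, h⟩ => ⟨g, hsubG hg, h⟩))
    (by
      intro X hX Y hY hXs h2 hYX
      have h3 : C' \ (X ∪ Y) = C' \ Y := by
        ext z
        simp only [Finset.mem_sdiff, Finset.mem_union, not_or]
        constructor
        · rintro ⟨h4, h5, h6⟩
          exact ⟨h4, h6⟩
        · rintro ⟨h4, h6⟩
          exact ⟨h4, fun h5 => hlr z z (hAm z (hX h5)).2 (hCm z h4).2 rfl, h6⟩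
      obtain ⟨hn1, hn2, hn3⟩ := PMv_num hu0 hsz hXs h2 hYX
      have h4 : (C' \ Y).card = A'.card - Y.card := by
        rw [Finset.card_sdiff_of_subset hY, hAC]
      have h5 : (lks n Pk (Sum.inl v) X (C' \ Y)).Nonempty := by
        refine hk.glob (Sum.inl v) hv X Y (C' \ Y) ?_ ?_ ?_ ?_ hn1 ?_ hn3 ?_
        · exact hX.trans (Finset.filter_subset _ _)
        · exact Finset.sdiff_subset.trans (Finset.filter_subset _ _)
        · rw [Finset.disjoint_left]
          intro z hz hz'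
          exact hlr z z (hAm z (hX hz)).2 (hCm z (Finset.mem_sdiff.1 hz').1).2 rfl
        · intro x hx t ht
          exact hval x (hX hx) t (Finset.mem_sdiff.1 ht).1
        · rw [h4]
          exact hn2
        · right
          right
          exact h3.symm
      obtain ⟨g, hg⟩ := h5
      unfold lks at hg
      obtain ⟨hg1, x, hx, y, hy, -, -, -, h6⟩ := Finset.mem_filter.1 hg
      refine ⟨x, hx, y, ?_, g, hg1, h6⟩
      simp only [Finset.mem_sdiff] at hy ⊢
      exact hy)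
    (by
      intro X hX Y hY hXs h2 hYX
      have h3 : A' \ (X ∪ Y) = A' \ Y := by
        ext z
        simp only [Finset.mem_sdiff, Finset.mem_union, not_or]
        constructor
        · rintro ⟨h4, h5, h6⟩
          exact ⟨h4, h6⟩
        · rintro ⟨h4, h6⟩
          exact ⟨h4, fun h5 => hlr z z (hAm z h4).2 (hCm z (hX h5)).2 rfl, h6⟩
      obtain ⟨hn1, hn2, hn3⟩ := PMv_num hu0 hsz hXs h2 hYX
      have h4 : (A' \ Y).card = A'.card - Y.card := by
        rw [Finset.card_sdiff_of_subset hY]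
      have h5 : (lks n Pk (Sum.inl v) X (A' \ Y)).Nonempty := by
        refine hk.glob (Sum.inl v) hv X Y (A' \ Y) ?_ ?_ ?_ ?_ hn1 ?_ hn3 ?_
        · exact hX.trans (Finset.filter_subset _ _)
        · exact Finset.sdiff_subset.trans (Finset.filter_subset _ _)
        · rw [Finset.disjoint_left]
          intro z hz hz'
          exact hlr z z (hAm z (Finset.mem_sdiff.1 hz').1).2 (hCm z (hX hz)).2 rfl
        · intro x hx t ht
          obtain ⟨g, hg⟩ := hval t (Finset.mem_sdiff.1 ht).1 x (hX hx)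
          exact ⟨g, by rw [hg, Finset.pair_comm t x]⟩
        · rw [h4]
          exact hn2
        · right
          left
          exact h3.symm
      obtain ⟨g, hg⟩ := h5
      unfold lks at hg
      obtain ⟨hg1, x, hx, y, hy, -, -, -, h6⟩ := Finset.mem_filter.1 hg
      refine ⟨x, hx, y, ?_, g, hg1, by rw [h6, Finset.pair_comm x y]⟩
      simp only [Finset.mem_sdiff] at hy ⊢
      exact hy)
  choose g hg using hf
  refine ⟨Finset.univ.image g, ?_, ?_, ?_, ?_⟩
  · intro x hx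
    obtain ⟨a, -, rfl⟩ := Finset.mem_image.1 hx
    exact (hg a).1
  · intro x hx
    obtain ⟨a, -, rfl⟩ := Finset.mem_image.1 hx
    rw [(hg a).2]
    exact Finset.mem_insert_self _ _
  · intro x hx y hy hxy
    obtain ⟨a, -, rfl⟩ := Finset.mem_image.1 hx
    obtain ⟨b, -, rfl⟩ := Finset.mem_image.1 hy
    have hab : a ≠ b := fun h => hxy (by rw [h])
    have hab1 : a.1 ≠ b.1 := fun h => hab (Subtype.ext h)
    have hab2 : (f a).1 ≠ (f b).1 := fun h => hab (f.injective (Subtype.ext h))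
    have ha := hAm a.1 a.2
    have hb := hAm b.1 b.2
    have hfa := hCm (f a).1 (f a).2
    have hfb := hCm (f b).1 (f b).2
    rw [(hg a).2, (hg b).2]
    ext z
    simp only [Finset.mem_inter, Finset.mem_insert, Finset.mem_singleton]
    constructor
    · rintro ⟨h1 | h1 | h1, h2 | h2 | h2⟩
      · exact h1
      · exact h1
      · exact h1
      · exact h2
      · exact absurd (h1.symm.trans h2) hab1
      · exact absurd (h1.symm.trans h2) (hlr _ _ ha.2 hfb.2)
      · exact h2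
      · exact absurd (h2.symm.trans h1) (hlr _ _ hb.2 hfa.2)
      · exact absurd (h1.symm.trans h2) hab2
    · intro h
      exact ⟨Or.inl h, Or.inl h⟩
  · intro z hz
    rcases hzz : z with w | c
    · have hzA : z ∈ A' := Finset.mem_filter.2 ⟨hz, by rw [hzz]; rfl⟩
      refine ⟨g ⟨z, hzA⟩, Finset.mem_image_of_mem _ (Finset.mem_univ _), ?_⟩
      rw [(hg ⟨z, hzA⟩).2, ← hzz]
      simp
    · have hzC : z ∈ C' := Finset.mem_filter.2 ⟨hz, by rw [hzz]; rfl⟩
      refine ⟨g (f.symm ⟨z, hzC⟩), Finset.mem_image_of_mem _ (Finset.mem_univ _), ?_⟩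
      rw [(hg (f.symm ⟨z, hzC⟩)).2, ← hzz, Equiv.apply_symm_apply]
      simp

end Pool.Agent.Lib.CD
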