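import Pool.Agent.Lib.MP_dcb6ed_co_CD.Stage
import Pool.Agent.Lib.MP_dcb6ed_co_CD.FinPick
import Pool.Agent.Lib.MP_dcb6ed_co_CD.PMv
import Pool.Agent.Lib.MP_dcb6ed_co_CD.PMc

/-!
# The deterministic theorem

`M` from `stage`, `Pk` from `fin_pick`, `N_P` for every `P ∉ Z` from `pm_vertex`, `pm_colour`; the
matching is `M` together with all `N_P`.
It is a matching: `g ∈ M`, `g' ∈ N_P ⊆ Gf`: no element of `g'` is covered by `M`.  Let `g ∈ N_P`,
`g' ∈ N_P'`, `g ≠ g'`, with a common element `y`; `wJ g = 2`, so `1 ≤ wE y ≤ 2`.  If `wE y = 2` then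
`g = g'` by `PkOK.inj`.  If `wE y = 1`, `y` has a point which is not in `Z`; but `P` is the only
point of `g` which is not in `Z` (`wJ g = 2`, `P ∈ ptJ g`, `P ∉ Z`), and `P'` the only such point of
`g'`; so `P = P'`, and the two points of `y` are in `ptJ g ∩ ptJ g' = {P}`, a contradiction.
It covers all elements with `wE ≤ 1`: `wE a = 0`: `Stg.zero`.  `wE a = 1`, `a ∉ cov M`:
`ptE a = {P, z}` (`wE_one`), `z ∈ UP P`, so there is `g ∈ N_P` with `P, z ∈ ptJ g`, i.e.
`ptE a ⊆ ptJ g` and `a ∈ els g`.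
-/

set_option autoImplicit false

namespace Pool.Agent.Lib.CD

open Finset Filter
open Pool.Agent.Lib.FR (J El Edge st Cf)

theorem det : ∀ᶠ u : ℝ in atTop, ∀ (n : ℕ) (α : ℝ), u ^ 400 ≤ n → 1 / (2 * u) ≤ α → α ≤ 1 / u →
    ∀ (Z : Finset (Pt n)) (W0 W1 H : Finset (J n)), Gd n u α Z W0 W1 → W0 ⊆ H → H ⊆ W1 →
    (∀ a, ∃ g ∈ H, g ∈ st n a) →
    ∃ M ⊆ H, IsM (els n) M ∧ ∀ a, wE n Z a ≤ 1 → a ∈ cov (els n) M := by
  filter_upwards [stage, fin_pick, pm_vertex, pm_colour] with u h1 h2 h3 h4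
  intro n α hn ha hb Z W0 W1 H hG hW0 hW1 hcov
  classical
  obtain ⟨M, hM⟩ := h1 n α ha hb Z W0 W1 H hG hW0 hW1 hcov
  obtain ⟨Pk, hPk⟩ := h2 n α hn Z W0 W1 H M hG hW0 hW1 hM
  have hN : ∀ P : Pt n, ∃ N : Finset (J n), P ∉ Z → N ⊆ Pk ∧ (∀ g ∈ N, P ∈ ptJ n g) ∧
      (∀ g ∈ N, ∀ g' ∈ N, g ≠ g' → ptJ n g ∩ ptJ n g' = {P}) ∧
      ∀ z ∈ UP n Z M P, ∃ g ∈ N, z ∈ ptJ n g := by
    intro P
    by_cases hP : P ∈ Z
    · exact ⟨∅, fun h => absurd hP h⟩
    · rcases P with v | c
      · obtain ⟨N, hN⟩ := h3 n α Z W0 W1 H M Pk hG hW1 hM hPk v hP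
        exact ⟨N, fun _ => hN⟩
      · obtain ⟨N, hN⟩ := h4 n α Z W0 W1 H M Pk hG hW1 hM hPk c hP
        exact ⟨N, fun _ => hN⟩
  choose N hN using hN
  have hGf : ∀ g ∈ Pk, g ∈ H ∧ wJ n Z g = 2 ∧ ∀ y ∈ els n g, y ∉ cov (els n) M := by
    intro g hg
    have h5 := hPk.sub hg
    unfold Gf at h5
    rw [mem_filter] at h5
    exact h5
  -- the only point of a picked triple which is not special
  have huniq : ∀ g ∈ Pk, ∀ P ∈ ptJ n g, P ∉ Z → ∀ s ∈ ptJ n g, s ∉ Z → s = P := by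
    intro g hg P hP hPZ s hs hsZ
    have h5 := (hGf g hg).2.1
    unfold wJ at h5
    have h6 : (ptJ n g \ Z).card = 1 := by
      have h7 := card_inter_add_card_sdiff (ptJ n g) Z
      rw [card_ptJ] at h7
      omega
    obtain ⟨t, ht⟩ := card_eq_one.1 h6
    have h8 : s ∈ ptJ n g \ Z := mem_sdiff.2 ⟨hs, hsZ⟩
    have h9 : P ∈ ptJ n g \ Z := mem_sdiff.2 ⟨hP, hPZ⟩
    rw [ht, mem_singleton] at h8 h9
    rw [h8, h9]
  refine ⟨M ∪ ((univ : Finset (Pt n)).filter fun P => P ∉ Z).biUnion N, ?_, ?_, ?_⟩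
  · refine union_subset hM.sub ?_
    intro g hg
    obtain ⟨P, hP, hg⟩ := mem_biUnion.1 hg
    exact (hGf g ((hN P (mem_filter.1 hP).2).1 hg)).1
  · intro e he f hf hef
    rw [disjoint_left]
    intro y hye hyf
    rw [mem_union] at he hf
    rcases he with he | he
    · rcases hf with hf | hf
      · exact disjoint_left.1 (hM.mat e he f hf hef) hye hyf
      · obtain ⟨P, hP, hf⟩ := mem_biUnion.1 hf
        have h5 := (hGf f ((hN P (mem_filter.1 hP).2).1 hf)).2.2 y hyf
        exact h5 (mem_biUnion.2 ⟨e, he, hye⟩)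
    · obtain ⟨P, hP, he⟩ := mem_biUnion.1 he
      have hPZ := (mem_filter.1 hP).2
      have hePk := (hN P hPZ).1 he
      rcases hf with hf | hf
      · have h5 := (hGf e hePk).2.2 y hye
        exact h5 (mem_biUnion.2 ⟨f, hf, hyf⟩)
      · obtain ⟨P', hP', hf⟩ := mem_biUnion.1 hf
        have hPZ' := (mem_filter.1 hP').2
        have hfPk := (hN P' hPZ').1 hf
        by_cases hw : wE n Z y = 2
        · exact hef (hPk.inj e hePk f hfPk y hye hyf hw)
        · have h5 : ∃ s ∈ ptE n y, s ∉ Z := by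
            by_contra hcon
            push Not at hcon
            apply hw
            unfold wE
            rw [inter_eq_left.2 hcon, card_ptE]
          obtain ⟨s, hs, hsZ⟩ := h5
          have h6 := huniq e hePk P ((hN P hPZ).2.1 e he) hPZ s (mem_els_iff.1 hye hs) hsZ
          have h7 := huniq f hfPk P' ((hN P' hPZ').2.1 f hf) hPZ' s (mem_els_iff.1 hyf hs) hsZ
          have h8 : P' = P := h7.symm.trans h6
          subst h8
          have h9 := (hN P' hPZ).2.2.1 e he f hf hef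
          have h10 : ptE n y ⊆ {P'} := by
            rw [← h9]
            exact subset_inter (mem_els_iff.1 hye) (mem_els_iff.1 hyf)
          have h11 := card_le_card h10
          rw [card_ptE, card_singleton] at h11
          omega
  · intro a ha2
    have hsub : a ∈ cov (els n) M →
        a ∈ cov (els n) (M ∪ ((univ : Finset (Pt n)).filter fun P => P ∉ Z).biUnion N) := by
      intro h5
      obtain ⟨g, hg, hag⟩ := mem_biUnion.1 h5
      exact mem_biUnion.2 ⟨g, mem_union_left _ hg, hag⟩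
    by_cases hw : wE n Z a = 0
    · exact hsub (hM.zero a hw)
    · by_cases hc : a ∈ cov (els n) M
      · exact hsub hc
      · have hw1 : wE n Z a = 1 := by omega
        obtain ⟨P, z, hP, hz, hPz, hpt⟩ := wE_one hw1
        have hU : z ∈ UP n Z M P := by
          unfold UP
          rw [mem_filter]
          exact ⟨hz, a, hpt, hc⟩
        obtain ⟨g, hg, hzg⟩ := (hN P hP).2.2.2 z hU
        have hPg := (hN P hP).2.1 g hg
        refine mem_biUnion.2 ⟨g, mem_union_right _ (mem_biUnion.2 ⟨P, ?_, hg⟩), ?_⟩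
        · exact mem_filter.2 ⟨mem_univ _, hP⟩
        · rw [mem_els_iff, hpt]
          intro t ht
          rw [mem_insert, mem_singleton] at ht
          rcases ht with rfl | rfl
          · exact hPg
          · exact hzg

end Pool.Agent.Lib.CD
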