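import Pool.Agent.Lib.MP_dcb6ed_co_CD.LLLs

/-!
# Independent transversals

Every `b` has a list `O b` of at least `32 Δ` options; every option `g ∈ O b` is in conflict with
at most `Δ` pairs `(b', g')`, `b' ≠ b`, `g' ∈ O b'`.  Then one can choose options without conflicts.

Proof.  `Δ ≥ 1`, so all lists are nonempty.  Choose `f b ∈ O b` uniformly and independently:
`I = B`, `S = G`, `w b g = 1 / |O b|` if `g ∈ O b`, else `0`.  The events, indexed by
`(b, g, b', g')` with `b ≠ b'`, `g ∈ O b`, `g' ∈ O b'`, `conf g g'` (for other indices take the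
event `False` with `P = 0`): `f b = g ∧ f b' = g'`, of probability
`P = 1 / (|O b| |O b'|)`, and `V = {b, b'}`.  For fixed `b₀` the sum of `P` over the indices
with `b = b₀` is at most `∑_{g ∈ O b₀} Δ / (|O b₀| 32 Δ) = 1 / 32`, and the same for the indices
with `b' = b₀` (by symmetry of `conf`).  So the sum of `P` over the indices which meet `{b, b'}` is
at most `4 / 32 = 1 / 8`, and `lll_sum` applies (for the indices with event `False` and
`l = k` add nothing).
-/

set_option autoImplicit false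

namespace Pool.Agent.Lib.CD

open Finset

open Classical in
/-- the weight of a pair of options in conflict -/
private noncomputable def Trans_Q {B G : Type} (O : B → Finset G) (conf : G → G → Prop)
    (p p' : B × G) : ℝ :=
  if p.1 ≠ p'.1 ∧ p.2 ∈ O p.1 ∧ p'.2 ∈ O p'.1 ∧ conf p.2 p'.2 then
    (1 / ((O p.1).card : ℝ)) * (1 / ((O p'.1).card : ℝ)) else 0

private theorem Trans_Q_symm {B G : Type} {O : B → Finset G} {conf : G → G → Prop}
    (hs : ∀ g g', conf g g' → conf g' g) (p p' : B × G) :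
    Trans_Q O conf p p' = Trans_Q O conf p' p := by
  unfold Trans_Q
  by_cases h : p.1 ≠ p'.1 ∧ p.2 ∈ O p.1 ∧ p'.2 ∈ O p'.1 ∧ conf p.2 p'.2
  · rw [if_pos h, if_pos ⟨h.1.symm, h.2.2.1, h.2.1, hs _ _ h.2.2.2⟩, mul_comm]
  · rw [if_neg h, if_neg]
    rintro ⟨h1, h2, h3, h4⟩
    exact h ⟨h1.symm, h3, h2, hs _ _ h4⟩

private theorem Trans_Q_nonneg {B G : Type} (O : B → Finset G) (conf : G → G → Prop)
    (p p' : B × G) : 0 ≤ Trans_Q O conf p p' := by
  unfold Trans_Q
  split_ifs
  · positivity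
  · exact le_rfl

open Classical in
private theorem Trans_row {B G : Type} [Fintype B] [Fintype G] (O : B → Finset G)
    (conf : G → G → Prop) (Δ : ℕ) (hΔ : 1 ≤ Δ) (hO : ∀ b, 32 * Δ ≤ (O b).card)
    (hc : ∀ b, ∀ g ∈ O b, (univ.filter (fun p : B × G =>
      p.1 ≠ b ∧ p.2 ∈ O p.1 ∧ conf g p.2)).card ≤ Δ) (i : B) :
    ∑ g : G, ∑ p' : B × G, Trans_Q O conf (i, g) p' ≤ 1 / 32 := by
  have hpos : ∀ b, (0 : ℝ) < (O b).card := fun b => by
    have := hO b
    exact_mod_cast (by omega : 0 < (O b).card)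
  have hΔ' : (0 : ℝ) < Δ := by exact_mod_cast hΔ
  have h1 : ∀ g : G, ∑ p' : B × G, Trans_Q O conf (i, g) p' ≤
      if g ∈ O i then 1 / (32 * ((O i).card : ℝ)) else 0 := by
    intro g
    by_cases hg : g ∈ O i
    · rw [if_pos hg]
      calc ∑ p' : B × G, Trans_Q O conf (i, g) p'
          = ∑ p' ∈ univ.filter (fun p : B × G => p.1 ≠ i ∧ p.2 ∈ O p.1 ∧ conf g p.2),
              (1 / ((O i).card : ℝ)) * (1 / ((O p'.1).card : ℝ)) := by
            rw [sum_filter]
            refine sum_congr rfl fun p' _ => ?_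
            unfold Trans_Q
            by_cases h : p'.1 ≠ i ∧ p'.2 ∈ O p'.1 ∧ conf g p'.2
            · rw [if_pos h, if_pos ⟨h.1.symm, hg, h.2.1, h.2.2⟩]
            · rw [if_neg h, if_neg]
              rintro ⟨a1, _, a3, a4⟩
              exact h ⟨a1.symm, a3, a4⟩
        _ ≤ ∑ p' ∈ univ.filter (fun p : B × G => p.1 ≠ i ∧ p.2 ∈ O p.1 ∧ conf g p.2),
              (1 / ((O i).card : ℝ)) * (1 / (32 * (Δ : ℝ))) := by
            refine sum_le_sum fun p' _ => ?_
            refine mul_le_mul_of_nonneg_left ?_ (by positivity)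
            refine one_div_le_one_div_of_le (by positivity) ?_
            exact_mod_cast hO p'.1
        _ = ((univ.filter (fun p : B × G => p.1 ≠ i ∧ p.2 ∈ O p.1 ∧ conf g p.2)).card : ℝ) *
              ((1 / ((O i).card : ℝ)) * (1 / (32 * (Δ : ℝ)))) := by
            rw [sum_const, nsmul_eq_mul]
        _ ≤ (Δ : ℝ) * ((1 / ((O i).card : ℝ)) * (1 / (32 * (Δ : ℝ)))) := by
            refine mul_le_mul_of_nonneg_right ?_ (by positivity)
            exact_mod_cast hc i g hg
        _ = 1 / (32 * ((O i).card : ℝ)) := by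
            have := (hpos i).ne'
            field_simp
    · rw [if_neg hg]
      refine le_of_eq (sum_eq_zero fun p' _ => ?_)
      unfold Trans_Q
      rw [if_neg]
      rintro ⟨_, a2, _⟩
      exact hg a2
  refine (sum_le_sum fun g _ => h1 g).trans ?_
  rw [sum_ite_mem, univ_inter, sum_const, nsmul_eq_mul]
  have := (hpos i).ne'
  refine le_of_eq ?_
  field_simp

open Classical in
private theorem Trans_sum {B G : Type} [Fintype B] [Fintype G] (F : B × G → B × G → ℝ) (i : B) :
    ∑ l : (B × G) × (B × G), (if l.1.1 = i then F l.1 l.2 else 0) =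
      ∑ g : G, ∑ p' : B × G, F (i, g) p' := by
  rw [Fintype.sum_prod_type]
  simp only []
  rw [Fintype.sum_prod_type, Finset.sum_comm]
  refine sum_congr rfl fun g _ => ?_
  rw [sum_eq_single i]
  · simp
  · intro b _ hb
    simp [hb]
  · intro h
    exact absurd (mem_univ i) h

open Classical in
theorem transversal {B G : Type} [Fintype B] [Fintype G] (O : B → Finset G)
    (conf : G → G → Prop) (hs : ∀ g g', conf g g' → conf g' g) (Δ : ℕ) (hΔ : 1 ≤ Δ)
    (hO : ∀ b, 32 * Δ ≤ (O b).card)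
    (hc : ∀ b, ∀ g ∈ O b, (univ.filter (fun p : B × G =>
      p.1 ≠ b ∧ p.2 ∈ O p.1 ∧ conf g p.2)).card ≤ Δ) :
    ∃ f : B → G, (∀ b, f b ∈ O b) ∧ ∀ b b', b ≠ b' → ¬ conf (f b) (f b') := by
  have hpos : ∀ b, (0 : ℝ) < (O b).card := fun b => by
    have := hO b
    exact_mod_cast (by omega : 0 < (O b).card)
  have hbig : ∀ b, (32 : ℝ) ≤ (O b).card := fun b => by
    have := hO b
    exact_mod_cast (by omega : 32 ≤ (O b).card)
  let w : B → G → ℝ := fun b g => if g ∈ O b then 1 / ((O b).card : ℝ) else 0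
  have hw : IsW w := by
    refine ⟨fun b g => ?_, fun b => ?_⟩
    · change (0 : ℝ) ≤ if g ∈ O b then 1 / ((O b).card : ℝ) else 0
      split_ifs
      · positivity
      · exact le_rfl
    · change ∑ g : G, (if g ∈ O b then 1 / ((O b).card : ℝ) else 0) = 1
      rw [sum_ite_mem, univ_inter, sum_const, nsmul_eq_mul]
      have := (hpos b).ne'
      field_simp
  have hcoord : ∀ b g, PW w (fun ω => ω b = g) = w b g := by
    intro b g
    have h1 := ew_coord hw b (fun s => if s = g then (1 : ℝ) else 0)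
    have h2 : PW w (fun ω => ω b = g) = EW w (fun ω => if ω b = g then (1 : ℝ) else 0) := by
      unfold PW
      rfl
    rw [h2, h1]
    simp
  let A : (B × G) × (B × G) → (B → G) → Prop := fun k ω =>
    (k.1.1 ≠ k.2.1 ∧ k.1.2 ∈ O k.1.1 ∧ k.2.2 ∈ O k.2.1 ∧ conf k.1.2 k.2.2) ∧
      ω k.1.1 = k.1.2 ∧ ω k.2.1 = k.2.2
  let V : (B × G) × (B × G) → Finset B := fun k => {k.1.1, k.2.1}
  obtain ⟨ω, hω, hA⟩ := lll_deg hw A V (by
    intro k ω ω' h
    have h1 : ω k.1.1 = ω' k.1.1 := h _ (by simp [V])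
    have h2 : ω k.2.1 = ω' k.2.1 := h _ (by simp [V])
    change (_ ∧ ω k.1.1 = k.1.2 ∧ ω k.2.1 = k.2.2) = (_ ∧ ω' k.1.1 = k.1.2 ∧ ω' k.2.1 = k.2.2)
    rw [h1, h2]) (fun k => Trans_Q O conf k.1 k.2) (fun k => Trans_Q_nonneg O conf _ _) (by
    intro k
    by_cases hk : k.1.1 ≠ k.2.1 ∧ k.1.2 ∈ O k.1.1 ∧ k.2.2 ∈ O k.2.1 ∧ conf k.1.2 k.2.2
    · have h1 : PW w (A k) ≤ PW w (fun ω => ω k.1.1 = k.1.2 ∧ ω k.2.1 = k.2.2) :=
        pw_mono hw fun ω h => h.2
      have h2 : PW w (fun ω => ω k.1.1 = k.1.2 ∧ ω k.2.1 = k.2.2) =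
          PW w (fun ω => ω k.1.1 = k.1.2) * PW w (fun ω => ω k.2.1 = k.2.2) := by
        refine pw_and hw (V := {k.1.1}) (V' := {k.2.1}) ?_ ?_ ?_
        · rw [disjoint_singleton]
          exact hk.1
        · intro ω ω' h
          change (ω k.1.1 = k.1.2) = (ω' k.1.1 = k.1.2)
          rw [h _ (mem_singleton_self _)]
        · intro ω ω' h
          change (ω k.2.1 = k.2.2) = (ω' k.2.1 = k.2.2)
          rw [h _ (mem_singleton_self _)]
      rw [h2, hcoord, hcoord] at h1
      refine h1.trans (le_of_eq ?_)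
      unfold Trans_Q
      rw [if_pos hk]
      change (if k.1.2 ∈ O k.1.1 then 1 / ((O k.1.1).card : ℝ) else 0) *
        (if k.2.2 ∈ O k.2.1 then 1 / ((O k.2.1).card : ℝ) else 0) = _
      rw [if_pos hk.2.1, if_pos hk.2.2.1]
    · have h1 : PW w (A k) ≤ PW w (fun _ => False) := pw_mono hw fun ω h => hk h.1
      rw [pw_false] at h1
      exact h1.trans (Trans_Q_nonneg O conf _ _)) (1 / 16) 2 (by norm_num) (by
    intro i
    have h1 : ∑ l ∈ univ.filter (fun l => i ∈ V l), Trans_Q O conf l.1 l.2 ≤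
        ∑ l : (B × G) × (B × G), ((if l.1.1 = i then Trans_Q O conf l.1 l.2 else 0) +
          (if l.2.1 = i then Trans_Q O conf l.1 l.2 else 0)) := by
      rw [sum_filter]
      refine sum_le_sum fun l _ => ?_
      have h0 := Trans_Q_nonneg O conf l.1 l.2
      by_cases hl : i ∈ V l
      · rw [if_pos hl]
        have hl' : i = l.1.1 ∨ i = l.2.1 := by simpa [V] using hl
        rcases hl' with h2 | h2
        · rw [if_pos h2.symm]
          split_ifs <;> linarith
        · rw [if_pos h2.symm]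
          split_ifs <;> linarith
      · rw [if_neg hl]
        split_ifs <;> linarith
    refine h1.trans ?_
    rw [sum_add_distrib, Trans_sum]
    have h3 : ∑ l : (B × G) × (B × G), (if l.2.1 = i then Trans_Q O conf l.1 l.2 else 0) =
        ∑ l : (B × G) × (B × G), (if l.1.1 = i then Trans_Q O conf l.1 l.2 else 0) := by
      refine Fintype.sum_equiv (Equiv.prodComm _ _) _ _ fun l => ?_
      change (if l.2.1 = i then Trans_Q O conf l.1 l.2 else 0) =
        (if l.2.1 = i then Trans_Q O conf l.2 l.1 else 0)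
      rw [Trans_Q_symm hs]
    rw [h3, Trans_sum]
    have h4 := Trans_row O conf Δ hΔ hO hc i
    linarith) (by
    intro k
    have h1 : (V k).card ≤ 2 := Finset.card_le_two
    exact_mod_cast h1) (by
    intro k
    have h1 : Trans_Q O conf k.1 k.2 ≤ (1 / 32) * (1 / 32) := by
      unfold Trans_Q
      split_ifs
      · refine mul_le_mul ?_ ?_ (by positivity) (by positivity)
        · exact one_div_le_one_div_of_le (by norm_num) (hbig _)
        · exact one_div_le_one_div_of_le (by norm_num) (hbig _)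
      · positivity
    norm_num at h1 ⊢
    linarith)
  have hmem : ∀ b, ω b ∈ O b := by
    intro b
    by_contra hn
    have h1 := hω b
    change (0 : ℝ) < if ω b ∈ O b then 1 / ((O b).card : ℝ) else 0 at h1
    rw [if_neg hn] at h1
    exact lt_irrefl _ h1
  refine ⟨ω, hmem, fun b b' hb hconf => ?_⟩
  exact hA ((b, ω b), (b', ω b')) ⟨⟨hb, hmem b, hmem b', hconf⟩, rfl, rfl⟩

end Pool.Agent.Lib.CD
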