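import Pool.Agent.Lib.MP_dcb6ed_co_CD.LowM
import Pool.Agent.Lib.MP_dcb6ed_co_CD.Trans

/-!
# The matching which covers the bad elements

Let `M` be the matching of `low_match`.  `B` = set of the bad elements (`BadT`) which are not
covered by `M`.  A low element is covered by `M`, so for `b ∈ B`:
`|H ∩ st b| ≥ |W0 ∩ st b| ≥ u ^ 200 / 400`.
Options of `b ∈ B`: the `g ∈ H ∩ st b` such that all `y ∈ els g`, `y ≠ b`, satisfy `pre y = true`,
`y` is not bad, `y ∉ cov M`.  By `l5`, `Gd.few` and `low_match` (`b ∉ cov M`)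
`|O b| ≥ u ^ 104 / 800 - u ^ 80 - 4 ≥ u ^ 104 / 1600`.
Conflict of `g`, `g'`: they have an element in common.  Let `g ∈ O b`, `g' ∈ O b'`, `b ≠ b'`, with
a common element `y`.  `y ≠ b` (otherwise `b` is an element of `g'` different from `b'`, but `b` is
bad), and `y ≠ b'`.  So `y` is one of the two elements `≠ b` of `g`, `g' ∈ W1 ∩ st y` has the bad
element `b' ≠ y`; for fixed `y` there are at most `u ^ 80` such `g'` (`Gd.few`), and `b'` is
determined by `g'` (the other elements of `g'` are not bad).  So `g` is in conflict with at most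
`2 u ^ 80` pairs `(b', g')`.  Apply `transversal` (with `B` the subtype, `Δ = ⌊2 u ^ 80⌋₊`, `≥ 1`):
`32 Δ ≤ u ^ 104 / 1600`.
Let `M' = {f b : b ∈ B}`, `M0 = M ∪ M'`.  `M0` is a matching: the elements of `f b` are not covered
by `M`; `f b`, `f b'` are not in conflict.  All bad elements are covered.

Loss: `x ∉ cov M0`, `g ∈ W1 ∩ st x` with an element `y ≠ x`, `y ∈ cov M0`.  If `y ∈ cov M`: at most
`4` triples `g` (`low_match`).  If `y ∈ els (f b)`: `y = b` is bad (at most `u ^ 80` triples `g`,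
`Gd.few`), or `pre y = true` (at most `9 u ^ 152`, `l0`).  `4 + u ^ 80 + 9 u ^ 152 ≤ 10 u ^ 152`.
-/

set_option autoImplicit false

namespace Pool.Agent.Lib.CD

open Finset Filter
open Pool.Agent.Lib.FR (J El Edge st Cf)

private theorem BadM_cnt3 {E : Type} [Fintype E] {P Q R S : E → Prop}
    (h : ∀ g, P g → Q g ∨ R g ∨ S g) : cnt P ≤ cnt Q + cnt R + cnt S := by
  classical
  unfold cnt
  have h1 : univ.filter P ⊆ (univ.filter Q ∪ univ.filter R) ∪ univ.filter S := by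
    intro g hg
    have h2 := h g (mem_filter.1 hg).2
    simp only [mem_union, mem_filter, mem_univ, true_and]
    tauto
  refine (card_le_card h1).trans ((card_union_le _ _).trans ?_)
  exact Nat.add_le_add_right (card_union_le _ _) _

private theorem BadM_els {n : ℕ} {g : J n} {a : El n} : a ∈ els n g ↔ g ∈ st n a := by
  simp [els]

private theorem BadM_els_card {n : ℕ} (g : J n) : (els n g).card ≤ 3 := by
  classical
  unfold els
  convert Pool.Agent.Lib.FR.els_card n g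

/-- the bounds for large `u` -/
private theorem BadM_num {u : ℝ} (hu : 2 ≤ u) :
    u ^ 80 + 4 ≤ u ^ 104 / 1600 ∧ 32 * (2 * u ^ 80) ≤ u ^ 104 / 1600 ∧ 1 ≤ 2 * u ^ 80 ∧
      4 + u ^ 80 + 9 * u ^ 152 ≤ 10 * u ^ 152 := by
  have h1 : (1 : ℝ) ≤ u ^ 80 := one_le_pow₀ (by linarith)
  have h2 : (2 : ℝ) ^ 24 ≤ u ^ 24 := pow_le_pow_left₀ (by norm_num) hu 24
  have h3 : (2 : ℝ) ^ 72 ≤ u ^ 72 := pow_le_pow_left₀ (by norm_num) hu 72
  have e1 : u ^ 104 = u ^ 80 * u ^ 24 := by rw [← pow_add]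
  have e2 : u ^ 152 = u ^ 80 * u ^ 72 := by rw [← pow_add]
  have h4 : u ^ 80 * (2 : ℝ) ^ 24 ≤ u ^ 104 := by
    rw [e1]
    exact mul_le_mul_of_nonneg_left h2 (by linarith)
  have h5 : u ^ 80 * (2 : ℝ) ^ 72 ≤ u ^ 152 := by
    rw [e2]
    exact mul_le_mul_of_nonneg_left h3 (by linarith)
  norm_num at h4 h5
  refine ⟨?_, ?_, ?_, ?_⟩ <;> linarith

open Classical in
private theorem BadM_main {n : ℕ} {u α : ℝ} (hu : 2 ≤ u) {Z : Finset (Pt n)}
    {W0 W1 H : Finset (J n)} (hg : Gd n u α Z W0 W1) (h0 : W0 ⊆ H) (h1 : H ⊆ W1)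
    (hcov : ∀ a, ∃ g ∈ H, g ∈ st n a) {cl : El n → Fin 3} {pre : El n → Bool} {co : J n → Bool}
    (hL : LabOK n u α Z W1 H cl pre co) : ∃ M0, M0OK n u α Z W0 W1 H M0 := by
  obtain ⟨n1, n2, n3, n4⟩ := BadM_num hu
  obtain ⟨M, hMH, hMm, hlow, hloss⟩ := low_match hg h1 hcov
  let B : Type := {b : El n // BadT n u α Z W0 W1 b ∧ b ∉ cov (els n) M}
  let O : B → Finset (J n) := fun b => H.filter (fun g => g ∈ st n b.1 ∧
    ∀ y ∈ els n g, y ≠ b.1 → pre y = true ∧ ¬ BadT n u α Z W0 W1 y ∧ y ∉ cov (els n) M)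
  have hOm : ∀ (b : B) (g : J n), g ∈ O b ↔ g ∈ H ∧ g ∈ st n b.1 ∧
      ∀ y ∈ els n g, y ≠ b.1 → pre y = true ∧ ¬ BadT n u α Z W0 W1 y ∧ y ∉ cov (els n) M := by
    intro b g
    exact mem_filter
  -- many options
  have hOc : ∀ b : B, u ^ 104 / 1600 ≤ ((O b).card : ℝ) := by
    intro b
    have hb : u ^ 200 / 400 ≤ ((H ∩ st n b.1).card : ℝ) := by
      have h2 : ¬ ((W0 ∩ st n b.1).card : ℝ) < u ^ 200 / 400 := fun h => b.2.2 (hlow _ h)
      push Not at h2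
      refine h2.trans ?_
      exact_mod_cast card_le_card (inter_subset_inter_right h0)
    have h3 := hL.l5 b.1 hb
    have h4 : cnt (fun g : J n => g ∈ H ∧ g ∈ st n b.1 ∧
        ∀ y ∈ els n g, y ≠ b.1 → pre y = true) ≤ cnt (fun g : J n => g ∈ O b) +
        cnt (fun g : J n => g ∈ W1 ∧ g ∈ st n b.1 ∧
          ∃ a' ∈ els n g, a' ≠ b.1 ∧ BadT n u α Z W0 W1 a') +
        cnt (fun g : J n => g ∈ W1 ∧ g ∈ st n b.1 ∧
          ∃ y ∈ els n g, y ≠ b.1 ∧ y ∈ cov (els n) M) := by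
      refine BadM_cnt3 fun g hgg => ?_
      obtain ⟨g1, g2, g3⟩ := hgg
      by_cases c1 : ∃ a' ∈ els n g, a' ≠ b.1 ∧ BadT n u α Z W0 W1 a'
      · exact Or.inr (Or.inl ⟨h1 g1, g2, c1⟩)
      · by_cases c2 : ∃ y ∈ els n g, y ≠ b.1 ∧ y ∈ cov (els n) M
        · exact Or.inr (Or.inr ⟨h1 g1, g2, c2⟩)
        · refine Or.inl ((hOm b g).2 ⟨g1, g2, fun y hy hyb => ⟨g3 y hy hyb, ?_, ?_⟩⟩)
          · exact fun h => c1 ⟨y, hy, hyb, h⟩
          · exact fun h => c2 ⟨y, hy, hyb, h⟩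
    have h5 : cnt (fun g : J n => g ∈ O b) = (O b).card := by
      unfold cnt
      congr 1
      ext g
      simp
    have h6 := hg.few b.1
    have h7 := hloss b.1 b.2.2
    rw [h5] at h4
    have h8 : (cnt (fun g : J n => g ∈ H ∧ g ∈ st n b.1 ∧
        ∀ y ∈ els n g, y ≠ b.1 → pre y = true) : ℝ) ≤ (O b).card +
        (cnt (fun g : J n => g ∈ W1 ∧ g ∈ st n b.1 ∧
          ∃ a' ∈ els n g, a' ≠ b.1 ∧ BadT n u α Z W0 W1 a') : ℝ) + 4 := by
      have := h4.trans (Nat.add_le_add_left h7 _)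
      exact_mod_cast this
    linarith
  -- few conflicts
  have hconf : ∀ b : B, ∀ g ∈ O b, (univ.filter (fun p : B × J n => p.1 ≠ b ∧ p.2 ∈ O p.1 ∧
      ∃ y, y ∈ els n g ∧ y ∈ els n p.2)).card ≤ ⌊2 * u ^ 80⌋₊ := by
    intro b g hgb
    obtain ⟨g1, g2, g3⟩ := (hOm b g).1 hgb
    apply Nat.le_floor
    obtain ⟨Pr, hPr⟩ : ∃ Pr : Finset (B × J n), Pr = univ.filter (fun p : B × J n =>
        p.1 ≠ b ∧ p.2 ∈ O p.1 ∧ ∃ y, y ∈ els n g ∧ y ∈ els n p.2) := ⟨_, rfl⟩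
    rw [← hPr]
    have hinj : Set.InjOn (fun p : B × J n => p.2) (Pr : Set (B × J n)) := by
      rintro ⟨b1, x1⟩ hp ⟨b2, x2⟩ hq h
      have h' : x1 = x2 := h
      subst h'
      rw [hPr] at hp hq
      obtain ⟨_, hp2, _⟩ := (mem_filter.1 (mem_coe.1 hp)).2
      obtain ⟨_, hq2, _⟩ := (mem_filter.1 (mem_coe.1 hq)).2
      obtain ⟨_, p2, p3⟩ := (hOm b1 x1).1 hp2
      obtain ⟨_, q2, q3⟩ := (hOm b2 x1).1 hq2
      have h8 : b1 = b2 := by
        by_contra hne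
        have hne' : b1.1 ≠ b2.1 := fun h => hne (Subtype.ext h)
        exact (q3 b1.1 (BadM_els.2 p2) hne').2.1 b1.2.1
      rw [h8]
    have himg : Pr.image (fun p : B × J n => p.2) ⊆ ((els n g).erase b.1).biUnion (fun y =>
        univ.filter (fun g' : J n => g' ∈ W1 ∧ g' ∈ st n y ∧
          ∃ a' ∈ els n g', a' ≠ y ∧ BadT n u α Z W0 W1 a')) := by
      intro x hx
      obtain ⟨⟨b', x'⟩, hp, rfl⟩ := mem_image.1 hx
      rw [hPr] at hp
      obtain ⟨hbb, hO', y, hy1, hy2⟩ := (mem_filter.1 hp).2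
      obtain ⟨p1, p2, p3⟩ := (hOm b' x').1 hO'
      have hbb' : b'.1 ≠ b.1 := fun h => hbb (Subtype.ext h)
      have hyb : y ≠ b.1 := by
        rintro rfl
        exact (p3 b.1 hy2 hbb'.symm).2.1 b.2.1
      have hyb' : y ≠ b'.1 := by
        rintro rfl
        exact (g3 b'.1 hy1 hbb').2.1 b'.2.1
      refine mem_biUnion.2 ⟨y, mem_erase.2 ⟨hyb, hy1⟩, mem_filter.2 ⟨mem_univ _, h1 p1,
        BadM_els.1 hy2, b'.1, BadM_els.2 p2, hyb'.symm, b'.2.1⟩⟩
    have hc2 : ((els n g).erase b.1).card ≤ 2 := by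
      rw [card_erase_of_mem (BadM_els.2 g2)]
      have := BadM_els_card g
      omega
    have hcard : Pr.card ≤ ∑ y ∈ (els n g).erase b.1, cnt (fun g' : J n => g' ∈ W1 ∧ g' ∈ st n y ∧
          ∃ a' ∈ els n g', a' ≠ y ∧ BadT n u α Z W0 W1 a') := by
      rw [← card_image_of_injOn hinj]
      refine (card_le_card himg).trans (card_biUnion_le.trans (sum_le_sum fun y _ => ?_))
      unfold cnt
      exact le_of_eq (by congr)
    calc (Pr.card : ℝ) ≤ ((∑ y ∈ (els n g).erase b.1, cnt (fun g' : J n => g' ∈ W1 ∧ g' ∈ st n y ∧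
          ∃ a' ∈ els n g', a' ≠ y ∧ BadT n u α Z W0 W1 a') : ℕ) : ℝ) := by exact_mod_cast hcard
      _ = ∑ y ∈ (els n g).erase b.1, (cnt (fun g' : J n => g' ∈ W1 ∧ g' ∈ st n y ∧
          ∃ a' ∈ els n g', a' ≠ y ∧ BadT n u α Z W0 W1 a') : ℝ) := by push_cast; rfl
      _ ≤ ∑ y ∈ (els n g).erase b.1, u ^ 80 := sum_le_sum fun y _ => hg.few y
      _ = ((els n g).erase b.1).card * u ^ 80 := by rw [sum_const, nsmul_eq_mul]
      _ ≤ 2 * u ^ 80 := by
        refine mul_le_mul_of_nonneg_right ?_ (by positivity)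
        exact_mod_cast hc2
  obtain ⟨f, hf, hff⟩ := transversal O (fun g g' => ∃ y, y ∈ els n g ∧ y ∈ els n g')
    (fun g g' ⟨y, hy, hy'⟩ => ⟨y, hy', hy⟩) ⌊2 * u ^ 80⌋₊ (Nat.le_floor (by exact_mod_cast n3))
    (fun b => by
      have h2 := hOc b
      have h3 : (⌊2 * u ^ 80⌋₊ : ℝ) ≤ 2 * u ^ 80 := Nat.floor_le (by positivity)
      have h4 : ((32 * ⌊2 * u ^ 80⌋₊ : ℕ) : ℝ) ≤ ((O b).card : ℝ) := by
        push_cast
        linarith
      exact_mod_cast h4) (fun b g hgb => by convert hconf b g hgb)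
  have hfH : ∀ b, f b ∈ H := fun b => ((hOm b _).1 (hf b)).1
  have hfM : ∀ b, ∀ y ∈ els n (f b), y ∉ cov (els n) M := by
    intro b y hy
    by_cases hyb : y = b.1
    · rw [hyb]
      exact b.2.2
    · exact (((hOm b _).1 (hf b)).2.2 y hy hyb).2.2
  have hcovm : ∀ y, y ∈ cov (els n) (M ∪ univ.image f) ↔
      y ∈ cov (els n) M ∨ ∃ b, y ∈ els n (f b) := by
    intro y
    unfold cov
    rw [union_biUnion, mem_union, mem_biUnion, mem_biUnion]
    constructor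
    · rintro (h | ⟨g, hg1, hg2⟩)
      · exact Or.inl h
      · obtain ⟨b, _, rfl⟩ := mem_image.1 hg1
        exact Or.inr ⟨b, hg2⟩
    · rintro (h | ⟨b, hb⟩)
      · exact Or.inl h
      · exact Or.inr ⟨f b, mem_image_of_mem _ (mem_univ _), hb⟩
  have hdis1 : ∀ e ∈ M, ∀ b, Disjoint (els n e) (els n (f b)) := by
    intro e he b
    rw [disjoint_left]
    intro y hy1 hy2
    exact hfM b y hy2 (mem_biUnion.2 ⟨e, he, hy1⟩)
  refine ⟨M ∪ univ.image f, ?_, ?_, ?_, ?_⟩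
  · intro g hgm
    rcases mem_union.1 hgm with h | h
    · exact hMH h
    · obtain ⟨b, _, rfl⟩ := mem_image.1 h
      exact hfH b
  · intro e he e' he' hne
    rcases mem_union.1 he with h | h
    · rcases mem_union.1 he' with h' | h'
      · exact hMm e h e' h' hne
      · obtain ⟨b, _, rfl⟩ := mem_image.1 h'
        exact hdis1 e h b
    · obtain ⟨b, _, rfl⟩ := mem_image.1 h
      rcases mem_union.1 he' with h' | h'
      · exact (hdis1 e' h' b).symm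
      · obtain ⟨b', _, rfl⟩ := mem_image.1 h'
        have hbb : b ≠ b' := by
          rintro rfl
          exact hne rfl
        rw [disjoint_left]
        intro y hy1 hy2
        exact hff b b' hbb ⟨y, hy1, hy2⟩
  · intro a ha
    rw [hcovm]
    by_cases h : a ∈ cov (els n) M
    · exact Or.inl h
    · exact Or.inr ⟨⟨a, ha, h⟩, BadM_els.2 ((hOm ⟨a, ha, h⟩ _).1 (hf ⟨a, ha, h⟩)).2.1⟩
  · intro x hx
    rw [hcovm] at hx
    push Not at hx
    have h2 : cnt (fun g : J n => g ∈ W1 ∧ g ∈ st n x ∧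
        ∃ y ∈ els n g, y ≠ x ∧ y ∈ cov (els n) (M ∪ univ.image f)) ≤
        cnt (fun g : J n => g ∈ W1 ∧ g ∈ st n x ∧ ∃ y ∈ els n g, y ≠ x ∧ y ∈ cov (els n) M) +
        cnt (fun g : J n => g ∈ W1 ∧ g ∈ st n x ∧
          ∃ a' ∈ els n g, a' ≠ x ∧ BadT n u α Z W0 W1 a') +
        cnt (fun g : J n => g ∈ W1 ∧ g ∈ st n x ∧ ∃ y ∈ els n g, y ≠ x ∧ pre y = true) := by
      refine BadM_cnt3 fun g hgg => ?_
      obtain ⟨g1, g2, y, hy1, hy2, hy3⟩ := hgg
      rw [hcovm] at hy3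
      rcases hy3 with h | ⟨b, hb⟩
      · exact Or.inl ⟨g1, g2, y, hy1, hy2, h⟩
      · by_cases hyb : y = b.1
        · refine Or.inr (Or.inl ⟨g1, g2, y, hy1, hy2, ?_⟩)
          rw [hyb]
          exact b.2.1
        · exact Or.inr (Or.inr ⟨g1, g2, y, hy1, hy2, (((hOm b _).1 (hf b)).2.2 y hb hyb).1⟩)
    have h3 := hloss x hx.1
    have h4 := hg.few x
    have h5 := hL.l0 x
    have h6 : (cnt (fun g : J n => g ∈ W1 ∧ g ∈ st n x ∧
        ∃ y ∈ els n g, y ≠ x ∧ y ∈ cov (els n) (M ∪ univ.image f)) : ℝ) ≤ 4 +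
        (cnt (fun g : J n => g ∈ W1 ∧ g ∈ st n x ∧
          ∃ a' ∈ els n g, a' ≠ x ∧ BadT n u α Z W0 W1 a') : ℝ) +
        (cnt (fun g : J n => g ∈ W1 ∧ g ∈ st n x ∧ ∃ y ∈ els n g, y ≠ x ∧ pre y = true) : ℝ) := by
      have := h2.trans (Nat.add_le_add_right (Nat.add_le_add_right h3 _) _)
      exact_mod_cast this
    linarith

theorem bad_match : ∀ᶠ u : ℝ in atTop, ∀ (n : ℕ) (α : ℝ), 0 ≤ α → α ≤ 1 / u →
    ∀ (Z : Finset (Pt n)) (W0 W1 H : Finset (J n)), Gd n u α Z W0 W1 → W0 ⊆ H → H ⊆ W1 →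
    (∀ a, ∃ g ∈ H, g ∈ st n a) →
    ∀ (cl : El n → Fin 3) (pre : El n → Bool) (co : J n → Bool),
      LabOK n u α Z W1 H cl pre co → ∃ M0, M0OK n u α Z W0 W1 H M0 := by
  filter_upwards [eventually_ge_atTop (2 : ℝ)] with u hu n α _ _ Z W0 W1 H hg h0 h1 hcov cl pre
    co hL
  exact BadM_main hu hg h0 h1 hcov hL

end Pool.Agent.Lib.CD
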