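import Pool.Agent.Lib.MP_dcb6ed_co_CD.PtsW

/-!
# From matchings to partial colourings

`ColOK n A C L φ`: `φ` is a partial proper edge-colouring from the lists `L`, all edges which are not
inside `A` are coloured, and a vertex `v` sees the colour `c` whenever `v ∉ A` or `c ∉ C`.

`col_of`: let `φ e = some c` iff `(c, e) ∈ M` (for fixed `e` there is at most one such `c`, because the
triples `(c, e)`, `(c', e)` have the element `inl e` in common).  `prop`: `(c, e)`, `(c, e')` have the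
element `inr (v, c)` in common.  `edge`: if `v ∈ e`, `v ∉ A`, then `inl v ∉ Z` and
`wE (inl e) ≤ 1`, so `inl e` is covered by some `(c, e) ∈ M`.  `pres`: if `v ∉ A` or `c ∉ C` then one of the
two points of `inr (v, c)` is not in `Z`, so this element is covered.
-/

set_option autoImplicit false

namespace Pool.Agent.Lib.CD

open Finset
open Pool.Agent.Lib.FR (J El Edge st Cf mem_st_inl mem_st_inr)

/-- a partial proper colouring which is complete outside `A`, `C` -/
structure ColOK (n : ℕ) (A : Finset (Fin (2 * n))) (C : Finset (Fin (2 * n - 1)))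
    (L : Edge (Fin (2 * n)) → Finset (Fin (2 * n - 1)))
    (φ : Edge (Fin (2 * n)) → Option (Fin (2 * n - 1))) : Prop where
  list : ∀ e c, φ e = some c → c ∈ L e
  prop : ∀ e e' c v, φ e = some c → φ e' = some c → v ∈ e.1 → v ∈ e'.1 → e = e'
  edge : ∀ e v, v ∈ e.1 → v ∉ A → ∃ c, φ e = some c
  pres : ∀ v c, (v ∉ A ∨ c ∉ C) → ∃ e, v ∈ e.1 ∧ φ e = some c

/-- two triples of a matching with a common element are equal -/
theorem ColD_eq {n : ℕ} {M : Finset (J n)} (hM : IsM (els n) M) {g g' : J n} (hg : g ∈ M)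
    (hg' : g' ∈ M) {a : El n} (h1 : g ∈ st n a) (h2 : g' ∈ st n a) : g = g' := by
  by_contra hne
  exact disjoint_left.1 (hM g hg g' hg' hne) (mem_els.2 h1) (mem_els.2 h2)

/-- an element with a point outside `Z` has at most one special point -/
theorem ColD_wE {n : ℕ} {Z : Finset (Pt n)} {a : El n} {p : Pt n} (hp : p ∈ ptE n a)
    (hZ : p ∉ Z) : wE n Z a ≤ 1 := by
  unfold wE
  have h1 : ptE n a ∩ Z ⊆ (ptE n a).erase p := by
    intro q hq
    rw [mem_inter] at hq
    refine mem_erase.2 ⟨?_, hq.1⟩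
    rintro rfl
    exact hZ hq.2
  have h2 := card_le_card h1
  rw [card_erase_of_mem hp, card_ptE] at h2
  exact h2

open Classical in
theorem col_of {n : ℕ} {Z : Finset (Pt n)} {M H : Finset (J n)} (hMH : M ⊆ H)
    (hM : IsM (els n) M) (hc : ∀ a, wE n Z a ≤ 1 → a ∈ cov (els n) M)
    {A : Finset (Fin (2 * n))} {C : Finset (Fin (2 * n - 1))}
    (hA : ∀ v, Sum.inl v ∈ Z → v ∈ A) (hC : ∀ c, Sum.inr c ∈ Z → c ∈ C) :
    ∃ φ, ColOK n A C (fun e => univ.filter (fun c => (c, e) ∈ H)) φ := by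
  let φ : Edge (Fin (2 * n)) → Option (Fin (2 * n - 1)) := fun e =>
    if h : ∃ c, (c, e) ∈ M then some h.choose else none
  have hφ1 : ∀ e c, φ e = some c → (c, e) ∈ M := by
    intro e c h
    simp only [φ] at h
    split_ifs at h with h1
    have h2 := h1.choose_spec
    have h3 : h1.choose = c := Option.some.inj h
    rw [h3] at h2
    exact h2
  have hφ2 : ∀ e c, (c, e) ∈ M → φ e = some c := by
    intro e c h
    have h1 : ∃ c, (c, e) ∈ M := ⟨c, h⟩
    simp only [φ]
    rw [dif_pos h1]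
    have h2 : ((h1.choose, e) : J n) = (c, e) :=
      ColD_eq hM h1.choose_spec h (a := Sum.inl e) (mem_st_inl.2 rfl) (mem_st_inl.2 rfl)
    exact congrArg some (congrArg Prod.fst h2)
  refine ⟨φ, ?_, ?_, ?_, ?_⟩
  · intro e c h
    exact mem_filter.2 ⟨mem_univ _, hMH (hφ1 e c h)⟩
  · intro e e' c v h h' hv hv'
    have h2 : ((c, e) : J n) = (c, e') :=
      ColD_eq hM (hφ1 e c h) (hφ1 e' c h') (a := Sum.inr (v, c)) (mem_st_inr.2 ⟨rfl, hv⟩)
        (mem_st_inr.2 ⟨rfl, hv'⟩)
    exact congrArg Prod.snd h2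
  · intro e v hv hvA
    have h1 : Sum.inl v ∈ ptE n (Sum.inl e) := by
      unfold ptE
      exact mem_filter.2 ⟨mem_univ _, hv⟩
    have h2 := hc (Sum.inl e) (ColD_wE h1 fun h => hvA (hA v h))
    obtain ⟨g, hg, hga⟩ := mem_cov_els.1 h2
    rw [mem_st_inl] at hga
    refine ⟨g.1, hφ2 e g.1 ?_⟩
    rw [← hga]
    exact hg
  · intro v c hvc
    have h0 : wE n Z (Sum.inr (v, c)) ≤ 1 := by
      rcases hvc with h | h
      · exact ColD_wE (p := Sum.inl v) (by rw [ptE_inr]; simp) fun h' => h (hA v h')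
      · exact ColD_wE (p := Sum.inr c) (by rw [ptE_inr]; simp) fun h' => h (hC c h')
    obtain ⟨g, hg, hga⟩ := mem_cov_els.1 (hc _ h0)
    rw [mem_st_inr] at hga
    refine ⟨g.2, hga.2, hφ2 g.2 c ?_⟩
    rw [← hga.1]
    exact hg

end Pool.Agent.Lib.CD
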