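import Pool.Agent.Lib.MP_dcb6ed_co_CD.PtsW

/-!
# Counting the uncovered elements at a point which is not special

`M` is a matching which covers all elements with `wE = 0`.

`up_vertex`: `P = inl v ∉ Z`.  Let `Mv` be the set of the `g ∈ M` with `P ∈ ptJ g`.  Every `g ∈ Mv` contains
exactly one edge `{v, w}` and exactly one pair `(v, c)`, and an edge `{v, w}` (a pair `(v, c)`) is
covered iff it is in exactly one `g ∈ Mv`.  So the number of the `w ≠ v` such that `{v, w}` is covered
and the number of the `c` such that `(v, c)` is covered are both `|Mv|`; there are `2 n - 1` such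
`w` and `2 n - 1` such `c`.  So the numbers of uncovered ones are equal.  An uncovered `{v, w}` has
`wE ≠ 0`, so `inl w ∈ Z`; an uncovered `(v, c)` has `inr c ∈ Z`.  These are the elements of the two
parts of `UP`.
`up_colour`: `P = inr c ∉ Z`.  The `g ∈ M` with colour `c` cover disjoint pairs of the pairs `(w, c)`, so
the number of the uncovered `(w, c)` is `2 n - 2 |Mc|`.  If `(w, c)` is uncovered then `inl w ∈ Z`.
There is no element whose points are two colours (`ptE_left`).
-/

set_option autoImplicit false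

namespace Pool.Agent.Lib.CD

open Finset
open Pool.Agent.Lib.FR (J El Edge st Cf)

theorem Count_mem_UP {n : ℕ} {Z : Finset (Pt n)} {M : Finset (J n)}
    (hz : ∀ a, wE n Z a = 0 → a ∈ cov (els n) M) {P z : Pt n} (hP : P ∉ Z) :
    z ∈ UP n Z M P ↔ z ≠ P ∧ (P.isLeft = true ∨ z.isLeft = true) ∧
      ∀ g ∈ M, P ∈ ptJ n g → z ∉ ptJ n g := by
  classical
  unfold UP
  rw [mem_filter]
  constructor
  · rintro ⟨hzZ, a, ha, hcov⟩
    refine ⟨?_, ?_, ?_⟩
    · rintro rfl
      exact hP hzZ
    · obtain ⟨p, hp, hl⟩ := ptE_left a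
      rw [ha, mem_insert, mem_singleton] at hp
      rcases hp with rfl | rfl
      · exact Or.inl hl
      · exact Or.inr hl
    · intro g hg h1 h2
      apply hcov
      rw [mem_cov_els]
      refine ⟨g, hg, mem_els.1 (mem_els_iff.2 ?_)⟩
      rw [ha]
      exact insert_subset h1 (singleton_subset_iff.2 h2)
  · rintro ⟨h1, h2, h3⟩
    obtain ⟨a, ha⟩ := exists_ptE (n := n) h1.symm h2
    have hcov : a ∉ cov (els n) M := by
      intro hc
      rw [mem_cov_els] at hc
      obtain ⟨g, hg, hga⟩ := hc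
      have h4 := mem_els_iff.1 (mem_els.2 hga)
      rw [ha] at h4
      exact h3 g hg (h4 (mem_insert_self _ _)) (h4 (mem_insert_of_mem (mem_singleton_self _)))
    refine ⟨?_, a, ha, hcov⟩
    by_contra hzZ
    apply hcov
    apply hz
    unfold wE
    rw [ha, insert_inter_of_notMem hP, singleton_inter_of_notMem hzZ, card_empty]

theorem Count_eq {n : ℕ} {M : Finset (J n)} (hM : IsM (els n) M) {P z : Pt n} (hPz : z ≠ P)
    {g g' : J n} (hg : g ∈ M) (hg' : g' ∈ M) (h1 : P ∈ ptJ n g) (h2 : z ∈ ptJ n g)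
    (h3 : P ∈ ptJ n g') (h4 : z ∈ ptJ n g') : g = g' := by
  by_contra hne
  obtain ⟨a, ha, hpa⟩ := exists_el h1 h2 hPz.symm
  have ha' : a ∈ els n g' := by
    rw [mem_els_iff, hpa]
    exact insert_subset h3 (singleton_subset_iff.2 h4)
  exact disjoint_left.1 (hM g hg g' hg' hne) ha ha'

theorem Count_card {n : ℕ} {Z : Finset (Pt n)} {M : Finset (J n)} (hM : IsM (els n) M)
    (hz : ∀ a, wE n Z a = 0 → a ∈ cov (els n) M) {P : Pt n} (hP : P ∉ Z) (Q : Pt n → Prop)
    [DecidablePred Q] (hQ : ∀ z, Q z → z ≠ P → (P.isLeft = true ∨ z.isLeft = true)) (k : ℕ)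
    (hk : ∀ g ∈ M, P ∈ ptJ n g → (((ptJ n g).filter Q).erase P).card = k) :
    ((UP n Z M P).filter Q).card =
      ((univ.filter Q).erase P).card - (M.filter (fun g => P ∈ ptJ n g)).card * k := by
  classical
  have h1 : (UP n Z M P).filter Q = (univ.filter Q).erase P \
      (M.filter (fun g => P ∈ ptJ n g)).biUnion (fun g => ((ptJ n g).filter Q).erase P) := by
    ext z
    rw [mem_filter, Count_mem_UP hz hP, mem_sdiff, mem_erase, mem_filter, mem_biUnion]
    constructor
    · rintro ⟨⟨h2, h3, h4⟩, h5⟩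
      refine ⟨⟨h2, mem_univ _, h5⟩, ?_⟩
      rintro ⟨g, hg, hg'⟩
      rw [mem_filter] at hg
      rw [mem_erase, mem_filter] at hg'
      exact h4 g hg.1 hg.2 hg'.2.1
    · rintro ⟨⟨h2, -, h3⟩, h4⟩
      refine ⟨⟨h2, hQ z h3 h2, ?_⟩, h3⟩
      intro g hg hPg hzg
      exact h4 ⟨g, mem_filter.2 ⟨hg, hPg⟩, mem_erase.2 ⟨h2, mem_filter.2 ⟨hzg, h3⟩⟩⟩
  rw [h1, card_sdiff_of_subset]
  · congr 1
    rw [card_biUnion]
    · rw [sum_congr rfl (fun g hg => hk g (mem_filter.1 hg).1 (mem_filter.1 hg).2), sum_const,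
        smul_eq_mul]
    · intro g hg g' hg' hne
      refine disjoint_left.2 ?_
      intro z hz1 hz2
      rw [mem_erase, mem_filter] at hz1 hz2
      have hg1 := mem_filter.1 hg
      have hg2 := mem_filter.1 hg'
      exact hne (Count_eq hM hz1.1 hg1.1 hg2.1 hg1.2 hz1.2.1 hg2.2 hz2.2.1)
  · intro z hz1
    rw [mem_biUnion] at hz1
    obtain ⟨g, hg, hg'⟩ := hz1
    rw [mem_erase, mem_filter] at hg'
    exact mem_erase.2 ⟨hg'.1, mem_filter.2 ⟨mem_univ _, hg'.2.2⟩⟩

theorem Count_left (n : ℕ) :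
    ((univ : Finset (Pt n)).filter (fun z => z.isLeft = true)).card = 2 * n := by
  classical
  have h : (univ : Finset (Pt n)).filter (fun z => z.isLeft = true) =
      univ.image (fun v : Fin (2 * n) => (Sum.inl v : Pt n)) := by
    ext z
    rcases z with v | c <;> simp
  rw [h, card_image_of_injective _ Sum.inl_injective, card_univ, Fintype.card_fin]

theorem Count_right (n : ℕ) :
    ((univ : Finset (Pt n)).filter (fun z => z.isRight = true)).card = 2 * n - 1 := by
  classical
  have h : (univ : Finset (Pt n)).filter (fun z => z.isRight = true) =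
      univ.image (fun v : Fin (2 * n - 1) => (Sum.inr v : Pt n)) := by
    ext z
    rcases z with v | c <;> simp
  rw [h, card_image_of_injective _ Sum.inr_injective, card_univ, Fintype.card_fin]

theorem up_vertex {n : ℕ} {Z : Finset (Pt n)} {M : Finset (J n)} (hM : IsM (els n) M)
    (hz : ∀ a, wE n Z a = 0 → a ∈ cov (els n) M) {v : Fin (2 * n)} (hv : Sum.inl v ∉ Z) :
    ((UP n Z M (Sum.inl v)).filter (fun z => z.isLeft = true)).card =
      ((UP n Z M (Sum.inl v)).filter (fun z => z.isRight = true)).card := by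
  rw [Count_card hM hz hv (fun z => z.isLeft = true) (fun z _ _ => Or.inl rfl) 1 ?_,
    Count_card hM hz hv (fun z => z.isRight = true) (fun z _ _ => Or.inl rfl) 1 ?_]
  · congr 1
    rw [card_erase_of_mem, erase_eq_of_notMem, Count_left, Count_right]
    · rw [mem_filter]
      rintro ⟨-, h⟩
      exact absurd h (by simp)
    · rw [mem_filter]
      exact ⟨mem_univ _, rfl⟩
  · intro g _ _
    rw [erase_eq_of_notMem, ptJ_right]
    rw [mem_filter]
    rintro ⟨-, h⟩
    exact absurd h (by simp)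
  · intro g _ hg
    rw [card_erase_of_mem, ptJ_left]
    exact mem_filter.2 ⟨hg, rfl⟩

theorem up_colour {n : ℕ} {Z : Finset (Pt n)} {M : Finset (J n)} (hM : IsM (els n) M)
    (hz : ∀ a, wE n Z a = 0 → a ∈ cov (els n) M) {c : Fin (2 * n - 1)} (hc : Sum.inr c ∉ Z) :
    Even (UP n Z M (Sum.inr c)).card ∧ ∀ z ∈ UP n Z M (Sum.inr c), z.isLeft = true := by
  have h1 : ∀ z ∈ UP n Z M (Sum.inr c), z.isLeft = true := by
    intro z hz1
    rcases ((Count_mem_UP hz hc).1 hz1).2.1 with h | h
    · exact absurd h (by simp)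
    · exact h
  refine ⟨?_, h1⟩
  rw [← filter_true_of_mem h1,
    Count_card hM hz hc (fun z => z.isLeft = true) (fun z h _ => Or.inr h) 2 ?_]
  · rw [erase_eq_of_notMem, Count_left]
    · generalize (M.filter (fun g => Sum.inr c ∈ ptJ n g)).card = m
      rw [mul_comm m 2, ← Nat.mul_sub]
      exact even_two_mul _
    · rw [mem_filter]
      rintro ⟨-, h⟩
      exact absurd h (by simp)
  · intro g _ _
    rw [erase_eq_of_notMem, ptJ_left]
    rw [mem_filter]
    rintro ⟨-, h⟩
    exact absurd h (by simp)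

end Pool.Agent.Lib.CD
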