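import Mathlib

/-!
# Project CD: definitions for the abstract part

* finite product probability spaces with coordinate weights `w i : S → ℝ`;
* 3-uniform linear hypergraphs `el : E → Finset X`, hyperedges are the elements of `E`.
-/

set_option autoImplicit false

namespace Pool.Agent.Lib.CD

open Finset

section Prob

variable {I S : Type} [Fintype I] [DecidableEq I] [Fintype S] [DecidableEq S]

/-- expectation in the finite product space with coordinate weights `w i` -/
noncomputable def EW (w : I → S → ℝ) (F : (I → S) → ℝ) : ℝ :=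
  ∑ ω : I → S, (∏ i, w i (ω i)) * F ω

open Classical in
/-- probability in the finite product space with coordinate weights `w i` -/
noncomputable def PW (w : I → S → ℝ) (A : (I → S) → Prop) : ℝ :=
  EW w (fun ω => if A ω then 1 else 0)

/-- the coordinate weights are probability vectors -/
structure IsW (w : I → S → ℝ) : Prop where
  nonneg : ∀ i s, 0 ≤ w i s
  one : ∀ i, ∑ s, w i s = 1

/-- `F` depends only on the coordinates in `V` -/
def Dep {T : Type} (V : Finset I) (F : (I → S) → T) : Prop :=
  ∀ ω ω' : I → S, (∀ i ∈ V, ω i = ω' i) → F ω = F ω'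

end Prob

section Hyp

variable {E X : Type} [Fintype E] [DecidableEq E] [Fintype X] [DecidableEq X]

/-- `el` describes a linear 3-uniform hypergraph -/
structure HG (el : E → Finset X) : Prop where
  card3 : ∀ e, (el e).card = 3
  lin : ∀ e f, e ≠ f → ((el e) ∩ (el f)).card ≤ 1

/-- `g` is another hyperedge which meets `f` -/
def Adj (el : E → Finset X) (f g : E) : Prop := g ≠ f ∧ ¬ Disjoint (el f) (el g)

/-- the hyperedges of `F` through `x` -/
def star (el : E → Finset X) (F : Finset E) (x : X) : Finset E := F.filter (fun e => x ∈ el e)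

open Classical in
/-- the hyperedges of `W` which can influence whether `y` is covered by a hyperedge other than
`e`: the hyperedges `f ≠ e` of `W` through `y`, and the hyperedges `g ≠ e` of `W` which meet such
an `f` -/
noncomputable def RR (el : E → Finset X) (W : Finset E) (y : X) (e : E) : Finset E :=
  W.filter (fun g => g ≠ e ∧ ∃ f ∈ W, f ≠ e ∧ y ∈ el f ∧ (g = f ∨ ¬ Disjoint (el f) (el g)))

/-- the hyperedges which can influence whether `e` survives, seen from `x ∈ el e` -/
noncomputable def Sup (el : E → Finset X) (W : Finset E) (x : X) (e : E) : Finset E :=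
  insert e (((el e).erase x).biUnion (fun y => RR el W y e))

/-- `W` is locally tree-like: at every vertex, up to ten hyperedges, the sets `Sup` are disjoint,
and the two branches of every hyperedge are disjoint -/
def TL (el : E → Finset X) (W : Finset E) : Prop :=
  ∀ x : X, ∃ B : Finset E, B.card ≤ 10 ∧
    (∀ e ∈ star el W x, ∀ f ∈ star el W x, e ∉ B → f ∉ B → e ≠ f →
      Disjoint (Sup el W x e) (Sup el W x f)) ∧
    (∀ e ∈ star el W x, e ∉ B → ∀ y ∈ (el e).erase x, ∀ z ∈ (el e).erase x, y ≠ z →
      Disjoint (RR el W y e) (RR el W z e))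

/-- the vertices covered by `M` -/
def cov (el : E → Finset X) (M : Finset E) : Finset X := M.biUnion el

/-- `M` is a matching -/
def IsM (el : E → Finset X) (M : Finset E) : Prop :=
  ∀ e ∈ M, ∀ f ∈ M, e ≠ f → Disjoint (el e) (el f)

/-- the hyperedges of `F` lie in `Y`, and all degrees in `Y` are `(1 ± η) Δ` -/
structure Reg (el : E → Finset X) (F : Finset E) (Y : Finset X) (Δ η : ℝ) : Prop where
  sub : ∀ e ∈ F, el e ⊆ Y
  lo : ∀ x ∈ Y, (1 - η) * Δ ≤ ((star el F x).card : ℝ)
  hi : ∀ x ∈ Y, ((star el F x).card : ℝ) ≤ (1 + η) * Δ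

/-- a family of test sets: `base τ` is a vertex, `G τ` a set of hyperedges through it, and
`sl τ g` another vertex of `g` -/
structure TestF (E X T : Type) where
  base : T → X
  G : T → Finset E
  sl : T → E → X

/-- the conditions on a family of test sets -/
structure TestOK {T : Type} [Fintype T] (el : E → Finset X) (W : Finset E) (Y : Finset X) (K : ℕ)
    (t : TestF E X T) : Prop where
  sub : ∀ τ, t.G τ ⊆ W
  base_mem : ∀ τ, ∀ g ∈ t.G τ, t.base τ ∈ el g
  sl_mem : ∀ τ, ∀ g ∈ t.G τ, t.sl τ g ∈ el g
  sl_ne : ∀ τ, ∀ g ∈ t.G τ, t.sl τ g ≠ t.base τ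
  out : ∀ τ, t.base τ ∉ Y
  few : ∀ x, (univ.filter (fun τ => t.base τ = x)).card ≤ K

/-- the number of members of the test set `τ` in `Y` -/
def unc {T : Type} (t : TestF E X T) (Y : Finset X) (τ : T) : ℕ :=
  ((t.G τ).filter (fun g => t.sl τ g ∈ Y)).card

/-- the bits: the hyperedges of `F` are activated with probability `π` -/
noncomputable def BW (F : Finset E) (π : ℝ) : E → Bool → ℝ :=
  fun e b => if e ∈ F then (if b = true then π else 1 - π) else (if b = true then 0 else 1)

/-- `f` is accepted: it is activated, and no hyperedge of `F` which meets it is activated -/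
def Acc (el : E → Finset X) (F : Finset E) (ω : E → Bool) (f : E) : Prop :=
  ω f = true ∧ ∀ g ∈ F, Adj el f g → ω g = false

open Classical in
/-- the accepted hyperedges -/
noncomputable def Mof (el : E → Finset X) (F : Finset E) (ω : E → Bool) : Finset E :=
  F.filter (fun f => Acc el F ω f)

/-- some hyperedge `f ≠ e` through `y` is activated and no hyperedge `≠ e` which meets `f` is
activated -/
def Hit (el : E → Finset X) (F : Finset E) (y : X) (e : E) (ω : E → Bool) : Prop :=
  ∃ f ∈ F, f ≠ e ∧ y ∈ el f ∧ ω f = true ∧ ∀ g ∈ F, g ≠ e → Adj el f g → ω g = false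

open Classical in
/-- the indicator of the survival of `e`, seen from `x ∈ el e` -/
noncomputable def Ie (el : E → Finset X) (F : Finset E) (x : X) (e : E) (ω : E → Bool) : ℝ :=
  if ω e = true then 1 else if ∃ y ∈ (el e).erase x, Hit el F y e ω then 0 else 1

/-- the constant `exp (-3/4) / 4` -/
noncomputable def qq0 : ℝ := Real.exp (-(3 / 4)) / 4

end Hyp

end Pool.Agent.Lib.CD
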