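import Pool.Agent.Lib.MP_dcb6ed_co_CD.Defs
import Pool.Agent.Lib.MP_6d56f7_co_FR.Low

/-!
# Project CD: the concrete hypergraph

Points are the `2 n` vertices and the `2 n - 1` colours.  A triple `g : J n` (colour, edge) has
three points (two vertices and a colour), an element `a : El n` (an edge, or a pair
(vertex, colour)) has two points, and `g` contains `a` (`g ∈ st n a`) iff the points of `a` are
points of `g`.  `Z` is a set of special points (the exceptional vertices and colours).  `wE Z a` is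
the number of special points of `a`; the elements with `wE Z a = 2` need not be covered.

`W0 ⊆ W1` are two sets of triples (the small and the large list system); `d = u ^ 200`.
-/

set_option autoImplicit false

namespace Pool.Agent.Lib.CD

open Finset
open Pool.Agent.Lib.FR (J El Edge st Cf)

open Classical in
/-- the number of `g` with the property `P` -/
noncomputable def cnt {E : Type} [Fintype E] (P : E → Prop) : ℕ := (univ.filter P).card

/-- points: vertices and colours -/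
abbrev Pt (n : ℕ) : Type := Fin (2 * n) ⊕ Fin (2 * n - 1)

/-- the point is a point of the triple -/
def onJ (n : ℕ) (g : J n) : Pt n → Prop
  | .inl v => v ∈ g.2.1
  | .inr c => g.1 = c

/-- the point is a point of the element -/
def onE (n : ℕ) : El n → Pt n → Prop
  | .inl e, .inl v => v ∈ e.1
  | .inl _, .inr _ => False
  | .inr p, .inl v => p.1 = v
  | .inr p, .inr c => p.2 = c

open Classical in
/-- the points of a triple -/
noncomputable def ptJ (n : ℕ) (g : J n) : Finset (Pt n) := univ.filter (onJ n g)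

open Classical in
/-- the points of an element -/
noncomputable def ptE (n : ℕ) (a : El n) : Finset (Pt n) := univ.filter (onE n a)

open Classical in
/-- the elements of a triple -/
noncomputable def els (n : ℕ) (g : J n) : Finset (El n) := univ.filter (fun a => g ∈ st n a)

/-- the number of special points of an element -/
noncomputable def wE (n : ℕ) (Z : Finset (Pt n)) (a : El n) : ℕ := (ptE n a ∩ Z).card

/-- the number of special points of a triple -/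
noncomputable def wJ (n : ℕ) (Z : Finset (Pt n)) (g : J n) : ℕ := (ptJ n g ∩ Z).card

/-- the triples through `a` whose third point is not special (`i = 0`) or special (`i = 1`) -/
noncomputable def stz (n : ℕ) (Z : Finset (Pt n)) (a : El n) (i : ℕ) : Finset (J n) :=
  (st n a).filter (fun g => wJ n Z g = wE n Z a + i)

/-- one of the typed degrees of `a` is out of range -/
def BadT (n : ℕ) (u α : ℝ) (Z : Finset (Pt n)) (W0 W1 : Finset (J n)) (a : El n) : Prop :=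
  ((W0 ∩ stz n Z a 0).card : ℝ) < (1 - (u ^ 36)⁻¹) * ((1 - α) * u ^ 200) ∨
  (1 + (u ^ 36)⁻¹) * ((1 - α) * u ^ 200) < ((W1 ∩ stz n Z a 0).card : ℝ) ∨
  ((W0 ∩ stz n Z a 1).card : ℝ) < (1 - (u ^ 36)⁻¹) * (α * u ^ 200) ∨
  (1 + (u ^ 36)⁻¹) * (α * u ^ 200) < ((W1 ∩ stz n Z a 1).card : ℝ)

open Classical in
/-- the triples of `W` of the form `{P, x, y}` with `x ∈ X`, `y ∈ Y` -/
noncomputable def lks (n : ℕ) (W : Finset (J n)) (P : Pt n) (X Y : Finset (Pt n)) : Finset (J n) :=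
  W.filter (fun g => ∃ x ∈ X, ∃ y ∈ Y, x ≠ y ∧ x ≠ P ∧ y ≠ P ∧ ptJ n g = {P, x, y})

/-- all `{P, x, t}` with `x ∈ X`, `t ∈ T` are triples -/
def Val (n : ℕ) (P : Pt n) (X T : Finset (Pt n)) : Prop :=
  ∀ x ∈ X, ∀ t ∈ T, ∃ g : J n, ptJ n g = {P, x, t}

/-- the good event -/
structure Gd (n : ℕ) (u α : ℝ) (Z : Finset (Pt n)) (W0 W1 : Finset (J n)) : Prop where
  sub : W0 ⊆ W1
  maxd : ∀ a, ((W1 ∩ st n a).card : ℝ) ≤ 4 * u ^ 200
  low : ∀ a a', a ≠ a' → ((W0 ∩ st n a).card : ℝ) < u ^ 200 / 400 →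
    ((W0 ∩ st n a').card : ℝ) < u ^ 200 / 400 →
    ∀ g ∈ W1 ∩ st n a, ∀ g' ∈ W1 ∩ st n a', ¬ Cf n g g'
  nd : ∀ S ⊆ W1, S.card ≤ 15 → S.card ≤ (S.biUnion (ptJ n)).card
  few : ∀ a, (cnt (fun g : J n => g ∈ W1 ∧ g ∈ st n a ∧
    ∃ a' ∈ els n g, a' ≠ a ∧ BadT n u α Z W0 W1 a') : ℝ) ≤ u ^ 80
  sp1 : ∀ (P : Pt n) (X Y : Finset (Pt n)), (X.card : ℝ) ≤ n / (8 * u ^ 199) →
    (Y.card : ℝ) ≤ n / (8 * u ^ 199) →
    ((lks n W1 P X Y).card : ℝ) ≤ 2 * u * (X.card + Y.card)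
  sp2 : ∀ (P : Pt n) (X Y : Finset (Pt n)), (X.card : ℝ) ≤ n / (512 * u ^ 4) →
    (Y.card : ℝ) ≤ n / (512 * u ^ 4) →
    ((lks n W1 P X Y).card : ℝ) ≤ u ^ 196 / 32 * (X.card + Y.card)
  large : ∀ (P : Pt n) (X T : Finset (Pt n)), Val n P X T → Disjoint X T →
    n / (40 * u ^ 199) ≤ (X.card : ℝ) → n / (4096 * u ^ 4) ≤ (T.card : ℝ) →
    u ^ 200 / (4 * n) * (X.card * T.card) ≤ ((lks n W0 P X T).card : ℝ)

/-- the probability of the coin of a triple without special points -/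
noncomputable def tau (u α : ℝ) : ℝ :=
  (1 - 2 * (u ^ 3)⁻¹) * (1 - α * (1 - 2 * (u ^ 3)⁻¹) / (1 - α))

/-- the properties of the labels: class `cl`, mark `pre` of the elements, coin `co` of the
triples -/
structure LabOK (n : ℕ) (u α : ℝ) (Z : Finset (Pt n)) (W1 H : Finset (J n))
    (cl : El n → Fin 3) (pre : El n → Bool) (co : J n → Bool) : Prop where
  l0 : ∀ x, (cnt (fun g : J n => g ∈ W1 ∧ g ∈ st n x ∧
    ∃ y ∈ els n g, y ≠ x ∧ pre y = true) : ℝ) ≤ 9 * u ^ 152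
  l5 : ∀ x, u ^ 200 / 400 ≤ ((H ∩ st n x).card : ℝ) → u ^ 104 / 800 ≤
    (cnt (fun g : J n => g ∈ H ∧ g ∈ st n x ∧ ∀ y ∈ els n g, y ≠ x → pre y = true) : ℝ)
  l1 : ∀ x, wE n Z x = 0 → |(cnt (fun g : J n => g ∈ H ∧ g ∈ stz n Z x 0 ∧ co g = true) : ℝ) -
    tau u α * ((H ∩ stz n Z x 0).card : ℝ)| ≤ u ^ 102
  l1' : ∀ x, wE n Z x = 0 → |(cnt (fun g : J n => g ∈ H ∧ g ∈ stz n Z x 1 ∧
    ∀ y ∈ els n g, y ≠ x → cl y = 0) : ℝ) -
    (1 - 2 * (u ^ 3)⁻¹) ^ 2 * ((H ∩ stz n Z x 1).card : ℝ)| ≤ u ^ 102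
  l2 : ∀ x, wE n Z x = 0 → (u ^ 6)⁻¹ * ((H ∩ stz n Z x 1).card : ℝ) - u ^ 102 ≤
    (cnt (fun g : J n => g ∈ H ∧ g ∈ stz n Z x 1 ∧ ∀ y ∈ els n g, y ≠ x → cl y = 1) : ℝ)
  l3 : ∀ x, wE n Z x = 1 → |(cnt (fun g : J n => g ∈ H ∧ g ∈ stz n Z x 0 ∧
    ∀ y ∈ els n g, y ≠ x → wE n Z y = 1 → cl y = 0) : ℝ) -
    (1 - 2 * (u ^ 3)⁻¹) * ((H ∩ stz n Z x 0).card : ℝ)| ≤ u ^ 102
  l4 : ∀ x, wE n Z x = 1 → (u ^ 3)⁻¹ * ((H ∩ stz n Z x 1).card : ℝ) - u ^ 102 ≤
    (cnt (fun g : J n => g ∈ H ∧ g ∈ stz n Z x 1 ∧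
      ∀ y ∈ els n g, y ≠ x → wE n Z y = 1 → cl y = 2) : ℝ)
  l6 : ∀ x, ∀ s ∈ ptE n x, (cnt (fun g : J n => g ∈ H ∧ g ∈ st n x ∧
    ∀ y ∈ els n g, y ≠ x → s ∉ ptE n y → cl y = 1) : ℝ) ≤ 5 * u ^ 197
  l7 : ∀ x, wE n Z x = 2 → (cnt (fun g : J n => g ∈ H ∧ g ∈ stz n Z x 0 ∧
    ∀ y ∈ els n g, y ≠ x → cl y ≠ 0) : ℝ) ≤ 17 * u ^ 194

/-- the properties of the matching `M0` which covers all bad elements -/
structure M0OK (n : ℕ) (u α : ℝ) (Z : Finset (Pt n)) (W0 W1 H M0 : Finset (J n)) : Prop where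
  sub : M0 ⊆ H
  mat : IsM (els n) M0
  bad : ∀ a, BadT n u α Z W0 W1 a → a ∈ cov (els n) M0
  loss : ∀ x, x ∉ cov (els n) M0 → (cnt (fun g : J n => g ∈ W1 ∧ g ∈ st n x ∧
    ∃ y ∈ els n g, y ≠ x ∧ y ∈ cov (els n) M0) : ℝ) ≤ 10 * u ^ 152

open Classical in
/-- the vertices of the nibble hypergraph: the uncovered elements with `wE = 0`, and those with
`wE = 1` and class `0` -/
noncomputable def Y0 (n : ℕ) (Z : Finset (Pt n)) (M0 : Finset (J n)) (cl : El n → Fin 3) :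
    Finset (El n) :=
  univ.filter (fun a => a ∉ cov (els n) M0 ∧
    (wE n Z a = 0 ∨ (wE n Z a = 1 ∧ cl a = 0)))

open Classical in
/-- the hyperedges of the nibble hypergraph -/
noncomputable def F0 (n : ℕ) (Z : Finset (Pt n)) (M0 H : Finset (J n)) (cl : El n → Fin 3)
    (co : J n → Bool) : Finset (J n) :=
  H.filter (fun g => els n g ⊆ Y0 n Z M0 cl ∧ (wJ n Z g = 0 → co g = true))

/-- the properties of the matching `M1` found by the nibble -/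
structure M1OK (n : ℕ) (u : ℝ) (Z : Finset (Pt n)) (H M0 M1 : Finset (J n))
    (cl : El n → Fin 3) (co : J n → Bool) : Prop where
  sub : M1 ⊆ F0 n Z M0 H cl co
  mat : IsM (els n) M1
  tb : ∀ a, a ∉ Y0 n Z M0 cl → ∀ s ∈ ptE n a, (cnt (fun g : J n => g ∈ H ∧ g ∈ st n a ∧
    ∃ y ∈ els n g, y ≠ a ∧ s ∈ ptE n y ∧ y ∈ Y0 n Z M0 cl ∧ y ∉ cov (els n) M1) : ℝ) ≤
    9 * u ^ 193
  ta : ∀ a, a ∉ Y0 n Z M0 cl → ∀ s ∈ ptE n a, (cnt (fun g : J n => g ∈ H ∧ g ∈ st n a ∧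
      (∀ y ∈ els n g, y ≠ a → s ∉ ptE n y → cl y = 1) ∧
      ∃ y ∈ els n g, y ≠ a ∧ s ∈ ptE n y ∧ y ∈ Y0 n Z M0 cl ∧ y ∉ cov (els n) M1) : ℝ) ≤
    11 * u ^ 190

open Classical in
/-- the triples with two special points none of whose elements is covered by `M` -/
noncomputable def Gf (n : ℕ) (Z : Finset (Pt n)) (H M : Finset (J n)) : Finset (J n) :=
  H.filter (fun g => wJ n Z g = 2 ∧ ∀ y ∈ els n g, y ∉ cov (els n) M)

/-- the properties of the matching before the last step -/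
structure Stg (n : ℕ) (u : ℝ) (Z : Finset (Pt n)) (W1 H M : Finset (J n)) : Prop where
  sub : M ⊆ H
  mat : IsM (els n) M
  zero : ∀ a, wE n Z a = 0 → a ∈ cov (els n) M
  deg : ∀ x, wE n Z x = 1 → x ∉ cov (els n) M →
    u ^ 196 / 4 ≤ ((Gf n Z H M ∩ st n x).card : ℝ)
  res : ∀ r, wE n Z r = 2 → ((Gf n Z H M ∩ st n r).card : ℝ) ≤ 18 * u ^ 194
  loss : ∀ x, wE n Z x = 1 → x ∉ cov (els n) M → (cnt (fun g : J n => g ∈ W1 ∧ g ∈ st n x ∧
    ∃ r ∈ els n g, wE n Z r = 2 ∧ r ∈ cov (els n) M) : ℝ) ≤ 10 * u ^ 152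

open Classical in
/-- the special points `z` such that the element `{P, z}` is not covered by `M` -/
noncomputable def UP (n : ℕ) (Z : Finset (Pt n)) (M : Finset (J n)) (P : Pt n) : Finset (Pt n) :=
  Z.filter (fun z => ∃ a : El n, ptE n a = {P, z} ∧ a ∉ cov (els n) M)

/-- the properties of the picked triples -/
structure PkOK (n : ℕ) (u : ℝ) (Z : Finset (Pt n)) (H M Pk : Finset (J n)) : Prop where
  sub : Pk ⊆ Gf n Z H M
  inj : ∀ g ∈ Pk, ∀ g' ∈ Pk, ∀ r ∈ els n g, r ∈ els n g' → wE n Z r = 2 → g = g'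
  deg : ∀ x, wE n Z x = 1 → x ∉ cov (els n) M → u ^ 2 / 144 ≤ ((Pk ∩ st n x).card : ℝ)
  glob : ∀ P, P ∉ Z → ∀ X R T : Finset (Pt n), X ⊆ UP n Z M P → T ⊆ UP n Z M P →
    Disjoint X T → Val n P X T → n / (40 * u ^ 199) ≤ (X.card : ℝ) →
    n / (4096 * u ^ 4) ≤ (T.card : ℝ) → R.card ≤ 4 * X.card →
    (T = UP n Z M P \ (X ∪ R) ∨
      T = (UP n Z M P).filter (fun z => z.isLeft = true) \ (X ∪ R) ∨
      T = (UP n Z M P).filter (fun z => z.isRight = true) \ (X ∪ R)) →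
    (lks n Pk P X T).Nonempty

end Pool.Agent.Lib.CD
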