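import Pool.Agent.Lib.MP_dcb6ed_co_CD.PtsW
import Pool.Agent.Lib.MP_6d56f7_co_FR.Cov

/-!
# Project CD: the random part

`s : J n → Fin 3` is a random state vector with weights `qq pm pp`: state `2` (small system),
state `≠ 0` (large system).  `d = u ^ 200 = 2 log n`.
-/

set_option autoImplicit false

namespace Pool.Agent.Lib.CD

open Finset
open Pool.Agent.Lib.FR (J El Edge st Cf qq Pr)

/-- the small system -/
def W0s (n : ℕ) (s : J n → Fin 3) : Finset (J n) := univ.filter (fun g => s g = 2)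

/-- the large system -/
def W1s (n : ℕ) (s : J n → Fin 3) : Finset (J n) := univ.filter (fun g => s g ≠ 0)

/-- the parameters -/
structure ParE (n : ℕ) (u pm pp : ℝ) : Prop where
  n1 : 1 ≤ n
  hn : u ^ 200 = 2 * Real.log n
  pm : (2 * n - 1 : ℝ) * pm = (1 - (u ^ 40)⁻¹) * u ^ 200
  pp : (2 * n - 1 : ℝ) * pp = (1 + (u ^ 40)⁻¹) * u ^ 200

/-- the set of special points has `2 n α` vertices and `2 n α` colours -/
structure ZK (n : ℕ) (α : ℝ) (Z : Finset (Pt n)) : Prop where
  l : ((Z.filter (fun z => z.isLeft = true)).card : ℝ) = 2 * n * α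
  r : ((Z.filter (fun z => z.isRight = true)).card : ℝ) = 2 * n * α

/-- the good states -/
structure GoodE (n : ℕ) (u α : ℝ) (Z : Finset (Pt n)) (s : J n → Fin 3) : Prop where
  gd : Gd n u α Z (W0s n s) (W1s n s)
  high : ¬ ∃ a : El n, ∀ j ∈ st n a, s j = 0
  notc : ¬ ∀ e, ∃ c, s (c, e) = 2

end Pool.Agent.Lib.CD
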