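import Pool.Agent.Lib.MP_dcb6ed_co_CD.DefsE

/-!
# Elementary facts for the random part

`par_facts`: `n = exp (u^200 / 2)`, so every power of `u` (even `exp (u^100)`) is at most `n` for
large `u`; `pm, pp` are about `u^200 / (2 n)`; `2 n / (2 n - 1) ≤ 1.001`.
`pr_all_ne`: by `FR.low_tail` with `Y = ∅`, `lam = 0`, `k = 0` (or `FR.Ex_gen`).
`pr_many`: if at least `m` coordinates of `Y` are not in state `0` there is a subset of `Y` with
exactly
`m` elements all of which are not in state `0` (`FR.Pr_exists`, `Finset.powersetCard`).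
`choose_le`: `C(N, m) ≤ N^m / m!` and `m^m / m! ≤ exp m` (`Real.pow_div_factorial_le_exp`), so
`C(N, m) m^m ≤ (e N)^m`.
-/

set_option autoImplicit false

namespace Pool.Agent.Lib.CD

open Finset Filter
open Pool.Agent.Lib.FR (J El Edge st Cf qq Pr)

theorem par_facts : ∀ᶠ u : ℝ in atTop, ∀ (n : ℕ) (pm pp : ℝ), ParE n u pm pp →
    (n : ℝ) = Real.exp (u ^ 200 / 2) ∧ Real.exp (u ^ 100) ≤ n ∧ u ^ 10000 ≤ n ∧ 0 ≤ pm ∧
      pm ≤ pp ∧ pp ≤ 1 / 2 ∧ 0.99 * u ^ 200 ≤ 2 * n * pm ∧ 2 * n * pp ≤ 1.01 * u ^ 200 := by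
  have h1 : ∀ᶠ x : ℝ in atTop, x ^ 100 ≤ Real.exp x := by
    have h2 := (Real.tendsto_exp_div_pow_atTop 100).eventually_ge_atTop 1
    filter_upwards [h2, eventually_gt_atTop 0] with x hx hx0
    rwa [one_le_div (pow_pos hx0 100)] at hx
  have h2 : ∀ᶠ u : ℝ in atTop, (u ^ 100) ^ 100 ≤ Real.exp (u ^ 100) :=
    (tendsto_pow_atTop (by norm_num : (100 : ℕ) ≠ 0)).eventually h1
  filter_upwards [h2, eventually_ge_atTop 2] with u hexp hu n pm pp hP
  have hu0 : 0 < u := by linarith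
  have hn1 : (1 : ℝ) ≤ n := by exact_mod_cast hP.n1
  have hn0 : (0 : ℝ) < n := by linarith
  have e1 : (n : ℝ) = Real.exp (u ^ 200 / 2) := by
    rw [hP.hn, mul_div_cancel_left₀ _ (two_ne_zero), Real.exp_log hn0]
  have e2 : Real.exp (u ^ 100) ≤ n := by
    rw [e1]
    refine Real.exp_le_exp.2 ?_
    have h3 : (2 : ℝ) ≤ u ^ 100 := by
      calc (2 : ℝ) ≤ 2 ^ 100 := by norm_num
        _ ≤ u ^ 100 := pow_le_pow_left₀ (by norm_num) hu 100
    have h4 : u ^ 200 = u ^ 100 * u ^ 100 := by rw [← pow_add]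
    rw [h4]
    nlinarith
  have e3 : u ^ 10000 ≤ n := by
    refine le_trans ?_ e2
    rw [← pow_mul] at hexp
    exact hexp
  have h200 : (100 : ℝ) ≤ u ^ 200 := by
    calc (100 : ℝ) ≤ 2 ^ 200 := by norm_num
      _ ≤ u ^ 200 := pow_le_pow_left₀ (by norm_num) hu 200
  have h40 : (u ^ 40)⁻¹ ≤ 0.001 := by
    have h3 : (1000 : ℝ) ≤ u ^ 40 := by
      calc (1000 : ℝ) ≤ 2 ^ 40 := by norm_num
        _ ≤ u ^ 40 := pow_le_pow_left₀ (by norm_num) hu 40
    calc (u ^ 40)⁻¹ ≤ (1000 : ℝ)⁻¹ := inv_anti₀ (by norm_num) h3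
      _ ≤ 0.001 := by norm_num
  have h40' : 0 < (u ^ 40)⁻¹ := by positivity
  have hpm := hP.pm
  have hpp := hP.pp
  obtain ⟨d, hd⟩ : ∃ d, d = u ^ 200 := ⟨_, rfl⟩
  obtain ⟨v, hv⟩ : ∃ v, v = (u ^ 40)⁻¹ := ⟨_, rfl⟩
  rw [← hd, ← hv] at hpm hpp
  rw [← hd] at h200
  rw [← hv] at h40 h40'
  have hbig : 4 * d ≤ n := by
    refine le_trans ?_ e3
    have h3 : u ^ 10000 = u ^ 9800 * u ^ 200 := by rw [← pow_add]
    rw [h3, hd]
    refine mul_le_mul_of_nonneg_right ?_ (by positivity)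
    calc (4 : ℝ) = 2 ^ 2 := by norm_num
      _ ≤ u ^ 2 := pow_le_pow_left₀ (by norm_num) hu 2
      _ ≤ u ^ 9800 := pow_le_pow_right₀ (by linarith) (by norm_num)
  have hN : (0 : ℝ) < 2 * n - 1 := by linarith
  have hpm0 : 0 ≤ pm := by
    by_contra hc
    push Not at hc
    have h3 := mul_neg_of_pos_of_neg hN hc
    rw [hpm] at h3
    have h4 : 0 ≤ (1 - v) * d := mul_nonneg (by linarith) (by linarith)
    linarith
  have hmp : pm ≤ pp := by
    refine le_of_mul_le_mul_left ?_ hN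
    rw [hpm, hpp]
    exact mul_le_mul_of_nonneg_right (by linarith) (by linarith)
  have hpp2 : pp ≤ 1 / 2 := by
    refine le_of_mul_le_mul_left ?_ hN
    rw [hpp]
    have h3 : (1 + v) * d ≤ 1.001 * d := mul_le_mul_of_nonneg_right (by linarith) (by linarith)
    linarith
  rw [← hd] at e1 ⊢
  refine ⟨e1, e2, e3, hpm0, hmp, hpp2, ?_, ?_⟩
  · have h3 : 0.99 * d ≤ (1 - v) * d := mul_le_mul_of_nonneg_right (by linarith) (by linarith)
    linarith
  · have h3 : (1 + v) * d ≤ 1.001 * d := mul_le_mul_of_nonneg_right (by linarith) (by linarith)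
    linarith

section

variable {I : Type} [Fintype I] [DecidableEq I] {pm pp : ℝ}

theorem pr_all_ne (h0 : 0 ≤ pm) (h1 : pm ≤ pp) (h2 : pp ≤ 1) (X : Finset I) :
    Pr (qq pm pp) (fun s : I → Fin 3 => ∀ j ∈ X, s j ≠ 0) ≤ pp ^ X.card := by
  have h := FR.low_tail h0 h1 h2 X ∅ (disjoint_empty_right X) (le_refl (0 : ℝ)) 0
  have h3 : Pr (qq pm pp) (fun s : I → Fin 3 => ∀ j ∈ X, s j ≠ 0) ≤
      Pr (qq pm pp) (fun s : I → Fin 3 => (∀ i ∈ X, s i ≠ 0) ∧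
        (((∅ : Finset I).filter fun i => s i = 2).card : ℝ) ≤ 0) :=
    FR.Pr_mono (FR.qq_nonneg h0 h1 h2) fun s hs => ⟨hs, by simp⟩
  refine (h3.trans h).trans (le_of_eq ?_)
  simp

theorem pr_many (h0 : 0 ≤ pm) (h1 : pm ≤ pp) (h2 : pp ≤ 1) (Y : Finset I) (m : ℕ) :
    Pr (qq pm pp) (fun s : I → Fin 3 => m ≤ (Y.filter (fun j => s j ≠ 0)).card) ≤
      (Y.card.choose m : ℝ) * pp ^ m := by
  have h3 : Pr (qq pm pp) (fun s : I → Fin 3 => m ≤ (Y.filter (fun j => s j ≠ 0)).card) ≤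
      Pr (qq pm pp) (fun s : I → Fin 3 => ∃ T ∈ Y.powersetCard m, ∀ j ∈ T, s j ≠ 0) := by
    refine FR.Pr_mono (FR.qq_nonneg h0 h1 h2) fun s hs => ?_
    obtain ⟨T, hT, hc⟩ := exists_subset_card_eq hs
    refine ⟨T, mem_powersetCard.2 ⟨hT.trans (filter_subset _ _), hc⟩, fun j hj => ?_⟩
    exact (mem_filter.1 (hT hj)).2
  refine h3.trans ((FR.Pr_exists (FR.qq_nonneg h0 h1 h2) _ _).trans ?_)
  refine (sum_le_sum (g := fun _ => pp ^ m) fun T hT => ?_).trans (le_of_eq ?_)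
  · have h4 := pr_all_ne h0 h1 h2 T
    rwa [(mem_powersetCard.1 hT).2] at h4
  · rw [sum_const, card_powersetCard, nsmul_eq_mul]

end

theorem choose_le (N m : ℕ) : (N.choose m : ℝ) * (m : ℝ) ^ m ≤ (Real.exp 1 * N) ^ m := by
  have h1 : (N.choose m : ℝ) ≤ (N : ℝ) ^ m / m.factorial := Nat.choose_le_pow_div m N
  have h2 := Real.pow_div_factorial_le_exp (m : ℝ) (Nat.cast_nonneg m) m
  have hf : (0 : ℝ) < m.factorial := by exact_mod_cast Nat.factorial_pos m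
  have h3 : Real.exp (m : ℝ) = Real.exp 1 ^ m := by
    rw [← Real.exp_nat_mul, mul_one]
  rw [mul_pow, ← h3]
  calc (N.choose m : ℝ) * (m : ℝ) ^ m ≤ (N : ℝ) ^ m / m.factorial * (m : ℝ) ^ m :=
        mul_le_mul_of_nonneg_right h1 (by positivity)
    _ = (m : ℝ) ^ m / m.factorial * (N : ℝ) ^ m := by ring
    _ ≤ Real.exp m * (N : ℝ) ^ m := mul_le_mul_of_nonneg_right h2 (by positivity)

theorem card_Pt (n : ℕ) : (Fintype.card (Pt n) : ℝ) ≤ 4 * n := by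
  have h1 : Fintype.card (Pt n) ≤ 4 * n := by
    simp only [Pt, Fintype.card_sum, Fintype.card_fin]
    omega
  exact_mod_cast h1

end Pool.Agent.Lib.CD
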