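import Pool.Agent.Lib.MP_dcb6ed_co_CD.EBas

/-!
# Maximal degree, low elements, covering

`n = exp (u^200 / 2)`, `d = u^200`.

`maxd_prob`: for every element `a` (at most `6 n²`, `FR.El_card`) `FR.high_tail` with `X = ∅`,
`Y = st a` (`FR.st_card`), `lam = 1`, `k = 4 d`:
`exp (- 4 d + (e - 1) (1 + u^(-40)) d) ≤ exp (- 2 d)`; the total is `6 n² exp (-2 d) = 6 exp (- d)`.
`low_prob'`: `FR.low_prob` with `lam = 4`, `D = d / 400`: `(1 - exp (-4)) ≥ 0.98`,
`pm (4 n - 5) = 2 (1 - u^(-40)) d - 3 pm ≥ 1.99 d`, `12 n² pp² + pp ≤ 13 d²`, `n³ = exp (1.5 d)`: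
`36 exp (1.5 d) 13 d² exp (0.02 d - 1.95 d) ≤ 500 d² exp (- 0.4 d)`.
`high_prob`: `FR.cov_high`: `6 n² exp (- (1 + u^(-40)) d) = 6 exp (- u^160)`.
`notc_prob`: `FR.cov_low`: `exp (- n (2 n - 1) (1 - pm)^(2 n - 1))`, with
`(1 - pm)^(2 n - 1) ≥ exp (- (pm + pm²) (2 n - 1)) ≥ exp (- (1 - u^(-40)) d - 1)`
(`1 - x ≥ exp (- x - x²)` for `0 ≤ x ≤ 1/2`, and `pm² (2 n - 1) ≤ 1`), `n (2 n - 1) ≥ n² = exp d`,
so the bound is `exp (- exp (u^160 - 1))`.
All are at most `1 / u` for large `u`.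
-/

set_option autoImplicit false

namespace Pool.Agent.Lib.CD

open Finset Filter
open Pool.Agent.Lib.FR (J El Edge st Cf qq Pr)

private theorem EMisc_ev : ∀ᶠ u : ℝ in atTop, 2000 ≤ u ∧
    500 * (u ^ 401 * Real.exp (-u)) ≤ 1 := by
  have h := (Real.tendsto_pow_mul_exp_neg_atTop_nhds_zero 401).eventually_lt_const
    (show (0 : ℝ) < 1 / 500 by norm_num)
  filter_upwards [eventually_ge_atTop (2000 : ℝ), h] with u h1 h2
  refine ⟨h1, ?_⟩
  linarith

private theorem EMisc_six {u : ℝ} (h1 : 2000 ≤ u) (h2 : 500 * (u ^ 401 * Real.exp (-u)) ≤ 1)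
    {t : ℝ} (ht : u ≤ t) : 6 * Real.exp (-t) ≤ 1 / u := by
  have h3 : Real.exp (-t) ≤ Real.exp (-u) := Real.exp_le_exp.2 (by linarith)
  have h4 : 6 * u * Real.exp (-u) ≤ 500 * (u ^ 401 * Real.exp (-u)) := by
    have h5 : u ≤ u ^ 401 := le_self_pow₀ (by linarith) (by norm_num)
    have h6 := Real.exp_pos (-u)
    have h7 : 6 * u ≤ 500 * u ^ 401 := by linarith
    calc 6 * u * Real.exp (-u) ≤ 500 * u ^ 401 * Real.exp (-u) :=
          mul_le_mul_of_nonneg_right h7 h6.le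
      _ = 500 * (u ^ 401 * Real.exp (-u)) := by ring
  rw [le_div_iff₀ (by linarith)]
  have h8 : 6 * Real.exp (-t) * u ≤ 6 * Real.exp (-u) * u :=
    mul_le_mul_of_nonneg_right (by linarith) (by linarith)
  linarith

private theorem EMisc_sq {n : ℕ} {u : ℝ} (hn : (n : ℝ) = Real.exp (u ^ 200 / 2)) :
    (n : ℝ) ^ 2 = Real.exp (u ^ 200) := by
  rw [hn, ← Real.exp_nat_mul]
  congr 1
  push_cast
  ring

private theorem EMisc_cub {n : ℕ} {u : ℝ} (hn : (n : ℝ) = Real.exp (u ^ 200 / 2)) :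
    (n : ℝ) ^ 3 = Real.exp (3 / 2 * u ^ 200) := by
  rw [hn, ← Real.exp_nat_mul]
  congr 1
  push_cast
  ring

private theorem EMisc_cast {n : ℕ} (hn : 1 ≤ n) : ((2 * n - 1 : ℕ) : ℝ) = 2 * n - 1 := by
  rw [Nat.cast_sub (by omega)]
  push_cast
  ring

theorem maxd_prob : ∀ᶠ u : ℝ in atTop, ∀ (n : ℕ) (pm pp : ℝ), ParE n u pm pp →
    Pr (qq pm pp) (fun s : J n → Fin 3 => ¬ ∀ a, ((W1s n s ∩ st n a).card : ℝ) ≤ 4 * u ^ 200) ≤
      1 / u := by
  filter_upwards [par_facts, EMisc_ev] with u hpf hu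
  obtain ⟨hu1, hu2⟩ := hu
  intro n pm pp hP
  obtain ⟨hn1, hn2, hn3, h0, h1, h2, h3, h4⟩ := hpf n pm pp hP
  have hpp1 : pp ≤ 1 := by linarith
  have hu0 : 0 < u := by linarith
  have hd : 0 < u ^ 200 := by positivity
  have h40 : (u ^ 40)⁻¹ ≤ 1 / 2000 := by
    rw [← one_div]
    exact one_div_le_one_div_of_le (by norm_num)
      (hu1.trans (le_self_pow₀ (by linarith) (by norm_num)))
  have hq := FR.qq_nonneg h0 h1 hpp1
  have hmono : Pr (qq pm pp) (fun s : J n → Fin 3 =>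
      ¬ ∀ a, ((W1s n s ∩ st n a).card : ℝ) ≤ 4 * u ^ 200) ≤
      Pr (qq pm pp) (fun s : J n → Fin 3 => ∃ a ∈ (univ : Finset (El n)),
        (∀ i ∈ (∅ : Finset (J n)), s i ≠ 0) ∧
          4 * u ^ 200 ≤ (((st n a).filter fun i => s i ≠ 0).card : ℝ)) := by
    refine FR.Pr_mono hq fun s hs => ?_
    push Not at hs
    obtain ⟨a, ha⟩ := hs
    refine ⟨a, mem_univ _, fun i hi => absurd hi (notMem_empty _), ?_⟩
    have h5 : W1s n s ∩ st n a = (st n a).filter fun i => s i ≠ 0 := by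
      ext g
      simp only [W1s, mem_inter, mem_filter, mem_univ, true_and]
      tauto
    rw [← h5]
    exact ha.le
  refine hmono.trans ((FR.Pr_exists hq _ _).trans ?_)
  have h6 : ∀ a : El n, Pr (qq pm pp) (fun s : J n → Fin 3 =>
      (∀ i ∈ (∅ : Finset (J n)), s i ≠ 0) ∧
          4 * u ^ 200 ≤ (((st n a).filter fun i => s i ≠ 0).card : ℝ)) ≤
      Real.exp (-(2 * u ^ 200)) := by
    intro a
    refine (FR.high_tail h0 h1 hpp1 ∅ (st n a) (disjoint_empty_left _) zero_le_one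
      (4 * u ^ 200)).trans ?_
    rw [card_empty, pow_zero, one_mul, FR.st_card, EMisc_cast hP.n1]
    refine Real.exp_le_exp.2 ?_
    have h7 := Real.exp_one_lt_d9
    have h8 : pp * (2 * n - 1) = (1 + (u ^ 40)⁻¹) * u ^ 200 := by
      rw [← hP.pp]
      ring
    have h9 : (Real.exp 1 - 1) * pp * (2 * n - 1) = (Real.exp 1 - 1) *
        ((1 + (u ^ 40)⁻¹) * u ^ 200) := by
      rw [← h8]
      ring
    rw [h9]
    have h10 : (1 + (u ^ 40)⁻¹) * u ^ 200 ≤ 1.01 * u ^ 200 :=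
      mul_le_mul_of_nonneg_right (by linarith) hd.le
    have h11 : 0 ≤ (1 + (u ^ 40)⁻¹) * u ^ 200 := by positivity
    have h12 : (Real.exp 1 - 1) * ((1 + (u ^ 40)⁻¹) * u ^ 200) ≤ 1.8 * (1.01 * u ^ 200) :=
      mul_le_mul (by linarith) h10 h11 (by norm_num)
    linarith
  refine (sum_le_sum fun a _ => h6 a).trans ?_
  rw [sum_const, card_univ, FR.El_card, nsmul_eq_mul]
  push_cast
  rw [EMisc_cast hP.n1]
  have h7 : (3 * (n * (2 * n - 1)) : ℝ) ≤ 6 * Real.exp (u ^ 200) := by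
    rw [← EMisc_sq hn1]
    have : (0 : ℝ) ≤ n := Nat.cast_nonneg n
    nlinarith
  have h8 : (3 * (n * (2 * n - 1)) : ℝ) * Real.exp (-(2 * u ^ 200)) ≤
      6 * Real.exp (-(u ^ 200)) := by
    refine (mul_le_mul_of_nonneg_right h7 (Real.exp_pos _).le).trans (le_of_eq ?_)
    rw [mul_assoc, ← Real.exp_add]
    congr 2
    ring
  exact h8.trans (EMisc_six hu1 hu2 (le_self_pow₀ (by linarith) (by norm_num)))

theorem low_prob' : ∀ᶠ u : ℝ in atTop, ∀ (n : ℕ) (pm pp : ℝ), ParE n u pm pp →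
    Pr (qq pm pp) (fun s : J n → Fin 3 => ¬ ∀ a a', a ≠ a' →
      ((W0s n s ∩ st n a).card : ℝ) < u ^ 200 / 400 →
      ((W0s n s ∩ st n a').card : ℝ) < u ^ 200 / 400 →
      ∀ g ∈ W1s n s ∩ st n a, ∀ g' ∈ W1s n s ∩ st n a', ¬ Cf n g g') ≤ 1 / u := by
  filter_upwards [par_facts, EMisc_ev] with u hpf hu
  obtain ⟨hu1, hu2⟩ := hu
  intro n pm pp hP
  obtain ⟨hn1, hn2, hn3, h0, h1, h2, h3, h4⟩ := hpf n pm pp hP
  have hpp1 : pp ≤ 1 := by linarith
  have hpp0 : 0 ≤ pp := h0.trans h1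
  have hu0 : 0 < u := by linarith
  have hd : 0 < u ^ 200 := by positivity
  have hdu : u ≤ u ^ 200 := le_self_pow₀ (by linarith) (by norm_num)
  have h40 : (u ^ 40)⁻¹ ≤ 1 / 2000 := by
    rw [← one_div]
    exact one_div_le_one_div_of_le (by norm_num)
      (hu1.trans (le_self_pow₀ (by linarith) (by norm_num)))
  have hq := FR.qq_nonneg h0 h1 hpp1
  have hmono : Pr (qq pm pp) (fun s : J n → Fin 3 => ¬ ∀ a a', a ≠ a' →
      ((W0s n s ∩ st n a).card : ℝ) < u ^ 200 / 400 →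
      ((W0s n s ∩ st n a').card : ℝ) < u ^ 200 / 400 →
      ∀ g ∈ W1s n s ∩ st n a, ∀ g' ∈ W1s n s ∩ st n a', ¬ Cf n g g') ≤
      Pr (qq pm pp) (fun s : J n → Fin 3 => ¬ FR.LowOK (u ^ 200 / 400) n s) := by
    refine FR.Pr_mono hq fun s hs hs' => hs ?_
    intro a a' haa h5 h6 g hg g' hg'
    have h7 : ∀ b : El n, W0s n s ∩ st n b = (st n b).filter fun i => s i = 2 := by
      intro b
      ext g
      simp only [W0s, mem_inter, mem_filter, mem_univ, true_and]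
      tauto
    rw [h7] at h5 h6
    rw [mem_inter] at hg hg'
    exact hs' a a' haa h5 h6 g hg.2 g' hg'.2 (mem_filter.1 hg.1).2 (mem_filter.1 hg'.1).2
  refine hmono.trans ((FR.low_prob hP.n1 h0 h1 hpp1 (show (0 : ℝ) ≤ 4 by norm_num) _).trans ?_)
  have hE : 2 * 4 * (u ^ 200 / 400) - (1 - Real.exp (-4)) * (pm * (4 * n - 5)) ≤
      -(1.93 * u ^ 200) := by
    have h5 : Real.exp (-4) ≤ 1 / 50 := by
      have h6 := Real.exp_one_gt_d9
      have h7 : Real.exp 4 = Real.exp 1 ^ 4 := by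
        rw [← Real.exp_nat_mul]
        norm_num
      have h8 : (50 : ℝ) ≤ Real.exp 4 := by
        rw [h7]
        have h9 : (2.7 : ℝ) ^ 4 ≤ Real.exp 1 ^ 4 :=
          pow_le_pow_left₀ (by norm_num) (by linarith) 4
        norm_num at h9 ⊢
        linarith
      rw [Real.exp_neg, ← one_div]
      exact one_div_le_one_div_of_le (by norm_num) h8
    have h6 : 1.99 * u ^ 200 ≤ pm * (4 * n - 5) := by
      have h7 : pm * (4 * n - 5) = 2 * ((1 - (u ^ 40)⁻¹) * u ^ 200) - 3 * pm := by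
        rw [← hP.pm]
        ring
      rw [h7]
      have h8 : (1 - 1 / 2000) * u ^ 200 ≤ (1 - (u ^ 40)⁻¹) * u ^ 200 :=
        mul_le_mul_of_nonneg_right (by linarith) hd.le
      linarith
    have h7 : 0.98 * (1.99 * u ^ 200) ≤ (1 - Real.exp (-4)) * (pm * (4 * n - 5)) :=
      mul_le_mul (by linarith) h6 (by positivity) (by linarith)
    linarith
  have hF : 12 * n ^ 2 * pp ^ 2 + pp ≤ 13 * u ^ 400 := by
    have h5 : (2 * n * pp) ^ 2 ≤ (1.01 * u ^ 200) ^ 2 :=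
      pow_le_pow_left₀ (by positivity) h4 2
    have h6 : (u ^ 200) ^ 2 = u ^ 400 := by rw [← pow_mul]
    have h7 : 1 ≤ u ^ 400 := one_le_pow₀ (by linarith)
    have h8 : (1.01 * u ^ 200) ^ 2 = 1.0201 * u ^ 400 := by
      rw [mul_pow, h6]
      norm_num
    rw [h8] at h5
    have h9 : 12 * (n : ℝ) ^ 2 * pp ^ 2 = 3 * (2 * n * pp) ^ 2 := by ring
    rw [h9]
    linarith
  have h5 : Real.exp (2 * 4 * (u ^ 200 / 400) - (1 - Real.exp (-4)) * (pm * (4 * n - 5))) ≤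
      Real.exp (-(1.93 * u ^ 200)) := Real.exp_le_exp.2 hE
  have h6 : (36 * (n : ℝ) ^ 3 * (12 * n ^ 2 * pp ^ 2 + pp)) *
      Real.exp (2 * 4 * (u ^ 200 / 400) - (1 - Real.exp (-4)) * (pm * (4 * n - 5))) ≤
      36 * Real.exp (3 / 2 * u ^ 200) * (13 * u ^ 400) * Real.exp (-(1.93 * u ^ 200)) := by
    rw [EMisc_cub hn1]
    refine mul_le_mul ?_ h5 (Real.exp_pos _).le (by positivity)
    exact mul_le_mul_of_nonneg_left hF (by positivity)
  refine h6.trans ?_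
  have h7 : 36 * Real.exp (3 / 2 * u ^ 200) * (13 * u ^ 400) * Real.exp (-(1.93 * u ^ 200)) =
      468 * u ^ 400 * Real.exp (-(0.43 * u ^ 200)) := by
    have h8 : Real.exp (-(0.43 * u ^ 200)) =
        Real.exp (3 / 2 * u ^ 200) * Real.exp (-(1.93 * u ^ 200)) := by
      rw [← Real.exp_add]
      congr 1
      ring
    rw [h8]
    ring
  rw [h7]
  have h8 : Real.exp (-(0.43 * u ^ 200)) ≤ Real.exp (-u) := by
    refine Real.exp_le_exp.2 ?_
    have h9 : u ^ 200 = u * u ^ 199 := by rw [← pow_succ']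
    have h10 : u ≤ u ^ 199 := le_self_pow₀ (by linarith) (by norm_num)
    have h11 : 3 ≤ u ^ 199 := by linarith
    rw [h9]
    nlinarith
  rw [le_div_iff₀ hu0]
  have h9 : 468 * u ^ 400 * Real.exp (-(0.43 * u ^ 200)) ≤ 500 * u ^ 400 * Real.exp (-u) :=
    mul_le_mul (mul_le_mul_of_nonneg_right (by norm_num) (by positivity)) h8 (Real.exp_pos _).le
      (by positivity)
  have h10 : 500 * u ^ 400 * Real.exp (-u) * u = 500 * (u ^ 401 * Real.exp (-u)) := by ring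
  have h11 := mul_le_mul_of_nonneg_right h9 hu0.le
  linarith

theorem high_prob : ∀ᶠ u : ℝ in atTop, ∀ (n : ℕ) (pm pp : ℝ), ParE n u pm pp →
    Pr (qq pm pp) (fun s : J n → Fin 3 => ∃ a : El n, ∀ j ∈ st n a, s j = 0) ≤ 1 / u := by
  filter_upwards [par_facts, EMisc_ev] with u hpf hu
  obtain ⟨hu1, hu2⟩ := hu
  intro n pm pp hP
  obtain ⟨hn1, hn2, hn3, h0, h1, h2, h3, h4⟩ := hpf n pm pp hP
  refine (FR.cov_high hP.n1 h0 h1 (by linarith)).trans ?_
  rw [hP.pp, EMisc_sq hn1]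
  have hu0 : 0 < u := by linarith
  have h5 : 6 * Real.exp (u ^ 200) * Real.exp (-((1 + (u ^ 40)⁻¹) * u ^ 200)) =
      6 * Real.exp (-(u ^ 160)) := by
    rw [mul_assoc, ← Real.exp_add]
    congr 2
    have h6 : u ^ 200 = u ^ 40 * u ^ 160 := by rw [← pow_add]
    rw [h6]
    field_simp
    ring
  rw [h5]
  exact EMisc_six hu1 hu2 (le_self_pow₀ (by linarith) (by norm_num))

private theorem EMisc_exp {x : ℝ} (h0 : 0 ≤ x) (h1 : x ≤ 1 / 2) :
    Real.exp (-(x + x ^ 2)) ≤ 1 - x := by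
  have h2 := Real.quadratic_le_exp_of_nonneg (show 0 ≤ x + x ^ 2 by positivity)
  rw [Real.exp_neg, inv_le_iff_one_le_mul₀ (Real.exp_pos _)]
  have h3 : (1 - x) * (1 + (x + x ^ 2) + (x + x ^ 2) ^ 2 / 2) ≤
      (1 - x) * Real.exp (x + x ^ 2) := mul_le_mul_of_nonneg_left h2 (by linarith)
  refine le_trans ?_ h3
  have h4 : (1 - x) * (1 + (x + x ^ 2) + (x + x ^ 2) ^ 2 / 2) =
      1 + x ^ 2 * (1 - x - x ^ 2 - x ^ 3) / 2 := by ring
  rw [h4]
  have h5 : x ^ 2 ≤ (1 / 2) ^ 2 := pow_le_pow_left₀ h0 h1 2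
  have h6 : x ^ 3 ≤ (1 / 2) ^ 3 := pow_le_pow_left₀ h0 h1 3
  have h7 : 0 ≤ 1 - x - x ^ 2 - x ^ 3 := by norm_num at h5 h6; linarith
  have h8 : 0 ≤ x ^ 2 * (1 - x - x ^ 2 - x ^ 3) / 2 := by positivity
  linarith

theorem notc_prob : ∀ᶠ u : ℝ in atTop, ∀ (n : ℕ) (pm pp : ℝ), ParE n u pm pp →
    Pr (qq pm pp) (fun s : J n → Fin 3 => ∀ e, ∃ c, s (c, e) = 2) ≤ 1 / u := by
  filter_upwards [par_facts, EMisc_ev] with u hpf hu
  obtain ⟨hu1, hu2⟩ := hu
  intro n pm pp hP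
  obtain ⟨hn1, hn2, hn3, h0, h1, h2, h3, h4⟩ := hpf n pm pp hP
  refine (FR.cov_low h0 h1 (by linarith)).trans ?_
  have hu0 : 0 < u := by linarith
  have hd : 0 < u ^ 200 := by positivity
  have hnn : (1 : ℝ) ≤ n := by exact_mod_cast hP.n1
  have hx : Real.exp (-((1 - (u ^ 40)⁻¹) * u ^ 200 + 1)) ≤ (1 - pm) ^ (2 * n - 1) := by
    have h5 := pow_le_pow_left₀ (Real.exp_pos _).le (EMisc_exp h0 (h1.trans h2)) (2 * n - 1)
    refine le_trans ?_ h5
    rw [← Real.exp_nat_mul]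
    refine Real.exp_le_exp.2 ?_
    rw [EMisc_cast hP.n1]
    have h6 : (2 * n - 1 : ℝ) * -(pm + pm ^ 2) = -((2 * n - 1) * pm) - pm * ((2 * n - 1) * pm) := by
      ring
    rw [h6, hP.pm]
    have h7 : pm * ((1 - (u ^ 40)⁻¹) * u ^ 200) ≤ 1 := by
      have h40 : 0 ≤ (u ^ 40)⁻¹ := by positivity
      have h8 : (1 - (u ^ 40)⁻¹) * u ^ 200 ≤ u ^ 200 := by nlinarith
      have h9 : pm * ((1 - (u ^ 40)⁻¹) * u ^ 200) ≤ pm * u ^ 200 :=
        mul_le_mul_of_nonneg_left h8 h0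
      have h10 : 2 * n * pm ≤ 1.01 * u ^ 200 := by
        have : 2 * n * pm ≤ 2 * n * pp := mul_le_mul_of_nonneg_left h1 (by positivity)
        linarith
      have h11 : n * (pm * u ^ 200) ≤ n * 1 := by
        have h12 : n * (pm * u ^ 200) = (2 * n * pm) * u ^ 200 / 2 := by ring
        have h13 : (2 * n * pm) * u ^ 200 ≤ (1.01 * u ^ 200) * u ^ 200 :=
          mul_le_mul_of_nonneg_right h10 hd.le
        have h14 : (1.01 * u ^ 200) * u ^ 200 = 1.01 * u ^ 400 := by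
          rw [mul_assoc, ← pow_add]
        have h15 : u ^ 400 ≤ u ^ 10000 := pow_le_pow_right₀ (by linarith) (by norm_num)
        have h16 : 0 < u ^ 400 := by positivity
        rw [h12]
        linarith
      have h12 := le_of_mul_le_mul_left h11 (by linarith)
      linarith
    linarith
  have hy : Real.exp (u ^ 160 - 1) ≤ ((n * (2 * n - 1) : ℕ) : ℝ) * (1 - pm) ^ (2 * n - 1) := by
    have h5 : Real.exp (u ^ 200) ≤ ((n * (2 * n - 1) : ℕ) : ℝ) := by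
      rw [← EMisc_sq hn1]
      push_cast
      rw [EMisc_cast hP.n1]
      nlinarith
    have h6 := mul_le_mul h5 hx (Real.exp_pos _).le (Nat.cast_nonneg _)
    refine le_trans (le_of_eq ?_) h6
    rw [← Real.exp_add]
    refine congrArg Real.exp ?_
    have h7 : u ^ 200 = u ^ 40 * u ^ 160 := by rw [← pow_add]
    rw [h7]
    field_simp
    ring
  have h5 : Real.exp (-(((n * (2 * n - 1) : ℕ) : ℝ) * (1 - pm) ^ (2 * n - 1))) ≤
      Real.exp (-(u ^ 160)) := by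
    refine Real.exp_le_exp.2 ?_
    have h6 := Real.add_one_le_exp (u ^ 160 - 1)
    linarith
  refine h5.trans ?_
  have h6 := EMisc_six hu1 hu2 (t := u ^ 160) (le_self_pow₀ (by linarith) (by norm_num))
  have h7 := Real.exp_pos (-(u ^ 160))
  linarith

end Pool.Agent.Lib.CD
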