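import Pool.Agent.Lib.MP_dcb6ed_co_CD.Pw

/-!
# Hoeffding's inequality (with the constant 4)

Let `0 ≤ F_j ≤ 1`, `j ∈ T`, depend on disjoint sets of coordinates, `|T| ≤ m`, `μ_j = E F_j`.
From `exp x ≤ x + exp (x^2)` (all real `x`) we get, for `|F - μ| ≤ 1` and every real `s`,
`E exp (s (F - μ)) ≤ E (s (F - μ)) + E exp (s^2 (F - μ)^2) ≤ exp (s^2)`.
By independence (`ew_prod`) `E exp (s ∑ (F_j - μ_j)) ≤ exp (m s^2)`, so by `markov`
`P (∑ (F_j - μ_j) ≥ t) ≤ exp (m s^2 - s t)`; take `s = t / (2 m)`.  The lower tail is the same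
with `s < 0` (or apply the upper tail to `1 - F_j`).
-/

set_option autoImplicit false

namespace Pool.Agent.Lib.CD

open Finset

variable {I S : Type} [Fintype I] [DecidableEq I] [Fintype S] [DecidableEq S]

theorem exp_le_add_exp_sq (x : ℝ) : Real.exp x ≤ x + Real.exp (x ^ 2) := by
  rcases le_total 1 x with hx | hx
  · have h1 : x ≤ x ^ 2 := by nlinarith
    have h2 := Real.exp_le_exp.2 h1
    linarith
  · rcases le_total x (-1) with hx' | hx'
    · have h1 := Real.add_one_le_exp (x ^ 2)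
      have h2 : Real.exp x ≤ 1 := Real.exp_le_one_iff.2 (by linarith)
      nlinarith
    · have h1 := Real.add_one_le_exp (x ^ 2)
      have h2 := Real.abs_exp_sub_one_sub_id_le (abs_le.2 ⟨hx', hx⟩)
      have h3 := (abs_le.1 h2).2
      linarith

/-- moment generating function of a sum of independent variables -/
theorem Hoeff_gen {κ : Type} [DecidableEq κ] {w : I → S → ℝ} (hw : IsW w) (T : Finset κ)
    (F : κ → (I → S) → ℝ) (V : κ → Finset I) (h0 : ∀ k ∈ T, ∀ ω, 0 ≤ F k ω)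
    (h1 : ∀ k ∈ T, ∀ ω, F k ω ≤ 1) (hd : ∀ k ∈ T, Dep (V k) (F k))
    (hV : ∀ k ∈ T, ∀ l ∈ T, k ≠ l → Disjoint (V k) (V l)) {m : ℝ}
    (hT : (T.card : ℝ) ≤ m) (s : ℝ) :
    EW w (fun ω => Real.exp (s * (∑ k ∈ T, F k ω - ∑ k ∈ T, EW w (F k)))) ≤
      Real.exp (m * s ^ 2) := by
  have e1 : (fun ω => Real.exp (s * (∑ k ∈ T, F k ω - ∑ k ∈ T, EW w (F k)))) =
      fun ω => ∏ k ∈ T, (fun ω => Real.exp (s * (F k ω - EW w (F k)))) ω := by
    funext ω
    rw [← Real.exp_sum, ← Finset.mul_sum, Finset.sum_sub_distrib]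
  rw [e1, ew_prod hw T (fun k ω => Real.exp (s * (F k ω - EW w (F k)))) V ?_ hV]
  · have e2 : ∀ k ∈ T, EW w (fun ω => Real.exp (s * (F k ω - EW w (F k)))) ≤
        Real.exp (s ^ 2) := by
      intro k hk
      have hμ0 : 0 ≤ EW w (F k) := by
        have := ew_mono hw (F := fun _ => 0) (G := F k) (h0 k hk)
        rwa [ew_const hw] at this
      have hμ1 : EW w (F k) ≤ 1 := by
        have := ew_mono hw (F := F k) (G := fun _ => 1) (h1 k hk)
        rwa [ew_const hw] at this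
      have e3 : EW w (fun ω => Real.exp (s * (F k ω - EW w (F k)))) ≤
          EW w (fun ω => (s * F k ω + -(s * EW w (F k))) + Real.exp (s ^ 2)) := by
        refine ew_mono hw fun ω => ?_
        have a1 := exp_le_add_exp_sq (s * (F k ω - EW w (F k)))
        have a2 : (F k ω - EW w (F k)) ^ 2 ≤ 1 := by
          have b1 := h0 k hk ω
          have b2 := h1 k hk ω
          nlinarith
        have a3 : (s * (F k ω - EW w (F k))) ^ 2 ≤ s ^ 2 := by
          rw [mul_pow]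
          nlinarith [sq_nonneg s]
        have a4 := Real.exp_le_exp.2 a3
        linarith
      rw [ew_add, ew_add, ew_smul, ew_const hw, ew_const hw] at e3
      linarith
    refine le_trans (Finset.prod_le_prod (fun k _ => ?_) e2) ?_
    · have := ew_mono hw (F := fun _ => 0)
        (G := fun ω => Real.exp (s * (F k ω - EW w (F k)))) (fun ω => (Real.exp_pos _).le)
      rwa [ew_const hw] at this
    · rw [Finset.prod_const, ← Real.exp_nat_mul]
      refine Real.exp_le_exp.2 ?_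
      exact mul_le_mul_of_nonneg_right hT (sq_nonneg s)
  · intro k hk ω ω' h
    have := hd k hk ω ω' h
    simp only [this]

theorem hoeff_up {κ : Type} [DecidableEq κ] {w : I → S → ℝ} (hw : IsW w) (T : Finset κ)
    (F : κ → (I → S) → ℝ) (V : κ → Finset I) (h0 : ∀ k ∈ T, ∀ ω, 0 ≤ F k ω)
    (h1 : ∀ k ∈ T, ∀ ω, F k ω ≤ 1) (hd : ∀ k ∈ T, Dep (V k) (F k))
    (hV : ∀ k ∈ T, ∀ l ∈ T, k ≠ l → Disjoint (V k) (V l)) {m t : ℝ} (hm : 0 < m)
    (hT : (T.card : ℝ) ≤ m) (ht : 0 ≤ t) :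
    PW w (fun ω => ∑ k ∈ T, EW w (F k) + t ≤ ∑ k ∈ T, F k ω) ≤ Real.exp (-(t ^ 2 / (4 * m))) := by
  have hs : 0 ≤ t / (2 * m) := by positivity
  have e1 : PW w (fun ω => ∑ k ∈ T, EW w (F k) + t ≤ ∑ k ∈ T, F k ω) ≤
      EW w (fun ω => Real.exp (-(t / (2 * m) * t)) *
        Real.exp (t / (2 * m) * (∑ k ∈ T, F k ω - ∑ k ∈ T, EW w (F k)))) := by
    refine markov hw (fun ω => (mul_pos (Real.exp_pos _) (Real.exp_pos _)).le) fun ω hω => ?_
    rw [← Real.exp_add]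
    refine Real.one_le_exp ?_
    nlinarith
  rw [ew_smul] at e1
  refine le_trans e1 (le_trans (mul_le_mul_of_nonneg_left
    (Hoeff_gen hw T F V h0 h1 hd hV hT (t / (2 * m))) (Real.exp_pos _).le) ?_)
  rw [← Real.exp_add]
  refine Real.exp_le_exp.2 (le_of_eq ?_)
  field_simp
  ring

theorem hoeff_lo {κ : Type} [DecidableEq κ] {w : I → S → ℝ} (hw : IsW w) (T : Finset κ)
    (F : κ → (I → S) → ℝ) (V : κ → Finset I) (h0 : ∀ k ∈ T, ∀ ω, 0 ≤ F k ω)
    (h1 : ∀ k ∈ T, ∀ ω, F k ω ≤ 1) (hd : ∀ k ∈ T, Dep (V k) (F k))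
    (hV : ∀ k ∈ T, ∀ l ∈ T, k ≠ l → Disjoint (V k) (V l)) {m t : ℝ} (hm : 0 < m)
    (hT : (T.card : ℝ) ≤ m) (ht : 0 ≤ t) :
    PW w (fun ω => ∑ k ∈ T, F k ω ≤ ∑ k ∈ T, EW w (F k) - t) ≤ Real.exp (-(t ^ 2 / (4 * m))) := by
  have hs : 0 ≤ t / (2 * m) := by positivity
  have e1 : PW w (fun ω => ∑ k ∈ T, F k ω ≤ ∑ k ∈ T, EW w (F k) - t) ≤
      EW w (fun ω => Real.exp (-(t / (2 * m) * t)) *
        Real.exp (-(t / (2 * m)) * (∑ k ∈ T, F k ω - ∑ k ∈ T, EW w (F k)))) := by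
    refine markov hw (fun ω => (mul_pos (Real.exp_pos _) (Real.exp_pos _)).le) fun ω hω => ?_
    rw [← Real.exp_add]
    refine Real.one_le_exp ?_
    nlinarith
  rw [ew_smul] at e1
  refine le_trans e1 (le_trans (mul_le_mul_of_nonneg_left
    (Hoeff_gen hw T F V h0 h1 hd hV hT (-(t / (2 * m)))) (Real.exp_pos _).le) ?_)
  rw [← Real.exp_add]
  refine Real.exp_le_exp.2 (le_of_eq ?_)
  field_simp
  ring

end Pool.Agent.Lib.CD
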