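import Pool.Agent.Lib.MP_dcb6ed_co_CD.RoundE
import Pool.Agent.Lib.MP_dcb6ed_co_CD.Hoeff

/-!
# The degree events of one round

Let `T = (star F x) \ B`, `B` the exceptional set of `x` (`|B| ≤ 10`).  The functions `Ie x e`,
`e ∈ T`, have values in `[0, 1]` and depend on the disjoint sets `Sup W x e`; `|T| ≤ 1.1 Δ`.  By
`hoeff_up`, `hoeff_lo` with `t = ξ Δ / 2`, up to an event of probability
`2 exp (-(ξ Δ / 2)^2 / (4.4 Δ)) ≤ 2 exp (-ξ^2 Δ / 20)`, the sum over `T` differs from its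
expectation by less than `ξ Δ / 2`.  By `ie_bounds` the expectation is `|T|` times a number
between the two bounds, where `(1 - η) Δ - 10 ≤ |T| ≤ (1 + η) Δ`, and the sum over
`star F x` is between the sum over `T` and the sum over `T` plus `10`.  Use `num_deg_hi`,
`num_deg_lo`.
-/

set_option autoImplicit false

namespace Pool.Agent.Lib.CD

open Finset

variable {E X : Type} [Fintype E] [DecidableEq E] [Fintype X] [DecidableEq X]
variable {el : E → Finset X} {F W : Finset E} {Y : Finset X} {Δ η ξ : ℝ}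

theorem ev_deg (hG : HG el) (hR : Reg el F Y Δ η) (hΔ : 1000 ≤ Δ) (h0 : 0 ≤ η)
    (h1 : η ≤ 1 / 10) (hFW : F ⊆ W) (hξ0 : 0 ≤ ξ) (hξ : 60 ≤ ξ * Δ) {x : X} (hx : x ∈ Y)
    (B : Finset E) (hB : B.card ≤ 10)
    (hB1 : ∀ e ∈ star el W x, ∀ f ∈ star el W x, e ∉ B → f ∉ B → e ≠ f →
      Disjoint (Sup el W x e) (Sup el W x f))
    (hB2 : ∀ e ∈ star el W x, e ∉ B → ∀ y ∈ (el e).erase x, ∀ z ∈ (el e).erase x, y ≠ z →
      Disjoint (RR el W y e) (RR el W z e)) :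
    PW (BW F (1 / (4 * Δ))) (fun ω => ¬ ((1 - (1.7 * η + ξ)) * ((1 - qq0) ^ 2 * Δ) ≤
        ∑ e ∈ star el F x, Ie el F x e ω ∧
      ∑ e ∈ star el F x, Ie el F x e ω ≤ (1 + (1.7 * η + ξ)) * ((1 - qq0) ^ 2 * Δ))) ≤
      2 * Real.exp (-(ξ ^ 2 * Δ / 20)) := by
  have hΔ0 : 0 < Δ := by linarith
  have hπ0 : 0 ≤ 1 / (4 * Δ) := by positivity
  have hπ1 : 1 / (4 * Δ) ≤ 1 := by
    rw [div_le_one (by positivity)]
    linarith
  have hw : IsW (BW F (1 / (4 * Δ))) := bw_isW F hπ0 hπ1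
  set w := BW F (1 / (4 * Δ)) with hwdef
  set T : Finset E := star el F x \ B with hT
  have hsF : ∀ e ∈ star el F x, e ∈ F ∧ x ∈ el e := fun e he => mem_filter.1 he
  have hTs : ∀ e ∈ T, e ∈ star el F x ∧ e ∉ B := fun e he => mem_sdiff.1 he
  have hW : ∀ e ∈ T, e ∈ star el W x := fun e he => by
    obtain ⟨h2, h3⟩ := hsF e (hTs e he).1
    exact mem_filter.2 ⟨hFW h2, h3⟩
  have hTle : T.card ≤ (star el F x).card := card_le_card sdiff_subset
  have hTge : (star el F x).card ≤ T.card + 10 := by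
    have h2 : (star el F x).card ≤ T.card + (star el F x ∩ B).card := by
      rw [← card_sdiff_add_card_inter (star el F x) B]
    have h3 : (star el F x ∩ B).card ≤ B.card := card_le_card inter_subset_right
    omega
  have hlo := hR.lo x hx
  have hhi := hR.hi x hx
  have hT1 : (T.card : ℝ) ≤ (1 + η) * Δ := by
    have h2 : (T.card : ℝ) ≤ (star el F x).card := by exact_mod_cast hTle
    linarith
  have hT2 : (1 - η) * Δ - 10 ≤ (T.card : ℝ) := by
    have h2 : ((star el F x).card : ℝ) ≤ T.card + 10 := by exact_mod_cast hTge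
    linarith
  have hT3 : (T.card : ℝ) ≤ 1.1 * Δ := by
    refine hT1.trans ?_
    exact mul_le_mul_of_nonneg_right (by linarith) hΔ0.le
  have hdisj : ∀ k ∈ T, ∀ l ∈ T, k ≠ l → Disjoint (Sup el W x k) (Sup el W x l) :=
    fun k hk l hl hkl => hB1 k (hW k hk) l (hW l hl) (hTs k hk).2 (hTs l hl).2 hkl
  have ht : 0 ≤ ξ * Δ / 2 := by positivity
  have hm : 0 < 1.1 * Δ := by linarith
  have hup := hoeff_up hw T (Ie el F x) (Sup el W x) (fun k _ ω => (ie_range x k ω).1)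
    (fun k _ ω => (ie_range x k ω).2) (fun k _ => ie_dep hFW x k) hdisj hm hT3 ht
  have hlw := hoeff_lo hw T (Ie el F x) (Sup el W x) (fun k _ ω => (ie_range x k ω).1)
    (fun k _ ω => (ie_range x k ω).2) (fun k _ => ie_dep hFW x k) hdisj hm hT3 ht
  have hexp : Real.exp (-((ξ * Δ / 2) ^ 2 / (4 * (1.1 * Δ)))) ≤
      Real.exp (-(ξ ^ 2 * Δ / 20)) := by
    refine Real.exp_le_exp.2 (neg_le_neg ?_)
    rw [le_div_iff₀ (by linarith)]
    nlinarith [mul_nonneg (sq_nonneg ξ) (sq_nonneg Δ)]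
  have hE : ∀ e ∈ T, (1 - qq0) ^ 2 * (1 - 0.55 * η - 1.3 / Δ) ≤ EW w (Ie el F x e) ∧
      EW w (Ie el F x e) ≤ (1 - qq0) ^ 2 * (1 + 0.55 * η + 1.3 / Δ) := by
    intro e he
    obtain ⟨h2, h3⟩ := hsF e (hTs e he).1
    exact ie_bounds hG hR hΔ h0 h1 hFW h2 h3 (hB2 e (hW e he) (hTs e he).2)
  have hE1 : ∑ k ∈ T, EW w (Ie el F x k) ≤
      T.card * ((1 - qq0) ^ 2 * (1 + 0.55 * η + 1.3 / Δ)) := by
    rw [← nsmul_eq_mul]
    exact sum_le_card_nsmul T _ _ fun e he => (hE e he).2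
  have hE2 : T.card * ((1 - qq0) ^ 2 * (1 - 0.55 * η - 1.3 / Δ)) ≤
      ∑ k ∈ T, EW w (Ie el F x k) := by
    rw [← nsmul_eq_mul]
    exact card_nsmul_le_sum T _ _ fun e he => (hE e he).1
  have hsum : ∀ ω, ∑ e ∈ T, Ie el F x e ω ≤ ∑ e ∈ star el F x, Ie el F x e ω ∧
      ∑ e ∈ star el F x, Ie el F x e ω ≤ ∑ e ∈ T, Ie el F x e ω + 10 := by
    intro ω
    have h2 : ∑ e ∈ star el F x, Ie el F x e ω = ∑ e ∈ T, Ie el F x e ω +
        ∑ e ∈ star el F x ∩ B, Ie el F x e ω := by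
      rw [hT, ← sum_union (disjoint_sdiff_inter _ _), sdiff_union_inter]
    have h3 : 0 ≤ ∑ e ∈ star el F x ∩ B, Ie el F x e ω :=
      sum_nonneg fun e _ => (ie_range x e ω).1
    have h4 : ∑ e ∈ star el F x ∩ B, Ie el F x e ω ≤ 10 := by
      have h5 : ∑ e ∈ star el F x ∩ B, Ie el F x e ω ≤ (star el F x ∩ B).card • (1 : ℝ) :=
        sum_le_card_nsmul _ _ _ fun e _ => (ie_range x e ω).2
      have h6 : (star el F x ∩ B).card ≤ 10 := (card_le_card inter_subset_right).trans hB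
      have h7 : ((star el F x ∩ B).card : ℝ) ≤ 10 := by exact_mod_cast h6
      rw [nsmul_eq_mul, mul_one] at h5
      linarith
    constructor <;> linarith
  refine (pw_mono hw (B := fun ω => (∑ k ∈ T, EW w (Ie el F x k) + ξ * Δ / 2 ≤
      ∑ k ∈ T, Ie el F x k ω) ∨ (∑ k ∈ T, Ie el F x k ω ≤
      ∑ k ∈ T, EW w (Ie el F x k) - ξ * Δ / 2)) fun ω hω => ?_).trans ?_
  · by_contra hcon
    push Not at hcon
    obtain ⟨h2, h3⟩ := hcon
    obtain ⟨h4, h5⟩ := hsum ω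
    refine hω ⟨num_deg_lo hΔ h0 h1 hξ hT2 ?_, num_deg_hi hΔ h0 h1 hξ (Nat.cast_nonneg T.card)
      hT1 ?_⟩
    · linarith
    · linarith
  · refine (pw_or hw _ _).trans ?_
    linarith

end Pool.Agent.Lib.CD
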