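import Pool.Agent.Lib.MP_dcb6ed_co_CD.EBas

/-!
# The elementary event for the typed degrees

`evT_prob`.  First part: `FR.low_tail` with `X = {g}`, `lam = 3 δ / 4`, `k = (1 - δ) m`:
exponent at most `m (lam (1 - δ) - (lam - lam² / 2) (1 - δ / 4)) ≤ m (- (3/4) δ lam + lam² / 2)
= - (9/32) δ² m` (`1 - exp (-x) ≥ x - x² / 2` for `x ≥ 0`).  Second part: `FR.high_tail` with `lam = δ / 3 ≤ 1/6`,
`k = (1 + δ) m - k₀ ≥ (1 + (7/8) δ) m`: exponent at most
`m (- lam (1 + (7/8) δ) + (lam + 0.55 lam²) (1 + δ / 4)) ≤ m lam (- 0.625 δ + 0.62 lam)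
≤ - 0.13 δ² m` (`exp x - 1 ≤ x + 0.55 x²` for `0 ≤ x ≤ 1/6`).  The file `FR/FewB.lean` (`Ev_prob`) has the
same computation for `m = d`.

`card_stz`: the triples through `a` correspond to their third points.  If `a` is an edge the third point
is any colour: `2 n α` special ones.  If `a = (v, c)` the third point is any vertex `≠ v`: `2 n α` special
ones, or `2 n α - 1` if `v` is special.  In total `2 n - 1` triples (`FR.st_card`).
-/

set_option autoImplicit false

namespace Pool.Agent.Lib.CD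

open Finset Filter
open Pool.Agent.Lib.FR (J El Edge st Cf qq Pr)

theorem evT_prob {I : Type} [Fintype I] [DecidableEq I] {pm pp δ m k : ℝ} (h0 : 0 ≤ pm)
    (h1 : pm ≤ pp) (h2 : pp ≤ 1) (hδ : 0 < δ) (hδ1 : δ ≤ 1 / 2) (hm : 0 ≤ m)
    (hk : 8 * k ≤ δ * m) (g : I) (Y : Finset I) (hg : g ∉ Y)
    (hY : (1 - δ / 4) * m ≤ pm * Y.card) (hY' : pp * Y.card ≤ (1 + δ / 4) * m) :
    Pr (qq pm pp) (fun s : I → Fin 3 => s g ≠ 0 ∧
      (((Y.filter (fun i => s i = 2)).card : ℝ) ≤ (1 - δ) * m ∨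
        (1 + δ) * m - k ≤ ((Y.filter (fun i => s i ≠ 0)).card : ℝ))) ≤
      pp * (2 * Real.exp (-(δ ^ 2 * m / 8))) := by
  have hpp : 0 ≤ pp := h0.trans h1
  have hX : Disjoint ({g} : Finset I) Y := by simpa using hg
  have hq := FR.qq_nonneg h0 h1 h2
  have l1 := FR.low_tail h0 h1 h2 {g} Y hX (lam := 3 * δ / 4) (by positivity) ((1 - δ) * m)
  have l2 := FR.high_tail h0 h1 h2 {g} Y hX (lam := δ / 3) (by positivity) ((1 + δ) * m - k)
  have h3 : Pr (qq pm pp) (fun s : I → Fin 3 => s g ≠ 0 ∧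
      (((Y.filter (fun i => s i = 2)).card : ℝ) ≤ (1 - δ) * m ∨
        (1 + δ) * m - k ≤ ((Y.filter (fun i => s i ≠ 0)).card : ℝ))) ≤
      Pr (qq pm pp) (fun s => ((∀ i ∈ ({g} : Finset I), s i ≠ 0) ∧
        ((Y.filter fun i => s i = 2).card : ℝ) ≤ (1 - δ) * m) ∨
        ((∀ i ∈ ({g} : Finset I), s i ≠ 0) ∧
        (1 + δ) * m - k ≤ ((Y.filter fun i => s i ≠ 0).card : ℝ))) := by
    refine FR.Pr_mono hq fun s hs => ?_
    rcases hs.2 with h | h
    · exact Or.inl ⟨fun i hi => by rw [mem_singleton.1 hi]; exact hs.1, h⟩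
    · exact Or.inr ⟨fun i hi => by rw [mem_singleton.1 hi]; exact hs.1, h⟩
  refine h3.trans ((FR.Pr_or hq _ _).trans ((add_le_add l1 l2).trans ?_))
  rw [card_singleton, pow_one]
  have t1 : 3 * δ / 4 * ((1 - δ) * m) - (1 - Real.exp (-(3 * δ / 4))) * pm * Y.card ≤
      -(δ ^ 2 * m / 8) := by
    have e1 : Real.exp (-(3 * δ / 4)) ≤ 1 - 3 * δ / 4 + (3 * δ / 4) ^ 2 / 2 := by
      have h5 : Real.exp (-(3 * δ / 4)) = (Real.exp (3 * δ / 4))⁻¹ := Real.exp_neg _
      have h6 : 1 + 3 * δ / 4 + (3 * δ / 4) ^ 2 / 2 ≤ Real.exp (3 * δ / 4) :=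
        Real.quadratic_le_exp_of_nonneg (by positivity)
      rw [h5, inv_le_comm₀ (Real.exp_pos _) (by nlinarith)]
      refine le_trans ?_ h6
      rw [inv_le_comm₀ (by nlinarith) (by positivity)]
      rw [inv_le_iff_one_le_mul₀ (by positivity)]
      nlinarith [sq_nonneg (3 * δ / 4), sq_nonneg ((3 * δ / 4) ^ 2)]
    have e2 : 3 * δ / 4 - (3 * δ / 4) ^ 2 / 2 ≤ 1 - Real.exp (-(3 * δ / 4)) := by linarith
    have e3 : 0 ≤ 3 * δ / 4 - (3 * δ / 4) ^ 2 / 2 := by nlinarith
    have e4 : (3 * δ / 4 - (3 * δ / 4) ^ 2 / 2) * ((1 - δ / 4) * m) ≤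
        (1 - Real.exp (-(3 * δ / 4))) * (pm * Y.card) :=
      mul_le_mul e2 hY (mul_nonneg (by linarith) hm) (e3.trans e2)
    have e5 : (1 - Real.exp (-(3 * δ / 4))) * pm * Y.card =
        (1 - Real.exp (-(3 * δ / 4))) * (pm * Y.card) := mul_assoc _ _ _
    rw [e5]
    have e7 : 3 * δ / 4 * ((1 - δ) * m) -
        (3 * δ / 4 - (3 * δ / 4) ^ 2 / 2) * ((1 - δ / 4) * m) + δ ^ 2 * m / 8 =
        -(δ ^ 2 * m * (5 / 32 + 9 * δ / 128)) := by ring
    have e8 : 0 ≤ δ ^ 2 * m * (5 / 32 + 9 * δ / 128) := by positivity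
    linarith
  have t2 : -(δ / 3 * ((1 + δ) * m - k)) + (Real.exp (δ / 3) - 1) * pp * Y.card ≤
      -(δ ^ 2 * m / 8) := by
    have e1 : Real.exp (δ / 3) - 1 ≤ δ / 3 + 11 / 20 * (δ / 3) ^ 2 := by
      have h5 := Real.exp_bound' (x := δ / 3) (by positivity) (by linarith) (n := 3)
        (by norm_num)
      simp only [Finset.sum_range_succ, Finset.sum_range_zero, Nat.factorial] at h5
      norm_num at h5
      have h6 : (δ / 3) ^ 3 ≤ 1 / 6 * (δ / 3) ^ 2 := by
        have : δ / 3 ≤ 1 / 6 := by linarith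
        nlinarith [sq_nonneg (δ / 3)]
      nlinarith [sq_nonneg (δ / 3)]
    have e2 : 0 ≤ Real.exp (δ / 3) - 1 := by
      have := Real.one_le_exp (x := δ / 3) (by positivity)
      linarith
    have e4 : (Real.exp (δ / 3) - 1) * (pp * Y.card) ≤
        (δ / 3 + 11 / 20 * (δ / 3) ^ 2) * ((1 + δ / 4) * m) :=
      mul_le_mul e1 hY' (by positivity) (by positivity)
    have e5 : (Real.exp (δ / 3) - 1) * pp * Y.card =
        (Real.exp (δ / 3) - 1) * (pp * Y.card) := mul_assoc _ _ _
    rw [e5]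
    have e6 : δ / 3 * k ≤ δ / 3 * (δ * m / 8) := mul_le_mul_of_nonneg_left (by linarith)
      (by positivity)
    have e7 : -(δ / 3 * ((1 + δ) * m)) + δ / 3 * (δ * m / 8) +
        (δ / 3 + 11 / 20 * (δ / 3) ^ 2) * ((1 + δ / 4) * m) + δ ^ 2 * m / 8 =
        -(δ ^ 2 * m * (1 / 45 - 11 / 720 * δ)) := by ring
    have e8 : 0 ≤ δ ^ 2 * m * (1 / 45 - 11 / 720 * δ) :=
      mul_nonneg (by positivity) (by linarith)
    linarith
  have t3 := mul_le_mul_of_nonneg_left (Real.exp_le_exp.2 t1) hpp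
  have t4 := mul_le_mul_of_nonneg_left (Real.exp_le_exp.2 t2) hpp
  linarith

theorem EvT_third {n : ℕ} {Z : Finset (Pt n)} {g : J n} {a : El n} {r : Pt n} (hr : r ∉ ptE n a)
    (h : ptJ n g = insert r (ptE n a)) : wJ n Z g = wE n Z a + if r ∈ Z then 1 else 0 := by
  unfold wJ wE
  rw [h]
  split_ifs with hZ
  · rw [insert_inter_of_mem hZ, card_insert_of_notMem]
    exact fun h1 => hr (mem_inter.1 h1).1
  · rw [insert_inter_of_notMem hZ, add_zero]

theorem EvT_card {n : ℕ} {Z : Finset (Pt n)} (a : El n) (Z' : Finset (Pt n))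
    (hZ' : ∀ r, r ∈ Z' ↔ r ∈ Z ∧ r ∉ ptE n a ∧ ∃ g, ptJ n g = insert r (ptE n a)) :
    (stz n Z a 1).card = Z'.card := by
  classical
  have h1 : (stz n Z a 1).image (ptJ n) = Z'.image (fun r => insert r (ptE n a)) := by
    ext S
    rw [mem_image, mem_image]
    constructor
    · rintro ⟨g, hg, rfl⟩
      rw [mem_stz] at hg
      obtain ⟨r, hr, h⟩ := third hg.1
      refine ⟨r, (hZ' r).2 ⟨?_, hr, g, h⟩, h.symm⟩
      by_contra hZ
      have h2 := EvT_third (Z := Z) hr h
      rw [if_neg hZ] at h2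
      omega
    · rintro ⟨r, hr, rfl⟩
      obtain ⟨hrZ, hra, g, hg⟩ := (hZ' r).1 hr
      refine ⟨g, ?_, hg⟩
      rw [mem_stz]
      refine ⟨?_, ?_⟩
      · rw [mem_els_iff, hg]
        exact subset_insert _ _
      · rw [EvT_third hra hg, if_pos hrZ]
  rw [← card_image_of_injective (stz n Z a 1) (fun g g' h => ptJ_inj h), h1,
    card_image_of_injOn]
  intro r hr r' hr' h
  have h2 := ((hZ' r).1 hr).2.1
  have h3 : r ∈ insert r' (ptE n a) := by
    have h4 : insert r (ptE n a) = insert r' (ptE n a) := h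
    rw [← h4]
    exact mem_insert_self _ _
  rcases mem_insert.1 h3 with h4 | h4
  · exact h4
  · exact absurd h4 h2

theorem EvT_one {n : ℕ} {α : ℝ} {Z : Finset (Pt n)} (hZ : ZK n α Z) (a : El n) :
    2 * n * α - 1 ≤ ((stz n Z a 1).card : ℝ) ∧ ((stz n Z a 1).card : ℝ) ≤ 2 * n * α := by
  classical
  rcases Pts_E a with ⟨v, w, h, hvw, rfl⟩ | ⟨v, c, rfl⟩
  · rw [EvT_card _ (Z.filter (fun z => z.isRight = true)), hZ.r]
    · exact ⟨by linarith, le_rfl⟩
    · intro r
      rw [mem_filter, ptE_inl]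
      constructor
      · rintro ⟨h1, h2⟩
        rcases r with x | c
        · exact absurd h2 (by simp)
        · refine ⟨h1, by simp, (c, ⟨s(v, w), h⟩), ?_⟩
          rw [ptJ_eq]
          ext z
          simp only [mem_insert, mem_singleton]
          tauto
      · rintro ⟨h1, h2, g, hg⟩
        refine ⟨h1, ?_⟩
        rcases r with x | c
        · exfalso
          have h3 := ptJ_right g
          rw [hg] at h3
          have h4 : (insert (Sum.inl x) {Sum.inl v, Sum.inl w} : Finset (Pt n)).filter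
              (fun p => p.isRight = true) = ∅ := by
            ext z
            rcases z with z | z <;> simp
          rw [h4, card_empty] at h3
          omega
        · rfl
  · have h5 : (stz n Z (Sum.inr (v, c)) 1).card =
        ((Z.filter (fun z => z.isLeft = true)).erase (Sum.inl v)).card := by
      apply EvT_card
      intro r
      rw [mem_erase, mem_filter, ptE_inr]
      constructor
      · rintro ⟨h0, h1, h2⟩
        rcases r with x | c'
        · refine ⟨h1, ?_, ?_⟩
          · rw [mem_insert, mem_singleton]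
            rintro (h3 | h3)
            · exact h0 h3
            · exact absurd h3 (by simp)
          · have hvx : v ≠ x := fun h3 => h0 (by rw [h3])
            obtain ⟨g, hg⟩ := exists_ptJ hvx c
            refine ⟨g, ?_⟩
            rw [hg]
            ext z
            simp only [mem_insert, mem_singleton]
            tauto
        · exact absurd h2 (by simp)
      · rintro ⟨h1, h2, g, hg⟩
        rcases r with x | c'
        · refine ⟨?_, h1, rfl⟩
          intro h3
          exact h2 (by rw [h3]; exact mem_insert_self _ _)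
        · exfalso
          have h3 := ptJ_left g
          rw [hg] at h3
          have h4 : (insert (Sum.inr c') {Sum.inl v, Sum.inr c} : Finset (Pt n)).filter
              (fun p => p.isLeft = true) = {Sum.inl v} := by
            ext z
            rcases z with z | z <;> simp
          rw [h4, card_singleton] at h3
          omega
    rw [h5]
    have h6 := pred_card_le_card_erase (s := Z.filter (fun z => z.isLeft = true))
      (a := (Sum.inl v : Pt n))
    have h7 := card_erase_le (s := Z.filter (fun z => z.isLeft = true))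
      (a := (Sum.inl v : Pt n))
    have h8 : ((Z.filter (fun z => z.isLeft = true)).card : ℝ) ≤
        (((Z.filter (fun z => z.isLeft = true)).erase (Sum.inl v)).card : ℝ) + 1 := by
      exact_mod_cast (by omega : (Z.filter (fun z => z.isLeft = true)).card ≤
        ((Z.filter (fun z => z.isLeft = true)).erase (Sum.inl v)).card + 1)
    have h9 : (((Z.filter (fun z => z.isLeft = true)).erase (Sum.inl v)).card : ℝ) ≤
        ((Z.filter (fun z => z.isLeft = true)).card : ℝ) := by
      exact_mod_cast h7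
    rw [hZ.l] at h8 h9
    exact ⟨by linarith, h9⟩

theorem card_stz {n : ℕ} (hn : 1 ≤ n) {α : ℝ} {Z : Finset (Pt n)} (hZ : ZK n α Z) (a : El n) :
    2 * n * α - 1 ≤ ((stz n Z a 1).card : ℝ) ∧ ((stz n Z a 1).card : ℝ) ≤ 2 * n * α ∧
      2 * n * (1 - α) - 1 ≤ ((stz n Z a 0).card : ℝ) ∧
      ((stz n Z a 0).card : ℝ) ≤ 2 * n * (1 - α) := by
  obtain ⟨h1, h2⟩ := EvT_one hZ a
  have h3 := card_split (Z := Z) univ a
  rw [univ_inter, univ_inter, univ_inter, FR.st_card] at h3
  have h4 : ((stz n Z a 0).card : ℝ) + (stz n Z a 1).card + 1 = 2 * n := by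
    have h5 : (stz n Z a 0).card + (stz n Z a 1).card + 1 = 2 * n := by omega
    exact_mod_cast h5
  refine ⟨h1, h2, ?_, ?_⟩ <;> linarith

end Pool.Agent.Lib.CD
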