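import Pool.Agent.Lib.MP_dcb6ed_co_CD.RoundE
import Pool.Agent.Lib.MP_dcb6ed_co_CD.Hoeff

/-!
# The test events of one round

`b ∉ Y` is the base, `G` a set of hyperedges of `W` through `b` (none of them is in `F`, because
the hyperedges of `F` lie in `Y`), `sl g ∈ (el g).erase b`.  Let `T` be the set of the `g ∈ G`,
`g ∉ B`, with `sl g ∈ Y`; `|T| ≤ D`.  The functions `1 - 1_[Hit (sl g) g]` depend on the sets
`RR W (sl g) g ⊆ Sup W b g`, which are disjoint for different `g ∈ T`.  By `hit_test` and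
`num_test` their expectations are at most `(1 - qq0) (1 + η / 2 + 1 / Δ)`.  By `hoeff_up` with
`t = ξ D / 2`, up to an event of probability `exp (-(ξ D / 2)^2 / (4 D)) = exp (-ξ^2 D / 16)
≤ exp (-ξ^2 Δ / 20)`, the sum over `T` is less than its expectation plus `ξ D / 2`; the at most
ten `g ∈ B` add at most `10 ≤ ξ D / 2` (`60 ≤ ξ Δ ≤ ξ D`).
-/

set_option autoImplicit false

namespace Pool.Agent.Lib.CD

open Finset

variable {E X : Type} [Fintype E] [DecidableEq E] [Fintype X] [DecidableEq X]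
variable {el : E → Finset X} {F W : Finset E} {Y : Finset X} {Δ η ξ : ℝ}

open Classical in
theorem ev_test (hG : HG el) (hR : Reg el F Y Δ η) (hΔ : 1000 ≤ Δ) (h0 : 0 ≤ η)
    (h1 : η ≤ 1 / 10) (hFW : F ⊆ W) (hξ0 : 0 ≤ ξ) (hξ : 60 ≤ ξ * Δ) {D : ℕ} (hΔD : Δ ≤ D)
    {b : X} (hb : b ∉ Y) (B : Finset E) (hB : B.card ≤ 10)
    (hB1 : ∀ e ∈ star el W b, ∀ f ∈ star el W b, e ∉ B → f ∉ B → e ≠ f →
      Disjoint (Sup el W b e) (Sup el W b f))
    (G : Finset E) (hG1 : G ⊆ star el W b) (hGD : G.card ≤ D) (sl : E → X)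
    (hsl : ∀ g ∈ G, sl g ∈ (el g).erase b) :
    PW (BW F (1 / (4 * Δ))) (fun ω =>
      (1 - qq0) * (1 + η / 2 + 1 / Δ) * ((G.filter (fun g => sl g ∈ Y)).card : ℝ) + ξ * D <
        ((G.filter (fun g => sl g ∈ Y ∧ ¬ Hit el F (sl g) g ω)).card : ℝ)) ≤
      Real.exp (-(ξ ^ 2 * Δ / 20)) := by
  have hΔ0 : (0 : ℝ) < Δ := by linarith
  have hD0 : (0 : ℝ) < D := lt_of_lt_of_le hΔ0 hΔD
  have hπ0 : (0 : ℝ) ≤ 1 / (4 * Δ) := by positivity
  have hπ1 : 1 / (4 * Δ) ≤ 1 := by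
    rw [div_le_one (by linarith)]
    linarith
  have hw := bw_isW F hπ0 hπ1
  obtain ⟨c, hc⟩ : ∃ c : ℝ, c = (1 - qq0) * (1 + η / 2 + 1 / Δ) := ⟨_, rfl⟩
  have hc0 : 0 ≤ c := by
    rw [hc]
    have h2 := qq0_hi
    have h3 : (0 : ℝ) ≤ 1 / Δ := by positivity
    refine mul_nonneg (by linarith) (by linarith)
  rw [← hc]
  obtain ⟨T, hT⟩ : ∃ T : Finset E, T = G.filter (fun g => g ∉ B ∧ sl g ∈ Y) := ⟨_, rfl⟩
  have hTG : ∀ g ∈ T, g ∈ G ∧ g ∉ B ∧ sl g ∈ Y := by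
    intro g hg
    rw [hT, mem_filter] at hg
    exact hg
  obtain ⟨Φ, hΦ⟩ : ∃ Φ : E → (E → Bool) → ℝ,
      Φ = fun g ω => if Hit el F (sl g) g ω then 0 else 1 := ⟨_, rfl⟩
  have hΦ0 : ∀ k ∈ T, ∀ ω, 0 ≤ Φ k ω := by
    intro k _ ω
    rw [hΦ]
    dsimp only
    split_ifs
    · exact le_rfl
    · exact zero_le_one
  have hΦ1 : ∀ k ∈ T, ∀ ω, Φ k ω ≤ 1 := by
    intro k _ ω
    rw [hΦ]
    dsimp only
    split_ifs
    · exact zero_le_one
    · exact le_rfl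
  have hΦd : ∀ k ∈ T, Dep (RR el W (sl k) k) (Φ k) := by
    intro k _ ω ω' h
    have h2 := hit_dep hFW (sl k) k ω ω' h
    rw [hΦ]
    dsimp only
    rw [h2]
  have hRS : ∀ k ∈ G, RR el W (sl k) k ⊆ Sup el W b k := by
    intro k hk i hi
    unfold Sup
    exact mem_insert_of_mem (mem_biUnion.2 ⟨sl k, hsl k hk, hi⟩)
  have hV : ∀ k ∈ T, ∀ l ∈ T, k ≠ l → Disjoint (RR el W (sl k) k) (RR el W (sl l) l) := by
    intro k hk l hl hkl
    obtain ⟨h2, h3, -⟩ := hTG k hk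
    obtain ⟨h4, h5, -⟩ := hTG l hl
    exact Disjoint.mono (hRS k h2) (hRS l h4) (hB1 k (hG1 h2) l (hG1 h4) h3 h5 hkl)
  have hTD : (T.card : ℝ) ≤ D := by
    have h2 : T.card ≤ G.card := by
      rw [hT]
      exact card_filter_le _ _
    exact_mod_cast h2.trans hGD
  have hE : ∀ k ∈ T, EW (BW F (1 / (4 * Δ))) (Φ k) ≤ c := by
    intro k hk
    obtain ⟨h2, -, h3⟩ := hTG k hk
    have hkF : k ∉ F := by
      intro h4
      exact hb (hR.sub k h4 (mem_filter.1 (hG1 h2)).2)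
    have h5 : EW (BW F (1 / (4 * Δ))) (Φ k) = 1 - PW (BW F (1 / (4 * Δ))) (Hit el F (sl k) k) := by
      rw [← pw_not hw]
      unfold PW
      congr 1
      funext ω
      rw [hΦ]
      dsimp only
      by_cases h6 : Hit el F (sl k) k ω
      · rw [if_pos h6, if_neg (not_not.2 h6)]
      · rw [if_neg h6, if_pos h6]
    rw [h5, hc]
    have h6 := hit_test hG hR hΔ h0 h1 hkF h3
    have h7 := num_test hΔ h0 h1
    linarith
  have hsumE : ∑ k ∈ T, EW (BW F (1 / (4 * Δ))) (Φ k) ≤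
      c * ((G.filter (fun g => sl g ∈ Y)).card : ℝ) := by
    have h2 := sum_le_card_nsmul T _ c hE
    rw [nsmul_eq_mul] at h2
    refine h2.trans ?_
    rw [mul_comm]
    refine mul_le_mul_of_nonneg_left ?_ hc0
    have h3 : T ⊆ G.filter (fun g => sl g ∈ Y) := by
      intro g hg
      obtain ⟨h4, -, h5⟩ := hTG g hg
      exact mem_filter.2 ⟨h4, h5⟩
    exact_mod_cast card_le_card h3
  have ht : 0 ≤ ξ * D / 2 := by positivity
  have hξD : ξ * Δ ≤ ξ * D := mul_le_mul_of_nonneg_left hΔD hξ0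
  refine (pw_mono hw (B := fun ω => ∑ k ∈ T, EW (BW F (1 / (4 * Δ))) (Φ k) + ξ * D / 2 ≤
    ∑ k ∈ T, Φ k ω) fun ω hω => ?_).trans
      ((hoeff_up hw T Φ (fun k => RR el W (sl k) k) hΦ0 hΦ1 hΦd hV hD0 hTD ht).trans ?_)
  · have h2 : (G.filter (fun g => sl g ∈ Y ∧ ¬ Hit el F (sl g) g ω)) ⊆
        B ∪ T.filter (fun g => ¬ Hit el F (sl g) g ω) := by
      intro g hg
      obtain ⟨h3, h4, h5⟩ := mem_filter.1 hg
      by_cases h6 : g ∈ B
      · exact mem_union_left _ h6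
      · refine mem_union_right _ (mem_filter.2 ⟨?_, h5⟩)
        rw [hT]
        exact mem_filter.2 ⟨h3, h6, h4⟩
    have h3 : ((T.filter (fun g => ¬ Hit el F (sl g) g ω)).card : ℝ) = ∑ k ∈ T, Φ k ω := by
      rw [card_filter]
      push_cast
      refine sum_congr rfl fun k _ => ?_
      rw [hΦ]
      dsimp only
      by_cases h6 : Hit el F (sl k) k ω
      · rw [if_pos h6, if_neg (not_not.2 h6)]
      · rw [if_neg h6, if_pos h6]
    have h4 : ((G.filter (fun g => sl g ∈ Y ∧ ¬ Hit el F (sl g) g ω)).card : ℝ) ≤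
        10 + ((T.filter (fun g => ¬ Hit el F (sl g) g ω)).card : ℝ) := by
      have h5 := (card_le_card h2).trans (card_union_le _ _)
      have h6 : (G.filter (fun g => sl g ∈ Y ∧ ¬ Hit el F (sl g) g ω)).card ≤
          10 + (T.filter (fun g => ¬ Hit el F (sl g) g ω)).card := by
        omega
      exact_mod_cast h6
    rw [h3] at h4
    linarith
  · refine Real.exp_le_exp.2 ?_
    have h2 : (ξ * D / 2) ^ 2 / (4 * D) = ξ ^ 2 * D / 16 := by
      field_simp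
      ring
    rw [h2]
    have h3 : ξ ^ 2 * Δ ≤ ξ ^ 2 * D := mul_le_mul_of_nonneg_left hΔD (sq_nonneg ξ)
    have h4 : 0 ≤ ξ ^ 2 * Δ := by positivity
    linarith

end Pool.Agent.Lib.CD
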