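import Pool.Agent.Lib.MP_dcb6ed_co_CD.EvT
import Pool.Agent.Lib.MP_6d56f7_co_FR.FewB

/-!
# Few bad neighbours

`δ = u^(-36)`, `d = u^200`, `k = ⌊u^80 / 2⌋₊`.  Let `ptE a = {p, q}`, `s₀ ∈ {p, q}`; for `g ∈ st a` let
`o g` be the element `≠ a` of `g` which contains `s₀` (`other_exists`); if `r` is the third point of `g`,
`ptE (o g) = {s₀, r}`.  If the property fails at `a` then more than `u^80` triples `g ∈ W1 ∩ st a` have a bad
element `a' ≠ a`; `a'` contains `p` or `q` (`other_pt`), so for one of the two `s₀` more than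
`u^80 / 2 ≥ k` triples `g ∈ W1 ∩ st a` are such that `o g` is bad.  So there is a set `T ⊆ st a`,
`|T| = k`, such that for all `g ∈ T`: `s g ≠ 0` and `o g` is bad.

Fix `a, s₀, T`.  For `g ∈ T` let `Y g = st (o g) \ ({g} ∪ ⋃_{g' ∈ T, g' ≠ g} st (o g'))`.  For `g ≠ g'`
the third points `r ≠ r'` are different and `st (o g) ∩ st (o g')` contains only the triples which contain
`s₀, r, r'`, at most one.  So `|st (o g) \ Y g| ≤ k`.  The sets `insert g (Y g)`, `g ∈ T`, are pairwise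
disjoint: `g ∉ st (o g')` (`r' ∉ ptJ g`).  Let `Y₀ g = Y g ∩ stz (o g) 0`, `Y₁ g = Y g ∩ stz (o g) 1`,
`m₀ = (1 - α) d`, `m₁ = α d ≥ u^199 / 2`.  If `o g` is bad and `s g ≠ 0` then the event of `evT_prob` holds
for `(Y₀ g, m₀)` or for `(Y₁ g, m₁)` (a lower tail passes to the subset `Y_i g`; in the upper tail at most `k` triples
are lost).  The conditions of `evT_prob` for large `u`: `8 k ≤ 4 u^80 ≤ δ m_i`;
`pm |Y_i| ≥ pm (|stz (o g) i| - k)` and `|stz (o g) i| ≥ 2 n m_i / d - 1` (`card_stz`), where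
`2 n pm ≥ (2 n - 1) pm = (1 - u^(-40)) d`, and `pm (k + 1) ≤ u^300 / n ≤ δ m_i / 8`, so
`pm |Y_i| ≥ (1 - δ / 4) m_i`; `pp |Y_i| ≤ pp 2 n m_i / d`, `2 n pp = (2 n - 1) pp + pp
≤ (1 + u^(-40)) d + 1`, so `pp |Y_i| ≤ (1 + δ / 4) m_i`.
So each event has probability at most `4 pp exp (- δ² m₁ / 8) ≤ 4 pp exp (- u^127 / 16)`, and the
events of the different `g ∈ T` depend on disjoint sets of coordinates (`FR.FewB.Pr_all`).
Total: `|El n| · 2 · C(2 n - 1, k) (4 pp exp (- u^127 / 16))^k ≤ 12 n² (8 n pp exp (- u^127 / 16))^k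
≤ 12 n² (5 u^200 exp (- u^127 / 16))^k ≤ 12 n² exp (- u^126 k) ≤ 12 exp (u^200 - u^206 / 4) ≤ 1 / u`
(`FR.El_card`; `n² = exp (u^200)`; `k ≥ u^80 / 4`).
-/

set_option autoImplicit false

namespace Pool.Agent.Lib.CD

open Finset Filter
open Pool.Agent.Lib.FR (J El Edge st Cf qq Pr)

section comb

variable {n : ℕ} {a y : El n} {p : Pt n} {g g' : J n} {T : Finset (J n)} {Z : Finset (Pt n)}

open Classical in
/-- the element of `g` other than `a` which contains `p` -/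
noncomputable def FBt_o (n : ℕ) (a : El n) (p : Pt n) (g : J n) : El n :=
  if h : ∃ y, y ∈ els n g ∧ y ≠ a ∧ p ∈ ptE n y then h.choose else a

theorem FBt_o_spec (ha : a ∈ els n g) (hp : p ∈ ptE n a) :
    FBt_o n a p g ∈ els n g ∧ FBt_o n a p g ≠ a ∧ p ∈ ptE n (FBt_o n a p g) := by
  have h : ∃ y, y ∈ els n g ∧ y ≠ a ∧ p ∈ ptE n y := by
    obtain ⟨y, h1, h2, h3⟩ := other_exists ha hp
    exact ⟨y, h1, h2, h3⟩
  unfold FBt_o
  rw [dif_pos h]
  exact h.choose_spec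

theorem FBt_o_eq (ha : a ∈ els n g) (hp : p ∈ ptE n a) (hy : y ∈ els n g) (hya : y ≠ a)
    (hys : p ∈ ptE n y) : FBt_o n a p g = y :=
  other_unique ha hp (FBt_o_spec ha hp).1 (FBt_o_spec ha hp).2.1 (FBt_o_spec ha hp).2.2
    hy hya hys

theorem FBt_o_inj (ha : a ∈ els n g) (ha' : a ∈ els n g') (hp : p ∈ ptE n a)
    (h : FBt_o n a p g' ∈ els n g) : g = g' :=
  eq_of_two (FBt_o_spec ha' hp).2.1.symm ha h ha' (FBt_o_spec ha' hp).1

/-- the coordinates of the event at `g` -/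
noncomputable def FBt_Y (n : ℕ) (a : El n) (p : Pt n) (T : Finset (J n)) (g : J n) :
    Finset (J n) :=
  (st n (FBt_o n a p g)).filter
    (fun j => j ≠ g ∧ ∀ g' ∈ T, g' ≠ g → j ∉ st n (FBt_o n a p g'))

theorem FBt_Y_card (hT : ∀ g ∈ T, a ∈ els n g) (hp : p ∈ ptE n a) (hg : g ∈ T) :
    (st n (FBt_o n a p g) \ FBt_Y n a p T g).card ≤ T.card := by
  classical
  have h1 : st n (FBt_o n a p g) \ FBt_Y n a p T g ⊆
      insert g ((T.erase g).biUnion fun g' => st n (FBt_o n a p g) ∩ st n (FBt_o n a p g')) := by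
    intro j hj
    obtain ⟨h2, h3⟩ := mem_sdiff.1 hj
    by_cases hjg : j = g
    · rw [hjg]
      exact mem_insert_self _ _
    · by_contra h4
      apply h3
      unfold FBt_Y
      refine mem_filter.2 ⟨h2, hjg, fun g' hg' hne h5 => h4 ?_⟩
      exact mem_insert_of_mem (mem_biUnion.2 ⟨g', mem_erase.2 ⟨hne, hg'⟩,
        mem_inter.2 ⟨h2, h5⟩⟩)
  refine (card_le_card h1).trans ((card_insert_le _ _).trans ?_)
  have h2 : ((T.erase g).biUnion
      fun g' => st n (FBt_o n a p g) ∩ st n (FBt_o n a p g')).card ≤ (T.erase g).card * 1 := by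
    refine card_biUnion_le_card_mul _ _ 1 fun g' hg' => ?_
    obtain ⟨hne, hg'T⟩ := mem_erase.1 hg'
    rw [card_le_one]
    intro j hj j' hj'
    rw [mem_inter] at hj hj'
    have h3 : FBt_o n a p g ≠ FBt_o n a p g' := by
      intro h4
      refine hne.symm (FBt_o_inj (hT g hg) (hT g' hg'T) hp ?_)
      rw [← h4]
      exact (FBt_o_spec (hT g hg) hp).1
    exact FR.st_inter h3 hj.1 hj.2 hj'.1 hj'.2
  rw [mul_one, card_erase_of_mem hg] at h2
  have h3 : 0 < T.card := card_pos.2 ⟨g, hg⟩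
  omega

theorem FBt_disj (hT : ∀ g ∈ T, a ∈ els n g) (hp : p ∈ ptE n a) (hg : g ∈ T) (hg' : g' ∈ T)
    (hne : g ≠ g') :
    Disjoint (insert g (FBt_Y n a p T g)) (insert g' (FBt_Y n a p T g')) := by
  have aux : ∀ g g' : J n, g ∈ T → g' ∈ T → g ≠ g' → g ∉ FBt_Y n a p T g' := by
    intro g g' hg hg' hne h1
    have h2 := (mem_filter.1 h1).1
    exact hne (FBt_o_inj (hT g hg) (hT g' hg') hp (mem_els.2 h2))
  rw [Finset.disjoint_left]
  intro j hj hj'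
  rcases mem_insert.1 hj with h1 | h1
  · rcases mem_insert.1 hj' with h2 | h2
    · exact hne (h1.symm.trans h2)
    · exact aux g g' hg hg' hne (h1 ▸ h2)
  · rcases mem_insert.1 hj' with h2 | h2
    · exact aux g' g hg' hg hne.symm (h2 ▸ h1)
    · exact (mem_filter.1 h1).2.2 g' hg' hne.symm (mem_filter.1 h2).1

/-- the elementary event -/
def FBt_E (n : ℕ) (Y : Finset (J n)) (g : J n) (m δ k : ℝ) (s : J n → Fin 3) : Prop :=
  s g ≠ 0 ∧ (((Y.filter (fun i => s i = 2)).card : ℝ) ≤ (1 - δ) * m ∨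
    (1 + δ) * m - k ≤ ((Y.filter (fun i => s i ≠ 0)).card : ℝ))

theorem FBt_E_dep {Y Y' : Finset (J n)} {m δ k : ℝ} {s t : J n → Fin 3} (hY : Y ⊆ Y')
    (h : ∀ i ∈ insert g Y', s i = t i) (hs : FBt_E n Y g m δ k s) : FBt_E n Y g m δ k t := by
  have e1 : Y.filter (fun i => t i = 2) = Y.filter (fun i => s i = 2) :=
    filter_congr fun i hi => by rw [h i (mem_insert_of_mem (hY hi))]
  have e2 : Y.filter (fun i => t i ≠ 0) = Y.filter (fun i => s i ≠ 0) :=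
    filter_congr fun i hi => by rw [h i (mem_insert_of_mem (hY hi))]
  refine ⟨?_, ?_⟩
  · rw [← h g (mem_insert_self _ _)]
    exact hs.1
  · rw [e1, e2]
    exact hs.2

/-- the coordinates of the event at `g` for the type `i` -/
noncomputable def FBt_Yi (n : ℕ) (Z : Finset (Pt n)) (a : El n) (p : Pt n) (T : Finset (J n))
    (g : J n) (i : ℕ) : Finset (J n) :=
  FBt_Y n a p T g ∩ stz n Z (FBt_o n a p g) i

/-- the event at `g` -/
def FBt_A (n : ℕ) (Z : Finset (Pt n)) (a : El n) (p : Pt n) (T : Finset (J n))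
    (m₀ m₁ δ k : ℝ) (g : J n) (s : J n → Fin 3) : Prop :=
  FBt_E n (FBt_Yi n Z a p T g 0) g m₀ δ k s ∨ FBt_E n (FBt_Yi n Z a p T g 1) g m₁ δ k s

theorem FBt_Yi_card (hT : ∀ g ∈ T, a ∈ els n g) (hp : p ∈ ptE n a) (hg : g ∈ T) (i : ℕ) :
    (stz n Z (FBt_o n a p g) i \ FBt_Yi n Z a p T g i).card ≤ T.card := by
  refine (card_le_card ?_).trans (FBt_Y_card hT hp hg)
  intro j hj
  obtain ⟨h1, h2⟩ := mem_sdiff.1 hj
  refine mem_sdiff.2 ⟨(mem_filter.1 h1).1, fun h3 => h2 ?_⟩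
  exact mem_inter.2 ⟨h3, h1⟩

/-- lower tail -/
theorem FBt_lo {s : J n → Fin 3} (Y X : Finset (J n)) (h : Y ⊆ X) {c : ℝ}
    (hb : ((W0s n s ∩ X).card : ℝ) < c) : ((Y.filter (fun i => s i = 2)).card : ℝ) ≤ c := by
  have h1 : (Y.filter (fun i => s i = 2)).card ≤ (W0s n s ∩ X).card := by
    refine card_le_card fun j hj => ?_
    obtain ⟨h2, h3⟩ := mem_filter.1 hj
    exact mem_inter.2 ⟨mem_filter.2 ⟨mem_univ _, h3⟩, h h2⟩
  have h2 : ((Y.filter (fun i => s i = 2)).card : ℝ) ≤ ((W0s n s ∩ X).card : ℝ) := by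
    exact_mod_cast h1
  linarith

/-- upper tail -/
theorem FBt_hi {s : J n → Fin 3} (Y X : Finset (J n)) {k : ℕ} (h : (X \ Y).card ≤ k) {c : ℝ}
    (hb : c < ((W1s n s ∩ X).card : ℝ)) :
    c - k ≤ ((Y.filter (fun i => s i ≠ 0)).card : ℝ) := by
  have h1 : (W1s n s ∩ X).card ≤ (Y.filter (fun i => s i ≠ 0)).card + k := by
    have h2 : W1s n s ∩ X ⊆ Y.filter (fun i => s i ≠ 0) ∪ (X \ Y) := by
      intro j hj
      obtain ⟨h2, h3⟩ := mem_inter.1 hj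
      by_cases hjY : j ∈ Y
      · exact mem_union_left _ (mem_filter.2 ⟨hjY, (mem_filter.1 h2).2⟩)
      · exact mem_union_right _ (mem_sdiff.2 ⟨h3, hjY⟩)
    exact (card_le_card h2).trans ((card_union_le _ _).trans (Nat.add_le_add_left h _))
  have h2 : ((W1s n s ∩ X).card : ℝ) ≤ ((Y.filter (fun i => s i ≠ 0)).card : ℝ) + k := by
    exact_mod_cast h1
  linarith

theorem FBt_of_bad {u α : ℝ} {s : J n → Fin 3} (hT : ∀ g ∈ T, a ∈ els n g)
    (hp : p ∈ ptE n a) (hg : g ∈ T) (hs : s g ≠ 0)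
    (hb : BadT n u α Z (W0s n s) (W1s n s) (FBt_o n a p g)) :
    FBt_A n Z a p T ((1 - α) * u ^ 200) (α * u ^ 200) (u ^ 36)⁻¹ T.card g s := by
  rcases hb with h | h | h | h
  · exact Or.inl ⟨hs, Or.inl (FBt_lo _ _ inter_subset_right h)⟩
  · exact Or.inl ⟨hs, Or.inr (FBt_hi _ _ (FBt_Yi_card hT hp hg 0) h)⟩
  · exact Or.inr ⟨hs, Or.inl (FBt_lo _ _ inter_subset_right h)⟩
  · exact Or.inr ⟨hs, Or.inr (FBt_hi _ _ (FBt_Yi_card hT hp hg 1) h)⟩

/-- from the failure of the property to the events -/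
theorem FBt_ex {u α : ℝ} {s : J n → Fin 3} {k : ℕ} (hk : (k : ℝ) ≤ u ^ 80 / 2)
    (h : ¬ ∀ a, (cnt (fun g : J n => g ∈ W1s n s ∧ g ∈ st n a ∧
      ∃ a' ∈ els n g, a' ≠ a ∧ BadT n u α Z (W0s n s) (W1s n s) a') : ℝ) ≤ u ^ 80) :
    ∃ a ∈ (univ : Finset (El n)), ∃ p ∈ ptE n a, ∃ T ∈ powersetCard k (st n a), ∀ g ∈ T,
      FBt_A n Z a p T ((1 - α) * u ^ 200) (α * u ^ 200) (u ^ 36)⁻¹ k g s := by
  classical
  push Not at h
  obtain ⟨a, ha⟩ := h
  refine ⟨a, mem_univ _, ?_⟩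
  have h1 : cnt (fun g : J n => g ∈ W1s n s ∧ g ∈ st n a ∧
      ∃ a' ∈ els n g, a' ≠ a ∧ BadT n u α Z (W0s n s) (W1s n s) a') ≤
      ∑ p ∈ ptE n a, cnt (fun g : J n => g ∈ st n a ∧
        (s g ≠ 0 ∧ BadT n u α Z (W0s n s) (W1s n s) (FBt_o n a p g))) := by
    refine (cnt_mono fun g hg => ?_).trans (cnt_exists (ptE n a) (fun p g => g ∈ st n a ∧
        (s g ≠ 0 ∧ BadT n u α Z (W0s n s) (W1s n s) (FBt_o n a p g))))
    obtain ⟨h2, h3, a', h4, h5, h6⟩ := hg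
    obtain ⟨p, hp, hp'⟩ := other_pt (mem_els.2 h3) h4 h5
    refine ⟨p, hp, h3, (mem_filter.1 h2).2, ?_⟩
    rw [FBt_o_eq (mem_els.2 h3) hp h4 h5 hp']
    exact h6
  have h2 : ∃ p ∈ ptE n a, k ≤ cnt (fun g : J n => g ∈ st n a ∧
      (s g ≠ 0 ∧ BadT n u α Z (W0s n s) (W1s n s) (FBt_o n a p g))) := by
    by_contra hcon
    push Not at hcon
    have h3 : cnt (fun g : J n => g ∈ W1s n s ∧ g ∈ st n a ∧
      ∃ a' ∈ els n g, a' ≠ a ∧ BadT n u α Z (W0s n s) (W1s n s) a') ≤ (ptE n a).card * k :=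
      h1.trans ((Finset.sum_le_card_nsmul _ _ k (fun p hp => (hcon p hp).le)).trans
        (le_of_eq (smul_eq_mul _ _)))
    rw [card_ptE] at h3
    have h4 : (cnt (fun g : J n => g ∈ W1s n s ∧ g ∈ st n a ∧
      ∃ a' ∈ els n g, a' ≠ a ∧ BadT n u α Z (W0s n s) (W1s n s) a') : ℝ) ≤ 2 * k := by
      exact_mod_cast h3
    linarith
  obtain ⟨p, hp, h3⟩ := h2
  unfold cnt at h3
  obtain ⟨T, hT, hTk⟩ := exists_subset_card_eq h3
  have hT' : ∀ g ∈ T, g ∈ st n a ∧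
      (s g ≠ 0 ∧ BadT n u α Z (W0s n s) (W1s n s) (FBt_o n a p g)) := fun g hg => by
    have h4 := hT hg
    simp only [Finset.mem_filter, Finset.mem_univ, true_and] at h4
    exact h4
  refine ⟨p, hp, T, mem_powersetCard.2 ⟨fun g hg => (hT' g hg).1, hTk⟩, fun g hg => ?_⟩
  have h4 := FBt_of_bad (T := T) (a := a) (p := p) (u := u) (α := α) (Z := Z) (s := s)
    (fun g hg => mem_els.2 (hT' g hg).1) hp hg (hT' g hg).2.1 (hT' g hg).2.2
  rwa [hTk] at h4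

end comb

section prob

variable {n : ℕ} {a : El n} {p : Pt n} {g : J n} {T : Finset (J n)} {Z : Finset (Pt n)}
  {pm pp α δ d : ℝ} {k : ℕ}

/-- the numerical conditions -/
structure FBt_N (n : ℕ) (pm pp δ d : ℝ) (k : ℕ) (β : ℝ) : Prop where
  m0 : 0 ≤ β * d
  hk : 8 * (k : ℝ) ≤ δ * (β * d)
  lo : ∀ c : ℝ, 2 * n * β - 1 - k ≤ c → (1 - δ / 4) * (β * d) ≤ pm * c
  hi : ∀ c : ℝ, c ≤ 2 * n * β → pp * c ≤ (1 + δ / 4) * (β * d)

theorem FBt_E_prob (h0 : 0 ≤ pm) (h1 : pm ≤ pp) (h2 : pp ≤ 1) (hδ : 0 < δ) (hδ1 : δ ≤ 1 / 2)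
    {β : ℝ} (hN : FBt_N n pm pp δ d k β) (hT : ∀ g ∈ T, a ∈ els n g) (hp : p ∈ ptE n a)
    (hg : g ∈ T) (hTk : T.card = k) (i : ℕ)
    (hc : 2 * n * β - 1 ≤ ((stz n Z (FBt_o n a p g) i).card : ℝ))
    (hc' : ((stz n Z (FBt_o n a p g) i).card : ℝ) ≤ 2 * n * β) :
    Pr (qq pm pp) (FBt_E n (FBt_Yi n Z a p T g i) g (β * d) δ k) ≤
      pp * (2 * Real.exp (-(δ ^ 2 * (β * d) / 8))) := by
  refine evT_prob h0 h1 h2 hδ hδ1 hN.m0 hN.hk g (FBt_Yi n Z a p T g i) ?_ (hN.lo _ ?_)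
    (hN.hi _ ?_)
  · intro h3
    exact (mem_filter.1 (mem_inter.1 h3).1).2.1 rfl
  · have h3 := FBt_Yi_card (Z := Z) hT hp hg i
    have h4 := card_le_card_sdiff_add_card (s := stz n Z (FBt_o n a p g) i)
      (t := FBt_Yi n Z a p T g i)
    have h5 : (stz n Z (FBt_o n a p g) i).card ≤ k + (FBt_Yi n Z a p T g i).card := by omega
    have h6 : ((stz n Z (FBt_o n a p g) i).card : ℝ) ≤
        k + ((FBt_Yi n Z a p T g i).card : ℝ) := by exact_mod_cast h5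
    linarith
  · refine le_trans ?_ hc'
    exact_mod_cast card_le_card inter_subset_right

theorem FBt_A_prob (hn : 1 ≤ n) (hZ : ZK n α Z) (h0 : 0 ≤ pm) (h1 : pm ≤ pp) (h2 : pp ≤ 1)
    (hδ : 0 < δ) (hδ1 : δ ≤ 1 / 2) (hN0 : FBt_N n pm pp δ d k (1 - α))
    (hN1 : FBt_N n pm pp δ d k α) {E : ℝ} (hE0 : Real.exp (-(δ ^ 2 * ((1 - α) * d) / 8)) ≤ E)
    (hE1 : Real.exp (-(δ ^ 2 * (α * d) / 8)) ≤ E)
    (hT : ∀ g ∈ T, a ∈ els n g) (hp : p ∈ ptE n a) (hg : g ∈ T) (hTk : T.card = k) :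
    Pr (qq pm pp) (FBt_A n Z a p T ((1 - α) * d) (α * d) δ k g) ≤ pp * (4 * E) := by
  have hq := FR.qq_nonneg h0 h1 h2
  obtain ⟨c1, c2, c3, c4⟩ := card_stz hn hZ (FBt_o n a p g)
  have e0 := FBt_E_prob h0 h1 h2 hδ hδ1 hN0 hT hp hg hTk 0 c3 c4
  have e1 := FBt_E_prob h0 h1 h2 hδ hδ1 hN1 hT hp hg hTk 1 c1 c2
  refine (FR.Pr_or hq _ _).trans ((add_le_add e0 e1).trans ?_)
  have hpp : 0 ≤ pp := h0.trans h1
  have e2 := mul_le_mul_of_nonneg_left hE0 hpp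
  have e3 := mul_le_mul_of_nonneg_left hE1 hpp
  linarith

/-- the union bound -/
theorem FBt_union (hn : 1 ≤ n) (hZ : ZK n α Z) (h0 : 0 ≤ pm) (h1 : pm ≤ pp) (h2 : pp ≤ 1)
    (hδ : 0 < δ) (hδ1 : δ ≤ 1 / 2) (hN0 : FBt_N n pm pp δ d k (1 - α))
    (hN1 : FBt_N n pm pp δ d k α) {E : ℝ} (hE0 : Real.exp (-(δ ^ 2 * ((1 - α) * d) / 8)) ≤ E)
    (hE1 : Real.exp (-(δ ^ 2 * (α * d) / 8)) ≤ E) :
    Pr (qq pm pp) (fun s : J n → Fin 3 => ∃ a ∈ (univ : Finset (El n)), ∃ p ∈ ptE n a,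
      ∃ T ∈ powersetCard k (st n a), ∀ g ∈ T,
      FBt_A n Z a p T ((1 - α) * d) (α * d) δ k g s) ≤
      12 * n ^ 2 * (8 * n * pp * E) ^ k := by
  have hq := FR.qq_nonneg h0 h1 h2
  have hpp : 0 ≤ pp := h0.trans h1
  have hE : 0 ≤ E := (Real.exp_pos _).le.trans hE0
  have hP0 : 0 ≤ pp * (4 * E) := by positivity
  have key : ∀ a : El n, ∀ p ∈ ptE n a, Pr (qq pm pp) (fun s : J n → Fin 3 =>
      ∃ T ∈ powersetCard k (st n a), ∀ g ∈ T,
        FBt_A n Z a p T ((1 - α) * d) (α * d) δ k g s) ≤ (8 * n * pp * E) ^ k := by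
    intro a p hp
    refine (FR.Pr_exists hq _ _).trans ?_
    have h3 : ∀ T ∈ powersetCard k (st n a), Pr (qq pm pp) (fun s : J n → Fin 3 => ∀ g ∈ T,
        FBt_A n Z a p T ((1 - α) * d) (α * d) δ k g s) ≤ (pp * (4 * E)) ^ k := by
      intro T hT
      obtain ⟨hTs, hTk⟩ := mem_powersetCard.1 hT
      have hTe : ∀ g ∈ T, a ∈ els n g := fun g hg => mem_els.2 (hTs hg)
      have h4 := FR.FewB.Pr_all hq (FR.qq_sum pm pp)
        (fun g s => FBt_A n Z a p T ((1 - α) * d) (α * d) δ k g s)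
        (fun g => insert g (FBt_Y n a p T g)) hP0 T
        (fun g _ s t hst hs => by
          rcases hs with hs | hs
          · exact Or.inl (FBt_E_dep inter_subset_left hst hs)
          · exact Or.inr (FBt_E_dep inter_subset_left hst hs))
        (fun g hg g' hg' hne => FBt_disj hTe hp hg hg' hne)
        (fun g hg => FBt_A_prob hn hZ h0 h1 h2 hδ hδ1 hN0 hN1 hE0 hE1 hTe hp hg hTk)
      rwa [hTk] at h4
    refine (Finset.sum_le_sum h3).trans ?_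
    rw [Finset.sum_const, card_powersetCard, nsmul_eq_mul, FR.st_card]
    have h4 : ((2 * n - 1).choose k : ℝ) ≤ (2 * n : ℝ) ^ k := by
      have h5 : (2 * n - 1).choose k ≤ (2 * n) ^ k :=
        (Nat.choose_le_pow _ _).trans (Nat.pow_le_pow_left (Nat.sub_le _ _) k)
      exact_mod_cast h5
    calc ((2 * n - 1).choose k : ℝ) * (pp * (4 * E)) ^ k
        ≤ (2 * n : ℝ) ^ k * (pp * (4 * E)) ^ k :=
          mul_le_mul_of_nonneg_right h4 (pow_nonneg hP0 k)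
      _ = (8 * n * pp * E) ^ k := by
          rw [← mul_pow]
          ring_nf
  refine (FR.Pr_exists hq _ _).trans ?_
  have h3 : ∀ a ∈ (univ : Finset (El n)), Pr (qq pm pp) (fun s : J n → Fin 3 => ∃ p ∈ ptE n a,
      ∃ T ∈ powersetCard k (st n a), ∀ g ∈ T,
        FBt_A n Z a p T ((1 - α) * d) (α * d) δ k g s) ≤ 2 * (8 * n * pp * E) ^ k := by
    intro a _
    refine (FR.Pr_exists hq _ _).trans ((Finset.sum_le_sum (key a)).trans (le_of_eq ?_))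
    rw [Finset.sum_const, card_ptE, nsmul_eq_mul]
    norm_num
  refine (Finset.sum_le_sum h3).trans ?_
  rw [Finset.sum_const, card_univ, FR.El_card, nsmul_eq_mul]
  have h4 : ((3 * (n * (2 * n - 1)) : ℕ) : ℝ) ≤ 6 * (n : ℝ) ^ 2 := by
    have h5 : 3 * (n * (2 * n - 1)) ≤ 6 * n ^ 2 := by
      have h6 : n * (2 * n - 1) ≤ n * (2 * n) := Nat.mul_le_mul_left _ (Nat.sub_le _ _)
      calc 3 * (n * (2 * n - 1)) ≤ 3 * (n * (2 * n)) := Nat.mul_le_mul_left _ h6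
        _ = 6 * n ^ 2 := by ring
    exact_mod_cast h5
  have h5 : 0 ≤ (8 * n * pp * E) ^ k := by positivity
  nlinarith

end prob

section num

variable {n k : ℕ} {u pm pp β : ℝ}

theorem FBt_cond (hu : 1000 ≤ u) (hP : ParE n u pm pp) (h0 : 0 ≤ pm) (h1 : pm ≤ pp)
    (h2 : pp ≤ 1) (hn : u ^ 10000 ≤ n) (hpp : 2 * n * pp ≤ 1.01 * u ^ 200)
    (hk : (k : ℝ) ≤ u ^ 80 / 2) (hβ : 1 / (2 * u) ≤ β) (hβ1 : β ≤ 1) :
    FBt_N n pm pp (u ^ 36)⁻¹ (u ^ 200) k β ∧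
      u ^ 127 / 16 ≤ (u ^ 36)⁻¹ ^ 2 * (β * u ^ 200) / 8 := by
  have hu1 : 1 ≤ u := by linarith
  have hu0 : 0 < u := by linarith
  have hpow : ∀ m : ℕ, 1 ≤ m → 1000 ≤ u ^ m := fun m hm =>
    hu.trans (le_self_pow₀ hu1 (by omega))
  have hβ0 : 0 ≤ β := le_trans (by positivity) hβ
  have hpp0 : 0 ≤ pp := h0.trans h1
  have hA : u ^ 199 / 2 ≤ β * u ^ 200 := by
    have h3 : 1 / (2 * u) * u ^ 200 = u ^ 199 / 2 := by
      field_simp
    rw [← h3]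
    exact mul_le_mul_of_nonneg_right hβ (by positivity)
  set A : ℝ := β * u ^ 200 with hAdef
  have hD : u ^ 163 / 2 ≤ (u ^ 36)⁻¹ * A := by
    have h3 : (u ^ 36)⁻¹ * (u ^ 199 / 2) = u ^ 163 / 2 := by
      field_simp
    rw [← h3]
    exact mul_le_mul_of_nonneg_left hA (by positivity)
  set D : ℝ := (u ^ 36)⁻¹ * A with hDdef
  have hD8 : 8 ≤ D := by
    have := hpow 163 (by norm_num)
    linarith
  have hDA : (u ^ 40)⁻¹ * A ≤ D / 8 := by
    have h3 : (u ^ 40)⁻¹ * A = (u ^ 4)⁻¹ * D := by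
      rw [hDdef]
      field_simp
    have h4 : (u ^ 4)⁻¹ ≤ 1 / 8 := by
      rw [inv_le_comm₀ (by positivity) (by norm_num)]
      have := hpow 4 (by norm_num)
      norm_num
      linarith
    rw [h3]
    have h5 := mul_le_mul_of_nonneg_right h4 (by linarith : (0 : ℝ) ≤ D)
    linarith
  have hn0 : (0 : ℝ) < n := lt_of_lt_of_le (by positivity) hn
  have hk1 : (k : ℝ) + 1 ≤ u ^ 80 := by
    have := hpow 80 (by norm_num)
    linarith
  have hpk : pp * (k + 1) ≤ 1 := by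
    have h3 : pp * (k + 1) ≤ pp * u ^ 80 := mul_le_mul_of_nonneg_left hk1 hpp0
    have h4 : 2 * n * (pp * u ^ 80) ≤ 1.01 * u ^ 280 := by
      have h5 := mul_le_mul_of_nonneg_right hpp (by positivity : (0 : ℝ) ≤ u ^ 80)
      calc 2 * n * (pp * u ^ 80) = 2 * n * pp * u ^ 80 := by ring
        _ ≤ 1.01 * u ^ 200 * u ^ 80 := h5
        _ = 1.01 * u ^ 280 := by ring
    have h5 : u ^ 280 ≤ n := (pow_le_pow_right₀ hu1 (by norm_num)).trans hn
    have h6 : 2 * n * (pp * u ^ 80) ≤ 2 * n * 1 := by linarith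
    have h7 : pp * u ^ 80 ≤ 1 := le_of_mul_le_mul_left h6 (by positivity)
    linarith
  have hk0 : (0 : ℝ) ≤ k := k.cast_nonneg
  refine ⟨⟨by positivity, ?_, fun c hc => ?_, fun c hc => ?_⟩, ?_⟩
  · have h3 : u ^ 163 = u ^ 80 * u ^ 83 := by ring
    have h4 := hpow 83 (by norm_num)
    have h5 : 0 < u ^ 80 := by positivity
    have h6 : u ^ 80 * 8 ≤ u ^ 80 * u ^ 83 := mul_le_mul_of_nonneg_left (by linarith) h5.le
    change 8 * (k : ℝ) ≤ D
    linarith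
  · have h3 : pm * (2 * n * β - 1 - k) ≤ pm * c := mul_le_mul_of_nonneg_left hc h0
    have h4 := hP.pm
    have h5 : pm * (k + 1) ≤ 1 := (mul_le_mul_of_nonneg_right h1 (by positivity)).trans hpk
    have h6 : (1 - (u ^ 40)⁻¹) * u ^ 200 ≤ 2 * n * pm := by linarith
    have h7 := mul_le_mul_of_nonneg_left h6 hβ0
    have h8 : β * ((1 - (u ^ 40)⁻¹) * u ^ 200) = A - (u ^ 40)⁻¹ * A := by
      rw [hAdef]
      ring
    have h9 : pm * (2 * n * β - 1 - k) = β * (2 * n * pm) - pm * (k + 1) := by ring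
    have h10 : (1 - (u ^ 36)⁻¹ / 4) * A = A - D / 4 := by
      rw [hDdef]
      ring
    rw [h10]
    rw [h8] at h7
    rw [h9] at h3
    linarith
  · have h3 : pp * c ≤ pp * (2 * n * β) := mul_le_mul_of_nonneg_left hc hpp0
    have h4 := hP.pp
    have h6 : 2 * n * pp = (1 + (u ^ 40)⁻¹) * u ^ 200 + pp := by linarith
    have h7 : pp * (2 * n * β) = β * (2 * n * pp) := by ring
    have h8 : β * ((1 + (u ^ 40)⁻¹) * u ^ 200 + pp) = A + (u ^ 40)⁻¹ * A + β * pp := by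
      rw [hAdef]
      ring
    have h9 : β * pp ≤ 1 := mul_le_one₀ hβ1 hpp0 h2
    have h10 : (1 + (u ^ 36)⁻¹ / 4) * A = A + D / 4 := by
      rw [hDdef]
      ring
    rw [h10]
    rw [h7, h6, h8] at h3
    linarith
  · have h3 : (u ^ 36)⁻¹ ^ 2 * A = (u ^ 36)⁻¹ * D := by
      rw [hDdef]
      ring
    have h4 : (u ^ 36)⁻¹ * (u ^ 163 / 2) = u ^ 127 / 2 := by
      field_simp
    have h5 : (u ^ 36)⁻¹ * (u ^ 163 / 2) ≤ (u ^ 36)⁻¹ * D :=
      mul_le_mul_of_nonneg_left hD (by positivity)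
    rw [h3]
    rw [h4] at h5
    linarith

theorem FBt_fin (hu : 1000 ≤ u) (h0 : 0 ≤ pp) (hn : (n : ℝ) = Real.exp (u ^ 200 / 2))
    (hpp : 2 * n * pp ≤ 1.01 * u ^ 200) (hk : u ^ 80 / 4 ≤ (k : ℝ)) :
    12 * (n : ℝ) ^ 2 * (8 * n * pp * Real.exp (-(u ^ 127 / 16))) ^ k ≤ 1 / u := by
  have hu1 : 1 ≤ u := by linarith
  have hu0 : 0 < u := by linarith
  have hpow : ∀ m : ℕ, 1 ≤ m → 1000 ≤ u ^ m := fun m hm =>
    hu.trans (le_self_pow₀ hu1 (by omega))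
  have h1 : 8 * n * pp ≤ 5 * u ^ 200 := by
    have : 0 < u ^ 200 := by positivity
    linarith
  have h2 : Real.exp (-(u ^ 127 / 16)) ≤ Real.exp (-(u ^ 126)) * Real.exp (-(u ^ 126)) := by
    rw [← Real.exp_add]
    refine Real.exp_le_exp.2 ?_
    have h3 : u ^ 127 = u ^ 126 * u := by ring
    have h4 : u ^ 126 * 32 ≤ u ^ 126 * u := mul_le_mul_of_nonneg_left (by linarith)
      (by positivity)
    linarith
  have h3 : 5 * u ^ 200 * Real.exp (-(u ^ 126)) ≤ 1 := by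
    have h4 : 5 * u ^ 200 ≤ Real.exp (u ^ 126) := by
      have h5 := Real.quadratic_le_exp_of_nonneg (x := u ^ 126) (by positivity)
      have h6 : (u ^ 126) ^ 2 = u ^ 200 * u ^ 52 := by ring
      have h7 := mul_le_mul_of_nonneg_left (hpow 52 (by norm_num))
        (by positivity : (0 : ℝ) ≤ u ^ 200)
      have h8 : 0 < u ^ 126 := by positivity
      have h9 : 0 < u ^ 200 := by positivity
      rw [h6] at h5
      linarith
    rw [Real.exp_neg, ← div_eq_mul_inv, div_le_one (Real.exp_pos _)]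
    exact h4
  have hn0 : (0 : ℝ) ≤ n := n.cast_nonneg
  have h4 : 8 * n * pp * Real.exp (-(u ^ 127 / 16)) ≤ Real.exp (-(u ^ 126)) := by
    calc 8 * n * pp * Real.exp (-(u ^ 127 / 16))
        ≤ 5 * u ^ 200 * (Real.exp (-(u ^ 126)) * Real.exp (-(u ^ 126))) :=
          mul_le_mul h1 h2 (Real.exp_pos _).le (by positivity)
      _ = (5 * u ^ 200 * Real.exp (-(u ^ 126))) * Real.exp (-(u ^ 126)) := by ring
      _ ≤ 1 * Real.exp (-(u ^ 126)) :=
          mul_le_mul_of_nonneg_right h3 (Real.exp_pos _).le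
      _ = Real.exp (-(u ^ 126)) := one_mul _
  have h5 : (8 * n * pp * Real.exp (-(u ^ 127 / 16))) ^ k ≤ Real.exp (-(u ^ 206 / 4)) := by
    refine (pow_le_pow_left₀ (by positivity) h4 k).trans ?_
    rw [← Real.exp_nat_mul]
    refine Real.exp_le_exp.2 ?_
    have h6 : u ^ 206 / 4 = u ^ 80 / 4 * u ^ 126 := by ring
    have h7 := mul_le_mul_of_nonneg_right hk (by positivity : (0 : ℝ) ≤ u ^ 126)
    rw [h6]
    linarith
  have h6 : (n : ℝ) ^ 2 = Real.exp (u ^ 200) := by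
    rw [hn, ← Real.exp_nat_mul]
    congr 1
    push_cast
    ring
  rw [h6]
  have h7 : Real.exp (u ^ 200) * Real.exp (-(u ^ 206 / 4)) ≤ Real.exp (-(u ^ 200)) := by
    rw [← Real.exp_add]
    refine Real.exp_le_exp.2 ?_
    have h8 : u ^ 206 = u ^ 200 * u ^ 6 := by ring
    have h9 := mul_le_mul_of_nonneg_left (hpow 6 (by norm_num))
      (by positivity : (0 : ℝ) ≤ u ^ 200)
    have h10 : 0 < u ^ 200 := by positivity
    rw [h8]
    linarith
  have h8 : 12 * Real.exp (-(u ^ 200)) ≤ 1 / u := by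
    have h9 : 12 * u ≤ Real.exp (u ^ 200) := by
      have h10 := Real.add_one_le_exp (u ^ 200)
      have h11 : u ^ 200 = u * u ^ 199 := by ring
      have h12 := mul_le_mul_of_nonneg_left (hpow 199 (by norm_num)) hu0.le
      linarith
    rw [le_div_iff₀ hu0, Real.exp_neg]
    have h10 : 12 * (Real.exp (u ^ 200))⁻¹ * u = 12 * u / Real.exp (u ^ 200) := by
      rw [div_eq_mul_inv]
      ring
    rw [h10, div_le_one (Real.exp_pos _)]
    exact h9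
  calc 12 * Real.exp (u ^ 200) * (8 * n * pp * Real.exp (-(u ^ 127 / 16))) ^ k
      ≤ 12 * Real.exp (u ^ 200) * Real.exp (-(u ^ 206 / 4)) :=
        mul_le_mul_of_nonneg_left h5 (by positivity)
    _ = 12 * (Real.exp (u ^ 200) * Real.exp (-(u ^ 206 / 4))) := by ring
    _ ≤ 12 * Real.exp (-(u ^ 200)) := mul_le_mul_of_nonneg_left h7 (by norm_num)
    _ ≤ 1 / u := h8

end num

theorem fb_prob : ∀ᶠ u : ℝ in atTop, ∀ (n : ℕ) (pm pp α : ℝ) (Z : Finset (Pt n)),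
    ParE n u pm pp → ZK n α Z → 1 / (2 * u) ≤ α → α ≤ 1 / u →
    Pr (qq pm pp) (fun s : J n → Fin 3 => ¬ ∀ a, (cnt (fun g : J n => g ∈ W1s n s ∧ g ∈ st n a ∧
      ∃ a' ∈ els n g, a' ≠ a ∧ BadT n u α Z (W0s n s) (W1s n s) a') : ℝ) ≤ u ^ 80) ≤ 1 / u := by
  filter_upwards [par_facts, eventually_ge_atTop (1000 : ℝ)] with u hu hu1000
  intro n pm pp α Z hP hZ hα hα1
  obtain ⟨e1, -, e3, e4, e5, e6, -, e8⟩ := hu n pm pp hP
  have hu0 : 0 < u := by linarith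
  have hu1 : 1 ≤ u := by linarith
  have h80 : 1000 ≤ u ^ 80 := hu1000.trans (le_self_pow₀ hu1 (by norm_num))
  have hk : ((⌊u ^ 80 / 2⌋₊ : ℕ) : ℝ) ≤ u ^ 80 / 2 := Nat.floor_le (by positivity)
  have hk' : u ^ 80 / 4 ≤ ((⌊u ^ 80 / 2⌋₊ : ℕ) : ℝ) := by
    have h3 := Nat.lt_floor_add_one (u ^ 80 / 2)
    linarith
  have hα2 : 1 / u ≤ 1 / 2 := one_div_le_one_div_of_le (by norm_num) (by linarith)
  have hα3 : 1 / (2 * u) ≤ 1 / 2 := one_div_le_one_div_of_le (by norm_num) (by linarith)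
  have hα0 : 0 ≤ 1 / (2 * u) := by positivity
  have hpp1 : pp ≤ 1 := by linarith
  obtain ⟨c0, d0⟩ := FBt_cond (β := 1 - α) hu1000 hP e4 e5 hpp1 e3 e8 hk (by linarith)
    (by linarith)
  obtain ⟨c1, d1⟩ := FBt_cond (β := α) hu1000 hP e4 e5 hpp1 e3 e8 hk hα (by linarith)
  have hδ : 0 < (u ^ 36)⁻¹ := by positivity
  have hδ1 : (u ^ 36)⁻¹ ≤ 1 / 2 := by
    rw [inv_le_comm₀ (by positivity) (by norm_num)]
    have h36 : 1000 ≤ u ^ 36 := hu1000.trans (le_self_pow₀ hu1 (by norm_num))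
    norm_num
    linarith
  have hq := FR.qq_nonneg e4 e5 hpp1
  refine (FR.Pr_mono hq fun s hs => FBt_ex hk hs).trans ?_
  refine (FBt_union hP.n1 hZ e4 e5 hpp1 hδ hδ1 c0 c1 (E := Real.exp (-(u ^ 127 / 16)))
    (Real.exp_le_exp.2 (by linarith)) (Real.exp_le_exp.2 (by linarith))).trans ?_
  exact FBt_fin hu1000 (e4.trans e5) e1 e8 hk'

end Pool.Agent.Lib.CD
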