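import Mathlib

/-!
# Two sums over sets

`sum_sets`: `exp (- c |S|) ≤ exp (- (c/2) |S|) exp (- c t₀ / 2)` for `|S| ≥ t₀`, and the sum of
`exp (- (c/2) |S|)` over all `S` is `(1 + exp (- c/2))^|X| ≤ exp (N exp (- c/2)) ≤ exp t₀`
(`Finset.sum_pow_mul_eq_add_pow`, or `Finset.prod_add`); `t₀ - c t₀ / 2 ≤ - t₀`.
`sum_small`: `1 ≤ θ^|R| θ^(-m)` for `|R| ≤ m`, and `∑_R θ^|R| = (1 + θ)^|X| ≤ exp (N θ)`.
-/

set_option autoImplicit false

namespace Pool.Agent.Lib.CD

open Finset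

private theorem GSum_all {X : Type} [Fintype X] [DecidableEq X] {N a : ℝ}
    (hN : (Fintype.card X : ℝ) ≤ N) (ha : 0 ≤ a) :
    ∑ S : Finset X, a ^ S.card ≤ Real.exp (N * a) := by
  have h1 := Finset.sum_pow_mul_eq_add_pow a (1 : ℝ) (univ : Finset X)
  simp only [one_pow, mul_one, Finset.powerset_univ] at h1
  rw [h1]
  have h2 : a + 1 ≤ Real.exp a := Real.add_one_le_exp a
  refine (pow_le_pow_left₀ (by linarith) h2 _).trans ?_
  rw [← Real.exp_nat_mul]
  refine Real.exp_le_exp.2 (mul_le_mul_of_nonneg_right ?_ ha)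
  rw [Finset.card_univ]
  exact hN

theorem sum_sets {X : Type} [Fintype X] [DecidableEq X] {N c t₀ : ℝ}
    (hN : (Fintype.card X : ℝ) ≤ N) (hc : 4 ≤ c) (h : N * Real.exp (-(c / 2)) ≤ t₀) :
    ∑ S ∈ (univ : Finset (Finset X)).filter (fun S => t₀ ≤ (S.card : ℝ)),
      Real.exp (-(c * S.card)) ≤ Real.exp (-t₀) := by
  have hN0 : 0 ≤ N := le_trans (Nat.cast_nonneg _) hN
  have ht : 0 ≤ t₀ := le_trans (mul_nonneg hN0 (Real.exp_pos _).le) h
  have h1 : ∀ S ∈ (univ : Finset (Finset X)).filter (fun S => t₀ ≤ (S.card : ℝ)),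
      Real.exp (-(c * S.card)) ≤ Real.exp (-(c / 2)) ^ S.card * Real.exp (-(c * t₀ / 2)) := by
    intro S hS
    have h2 := (Finset.mem_filter.1 hS).2
    rw [← Real.exp_nat_mul, ← Real.exp_add]
    refine Real.exp_le_exp.2 ?_
    nlinarith
  refine (Finset.sum_le_sum h1).trans ?_
  have h2 : ∑ S ∈ (univ : Finset (Finset X)).filter (fun S => t₀ ≤ (S.card : ℝ)),
      Real.exp (-(c / 2)) ^ S.card * Real.exp (-(c * t₀ / 2)) ≤
      ∑ S : Finset X, Real.exp (-(c / 2)) ^ S.card * Real.exp (-(c * t₀ / 2)) :=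
    Finset.sum_le_sum_of_subset_of_nonneg (Finset.filter_subset _ _)
      (fun _ _ _ => by positivity)
  refine h2.trans ?_
  rw [← Finset.sum_mul]
  refine (mul_le_mul_of_nonneg_right (GSum_all hN (Real.exp_pos _).le)
    (Real.exp_pos _).le).trans ?_
  rw [← Real.exp_add]
  refine Real.exp_le_exp.2 ?_
  nlinarith

theorem sum_small {X : Type} [Fintype X] [DecidableEq X] {N θ m : ℝ}
    (hN : (Fintype.card X : ℝ) ≤ N) (h0 : 0 < θ) (h1 : θ ≤ 1) :
    (((univ : Finset (Finset X)).filter (fun R => (R.card : ℝ) ≤ m)).card : ℝ) ≤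
      Real.exp (N * θ - m * Real.log θ) := by
  have hl : Real.log θ ≤ 0 := Real.log_nonpos h0.le h1
  have h2 : ∀ R ∈ (univ : Finset (Finset X)).filter (fun R => (R.card : ℝ) ≤ m),
      (1 : ℝ) ≤ θ ^ R.card * Real.exp (-(m * Real.log θ)) := by
    intro R hR
    have h3 := (Finset.mem_filter.1 hR).2
    have h4 : θ ^ R.card = Real.exp (R.card * Real.log θ) := by
      rw [Real.exp_nat_mul, Real.exp_log h0]
    rw [h4, ← Real.exp_add]
    refine Real.one_le_exp ?_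
    nlinarith
  have h3 : (((univ : Finset (Finset X)).filter (fun R => (R.card : ℝ) ≤ m)).card : ℝ) =
      ∑ R ∈ (univ : Finset (Finset X)).filter (fun R => (R.card : ℝ) ≤ m), (1 : ℝ) := by
    simp
  rw [h3]
  refine (Finset.sum_le_sum h2).trans ?_
  have h4 : ∑ R ∈ (univ : Finset (Finset X)).filter (fun R => (R.card : ℝ) ≤ m),
      θ ^ R.card * Real.exp (-(m * Real.log θ)) ≤
      ∑ R : Finset X, θ ^ R.card * Real.exp (-(m * Real.log θ)) :=
    Finset.sum_le_sum_of_subset_of_nonneg (Finset.filter_subset _ _)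
      (fun _ _ _ => by positivity)
  refine h4.trans ?_
  rw [← Finset.sum_mul]
  refine (mul_le_mul_of_nonneg_right (GSum_all hN h0.le) (Real.exp_pos _).le).trans ?_
  rw [← Real.exp_add, ← sub_eq_add_neg]

end Pool.Agent.Lib.CD
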