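import Pool.Agent.Lib.MP_dcb6ed_co_CD.Size
import Pool.Agent.Lib.MP_dcb6ed_co_CD.GSum

/-!
# The global sets of triples

`lks_gf`: `P ∉ Z`, `X, T ⊆ UP P`.  `Gd.large` gives
`|lks W0 P X T| ≥ u^200 / (4 n) · |X| |T| ≥ |X| u^196 / 16384` (`|T| ≥ n / (4096 u^4)`; if `n = 0`
there are no points).  A triple `g = {P, x, t}` of `lks W0 P X T` has `wJ g = 2` (`wJ_pair`), `g ∈ H`,
its elements `{P, x}`, `{P, t}` are not covered by `M` (`x, t ∈ UP P`, `ptE_inj`), the third element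
`{x, t}` has `wE = 2`.  So `g ∈ Gf`, or `g` is in `W1 ∩ st a_x`, `ptE a_x = {P, x}`, and has
an element with `wE = 2` in `cov M`; by `Stg.loss` there are at most `10 u^152` such `g` for every
`x ∈ X`.  So `|lks Gf P X T| ≥ |X| (u^196 / 16384 - 10 u^152) ≥ |X| u^196 / 32768`.

`glob_sum`: every `S` in the sum is `lks Gf P X T` with `T` one of the three sets determined by
`(P, X, R, j)`, `j ∈ Fin 3`; choose such `(P, X, R, j)` for every `S`, an injective map.
`|S| ≥ |X| u^196 / 32768`, so `|S| / (36 u^194) ≥ |X| u^2 / 1179648 =: |X| c'`.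
The sum is at most `∑_{P, j} ∑_{X : |X| ≥ x₀} exp (- c' |X|) #{R : |R| ≤ 4 |X|}`, where
`x₀ = n / (40 u^199)`.  `|Pt n| ≤ 4 n`.  By `sum_small` with `N = 4 n`, `θ = u^(-199)`, `m = 4 |X|`:
`#{R} ≤ exp (4 n u^(-199) + 4 · 199 · log u · |X|) ≤ exp (|X| (160 + 796 log u))` as
`4 n u^(-199) = 160 x₀`.  With `c = c' - 160 - 796 log u` (`c ≥ 4`, and
`4 n exp (- c/2) ≤ x₀`, i.e. `160 u^199 exp (- c/2) ≤ 1`, for large `u`), `sum_sets` gives
`∑_X ≤ exp (- x₀)`, so the sum is at most `12 n exp (- x₀)`.  For `n ≥ u^400`, `u` large: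
`x₀ = n / (40 u^199) ≥ √n (u^200 / (40 u^199)) ≥ √n`, and `12 n exp (- √n) ≤ 1/64` for large `n`.
-/

set_option autoImplicit false

namespace Pool.Agent.Lib.CD

open Finset Filter
open Pool.Agent.Lib.FR (J El Edge st Cf)

/-- a triple of `lks W0 P X T` is in `Gf`, or one of its elements with two special points is
covered -/
theorem Glob_split {n : ℕ} {Z : Finset (Pt n)} {W0 W1 H M : Finset (J n)} (h01 : W0 ⊆ W1)
    (hH : W0 ⊆ H) {P : Pt n} (hP : P ∉ Z) {X T : Finset (Pt n)} (hX : X ⊆ UP n Z M P)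
    (hT : T ⊆ UP n Z M P) (A : Pt n → El n) (hA : ∀ x ∈ X, ptE n (A x) = {P, x}) :
    ∀ g ∈ lks n W0 P X T, g ∈ lks n (Gf n Z H M) P X T ∨ ∃ x ∈ X,
      (g ∈ W1 ∧ g ∈ st n (A x) ∧ ∃ r ∈ els n g, wE n Z r = 2 ∧ r ∈ cov (els n) M) := by
  classical
  intro g hg
  unfold lks at hg
  obtain ⟨hg0, x, hx, t, ht, hxt, hxP, htP, hpt⟩ := mem_filter.1 hg
  have hx' := mem_filter.1 (hX hx)
  have ht' := mem_filter.1 (hT ht)
  obtain ⟨hxZ, a, ha, haM⟩ := hx'
  obtain ⟨htZ, b, hb, hbM⟩ := ht'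
  by_cases hgf : ∀ y ∈ els n g, y ∉ cov (els n) M
  · left
    unfold lks
    refine mem_filter.2 ⟨?_, x, hx, t, ht, hxt, hxP, htP, hpt⟩
    unfold Gf
    exact mem_filter.2 ⟨hH hg0, wJ_pair hP hxZ htZ hxt hpt, hgf⟩
  · right
    push Not at hgf
    obtain ⟨y, hy, hyM⟩ := hgf
    refine ⟨x, hx, h01 hg0, ?_, y, hy, ?_, hyM⟩
    · refine mem_els.1 (mem_els_iff.2 ?_)
      rw [hA x hx, hpt]
      intro s hs
      rcases mem_insert.1 hs with rfl | hs
      · exact mem_insert_self _ _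
      · rw [mem_singleton.1 hs]
        exact mem_insert_of_mem (mem_insert_self _ _)
    · have hys := mem_els_iff.1 hy
      rw [hpt] at hys
      have hPy : P ∉ ptE n y := by
        intro hPy
        have h2 : 1 < (ptE n y).card := by
          rw [card_ptE]
          omega
        obtain ⟨s, hs, hsP⟩ := exists_mem_ne h2 P
        have h3 : ptE n y = {P, s} := by
          symm
          apply eq_of_subset_of_card_le
          · intro q hq
            rcases mem_insert.1 hq with rfl | hq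
            · exact hPy
            · rw [mem_singleton.1 hq]
              exact hs
          · rw [card_ptE, card_pair hsP.symm]
        rcases mem_insert.1 (hys hs) with h4 | h4
        · exact hsP h4
        rcases mem_insert.1 h4 with h5 | h5
        · rw [h5, ← ha] at h3
          rw [ptE_inj h3] at hyM
          exact haM hyM
        · rw [mem_singleton.1 h5, ← hb] at h3
          rw [ptE_inj h3] at hyM
          exact hbM hyM
      unfold wE
      have h2 : ptE n y ∩ Z = ptE n y := by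
        rw [inter_eq_left]
        intro s hs
        rcases mem_insert.1 (hys hs) with h4 | h4
        · rw [h4] at hs
          exact absurd hs hPy
        rcases mem_insert.1 h4 with h5 | h5
        · rw [h5]
          exact hxZ
        · rw [mem_singleton.1 h5]
          exact htZ
      rw [h2, card_ptE]

theorem lks_gf : ∀ᶠ u : ℝ in atTop, ∀ (n : ℕ) (α : ℝ) (Z : Finset (Pt n))
    (W0 W1 H M : Finset (J n)), Gd n u α Z W0 W1 → W0 ⊆ H → Stg n u Z W1 H M →
    ∀ P, P ∉ Z → ∀ X T : Finset (Pt n), X ⊆ UP n Z M P → T ⊆ UP n Z M P →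
    Disjoint X T → Val n P X T → n / (40 * u ^ 199) ≤ (X.card : ℝ) →
    n / (4096 * u ^ 4) ≤ (T.card : ℝ) →
    X.card * (u ^ 196 / 32768) ≤ ((lks n (Gf n Z H M) P X T).card : ℝ) := by
  classical
  filter_upwards [eventually_ge_atTop (2 : ℝ)] with u hu
  intro n α Z W0 W1 H M hg hH hM P hP X T hX hT hdis hval hXc hTc
  have hu0 : (0 : ℝ) < u := by linarith
  have hn : 0 < n := by
    rcases Nat.eq_zero_or_pos n with h | h
    · subst h
      rcases P with v | c
      · exact absurd v.isLt (by omega)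
      · exact absurd c.isLt (by omega)
    · exact h
  have hnR : (0 : ℝ) < n := by exact_mod_cast hn
  have hex : ∀ x : Pt n, ∃ a : El n, x ∈ X → ptE n a = {P, x} ∧ a ∉ cov (els n) M := by
    intro x
    by_cases hx : x ∈ X
    · obtain ⟨-, a, ha, haM⟩ := mem_filter.1 (hX hx)
      exact ⟨a, fun _ => ⟨ha, haM⟩⟩
    · obtain ⟨a⟩ : Nonempty (El n) := by
        obtain ⟨v, hv⟩ : ∃ v : Fin (2 * n), True := ⟨⟨0, by omega⟩, trivial⟩
        obtain ⟨c, hc⟩ : ∃ c : Fin (2 * n - 1), True := ⟨⟨0, by omega⟩, trivial⟩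
        exact ⟨Sum.inr (v, c)⟩
      exact ⟨a, fun h => absurd h hx⟩
  choose A hA using hex
  have hsplit := Glob_split hg.sub hH hP hX hT A fun x hx => (hA x hx).1
  have hcard : ((lks n W0 P X T).card : ℝ) ≤ ((lks n (Gf n Z H M) P X T).card : ℝ) +
      X.card * (10 * u ^ 152) := by
    have h1 : lks n W0 P X T ⊆ lks n (Gf n Z H M) P X T ∪ X.biUnion fun x =>
        univ.filter fun g : J n => g ∈ W1 ∧ g ∈ st n (A x) ∧
          ∃ r ∈ els n g, wE n Z r = 2 ∧ r ∈ cov (els n) M := by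
      intro g hg'
      rcases hsplit g hg' with h | ⟨x, hx, h⟩
      · exact mem_union_left _ h
      · exact mem_union_right _ (mem_biUnion.2 ⟨x, hx, mem_filter.2 ⟨mem_univ _, h⟩⟩)
    have h2 := (card_le_card h1).trans ((card_union_le _ _).trans
      (Nat.add_le_add_left card_biUnion_le _))
    have h3 : ((∑ x ∈ X, (univ.filter fun g : J n => g ∈ W1 ∧ g ∈ st n (A x) ∧
          ∃ r ∈ els n g, wE n Z r = 2 ∧ r ∈ cov (els n) M).card : ℕ) : ℝ) ≤
        X.card * (10 * u ^ 152) := by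
      push_cast
      rw [← nsmul_eq_mul]
      refine sum_le_card_nsmul _ _ _ fun x hx => ?_
      have hxZ := (mem_filter.1 (hX hx)).1
      have h4 := hM.loss (A x) (wE_pair hP hxZ (hA x hx).1) (hA x hx).2
      have h5 : (univ.filter fun g : J n => g ∈ W1 ∧ g ∈ st n (A x) ∧
          ∃ r ∈ els n g, wE n Z r = 2 ∧ r ∈ cov (els n) M).card =
          cnt (fun g : J n => g ∈ W1 ∧ g ∈ st n (A x) ∧
            ∃ r ∈ els n g, wE n Z r = 2 ∧ r ∈ cov (els n) M) := by
        unfold cnt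
        congr
      rw [h5]
      exact h4
    have h4 : ((lks n W0 P X T).card : ℝ) ≤ (((lks n (Gf n Z H M) P X T).card +
        ∑ x ∈ X, (univ.filter fun g : J n => g ∈ W1 ∧ g ∈ st n (A x) ∧
          ∃ r ∈ els n g, wE n Z r = 2 ∧ r ∈ cov (els n) M).card : ℕ) : ℝ) := by
      exact_mod_cast h2
    rw [Nat.cast_add] at h4
    linarith
  have hlarge := hg.large P X T hval hdis hXc hTc
  have h5 : (X.card : ℝ) * (u ^ 196 / 16384) ≤ u ^ 200 / (4 * n) * (X.card * T.card) := by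
    have h6 : u ^ 200 / (4 * n) * (X.card * (n / (4096 * u ^ 4))) ≤
        u ^ 200 / (4 * n) * (X.card * T.card) := by
      refine mul_le_mul_of_nonneg_left ?_ (by positivity)
      exact mul_le_mul_of_nonneg_left hTc (Nat.cast_nonneg _)
    refine le_trans (le_of_eq ?_) h6
    field_simp
    ring
  have h7 : 10 * u ^ 152 ≤ u ^ 196 / 32768 := by
    have h8 : (2 : ℝ) ^ 44 ≤ u ^ 44 := pow_le_pow_left₀ (by norm_num) hu 44
    have h9 : (0 : ℝ) < u ^ 152 := by positivity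
    have h10 : u ^ 196 = u ^ 152 * u ^ 44 := by ring
    rw [h10]
    have h11 : (327680 : ℝ) ≤ u ^ 44 := le_trans (by norm_num) h8
    nlinarith
  have h8 : (X.card : ℝ) * (10 * u ^ 152) ≤ X.card * (u ^ 196 / 32768) :=
    mul_le_mul_of_nonneg_left h7 (Nat.cast_nonneg _)
  have h9 : (X.card : ℝ) * (u ^ 196 / 16384) = X.card * (u ^ 196 / 32768) +
      X.card * (u ^ 196 / 32768) := by ring
  linarith

open Classical in
/-- the global sets -/
noncomputable def Gls (n : ℕ) (u : ℝ) (Z : Finset (Pt n)) (H M : Finset (J n)) :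
    Finset (Finset (J n)) :=
  univ.filter (fun S => ∃ P, P ∉ Z ∧ ∃ X R T : Finset (Pt n), X ⊆ UP n Z M P ∧
    T ⊆ UP n Z M P ∧ Disjoint X T ∧ Val n P X T ∧ n / (40 * u ^ 199) ≤ (X.card : ℝ) ∧
    n / (4096 * u ^ 4) ≤ (T.card : ℝ) ∧ R.card ≤ 4 * X.card ∧
    (T = UP n Z M P \ (X ∪ R) ∨
      T = (UP n Z M P).filter (fun z => z.isLeft = true) \ (X ∪ R) ∨
      T = (UP n Z M P).filter (fun z => z.isRight = true) \ (X ∪ R)) ∧
    S = lks n (Gf n Z H M) P X T)

/-- sums over the images of indices -/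
theorem Glob_idx {A B : Type} [DecidableEq A] (G : Finset A) (D : Finset B) (w : A → ℝ)
    (f : B → ℝ) (hf : ∀ q, 0 ≤ f q) (F : B → A)
    (h1 : ∀ S ∈ G, ∃ q ∈ D, F q = S ∧ w S ≤ f q) :
    ∑ S ∈ G, w S ≤ ∑ q ∈ D, f q := by
  classical
  calc ∑ S ∈ G, w S ≤ ∑ S ∈ G, ∑ q ∈ D with F q = S, f q := by
        refine sum_le_sum fun S hS => ?_
        obtain ⟨q, hq, hFq, hw⟩ := h1 S hS
        exact hw.trans (single_le_sum (f := f) (fun i _ => hf i) (mem_filter.2 ⟨hq, hFq⟩))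
    _ = ∑ q ∈ D with F q ∈ G, f q := sum_fiberwise_eq_sum_filter D G F f
    _ ≤ ∑ q ∈ D, f q := sum_le_sum_of_subset_of_nonneg (filter_subset _ _) fun i _ _ => hf i

/-- numbers -/
theorem Glob_num {u : ℝ} (hu : 10 ^ 10 ≤ u) :
    4 ≤ u ^ 2 / 1179648 - 160 - 796 * Real.log u ∧
      160 * u ^ 199 * Real.exp (-((u ^ 2 / 1179648 - 160 - 796 * Real.log u) / 2)) ≤ 1 := by
  have hu0 : (0 : ℝ) < u := by linarith
  have hl : Real.log u ≤ u := (Real.log_le_sub_one_of_pos hu0).trans (by linarith)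
  have h1 : 480 + 1194 * u ≤ u ^ 2 / 1179648 := by
    rw [le_div_iff₀ (by norm_num)]
    nlinarith
  constructor
  · nlinarith
  · have h2 : 160 * u ^ 199 ≤ Real.exp ((u ^ 2 / 1179648 - 160 - 796 * Real.log u) / 2) := by
      have h3 : u ^ 199 = Real.exp (199 * Real.log u) := by
        rw [mul_comm, Real.exp_mul, Real.exp_log hu0]
        norm_cast
      have h4 : (160 : ℝ) ≤ Real.exp 160 := by
        have := Real.add_one_le_exp (160 : ℝ)
        linarith
      calc 160 * u ^ 199 ≤ Real.exp 160 * Real.exp (199 * Real.log u) := by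
            rw [← h3]
            exact mul_le_mul_of_nonneg_right h4 (by positivity)
        _ = Real.exp (160 + 199 * Real.log u) := (Real.exp_add _ _).symm
        _ ≤ _ := Real.exp_le_exp.2 (by linarith)
    rw [Real.exp_neg, ← div_eq_mul_inv]
    exact (div_le_one (Real.exp_pos _)).2 h2

/-- the sum over all indices -/
theorem Glob_total {n : ℕ} {u : ℝ} (hu : 10 ^ 10 ≤ u) (hn : u ^ 400 ≤ n) :
    ∑ q ∈ (univ : Finset (Pt n × Fin 3 × Finset (Pt n) × Finset (Pt n))).filter (fun q =>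
      n / (40 * u ^ 199) ≤ (q.2.2.1.card : ℝ) ∧ (q.2.2.2.card : ℝ) ≤ 4 * q.2.2.1.card),
      Real.exp (-(u ^ 2 / 1179648 * q.2.2.1.card)) ≤ 1 / 64 := by
  classical
  have hu0 : (0 : ℝ) < u := by linarith
  obtain ⟨hc4, hc5⟩ := Glob_num hu
  obtain ⟨c, hc⟩ : ∃ c : ℝ, c = u ^ 2 / 1179648 - 160 - 796 * Real.log u := ⟨_, rfl⟩
  obtain ⟨x₀, hx₀⟩ : ∃ x₀ : ℝ, x₀ = n / (40 * u ^ 199) := ⟨_, rfl⟩
  rw [← hc] at hc4 hc5
  rw [← hx₀]
  have hnR : (0 : ℝ) < n := lt_of_lt_of_le (by positivity) hn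
  have hPt : (Fintype.card (Pt n) : ℝ) ≤ 4 * n := by
    have h1 : Fintype.card (Pt n) ≤ 4 * n := by
      rw [Fintype.card_sum, Fintype.card_fin, Fintype.card_fin]
      omega
    exact_mod_cast h1
  have hR : ∀ X : Finset (Pt n), x₀ ≤ (X.card : ℝ) →
      (((univ : Finset (Finset (Pt n))).filter fun R => (R.card : ℝ) ≤ 4 * X.card).card : ℝ) *
        Real.exp (-(u ^ 2 / 1179648 * X.card)) ≤ Real.exp (-(c * X.card)) := by
    intro X hX
    have h1 := sum_small (X := Pt n) (N := 4 * n) (θ := (u ^ 199)⁻¹) (m := 4 * X.card) hPt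
      (by positivity) (inv_le_one_of_one_le₀ (one_le_pow₀ (by linarith)))
    refine (mul_le_mul_of_nonneg_right h1 (Real.exp_pos _).le).trans ?_
    rw [← Real.exp_add]
    refine Real.exp_le_exp.2 ?_
    have h2 : Real.log (u ^ 199)⁻¹ = -(199 * Real.log u) := by
      rw [Real.log_inv, Real.log_pow]
      norm_num
    have h3 : 4 * (n : ℝ) * (u ^ 199)⁻¹ = 160 * x₀ := by
      rw [hx₀]
      field_simp
      norm_num
    rw [h2, h3, hc]
    nlinarith
  have hX : ∑ X : Finset (Pt n), (if x₀ ≤ (X.card : ℝ) then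
      (((univ : Finset (Finset (Pt n))).filter fun R => (R.card : ℝ) ≤ 4 * X.card).card : ℝ) *
        Real.exp (-(u ^ 2 / 1179648 * X.card)) else 0) ≤ Real.exp (-x₀) := by
    rw [← sum_filter]
    refine (sum_le_sum fun X hX => hR X (mem_filter.1 hX).2).trans ?_
    refine sum_sets hPt hc4 ?_
    have h1 : 4 * (n : ℝ) * Real.exp (-(c / 2)) =
        (160 * u ^ 199 * Real.exp (-(c / 2))) * x₀ := by
      rw [hx₀]
      field_simp
      norm_num
    rw [h1]
    have h2 : 0 ≤ x₀ := by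
      rw [hx₀]
      positivity
    exact mul_le_of_le_one_left h2 hc5
  have hsum : ∑ q ∈ (univ : Finset (Pt n × Fin 3 × Finset (Pt n) × Finset (Pt n))).filter
      (fun q => x₀ ≤ (q.2.2.1.card : ℝ) ∧ (q.2.2.2.card : ℝ) ≤ 4 * q.2.2.1.card),
      Real.exp (-(u ^ 2 / 1179648 * q.2.2.1.card)) =
      ∑ _P : Pt n, ∑ _j : Fin 3, ∑ X : Finset (Pt n), (if x₀ ≤ (X.card : ℝ) then
      (((univ : Finset (Finset (Pt n))).filter fun R => (R.card : ℝ) ≤ 4 * X.card).card : ℝ) *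
        Real.exp (-(u ^ 2 / 1179648 * X.card)) else 0) := by
    rw [sum_filter, Fintype.sum_prod_type]
    refine sum_congr rfl fun P _ => ?_
    rw [Fintype.sum_prod_type]
    refine sum_congr rfl fun j _ => ?_
    rw [Fintype.sum_prod_type]
    refine sum_congr rfl fun X _ => ?_
    by_cases h1 : x₀ ≤ (X.card : ℝ)
    · rw [if_pos h1, ← nsmul_eq_mul, ← sum_const, sum_filter]
      refine sum_congr rfl fun R _ => ?_
      dsimp only
      by_cases h2 : (R.card : ℝ) ≤ 4 * X.card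
      · rw [if_pos ⟨h1, h2⟩, if_pos h2]
      · rw [if_neg (fun h => h2 h.2), if_neg h2]
    · rw [if_neg h1]
      refine sum_eq_zero fun R _ => ?_
      exact if_neg (fun h => h1 h.1)
  rw [hsum, sum_const, sum_const, card_univ, card_univ, Fintype.card_fin, nsmul_eq_mul,
    nsmul_eq_mul]
  have h3 : (3 : ℝ) * ∑ X : Finset (Pt n), (if x₀ ≤ (X.card : ℝ) then
      (((univ : Finset (Finset (Pt n))).filter fun R => (R.card : ℝ) ≤ 4 * X.card).card : ℝ) *
        Real.exp (-(u ^ 2 / 1179648 * X.card)) else 0) ≤ 3 * Real.exp (-x₀) := by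
    linarith
  have h4 : (Fintype.card (Pt n) : ℝ) * (((3 : ℕ) : ℝ) * ∑ X : Finset (Pt n),
      (if x₀ ≤ (X.card : ℝ) then
      (((univ : Finset (Finset (Pt n))).filter fun R => (R.card : ℝ) ≤ 4 * X.card).card : ℝ) *
        Real.exp (-(u ^ 2 / 1179648 * X.card)) else 0)) ≤ 4 * n * (3 * Real.exp (-x₀)) := by
    push_cast
    refine (mul_le_mul_of_nonneg_left h3 (Nat.cast_nonneg _)).trans ?_
    exact mul_le_mul_of_nonneg_right hPt (by positivity)
  refine h4.trans ?_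
  have hx0 : 0 ≤ x₀ := by
    rw [hx₀]
    positivity
  have h5 : 768 * (n : ℝ) ≤ Real.exp x₀ := by
    have h6 := Real.quadratic_le_exp_of_nonneg hx0
    have h7 : 1536 * (n : ℝ) ≤ x₀ ^ 2 := by
      rw [hx₀, div_pow, le_div_iff₀ (by positivity)]
      have h8 : 1536 * 1600 ≤ u ^ 2 := by nlinarith
      have h9 : (0 : ℝ) < u ^ 398 := by positivity
      have h10 : (1536 * 1600) * u ^ 398 ≤ u ^ 400 := by
        calc (1536 * 1600) * u ^ 398 ≤ u ^ 2 * u ^ 398 :=
              mul_le_mul_of_nonneg_right h8 h9.le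
          _ = u ^ 400 := by ring
      calc 1536 * (n : ℝ) * (40 * u ^ 199) ^ 2 = (n : ℝ) * ((1536 * 1600) * u ^ 398) := by ring
        _ ≤ (n : ℝ) * n := mul_le_mul_of_nonneg_left (h10.trans hn) hnR.le
        _ = (n : ℝ) ^ 2 := by ring
    linarith
  rw [Real.exp_neg]
  have h6 : 4 * (n : ℝ) * (3 * (Real.exp x₀)⁻¹) = 12 * n / Real.exp x₀ := by
    rw [div_eq_mul_inv]
    ring
  rw [h6, div_le_iff₀ (Real.exp_pos _)]
  linarith

theorem glob_sum : ∀ᶠ u : ℝ in atTop, ∀ (n : ℕ) (α : ℝ), u ^ 400 ≤ n →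
    ∀ (Z : Finset (Pt n)) (W0 W1 H M : Finset (J n)), Gd n u α Z W0 W1 → W0 ⊆ H →
    Stg n u Z W1 H M →
    ∑ S ∈ Gls n u Z H M, Real.exp (-((S.card : ℝ) / (2 * (18 * u ^ 194)))) ≤ 1 / 64 := by
  classical
  filter_upwards [eventually_ge_atTop (10 ^ 10 : ℝ), lks_gf] with u hu hlks
  intro n α hn Z W0 W1 H M hg hH hM
  have hu0 : (0 : ℝ) < u := by linarith
  refine (Glob_idx (Gls n u Z H M)
    ((univ : Finset (Pt n × Fin 3 × Finset (Pt n) × Finset (Pt n))).filter (fun q =>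
      n / (40 * u ^ 199) ≤ (q.2.2.1.card : ℝ) ∧ (q.2.2.2.card : ℝ) ≤ 4 * q.2.2.1.card))
    (fun S => Real.exp (-((S.card : ℝ) / (2 * (18 * u ^ 194)))))
    (fun q => Real.exp (-(u ^ 2 / 1179648 * q.2.2.1.card))) (fun q => (Real.exp_pos _).le)
    (fun q => lks n (Gf n Z H M) q.1 q.2.2.1
      (if q.2.1 = 0 then UP n Z M q.1 \ (q.2.2.1 ∪ q.2.2.2) else
        if q.2.1 = 1 then (UP n Z M q.1).filter (fun z => z.isLeft = true) \
          (q.2.2.1 ∪ q.2.2.2) else
        (UP n Z M q.1).filter (fun z => z.isRight = true) \ (q.2.2.1 ∪ q.2.2.2))) ?_).trans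
    (Glob_total hu hn)
  intro S hS
  unfold Gls at hS
  obtain ⟨-, P, hP, X, R, T, hX, hT, hdis, hval, hXc, hTc, hR, hTT, hSS⟩ := mem_filter.1 hS
  have hw : Real.exp (-((S.card : ℝ) / (2 * (18 * u ^ 194)))) ≤
      Real.exp (-(u ^ 2 / 1179648 * X.card)) := by
    refine Real.exp_le_exp.2 (neg_le_neg ?_)
    have h1 := hlks n α Z W0 W1 H M hg hH hM P hP X T hX hT hdis hval hXc hTc
    rw [← hSS] at h1
    rw [le_div_iff₀ (by positivity)]
    refine le_trans (le_of_eq ?_) h1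
    ring
  have hR' : (R.card : ℝ) ≤ 4 * X.card := by exact_mod_cast hR
  rcases hTT with h | h | h
  · refine ⟨(P, 0, X, R), mem_filter.2 ⟨mem_univ _, hXc, hR'⟩, ?_, hw⟩
    dsimp only
    rw [if_pos rfl, ← h]
    exact hSS.symm
  · refine ⟨(P, 1, X, R), mem_filter.2 ⟨mem_univ _, hXc, hR'⟩, ?_, hw⟩
    dsimp only
    rw [if_neg (by decide), if_pos rfl, ← h]
    exact hSS.symm
  · refine ⟨(P, 2, X, R), mem_filter.2 ⟨mem_univ _, hXc, hR'⟩, ?_, hw⟩
    dsimp only
    rw [if_neg (by decide), if_neg (by decide), ← h]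
    exact hSS.symm

end Pool.Agent.Lib.CD
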