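import Pool.Agent.Lib.MP_dcb6ed_co_CD.EBas
import Pool.Agent.Lib.MP_dcb6ed_co_CD.GSum

/-!
# Links between large sets

Fix `P, X, T` with `Val n P X T`, `X, T` disjoint, `|X| ≥ x₀ = n / (40 u^199)`,
`|T| ≥ t₀ = n / (4096 u^4)`.  The set `Y = lks n univ P X T` of all triples `{P, x, t}` has exactly `|X| |T|`
elements (`Val`; `{P, x, t} = {P, x', t'}` implies `x = x'`, `t = t'` because `X` and `T` are disjoint and
`P, x, t` are different: `ptJ g` has three elements).  Let `μ = u^200 / (2 n) · |X| |T|`.  By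
`FR.low_tail` with `X = ∅`, this `Y`, `lam = 1`, `k = μ / 2`, and `pm ≥ 0.99 u^200 / (2 n)`:
`P (|lks W0 P X T| ≤ μ / 2) ≤ exp (μ / 2 - (1 - 1/e) 0.99 μ) ≤ exp (- μ / 8)`
(`(1 - 1/e) · 0.99 ≥ 0.6257`; `1/e ≤ 0.3679`).
`μ / 8 = u^200 |X| |T| / (16 n) ≥ |T| u / 1280 + |X| u^196 / 131072` (half of it with `|X| ≥ x₀`,
half of it with `|T| ≥ t₀`).
Union bound: `∑_P ∑_X ∑_T exp (- μ / 8) ≤ 4 n · ∑_X exp (- (u^196 / 131072) |X|) ·
∑_T exp (- (u / 1280) |T|)`, sums over `|X| ≥ x₀`, `|T| ≥ t₀`.  By `sum_sets` with `N = 4 n`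
(`4 n exp (- u^196 / 262144) ≤ x₀` and `4 n exp (- u / 2560) ≤ t₀` for large `u`) this is at most
`4 n exp (- x₀) exp (- t₀) ≤ 4 n exp (- t₀)`; `t₀ = n / (4096 u^4) ≥ √n ≥ u^100` as `n ≥ u^10000`,
and `4 n exp (- √n) ≤ 1 / u` for large `u`.
-/

set_option autoImplicit false

namespace Pool.Agent.Lib.CD

open Finset Filter
open Pool.Agent.Lib.FR (J El Edge st Cf qq Pr)

theorem LargeP_card {n : ℕ} {P : Pt n} {X T : Finset (Pt n)} (hV : Val n P X T)
    (hd : Disjoint X T) : X.card * T.card ≤ (lks n univ P X T).card := by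
  classical
  have hne : ∀ x ∈ X, ∀ t ∈ T, ∀ g : J n, ptJ n g = {P, x, t} → x ≠ t ∧ x ≠ P ∧ t ≠ P := by
    intro x hx t ht g hg
    have h3 := card_ptJ g
    rw [hg] at h3
    refine ⟨?_, ?_, ?_⟩
    · rintro rfl
      have : ({P, x, x} : Finset (Pt n)).card ≤ 2 := by
        rw [Finset.pair_eq_singleton]
        exact Finset.card_le_two
      omega
    · rintro rfl
      have : ({x, x, t} : Finset (Pt n)).card ≤ 2 := by
        rw [Finset.insert_eq_of_mem (Finset.mem_insert_self x {t})]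
        exact Finset.card_le_two
      omega
    · rintro rfl
      have : ({t, x, t} : Finset (Pt n)).card ≤ 2 := by
        rw [Finset.insert_eq_of_mem (by simp)]
        exact Finset.card_le_two
      omega
  have H : ∀ p : {p // p ∈ X ×ˢ T}, ∃ g : J n, ptJ n g = {P, p.1.1, p.1.2} := by
    rintro ⟨⟨x, t⟩, hp⟩
    rw [Finset.mem_product] at hp
    exact hV x hp.1 t hp.2
  choose f hf using H
  have hcard : X.card * T.card = (X ×ˢ T).attach.card := by
    rw [Finset.card_attach, Finset.card_product]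
  rw [hcard]
  refine Finset.card_le_card_of_injOn f ?_ ?_
  · rintro ⟨⟨x, t⟩, hp⟩ -
    have hp' := Finset.mem_product.1 hp
    have h1 := hf ⟨(x, t), hp⟩
    have h2 := hne x hp'.1 t hp'.2 _ h1
    refine Finset.mem_coe.2 (Finset.mem_filter.2 ⟨Finset.mem_univ _, x, hp'.1, t, hp'.2, ?_⟩)
    exact ⟨h2.1, h2.2.1, h2.2.2, h1⟩
  · rintro ⟨⟨x, t⟩, hp⟩ - ⟨⟨x', t'⟩, hp'⟩ - hff
    have hq := Finset.mem_product.1 hp
    have hq' := Finset.mem_product.1 hp'
    have h1 := hf ⟨(x, t), hp⟩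
    have h1' := hf ⟨(x', t'), hp'⟩
    have h2 := hne x hq.1 t hq.2 _ h1
    rw [hff] at h1
    have h3 : ({P, x, t} : Finset (Pt n)) = {P, x', t'} := h1.symm.trans h1'
    have hx : x ∈ ({P, x', t'} : Finset (Pt n)) := by rw [← h3]; simp
    have ht : t ∈ ({P, x', t'} : Finset (Pt n)) := by rw [← h3]; simp
    rw [Finset.mem_insert, Finset.mem_insert, Finset.mem_singleton] at hx ht
    have ex : x = x' := by
      rcases hx with h | h | h
      · exact absurd h h2.2.1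
      · exact h
      · exact absurd (h ▸ hq'.2) (Finset.disjoint_left.1 hd hq.1)
    have et : t = t' := by
      rcases ht with h | h | h
      · exact absurd h h2.2.2
      · exact absurd hq.2 (Finset.disjoint_left.1 hd (h ▸ hq'.1))
      · exact h
    subst ex et
    rfl

theorem LargeP_filter (n : ℕ) (s : J n → Fin 3) (P : Pt n) (X T : Finset (Pt n)) :
    lks n (W0s n s) P X T = (lks n univ P X T).filter (fun i => s i = 2) := by
  classical
  ext g
  unfold lks W0s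
  simp only [Finset.mem_filter, Finset.mem_univ, true_and]
  tauto

/-- one choice of the sets -/
theorem LargeP_one {n : ℕ} {u pm pp : ℝ} (hn : 1 ≤ n) (h0 : 0 ≤ pm) (h1 : pm ≤ pp) (h2 : pp ≤ 1)
    (hu : 0 ≤ u) (hpm : 0.99 * u ^ 200 ≤ 2 * n * pm) {P : Pt n} {X T : Finset (Pt n)}
    (hV : Val n P X T) (hd : Disjoint X T) :
    Pr (qq pm pp) (fun s : J n → Fin 3 =>
      ((lks n (W0s n s) P X T).card : ℝ) < u ^ 200 / (4 * n) * (X.card * T.card)) ≤
      Real.exp (-(u ^ 200 / (16 * n) * (X.card * T.card))) := by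
  have hn0 : (0 : ℝ) < n := by exact_mod_cast hn
  have hlow := FR.low_tail (I := J n) h0 h1 h2 ∅ (lks n univ P X T) (Finset.disjoint_empty_left _)
    (lam := 1) zero_le_one (u ^ 200 / (4 * n) * (X.card * T.card))
  refine (FR.Pr_mono (FR.qq_nonneg h0 h1 h2) ?_).trans (hlow.trans ?_)
  · intro s hs
    refine ⟨by simp, ?_⟩
    rw [LargeP_filter] at hs
    exact hs.le
  · rw [Finset.card_empty, pow_zero, one_mul]
    refine Real.exp_le_exp.2 ?_
    have hc : ((X.card : ℝ) * T.card) ≤ ((lks n univ P X T).card : ℝ) := by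
      exact_mod_cast LargeP_card hV hd
    set A : ℝ := (X.card : ℝ) * T.card with hA
    have hA0 : 0 ≤ A := by positivity
    have he : Real.exp (-1) ≤ 0.3679 := by
      rw [Real.exp_neg]
      have := Real.exp_one_gt_d9
      rw [inv_le_comm₀ (Real.exp_pos 1) (by norm_num)]
      linarith [show (0.3679 : ℝ)⁻¹ ≤ 2.7182 by norm_num]
    have h3 : (1 - 0.3679) * pm * A ≤ (1 - Real.exp (-1)) * pm * (lks n univ P X T).card := by
      have h4 : (1 - 0.3679) * pm ≤ (1 - Real.exp (-1)) * pm :=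
        mul_le_mul_of_nonneg_right (by linarith) h0
      have h5 : 0 ≤ (1 - 0.3679) * pm := mul_nonneg (by norm_num) h0
      exact mul_le_mul h4 hc hA0 (h5.trans h4)
    have h6 : 0.99 * u ^ 200 / (2 * n) ≤ pm := by
      rw [div_le_iff₀ (by positivity)]
      linarith
    have h7 : (1 - 0.3679) * (0.99 * u ^ 200 / (2 * n)) * A ≤ (1 - 0.3679) * pm * A :=
      mul_le_mul_of_nonneg_right (mul_le_mul_of_nonneg_left h6 (by norm_num)) hA0
    have e1 : u ^ 200 / (4 * n) * A = (u ^ 200 / n * A) / 4 := by field_simp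
    have e2 : u ^ 200 / (16 * n) * A = (u ^ 200 / n * A) / 16 := by field_simp
    have e3 : (1 - 0.3679) * (0.99 * u ^ 200 / (2 * n)) * A =
        (u ^ 200 / n * A) * ((1 - 0.3679) * 0.99 / 2) := by field_simp
    have h8 : 0 ≤ u ^ 200 / n * A := mul_nonneg (div_nonneg (pow_nonneg hu 200) hn0.le) hA0
    rw [e3] at h7
    rw [e1, e2]
    norm_num at h7 ⊢
    linarith

theorem LargeP_num : ∀ᶠ u : ℝ in atTop, 1 ≤ u ∧ 4 ≤ u ^ 196 / 131072 ∧ 4 ≤ u / 1280 ∧
    160 * u ^ 199 * Real.exp (-(u ^ 196 / 131072 / 2)) ≤ 1 ∧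
    16384 * u ^ 4 * Real.exp (-(u / 1280 / 2)) ≤ 1 ∧ (4096 * u ^ 4) ^ 2 ≤ u ^ 10000 ∧
    u ^ 2 ≤ u ^ 10000 := by
  filter_upwards [eventually_ge_atTop ((10 : ℝ) ^ 24)] with u hu
  have h1 : (1 : ℝ) ≤ u := le_trans (by norm_num) hu
  have hu0 : (0 : ℝ) < u := by linarith
  have h2 : u ≤ u ^ 196 := le_self_pow₀ h1 (by norm_num)
  refine ⟨h1, ?_, ?_, ?_, ?_, ?_, ?_⟩
  · rw [le_div_iff₀ (by norm_num)]
    linarith [show (4 : ℝ) * 131072 ≤ 10 ^ 24 by norm_num]
  · rw [le_div_iff₀ (by norm_num)]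
    linarith [show (4 : ℝ) * 1280 ≤ 10 ^ 24 by norm_num]
  · rw [Real.exp_neg, ← div_eq_mul_inv, div_le_one (Real.exp_pos _)]
    have h3 := Real.pow_div_factorial_le_exp (u ^ 196 / 131072 / 2) (by positivity) 2
    refine le_trans ?_ h3
    have e : (u ^ 196 / 131072 / 2) ^ 2 / (Nat.factorial 2 : ℝ) =
        u ^ 199 * (u ^ 193 / (2 * (131072 * 2) ^ 2)) := by
      norm_num [Nat.factorial]
      ring
    rw [e, mul_comm]
    refine mul_le_mul_of_nonneg_left ?_ (by positivity)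
    rw [le_div_iff₀ (by norm_num)]
    have h4 : u ≤ u ^ 193 := le_self_pow₀ h1 (by norm_num)
    have h5 : (160 : ℝ) * (2 * (131072 * 2) ^ 2) ≤ 10 ^ 24 := by norm_num
    linarith
  · rw [Real.exp_neg, ← div_eq_mul_inv, div_le_one (Real.exp_pos _)]
    have h3 := Real.pow_div_factorial_le_exp (u / 1280 / 2) (by positivity) 5
    refine le_trans ?_ h3
    have e : (u / 1280 / 2) ^ 5 / (Nat.factorial 5 : ℝ) =
        u ^ 4 * (u / (120 * (1280 * 2) ^ 5)) := by
      norm_num [Nat.factorial]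
      ring
    rw [e, mul_comm]
    refine mul_le_mul_of_nonneg_left ?_ (by positivity)
    rw [le_div_iff₀ (by norm_num)]
    have h5 : (16384 : ℝ) * (120 * (1280 * 2) ^ 5) ≤ 10 ^ 24 := by norm_num
    linarith
  · have e : (4096 * u ^ 4) ^ 2 = 4096 ^ 2 * u ^ 8 := by ring
    have e2 : u ^ 10000 = u ^ 9992 * u ^ 8 := by rw [← pow_add]
    rw [e, e2]
    refine mul_le_mul_of_nonneg_right ?_ (by positivity)
    have h4 : u ≤ u ^ 9992 := le_self_pow₀ h1 (by norm_num)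
    have h5 : (4096 : ℝ) ^ 2 ≤ 10 ^ 24 := by norm_num
    linarith
  · exact pow_le_pow_right₀ h1 (by norm_num)

/-- the last numerical bound -/
theorem LargeP_last {u n : ℝ} (h1 : 1 ≤ u) (hu96 : 96 ≤ u) (h2 : (4096 * u ^ 4) ^ 2 ≤ n)
    (h3 : u ^ 2 ≤ n) : 4 * n * Real.exp (-(n / (4096 * u ^ 4))) ≤ 1 / u := by
  have hu0 : (0 : ℝ) < u := by linarith
  have hn0 : 0 < n := lt_of_lt_of_le (by positivity) h3
  have hs0 : 0 < Real.sqrt n := Real.sqrt_pos.2 hn0
  have hs : Real.sqrt n * Real.sqrt n = n := Real.mul_self_sqrt hn0.le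
  have h4 : 4096 * u ^ 4 ≤ Real.sqrt n := Real.le_sqrt_of_sq_le h2
  have h5 : u ≤ Real.sqrt n := Real.le_sqrt_of_sq_le h3
  have h6 : Real.sqrt n ≤ n / (4096 * u ^ 4) := by
    rw [le_div_iff₀ (by positivity)]
    calc Real.sqrt n * (4096 * u ^ 4) ≤ Real.sqrt n * Real.sqrt n :=
          mul_le_mul_of_nonneg_left h4 hs0.le
      _ = n := hs
  have h7 : Real.exp (-(n / (4096 * u ^ 4))) ≤ Real.exp (-Real.sqrt n) :=
    Real.exp_le_exp.2 (by linarith)
  have h8 : 4 * n * Real.exp (-(n / (4096 * u ^ 4))) ≤ 4 * n * Real.exp (-Real.sqrt n) :=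
    mul_le_mul_of_nonneg_left h7 (by positivity)
  refine h8.trans ?_
  rw [Real.exp_neg, ← div_eq_mul_inv, div_le_div_iff₀ (Real.exp_pos _) hu0, one_mul]
  have h9 := Real.pow_div_factorial_le_exp (Real.sqrt n) hs0.le 4
  refine le_trans ?_ h9
  have e : (Nat.factorial 4 : ℝ) = 24 := by norm_num [Nat.factorial]
  rw [e, le_div_iff₀ (by norm_num)]
  set r := Real.sqrt n with hr
  have h10 : 4 * n * u * 24 ≤ 96 * r ^ 3 := by
    have : n * u ≤ r ^ 2 * r := by
      rw [← hs]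
      have h11 : r * r * u ≤ r * r * r := mul_le_mul_of_nonneg_left h5 (by positivity)
      calc r * r * u ≤ r * r * r := h11
        _ = r ^ 2 * r := by ring
    nlinarith
  have h11 : 96 * r ^ 3 ≤ r ^ 4 := by
    have h12 : 96 ≤ r := hu96.trans h5
    have : 96 * r ^ 3 ≤ r * r ^ 3 := mul_le_mul_of_nonneg_right h12 (by positivity)
    calc 96 * r ^ 3 ≤ r * r ^ 3 := this
      _ = r ^ 4 := by ring
  exact h10.trans h11

theorem large_prob : ∀ᶠ u : ℝ in atTop, ∀ (n : ℕ) (pm pp : ℝ), ParE n u pm pp →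
    Pr (qq pm pp) (fun s : J n → Fin 3 => ¬ ∀ (P : Pt n) (X T : Finset (Pt n)),
      Val n P X T → Disjoint X T → n / (40 * u ^ 199) ≤ (X.card : ℝ) →
      n / (4096 * u ^ 4) ≤ (T.card : ℝ) →
      u ^ 200 / (4 * n) * (X.card * T.card) ≤ ((lks n (W0s n s) P X T).card : ℝ)) ≤ 1 / u := by
  classical
  filter_upwards [par_facts, LargeP_num, eventually_ge_atTop (96 : ℝ)] with u hpar hnum hu96
  intro n pm pp hP
  obtain ⟨-, -, hnu, h0, h1, h2', hpm, -⟩ := hpar n pm pp hP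
  obtain ⟨hu1, hc1, hc2, hb1, hb2, hb3, hb4⟩ := hnum
  have h2 : pp ≤ 1 := by linarith
  have hn1 := hP.n1
  have hn0 : (0 : ℝ) < n := by exact_mod_cast hn1
  have hu0 : (0 : ℝ) < u := by linarith
  set x₀ : ℝ := n / (40 * u ^ 199) with hx₀
  set t₀ : ℝ := n / (4096 * u ^ 4) with ht₀
  have hx0 : 0 < x₀ := by positivity
  have ht0 : 0 < t₀ := by positivity
  set c₁ : ℝ := u ^ 196 / 131072 with hc₁
  set c₂ : ℝ := u / 1280 with hc₂
  set FX : Finset (Finset (Pt n)) := (univ : Finset (Finset (Pt n))).filter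
    (fun S => x₀ ≤ (S.card : ℝ)) with hFX
  set FT : Finset (Finset (Pt n)) := (univ : Finset (Finset (Pt n))).filter
    (fun S => t₀ ≤ (S.card : ℝ)) with hFT
  set Q : Finset (Pt n × Finset (Pt n) × Finset (Pt n)) :=
    ((univ : Finset (Pt n)) ×ˢ FX ×ˢ FT) with hQ
  have hq := FR.qq_nonneg h0 h1 h2
  -- the union bound
  have hU : Pr (qq pm pp) (fun s : J n → Fin 3 => ¬ ∀ (P : Pt n) (X T : Finset (Pt n)),
      Val n P X T → Disjoint X T → x₀ ≤ (X.card : ℝ) → t₀ ≤ (T.card : ℝ) →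
      u ^ 200 / (4 * n) * (X.card * T.card) ≤ ((lks n (W0s n s) P X T).card : ℝ)) ≤
      ∑ k ∈ Q, Pr (qq pm pp) (fun s : J n → Fin 3 => Val n k.1 k.2.1 k.2.2 ∧
        Disjoint k.2.1 k.2.2 ∧ ((lks n (W0s n s) k.1 k.2.1 k.2.2).card : ℝ) <
          u ^ 200 / (4 * n) * (k.2.1.card * k.2.2.card)) := by
    refine (FR.Pr_mono hq ?_).trans (FR.Pr_exists hq Q _)
    intro s hs
    push Not at hs
    obtain ⟨P, X, T, hV, hd, hX, hT, hlt⟩ := hs
    refine ⟨(P, X, T), ?_, hV, hd, hlt⟩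
    rw [hQ, Finset.mem_product, Finset.mem_product, hFX, hFT, Finset.mem_filter,
      Finset.mem_filter]
    exact ⟨Finset.mem_univ _, ⟨Finset.mem_univ _, hX⟩, ⟨Finset.mem_univ _, hT⟩⟩
  refine hU.trans ?_
  -- each term
  have hterm : ∀ k ∈ Q, Pr (qq pm pp) (fun s : J n → Fin 3 => Val n k.1 k.2.1 k.2.2 ∧
        Disjoint k.2.1 k.2.2 ∧ ((lks n (W0s n s) k.1 k.2.1 k.2.2).card : ℝ) <
          u ^ 200 / (4 * n) * (k.2.1.card * k.2.2.card)) ≤
      Real.exp (-(c₁ * k.2.1.card)) * Real.exp (-(c₂ * k.2.2.card)) := by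
    rintro ⟨P, X, T⟩ hk
    rw [hQ, Finset.mem_product, Finset.mem_product, hFX, hFT, Finset.mem_filter,
      Finset.mem_filter] at hk
    have hX : x₀ ≤ (X.card : ℝ) := hk.2.1.2
    have hT : t₀ ≤ (T.card : ℝ) := hk.2.2.2
    show Pr (qq pm pp) (fun s : J n → Fin 3 => Val n P X T ∧
        Disjoint X T ∧ ((lks n (W0s n s) P X T).card : ℝ) <
          u ^ 200 / (4 * n) * (X.card * T.card)) ≤
      Real.exp (-(c₁ * X.card)) * Real.exp (-(c₂ * T.card))
    by_cases hVd : Val n P X T ∧ Disjoint X T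
    · have h3 := LargeP_one hn1 h0 h1 h2 hu0.le hpm hVd.1 hVd.2
      refine (FR.Pr_mono hq (fun s hs => hs.2.2)).trans (h3.trans ?_)
      rw [← Real.exp_add]
      refine Real.exp_le_exp.2 ?_
      have h4 : c₂ * T.card ≤ u ^ 200 / (16 * n) * (X.card * T.card) / 2 := by
        have h5 : u ^ 200 / (16 * n) * (x₀ * T.card) ≤ u ^ 200 / (16 * n) * (X.card * T.card) :=
          mul_le_mul_of_nonneg_left (mul_le_mul_of_nonneg_right hX (Nat.cast_nonneg _))
            (by positivity)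
        have h6 : u ^ 200 / (16 * n) * (x₀ * T.card) = 2 * (c₂ * T.card) := by
          rw [hx₀, hc₂]
          field_simp
          norm_num
          ring
        linarith
      have h7 : c₁ * X.card ≤ u ^ 200 / (16 * n) * (X.card * T.card) / 2 := by
        have h5 : u ^ 200 / (16 * n) * (X.card * t₀) ≤ u ^ 200 / (16 * n) * (X.card * T.card) :=
          mul_le_mul_of_nonneg_left (mul_le_mul_of_nonneg_left hT (Nat.cast_nonneg _))
            (by positivity)
        have h6 : u ^ 200 / (16 * n) * (X.card * t₀) = 2 * (c₁ * X.card) := by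
          rw [ht₀, hc₁]
          field_simp
          norm_num
          ring
        linarith
      linarith
    · have h3 : Pr (qq pm pp) (fun s : J n → Fin 3 => Val n P X T ∧
        Disjoint X T ∧ ((lks n (W0s n s) P X T).card : ℝ) <
          u ^ 200 / (4 * n) * (X.card * T.card)) ≤ Pr (qq pm pp) (fun _ : J n → Fin 3 => False) :=
        FR.Pr_mono hq (fun s hs => hVd ⟨hs.1, hs.2.1⟩)
      refine h3.trans ?_
      rw [FR.Pr_eq]
      have : FR.Ex (qq pm pp) (fun s : J n → Fin 3 => if False then (1 : ℝ) else 0) = 0 := by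
        simp [FR.Ex]
      rw [this]
      positivity
  refine (Finset.sum_le_sum hterm).trans ?_
  -- evaluate the sum
  have hsum : ∑ k ∈ Q, Real.exp (-(c₁ * k.2.1.card)) * Real.exp (-(c₂ * k.2.2.card)) =
      (Fintype.card (Pt n) : ℝ) * ((∑ X ∈ FX, Real.exp (-(c₁ * X.card))) *
        ∑ T ∈ FT, Real.exp (-(c₂ * T.card))) := by
    rw [hQ, Finset.sum_product]
    simp only [Finset.sum_product]
    rw [Finset.sum_const, Finset.card_univ, nsmul_eq_mul, Finset.sum_mul_sum]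
  rw [hsum]
  have hN := card_Pt n
  have hs1 : ∑ X ∈ FX, Real.exp (-(c₁ * X.card)) ≤ Real.exp (-x₀) := by
    refine sum_sets hN hc1 ?_
    have e : 4 * (n : ℝ) * Real.exp (-(c₁ / 2)) = x₀ * (160 * u ^ 199 * Real.exp (-(c₁ / 2))) := by
      rw [hx₀]
      field_simp
      norm_num
    rw [e]
    exact mul_le_of_le_one_right hx0.le hb1
  have hs2 : ∑ T ∈ FT, Real.exp (-(c₂ * T.card)) ≤ Real.exp (-t₀) := by
    refine sum_sets hN hc2 ?_
    have e : 4 * (n : ℝ) * Real.exp (-(c₂ / 2)) = t₀ * (16384 * u ^ 4 * Real.exp (-(c₂ / 2))) := by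
      rw [ht₀]
      field_simp
      norm_num
    rw [e]
    exact mul_le_of_le_one_right ht0.le hb2
  have hs3 : ∑ X ∈ FX, Real.exp (-(c₁ * X.card)) ≤ 1 :=
    hs1.trans (Real.exp_le_one_iff.2 (by linarith))
  have hs4 : 0 ≤ ∑ T ∈ FT, Real.exp (-(c₂ * T.card)) :=
    Finset.sum_nonneg fun _ _ => (Real.exp_pos _).le
  calc (Fintype.card (Pt n) : ℝ) * ((∑ X ∈ FX, Real.exp (-(c₁ * X.card))) *
        ∑ T ∈ FT, Real.exp (-(c₂ * T.card)))
      ≤ (Fintype.card (Pt n) : ℝ) * (1 * Real.exp (-t₀)) := by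
        refine mul_le_mul_of_nonneg_left ?_ (Nat.cast_nonneg _)
        exact mul_le_mul hs3 hs2 hs4 zero_le_one
    _ ≤ 4 * n * (1 * Real.exp (-t₀)) :=
        mul_le_mul_of_nonneg_right hN (by positivity)
    _ = 4 * n * Real.exp (-t₀) := by rw [one_mul]
    _ ≤ 1 / u := LargeP_last hu1 hu96 (hb3.trans hnu) (hb4.trans hnu)

end Pool.Agent.Lib.CD
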