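import Pool.Agent.Lib.MP_dcb6ed_co_CD.EBas

/-!
# Sparsity of the link graphs

Fix `P, X, Y` with `|X|, |Y| ≤ K n / (16 d)`, `w = |X| + |Y|`.  If `w = 0` nothing can happen.  Let `T` be the
set of all triples `{P, x, y}`, `x ∈ X`, `y ∈ Y` (`lks n univ P X Y`); `|T| ≤ |X| |Y| ≤ w² / 4`, and
`lks W1 P X Y = T ∩ W1`.  If `|lks| > K w`, let `m = ⌊K w⌋₊ + 1`; by `pr_many`, `choose_le` the
probability is at most `C(|T|, m) pp^m ≤ (e |T| pp / m)^m ≤ b^m ≤ b^(K w)` (real power), where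
`b = e w pp / (4 K)`; with `pp ≤ 0.6 d / n`, `w ≤ K n / (8 d)`: `b ≤ 0.6 e / 32 ≤ 1/19 ≤ exp (-2)`, and
`b ≤ 0.41 w d / (K n)`.  So the probability is at most
`(b^3 exp (-2 (K - 3)))^w ≤ (0.07 w^3 d^3 / (K^3 n^3) · exp (-2 (K - 3)))^w`.
The number of the pairs `(X, Y)` with `|X| + |Y| = w` is at most `C(8 n, w) ≤ (8 e n / w)^w` (the disjoint
union of `X` and `Y` is a subset of `Pt n ⊕ Pt n`), and `P` has at most `4 n` values.  So the total
is at most `4 n ∑_{1 ≤ w ≤ K n / (8 d)} c_w^w`, `c_w = (8 e n / w) · 0.07 w^3 d^3 / (K^3 n^3) ·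
exp (-2 (K - 3)) ≤ 1.53 w^2 d^3 / (K^3 n^2) · exp (-2 (K - 3))`.
By `w ≤ K n / (8 d)` and `hK`: `c_w ≤ 0.024 d / K · exp (-2 (K - 3)) ≤ 0.024 / K ≤ 0.01`; also
`c_w ≤ 0.057 w^2 d^3 / n^2` (`K ≥ 3`).
`w = 1`: `4 n c_1 ≤ 0.23 d^3 / n`.  `w ≥ 2`: `c_w^w ≤ c_w^2 0.01^(w - 2) ≤ 0.0033 (d^6 / n^4) w^4
0.01^(w - 2)`, and `∑_{w ≥ 2} w^4 0.01^(w - 2) ≤ 20` (`w^4 ≤ 16 · 6^(w - 2)`), so these terms give at most
`0.3 d^6 / n^3`.  Total at most `d^6 / n`.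
-/

set_option autoImplicit false

namespace Pool.Agent.Lib.CD

open Finset Filter
open Pool.Agent.Lib.FR (J El Edge st Cf qq Pr)

private theorem SpP_pow (k : ℕ) : (k + 2) ^ 4 ≤ 16 * 6 ^ k := by
  induction k with
  | zero => norm_num
  | succ k ih =>
    have h : 6 * (k + 2) ^ 4 =
        (k + 1 + 2) ^ 4 + (5 * k ^ 4 + 36 * k ^ 3 + 90 * k ^ 2 + 84 * k + 15) := by ring
    have h2 : 16 * 6 ^ (k + 1) = 6 * (16 * 6 ^ k) := by ring
    rw [h2]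
    calc (k + 1 + 2) ^ 4 ≤ 6 * (k + 2) ^ 4 := by rw [h]; exact Nat.le_add_right _ _
      _ ≤ 6 * (16 * 6 ^ k) := Nat.mul_le_mul_left 6 ih

private theorem SpP_bound {n d K E pp : ℝ} (hn : 1 ≤ n) (hd : 1 ≤ d) (hK : 3 ≤ K)
    (hE0 : 0 ≤ E) (hE1 : E ≤ 1) (hEd : d * E ≤ 1) (hpp0 : 0 ≤ pp)
    (hpp : 2 * n * pp ≤ 1.2 * d) (w : ℝ) (hw : 1 ≤ w) (hwK : w ≤ K * n / (8 * d)) :
    0 ≤ 8 * Real.exp 1 * n / w * ((Real.exp 1 * w * pp / (4 * K)) ^ 3 * E) ∧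
    8 * Real.exp 1 * n / w * ((Real.exp 1 * w * pp / (4 * K)) ^ 3 * E) ≤ 0.01 ∧
    8 * Real.exp 1 * n / w * ((Real.exp 1 * w * pp / (4 * K)) ^ 3 * E) ≤
      0.057 * w ^ 2 * (d ^ 3 / n ^ 2) := by
  have hn0 : 0 < n := by linarith
  have hd0 : 0 < d := by linarith
  have hK0 : 0 < K := by linarith
  have hw0 : 0 < w := by linarith
  have he0 : 0 < Real.exp 1 := Real.exp_pos 1
  have he4 : Real.exp 1 ^ 4 ≤ 54.6 := by
    have h1 : Real.exp 1 ≤ 2.7182818286 := Real.exp_one_lt_d9.le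
    calc Real.exp 1 ^ 4 ≤ 2.7182818286 ^ 4 := pow_le_pow_left₀ he0.le h1 4
      _ ≤ 54.6 := by norm_num
  have hv : (n * pp) ^ 3 ≤ (0.6 * d) ^ 3 :=
    pow_le_pow_left₀ (by positivity) (by linarith) 3
  obtain ⟨y, hy⟩ : ∃ y, y = w ^ 2 * E / (K ^ 3 * n ^ 2) := ⟨_, rfl⟩
  have hy0 : 0 ≤ y := by rw [hy]; positivity
  have hx : 8 * Real.exp 1 * n / w * ((Real.exp 1 * w * pp / (4 * K)) ^ 3 * E) =
      Real.exp 1 ^ 4 * (n * pp) ^ 3 / 8 * y := by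
    rw [hy]
    field_simp
    ring
  have hx2 : Real.exp 1 ^ 4 * (n * pp) ^ 3 / 8 * y ≤ 1.475 * (d ^ 3 * y) := by
    have h1 : Real.exp 1 ^ 4 * (n * pp) ^ 3 ≤ 54.6 * (0.6 * d) ^ 3 :=
      mul_le_mul he4 hv (by positivity) (by norm_num)
    have h2 : Real.exp 1 ^ 4 * (n * pp) ^ 3 / 8 * y ≤ 54.6 * (0.6 * d) ^ 3 / 8 * y := by
      gcongr
    have h3 : 54.6 * (0.6 * d) ^ 3 / 8 * y = 1.4742 * (d ^ 3 * y) := by ring
    have h4 : 0 ≤ d ^ 3 * y := by positivity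
    linarith
  rw [hx]
  refine ⟨by positivity, hx2.trans ?_, hx2.trans ?_⟩
  · have h1 : w * d ≤ K * n / 8 := by
      rw [le_div_iff₀ (by positivity)] at hwK
      rw [le_div_iff₀ (by norm_num)]
      linarith
    have h2 : (w * d) ^ 2 ≤ (K * n / 8) ^ 2 := pow_le_pow_left₀ (by positivity) h1 2
    have h3 : d ^ 3 * y ≤ 1 / 192 := by
      have h4 : d ^ 3 * y = (w * d) ^ 2 * (d * E) / (K ^ 3 * n ^ 2) := by
        rw [hy]
        ring
      rw [h4, div_le_iff₀ (by positivity)]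
      calc (w * d) ^ 2 * (d * E) ≤ (K * n / 8) ^ 2 * 1 :=
            mul_le_mul h2 hEd (by positivity) (by positivity)
        _ = 3 * (K ^ 2 * n ^ 2) / 192 := by ring
        _ ≤ K * (K ^ 2 * n ^ 2) / 192 := by gcongr
        _ = 1 / 192 * (K ^ 3 * n ^ 2) := by ring
    linarith
  · have h1 : y ≤ w ^ 2 / (27 * n ^ 2) := by
      rw [hy]
      have h2 : (27 : ℝ) ≤ K ^ 3 := by
        calc (27 : ℝ) = 3 ^ 3 := by norm_num
          _ ≤ K ^ 3 := pow_le_pow_left₀ (by norm_num) hK 3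
      calc w ^ 2 * E / (K ^ 3 * n ^ 2) ≤ w ^ 2 * 1 / (27 * n ^ 2) := by gcongr
        _ = w ^ 2 / (27 * n ^ 2) := by rw [mul_one]
    calc 1.475 * (d ^ 3 * y) ≤ 1.475 * (d ^ 3 * (w ^ 2 / (27 * n ^ 2))) := by gcongr
      _ = (1.475 / 27) * (w ^ 2 * (d ^ 3 / n ^ 2)) := by
          field_simp
      _ ≤ 0.057 * (w ^ 2 * (d ^ 3 / n ^ 2)) := by
          gcongr
          norm_num
      _ = 0.057 * w ^ 2 * (d ^ 3 / n ^ 2) := by ring

private theorem SpP_term {n d K E pp : ℝ} (hn : 1 ≤ n) (hd : 1 ≤ d) (hK : 3 ≤ K)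
    (hE0 : 0 ≤ E) (hE1 : E ≤ 1) (hEd : d * E ≤ 1) (hpp0 : 0 ≤ pp)
    (hpp : 2 * n * pp ≤ 1.2 * d) (w : ℕ) (hw : 1 ≤ w) (hwK : (w : ℝ) ≤ K * n / (8 * d)) :
    (8 * Real.exp 1 * n / w * ((Real.exp 1 * w * pp / (4 * K)) ^ 3 * E)) ^ w ≤
      d ^ 6 / n ^ 2 * (1 / 4) * (1 / 2) ^ w := by
  obtain ⟨hx0, hx1, hx2⟩ := SpP_bound hn hd hK hE0 hE1 hEd hpp0 hpp w (by exact_mod_cast hw) hwK
  obtain ⟨x, hx⟩ : ∃ x, x = 8 * Real.exp 1 * n / w *
    ((Real.exp 1 * w * pp / (4 * K)) ^ 3 * E) := ⟨_, rfl⟩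
  rw [← hx] at hx0 hx1 hx2 ⊢
  have hn0 : 0 < n := by linarith
  have hd0 : 0 < d := by linarith
  have hd3 : d ^ 3 ≤ d ^ 6 := pow_le_pow_right₀ hd (by norm_num)
  rcases Nat.lt_or_ge w 2 with h | h
  · have hw1 : w = 1 := by omega
    subst hw1
    rw [pow_one]
    rw [Nat.cast_one, one_pow, mul_one] at hx2
    have h1 : d ^ 3 / n ^ 2 ≤ d ^ 6 / n ^ 2 := by gcongr
    have h2 : 0 ≤ d ^ 6 / n ^ 2 := by positivity
    linarith
  · obtain ⟨k, rfl⟩ : ∃ k, w = k + 2 := ⟨w - 2, by omega⟩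
    have h1 : x ^ k ≤ 0.01 ^ k := pow_le_pow_left₀ hx0 hx1 k
    have h2 : x ^ 2 ≤ (0.057 * ((k + 2 : ℕ) : ℝ) ^ 2 * (d ^ 3 / n ^ 2)) ^ 2 :=
      pow_le_pow_left₀ hx0 hx2 2
    have h3 : (((k + 2 : ℕ) : ℝ)) ^ 4 ≤ 16 * 6 ^ k := by
      exact_mod_cast SpP_pow k
    have h4 : (d ^ 3 / n ^ 2) ^ 2 ≤ d ^ 6 / n ^ 2 := by
      rw [div_pow, ← pow_mul, ← pow_mul]
      have h5 : n ^ 2 ≤ n ^ (2 * 2) := pow_le_pow_right₀ hn (by norm_num)
      gcongr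
    have h5 : 0 ≤ d ^ 6 / n ^ 2 := by positivity
    calc x ^ (k + 2) = x ^ 2 * x ^ k := by rw [pow_add, mul_comm]
      _ ≤ (0.057 * ((k + 2 : ℕ) : ℝ) ^ 2 * (d ^ 3 / n ^ 2)) ^ 2 * 0.01 ^ k :=
          mul_le_mul h2 h1 (by positivity) (by positivity)
      _ = 0.057 ^ 2 * ((k + 2 : ℕ) : ℝ) ^ 4 * (d ^ 3 / n ^ 2) ^ 2 * 0.01 ^ k := by ring
      _ ≤ 0.057 ^ 2 * (16 * 6 ^ k) * (d ^ 6 / n ^ 2) * 0.01 ^ k := by gcongr
      _ = (0.057 ^ 2 * 16) * (d ^ 6 / n ^ 2) * (6 * 0.01) ^ k := by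
          rw [mul_pow]
          ring
      _ ≤ (1 / 16) * (d ^ 6 / n ^ 2) * (1 / 2) ^ k := by
          gcongr
          · norm_num
          · norm_num
      _ = d ^ 6 / n ^ 2 * (1 / 4) * (1 / 2) ^ (k + 2) := by
          rw [pow_add]
          ring

private theorem SpP_choose {N m w : ℕ} {K pp : ℝ} (hN : 4 * (N : ℝ) ≤ (w : ℝ) ^ 2)
    (hm : K * w ≤ m) (hw : 1 ≤ w) (hK : 3 ≤ K) (hpp : 0 ≤ pp)
    (hb2 : Real.exp 1 * w * pp / (4 * K) ≤ Real.exp (-2)) :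
    (N.choose m : ℝ) * pp ^ m ≤
      ((Real.exp 1 * w * pp / (4 * K)) ^ 3 * Real.exp (-(2 * (K - 3)))) ^ w := by
  have hK0 : 0 < K := by linarith
  have hw0 : (1 : ℝ) ≤ w := by exact_mod_cast hw
  have hm0 : (0 : ℝ) < m := by nlinarith
  have he0 : 0 < Real.exp 1 := Real.exp_pos 1
  obtain ⟨b, hb⟩ : ∃ b, b = Real.exp 1 * w * pp / (4 * K) := ⟨_, rfl⟩
  rw [← hb] at hb2 ⊢
  have hb0 : 0 ≤ b := by rw [hb]; positivity
  have h1 : (N.choose m : ℝ) * pp ^ m ≤ b ^ m := by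
    have h2 := choose_le N m
    have h3 : Real.exp 1 * N * pp ≤ b * m := by
      have h4 : b * (K * w) = Real.exp 1 * pp * w ^ 2 / 4 := by
        rw [hb]
        field_simp
      have h5 : b * (K * w) ≤ b * m := mul_le_mul_of_nonneg_left hm hb0
      have h6 : Real.exp 1 * pp * (4 * N) ≤ Real.exp 1 * pp * w ^ 2 :=
        mul_le_mul_of_nonneg_left hN (by positivity)
      linarith
    have h4 : (N.choose m : ℝ) * pp ^ m * (m : ℝ) ^ m ≤ b ^ m * (m : ℝ) ^ m := by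
      calc (N.choose m : ℝ) * pp ^ m * (m : ℝ) ^ m =
          ((N.choose m : ℝ) * (m : ℝ) ^ m) * pp ^ m := by ring
        _ ≤ (Real.exp 1 * N) ^ m * pp ^ m := by gcongr
        _ = (Real.exp 1 * N * pp) ^ m := (mul_pow _ _ _).symm
        _ ≤ (b * m) ^ m := by gcongr
        _ = b ^ m * (m : ℝ) ^ m := by rw [mul_pow]
    exact le_of_mul_le_mul_right h4 (by positivity)
  refine h1.trans ?_
  have h3 : 3 * w ≤ m := by
    have h4 : (3 : ℝ) * w ≤ m := by nlinarith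
    exact_mod_cast h4
  obtain ⟨k, rfl⟩ : ∃ k, m = 3 * w + k := ⟨m - 3 * w, by omega⟩
  have h4 : b ^ k ≤ Real.exp (-2) ^ k := pow_le_pow_left₀ hb0 hb2 k
  have h5 : Real.exp (-2) ^ k ≤ Real.exp (-(2 * (K - 3))) ^ w := by
    rw [← Real.exp_nat_mul, ← Real.exp_nat_mul]
    refine Real.exp_le_exp.2 ?_
    push_cast at hm
    nlinarith
  rw [pow_add, mul_pow, ← pow_mul]
  exact mul_le_mul_of_nonneg_left (h4.trans h5) (by positivity)

open Classical in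
private theorem SpP_lks {n : ℕ} (s : J n → Fin 3) (P : Pt n) (X Y : Finset (Pt n)) :
    lks n (W1s n s) P X Y = (lks n univ P X Y).filter (fun g => s g ≠ 0) := by
  ext g
  unfold lks W1s
  simp only [mem_filter, mem_univ, true_and]
  tauto

private theorem SpP_T {n : ℕ} (P : Pt n) (X Y : Finset (Pt n)) :
    (lks n univ P X Y).card ≤ X.card * Y.card := by
  classical
  rw [← card_product]
  rcases (lks n univ P X Y).eq_empty_or_nonempty with he | ⟨g0, hg0⟩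
  · rw [he, card_empty]
    exact Nat.zero_le _
  have h1 : ∀ g ∈ lks n univ P X Y, ∃ x ∈ X, ∃ y ∈ Y, ptJ n g = {P, x, y} := by
    intro g hg
    unfold lks at hg
    obtain ⟨-, x, hx, y, hy, -, -, -, h⟩ := mem_filter.1 hg
    exact ⟨x, hx, y, hy, h⟩
  have : Nonempty (Pt n) := ⟨P⟩
  choose! x hx y hy hxy using h1
  refine card_le_card_of_injOn (fun g => (x g, y g)) (fun g hg => ?_) ?_
  · exact mem_product.2 ⟨hx g hg, hy g hg⟩
  · intro g hg g' hg' h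
    have h1 : x g = x g' := congrArg Prod.fst h
    have h2 : y g = y g' := congrArg Prod.snd h
    have h3 := hxy g hg
    rw [h1, h2] at h3
    exact ptJ_inj (h3.trans (hxy g' hg').symm)

private theorem SpP_one {n : ℕ} (hn : 1 ≤ n) {pm pp d K : ℝ} (h0 : 0 ≤ pm) (h1 : pm ≤ pp)
    (h2 : pp ≤ 1) (hd : 1 ≤ d) (hpp : 2 * n * pp ≤ 1.2 * d) (hK3 : 3 ≤ K) (P : Pt n)
    (X Y : Finset (Pt n)) (hw : 1 ≤ X.card + Y.card)
    (hwK : ((X.card + Y.card : ℕ) : ℝ) ≤ K * n / (8 * d)) :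
    Pr (qq pm pp) (fun s : J n → Fin 3 =>
      ¬ ((lks n (W1s n s) P X Y).card : ℝ) ≤ K * (X.card + Y.card)) ≤
      ((Real.exp 1 * ((X.card + Y.card : ℕ) : ℝ) * pp / (4 * K)) ^ 3 *
        Real.exp (-(2 * (K - 3)))) ^ (X.card + Y.card) := by
  classical
  have hpp0 : 0 ≤ pp := h0.trans h1
  have hK0 : 0 < K := by linarith
  have hn0 : (1 : ℝ) ≤ n := by exact_mod_cast hn
  obtain ⟨w, hwe⟩ : ∃ w, w = X.card + Y.card := ⟨_, rfl⟩
  rw [← hwe] at hw hwK ⊢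
  have hwr : (X.card : ℝ) + Y.card = w := by
    rw [hwe]
    push_cast
    ring
  have h3 : Pr (qq pm pp) (fun s : J n → Fin 3 =>
      ¬ ((lks n (W1s n s) P X Y).card : ℝ) ≤ K * (X.card + Y.card)) ≤
      Pr (qq pm pp) (fun s : J n → Fin 3 => ⌊K * w⌋₊ + 1 ≤
        ((lks n univ P X Y).filter (fun g => s g ≠ 0)).card) := by
    refine FR.Pr_mono (FR.qq_nonneg h0 h1 h2) fun s hs => ?_
    rw [hwr, SpP_lks, not_le] at hs
    exact (Nat.floor_lt (by positivity)).2 hs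
  refine h3.trans ((pr_many h0 h1 h2 _ _).trans ?_)
  refine SpP_choose ?_ ?_ hw hK3 hpp0 ?_
  · have h4 : ((lks n univ P X Y).card : ℝ) ≤ X.card * Y.card := by exact_mod_cast SpP_T P X Y
    rw [← hwr]
    nlinarith [sq_nonneg ((X.card : ℝ) - Y.card)]
  · push_cast
    exact (Nat.lt_floor_add_one _).le
  · have he1 : Real.exp 1 ≤ 2.7182818286 := Real.exp_one_lt_d9.le
    have he0 : 0 < Real.exp 1 := Real.exp_pos 1
    have h5 : (w : ℝ) * pp ≤ 0.6 * K / 8 := by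
      rw [le_div_iff₀ (by positivity)] at hwK
      have h6 : (w : ℝ) * (8 * d) * pp ≤ K * n * pp := mul_le_mul_of_nonneg_right hwK hpp0
      have h7 : K * (2 * n * pp) ≤ K * (1.2 * d) := mul_le_mul_of_nonneg_left hpp hK0.le
      have h8 : (w : ℝ) * pp * d ≤ 0.6 * K / 8 * d := by linarith
      exact le_of_mul_le_mul_right h8 (by linarith)
    have h6 : Real.exp 1 * w * pp / (4 * K) ≤ 0.051 := by
      rw [div_le_iff₀ (by positivity)]
      have h7 : Real.exp 1 * (w * pp) ≤ 2.7182818286 * (0.6 * K / 8) :=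
        mul_le_mul he1 h5 (by positivity) (by norm_num)
      nlinarith
    refine h6.trans ?_
    rw [Real.exp_neg, show (2 : ℝ) = 1 + 1 by norm_num, Real.exp_add]
    rw [le_inv_comm₀ (by norm_num) (by positivity)]
    calc Real.exp 1 * Real.exp 1 ≤ 2.7182818286 * 2.7182818286 :=
          mul_le_mul he1 he1 he0.le (by norm_num)
      _ ≤ (0.051 : ℝ)⁻¹ := by norm_num

private theorem SpP_count {V : Type} [Fintype V] [DecidableEq V] (w : ℕ) :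
    ((univ : Finset (Finset V × Finset V)).filter
      (fun p => p.1.card + p.2.card = w)).card ≤ (2 * Fintype.card V).choose w := by
  have h : ((univ : Finset (Finset V × Finset V)).filter
      (fun p => p.1.card + p.2.card = w)).card ≤
      (powersetCard w (univ : Finset (V ⊕ V))).card := by
    refine card_le_card_of_injOn (fun p => p.1.disjSum p.2) (fun p hp => ?_) ?_
    · have hp' := (mem_filter.1 hp).2
      exact mem_powersetCard.2 ⟨subset_univ _, by rw [card_disjSum]; exact hp'⟩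
    · intro p _ q _ h
      have h : p.1.disjSum p.2 = q.1.disjSum q.2 := h
      refine Prod.ext ?_ ?_
      · ext v
        rw [← inl_mem_disjSum (s := p.1) (t := p.2), h, inl_mem_disjSum]
      · ext v
        rw [← inr_mem_disjSum (s := p.1) (t := p.2), h, inr_mem_disjSum]
  rwa [card_powersetCard, card_univ, Fintype.card_sum, ← two_mul] at h

private theorem SpP_geom (S : Finset ℕ) (hS : ∀ w ∈ S, 1 ≤ w) :
    ∑ w ∈ S, ((1 : ℝ) / 2) ^ w ≤ 1 := by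
  have h1 : ∀ M : ℕ, ∑ w ∈ Icc 1 M, ((1 : ℝ) / 2) ^ w = 1 - (1 / 2) ^ M := by
    intro M
    induction M with
    | zero => simp
    | succ M ih =>
      rw [sum_Icc_succ_top (by omega), ih, pow_succ]
      ring
  have h2 : S ⊆ Icc 1 (S.sup id) := fun w hw => mem_Icc.2 ⟨hS w hw, le_sup (f := id) hw⟩
  refine (sum_le_sum_of_subset_of_nonneg h2 fun _ _ _ => by positivity).trans ?_
  rw [h1]
  have : (0 : ℝ) ≤ (1 / 2) ^ (S.sup id) := by positivity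
  linarith

theorem sp_prob {n : ℕ} (hn : 1 ≤ n) {pm pp d K : ℝ} (h0 : 0 ≤ pm) (h1 : pm ≤ pp) (h2 : pp ≤ 1)
    (hd : 1 ≤ d) (hpp : 2 * n * pp ≤ 1.2 * d) (hK3 : 3 ≤ K)
    (hK : d ≤ Real.exp (2 * (K - 3))) :
    Pr (qq pm pp) (fun s : J n → Fin 3 => ¬ ∀ (P : Pt n) (X Y : Finset (Pt n)),
      (X.card : ℝ) ≤ K * n / (16 * d) → (Y.card : ℝ) ≤ K * n / (16 * d) →
      ((lks n (W1s n s) P X Y).card : ℝ) ≤ K * (X.card + Y.card)) ≤ d ^ 6 / n := by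
  classical
  have hpp0 : 0 ≤ pp := h0.trans h1
  have hK0 : 0 < K := by linarith
  have hd0 : 0 < d := by linarith
  have hn0 : (1 : ℝ) ≤ n := by exact_mod_cast hn
  have hnp : (0 : ℝ) < n := by linarith
  obtain ⟨E, hE⟩ : ∃ E, E = Real.exp (-(2 * (K - 3))) := ⟨_, rfl⟩
  have hE0 : 0 ≤ E := by rw [hE]; positivity
  have hE1 : E ≤ 1 := by
    rw [hE]
    exact Real.exp_le_one_iff.2 (by linarith)
  have hEd : d * E ≤ 1 := by
    rw [hE, Real.exp_neg]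
    exact mul_inv_le_one_of_le₀ hK (by positivity)
  obtain ⟨I, hI⟩ : ∃ I : Finset (Pt n × Finset (Pt n) × Finset (Pt n)), I = univ.filter
    (fun t => (t.2.1.card : ℝ) ≤ K * n / (16 * d) ∧ (t.2.2.card : ℝ) ≤ K * n / (16 * d) ∧
      1 ≤ t.2.1.card + t.2.2.card) := ⟨_, rfl⟩
  have hmem : ∀ t ∈ I, (t.2.1.card : ℝ) ≤ K * n / (16 * d) ∧
      (t.2.2.card : ℝ) ≤ K * n / (16 * d) ∧ 1 ≤ t.2.1.card + t.2.2.card := by
    intro t ht
    rw [hI, mem_filter] at ht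
    exact ht.2
  have hwK : ∀ t ∈ I, ((t.2.1.card + t.2.2.card : ℕ) : ℝ) ≤ K * n / (8 * d) := by
    intro t ht
    obtain ⟨h3, h4, -⟩ := hmem t ht
    have h5 : K * n / (8 * d) = K * n / (16 * d) + K * n / (16 * d) := by
      field_simp
      ring
    rw [h5]
    push_cast
    linarith
  -- the union bound
  have hstep1 : Pr (qq pm pp) (fun s : J n → Fin 3 => ¬ ∀ (P : Pt n) (X Y : Finset (Pt n)),
      (X.card : ℝ) ≤ K * n / (16 * d) → (Y.card : ℝ) ≤ K * n / (16 * d) →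
      ((lks n (W1s n s) P X Y).card : ℝ) ≤ K * (X.card + Y.card)) ≤
      ∑ t ∈ I, Pr (qq pm pp) (fun s : J n → Fin 3 =>
        ¬ ((lks n (W1s n s) t.1 t.2.1 t.2.2).card : ℝ) ≤ K * (t.2.1.card + t.2.2.card)) := by
    refine le_trans ?_ (FR.Pr_exists (FR.qq_nonneg h0 h1 h2) I (fun t (s : J n → Fin 3) =>
      ¬ ((lks n (W1s n s) t.1 t.2.1 t.2.2).card : ℝ) ≤ K * (t.2.1.card + t.2.2.card)))
    refine FR.Pr_mono (FR.qq_nonneg h0 h1 h2) fun s hs => ?_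
    push Not at hs
    obtain ⟨P, X, Y, hX, hY, hlt⟩ := hs
    refine ⟨(P, X, Y), ?_, not_le.2 hlt⟩
    rw [hI, mem_filter]
    refine ⟨mem_univ _, hX, hY, ?_⟩
    by_contra hcon
    have h3 : X.card = 0 := by
      have h4 : ¬ (1 ≤ X.card + Y.card) := hcon
      omega
    have h5 : lks n (W1s n s) P X Y = ∅ := by
      refine eq_empty_of_forall_notMem fun g hg => ?_
      unfold lks at hg
      obtain ⟨-, x, hx, -⟩ := mem_filter.1 hg
      rw [card_eq_zero.1 h3] at hx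
      exact notMem_empty _ hx
    rw [h5, card_empty, Nat.cast_zero] at hlt
    have h6 : 0 ≤ K * ((X.card : ℝ) + Y.card) := by positivity
    linarith
  refine hstep1.trans ?_
  obtain ⟨F, hF⟩ : ∃ F : ℕ → ℝ, F = (fun w : ℕ =>
    ((Real.exp 1 * (w : ℝ) * pp / (4 * K)) ^ 3 * E) ^ w) := ⟨_, rfl⟩
  have hF0 : ∀ w, 0 ≤ F w := by
    intro w
    rw [hF]
    positivity
  have hstep2 : ∑ t ∈ I, Pr (qq pm pp) (fun s : J n → Fin 3 =>
      ¬ ((lks n (W1s n s) t.1 t.2.1 t.2.2).card : ℝ) ≤ K * (t.2.1.card + t.2.2.card)) ≤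
      ∑ t ∈ I, F (t.2.1.card + t.2.2.card) := by
    refine sum_le_sum fun t ht => ?_
    rw [hF, hE]
    exact SpP_one hn h0 h1 h2 hd hpp hK3 t.1 t.2.1 t.2.2 (hmem t ht).2.2 (hwK t ht)
  refine hstep2.trans ?_
  rw [sum_comp F (fun t : Pt n × Finset (Pt n) × Finset (Pt n) => t.2.1.card + t.2.2.card)]
  obtain ⟨S, hS⟩ : ∃ S, S = I.image
    (fun t : Pt n × Finset (Pt n) × Finset (Pt n) => t.2.1.card + t.2.2.card) := ⟨_, rfl⟩
  rw [← hS]
  have hSm : ∀ w ∈ S, 1 ≤ w ∧ (w : ℝ) ≤ K * n / (8 * d) := by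
    intro w hw
    rw [hS, mem_image] at hw
    obtain ⟨t, ht, rfl⟩ := hw
    exact ⟨(hmem t ht).2.2, hwK t ht⟩
  have hterm : ∀ w ∈ S, (I.filter (fun t => t.2.1.card + t.2.2.card = w)).card • F w ≤
      4 * n * (d ^ 6 / (n : ℝ) ^ 2 * (1 / 4) * (1 / 2) ^ w) := by
    intro w hw
    obtain ⟨hw1, hw2⟩ := hSm w hw
    have hwp : (0 : ℝ) < w := by exact_mod_cast hw1
    have h3 : (I.filter (fun t => t.2.1.card + t.2.2.card = w)).card ≤
        Fintype.card (Pt n) * (2 * Fintype.card (Pt n)).choose w := by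
      refine le_trans ?_ (Nat.mul_le_mul_left _ (SpP_count (V := Pt n) w))
      rw [← card_univ (α := Pt n), ← card_product]
      refine card_le_card fun t ht => ?_
      exact mem_product.2 ⟨mem_univ _, mem_filter.2 ⟨mem_univ _, (mem_filter.1 ht).2⟩⟩
    have h4 : ((I.filter (fun t => t.2.1.card + t.2.2.card = w)).card : ℝ) ≤
        (Fintype.card (Pt n) : ℝ) * ((2 * Fintype.card (Pt n)).choose w : ℝ) := by
      exact_mod_cast h3
    have h5 := card_Pt n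
    have h6 : ((2 * Fintype.card (Pt n)).choose w : ℝ) ≤ (8 * Real.exp 1 * n / w) ^ w := by
      have h7 := choose_le (2 * Fintype.card (Pt n)) w
      rw [div_pow, le_div_iff₀ (by positivity)]
      refine h7.trans ?_
      push_cast
      refine pow_le_pow_left₀ (by positivity) ?_ w
      have h8 : Real.exp 1 * (2 * (Fintype.card (Pt n) : ℝ)) ≤ Real.exp 1 * (2 * (4 * n)) := by
        gcongr
      linarith
    have h9 : (8 * Real.exp 1 * n / w) ^ w * F w ≤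
        d ^ 6 / (n : ℝ) ^ 2 * (1 / 4) * (1 / 2) ^ w := by
      rw [hF, ← mul_pow]
      exact SpP_term hn0 hd hK3 hE0 hE1 hEd hpp0 hpp w hw1 hw2
    rw [nsmul_eq_mul]
    calc ((I.filter (fun t => t.2.1.card + t.2.2.card = w)).card : ℝ) * F w ≤
        ((Fintype.card (Pt n) : ℝ) * ((2 * Fintype.card (Pt n)).choose w : ℝ)) * F w :=
          mul_le_mul_of_nonneg_right h4 (hF0 w)
      _ ≤ ((4 * n) * (8 * Real.exp 1 * n / w) ^ w) * F w :=
          mul_le_mul_of_nonneg_right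
            (mul_le_mul h5 h6 (Nat.cast_nonneg _) (by positivity)) (hF0 w)
      _ = 4 * n * ((8 * Real.exp 1 * n / w) ^ w * F w) := by ring
      _ ≤ 4 * n * (d ^ 6 / (n : ℝ) ^ 2 * (1 / 4) * (1 / 2) ^ w) :=
          mul_le_mul_of_nonneg_left h9 (by positivity)
  refine (sum_le_sum hterm).trans ?_
  rw [← mul_sum, ← mul_sum]
  have h3 := SpP_geom S fun w hw => (hSm w hw).1
  calc 4 * (n : ℝ) * (d ^ 6 / (n : ℝ) ^ 2 * (1 / 4) * ∑ w ∈ S, ((1 : ℝ) / 2) ^ w) ≤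
      4 * (n : ℝ) * (d ^ 6 / (n : ℝ) ^ 2 * (1 / 4) * 1) := by gcongr
    _ = d ^ 6 / n := by
      field_simp

end Pool.Agent.Lib.CD
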