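import Pool.Agent.Lib.MP_dcb6ed_co_CD.NDp
import Pool.Agent.Lib.MP_dcb6ed_co_CD.SpP
import Pool.Agent.Lib.MP_dcb6ed_co_CD.LargeP
import Pool.Agent.Lib.MP_dcb6ed_co_CD.FBt
import Pool.Agent.Lib.MP_dcb6ed_co_CD.EMisc

/-!
# The good event has probability close to one

Union bound over the nine properties in `GoodE` (`sub` holds always: `2 ≠ 0`).
`sp1` is `sp_prob` with `d = u^200`, `K = 2 u` (`K n / (16 d) = n / (8 u^199)`; `u^200 ≤ exp (4 u - 6)`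
for large `u`), `sp2` is `sp_prob` with `K = u^196 / 32` (`K n / (16 d) = n / (512 u^4)`); the bounds
`u^1200 / n` are at most `1 / u` (`par_facts`), and the bound `10^100 u^3000 / n` of `nd_prob` too.
-/

set_option autoImplicit false

namespace Pool.Agent.Lib.CD

open Finset Filter
open Pool.Agent.Lib.FR (J El Edge st Cf qq Pr)

theorem GoodP_exp : ∀ᶠ u : ℝ in atTop, u ^ 200 ≤ Real.exp (4 * u - 6) := by
  have h1 := Real.tendsto_pow_mul_exp_neg_atTop_nhds_zero 200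
  have h2 : ∀ᶠ u : ℝ in atTop, u ^ 200 * Real.exp (-u) < 1 :=
    h1.eventually (gt_mem_nhds zero_lt_one)
  filter_upwards [h2, eventually_ge_atTop (2 : ℝ)] with u hu hu2
  have h3 : u ^ 200 < Real.exp u := by
    have h4 : u ^ 200 * Real.exp (-u) * Real.exp u < 1 * Real.exp u :=
      mul_lt_mul_of_pos_right hu (Real.exp_pos u)
    rw [mul_assoc, ← Real.exp_add, neg_add_cancel, Real.exp_zero, mul_one, one_mul] at h4
    exact h4
  exact h3.le.trans (Real.exp_le_exp.2 (by linarith))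

theorem GoodP_or9 {I : Type} [Fintype I] [DecidableEq I] {q : Fin 3 → ℝ}
    (hq : ∀ a, 0 ≤ q a) {A1 A2 A3 A4 A5 A6 A7 A8 A9 B : (I → Fin 3) → Prop} {x : ℝ}
    (h1 : Pr q A1 ≤ x) (h2 : Pr q A2 ≤ x) (h3 : Pr q A3 ≤ x) (h4 : Pr q A4 ≤ x)
    (h5 : Pr q A5 ≤ x) (h6 : Pr q A6 ≤ x) (h7 : Pr q A7 ≤ x) (h8 : Pr q A8 ≤ x)
    (h9 : Pr q A9 ≤ x)
    (h : ∀ s, B s → A1 s ∨ A2 s ∨ A3 s ∨ A4 s ∨ A5 s ∨ A6 s ∨ A7 s ∨ A8 s ∨ A9 s) :
    Pr q B ≤ 9 * x := by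
  refine (FR.Pr_mono hq h).trans ?_
  have k1 := FR.Pr_or hq A1 (fun s => A2 s ∨ A3 s ∨ A4 s ∨ A5 s ∨ A6 s ∨ A7 s ∨ A8 s ∨ A9 s)
  have k2 := FR.Pr_or hq A2 (fun s => A3 s ∨ A4 s ∨ A5 s ∨ A6 s ∨ A7 s ∨ A8 s ∨ A9 s)
  have k3 := FR.Pr_or hq A3 (fun s => A4 s ∨ A5 s ∨ A6 s ∨ A7 s ∨ A8 s ∨ A9 s)
  have k4 := FR.Pr_or hq A4 (fun s => A5 s ∨ A6 s ∨ A7 s ∨ A8 s ∨ A9 s)
  have k5 := FR.Pr_or hq A5 (fun s => A6 s ∨ A7 s ∨ A8 s ∨ A9 s)
  have k6 := FR.Pr_or hq A6 (fun s => A7 s ∨ A8 s ∨ A9 s)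
  have k7 := FR.Pr_or hq A7 (fun s => A8 s ∨ A9 s)
  have k8 := FR.Pr_or hq A8 A9
  linarith

theorem good_prob : ∀ᶠ u : ℝ in atTop, ∀ (n : ℕ) (pm pp α : ℝ) (Z : Finset (Pt n)),
    ParE n u pm pp → ZK n α Z → 1 / (2 * u) ≤ α → α ≤ 1 / u →
    Pr (qq pm pp) (fun s : J n → Fin 3 => ¬ GoodE n u α Z s) ≤ 9 / u := by
  filter_upwards [par_facts, maxd_prob, low_prob', high_prob, notc_prob, fb_prob, large_prob,
    GoodP_exp, eventually_ge_atTop (10 : ℝ)] with u hpar hmaxd hlow hhigh hnotc hfb hlarge hexp hu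
  intro n pm pp α Z hP hZ hα0 hα1
  obtain ⟨-, -, hn1, h0, h1, h2, -, h4⟩ := hpar n pm pp hP
  have hu0 : 0 < u := by linarith
  have hn0 : 0 < (n : ℝ) := by
    have := hP.n1
    exact_mod_cast this
  have h2' : pp ≤ 1 := by linarith
  have hd1 : (1 : ℝ) ≤ u ^ 200 := one_le_pow₀ (by linarith)
  have hq := FR.qq_nonneg h0 h1 h2'
  have b1 : (u ^ 200) ^ 6 / (n : ℝ) ≤ 1 / u := by
    rw [div_le_div_iff₀ hn0 hu0, one_mul]
    refine le_trans ?_ hn1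
    have h5 : (u ^ 200) ^ 6 * u = u ^ 1201 := by ring
    rw [h5]
    exact pow_le_pow_right₀ (by linarith) (by norm_num)
  have b2 : 10 ^ 100 * (u ^ 200) ^ 15 / (n : ℝ) ≤ 1 / u := by
    rw [div_le_div_iff₀ hn0 hu0, one_mul]
    refine le_trans ?_ hn1
    have h5 : (10 : ℝ) ^ 100 ≤ u ^ 100 := pow_le_pow_left₀ (by norm_num) hu 100
    have h6 : (0 : ℝ) ≤ (u ^ 200) ^ 15 * u := by positivity
    have h7 : 10 ^ 100 * (u ^ 200) ^ 15 * u ≤ u ^ 100 * ((u ^ 200) ^ 15 * u) := by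
      rw [mul_assoc]
      exact mul_le_mul_of_nonneg_right h5 h6
    have h8 : u ^ 100 * ((u ^ 200) ^ 15 * u) = u ^ 3101 := by ring
    rw [h8] at h7
    exact h7.trans (pow_le_pow_right₀ (by linarith) (by norm_num))
  have hlin : 64 * u ≤ u ^ 196 := by
    have h5 : u ^ 3 ≤ u ^ 196 := pow_le_pow_right₀ (by linarith) (by norm_num)
    have h6 : 64 * u ≤ u ^ 3 := by
      have h7 : u ^ 3 = u ^ 2 * u := by ring
      rw [h7]
      exact mul_le_mul_of_nonneg_right (by nlinarith) hu0.le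
    linarith
  have hnd := (nd_prob hP.n1 h0 h1 h2' hd1 (by nlinarith)).trans b2
  have hs1 := (sp_prob hP.n1 h0 h1 h2' hd1 (K := 2 * u) (by linarith) (by linarith)
    (hexp.trans (Real.exp_le_exp.2 (by linarith)))).trans b1
  have hs2 := (sp_prob hP.n1 h0 h1 h2' hd1 (K := u ^ 196 / 32) (by linarith) (by linarith)
    (hexp.trans (Real.exp_le_exp.2 (by linarith)))).trans b1
  have e1 : 2 * u * n / (16 * u ^ 200) = n / (8 * u ^ 199) := by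
    field_simp
    ring
  have e2 : u ^ 196 / 32 * n / (16 * u ^ 200) = n / (512 * u ^ 4) := by
    field_simp
    ring
  rw [e1] at hs1
  rw [e2] at hs2
  have e3 : 9 / u = 9 * (1 / u) := by ring
  rw [e3]
  refine GoodP_or9 hq (hmaxd n pm pp hP) (hlow n pm pp hP) hnd (hfb n pm pp α Z hP hZ hα0 hα1)
    hs1 hs2 (hlarge n pm pp hP) (hhigh n pm pp hP) (hnotc n pm pp hP) (fun s hs => ?_)
  by_contra hc
  rw [not_or, not_or, not_or, not_or, not_or, not_or, not_or, not_or] at hc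
  obtain ⟨c1, c2, c3, c4, c5, c6, c7, c8, c9⟩ := hc
  refine hs ⟨⟨?_, not_not.1 c1, not_not.1 c2, not_not.1 c3, not_not.1 c4, not_not.1 c5,
    not_not.1 c6, not_not.1 c7⟩, c8, c9⟩
  intro g hg
  unfold W0s at hg
  unfold W1s
  rw [mem_filter] at hg ⊢
  refine ⟨hg.1, ?_⟩
  rw [hg.2]
  decide

end Pool.Agent.Lib.CD
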