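import Pool.Agent.Lib.MP_dcb6ed_co_CD.ColD
import Pool.Agent.Lib.MP_dcb6ed_co_CD.AsmD
import Pool.Agent.Lib.MP_dcb6ed_co_CD.GoodP
import Pool.Agent.Lib.MP_6d56f7_co_FR.Mix

/-!
# The hitting time theorem

`good_state`: as in `FR/Asm.lean` (`good_of`).  Let `H = {j : σ j < t, s j ≠ 0}`.  `W0s ⊆ H`: by
`notc` there is an edge `e` such that no `s (c, e)` is `2`; `h1` gives `c` with `σ (c, e) < t`; if
`s j = 2` then `s (c, e) < s j`, so `σ j < σ (c, e) < t` (`Compat`).  Every element `a` has a triple in `H`: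
there is `j₁ ∈ st a` with `σ j₁ < t`; if `s j₁ = 0`, then by `high` there is `j₂ ∈ st a` with `s j₂ ≠ 0`,
so `σ j₂ < σ j₁ < t`.  Apply `det` to `W0s, W1s, H`.

`hit_bad`: `u = (2 log n)^(1/200)` tends to infinity, `u^200 = 2 log n`, and
`2 n / u ≤ 2 n / (log n)^(1/200)`.  `pm = (1 - u^(-40)) u^200 / (2 n - 1)`,
`pp = (1 + u^(-40)) u^200 / (2 n - 1)`: `ParE`.  Let `k = ⌊2 n / u⌋₊`, `α = k / (2 n)`; `α ≤ 1 / u`, and
`k ≥ 2 n / u - 1 ≥ n / u`, so `α ≥ 1 / (2 u)`.  Choose `A' ⊆ A`, `C' ⊆ C` with `k` elements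
(`Finset.exists_subset_card_eq`), and `Z` the set of the `inl v`, `v ∈ A'`, and the `inr c`, `c ∈ C'`:
`ZK n α Z`.  By `FR.mix` (with the weights `qq pm pp`) the share of the bad orderings is at most the
probability that the state is not `GoodE`, at most `9 / u` (`good_prob`): if `Compat σ s`,
`GoodE`, then `HitOK` by `good_state` and `col_of` (the lists `{c : (c, e) ∈ M'}` are contained in
`{c : σ (c, e) < t}`, and `ColOK` is monotone in the lists).
-/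

set_option autoImplicit false

namespace Pool.Agent.Lib.CD

open Finset Filter Topology
open Pool.Agent.Lib.FR (J El Edge st Cf qq Pr Compat)

theorem good_state : ∀ᶠ u : ℝ in atTop, ∀ (n : ℕ) (α : ℝ), u ^ 400 ≤ n → 1 / (2 * u) ≤ α →
    α ≤ 1 / u → ∀ (Z : Finset (Pt n)) (m : ℕ) (σ : J n ≃ Fin m) (s : J n → Fin 3), Compat σ s →
    GoodE n u α Z s → ∀ t : ℕ,
      (∀ e : Edge (Fin (2 * n)), ∃ c : Fin (2 * n - 1), (σ (c, e) : ℕ) < t) →
      (∀ v : Fin (2 * n), ∀ c : Fin (2 * n - 1),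
        ∃ e : Edge (Fin (2 * n)), v ∈ e.1 ∧ (σ (c, e) : ℕ) < t) →
      ∃ M : Finset (J n), (∀ j ∈ M, (σ j : ℕ) < t) ∧ IsM (els n) M ∧
        ∀ a, wE n Z a ≤ 1 → a ∈ cov (els n) M := by
  classical
  filter_upwards [det] with u hdet
  intro n α hn ha hb Z m σ s hc hg t h1 h2
  have hcov : ∀ a : El n, ∃ j ∈ st n a, (σ j : ℕ) < t := by
    rintro (e | ⟨v, c⟩)
    · obtain ⟨c, hc'⟩ := h1 e
      exact ⟨(c, e), FR.mem_st_inl.mpr rfl, hc'⟩
    · obtain ⟨e, hv, he⟩ := h2 v c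
      exact ⟨(c, e), FR.mem_st_inr.mpr ⟨rfl, hv⟩, he⟩
  obtain ⟨H, hH⟩ : ∃ H : Finset (J n), H = univ.filter (fun j => (σ j : ℕ) < t ∧ s j ≠ 0) :=
    ⟨_, rfl⟩
  have hmem : ∀ j, j ∈ H ↔ (σ j : ℕ) < t ∧ s j ≠ 0 := by
    intro j
    rw [hH, mem_filter]
    exact ⟨fun h => h.2, fun h => ⟨mem_univ _, h⟩⟩
  have hA : W0s n s ⊆ H := by
    intro j hj
    have hj2 : s j = 2 := (mem_filter.1 hj).2
    have h3 := hg.notc
    push Not at h3
    obtain ⟨e, he⟩ := h3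
    obtain ⟨c, hc'⟩ := h1 e
    have h4 : s (c, e) < s j := by
      have h5 := he c
      rw [hj2]
      revert h5
      generalize s (c, e) = a
      fin_cases a <;> simp
    have h5 : σ j < σ (c, e) := hc j (c, e) h4
    have h6 : (σ j : ℕ) < (σ (c, e) : ℕ) := h5
    refine (hmem j).2 ⟨by omega, ?_⟩
    rw [hj2]
    decide
  have hB : H ⊆ W1s n s := by
    intro j hj
    exact mem_filter.2 ⟨mem_univ _, ((hmem j).1 hj).2⟩
  have hC : ∀ a : El n, ∃ j ∈ H, j ∈ st n a := by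
    intro a
    obtain ⟨j1, hj1, ht1⟩ := hcov a
    by_cases h3 : s j1 = 0
    · have h4 := hg.high
      push Not at h4
      obtain ⟨j2, hj2, hs2⟩ := h4 a
      have h5 : s j1 < s j2 := by
        rw [h3]
        exact Fin.pos_of_ne_zero hs2
      have h6 : (σ j2 : ℕ) < (σ j1 : ℕ) := hc j2 j1 h5
      exact ⟨j2, (hmem j2).2 ⟨by omega, hs2⟩, hj2⟩
    · exact ⟨j1, (hmem j1).2 ⟨ht1, h3⟩, hj1⟩
  obtain ⟨M, hMH, hM, hMc⟩ := hdet n α hn ha hb Z (W0s n s) (W1s n s) H hg.gd hA hB hC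
  exact ⟨M, fun j hj => ((hmem j).1 (hMH hj)).1, hM, hMc⟩

open Classical in
/-- at every time at which all lists are nonempty and every vertex sees every colour there is a
partial colouring which is complete outside `A`, `C` -/
def HitOK (n : ℕ) (A : Finset (Fin (2 * n))) (C : Finset (Fin (2 * n - 1)))
    (σ : J n ≃ Fin (Nat.card (J n))) : Prop :=
  ∀ t : ℕ, (∀ e : Edge (Fin (2 * n)), ∃ c : Fin (2 * n - 1), (σ (c, e) : ℕ) < t) →
    (∀ v : Fin (2 * n), ∀ c : Fin (2 * n - 1),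
      ∃ e : Edge (Fin (2 * n)), v ∈ e.1 ∧ (σ (c, e) : ℕ) < t) →
    ∃ φ, ColOK n A C (fun e => univ.filter (fun c => (σ (c, e) : ℕ) < t)) φ

/-- the sets of special points -/
theorem Hit_zk {n k : ℕ} {α : ℝ} (hα : (k : ℝ) = 2 * n * α) (A : Finset (Fin (2 * n)))
    (C : Finset (Fin (2 * n - 1))) (hA : A.card = k) (hC : C.card = k) :
    ZK n α (A.disjSum C) := by
  constructor
  · have h1 : (A.disjSum C).filter (fun z => z.isLeft = true) = A.map Function.Embedding.inl := by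
      ext z
      rcases z with v | c
      · simp [inl_mem_disjSum]
      · simp [inr_mem_disjSum]
    rw [h1, card_map, hA, hα]
  · have h1 : (A.disjSum C).filter (fun z => z.isRight = true) = C.map Function.Embedding.inr := by
      ext z
      rcases z with v | c
      · simp [inl_mem_disjSum]
      · simp [inr_mem_disjSum]
    rw [h1, card_map, hC, hα]

theorem Hit_tendsto : Tendsto (fun n : ℕ => (2 * Real.log n) ^ (1 / 200 : ℝ)) atTop atTop := by
  have h1 : Tendsto (fun n : ℕ => 2 * Real.log (n : ℝ)) atTop atTop :=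
    (Real.tendsto_log_atTop.comp tendsto_natCast_atTop_atTop).const_mul_atTop two_pos
  exact (tendsto_rpow_atTop (by norm_num : (0 : ℝ) < 1 / 200)).comp h1

theorem hit_bad : ∀ᶠ n : ℕ in atTop, ∀ (A : Finset (Fin (2 * n))) (C : Finset (Fin (2 * n - 1))),
    2 * n / Real.log n ^ (1 / 200 : ℝ) ≤ (A.card : ℝ) →
    2 * n / Real.log n ^ (1 / 200 : ℝ) ≤ (C.card : ℝ) →
    (Set.ncard {σ : J n ≃ Fin (Nat.card (J n)) | ¬ HitOK n A C σ} : ℝ) /
      (Nat.card (J n ≃ Fin (Nat.card (J n))) : ℝ) ≤ 9 / (2 * Real.log n) ^ (1 / 200 : ℝ) := by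
  classical
  filter_upwards [Hit_tendsto.eventually good_prob, Hit_tendsto.eventually good_state,
    Hit_tendsto.eventually par_facts, Hit_tendsto.eventually (eventually_ge_atTop (10 : ℝ)),
    eventually_ge_atTop 2] with n hprob hstate hpar hu10 hn2
  intro A C hA hC
  obtain ⟨u, hu⟩ : ∃ u : ℝ, u = (2 * Real.log n) ^ (1 / 200 : ℝ) := ⟨_, rfl⟩
  rw [← hu] at hprob hstate hpar hu10 ⊢
  have hn2' : (2 : ℝ) ≤ n := by exact_mod_cast hn2
  have hlog : 0 < Real.log n := Real.log_pos (by linarith)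
  have hu0 : 0 < u := by linarith
  have hu200 : u ^ 200 = 2 * Real.log n := by
    rw [hu, ← Real.rpow_natCast, ← Real.rpow_mul (by linarith)]
    norm_num
  have hN : (0 : ℝ) < 2 * n - 1 := by linarith
  obtain ⟨pm, hpm⟩ : ∃ pm : ℝ, pm = (1 - (u ^ 40)⁻¹) * u ^ 200 / (2 * n - 1) := ⟨_, rfl⟩
  obtain ⟨pp, hpp⟩ : ∃ pp : ℝ, pp = (1 + (u ^ 40)⁻¹) * u ^ 200 / (2 * n - 1) := ⟨_, rfl⟩
  have hP : ParE n u pm pp := by
    refine ⟨by omega, hu200, ?_, ?_⟩
    · rw [hpm, mul_div_cancel₀ _ hN.ne']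
    · rw [hpp, mul_div_cancel₀ _ hN.ne']
  obtain ⟨-, -, hn1, h0, h1, h2, -, -⟩ := hpar n pm pp hP
  have hn400 : u ^ 400 ≤ n :=
    (pow_le_pow_right₀ (by linarith : (1 : ℝ) ≤ u) (by norm_num)).trans hn1
  have hun : u ≤ n := by
    refine le_trans ?_ hn400
    exact le_self_pow₀ (by linarith) (by norm_num)
  obtain ⟨k, hk⟩ : ∃ k : ℕ, k = ⌊2 * n / u⌋₊ := ⟨_, rfl⟩
  have hk1 : (k : ℝ) ≤ 2 * n / u := by
    rw [hk]
    exact Nat.floor_le (by positivity)
  have hk2 : n / u ≤ (k : ℝ) := by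
    have h3 : 2 * n / u < (k : ℝ) + 1 := by
      rw [hk]
      exact Nat.lt_floor_add_one _
    have h4 : 1 ≤ n / u := (one_le_div hu0).2 hun
    have h5 : 2 * n / u = n / u + n / u := by ring
    linarith
  obtain ⟨α, hα⟩ : ∃ α : ℝ, α = k / (2 * n) := ⟨_, rfl⟩
  have hn0 : (0 : ℝ) < n := by linarith
  have hαk : (k : ℝ) = 2 * n * α := by
    rw [hα, mul_div_cancel₀ _ (by positivity)]
  have hα1 : α ≤ 1 / u := by
    rw [hα, div_le_iff₀ (by positivity)]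
    refine hk1.trans (le_of_eq ?_)
    ring
  have hα0 : 1 / (2 * u) ≤ α := by
    rw [hα, le_div_iff₀ (by positivity)]
    refine le_trans (le_of_eq ?_) hk2
    field_simp
  have hsz : 2 * n / u ≤ 2 * n / Real.log n ^ (1 / 200 : ℝ) := by
    refine div_le_div_of_nonneg_left (by positivity) (Real.rpow_pos_of_pos hlog _) ?_
    rw [hu]
    exact Real.rpow_le_rpow hlog.le (by linarith) (by norm_num)
  have hkA : k ≤ A.card := by exact_mod_cast hk1.trans (hsz.trans hA)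
  have hkC : k ≤ C.card := by exact_mod_cast hk1.trans (hsz.trans hC)
  obtain ⟨A', hA', hA'k⟩ := exists_subset_card_eq hkA
  obtain ⟨C', hC', hC'k⟩ := exists_subset_card_eq hkC
  have hZ := Hit_zk hαk A' C' hA'k hC'k
  have hq := FR.qq_nonneg h0 h1 (by linarith)
  have hmix := FR.mix (J := J n) (m := Nat.card (J n)) Nat.card_eq_fintype_card.symm
    (qq pm pp) hq (FR.qq_sum _ _) (fun σ => ¬ HitOK n A C σ)
    (fun s => ¬ GoodE n u α (A'.disjSum C') s) (by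
      intro σ s hc hbad hg
      refine hbad fun t h3 h4 => ?_
      obtain ⟨M, hM1, hM2, hM3⟩ := hstate n α hn400 hα0 hα1 (A'.disjSum C') _ σ s hc hg t h3 h4
      obtain ⟨φ, hφ⟩ := col_of (M := M) (H := univ.filter (fun j => (σ j : ℕ) < t))
        (fun j hj => mem_filter.2 ⟨mem_univ _, hM1 j hj⟩) hM2 hM3
        (A := A) (C := C) (fun v hv => hA' (inl_mem_disjSum.1 hv))
        (fun c hc' => hC' (inr_mem_disjSum.1 hc'))
      refine ⟨φ, ⟨fun e c hec => ?_, hφ.prop, hφ.edge, hφ.pres⟩⟩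
      have h5 := hφ.list e c hec
      rw [mem_filter] at h5 ⊢
      exact ⟨mem_univ _, (mem_filter.1 h5.2).2⟩)
  exact hmix.trans (hprob n pm pp α _ hP hZ hα0 hα1)

/-- the hitting time theorem -/
theorem hit (A : ∀ n : ℕ, Finset (Fin (2 * n))) (C : ∀ n : ℕ, Finset (Fin (2 * n - 1)))
    (hA : ∀ᶠ n : ℕ in atTop, 2 * n / Real.log n ^ (1 / 200 : ℝ) ≤ ((A n).card : ℝ))
    (hC : ∀ᶠ n : ℕ in atTop, 2 * n / Real.log n ^ (1 / 200 : ℝ) ≤ ((C n).card : ℝ)) :
    Tendsto (fun n : ℕ =>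
      (Set.ncard {σ : J n ≃ Fin (Nat.card (J n)) | HitOK n (A n) (C n) σ} : ℝ) /
        (Nat.card (J n ≃ Fin (Nat.card (J n))) : ℝ)) atTop (𝓝 1) := by
  classical
  have hbad : ∀ᶠ n : ℕ in atTop,
      (Set.ncard {σ : J n ≃ Fin (Nat.card (J n)) | ¬ HitOK n (A n) (C n) σ} : ℝ) /
        (Nat.card (J n ≃ Fin (Nat.card (J n))) : ℝ) ≤ 9 / (2 * Real.log n) ^ (1 / 200 : ℝ) := by
    filter_upwards [hit_bad, hA, hC] with n h1 h2 h3
    exact h1 (A n) (C n) h2 h3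
  have hB : Tendsto (fun n : ℕ => 9 / (2 * Real.log n) ^ (1 / 200 : ℝ)) atTop (𝓝 0) :=
    Hit_tendsto.const_div_atTop 9
  have hcompl : ∀ n : ℕ,
      (Set.ncard {σ : J n ≃ Fin (Nat.card (J n)) | HitOK n (A n) (C n) σ} : ℝ) /
        (Nat.card (J n ≃ Fin (Nat.card (J n))) : ℝ) =
      1 - (Set.ncard {σ : J n ≃ Fin (Nat.card (J n)) | ¬ HitOK n (A n) (C n) σ} : ℝ) /
        (Nat.card (J n ≃ Fin (Nat.card (J n))) : ℝ) := by
    intro n
    have h1 : {σ : J n ≃ Fin (Nat.card (J n)) | ¬ HitOK n (A n) (C n) σ} =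
        {σ : J n ≃ Fin (Nat.card (J n)) | HitOK n (A n) (C n) σ}ᶜ := rfl
    rw [h1]
    have h2 := Set.ncard_add_ncard_compl
      {σ : J n ≃ Fin (Nat.card (J n)) | HitOK n (A n) (C n) σ} (Set.toFinite _) (Set.toFinite _)
    have h3 : (Nat.card (J n ≃ Fin (Nat.card (J n))) : ℝ) ≠ 0 := by
      have : Nonempty (J n ≃ Fin (Nat.card (J n))) := ⟨Finite.equivFin _⟩
      exact_mod_cast Nat.card_pos.ne'
    rw [eq_sub_iff_add_eq, ← add_div, div_eq_one_iff_eq h3]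
    exact_mod_cast h2
  have hlim : Tendsto (fun n : ℕ =>
      (Set.ncard {σ : J n ≃ Fin (Nat.card (J n)) | ¬ HitOK n (A n) (C n) σ} : ℝ) /
        (Nat.card (J n ≃ Fin (Nat.card (J n))) : ℝ)) atTop (𝓝 0) :=
    squeeze_zero' (Eventually.of_forall fun n => by positivity) hbad hB
  have hfin := hlim.const_sub 1
  rw [sub_zero] at hfin
  exact hfin.congr fun n => (hcompl n).symm

end Pool.Agent.Lib.CD
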