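import Pool.Agent.Lib.MP_dcb6ed_co_CD.Pw

/-!
# The Lovász local lemma (general form) in a finite product space

`A k` depends only on the coordinates in `V k`; `l` is a neighbour of `k` if `l ≠ k` and `V k`,
`V l` are not disjoint; `P (A k) ≤ x_k ∏ (1 - x_l)` over the neighbours `l`, `0 ≤ x < 1`.

For a finite set `T` of indices let `G_T` be the event that no `A l`, `l ∈ T`, occurs.
Claim `S (T)`: `P (A k ∩ G_T) ≤ x_k P (G_T)` for all `k`.  Induction on `|T|`.  If `k ∈ T` the left
side is `0`.  Otherwise let `T₁` be the set of the neighbours of `k` in `T`, `T₂ = T \ T₁`.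
`P (A k ∩ G_T) ≤ P (A k ∩ G_{T₂}) = P (A k) P (G_{T₂})`, as `G_{T₂}` depends on the union of the
`V l`, `l ∈ T₂`, which is disjoint from `V k` (if `V k` and `V l` are disjoint for all `l ∈ T₂`).
Adding the elements of `T₁` one by one to `T₂` and using the claim for the smaller sets,
`P (G_T) ≥ P (G_{T₂}) ∏_{l ∈ T₁} (1 - x_l)`.  So
`P (A k ∩ G_T) ≤ x_k ∏_{l ∈ T₁} (1 - x_l) P (G_{T₂}) ≤ x_k P (G_T)` (the factors `1 - x_l` of the
other neighbours are at most `1`).
Hence `P (G_{insert k T}) ≥ (1 - x_k) P (G_T)`, so `P (G_K) ≥ ∏ (1 - x_k) > 0`, and `pw_pos` gives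
the point `ω` with positive weights.
-/

set_option autoImplicit false

namespace Pool.Agent.Lib.CD

open Finset

variable {I S : Type} [Fintype I] [DecidableEq I] [Fintype S] [DecidableEq S]

/-- the probability that no `A l` with `l ∈ T` occurs -/
noncomputable def LLL_G {K : Type} (w : I → S → ℝ) (A : K → (I → S) → Prop) (T : Finset K) : ℝ :=
  PW w (fun ω => ∀ l ∈ T, ¬ A l ω)

open Classical in
theorem LLL_step {K : Type} {w : I → S → ℝ} (A : K → (I → S) → Prop) (x : K → ℝ)
    (T : Finset K) (k : K)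
    (h : PW w (fun ω => A k ω ∧ ∀ l ∈ T, ¬ A l ω) ≤ x k * LLL_G w A T) :
    (1 - x k) * LLL_G w A T ≤ LLL_G w A (insert k T) := by
  have e1 : LLL_G w A T = PW w (fun ω => A k ω ∧ ∀ l ∈ T, ¬ A l ω) + LLL_G w A (insert k T) := by
    unfold LLL_G
    rw [Pw_eq, Pw_eq, Pw_eq, ← ew_add]
    congr 1
    funext ω
    by_cases h1 : A k ω
    · simp [h1]
    · simp [h1]
  linarith

open Classical in
theorem LLL_claim {K : Type} [Fintype K] {w : I → S → ℝ} (hw : IsW w)
    (A : K → (I → S) → Prop) (V : K → Finset I) (hd : ∀ k, Dep (V k) (A k)) (x : K → ℝ)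
    (hx0 : ∀ k, 0 ≤ x k) (hx1 : ∀ k, x k < 1)
    (h : ∀ k, PW w (A k) ≤
      x k * ∏ l ∈ univ.filter (fun l => l ≠ k ∧ ¬ Disjoint (V k) (V l)), (1 - x l))
    (T : Finset K) : ∀ k, PW w (fun ω => A k ω ∧ ∀ l ∈ T, ¬ A l ω) ≤ x k * LLL_G w A T := by
  induction T using Finset.strongInduction with
  | H T ih =>
    intro k
    have hG0 : ∀ R : Finset K, 0 ≤ LLL_G w A R := fun R => pw_nonneg hw _
    by_cases hk : k ∈ T
    · have e1 : PW w (fun ω => A k ω ∧ ∀ l ∈ T, ¬ A l ω) = 0 := by
        rw [← pw_false w]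
        congr 1
        funext ω
        refine propext ⟨fun h1 => h1.2 k hk h1.1, fun h1 => h1.elim⟩
      rw [e1]
      exact mul_nonneg (hx0 k) (hG0 T)
    · set T₁ := T.filter (fun l => ¬ Disjoint (V k) (V l)) with hT₁
      set T₂ := T.filter (fun l => Disjoint (V k) (V l)) with hT₂
      have h12 : T₂ ∪ T₁ = T := Finset.filter_union_filter_not_eq _ _
      have e1 : PW w (fun ω => A k ω ∧ ∀ l ∈ T, ¬ A l ω) ≤ PW w (A k) * LLL_G w A T₂ := by
        have e2 : PW w (fun ω => A k ω ∧ ∀ l ∈ T₂, ¬ A l ω) = PW w (A k) * LLL_G w A T₂ := by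
          refine pw_and hw (V := V k) (V' := T₂.biUnion V) ?_ (hd k) ?_
          · rw [Finset.disjoint_biUnion_right]
            intro l hl
            exact (Finset.mem_filter.1 hl).2
          · intro ω ω' h1
            refine propext ⟨fun h2 l hl h3 => h2 l hl ?_, fun h2 l hl h3 => h2 l hl ?_⟩
            · rw [hd l ω ω' fun i hi => h1 i (Finset.mem_biUnion.2 ⟨l, hl, hi⟩)]
              exact h3
            · rw [← hd l ω ω' fun i hi => h1 i (Finset.mem_biUnion.2 ⟨l, hl, hi⟩)]
              exact h3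
        rw [← e2]
        refine pw_mono hw fun ω h1 => ⟨h1.1, fun l hl => h1.2 l (Finset.mem_filter.1 hl).1⟩
      have e3 : ∀ R : Finset K, R ⊆ T₁ →
          LLL_G w A T₂ * ∏ l ∈ R, (1 - x l) ≤ LLL_G w A (T₂ ∪ R) := by
        intro R
        induction R using Finset.induction_on with
        | empty =>
          intro _
          simp
        | insert a R ha ihR =>
          intro hR
          have h2 := ihR ((Finset.subset_insert a R).trans hR)
          have haT₁ : a ∈ T₁ := hR (Finset.mem_insert_self a R)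
          have haT : a ∈ T := (Finset.mem_filter.1 haT₁).1
          have haT₂ : a ∉ T₂ := fun h3 => (Finset.mem_filter.1 haT₁).2 (Finset.mem_filter.1 h3).2
          have hss : T₂ ∪ R ⊂ T := by
            refine Finset.ssubset_iff_subset_ne.2 ⟨?_, ?_⟩
            · rw [← h12]
              exact Finset.union_subset_union_right ((Finset.subset_insert a R).trans hR)
            · intro h3
              have h4 : a ∈ T₂ ∪ R := h3 ▸ haT
              rcases Finset.mem_union.1 h4 with h5 | h5
              · exact haT₂ h5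
              · exact ha h5
          have h6 := LLL_step A x (T₂ ∪ R) a (ih _ hss a)
          rw [Finset.union_insert, Finset.prod_insert ha]
          have h7 : 0 ≤ 1 - x a := sub_nonneg.2 (hx1 a).le
          calc LLL_G w A T₂ * ((1 - x a) * ∏ l ∈ R, (1 - x l))
              = (1 - x a) * (LLL_G w A T₂ * ∏ l ∈ R, (1 - x l)) := by ring
            _ ≤ (1 - x a) * LLL_G w A (T₂ ∪ R) := mul_le_mul_of_nonneg_left h2 h7
            _ ≤ _ := h6
      have e4 := e3 T₁ subset_rfl
      rw [h12] at e4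
      have e5 : PW w (A k) ≤ x k * ∏ l ∈ T₁, (1 - x l) := by
        refine (h k).trans (mul_le_mul_of_nonneg_left ?_ (hx0 k))
        have hsub : T₁ ⊆ univ.filter (fun l => l ≠ k ∧ ¬ Disjoint (V k) (V l)) := by
          intro l hl
          have h8 := Finset.mem_filter.1 hl
          refine Finset.mem_filter.2 ⟨Finset.mem_univ _, ?_, h8.2⟩
          rintro rfl
          exact hk h8.1
        rw [← Finset.prod_sdiff hsub]
        have h9 : ∏ l ∈ univ.filter (fun l => l ≠ k ∧ ¬ Disjoint (V k) (V l)) \ T₁,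
            (1 - x l) ≤ 1 :=
          Finset.prod_le_one (fun l _ => sub_nonneg.2 (hx1 l).le) fun l _ => by
            have := hx0 l
            linarith
        have h10 : 0 ≤ ∏ l ∈ T₁, (1 - x l) :=
          Finset.prod_nonneg fun l _ => sub_nonneg.2 (hx1 l).le
        exact mul_le_of_le_one_left h10 h9
      calc PW w (fun ω => A k ω ∧ ∀ l ∈ T, ¬ A l ω) ≤ PW w (A k) * LLL_G w A T₂ := e1
        _ ≤ (x k * ∏ l ∈ T₁, (1 - x l)) * LLL_G w A T₂ :=
          mul_le_mul_of_nonneg_right e5 (hG0 T₂)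
        _ = x k * (LLL_G w A T₂ * ∏ l ∈ T₁, (1 - x l)) := by ring
        _ ≤ x k * LLL_G w A T := mul_le_mul_of_nonneg_left e4 (hx0 k)

open Classical in
theorem lll {K : Type} [Fintype K] {w : I → S → ℝ} (hw : IsW w)
    (A : K → (I → S) → Prop) (V : K → Finset I) (hd : ∀ k, Dep (V k) (A k)) (x : K → ℝ)
    (hx0 : ∀ k, 0 ≤ x k) (hx1 : ∀ k, x k < 1)
    (h : ∀ k, PW w (A k) ≤
      x k * ∏ l ∈ univ.filter (fun l => l ≠ k ∧ ¬ Disjoint (V k) (V l)), (1 - x l)) :
    ∃ ω : I → S, (∀ i, 0 < w i (ω i)) ∧ ∀ k, ¬ A k ω := by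
  have e1 : ∀ T : Finset K, ∏ k ∈ T, (1 - x k) ≤ LLL_G w A T := by
    intro T
    induction T using Finset.induction_on with
    | empty =>
      have h1 : LLL_G w A ∅ = 1 := by
        have h2 := pw_not hw (fun _ => False)
        rw [pw_false, sub_zero] at h2
        rw [← h2]
        unfold LLL_G
        congr 1
        funext ω
        simp
      rw [h1]
      simp
    | insert a T ha ih =>
      rw [Finset.prod_insert ha]
      exact (mul_le_mul_of_nonneg_left ih (sub_nonneg.2 (hx1 a).le)).trans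
        (LLL_step A x T a (LLL_claim hw A V hd x hx0 hx1 h T a))
  have e2 : 0 < LLL_G w A (Finset.univ : Finset K) :=
    lt_of_lt_of_le (Finset.prod_pos fun k _ => sub_pos.2 (hx1 k)) (e1 Finset.univ)
  obtain ⟨ω, h1, h2⟩ := pw_pos hw e2
  exact ⟨ω, h1, fun k => h2 k (Finset.mem_univ k)⟩

end Pool.Agent.Lib.CD
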