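import Pool.Agent.Lib.MP_dcb6ed_co_CD.LLL

/-!
# Two simple forms of the local lemma

`lll_sum`: take `x_k = 2 P_k ≤ 1/2` in `lll` (`P_k ≤ 1/4` as `l = k` is in the sum).  By
`∏ (1 - x_l) ≥ 1 - ∑ x_l ≥ 1 - 2 / 4 = 1 / 2` the condition `P_k ≤ x_k ∏ (1 - x_l)` holds.

`lll_deg`: `∑_{l = k or V k, V l not disjoint} P_l ≤ P_k + ∑_{i ∈ V k} ∑_{l : i ∈ V l} P_l
≤ P_k + |V k| σ ≤ 1/4`; apply `lll_sum`.
-/

set_option autoImplicit false

namespace Pool.Agent.Lib.CD

open Finset

variable {I S : Type} [Fintype I] [DecidableEq I] [Fintype S] [DecidableEq S]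

open Classical in
theorem LLLs_prod {K : Type} (T : Finset K) (x : K → ℝ) (h0 : ∀ k, 0 ≤ x k)
    (h1 : ∀ k, x k ≤ 1) : 1 - ∑ k ∈ T, x k ≤ ∏ k ∈ T, (1 - x k) := by
  induction T using Finset.induction_on with
  | empty => simp
  | insert a T ha ih =>
    rw [Finset.sum_insert ha, Finset.prod_insert ha]
    have h2 : ∏ k ∈ T, (1 - x k) ≤ 1 :=
      Finset.prod_le_one (fun k _ => sub_nonneg.2 (h1 k)) fun k _ => by
        have := h0 k
        linarith
    nlinarith [h0 a]

open Classical in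
theorem lll_sum {K : Type} [Fintype K] {w : I → S → ℝ} (hw : IsW w)
    (A : K → (I → S) → Prop) (V : K → Finset I) (hd : ∀ k, Dep (V k) (A k)) (P : K → ℝ)
    (hP0 : ∀ k, 0 ≤ P k) (hP : ∀ k, PW w (A k) ≤ P k)
    (h : ∀ k, ∑ l ∈ univ.filter (fun l => l = k ∨ ¬ Disjoint (V k) (V l)), P l ≤ 1 / 4) :
    ∃ ω : I → S, (∀ i, 0 < w i (ω i)) ∧ ∀ k, ¬ A k ω := by
  have hP4 : ∀ k, P k ≤ 1 / 4 := by
    intro k
    refine le_trans ?_ (h k)
    exact Finset.single_le_sum (f := P) (fun l _ => hP0 l)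
      (Finset.mem_filter.2 ⟨Finset.mem_univ k, Or.inl rfl⟩)
  refine lll hw A V hd (fun k => 2 * P k) (fun k => by have := hP0 k; linarith)
    (fun k => by have := hP4 k; linarith) fun k => (hP k).trans ?_
  have e1 := LLLs_prod (univ.filter (fun l => l ≠ k ∧ ¬ Disjoint (V k) (V l)))
    (fun k => 2 * P k) (fun k => by have := hP0 k; linarith)
    (fun k => by have := hP4 k; linarith)
  have e2 : ∑ l ∈ univ.filter (fun l => l ≠ k ∧ ¬ Disjoint (V k) (V l)), 2 * P l ≤ 1 / 2 := by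
    rw [← Finset.mul_sum]
    have e3 : ∑ l ∈ univ.filter (fun l => l ≠ k ∧ ¬ Disjoint (V k) (V l)), P l ≤ 1 / 4 := by
      refine le_trans (Finset.sum_le_sum_of_subset_of_nonneg ?_ fun l _ _ => hP0 l) (h k)
      intro l hl
      exact Finset.mem_filter.2 ⟨Finset.mem_univ l, Or.inr (Finset.mem_filter.1 hl).2.2⟩
    linarith
  have e4 := hP0 k
  nlinarith

open Classical in
theorem lll_deg {K : Type} [Fintype K] {w : I → S → ℝ} (hw : IsW w)
    (A : K → (I → S) → Prop) (V : K → Finset I) (hd : ∀ k, Dep (V k) (A k)) (P : K → ℝ)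
    (hP0 : ∀ k, 0 ≤ P k) (hP : ∀ k, PW w (A k) ≤ P k) (σ m : ℝ) (hσ : 0 ≤ σ)
    (h1 : ∀ i, ∑ l ∈ univ.filter (fun l => i ∈ V l), P l ≤ σ)
    (h2 : ∀ k, ((V k).card : ℝ) ≤ m) (h3 : ∀ k, P k + m * σ ≤ 1 / 4) :
    ∃ ω : I → S, (∀ i, 0 < w i (ω i)) ∧ ∀ k, ¬ A k ω := by
  refine lll_sum hw A V hd P hP0 hP fun k => ?_
  have e1 : ∑ l ∈ univ.filter (fun l => l = k ∨ ¬ Disjoint (V k) (V l)), P l ≤
      ∑ l : K, ((if l = k then P l else 0) + ∑ i ∈ V k, if i ∈ V l then P l else 0) := by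
    have e2 : ∀ l : K, 0 ≤ (if l = k then P l else 0) + ∑ i ∈ V k, if i ∈ V l then P l else 0 := by
      intro l
      refine add_nonneg ?_ (Finset.sum_nonneg fun i _ => ?_)
      · split_ifs
        · exact hP0 l
        · exact le_rfl
      · split_ifs
        · exact hP0 l
        · exact le_rfl
    refine le_trans (Finset.sum_le_sum fun l hl => ?_)
      (Finset.sum_le_sum_of_subset_of_nonneg (Finset.subset_univ _) fun l _ _ => e2 l)
    have e3 : 0 ≤ ∑ i ∈ V k, if i ∈ V l then P l else 0 :=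
      Finset.sum_nonneg fun i _ => by
        split_ifs
        · exact hP0 l
        · exact le_rfl
    rcases (Finset.mem_filter.1 hl).2 with h4 | h4
    · rw [if_pos h4]
      linarith
    · obtain ⟨i, hi, hi'⟩ := Finset.not_disjoint_iff.1 h4
      have e4 : P l ≤ ∑ i ∈ V k, if i ∈ V l then P l else 0 := by
        calc P l = if i ∈ V l then P l else 0 := by rw [if_pos hi']
          _ ≤ _ := Finset.single_le_sum (f := fun i => if i ∈ V l then P l else 0)
              (fun j _ => by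
                split_ifs
                · exact hP0 l
                · exact le_rfl) hi
      have e5 : 0 ≤ if l = k then P l else 0 := by
        split_ifs
        · exact hP0 l
        · exact le_rfl
      linarith
  rw [Finset.sum_add_distrib, Finset.sum_comm] at e1
  have e6 : ∑ l : K, (if l = k then P l else 0) = P k := by
    rw [Finset.sum_ite_eq' Finset.univ k]
    simp
  have e7 : ∑ i ∈ V k, ∑ l : K, (if i ∈ V l then P l else 0) ≤ m * σ := by
    calc ∑ i ∈ V k, ∑ l : K, (if i ∈ V l then P l else 0) ≤ ∑ i ∈ V k, σ := by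
          refine Finset.sum_le_sum fun i _ => ?_
          rw [← Finset.sum_filter]
          exact h1 i
      _ = ((V k).card : ℝ) * σ := by rw [Finset.sum_const, nsmul_eq_mul]
      _ ≤ m * σ := mul_le_mul_of_nonneg_right (h2 k) hσ
  rw [e6] at e1
  have e8 := h3 k
  linarith

end Pool.Agent.Lib.CD
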