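import Pool.Agent.Lib.MP_dcb6ed_co_CD.Pts

/-!
# Points, elements and triples: special points

Let `ptJ g = {p, q, r}`; the elements of `g` have the points `{p, q}`, `{p, r}`, `{q, r}`.
`wJ g` is the number of the points `p, q, r` in `Z`.  Case distinction: `wJ g = 0`: all elements of
`g` have `wE = 0`; `wJ g = 1`: one element has `wE = 0`, the other two `wE = 1`; `wJ g = 2`: one
element has `wE = 2`, the other two `wE = 1`; `wJ g = 3`: all have `wE = 2`.
-/

set_option autoImplicit false

namespace Pool.Agent.Lib.CD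

open Finset
open Pool.Agent.Lib.FR (J El Edge st Cf)

variable {n : ℕ} {Z : Finset (Pt n)} {g : J n} {a : El n}

private theorem PtsW_third {r : Pt n} (hr : r ∉ ptE n a) (h : ptJ n g = insert r (ptE n a)) :
    wJ n Z g = wE n Z a + if r ∈ Z then 1 else 0 := by
  unfold wJ wE
  rw [h]
  split_ifs with hZ
  · rw [insert_inter_of_mem hZ, card_insert_of_notMem]
    exact fun h1 => hr (mem_inter.1 h1).1
  · rw [insert_inter_of_notMem hZ, add_zero]

theorem wJ_le (g : J n) : wJ n Z g ≤ 3 := by
  rw [← card_ptJ g]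
  exact card_le_card inter_subset_left

theorem wE_le (a : El n) : wE n Z a ≤ 2 := by
  rw [← card_ptE a]
  exact card_le_card inter_subset_left

theorem wJ_cases (h : a ∈ els n g) : wJ n Z g = wE n Z a ∨ wJ n Z g = wE n Z a + 1 := by
  obtain ⟨r, hr, hg⟩ := third h
  have h1 := PtsW_third (Z := Z) hr hg
  split_ifs at h1
  · exact Or.inr h1
  · exact Or.inl h1

theorem mem_stz {i : ℕ} : g ∈ stz n Z a i ↔ a ∈ els n g ∧ wJ n Z g = wE n Z a + i := by
  unfold stz
  rw [mem_filter, mem_els]

theorem stz_union (a : El n) : st n a = stz n Z a 0 ∪ stz n Z a 1 := by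
  ext g
  rw [mem_union, mem_stz, mem_stz, ← mem_els]
  constructor
  · intro h
    rcases wJ_cases (Z := Z) h with h1 | h1
    · exact Or.inl ⟨h, h1⟩
    · exact Or.inr ⟨h, h1⟩
  · rintro (h | h)
    · exact h.1
    · exact h.1

theorem stz_disj (a : El n) : Disjoint (stz n Z a 0) (stz n Z a 1) := by
  rw [disjoint_left]
  intro g h0 h1
  rw [mem_stz] at h0 h1
  have h2 := h0.2
  have h3 := h1.2
  omega

/-- every triple through `a` has the type `0` or `1` -/
theorem card_split (F : Finset (J n)) (a : El n) :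
    (F ∩ st n a).card = (F ∩ stz n Z a 0).card + (F ∩ stz n Z a 1).card := by
  rw [stz_union (Z := Z) a, inter_union_distrib_left, card_union_of_disjoint]
  exact (stz_disj a).mono inter_subset_right inter_subset_right

theorem w_zero (h : wJ n Z g = 0) : ∀ y ∈ els n g, wE n Z y = 0 := by
  intro y hy
  rcases wJ_cases (Z := Z) hy with h1 | h1 <;> omega

theorem w_one (h : wJ n Z g = 1) :
    ∃ x ∈ els n g, wE n Z x = 0 ∧ ∀ y ∈ els n g, y ≠ x → wE n Z y = 1 := by
  have h3 : (ptJ n g \ Z).card = 2 := by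
    have h1 := card_sdiff_add_card_inter (ptJ n g) Z
    have h2 := card_ptJ g
    unfold wJ at h
    omega
  obtain ⟨p, q, hpq, hs⟩ := card_eq_two.1 h3
  have hp : p ∈ ptJ n g \ Z := by
    rw [hs]
    exact mem_insert_self _ _
  have hq : q ∈ ptJ n g \ Z := by
    rw [hs]
    exact mem_insert_of_mem (mem_singleton_self _)
  obtain ⟨x, hx, hx'⟩ := exists_el (mem_sdiff.1 hp).1 (mem_sdiff.1 hq).1 hpq
  refine ⟨x, hx, ?_, fun y hy hyx => ?_⟩
  · unfold wE
    rw [hx', card_eq_zero, ← hs]
    exact sdiff_inter_self _ _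
  · rcases wJ_cases (Z := Z) hy with h1 | h1
    · omega
    · exfalso
      have h2 : wE n Z y = 0 := by omega
      unfold wE at h2
      rw [card_eq_zero] at h2
      apply hyx
      apply ptE_inj
      rw [hx', ← hs]
      refine eq_of_subset_of_card_le (fun s hs' => ?_) ?_
      · rw [mem_sdiff]
        refine ⟨mem_els_iff.1 hy hs', fun hsZ => ?_⟩
        have h4 : s ∈ ptE n y ∩ Z := mem_inter.2 ⟨hs', hsZ⟩
        rw [h2] at h4
        exact notMem_empty _ h4
      · rw [h3, card_ptE]

theorem w_two (h : wJ n Z g = 2) :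
    ∃ r ∈ els n g, wE n Z r = 2 ∧ ∀ y ∈ els n g, y ≠ r → wE n Z y = 1 := by
  unfold wJ at h
  obtain ⟨p, q, hpq, hs⟩ := card_eq_two.1 h
  have hp : p ∈ ptJ n g ∩ Z := by
    rw [hs]
    exact mem_insert_self _ _
  have hq : q ∈ ptJ n g ∩ Z := by
    rw [hs]
    exact mem_insert_of_mem (mem_singleton_self _)
  obtain ⟨x, hx, hx'⟩ := exists_el (mem_inter.1 hp).1 (mem_inter.1 hq).1 hpq
  refine ⟨x, hx, ?_, fun y hy hyx => ?_⟩
  · unfold wE
    rw [hx', ← hs, inter_assoc, inter_self, h]
  · have h5 := wE_le (Z := Z) y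
    rcases wJ_cases (Z := Z) hy with h1 | h1
    · exfalso
      have h2 : wE n Z y = 2 := by
        rw [← h1]
        exact h
      unfold wE at h2
      have h6 : ptE n y ∩ Z = ptE n y :=
        eq_of_subset_of_card_le inter_subset_left (by rw [h2, card_ptE])
      apply hyx
      apply ptE_inj
      rw [hx', ← hs]
      refine eq_of_subset_of_card_le (fun s hs' => ?_) ?_
      · rw [mem_inter]
        refine ⟨mem_els_iff.1 hy hs', ?_⟩
        rw [← h6] at hs'
        exact (mem_inter.1 hs').2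
      · rw [h, card_ptE]
    · unfold wJ at h1
      omega

theorem w_three (h : wJ n Z g = 3) : ∀ y ∈ els n g, wE n Z y = 2 := by
  intro y hy
  have h5 := wE_le (Z := Z) y
  rcases wJ_cases (Z := Z) hy with h1 | h1 <;> omega

/-- an element with one special point -/
theorem wE_one (h : wE n Z a = 1) :
    ∃ P z, P ∉ Z ∧ z ∈ Z ∧ P ≠ z ∧ ptE n a = {P, z} := by
  obtain ⟨p, q, hpq, hs⟩ := card_eq_two.1 (card_ptE a)
  unfold wE at h
  rw [hs] at h
  by_cases hp : p ∈ Z
  · by_cases hq : q ∈ Z
    · exfalso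
      rw [insert_inter_of_mem hp, singleton_inter_of_mem hq, card_pair hpq] at h
      omega
    · exact ⟨q, p, hq, hp, hpq.symm, by rw [hs, pair_comm]⟩
  · by_cases hq : q ∈ Z
    · exact ⟨p, q, hp, hq, hpq, hs⟩
    · exfalso
      rw [insert_inter_of_notMem hp, singleton_inter_of_notMem hq, card_empty] at h
      omega

theorem wE_pair {P z : Pt n} (hP : P ∉ Z) (hz : z ∈ Z) (h : ptE n a = {P, z}) :
    wE n Z a = 1 := by
  unfold wE
  rw [h, insert_inter_of_notMem hP, singleton_inter_of_mem hz, card_singleton]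

theorem wJ_pair {P x y : Pt n} (hP : P ∉ Z) (hx : x ∈ Z) (hy : y ∈ Z) (hxy : x ≠ y)
    (h : ptJ n g = {P, x, y}) : wJ n Z g = 2 := by
  unfold wJ
  rw [h, insert_inter_of_notMem hP, insert_inter_of_mem hx, singleton_inter_of_mem hy,
    card_pair hxy]

/-- the triples with two special points through an element with one special point -/
theorem wJ_two_at {P z : Pt n} (hP : P ∉ Z) (hz : z ∈ Z) (ha : ptE n a = {P, z})
    (hg : a ∈ els n g) (h2 : wJ n Z g = 2) :
    ∃ t ∈ Z, t ≠ z ∧ t ≠ P ∧ ptJ n g = {P, z, t} := by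
  obtain ⟨r, hr, hg'⟩ := third hg
  have h1 := PtsW_third (Z := Z) hr hg'
  have h2' := wE_pair hP hz ha
  rw [ha] at hr hg'
  have hrZ : r ∈ Z := by
    by_contra h3
    rw [if_neg h3] at h1
    omega
  refine ⟨r, hrZ, ?_, ?_, ?_⟩
  · rintro rfl
    exact hr (mem_insert_of_mem (mem_singleton_self _))
  · rintro rfl
    exact hr (mem_insert_self _ _)
  · rw [hg']
    ext s
    simp only [mem_insert, mem_singleton]
    tauto

end Pool.Agent.Lib.CD
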