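import Pool.Agent.Lib.MP_dcb6ed_co_CD.LabG
import Pool.Agent.Lib.MP_dcb6ed_co_CD.PtsW

/-!
# Random labels

Apply `labG` with `E = J n`, `X = El n`, `el = els n`, `W = W1`, `D = 4 u ^ 200`, `t = u ^ 102`,
`S = Fin 3 × Bool`; the label of the element `y` is `(cl y, pre y)`, independent, `cl y = 0` with
probability `1 - 2 ρ`, `cl y = 1` and `cl y = 2` with probability `ρ` each, `ρ = u ^ (-3)`,
`pre y = true` with probability `u ^ (-48)`; the label of the triple `g` is `(0, co g)` with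
`co g = true` with probability `tau u α` (`0 ≤ tau u α ≤ 1` for large `u`, as `α ≤ 1 / u`).
The counts: index type `El n × Fin 10` (`K = 10`; if the condition on `x` is not satisfied take
`T = ∅`; for `l6` the two points of `x` are two indices, e.g. the index type is
`(El n × Fin 8) ⊕ (El n × Pt n)` with `T (x, s) = ∅` if `s ∉ ptE x`: at most `8 + 2` counts with
nonempty `T`; since `K` bounds the number of all indices with base `x`, use the index type
`(El n × Fin 8) ⊕ {p : El n × Pt n // p.2 ∈ ptE n p.1}`).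
All counts differ by at most `t = u ^ 102` from the mean `∑_{g ∈ T} P (A g)`:
* `l0`: `T = W1 ∩ st x`, `A` = some `y ∈ els g`, `y ≠ x` has `pre y`: `P ≤ 2 u ^ (-48)`, mean
  `≤ 8 u ^ 152`, and `8 u ^ 152 + u ^ 102 ≤ 9 u ^ 152`;
* `l5`: `T = H ∩ st x`, `P = u ^ (-96)` (two elements), mean `≥ u ^ 104 / 400`, minus `u ^ 102` is
  `≥ u ^ 104 / 800` (`u ^ 2 ≥ 800`);
* `l1`: `T = H ∩ stz x 0`, `P = tau u α`; `l1'`: `T = H ∩ stz x 1`, `P = (1 - 2 ρ)²`;
* `l2`: `T = H ∩ stz x 1`, `P = ρ²`;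
* `l3`: `T = H ∩ stz x 0`, `wE x = 1`, so `wJ g = 1`, and by `w_one` exactly one of the two
  elements `y ≠ x` of `g` has `wE y = 1`: `P = 1 - 2 ρ`;
* `l4`: `T = H ∩ stz x 1`, `wE x = 1`, `wJ g = 2`, exactly one of the two elements `y ≠ x` has
  `wE y = 1` (`w_two`): `P = ρ`;
* `l6`: `T = H ∩ st x`; exactly one element `y ≠ x` of `g` does not contain `s` (`third`,
  `other_exists`, `other_unique`): `P = ρ`, mean `≤ 4 u ^ 197`;
* `l7`: `T = H ∩ stz x 0`: `P = (2 ρ)²`, mean `≤ 16 u ^ 194`.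
The sets `T` are contained in `star (els n) W1 x = W1 ∩ st n x` (`star_els`).  The probabilities of
the events are computed with `pw_all` (a condition on each of a set of coordinates).
`hnum`: `80 · 10 · (4 u ^ 200)² exp (- u ^ 204 / (16 u ^ 200)) = 12800 u ^ 400 exp (- u ^ 4 / 16)`.
-/

set_option autoImplicit false

namespace Pool.Agent.Lib.CD

open Finset Filter
open Pool.Agent.Lib.FR (J El Edge st Cf)

/-- the coordinate weights -/
noncomputable def Lab_w (n : ℕ) (ρ θ τ : ℝ) : El n ⊕ J n → Fin 3 × Bool → ℝ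
  | .inl _, s => (if s.1 = 0 then 1 - 2 * ρ else ρ) * (if s.2 = true then θ else 1 - θ)
  | .inr _, s => if s.1 = 0 then (if s.2 = true then τ else 1 - τ) else 0

theorem Lab_isW (n : ℕ) {ρ θ τ : ℝ} (hρ : 0 ≤ ρ) (hρ1 : 2 * ρ ≤ 1) (hθ : 0 ≤ θ) (hθ1 : θ ≤ 1)
    (hτ : 0 ≤ τ) (hτ1 : τ ≤ 1) : IsW (Lab_w n ρ θ τ) := by
  constructor
  · rintro (y | g) s
    · refine mul_nonneg ?_ ?_
      · split_ifs <;> linarith
      · split_ifs <;> linarith
    · show 0 ≤ (if s.1 = 0 then (if s.2 = true then τ else 1 - τ) else 0)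
      split_ifs <;> linarith
  · rintro (y | g)
    · show ∑ s : Fin 3 × Bool, (if s.1 = 0 then 1 - 2 * ρ else ρ) *
        (if s.2 = true then θ else 1 - θ) = 1
      rw [Fintype.sum_prod_type, Fin.sum_univ_three]
      simp
      ring
    · show ∑ s : Fin 3 × Bool, (if s.1 = 0 then (if s.2 = true then τ else 1 - τ) else 0) = 1
      rw [Fintype.sum_prod_type, Fin.sum_univ_three]
      simp

theorem Lab_dep_all {n : ℕ} (x : El n) (g : J n) (Q : El n → Prop) (P : Fin 3 × Bool → Prop) :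
    Dep (insert (Sum.inr g) (((els n g).erase x).image Sum.inl))
      (fun ω : El n ⊕ J n → Fin 3 × Bool => ∀ y ∈ els n g, y ≠ x → Q y → P (ω (Sum.inl y))) := by
  intro ω ω' h
  have key : ∀ y ∈ els n g, y ≠ x → ω (Sum.inl y) = ω' (Sum.inl y) := by
    intro y hy hyx
    exact h _ (Finset.mem_insert_of_mem (Finset.mem_image_of_mem _ (Finset.mem_erase.2 ⟨hyx, hy⟩)))
  apply propext
  constructor
  · intro h1 y hy hyx hQ
    rw [← key y hy hyx]
    exact h1 y hy hyx hQ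
  · intro h1 y hy hyx hQ
    rw [key y hy hyx]
    exact h1 y hy hyx hQ

theorem Lab_dep_ex {n : ℕ} (x : El n) (g : J n) (P : Fin 3 × Bool → Prop) :
    Dep (insert (Sum.inr g) (((els n g).erase x).image Sum.inl))
      (fun ω : El n ⊕ J n → Fin 3 × Bool => ∃ y ∈ els n g, y ≠ x ∧ P (ω (Sum.inl y))) := by
  intro ω ω' h
  have key : ∀ y ∈ els n g, y ≠ x → ω (Sum.inl y) = ω' (Sum.inl y) := by
    intro y hy hyx
    exact h _ (Finset.mem_insert_of_mem (Finset.mem_image_of_mem _ (Finset.mem_erase.2 ⟨hyx, hy⟩)))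
  apply propext
  constructor
  · rintro ⟨y, hy, hyx, hP⟩
    exact ⟨y, hy, hyx, by rwa [← key y hy hyx]⟩
  · rintro ⟨y, hy, hyx, hP⟩
    exact ⟨y, hy, hyx, by rwa [key y hy hyx]⟩

theorem Lab_dep_co {n : ℕ} (x : El n) (g : J n) (P : Fin 3 × Bool → Prop) :
    Dep (insert (Sum.inr g) (((els n g).erase x).image Sum.inl))
      (fun ω : El n ⊕ J n → Fin 3 × Bool => P (ω (Sum.inr g))) := by
  intro ω ω' h
  show P (ω (Sum.inr g)) = P (ω' (Sum.inr g))
  rw [h _ (Finset.mem_insert_self _ _)]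

/-- the probability of a condition on the labels of some elements -/
theorem Lab_pw_all {n : ℕ} {ρ θ τ : ℝ} (hw : IsW (Lab_w n ρ θ τ)) (x : El n) (g : J n)
    (Q : El n → Prop) [DecidablePred Q] (P : Fin 3 × Bool → Prop) [DecidablePred P] :
    PW (Lab_w n ρ θ τ) (fun ω => ∀ y ∈ els n g, y ≠ x → Q y → P (ω (Sum.inl y))) =
      (∑ s : Fin 3 × Bool, if P s then (if s.1 = 0 then 1 - 2 * ρ else ρ) *
        (if s.2 = true then θ else 1 - θ) else 0) ^ (((els n g).erase x).filter Q).card := by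
  have h1 := pw_all hw ((((els n g).erase x).filter Q).image Sum.inl) (fun _ s => P s)
  have h2 : (fun ω : El n ⊕ J n → Fin 3 × Bool => ∀ i ∈ (((els n g).erase x).filter Q).image
      (Sum.inl : El n → El n ⊕ J n), P (ω i)) =
      fun ω => ∀ y ∈ els n g, y ≠ x → Q y → P (ω (Sum.inl y)) := by
    funext ω
    apply propext
    constructor
    · intro h y hy hyx hQ
      exact h _ (Finset.mem_image_of_mem _ (Finset.mem_filter.2 ⟨Finset.mem_erase.2 ⟨hyx, hy⟩, hQ⟩))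
    · intro h i hi
      obtain ⟨y, hy, rfl⟩ := Finset.mem_image.1 hi
      rw [Finset.mem_filter, Finset.mem_erase] at hy
      exact h y hy.1.2 hy.1.1 hy.2
  rw [h2] at h1
  rw [h1, Finset.prod_image (fun a _ b _ h => Sum.inl_injective h)]
  show (∏ _y ∈ ((els n g).erase x).filter Q, ∑ s : Fin 3 × Bool, if P s then
    (if s.1 = 0 then 1 - 2 * ρ else ρ) * (if s.2 = true then θ else 1 - θ) else 0) = _
  rw [Finset.prod_const]

theorem Lab_pw_all0 {n : ℕ} {ρ θ τ : ℝ} (hw : IsW (Lab_w n ρ θ τ)) (x : El n) (g : J n)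
    (P : Fin 3 × Bool → Prop) [DecidablePred P] :
    PW (Lab_w n ρ θ τ) (fun ω => ∀ y ∈ els n g, y ≠ x → P (ω (Sum.inl y))) =
      (∑ s : Fin 3 × Bool, if P s then (if s.1 = 0 then 1 - 2 * ρ else ρ) *
        (if s.2 = true then θ else 1 - θ) else 0) ^ ((els n g).erase x).card := by
  have h1 := Lab_pw_all hw x g (fun _ => True) P
  rw [Finset.filter_true] at h1
  rw [← h1]
  congr 1
  funext ω
  simp

theorem Lab_dep_all0 {n : ℕ} (x : El n) (g : J n) (P : Fin 3 × Bool → Prop) :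
    Dep (insert (Sum.inr g) (((els n g).erase x).image Sum.inl))
      (fun ω : El n ⊕ J n → Fin 3 × Bool => ∀ y ∈ els n g, y ≠ x → P (ω (Sum.inl y))) := by
  intro ω ω' h
  have h1 := Lab_dep_all x g (fun _ => True) P ω ω' h
  simpa using h1

theorem Lab_pw_co {n : ℕ} {ρ θ τ : ℝ} (hw : IsW (Lab_w n ρ θ τ)) (g : J n) :
    PW (Lab_w n ρ θ τ) (fun ω => (ω (Sum.inr g)).2 = true) = τ := by
  have h1 := pw_all hw {Sum.inr g} (fun _ s => s.2 = true)
  have h2 : (fun ω : El n ⊕ J n → Fin 3 × Bool => ∀ i ∈ ({Sum.inr g} : Finset (El n ⊕ J n)),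
      (ω i).2 = true) = fun ω => (ω (Sum.inr g)).2 = true := by
    funext ω
    simp
  rw [h2, Finset.prod_singleton] at h1
  rw [h1]
  show (∑ s : Fin 3 × Bool, if s.2 = true then
    (if s.1 = 0 then (if s.2 = true then τ else 1 - τ) else 0) else 0) = τ
  rw [Fintype.sum_prod_type, Fin.sum_univ_three]
  simp

theorem Lab_card2 {n : ℕ} {x : El n} {g : J n} (h : x ∈ els n g) :
    ((els n g).erase x).card = 2 := by
  rw [Finset.card_erase_of_mem h, (hg_els n).card3]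

theorem Lab_filter_one {n : ℕ} {x y : El n} {g : J n} (h : x ∈ els n g) (hy : y ∈ els n g)
    (hyx : y ≠ x) (Q : El n → Prop) [DecidablePred Q] (h1 : ¬ Q y)
    (h2 : ∀ z ∈ els n g, z ≠ x → z ≠ y → Q z) :
    (((els n g).erase x).filter Q).card = 1 := by
  have h3 : ((els n g).erase x).filter Q = ((els n g).erase x).erase y := by
    ext z
    rw [Finset.mem_filter, Finset.mem_erase, Finset.mem_erase, Finset.mem_erase]
    constructor
    · rintro ⟨⟨h4, h5⟩, h6⟩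
      refine ⟨?_, h4, h5⟩
      rintro rfl
      exact h1 h6
    · rintro ⟨h4, h5, h6⟩
      exact ⟨⟨h5, h6⟩, h2 z h6 h5 h4⟩
  rw [h3, Finset.card_erase_of_mem (Finset.mem_erase.2 ⟨hyx, hy⟩), Lab_card2 h]

/-- a family of counts -/
abbrev Lab_K (n : ℕ) : Type :=
  (El n → Finset (J n)) × (El n → J n → (El n ⊕ J n → Fin 3 × Bool) → Prop)

/-- the counts are admissible -/
def Lab_ok (n : ℕ) (W1 : Finset (J n)) (L : Lab_K n) : Prop :=
  (∀ x, L.1 x ⊆ W1 ∩ st n x) ∧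
    ∀ x g, Dep (insert (Sum.inr g) (((els n g).erase x).image Sum.inl)) (L.2 x g)

open Classical in
theorem Lab_apply {n : ℕ} {W1 : Finset (J n)} {D t : ℝ}
    (hD1 : 1 ≤ D) (hD : ∀ a, ((W1 ∩ st n a).card : ℝ) ≤ D) {w : El n ⊕ J n → Fin 3 × Bool → ℝ}
    (hw : IsW w) (L : Fin 10 → Lab_K n) (hL : ∀ k, Lab_ok n W1 (L k)) (ht : 0 ≤ t)
    (hnum : 80 * 10 * D ^ 2 * Real.exp (-(t ^ 2 / (4 * D))) ≤ 1) :
    ∃ ω : El n ⊕ J n → Fin 3 × Bool, ∀ k x,
      |(cnt (fun g => g ∈ (L k).1 x ∧ (L k).2 x g ω) : ℝ) -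
        ∑ g ∈ (L k).1 x, PW w ((L k).2 x g)| ≤ t := by
  obtain ⟨ω, -, hω⟩ := labG (hg_els n) (W := W1) hD1
    (fun x => by rw [star_els]; exact hD x) hw (ι := El n × Fin 10) (fun i => i.1)
    (fun i => (L i.2).1 i.1) (fun i => by rw [star_els]; exact (hL i.2).1 i.1)
    (fun i g => (L i.2).2 i.1 g) (fun i g _ => (hL i.2).2 i.1 g) (K := 10) (by norm_num)
    (fun x => by
      have h1 : (univ.filter (fun i : El n × Fin 10 => i.1 = x)).card = 10 := by
        have h2 : (univ.filter (fun i : El n × Fin 10 => i.1 = x)) =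
            (univ : Finset (Fin 10)).image (fun k => (x, k)) := by
          ext ⟨a, k⟩
          simp only [Finset.mem_filter, Finset.mem_univ, true_and, Finset.mem_image,
            Prod.mk.injEq]
          constructor
          · intro h
            exact ⟨k, h.symm, rfl⟩
          · rintro ⟨_, h, _⟩
            exact h.symm
        rw [h2, Finset.card_image_of_injective _ (fun a b h => (Prod.mk.inj h).2)]
        simp
      rw [h1]
      norm_num) ht hnum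
  refine ⟨ω, fun k x => ?_⟩
  rw [cnt_filter]
  exact hω (x, k)

theorem Lab_num : ∀ᶠ u : ℝ in atTop, 80 * 10 * (4 * u ^ 200) ^ 2 *
    Real.exp (-((u ^ 102) ^ 2 / (4 * (4 * u ^ 200)))) ≤ 1 := by
  have h1 := Real.tendsto_pow_mul_exp_neg_atTop_nhds_zero 100
  have h2 : Tendsto (fun u : ℝ => u ^ 4 / 16) atTop atTop :=
    (tendsto_pow_atTop (by norm_num)).atTop_div_const (by norm_num)
  have h3 := h1.comp h2
  have h4 := h3.const_mul ((12800 : ℝ) * 16 ^ 100)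
  rw [mul_zero] at h4
  have h5 := h4.eventually (gt_mem_nhds (by norm_num : (0 : ℝ) < 1))
  filter_upwards [h5, eventually_gt_atTop 0] with u hu hu0
  have h6 : (u ^ 102) ^ 2 / (4 * (4 * u ^ 200)) = u ^ 4 / 16 := by
    field_simp
    ring
  rw [h6]
  have h7 : (12800 : ℝ) * 16 ^ 100 * ((u ^ 4 / 16) ^ 100 * Real.exp (-(u ^ 4 / 16))) =
      80 * 10 * (4 * u ^ 200) ^ 2 * Real.exp (-(u ^ 4 / 16)) := by
    rw [div_pow]
    ring
  rw [← h7]
  exact hu.le

theorem Lab_tau {u α : ℝ} (hu : 2 ≤ u) (h0 : 0 ≤ α) (h1 : α ≤ 1 / u) :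
    0 ≤ tau u α ∧ tau u α ≤ 1 := by
  have h2 : (u ^ 3)⁻¹ ≤ 1 / 8 := by
    have h3 : (2 : ℝ) ^ 3 ≤ u ^ 3 := pow_le_pow_left₀ (by norm_num) hu 3
    rw [inv_eq_one_div]
    exact one_div_le_one_div_of_le (by norm_num) (by linarith)
  have h3 : 0 ≤ (u ^ 3)⁻¹ := by positivity
  have h4 : α ≤ 1 / 2 := h1.trans (one_div_le_one_div_of_le (by norm_num) hu)
  unfold tau
  set q := 1 - 2 * (u ^ 3)⁻¹ with hq
  have hq0 : 0 ≤ q := by linarith
  have hq1 : q ≤ 1 := by linarith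
  have h5 : 0 ≤ α * q / (1 - α) := div_nonneg (mul_nonneg h0 hq0) (by linarith)
  have h6 : α * q / (1 - α) ≤ 1 := by
    rw [div_le_one (by linarith)]
    nlinarith
  constructor
  · exact mul_nonneg hq0 (by linarith)
  · nlinarith

theorem lab : ∀ᶠ u : ℝ in atTop, ∀ (n : ℕ) (α : ℝ), 0 ≤ α → α ≤ 1 / u →
    ∀ (Z : Finset (Pt n)) (W1 H : Finset (J n)), H ⊆ W1 →
    (∀ a, ((W1 ∩ st n a).card : ℝ) ≤ 4 * u ^ 200) →
    ∃ (cl : El n → Fin 3) (pre : El n → Bool) (co : J n → Bool),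
      LabOK n u α Z W1 H cl pre co := by
  classical
  filter_upwards [Lab_num, eventually_ge_atTop 30] with u hnum hu n α hα0 hα1 Z W1 H hHW hdeg
  have hu0 : 0 < u := by linarith
  have hu1 : 1 ≤ u := by linarith
  -- the two points of an element
  have hpts : ∀ x : El n, ∃ p q : Pt n, ptE n x = {p, q} := fun x => by
    obtain ⟨p, q, -, h⟩ := Finset.card_eq_two.1 (card_ptE x)
    exact ⟨p, q, h⟩
  choose p q hpq using hpts
  set ρ : ℝ := (u ^ 3)⁻¹ with hρ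
  set θ : ℝ := (u ^ 48)⁻¹ with hθ
  have hρ0 : 0 ≤ ρ := by positivity
  have hρ1 : 2 * ρ ≤ 1 := by
    have h3 : (30 : ℝ) ^ 3 ≤ u ^ 3 := pow_le_pow_left₀ (by norm_num) hu 3
    have h4 : ρ ≤ 1 / 2 := by
      rw [hρ, inv_eq_one_div]
      exact one_div_le_one_div_of_le (by norm_num) (by linarith)
    linarith
  have hθ0 : 0 ≤ θ := by positivity
  have hθ1 : θ ≤ 1 := inv_le_one_of_one_le₀ (one_le_pow₀ hu1)
  obtain ⟨hτ0, hτ1⟩ := Lab_tau (by linarith : (2 : ℝ) ≤ u) hα0 hα1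
  have hw := Lab_isW n hρ0 hρ1 hθ0 hθ1 hτ0 hτ1
  have hst : ∀ x i, stz n Z x i ⊆ st n x := fun x i => Finset.filter_subset _ _
  have hTs : ∀ x, H ∩ st n x ⊆ W1 ∩ st n x := fun x => Finset.inter_subset_inter_right hHW
  have hTz : ∀ x i, H ∩ stz n Z x i ⊆ W1 ∩ st n x := fun x i =>
    (Finset.inter_subset_inter_left (hst x i)).trans (hTs x)
  let L : Fin 10 → Lab_K n := ![
    (fun x => W1 ∩ st n x, fun x g ω => ∃ y ∈ els n g, y ≠ x ∧ (ω (Sum.inl y)).2 = true),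
    (fun x => H ∩ st n x, fun x g ω => ∀ y ∈ els n g, y ≠ x → (ω (Sum.inl y)).2 = true),
    (fun x => H ∩ stz n Z x 0, fun x g ω => (ω (Sum.inr g)).2 = true),
    (fun x => H ∩ stz n Z x 1, fun x g ω => ∀ y ∈ els n g, y ≠ x → (ω (Sum.inl y)).1 = 0),
    (fun x => H ∩ stz n Z x 1, fun x g ω => ∀ y ∈ els n g, y ≠ x → (ω (Sum.inl y)).1 = 1),
    (fun x => H ∩ stz n Z x 0, fun x g ω => ∀ y ∈ els n g, y ≠ x → wE n Z y = 1 →
      (ω (Sum.inl y)).1 = 0),
    (fun x => H ∩ stz n Z x 1, fun x g ω => ∀ y ∈ els n g, y ≠ x → wE n Z y = 1 →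
      (ω (Sum.inl y)).1 = 2),
    (fun x => H ∩ stz n Z x 0, fun x g ω => ∀ y ∈ els n g, y ≠ x →
      (ω (Sum.inl y)).1 ≠ 0),
    (fun x => H ∩ st n x, fun x g ω => ∀ y ∈ els n g, y ≠ x → p x ∉ ptE n y →
      (ω (Sum.inl y)).1 = 1),
    (fun x => H ∩ st n x, fun x g ω => ∀ y ∈ els n g, y ≠ x → q x ∉ ptE n y →
      (ω (Sum.inl y)).1 = 1)]
  have hL : ∀ k, Lab_ok n W1 (L k) := by
    intro k
    fin_cases k
    · exact ⟨fun x => Finset.Subset.refl _, fun x g => Lab_dep_ex x g (fun s => s.2 = true)⟩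
    · exact ⟨hTs, fun x g => Lab_dep_all0 x g (fun s => s.2 = true)⟩
    · exact ⟨fun x => hTz x 0, fun x g => Lab_dep_co x g (fun s => s.2 = true)⟩
    · exact ⟨fun x => hTz x 1, fun x g => Lab_dep_all0 x g (fun s => s.1 = 0)⟩
    · exact ⟨fun x => hTz x 1, fun x g => Lab_dep_all0 x g (fun s => s.1 = 1)⟩
    · exact ⟨fun x => hTz x 0, fun x g => Lab_dep_all x g (fun y => wE n Z y = 1)
        (fun s => s.1 = 0)⟩
    · exact ⟨fun x => hTz x 1, fun x g => Lab_dep_all x g (fun y => wE n Z y = 1)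
        (fun s => s.1 = 2)⟩
    · exact ⟨fun x => hTz x 0, fun x g => Lab_dep_all0 x g (fun s => s.1 ≠ 0)⟩
    · exact ⟨hTs, fun x g => Lab_dep_all x g (fun y => p x ∉ ptE n y) (fun s => s.1 = 1)⟩
    · exact ⟨hTs, fun x g => Lab_dep_all x g (fun y => q x ∉ ptE n y) (fun s => s.1 = 1)⟩
  have hD1 : (1 : ℝ) ≤ 4 * u ^ 200 := by
    have := one_le_pow₀ hu1 (n := 200)
    linarith
  obtain ⟨ω, hω⟩ := Lab_apply hD1 hdeg hw L hL (t := u ^ 102) (by positivity) hnum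
  -- memberships
  have hel : ∀ {x : El n} {g : J n} {F : Finset (J n)}, g ∈ F ∩ st n x → x ∈ els n g :=
    fun h => mem_els.2 (Finset.mem_inter.1 h).2
  have helz : ∀ {x : El n} {g : J n} {F : Finset (J n)} {i : ℕ}, g ∈ F ∩ stz n Z x i →
      x ∈ els n g ∧ wJ n Z g = wE n Z x + i := fun h => mem_stz.1 (Finset.mem_inter.1 h).2
  -- probabilities of the labels
  have s2 : (∑ s : Fin 3 × Bool, if s.2 = true then (if s.1 = 0 then 1 - 2 * ρ else ρ) *
        (if s.2 = true then θ else 1 - θ) else 0) = θ := by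
    rw [Fintype.sum_prod_type, Fin.sum_univ_three]
    simp
    ring
  have s0 : (∑ s : Fin 3 × Bool, if s.1 = 0 then (if s.1 = 0 then 1 - 2 * ρ else ρ) *
        (if s.2 = true then θ else 1 - θ) else 0) = 1 - 2 * ρ := by
    rw [Fintype.sum_prod_type, Fin.sum_univ_three]
    simp
    ring
  have s1 : (∑ s : Fin 3 × Bool, if s.1 = 1 then (if s.1 = 0 then 1 - 2 * ρ else ρ) *
        (if s.2 = true then θ else 1 - θ) else 0) = ρ := by
    rw [Fintype.sum_prod_type, Fin.sum_univ_three]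
    simp
    ring
  have s1' : (∑ s : Fin 3 × Bool, if s.1 = 2 then (if s.1 = 0 then 1 - 2 * ρ else ρ) *
        (if s.2 = true then θ else 1 - θ) else 0) = ρ := by
    rw [Fintype.sum_prod_type, Fin.sum_univ_three]
    simp
    ring
  have sn : (∑ s : Fin 3 × Bool, if s.1 ≠ 0 then (if s.1 = 0 then 1 - 2 * ρ else ρ) *
        (if s.2 = true then θ else 1 - θ) else 0) = 2 * ρ := by
    rw [Fintype.sum_prod_type, Fin.sum_univ_three]
    simp
    ring
  have hcnt : ∀ (F : Finset (J n)) (G : Finset (J n)) (P : J n → Prop),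
      cnt (fun g => g ∈ F ∧ g ∈ G ∧ P g) = cnt (fun g => g ∈ F ∩ G ∧ P g) := by
    intro F G P
    refine cnt_congr fun g => ?_
    rw [Finset.mem_inter, and_assoc]
  have hall : ∀ (x : El n) (g : J n) (P : Fin 3 × Bool → Prop) [DecidablePred P],
      x ∈ els n g →
      PW (Lab_w n ρ θ (tau u α)) (fun ω => ∀ y ∈ els n g, y ≠ x → P (ω (Sum.inl y))) =
      (∑ s : Fin 3 × Bool, if P s then (if s.1 = 0 then 1 - 2 * ρ else ρ) *
        (if s.2 = true then θ else 1 - θ) else 0) ^ 2 := by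
    intro x g P _ hx
    rw [Lab_pw_all0 hw x g P, Lab_card2 hx]
  have hone : ∀ (x : El n) (g : J n) (Q : El n → Prop) [DecidablePred Q]
      (P : Fin 3 × Bool → Prop) [DecidablePred P], (((els n g).erase x).filter Q).card = 1 →
      PW (Lab_w n ρ θ (tau u α)) (fun ω => ∀ y ∈ els n g, y ≠ x → Q y → P (ω (Sum.inl y))) =
      (∑ s : Fin 3 × Bool, if P s then (if s.1 = 0 then 1 - 2 * ρ else ρ) *
        (if s.2 = true then θ else 1 - θ) else 0) := by
    intro x g Q _ P _ hQ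
    rw [Lab_pw_all hw x g Q P, hQ, pow_one]
  have hp6 : ∀ (x : El n) (s : Pt n), s ∈ ptE n x → ∀ g ∈ H ∩ st n x,
      PW (Lab_w n ρ θ (tau u α)) (fun ω => ∀ y ∈ els n g, y ≠ x → s ∉ ptE n y →
        (ω (Sum.inl y)).1 = 1) = ρ := by
    intro x s hs g hg
    have hx := hel hg
    obtain ⟨y, hy, hyx, hsy⟩ := other_exists hx hs
    rw [hone x g (fun y => s ∉ ptE n y) (fun s => s.1 = 1), s1]
    refine Lab_filter_one hx hy hyx _ (fun h => h hsy) fun z hz hzx hzy hsz => ?_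
    exact hzy (other_unique hx hs hz hzx hsz hy hyx hsy)
  have hc6 : ∀ (x : El n), ((H ∩ st n x).card : ℝ) * ρ + u ^ 102 ≤ 5 * u ^ 197 := by
    intro x
    have h1 : ((H ∩ st n x).card : ℝ) ≤ 4 * u ^ 200 :=
      le_trans (by exact_mod_cast Finset.card_le_card (hTs x)) (hdeg x)
    have h2 : ((H ∩ st n x).card : ℝ) * ρ ≤ 4 * u ^ 200 * ρ := mul_le_mul_of_nonneg_right h1 hρ0
    have h3 : 4 * u ^ 200 * ρ = 4 * u ^ 197 := by
      rw [hρ]
      field_simp
    have h4 : u ^ 102 ≤ u ^ 197 := pow_le_pow_right₀ hu1 (by norm_num)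
    linarith
  refine ⟨fun y => (ω (Sum.inl y)).1, fun y => (ω (Sum.inl y)).2, fun g => (ω (Sum.inr g)).2,
    ?_, ?_, ?_, ?_, ?_, ?_, ?_, ?_, ?_⟩
  · -- l0
    intro x
    have h1 : |(cnt (fun g => g ∈ W1 ∩ st n x ∧ ∃ y ∈ els n g, y ≠ x ∧
        (ω (Sum.inl y)).2 = true) : ℝ) - ∑ g ∈ W1 ∩ st n x,
        PW (Lab_w n ρ θ (tau u α)) (fun ω => ∃ y ∈ els n g, y ≠ x ∧ (ω (Sum.inl y)).2 = true)| ≤
        u ^ 102 := hω 0 x
    rw [hcnt]
    have h2 : ∑ g ∈ W1 ∩ st n x, PW (Lab_w n ρ θ (tau u α))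
        (fun ω => ∃ y ∈ els n g, y ≠ x ∧ (ω (Sum.inl y)).2 = true) ≤
        ∑ g ∈ W1 ∩ st n x, 2 * θ := by
      refine Finset.sum_le_sum fun g hg => ?_
      have hx := hel hg
      have h3 := pw_ex hw ((els n g).erase x)
        (fun y (ω : El n ⊕ J n → Fin 3 × Bool) => (ω (Sum.inl y)).2 = true)
      have h4 : (fun ω : El n ⊕ J n → Fin 3 × Bool =>
          ∃ y ∈ (els n g).erase x, (ω (Sum.inl y)).2 = true) =
          fun ω => ∃ y ∈ els n g, y ≠ x ∧ (ω (Sum.inl y)).2 = true := by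
        funext ω
        apply propext
        constructor
        · rintro ⟨y, hy, h5⟩
          rw [Finset.mem_erase] at hy
          exact ⟨y, hy.2, hy.1, h5⟩
        · rintro ⟨y, hy, hyx, h5⟩
          exact ⟨y, Finset.mem_erase.2 ⟨hyx, hy⟩, h5⟩
      rw [h4] at h3
      refine h3.trans (le_of_eq ?_)
      have h5 : ∀ y ∈ (els n g).erase x, PW (Lab_w n ρ θ (tau u α))
          (fun ω => (ω (Sum.inl y)).2 = true) = θ := by
        intro y _
        have h6 := pw_all hw {Sum.inl y} (fun _ s => s.2 = true)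
        have h7 : (fun ω : El n ⊕ J n → Fin 3 × Bool =>
            ∀ i ∈ ({Sum.inl y} : Finset (El n ⊕ J n)), (ω i).2 = true) =
            fun ω => (ω (Sum.inl y)).2 = true := by
          funext ω
          simp
        rw [h7, Finset.prod_singleton] at h6
        rw [h6]
        exact s2
      rw [Finset.sum_congr rfl h5, Finset.sum_const, Lab_card2 hx, nsmul_eq_mul]
      norm_num
    rw [Finset.sum_const, nsmul_eq_mul] at h2
    have h3 : ((W1 ∩ st n x).card : ℝ) * (2 * θ) ≤ 4 * u ^ 200 * (2 * θ) :=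
      mul_le_mul_of_nonneg_right (hdeg x) (by positivity)
    have h4 : 4 * u ^ 200 * (2 * θ) = 8 * u ^ 152 := by
      rw [hθ]
      field_simp
      ring
    have h5 : u ^ 102 ≤ u ^ 152 := pow_le_pow_right₀ hu1 (by norm_num)
    have h6 := (abs_le.1 h1).2
    linarith
  · -- l5
    intro x hx5
    have h1 : |(cnt (fun g => g ∈ H ∩ st n x ∧ ∀ y ∈ els n g, y ≠ x →
        (ω (Sum.inl y)).2 = true) : ℝ) - ∑ g ∈ H ∩ st n x,
        PW (Lab_w n ρ θ (tau u α)) (fun ω => ∀ y ∈ els n g, y ≠ x →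
          (ω (Sum.inl y)).2 = true)| ≤ u ^ 102 := hω 1 x
    rw [hcnt]
    have h2 : ∑ g ∈ H ∩ st n x, PW (Lab_w n ρ θ (tau u α)) (fun ω => ∀ y ∈ els n g, y ≠ x →
        (ω (Sum.inl y)).2 = true) = ((H ∩ st n x).card : ℝ) * θ ^ 2 := by
      rw [Finset.sum_congr rfl fun g hg => hall x g (fun s => s.2 = true) (hel hg), s2,
        Finset.sum_const, nsmul_eq_mul]
    rw [h2] at h1
    have h3 : u ^ 200 / 400 * θ ^ 2 ≤ ((H ∩ st n x).card : ℝ) * θ ^ 2 :=
      mul_le_mul_of_nonneg_right hx5 (by positivity)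
    have h4 : u ^ 200 / 400 * θ ^ 2 = u ^ 104 / 400 := by
      rw [hθ]
      field_simp
    have h5 : u ^ 102 ≤ u ^ 104 / 800 := by
      have h6 : u ^ 104 = u ^ 102 * u ^ 2 := by ring
      have h7 : (800 : ℝ) ≤ u ^ 2 := by nlinarith
      rw [h6]
      have h8 : 0 < u ^ 102 := by positivity
      nlinarith
    have h6 := (abs_le.1 h1).1
    linarith
  · -- l1
    intro x _
    have h1 : |(cnt (fun g => g ∈ H ∩ stz n Z x 0 ∧ (ω (Sum.inr g)).2 = true) : ℝ) -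
        ∑ g ∈ H ∩ stz n Z x 0, PW (Lab_w n ρ θ (tau u α)) (fun ω => (ω (Sum.inr g)).2 = true)| ≤
        u ^ 102 := hω 2 x
    rw [hcnt]
    rw [Finset.sum_congr rfl fun g _ => Lab_pw_co hw g, Finset.sum_const, nsmul_eq_mul,
      mul_comm ((_ : ℕ) : ℝ)] at h1
    exact h1
  · -- l1'
    intro x _
    have h1 : |(cnt (fun g => g ∈ H ∩ stz n Z x 1 ∧ ∀ y ∈ els n g, y ≠ x →
        (ω (Sum.inl y)).1 = 0) : ℝ) - ∑ g ∈ H ∩ stz n Z x 1,
        PW (Lab_w n ρ θ (tau u α)) (fun ω => ∀ y ∈ els n g, y ≠ x →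
          (ω (Sum.inl y)).1 = 0)| ≤ u ^ 102 := hω 3 x
    rw [hcnt]
    rw [Finset.sum_congr rfl fun g hg => hall x g (fun s => s.1 = 0) (helz hg).1, s0,
      Finset.sum_const, nsmul_eq_mul, mul_comm ((_ : ℕ) : ℝ)] at h1
    exact h1
  · -- l2
    intro x _
    have h1 : |(cnt (fun g => g ∈ H ∩ stz n Z x 1 ∧ ∀ y ∈ els n g, y ≠ x →
        (ω (Sum.inl y)).1 = 1) : ℝ) - ∑ g ∈ H ∩ stz n Z x 1,
        PW (Lab_w n ρ θ (tau u α)) (fun ω => ∀ y ∈ els n g, y ≠ x →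
          (ω (Sum.inl y)).1 = 1)| ≤ u ^ 102 := hω 4 x
    rw [hcnt]
    rw [Finset.sum_congr rfl fun g hg => hall x g (fun s => s.1 = 1) (helz hg).1, s1,
      Finset.sum_const, nsmul_eq_mul, mul_comm ((_ : ℕ) : ℝ)] at h1
    have h2 : ρ ^ 2 = (u ^ 6)⁻¹ := by
      rw [hρ, inv_pow, ← pow_mul]
    rw [h2] at h1
    have h6 := (abs_le.1 h1).1
    linarith
  · -- l3
    intro x hx1
    have h1 : |(cnt (fun g => g ∈ H ∩ stz n Z x 0 ∧ ∀ y ∈ els n g, y ≠ x → wE n Z y = 1 →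
        (ω (Sum.inl y)).1 = 0) : ℝ) - ∑ g ∈ H ∩ stz n Z x 0,
        PW (Lab_w n ρ θ (tau u α)) (fun ω => ∀ y ∈ els n g, y ≠ x → wE n Z y = 1 →
          (ω (Sum.inl y)).1 = 0)| ≤ u ^ 102 := hω 5 x
    rw [hcnt]
    have h2 : ∀ g ∈ H ∩ stz n Z x 0, PW (Lab_w n ρ θ (tau u α)) (fun ω => ∀ y ∈ els n g,
        y ≠ x → wE n Z y = 1 → (ω (Sum.inl y)).1 = 0) = 1 - 2 * ρ := by
      intro g hg
      obtain ⟨hx, hJ⟩ := helz hg
      rw [hx1] at hJ
      obtain ⟨x0, hx0, hx00, hoth⟩ := w_one hJ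
      have hne : x0 ≠ x := by
        rintro rfl
        omega
      rw [hone x g (fun y => wE n Z y = 1) (fun s => s.1 = 0), s0]
      exact Lab_filter_one hx hx0 hne _ (fun h => by rw [hx00] at h; omega)
        fun z hz _ hzy => hoth z hz hzy
    rw [Finset.sum_congr rfl h2, Finset.sum_const, nsmul_eq_mul, mul_comm ((_ : ℕ) : ℝ)] at h1
    exact h1
  · -- l4
    intro x hx1
    have h1 : |(cnt (fun g => g ∈ H ∩ stz n Z x 1 ∧ ∀ y ∈ els n g, y ≠ x → wE n Z y = 1 →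
        (ω (Sum.inl y)).1 = 2) : ℝ) - ∑ g ∈ H ∩ stz n Z x 1,
        PW (Lab_w n ρ θ (tau u α)) (fun ω => ∀ y ∈ els n g, y ≠ x → wE n Z y = 1 →
          (ω (Sum.inl y)).1 = 2)| ≤ u ^ 102 := hω 6 x
    rw [hcnt]
    have h2 : ∀ g ∈ H ∩ stz n Z x 1, PW (Lab_w n ρ θ (tau u α)) (fun ω => ∀ y ∈ els n g,
        y ≠ x → wE n Z y = 1 → (ω (Sum.inl y)).1 = 2) = ρ := by
      intro g hg
      obtain ⟨hx, hJ⟩ := helz hg
      rw [hx1] at hJ
      obtain ⟨x0, hx0, hx00, hoth⟩ := w_two hJ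
      have hne : x0 ≠ x := by
        rintro rfl
        omega
      rw [hone x g (fun y => wE n Z y = 1) (fun s => s.1 = 2), s1']
      exact Lab_filter_one hx hx0 hne _ (fun h => by rw [hx00] at h; omega)
        fun z hz _ hzy => hoth z hz hzy
    rw [Finset.sum_congr rfl h2, Finset.sum_const, nsmul_eq_mul, mul_comm ((_ : ℕ) : ℝ)] at h1
    have h6 := (abs_le.1 h1).1
    linarith
  · -- l6
    intro x s hs
    rw [hcnt]
    have hs' : s = p x ∨ s = q x := by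
      rw [hpq x] at hs
      simpa using hs
    rcases hs' with rfl | rfl
    · have h1 : |(cnt (fun g => g ∈ H ∩ st n x ∧ ∀ y ∈ els n g, y ≠ x → p x ∉ ptE n y →
          (ω (Sum.inl y)).1 = 1) : ℝ) - ∑ g ∈ H ∩ st n x,
          PW (Lab_w n ρ θ (tau u α)) (fun ω => ∀ y ∈ els n g, y ≠ x → p x ∉ ptE n y →
            (ω (Sum.inl y)).1 = 1)| ≤ u ^ 102 := hω 8 x
      rw [Finset.sum_congr rfl (hp6 x (p x) hs), Finset.sum_const, nsmul_eq_mul] at h1
      have h6 := (abs_le.1 h1).2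
      linarith [hc6 x]
    · have h1 : |(cnt (fun g => g ∈ H ∩ st n x ∧ ∀ y ∈ els n g, y ≠ x → q x ∉ ptE n y →
          (ω (Sum.inl y)).1 = 1) : ℝ) - ∑ g ∈ H ∩ st n x,
          PW (Lab_w n ρ θ (tau u α)) (fun ω => ∀ y ∈ els n g, y ≠ x → q x ∉ ptE n y →
            (ω (Sum.inl y)).1 = 1)| ≤ u ^ 102 := hω 9 x
      rw [Finset.sum_congr rfl (hp6 x (q x) hs), Finset.sum_const, nsmul_eq_mul] at h1
      have h6 := (abs_le.1 h1).2
      linarith [hc6 x]
  · -- l7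
    intro x _
    have h1 : |(cnt (fun g => g ∈ H ∩ stz n Z x 0 ∧ ∀ y ∈ els n g, y ≠ x →
        (ω (Sum.inl y)).1 ≠ 0) : ℝ) - ∑ g ∈ H ∩ stz n Z x 0,
        PW (Lab_w n ρ θ (tau u α)) (fun ω => ∀ y ∈ els n g, y ≠ x →
          (ω (Sum.inl y)).1 ≠ 0)| ≤ u ^ 102 := hω 7 x
    rw [hcnt]
    rw [Finset.sum_congr rfl fun g hg => hall x g (fun s => s.1 ≠ 0) (helz hg).1, sn,
      Finset.sum_const, nsmul_eq_mul] at h1
    have h2 : ((H ∩ stz n Z x 0).card : ℝ) ≤ 4 * u ^ 200 :=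
      le_trans (by exact_mod_cast Finset.card_le_card (hTz x 0)) (hdeg x)
    have h3 : ((H ∩ stz n Z x 0).card : ℝ) * (2 * ρ) ^ 2 ≤ 4 * u ^ 200 * (2 * ρ) ^ 2 :=
      mul_le_mul_of_nonneg_right h2 (by positivity)
    have h4 : 4 * u ^ 200 * (2 * ρ) ^ 2 = 16 * u ^ 194 := by
      rw [hρ]
      field_simp
      ring
    have h5 : u ^ 102 ≤ u ^ 194 := pow_le_pow_right₀ hu1 (by norm_num)
    have h6 := (abs_le.1 h1).2
    linarith

end Pool.Agent.Lib.CD
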