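import Pool.Agent.Lib.MP_dcb6ed_co_CD.Hoeff
import Pool.Agent.Lib.MP_dcb6ed_co_CD.LLLs

/-!
# Random labels, abstract form

Coordinates: the vertices and the hyperedges of a linear 3-uniform hypergraph.  A count `i` has a
base `b i`, a set `T i` of hyperedges through the base, and for `g ∈ T i` an event `A i g` which
depends only on the labels of `g` and of the (two) vertices of `g` different from the base.

Proof.  For fixed `i` and different `g, g' ∈ T i` the sets of coordinates
`insert (inr g) (((el g).erase (b i)).image inl)` are disjoint (linearity: `el g ∩ el g' = {b i}`).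
By `hoeff_up`, `hoeff_lo` for the indicators of `A i g`, `m = D`, the event `|count - mean| > t` has
probability at most `P = 2 exp (- t² / (4 D))` (`EW w` of the indicator is `PW`).  Let `V i` be the
union of the sets of coordinates, `|V i| ≤ 3 D`.  A coordinate `inl y` is in `V i` only if there is
`g ∈ T i` with `y ∈ el g`, `y ≠ b i`: `g ∈ star W y` (`≤ D` choices), `b i` one of the other two
vertices of `g`, `i` with this base (`≤ K`): at most `2 D K`.  A coordinate `inr g`: `b i ∈ el g`:
at most `3 K ≤ 3 D K`.  Apply `lll_deg` with `σ = 3 D K P`, `m = 3 D`: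
`P + 9 D² K P ≤ 10 D² K P = 20 D² K exp (- t² / (4 D)) ≤ 1/4`.
-/

set_option autoImplicit false

namespace Pool.Agent.Lib.CD

open Finset

/-- the coordinates of a hyperedge, without its base -/
def LabG_V {E X : Type} [DecidableEq E] [DecidableEq X] (el : E → Finset X) (x : X) (g : E) :
    Finset (X ⊕ E) :=
  insert (Sum.inr g) (((el g).erase x).image Sum.inl)

theorem LabG_inl {E X : Type} [DecidableEq E] [DecidableEq X] {el : E → Finset X} {x : X} {g : E}
    {y : X} : (Sum.inl y : X ⊕ E) ∈ LabG_V el x g ↔ y ≠ x ∧ y ∈ el g := by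
  unfold LabG_V
  rw [mem_insert, mem_image]
  constructor
  · rintro (h | ⟨z, hz, h⟩)
    · exact absurd h (by simp)
    · obtain rfl : z = y := Sum.inl_injective h
      exact mem_erase.1 hz
  · intro h
    exact Or.inr ⟨y, mem_erase.2 h, rfl⟩

theorem LabG_inr {E X : Type} [DecidableEq E] [DecidableEq X] {el : E → Finset X} {x : X} {g g' : E} :
    (Sum.inr g' : X ⊕ E) ∈ LabG_V el x g ↔ g' = g := by
  unfold LabG_V
  rw [mem_insert, mem_image]
  constructor
  · rintro (h | ⟨z, hz, h⟩)
    · exact Sum.inr_injective h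
    · exact absurd h (by simp)
  · rintro rfl
    exact Or.inl rfl

theorem LabG_card {E X : Type} [DecidableEq E] [DecidableEq X] {el : E → Finset X}
    (h3 : ∀ e, (el e).card = 3) {x : X} {g : E} (hx : x ∈ el g) :
    (LabG_V el x g).card ≤ 3 := by
  unfold LabG_V
  refine (card_insert_le _ _).trans ?_
  have h1 := card_image_le (s := (el g).erase x) (f := (Sum.inl : X → X ⊕ E))
  rw [card_erase_of_mem hx, h3] at h1
  omega

theorem LabG_disj {E X : Type} [DecidableEq E] [DecidableEq X] {el : E → Finset X}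
    (hl : ∀ e f, e ≠ f → ((el e) ∩ (el f)).card ≤ 1) {x : X} {g g' : E} (hx : x ∈ el g)
    (hx' : x ∈ el g') (hg : g ≠ g') : Disjoint (LabG_V el x g) (LabG_V el x g') := by
  rw [disjoint_left]
  rintro (y | e) h1 h2
  · rw [LabG_inl] at h1 h2
    have h3 := hl g g' hg
    rw [card_le_one] at h3
    exact h1.1 (h3 y (mem_inter.2 ⟨h1.2, h2.2⟩) x (mem_inter.2 ⟨hx, hx'⟩))
  · rw [LabG_inr] at h1 h2
    exact hg (h1.symm.trans h2)

open Classical in
theorem labG {E X S ι : Type} [Fintype E] [DecidableEq E] [Fintype X] [DecidableEq X]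
    [Fintype S] [Fintype ι] {el : E → Finset X} (hG : HG el) {W : Finset E} {D : ℝ}
    (hD1 : 1 ≤ D) (hD : ∀ x, ((star el W x).card : ℝ) ≤ D) {w : X ⊕ E → S → ℝ} (hw : IsW w)
    (b : ι → X) (T : ι → Finset E) (hT : ∀ i, T i ⊆ star el W (b i))
    (A : ι → E → (X ⊕ E → S) → Prop)
    (hA : ∀ i, ∀ g ∈ T i, Dep (insert (Sum.inr g) (((el g).erase (b i)).image Sum.inl)) (A i g))
    {K : ℝ} (hK1 : 1 ≤ K) (hK : ∀ x, ((univ.filter (fun i => b i = x)).card : ℝ) ≤ K) {t : ℝ}
    (ht : 0 ≤ t) (hnum : 80 * K * D ^ 2 * Real.exp (-(t ^ 2 / (4 * D))) ≤ 1) :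
    ∃ ω : X ⊕ E → S, (∀ j, 0 < w j (ω j)) ∧
      ∀ i, |(((T i).filter (fun g => A i g ω)).card : ℝ) - ∑ g ∈ T i, PW w (A i g)| ≤ t := by
  have hbT : ∀ i, ∀ g ∈ T i, g ∈ W ∧ b i ∈ el g := fun i g hg => by
    have := hT i hg
    unfold star at this
    exact mem_filter.1 this
  have hTc : ∀ i, ((T i).card : ℝ) ≤ D := fun i => by
    refine le_trans ?_ (hD (b i))
    exact_mod_cast card_le_card (hT i)
  obtain ⟨e, he⟩ : ∃ e, e = Real.exp (-(t ^ 2 / (4 * D))) := ⟨_, rfl⟩
  rw [← he] at hnum
  have he0 : 0 < e := by rw [he]; exact Real.exp_pos _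
  -- the bad events
  let B : ι → (X ⊕ E → S) → Prop := fun i ω =>
    t < |(((T i).filter (fun g => A i g ω)).card : ℝ) - ∑ g ∈ T i, PW w (A i g)|
  let V : ι → Finset (X ⊕ E) := fun i => (T i).biUnion fun g => LabG_V el (b i) g
  have hd : ∀ i, Dep (V i) (B i) := by
    intro i ω ω' h
    have h1 : (T i).filter (fun g => A i g ω) = (T i).filter (fun g => A i g ω') := by
      refine filter_congr fun g hg => ?_
      have h2 : A i g ω = A i g ω' := hA i g hg ω ω' fun j hj => h j (mem_biUnion.2 ⟨g, hg, hj⟩)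
      rw [h2]
    change (t < |(((T i).filter (fun g => A i g ω)).card : ℝ) - ∑ g ∈ T i, PW w (A i g)|) =
      (t < |(((T i).filter (fun g => A i g ω')).card : ℝ) - ∑ g ∈ T i, PW w (A i g)|)
    rw [h1]
  have hP : ∀ i, PW w (B i) ≤ 2 * e := by
    intro i
    have hdj : ∀ k ∈ T i, ∀ l ∈ T i, k ≠ l →
        Disjoint (LabG_V el (b i) k) (LabG_V el (b i) l) := fun k hk l hl hkl =>
      LabG_disj hG.lin (hbT i k hk).2 (hbT i l hl).2 hkl
    have hdep : ∀ k ∈ T i, Dep (LabG_V el (b i) k)
        (fun ω : X ⊕ E → S => if A i k ω then (1 : ℝ) else 0) := by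
      intro k hk ω ω' h
      have h2 : A i k ω = A i k ω' := hA i k hk ω ω' h
      simp only [h2]
    have h0 : ∀ k ∈ T i, ∀ ω : X ⊕ E → S, 0 ≤ (if A i k ω then (1 : ℝ) else 0) := by
      intro k _ ω
      split_ifs <;> norm_num
    have h1 : ∀ k ∈ T i, ∀ ω : X ⊕ E → S, (if A i k ω then (1 : ℝ) else 0) ≤ 1 := by
      intro k _ ω
      split_ifs <;> norm_num
    have hu := hoeff_up hw (T i) (fun g ω => if A i g ω then (1 : ℝ) else 0)
      (fun g => LabG_V el (b i) g) h0 h1 hdep hdj (m := D) (t := t) (by linarith) (hTc i) ht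
    have hl := hoeff_lo hw (T i) (fun g ω => if A i g ω then (1 : ℝ) else 0)
      (fun g => LabG_V el (b i) g) h0 h1 hdep hdj (m := D) (t := t) (by linarith) (hTc i) ht
    rw [← he] at hu hl
    have h5 : ∀ ω, B i ω → (∑ k ∈ T i, EW w (fun ω => if A i k ω then (1 : ℝ) else 0) + t ≤
          ∑ k ∈ T i, (if A i k ω then (1 : ℝ) else 0)) ∨
        (∑ k ∈ T i, (if A i k ω then (1 : ℝ) else 0) ≤
          ∑ k ∈ T i, EW w (fun ω => if A i k ω then (1 : ℝ) else 0) - t) := by
      intro ω hω
      have h6 : ∑ k ∈ T i, (if A i k ω then (1 : ℝ) else 0) =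
          (((T i).filter (fun g => A i g ω)).card : ℝ) := by
        rw [card_filter]
        push_cast
        rfl
      have h7 : ∑ k ∈ T i, EW w (fun ω => if A i k ω then (1 : ℝ) else 0) =
          ∑ g ∈ T i, PW w (A i g) := rfl
      rw [h6, h7]
      have h8 : t < |(((T i).filter (fun g => A i g ω)).card : ℝ) - ∑ g ∈ T i, PW w (A i g)| := hω
      rcases lt_abs.1 h8 with h | h
      · left
        linarith
      · right
        linarith
    refine (pw_mono hw h5).trans ((pw_or hw _ _).trans ?_)
    linarith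
  have hKD : 1 ≤ K * D ^ 2 := by nlinarith
  obtain ⟨ω, hω1, hω2⟩ := lll_deg hw B V hd (fun _ => 2 * e) (fun _ => by positivity) hP
    (3 * D * K * (2 * e)) (3 * D) (by positivity) (by
      intro j
      rw [sum_const, nsmul_eq_mul]
      refine mul_le_mul_of_nonneg_right ?_ (by positivity)
      rcases j with y | g
      · -- a vertex
        have h1 : univ.filter (fun l => (Sum.inl y : X ⊕ E) ∈ V l) ⊆
            (star el W y).biUnion fun g => ((el g).erase y).biUnion fun x =>
              univ.filter fun l => b l = x := by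
          intro l hl
          obtain ⟨g, hg, hy⟩ := mem_biUnion.1 (mem_filter.1 hl).2
          rw [LabG_inl] at hy
          refine mem_biUnion.2 ⟨g, mem_filter.2 ⟨(hbT l g hg).1, hy.2⟩,
            mem_biUnion.2 ⟨b l, mem_erase.2 ⟨hy.1.symm, (hbT l g hg).2⟩,
              mem_filter.2 ⟨mem_univ _, rfl⟩⟩⟩
        have h2 : ((univ.filter (fun l => (Sum.inl y : X ⊕ E) ∈ V l)).card : ℝ) ≤
            ∑ g ∈ star el W y, ∑ x ∈ (el g).erase y, K := by
          refine le_trans (Nat.cast_le.2 ((card_le_card h1).trans card_biUnion_le)) ?_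
          rw [Nat.cast_sum]
          refine sum_le_sum fun g _ => ?_
          refine le_trans (Nat.cast_le.2 card_biUnion_le) ?_
          rw [Nat.cast_sum]
          exact sum_le_sum fun x _ => hK x
        have h3 : ∑ g ∈ star el W y, ∑ x ∈ (el g).erase y, K ≤
            ∑ g ∈ star el W y, 2 * K := by
          refine sum_le_sum fun g hg => ?_
          have hy : y ∈ el g := by
            unfold star at hg
            exact (mem_filter.1 hg).2
          rw [sum_const, card_erase_of_mem hy, hG.card3, nsmul_eq_mul]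
          norm_num
        rw [sum_const, nsmul_eq_mul] at h3
        have h4 := hD y
        have h5 : ((star el W y).card : ℝ) * (2 * K) ≤ D * (2 * K) :=
          mul_le_mul_of_nonneg_right h4 (by positivity)
        have h6 : 0 ≤ D * K := by positivity
        linarith
      · -- a hyperedge
        have h1 : univ.filter (fun l => (Sum.inr g : X ⊕ E) ∈ V l) ⊆
            (el g).biUnion fun x => univ.filter fun l => b l = x := by
          intro l hl
          obtain ⟨g', hg, hy⟩ := mem_biUnion.1 (mem_filter.1 hl).2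
          rw [LabG_inr] at hy
          subst hy
          exact mem_biUnion.2 ⟨b l, (hbT l g hg).2, mem_filter.2 ⟨mem_univ _, rfl⟩⟩
        have h2 : ((univ.filter (fun l => (Sum.inr g : X ⊕ E) ∈ V l)).card : ℝ) ≤
            ∑ x ∈ el g, K := by
          refine le_trans (Nat.cast_le.2 ((card_le_card h1).trans card_biUnion_le)) ?_
          rw [Nat.cast_sum]
          exact sum_le_sum fun x _ => hK x
        rw [sum_const, hG.card3, nsmul_eq_mul] at h2
        push_cast at h2
        nlinarith) (by
      intro k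
      refine le_trans (Nat.cast_le.2 card_biUnion_le) ?_
      rw [Nat.cast_sum]
      have h1 : ∑ g ∈ T k, ((LabG_V el (b k) g).card : ℝ) ≤ ∑ g ∈ T k, (3 : ℝ) := by
        refine sum_le_sum fun g hg => ?_
        exact_mod_cast LabG_card hG.card3 (hbT k g hg).2
      rw [sum_const, nsmul_eq_mul] at h1
      have := hTc k
      linarith) (by
      intro k
      nlinarith)
  exact ⟨ω, hω1, fun i => not_lt.1 (hω2 i)⟩

end Pool.Agent.Lib.CD
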