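import Pool.Agent.Lib.MP_dcb6ed_co_CD.PtsW
import Pool.Agent.Lib.MP_dcb6ed_co_CD.Trans

/-!
# Covering the remaining elements without special points

`M0 ∪ M1` is a matching: the elements of the triples of `M1 ⊆ F0` are in `Y0`, not covered by `M0`.

Let `B` be the set of the elements `x` with `wE x = 0` which are not covered by `M0 ∪ M1`; so
`x ∈ Y0`, `x ∉ cov M1`, `x` is not bad.  Options of `x`: the `g ∈ H ∩ stz x 1` such that every
`y ∈ els g`, `y ≠ x`, has `cl y = 1` and `y ∉ cov M0` (these `y` have `wE y = 1` by `w_one`, they are not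
in `Y0`, so not covered by `M1`).  By `l2`, and `M0OK.loss`,
`|O x| ≥ u^(-6) |H ∩ stz x 1| - u^102 - 10 u^152`, where
`|H ∩ stz x 1| ≥ |W0 ∩ stz x 1| ≥ (1 - u^(-36)) α u^200 ≥ u^199 / 3`
(`x` not bad, `α ≥ 1 / (2 u)`), so `|O x| ≥ u^193 / 4`.
Conflict: a common element.  Let `g ∈ O x`, `g' ∈ O x'`, `x ≠ x'`, with a common element `y`.  All
elements of `g'` except `x'` have `wE = 1`, so `y ≠ x`, and similarly `y ≠ x'`; `y` is one of the two
elements `≠ x` of `g`, `cl y = 1`, `wE y = 1`, `y ∉ Y0`.  Let `s` be the point of `y` which is not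
special.  In `g'` the point `s` is on `x'` (the two points of `x'` are the points of `g'` which are
not special), `x' ≠ y`, `x' ∈ Y0`, `x' ∉ cov M1`, and the third element `y'` of `g'` (`≠ y`, not
containing `s`, by `other_unique`) has `cl y' = 1`.  So `g'` is counted in `M1OK.ta` for `(y, s)`: at
most `11 u^190` triples `g'`, and `x'` is determined by `g'` (its only element with `wE = 0`).  So `g`
is in conflict with at most `22 u^190` pairs.  `transversal` with `Δ = ⌊22 u^190⌋₊`: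
`32 Δ ≤ 704 u^190 ≤ u^193 / 4`.
`Ms` is the set of the chosen triples.  `M0 ∪ M1 ∪ Ms` is a matching and covers all elements with
`wE = 0`; the elements of the triples of `Ms` have `wE = 0`, or `wE = 1` and `cl = 1`.
-/

set_option autoImplicit false

namespace Pool.Agent.Lib.CD

open Finset Filter
open Pool.Agent.Lib.FR (J El Edge st Cf)

private theorem Left_num {u α K : ℝ} (hu : 100 ≤ u) (hα : 1 / (2 * u) ≤ α)
    (hK : (1 - (u ^ 36)⁻¹) * (α * u ^ 200) ≤ K) :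
    704 * u ^ 190 + u ^ 102 + 10 * u ^ 152 ≤ (u ^ 6)⁻¹ * K := by
  have hu0 : 0 < u := by linarith
  have h1 : (1 / 2 : ℝ) ≤ 1 - (u ^ 36)⁻¹ := by
    have h2 : (2 : ℝ) ≤ u ^ 36 := by
      calc (2 : ℝ) ≤ u ^ 1 := by rw [pow_one]; linarith
        _ ≤ u ^ 36 := pow_le_pow_right₀ (by linarith) (by norm_num)
    have h3 : (u ^ 36)⁻¹ ≤ (2 : ℝ)⁻¹ := inv_anti₀ (by norm_num) h2
    linarith
  have h2 : u ^ 199 / 2 ≤ α * u ^ 200 := by
    have h3 := mul_le_mul_of_nonneg_right hα (show 0 ≤ u ^ 200 by positivity)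
    have h4 : 1 / (2 * u) * u ^ 200 = u ^ 199 / 2 := by
      field_simp
    linarith
  have h3 : u ^ 199 / 4 ≤ K := by
    refine le_trans ?_ hK
    have h4 : (1 / 2 : ℝ) * (u ^ 199 / 2) ≤ (1 - (u ^ 36)⁻¹) * (α * u ^ 200) :=
      mul_le_mul h1 h2 (by positivity) (by linarith)
    linarith
  rw [← div_eq_inv_mul, le_div_iff₀ (by positivity)]
  refine le_trans ?_ h3
  have e1 : u ^ 108 ≤ u ^ 196 := pow_le_pow_right₀ (by linarith) (by norm_num)
  have e2 : u ^ 158 ≤ u ^ 196 := pow_le_pow_right₀ (by linarith) (by norm_num)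
  have e3 : (704 * u ^ 190 + u ^ 102 + 10 * u ^ 152) * u ^ 6 =
      704 * u ^ 196 + u ^ 108 + 10 * u ^ 158 := by ring
  have e4 : (2860 : ℝ) * u ^ 196 ≤ u ^ 199 := by
    have e5 : (2860 : ℝ) ≤ u ^ 3 := by
      calc (2860 : ℝ) ≤ 100 ^ 3 := by norm_num
        _ ≤ u ^ 3 := pow_le_pow_left₀ (by norm_num) hu 3
    calc (2860 : ℝ) * u ^ 196 ≤ u ^ 3 * u ^ 196 :=
          mul_le_mul_of_nonneg_right e5 (by positivity)
      _ = u ^ 199 := by ring
  rw [e3]
  linarith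

private theorem Left_mem_Y0 {n : ℕ} {Z : Finset (Pt n)} {M0 : Finset (J n)} {cl : El n → Fin 3}
    {a : El n} : a ∈ Y0 n Z M0 cl ↔ a ∉ cov (els n) M0 ∧
      (wE n Z a = 0 ∨ (wE n Z a = 1 ∧ cl a = 0)) := by
  classical
  unfold Y0
  rw [mem_filter]
  exact ⟨fun h => h.2, fun h => ⟨mem_univ _, h⟩⟩

private theorem Left_M1 {n : ℕ} {Z : Finset (Pt n)} {M0 M1 H : Finset (J n)}
    {cl : El n → Fin 3} {co : J n → Bool} (h : M1 ⊆ F0 n Z M0 H cl co) {a : El n}
    (ha : a ∈ cov (els n) M1) : a ∈ Y0 n Z M0 cl := by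
  classical
  unfold cov at ha
  rw [mem_biUnion] at ha
  obtain ⟨g, hg, hga⟩ := ha
  have h1 := h hg
  unfold F0 at h1
  rw [mem_filter] at h1
  exact h1.2.1 hga

/-- the option of an element without special points: the other elements have one special point -/
private theorem Left_opt {n : ℕ} {Z : Finset (Pt n)} {x : El n} {g : J n}
    (hx : wE n Z x = 0) (hg : g ∈ stz n Z x 1) : x ∈ els n g ∧ wJ n Z g = 1 ∧
      ∀ y ∈ els n g, y ≠ x → wE n Z y = 1 := by
  rw [mem_stz] at hg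
  obtain ⟨h1, h2⟩ := hg
  have h3 : wJ n Z g = 1 := by omega
  obtain ⟨x0, hx0, h4, h5⟩ := w_one h3
  have h6 : x = x0 := by
    by_contra hne
    have := h5 x h1 hne
    omega
  subst h6
  exact ⟨h1, h3, h5⟩

private theorem Left_pt {n : ℕ} {Z : Finset (Pt n)} {x : El n} {g : J n} {s : Pt n}
    (hx : wE n Z x = 0) (hxg : x ∈ els n g) (hw : wJ n Z g = 1) (hs : s ∈ ptJ n g)
    (hsZ : s ∉ Z) : s ∈ ptE n x := by
  have h1 := mem_els_iff.1 hxg
  have h2 : ptE n x ⊆ ptJ n g \ Z := by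
    intro p hp
    rw [Finset.mem_sdiff]
    refine ⟨h1 hp, fun hpZ => ?_⟩
    have h3 : p ∈ ptE n x ∩ Z := mem_inter.2 ⟨hp, hpZ⟩
    unfold wE at hx
    rw [card_eq_zero] at hx
    rw [hx] at h3
    exact notMem_empty _ h3
  have h4 : (ptJ n g \ Z).card = 2 := by
    have h5 := card_sdiff_add_card_inter (ptJ n g) Z
    have h6 := card_ptJ g
    unfold wJ at hw
    omega
  have h7 : ptE n x = ptJ n g \ Z := eq_of_subset_of_card_le h2 (by rw [h4, card_ptE])
  rw [h7, Finset.mem_sdiff]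
  exact ⟨hs, hsZ⟩

private theorem Left_isM {n : ℕ} {A B : Finset (J n)} (hA : IsM (els n) A) (hB : IsM (els n) B)
    (h : ∀ a ∈ A, ∀ b ∈ B, Disjoint (els n a) (els n b)) : IsM (els n) (A ∪ B) := by
  intro e he f hf hef
  rw [mem_union] at he hf
  rcases he with he | he <;> rcases hf with hf | hf
  · exact hA e he f hf hef
  · exact h e he f hf
  · exact (h f hf e he).symm
  · exact hB e he f hf hef

private theorem Left_cov_union {n : ℕ} {A B : Finset (J n)} {a : El n} :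
    a ∈ cov (els n) (A ∪ B) ↔ a ∈ cov (els n) A ∨ a ∈ cov (els n) B := by
  unfold cov
  rw [mem_biUnion, mem_biUnion, mem_biUnion]
  constructor
  · rintro ⟨g, hg, h⟩
    rcases mem_union.1 hg with h1 | h1
    · exact Or.inl ⟨g, h1, h⟩
    · exact Or.inr ⟨g, h1, h⟩
  · rintro (⟨g, hg, h⟩ | ⟨g, hg, h⟩)
    · exact ⟨g, mem_union_left _ hg, h⟩
    · exact ⟨g, mem_union_right _ hg, h⟩

private theorem Left_le_cnt {α : Type} [Fintype α] {p : α → Prop} {S : Finset α}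
    (h : ∀ g ∈ S, p g) : S.card ≤ cnt p := by
  classical
  unfold cnt
  exact card_le_card fun g hg => Finset.mem_filter.2 ⟨mem_univ _, h g hg⟩

theorem left : ∀ᶠ u : ℝ in atTop, ∀ (n : ℕ) (α : ℝ), 1 / (2 * u) ≤ α → α ≤ 1 / u →
    ∀ (Z : Finset (Pt n)) (W0 W1 H : Finset (J n)), W0 ⊆ H → H ⊆ W1 →
    ∀ (cl : El n → Fin 3) (pre : El n → Bool) (co : J n → Bool), LabOK n u α Z W1 H cl pre co →
    ∀ M0, M0OK n u α Z W0 W1 H M0 → ∀ M1, M1OK n u Z H M0 M1 cl co →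
      ∃ Ms ⊆ H, IsM (els n) (M0 ∪ M1 ∪ Ms) ∧
        (∀ a, wE n Z a = 0 → a ∈ cov (els n) (M0 ∪ M1 ∪ Ms)) ∧
        ∀ a ∈ cov (els n) Ms, wE n Z a = 0 ∨ (wE n Z a = 1 ∧ cl a = 1) := by
  classical
  filter_upwards [eventually_ge_atTop (100 : ℝ)] with u hu n α hα hα' Z W0 W1 H hW0 hW1 cl pre co
    hL M0 h0 M1 h1
  have hu0 : 0 < u := by linarith
  let B : Type := {x : El n // wE n Z x = 0 ∧ x ∉ cov (els n) (M0 ∪ M1)}
  let O : B → Finset (J n) := fun b => univ.filter (fun g => g ∈ H ∧ g ∈ stz n Z b.1 1 ∧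
    ∀ y ∈ els n g, y ≠ b.1 → cl y = 1 ∧ y ∉ cov (els n) M0)
  let conf : J n → J n → Prop := fun g g' => ¬ Disjoint (els n g) (els n g')
  have hO : ∀ (b : B) (g : J n), g ∈ O b ↔ g ∈ H ∧ g ∈ stz n Z b.1 1 ∧
      ∀ y ∈ els n g, y ≠ b.1 → cl y = 1 ∧ y ∉ cov (els n) M0 := by
    intro b g
    change g ∈ univ.filter (fun g => g ∈ H ∧ g ∈ stz n Z b.1 1 ∧
      ∀ y ∈ els n g, y ≠ b.1 → cl y = 1 ∧ y ∉ cov (els n) M0) ↔ _
    rw [mem_filter]
    exact ⟨fun h => h.2, fun h => ⟨mem_univ _, h⟩⟩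
  have hb0 : ∀ b : B, b.1 ∉ cov (els n) M0 := fun b h => b.2.2 (Left_cov_union.2 (Or.inl h))
  have hb1 : ∀ b : B, b.1 ∉ cov (els n) M1 := fun b h => b.2.2 (Left_cov_union.2 (Or.inr h))
  -- the number of options
  have hcard : ∀ b : B, 704 * u ^ 190 ≤ ((O b).card : ℝ) := by
    intro b
    have e1 := hL.l2 b.1 b.2.1
    have e2 := h0.loss b.1 (hb0 b)
    have e3 : cnt (fun g : J n => g ∈ H ∧ g ∈ stz n Z b.1 1 ∧ ∀ y ∈ els n g, y ≠ b.1 → cl y = 1) ≤
        cnt (fun g : J n => g ∈ O b) + cnt (fun g : J n => g ∈ W1 ∧ g ∈ st n b.1 ∧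
          ∃ y ∈ els n g, y ≠ b.1 ∧ y ∈ cov (els n) M0) := by
      refine cnt_le_add fun g hg => ?_
      by_cases h : ∃ y ∈ els n g, y ≠ b.1 ∧ y ∈ cov (els n) M0
      · exact Or.inr ⟨hW1 hg.1, mem_els.1 (mem_stz.1 hg.2.1).1, h⟩
      · left
        rw [hO]
        refine ⟨hg.1, hg.2.1, fun y hy hyb => ⟨hg.2.2 y hy hyb, fun hyc => h ⟨y, hy, hyb, hyc⟩⟩⟩
    rw [cnt_mem] at e3
    have e4 : ((W0 ∩ stz n Z b.1 1).card : ℝ) ≤ ((H ∩ stz n Z b.1 1).card : ℝ) := by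
      exact_mod_cast card_le_card (inter_subset_inter_right hW0)
    have e5 : (1 - (u ^ 36)⁻¹) * (α * u ^ 200) ≤ ((W0 ∩ stz n Z b.1 1).card : ℝ) := by
      by_contra hcon
      exact hb0 b (h0.bad b.1 (Or.inr (Or.inr (Or.inl (not_le.1 hcon)))))
    have e6 := Left_num hu hα (e5.trans e4)
    have e7 : ((cnt (fun g : J n => g ∈ H ∧ g ∈ stz n Z b.1 1 ∧
        ∀ y ∈ els n g, y ≠ b.1 → cl y = 1) : ℕ) : ℝ) ≤ ((O b).card : ℝ) +
        (cnt (fun g : J n => g ∈ W1 ∧ g ∈ st n b.1 ∧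
          ∃ y ∈ els n g, y ≠ b.1 ∧ y ∈ cov (els n) M0) : ℝ) := by exact_mod_cast e3
    linarith
  -- conflicts
  have hsp : ∀ y : El n, ∃ s, s ∈ ptE n y ∧ (wE n Z y = 1 → s ∉ Z) := by
    intro y
    by_cases hy : wE n Z y = 1
    · obtain ⟨P, z, hP, hz, hPz, hyP⟩ := wE_one hy
      exact ⟨P, by rw [hyP]; exact mem_insert_self _ _, fun _ => hP⟩
    · have : 0 < (ptE n y).card := by rw [card_ptE]; norm_num
      obtain ⟨s, hs⟩ := card_pos.1 this
      exact ⟨s, hs, fun h => absurd h hy⟩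
  choose sp hsp1 hsp2 using hsp
  have hconf : ∀ b : B, ∀ g ∈ O b, (univ.filter (fun p : B × J n =>
      p.1 ≠ b ∧ p.2 ∈ O p.1 ∧ conf g p.2)).card ≤ ⌊22 * u ^ 190⌋₊ := by
    intro b g hg
    rw [hO] at hg
    obtain ⟨hgH, hgs, hgy⟩ := hg
    obtain ⟨o1, o2, o3⟩ := Left_opt b.2.1 hgs
    have hinj : Set.InjOn (fun p : B × J n => p.2) (↑(univ.filter (fun p : B × J n =>
        p.1 ≠ b ∧ p.2 ∈ O p.1 ∧ conf g p.2)) : Set (B × J n)) := by
      intro p hp q hq hpq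
      have hp' := (mem_filter.1 (mem_coe.1 hp)).2
      have hq' := (mem_filter.1 (mem_coe.1 hq)).2
      have hpq' : p.2 = q.2 := hpq
      have i1 := (hO p.1 p.2).1 hp'.2.1
      have i2 := (hO q.1 q.2).1 hq'.2.1
      obtain ⟨j1, j2, j3⟩ := Left_opt p.1.2.1 i1.2.1
      obtain ⟨k1, k2, k3⟩ := Left_opt q.1.2.1 i2.2.1
      refine Prod.ext (Subtype.ext ?_) hpq'
      by_contra hne
      rw [← hpq'] at k1 k3
      have := k3 p.1.1 j1 hne
      have := p.1.2.1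
      omega
    rw [← card_image_of_injOn hinj]
    have hle : ((univ.filter (fun p : B × J n =>
        p.1 ≠ b ∧ p.2 ∈ O p.1 ∧ conf g p.2)).image (fun p => p.2)).card ≤
        cnt (fun g' : J n => ∃ y ∈ (els n g).erase b.1, (g' ∈ H ∧ g' ∈ st n y ∧
          (∀ z ∈ els n g', z ≠ y → sp y ∉ ptE n z → cl z = 1) ∧
          ∃ z ∈ els n g', z ≠ y ∧ sp y ∈ ptE n z ∧ z ∈ Y0 n Z M0 cl ∧
            z ∉ cov (els n) M1)) := by
      refine Left_le_cnt fun g' hg' => ?_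
      rw [mem_image] at hg'
      obtain ⟨p, hp, rfl⟩ := hg'
      obtain ⟨q1, q2, q3⟩ := (mem_filter.1 hp).2
      obtain ⟨i1, i2, i3⟩ := (hO p.1 p.2).1 q2
      obtain ⟨j1, j2, j3⟩ := Left_opt p.1.2.1 i2
      have q3' : ¬ Disjoint (els n g) (els n p.2) := q3
      rw [not_disjoint_iff] at q3'
      obtain ⟨y, hy1, hy2⟩ := q3'
      have hne : b.1 ≠ p.1.1 := fun h => q1 (Subtype.ext h.symm)
      have hyb : y ≠ b.1 := by
        intro h
        rw [h] at hy2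
        have := j3 b.1 hy2 hne
        have := b.2.1
        omega
      have hwy : wE n Z y = 1 := o3 y hy1 hyb
      have hyp : p.1.1 ≠ y := by
        intro h
        have := p.1.2.1
        rw [h] at this
        omega
      have hs : sp y ∈ ptE n p.1.1 :=
        Left_pt p.1.2.1 j1 j2 (mem_els_iff.1 hy2 (hsp1 y)) (hsp2 y hwy)
      refine ⟨y, mem_erase.2 ⟨hyb, hy1⟩, i1, mem_els.1 hy2, ?_, ?_⟩
      · intro z hz hzy hsz
        refine (i3 z hz ?_).1
        intro h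
        rw [h] at hsz
        exact hsz hs
      · exact ⟨p.1.1, j1, hyp, hs, Left_mem_Y0.2 ⟨hb0 p.1, Or.inl p.1.2.1⟩, hb1 p.1⟩
    refine hle.trans ((cnt_exists _ _).trans ?_)
    refine Nat.le_floor ?_
    rw [Nat.cast_sum]
    have hce : ((els n g).erase b.1).card = 2 := by
      rw [card_erase_of_mem o1, (hg_els n).card3 g]
    refine (sum_le_sum (g := fun _ => 11 * u ^ 190) fun y hy => ?_).trans ?_
    · rw [mem_erase] at hy
      have hyY : y ∉ Y0 n Z M0 cl := by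
        rw [Left_mem_Y0]
        rintro ⟨_, h | h⟩
        · have := o3 y hy.2 hy.1
          omega
        · have h2 := (hgy y hy.2 hy.1).1
          rw [h2] at h
          exact absurd h.2 (by decide)
      exact h1.ta y hyY (sp y) (hsp1 y)
    · rw [sum_const, hce, nsmul_eq_mul]
      push_cast
      linarith
  have hΔ : 1 ≤ ⌊22 * u ^ 190⌋₊ := by
    refine Nat.le_floor ?_
    push_cast
    have : (1 : ℝ) ≤ u ^ 190 := one_le_pow₀ (by linarith)
    linarith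
  have h32 : ∀ b : B, 32 * ⌊22 * u ^ 190⌋₊ ≤ (O b).card := by
    intro b
    have e1 := hcard b
    have e2 : ((⌊22 * u ^ 190⌋₊ : ℕ) : ℝ) ≤ 22 * u ^ 190 := Nat.floor_le (by positivity)
    have e3 : ((32 * ⌊22 * u ^ 190⌋₊ : ℕ) : ℝ) ≤ ((O b).card : ℝ) := by
      push_cast
      linarith
    exact_mod_cast e3
  obtain ⟨f, hf1, hf2⟩ := transversal O conf (fun g g' h h' => h h'.symm) _ hΔ h32
    (fun b g hg => by convert hconf b g hg)
  have hM1 : IsM (els n) (M0 ∪ M1) := by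
    refine Left_isM h0.mat h1.mat fun a ha b hb => ?_
    rw [disjoint_left]
    intro y hya hyb
    have h2 : y ∈ cov (els n) M1 := by
      unfold cov
      exact mem_biUnion.2 ⟨b, hb, hyb⟩
    have h3 := (Left_mem_Y0.1 (Left_M1 h1.sub h2)).1
    apply h3
    unfold cov
    exact mem_biUnion.2 ⟨a, ha, hya⟩
  have hel : ∀ b : B, ∀ y ∈ els n (f b), (y = b.1 ∨ (wE n Z y = 1 ∧ cl y = 1)) ∧
      y ∉ cov (els n) (M0 ∪ M1) := by
    intro b y hy
    obtain ⟨i1, i2, i3⟩ := (hO b (f b)).1 (hf1 b)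
    obtain ⟨j1, j2, j3⟩ := Left_opt b.2.1 i2
    by_cases hyb : y = b.1
    · exact ⟨Or.inl hyb, by rw [hyb]; exact b.2.2⟩
    · refine ⟨Or.inr ⟨j3 y hy hyb, (i3 y hy hyb).1⟩, ?_⟩
      rw [Left_cov_union]
      rintro (h | h)
      · exact (i3 y hy hyb).2 h
      · have h2 := (Left_mem_Y0.1 (Left_M1 h1.sub h)).2
        have h3 := j3 y hy hyb
        have h4 := (i3 y hy hyb).1
        rcases h2 with h2 | h2
        · omega
        · rw [h4] at h2
          exact absurd h2.2 (by decide)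
  refine ⟨univ.image f, ?_, ?_, ?_, ?_⟩
  · intro g hg
    rw [mem_image] at hg
    obtain ⟨b, _, rfl⟩ := hg
    exact ((hO b (f b)).1 (hf1 b)).1
  · refine Left_isM hM1 ?_ ?_
    · intro e he e' he' hne
      rw [mem_image] at he he'
      obtain ⟨b, _, rfl⟩ := he
      obtain ⟨b', _, rfl⟩ := he'
      have h2 : b ≠ b' := fun h => hne (by rw [h])
      exact not_not.1 (hf2 b b' h2)
    · intro a ha e he
      rw [mem_image] at he
      obtain ⟨b, _, rfl⟩ := he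
      rw [disjoint_left]
      intro y hya hyb
      apply (hel b y hyb).2
      unfold cov
      exact mem_biUnion.2 ⟨a, ha, hya⟩
  · intro a ha
    rw [Left_cov_union]
    by_cases hc : a ∈ cov (els n) (M0 ∪ M1)
    · exact Or.inl hc
    · right
      have i2 := ((hO ⟨a, ha, hc⟩ (f ⟨a, ha, hc⟩)).1 (hf1 ⟨a, ha, hc⟩)).2.1
      unfold cov
      exact mem_biUnion.2 ⟨f ⟨a, ha, hc⟩, mem_image.2 ⟨_, mem_univ _, rfl⟩, (mem_stz.1 i2).1⟩
  · intro a ha
    unfold cov at ha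
    rw [mem_biUnion] at ha
    obtain ⟨g, hg, hag⟩ := ha
    rw [mem_image] at hg
    obtain ⟨b, _, rfl⟩ := hg
    rcases (hel b a hag).1 with h | h
    · left
      rw [h]
      exact b.2.1
    · exact Or.inr h

end Pool.Agent.Lib.CD
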