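import Pool.Agent.Lib.MP_dcb6ed_co_CD.PtsW

/-!
# The matching for the elements of low degree

`a` is low if `|W0 ∩ st a| < u ^ 200 / 400`.  For every low `a` choose `g_a ∈ H ∩ st a` (`hcov`), and let
`M` be the set of these triples.  For different low elements `a, a'` the triples `g_a, g_a' ∈ W1` are not in
conflict (`Gd.low`), i.e. they have no point in common (`cf_iff`); so they are different and have no
element in common.  `M` is a matching and covers the low elements.

Let `x ∉ cov M`, `ptE x = {p, q}`, and let `g ∈ W1 ∩ st x` have an element `y ≠ x`, `y ∈ els g_a`.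
`ptE y = {s, r}` with `s ∈ {p, q}`, `r` the third point of `g` (`third`, `other_pt`).
`s ∈ ptJ g_a`.  Because the `g_a` have no points in common, at most two of them contain `p` or `q`.
Fix one of them, `g_a`.  It does not contain both `p` and `q` (otherwise `x ∈ els g_a`).
So `s` is determined, `r ∈ ptJ g_a \ {s}` has at most two values, and `g` is determined by
`r` (`ptJ g = {p, q, r}`).  In total at most four triples `g`.
-/

set_option autoImplicit false

namespace Pool.Agent.Lib.CD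

open Finset
open Pool.Agent.Lib.FR (J El Edge st Cf)

/-- a common point of two triples of a matching -/
theorem LowM_count {n : ℕ} {W1 M : Finset (J n)}
    (hdis : ∀ h ∈ M, ∀ h' ∈ M, h ≠ h' → Disjoint (ptJ n h) (ptJ n h')) (x : El n) :
    cnt (fun g : J n => g ∈ W1 ∧ g ∈ st n x ∧
      ∃ y ∈ els n g, y ≠ x ∧ y ∈ cov (els n) M) ≤ 4 := by
  classical
  obtain ⟨R, hR⟩ : ∃ R : Finset (Pt n), R = (ptE n x).biUnion fun s =>
      (M.filter fun h => s ∈ ptJ n h).biUnion fun h => (ptJ n h).erase s := ⟨_, rfl⟩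
  have hRc : R.card ≤ 4 := by
    rw [hR]
    refine card_biUnion_le.trans ?_
    have h1 : ∀ s ∈ ptE n x,
        ((M.filter fun h => s ∈ ptJ n h).biUnion fun h => (ptJ n h).erase s).card ≤ 2 := by
      intro s _
      refine card_biUnion_le.trans ?_
      have h2 : ∀ h ∈ M.filter (fun h => s ∈ ptJ n h), ((ptJ n h).erase s).card ≤ 2 := by
        intro h hh
        rw [card_erase_of_mem (mem_filter.1 hh).2, card_ptJ]
      refine (sum_le_card_nsmul _ _ 2 h2).trans ?_
      have h3 : (M.filter fun h => s ∈ ptJ n h).card ≤ 1 := by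
        rw [card_le_one]
        intro h hh h' hh'
        by_contra hne
        have h4 := mem_filter.1 hh
        have h5 := mem_filter.1 hh'
        exact disjoint_left.1 (hdis h h4.1 h' h5.1 hne) h4.2 h5.2
      rw [smul_eq_mul]
      omega
    refine (sum_le_card_nsmul _ _ 2 h1).trans ?_
    rw [card_ptE, smul_eq_mul]
  have key : ∀ g : J n, (g ∈ W1 ∧ g ∈ st n x ∧ ∃ y ∈ els n g, y ≠ x ∧ y ∈ cov (els n) M) →
      ∃ r ∈ R, ptJ n g = insert r (ptE n x) := by
    rintro g ⟨-, hgx, y, hy, hyx, hyM⟩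
    obtain ⟨h, hh, hyh⟩ := mem_cov_els.1 hyM
    have hx : x ∈ els n g := mem_els.2 hgx
    have hyh' : ptE n y ⊆ ptJ n h := mem_els_iff.1 (mem_els.2 hyh)
    obtain ⟨s, hs1, hs2⟩ := other_pt hx hy hyx
    have h1 : ∃ r ∈ ptE n y, r ≠ s := by
      have h2 : 1 < (ptE n y).card := by
        rw [card_ptE]
        omega
      exact exists_mem_ne h2 s
    obtain ⟨r, hr1, hr2⟩ := h1
    have hys : ptE n y = {s, r} := by
      symm
      apply eq_of_subset_of_card_le
      · intro t ht
        rcases mem_insert.1 ht with rfl | ht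
        · exact hs2
        · rw [mem_singleton.1 ht]
          exact hr1
      · rw [card_ptE, card_pair hr2.symm]
    have hrx : r ∉ ptE n x := by
      intro h3
      apply hyx
      apply ptE_inj
      rw [hys]
      apply eq_of_subset_of_card_le
      · intro t ht
        rcases mem_insert.1 ht with rfl | ht
        · exact hs1
        · rw [mem_singleton.1 ht]
          exact h3
      · rw [card_ptE, card_pair hr2.symm]
    refine ⟨r, ?_, ?_⟩
    · rw [hR]
      exact mem_biUnion.2 ⟨s, hs1, mem_biUnion.2 ⟨h, mem_filter.2 ⟨hh, hyh' hs2⟩,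
        mem_erase.2 ⟨hr2, hyh' hr1⟩⟩⟩
    · symm
      apply eq_of_subset_of_card_le
      · intro t ht
        rcases mem_insert.1 ht with rfl | ht
        · exact mem_els_iff.1 hy hr1
        · exact mem_els_iff.1 hx ht
      · rw [card_ptJ, card_insert_of_notMem hrx, card_ptE]
  unfold cnt
  have h1 : ((univ.filter fun g : J n => g ∈ W1 ∧ g ∈ st n x ∧
      ∃ y ∈ els n g, y ≠ x ∧ y ∈ cov (els n) M).image (ptJ n)).card ≤
      (R.image fun r => insert r (ptE n x)).card := by
    refine card_le_card ?_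
    intro t ht
    obtain ⟨g, hg, rfl⟩ := mem_image.1 ht
    obtain ⟨r, hr, hrg⟩ := key g (mem_filter.1 hg).2
    exact mem_image.2 ⟨r, hr, hrg.symm⟩
  rw [card_image_of_injective _ (fun g g' h => ptJ_inj h)] at h1
  exact h1.trans (card_image_le.trans hRc)

theorem low_match {n : ℕ} {u α : ℝ} {Z : Finset (Pt n)} {W0 W1 H : Finset (J n)}
    (hg : Gd n u α Z W0 W1) (h1 : H ⊆ W1) (hcov : ∀ a, ∃ g ∈ H, g ∈ st n a) :
    ∃ M ⊆ H, IsM (els n) M ∧
      (∀ a, ((W0 ∩ st n a).card : ℝ) < u ^ 200 / 400 → a ∈ cov (els n) M) ∧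
      ∀ x, x ∉ cov (els n) M → cnt (fun g : J n => g ∈ W1 ∧ g ∈ st n x ∧
        ∃ y ∈ els n g, y ≠ x ∧ y ∈ cov (els n) M) ≤ 4 := by
  classical
  choose G hG1 hG2 using hcov
  have hM : ∀ h ∈ (univ.filter fun a => ((W0 ∩ st n a).card : ℝ) < u ^ 200 / 400).image G,
      ∃ a, ((W0 ∩ st n a).card : ℝ) < u ^ 200 / 400 ∧ G a = h := by
    intro h hh
    obtain ⟨a, ha, rfl⟩ := mem_image.1 hh
    exact ⟨a, (mem_filter.1 ha).2, rfl⟩
  have hdis : ∀ h ∈ (univ.filter fun a => ((W0 ∩ st n a).card : ℝ) < u ^ 200 / 400).image G,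
      ∀ h' ∈ (univ.filter fun a => ((W0 ∩ st n a).card : ℝ) < u ^ 200 / 400).image G,
      h ≠ h' → Disjoint (ptJ n h) (ptJ n h') := by
    intro h hh h' hh' hne
    obtain ⟨a, ha, rfl⟩ := hM h hh
    obtain ⟨a', ha', rfl⟩ := hM h' hh'
    have h2 := hg.low a a' (fun h3 => hne (by rw [h3])) ha ha' (G a)
      (mem_inter.2 ⟨h1 (hG1 a), hG2 a⟩) (G a') (mem_inter.2 ⟨h1 (hG1 a'), hG2 a'⟩)
    rw [cf_iff, not_not] at h2
    exact h2
  refine ⟨(univ.filter fun a => ((W0 ∩ st n a).card : ℝ) < u ^ 200 / 400).image G, ?_, ?_, ?_, ?_⟩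
  · intro h hh
    obtain ⟨a, -, rfl⟩ := hM h hh
    exact hG1 a
  · intro h hh h' hh' hne
    rw [disjoint_left]
    intro y hy hy'
    have h2 : (ptE n y).Nonempty := by
      rw [← card_pos, card_ptE]
      omega
    obtain ⟨s, hs⟩ := h2
    exact disjoint_left.1 (hdis h hh h' hh' hne) (mem_els_iff.1 hy hs) (mem_els_iff.1 hy' hs)
  · intro a ha
    exact mem_cov_els.2 ⟨G a, mem_image.2 ⟨a, mem_filter.2 ⟨mem_univ a, ha⟩, rfl⟩, hG2 a⟩
  · intro x _
    exact LowM_count hdis x

end Pool.Agent.Lib.CD
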