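import Pool.Agent.Lib.MP_dcb6ed_co_CD.EBas

/-!
# Few triples span few points with small probability only

`n pp ≤ d` is assumed up to a factor: `n pp ≤ 2 d`, `1 ≤ d`.

If the property fails there are `i ∈ {1, ..., 15}` and `S ⊆ W1`, `|S| = i`, with `|pts S| ≤ i - 1`, where
`pts S = S.biUnion ptJ`; so there is `b : Fin (i - 1) → Pt n` such that all points of `pts S` are values of
`b` (`pts S` is not empty; e.g. enumerate it and repeat a value).
For fixed `i`, `b` the number of the `g` all of whose points are values of `b` is at most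
`C(14, 3) = 364` (`g` is determined by its set of points, a subset with three elements of a set with at
most `14` elements), so there are at most `364^i ≤ 364^15` sets `S`; each is contained in `W1` with
probability at most `pp^i` (`pr_all_ne`).  There are at most `(4 n)^(i - 1)` functions `b`.  Total
`∑_{i = 1}^{15} (4 n)^(i - 1) 364^15 pp^i ≤ 15 · 4^14 · 364^15 · 2^15 d^15 / n ≤ 10^100 d^15 / n`
(`n^(i-1) pp^i = (n pp)^i / n ≤ (2 d)^15 / n`).
-/

set_option autoImplicit false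

namespace Pool.Agent.Lib.CD

open Finset Filter
open Pool.Agent.Lib.FR (J El Edge st Cf qq Pr)

theorem NDp_count {n m : ℕ} (hm : m ≤ 14) (b : Fin m → Pt n) :
    (univ.filter (fun g : J n => ptJ n g ⊆ univ.image b)).card ≤ 364 := by
  have h1 : (univ.filter (fun g : J n => ptJ n g ⊆ univ.image b)).card ≤
      (Finset.powersetCard 3 (univ.image b)).card := by
    refine Finset.card_le_card_of_injOn (ptJ n) ?_ ?_
    · intro g hg
      exact Finset.mem_coe.2 (Finset.mem_powersetCard.2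
        ⟨(Finset.mem_filter.1 (Finset.mem_coe.1 hg)).2, card_ptJ g⟩)
    · intro g _ g' _ h
      exact ptJ_inj h
  rw [Finset.card_powersetCard] at h1
  have h2 : (univ.image b).card ≤ 14 := by
    refine Finset.card_image_le.trans ?_
    rw [Finset.card_univ, Fintype.card_fin]
    exact hm
  have h3 : Nat.choose 14 3 = 364 := by decide
  exact h1.trans ((Nat.choose_le_choose 3 h2).trans h3.le)

theorem NDp_b {P : Type} [DecidableEq P] (T : Finset P) (hT : T.Nonempty) {m : ℕ}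
    (h : T.card ≤ m) : ∃ b : Fin m → P, T ⊆ univ.image b := by
  obtain ⟨p0, hp0⟩ := hT
  refine ⟨fun k => if h : k.1 < T.card then (T.equivFin.symm ⟨k.1, h⟩).1 else p0, ?_⟩
  intro p hp
  rw [Finset.mem_image]
  refine ⟨⟨(T.equivFin ⟨p, hp⟩).1, lt_of_lt_of_le (T.equivFin ⟨p, hp⟩).2 h⟩,
    Finset.mem_univ _, ?_⟩
  simp

theorem NDp_sets {I : Type} [Fintype I] [DecidableEq I] {pm pp : ℝ} (h0 : 0 ≤ pm)
    (h1 : pm ≤ pp) (h2 : pp ≤ 1) (G : Finset I) (hG : G.card ≤ 364) {i : ℕ} (hi : i ≤ 15) :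
    Pr (qq pm pp) (fun s : I → Fin 3 => ∃ S ∈ Finset.powersetCard i G, ∀ g ∈ S, s g ≠ 0) ≤
      364 ^ 15 * pp ^ i := by
  refine (FR.Pr_exists (FR.qq_nonneg h0 h1 h2) _ _).trans ?_
  have h3 : ∀ S ∈ Finset.powersetCard i G,
      Pr (qq pm pp) (fun s : I → Fin 3 => ∀ g ∈ S, s g ≠ 0) ≤ pp ^ i := by
    intro S hS
    have h4 := pr_all_ne h0 h1 h2 S
    rwa [(Finset.mem_powersetCard.1 hS).2] at h4
  refine (Finset.sum_le_sum h3).trans ?_
  rw [Finset.sum_const, nsmul_eq_mul, Finset.card_powersetCard]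
  refine mul_le_mul_of_nonneg_right ?_ (pow_nonneg (h0.trans h1) _)
  have h5 : G.card.choose i ≤ 364 ^ 15 := by
    refine (Nat.choose_le_pow _ _).trans ?_
    exact (Nat.pow_le_pow_left hG i).trans (Nat.pow_le_pow_right (by norm_num) hi)
  exact_mod_cast h5

theorem nd_prob {n : ℕ} (hn : 1 ≤ n) {pm pp d : ℝ} (h0 : 0 ≤ pm) (h1 : pm ≤ pp) (h2 : pp ≤ 1)
    (hd : 1 ≤ d) (hpp : n * pp ≤ 2 * d) :
    Pr (qq pm pp) (fun s : J n → Fin 3 => ¬ ∀ S ⊆ W1s n s, S.card ≤ 15 →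
      S.card ≤ (S.biUnion (ptJ n)).card) ≤ 10 ^ 100 * d ^ 15 / n := by
  have hn' : (0 : ℝ) < n := by exact_mod_cast hn
  have hpp0 : 0 ≤ pp := h0.trans h1
  have hq := FR.qq_nonneg h0 h1 h2
  have h3 : Pr (qq pm pp) (fun s : J n → Fin 3 => ¬ ∀ S ⊆ W1s n s, S.card ≤ 15 →
      S.card ≤ (S.biUnion (ptJ n)).card) ≤
      Pr (qq pm pp) (fun s : J n → Fin 3 => ∃ i ∈ Finset.Icc 1 15,
        ∃ b ∈ (Finset.univ : Finset (Fin (i - 1) → Pt n)),
        ∃ S ∈ Finset.powersetCard i (univ.filter (fun g : J n => ptJ n g ⊆ univ.image b)),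
          ∀ g ∈ S, s g ≠ 0) := by
    refine FR.Pr_mono hq fun s hs => ?_
    push Not at hs
    obtain ⟨S, hS1, hS2, hS3⟩ := hs
    have hS0 : 0 < S.card := lt_of_le_of_lt (Nat.zero_le _) hS3
    obtain ⟨g0, hg0⟩ := Finset.card_pos.1 hS0
    have hne : (S.biUnion (ptJ n)).Nonempty := by
      have h4 : (ptJ n g0).Nonempty := by
        rw [← Finset.card_pos, card_ptJ]
        norm_num
      obtain ⟨p, hp⟩ := h4
      exact ⟨p, Finset.mem_biUnion.2 ⟨g0, hg0, hp⟩⟩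
    obtain ⟨b, hb⟩ := NDp_b (S.biUnion (ptJ n)) hne (m := S.card - 1) (by omega)
    refine ⟨S.card, Finset.mem_Icc.2 ⟨hS0, hS2⟩, b, Finset.mem_univ _, S,
      Finset.mem_powersetCard.2 ⟨fun g hg => ?_, rfl⟩, fun g hg => ?_⟩
    · exact Finset.mem_filter.2 ⟨Finset.mem_univ _, fun p hp =>
        hb (Finset.mem_biUnion.2 ⟨g, hg, hp⟩)⟩
    · exact (Finset.mem_filter.1 (hS1 hg)).2
  refine h3.trans ((FR.Pr_exists hq _ _).trans ?_)
  have h4 : ∀ i ∈ Finset.Icc 1 15, Pr (qq pm pp) (fun s : J n → Fin 3 =>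
        ∃ b ∈ (Finset.univ : Finset (Fin (i - 1) → Pt n)),
        ∃ S ∈ Finset.powersetCard i (univ.filter (fun g : J n => ptJ n g ⊆ univ.image b)),
          ∀ g ∈ S, s g ≠ 0) ≤ 4 ^ 14 * 364 ^ 15 * 2 ^ 15 * d ^ 15 / n := by
    intro i hi
    obtain ⟨hi1, hi2⟩ := Finset.mem_Icc.1 hi
    refine (FR.Pr_exists hq _ _).trans ?_
    refine (Finset.sum_le_sum fun b _ =>
      NDp_sets h0 h1 h2 _ (NDp_count (by omega) b) hi2).trans ?_
    rw [Finset.sum_const, nsmul_eq_mul, Finset.card_univ, Fintype.card_fun, Fintype.card_fin,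
      Nat.cast_pow]
    have h5 : (Fintype.card (Pt n) : ℝ) ^ (i - 1) ≤ (4 * n) ^ (i - 1) :=
      pow_le_pow_left₀ (Nat.cast_nonneg _) (card_Pt n) _
    have h6 : ((4 : ℝ) * n) ^ (i - 1) * (364 ^ 15 * pp ^ i) =
        4 ^ (i - 1) * 364 ^ 15 * (n * pp) ^ i / n := by
      obtain ⟨k, rfl⟩ : ∃ k, i = k + 1 := ⟨i - 1, by omega⟩
      rw [Nat.add_sub_cancel, mul_pow, mul_pow, pow_succ (n : ℝ) k]
      field_simp
    have h7 : (n * pp) ^ i ≤ 2 ^ 15 * d ^ 15 := by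
      calc (n * pp) ^ i ≤ (2 * d) ^ i := pow_le_pow_left₀ (by positivity) hpp i
        _ ≤ (2 * d) ^ 15 := pow_le_pow_right₀ (by linarith) hi2
        _ = 2 ^ 15 * d ^ 15 := by rw [mul_pow]
    have h8 : (4 : ℝ) ^ (i - 1) ≤ 4 ^ 14 := pow_le_pow_right₀ (by norm_num) (by omega)
    calc (Fintype.card (Pt n) : ℝ) ^ (i - 1) * (364 ^ 15 * pp ^ i)
        ≤ (4 * n) ^ (i - 1) * (364 ^ 15 * pp ^ i) :=
          mul_le_mul_of_nonneg_right h5 (by positivity)
      _ = 4 ^ (i - 1) * 364 ^ 15 * (n * pp) ^ i / n := h6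
      _ ≤ 4 ^ 14 * 364 ^ 15 * (2 ^ 15 * d ^ 15) / n := by
          refine div_le_div_of_nonneg_right ?_ hn'.le
          exact mul_le_mul (mul_le_mul_of_nonneg_right h8 (by positivity)) h7 (by positivity)
            (by positivity)
      _ = 4 ^ 14 * 364 ^ 15 * 2 ^ 15 * d ^ 15 / n := by ring
  refine (Finset.sum_le_sum h4).trans ?_
  rw [Finset.sum_const, nsmul_eq_mul, Nat.card_Icc]
  have h9 : (0 : ℝ) ≤ d ^ 15 / n := by positivity
  have h10 : ((15 + 1 - 1 : ℕ) : ℝ) * (4 ^ 14 * 364 ^ 15 * 2 ^ 15 * d ^ 15 / n) =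
      (15 * (4 ^ 14 * 364 ^ 15 * 2 ^ 15)) * (d ^ 15 / n) := by
    push_cast
    ring
  have h11 : (10 : ℝ) ^ 100 * d ^ 15 / n = 10 ^ 100 * (d ^ 15 / n) := by ring
  rw [h10, h11]
  refine mul_le_mul_of_nonneg_right ?_ h9
  norm_num

end Pool.Agent.Lib.CD
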