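import Pool.Agent.Lib.MP_dcb6ed_co_CD.Defs

/-!
# Numerical estimates for one round

`qq0 = exp (-3/4) / 4` lies between `0.118` and `0.1182` (so `(1 - qq0)^2` is between `0.7775` and
`0.778`).

`num_pow`, with `π = 1 / (4 Δ)`: upper bound `(1 - π)^k ≤ exp (-π k)
  ≤ exp (-3/4 + (3/4) η + 1/Δ)` and `exp t ≤ 1 + t + t^2` for `0 ≤ t ≤ 1`, here `t ≤ 0.076`, so
`exp t ≤ 1 + 1.08 t`.  Lower bound `(1 - π)^k ≥ exp (-(π + π^2) k)` (for `0 ≤ π ≤ 1/2`),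
`(π + π^2) k ≤ (3/4) (1 + η) (1 + 1 / (4 Δ)) ≤ 3/4 + (3/4) η + 0.21 / Δ`, and
`exp (-t) ≥ 1 - t`.
`num_ie`: `1 - a ≤ (1 - qq0) (1 + 0.134 (2 η + 3/Δ))` because `qq0 / (1 - qq0) ≤ 0.134`; square,
add `π = 1 / (4 Δ) ≤ 0.322 / Δ (1 - qq0)^2`.  Similarly below.
-/

set_option autoImplicit false

namespace Pool.Agent.Lib.CD

theorem Num_exp : 0.4722 ≤ Real.exp (-(3 / 4)) ∧ Real.exp (-(3 / 4)) ≤ 0.4725 := by
  have e1 := Real.exp_one_gt_d9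
  have e2 := Real.exp_one_lt_d9
  have h0 : 0 < Real.exp (-(3 / 4)) := Real.exp_pos _
  have h1 : Real.exp (-(3 / 4)) ^ 4 * Real.exp 1 ^ 3 = 1 := by
    rw [← Real.exp_nat_mul, ← Real.exp_nat_mul, ← Real.exp_add]
    norm_num
  have h2 : (20.0855 : ℝ) ≤ Real.exp 1 ^ 3 := by
    have : (2.7182818283 : ℝ) ^ 3 ≤ Real.exp 1 ^ 3 := pow_le_pow_left₀ (by norm_num) e1.le 3
    refine le_trans ?_ this
    norm_num
  have h3 : Real.exp 1 ^ 3 ≤ (20.0856 : ℝ) := by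
    have : Real.exp 1 ^ 3 ≤ (2.7182818286 : ℝ) ^ 3 :=
      pow_le_pow_left₀ (Real.exp_pos 1).le e2.le 3
    refine le_trans this ?_
    norm_num
  constructor
  · by_contra hc
    push Not at hc
    have h4 : Real.exp (-(3 / 4)) ^ 4 ≤ (0.4722 : ℝ) ^ 4 := pow_le_pow_left₀ h0.le hc.le 4
    have h5 : Real.exp (-(3 / 4)) ^ 4 * Real.exp 1 ^ 3 ≤ (0.4722 : ℝ) ^ 4 * 20.0856 :=
      mul_le_mul h4 h3 (by positivity) (by norm_num)
    rw [h1] at h5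
    norm_num at h5
  · by_contra hc
    push Not at hc
    have h4 : (0.4725 : ℝ) ^ 4 ≤ Real.exp (-(3 / 4)) ^ 4 :=
      pow_le_pow_left₀ (by norm_num) hc.le 4
    have h5 : (0.4725 : ℝ) ^ 4 * 20.0855 ≤ Real.exp (-(3 / 4)) ^ 4 * Real.exp 1 ^ 3 :=
      mul_le_mul h4 h2 (by norm_num) (by positivity)
    rw [h1] at h5
    norm_num at h5

theorem qq0_lo : 0.118 ≤ qq0 := by
  unfold qq0
  have := Num_exp.1
  linarith

theorem qq0_hi : qq0 ≤ 0.1182 := by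
  unfold qq0
  have := Num_exp.2
  linarith

theorem num_pow {Δ η : ℝ} {k : ℕ} (hΔ : 1000 ≤ Δ) (h0 : 0 ≤ η) (h1 : η ≤ 1 / 10)
    (hk : 3 * (1 - η) * Δ - 4 ≤ k) (hk' : (k : ℝ) ≤ 3 * (1 + η) * Δ) :
    Real.exp (-(3 / 4)) * (1 - 0.8 * η - 1 / Δ) ≤ (1 - 1 / (4 * Δ)) ^ k ∧
      (1 - 1 / (4 * Δ)) ^ k ≤ Real.exp (-(3 / 4)) * (1 + 0.85 * η + 2 / Δ) := by
  have hΔ0 : 0 < Δ := by linarith
  have hy0 : 0 < 1 / Δ := by positivity
  have hy1 : 1 / Δ ≤ 1 / 1000 := one_div_le_one_div_of_le (by norm_num) hΔ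
  have hex : 0 < Real.exp (-(3 / 4)) := Real.exp_pos _
  have h2y : 2 / Δ = 2 * (1 / Δ) := by ring
  constructor
  · have h3 : Real.exp (-(1 / (4 * Δ - 1))) ≤ 1 - 1 / (4 * Δ) := by
      have h4 := Real.add_one_le_exp (1 / (4 * Δ - 1))
      have h5 : 1 - 1 / (4 * Δ) = (1 / (4 * Δ - 1) + 1)⁻¹ := by
        have : 4 * Δ - 1 ≠ 0 := by linarith
        field_simp
        ring
      rw [h5, Real.exp_neg]
      refine inv_anti₀ ?_ h4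
      have : 0 < 1 / (4 * Δ - 1) := by
        apply one_div_pos.2
        linarith
      linarith
    have h4 : Real.exp (-(1 / (4 * Δ - 1))) ^ k ≤ (1 - 1 / (4 * Δ)) ^ k :=
      pow_le_pow_left₀ (Real.exp_pos _).le h3 k
    refine le_trans ?_ h4
    rw [← Real.exp_nat_mul]
    have h5 : (k : ℝ) * -(1 / (4 * Δ - 1)) ≥ -(3 / 4) + -(0.8 * η + 1 / Δ) := by
      have h6 : (k : ℝ) * (1 / (4 * Δ - 1)) ≤ 3 / 4 + (0.8 * η + 1 / Δ) := by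
        rw [mul_one_div, div_le_iff₀ (by linarith)]
        have h7 : (3 / 4 + (0.8 * η + 1 / Δ)) * (4 * Δ - 1) =
            3 * Δ + 3.2 * η * Δ + 4 - 3 / 4 - 0.8 * η - 1 / Δ := by
          field_simp
          ring
        rw [h7]
        nlinarith
      linarith
    have h6 := Real.exp_le_exp.2 h5
    refine le_trans ?_ h6
    rw [Real.exp_add]
    have h7 := Real.add_one_le_exp (-(0.8 * η + 1 / Δ))
    refine mul_le_mul_of_nonneg_left ?_ hex.le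
    linarith
  · have h3 : 1 - 1 / (4 * Δ) ≤ Real.exp (-(1 / (4 * Δ))) := by
      have := Real.add_one_le_exp (-(1 / (4 * Δ)))
      linarith
    have h30 : 0 ≤ 1 - 1 / (4 * Δ) := by
      have : 1 / (4 * Δ) ≤ 1 := by
        rw [div_le_one (by positivity)]
        linarith
      linarith
    have h4 : (1 - 1 / (4 * Δ)) ^ k ≤ Real.exp (-(1 / (4 * Δ))) ^ k :=
      pow_le_pow_left₀ h30 h3 k
    refine le_trans h4 ?_
    rw [← Real.exp_nat_mul]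
    have h5 : (k : ℝ) * -(1 / (4 * Δ)) ≤ -(3 / 4) + (3 / 4 * η + 1 / Δ) := by
      have h6 : 3 / 4 - (3 / 4 * η + 1 / Δ) ≤ (k : ℝ) * (1 / (4 * Δ)) := by
        rw [mul_one_div, le_div_iff₀ (by positivity)]
        have h7 : (3 / 4 - (3 / 4 * η + 1 / Δ)) * (4 * Δ) = 3 * (1 - η) * Δ - 4 := by
          field_simp
          ring
        rw [h7]
        exact hk
      linarith
    have h6 := Real.exp_le_exp.2 h5
    refine le_trans h6 ?_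
    rw [Real.exp_add]
    refine mul_le_mul_of_nonneg_left ?_ hex.le
    obtain ⟨t, ht⟩ : ∃ t, t = 3 / 4 * η + 1 / Δ := ⟨_, rfl⟩
    rw [← ht]
    have ht0 : 0 ≤ t := by
      rw [ht]
      positivity
    have ht1 : t ≤ 0.076 := by
      rw [ht]
      linarith
    have h7 := Real.abs_exp_sub_one_sub_id_le (x := t) (by rw [abs_of_nonneg ht0]; linarith)
    have h8 := (abs_le.1 h7).2
    have h9 : t ^ 2 ≤ 0.076 * t := by nlinarith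
    have h10 : Real.exp t ≤ 1 + 1.08 * t := by linarith
    rw [h2y]
    rw [ht] at h10 ⊢
    linarith

theorem num_hit_hi {Δ η : ℝ} (hΔ : 1000 ≤ Δ) (h0 : 0 ≤ η) (h1 : η ≤ 1 / 10) :
    (1 + η) * Δ * (1 / (4 * Δ) * (Real.exp (-(3 / 4)) * (1 + 0.85 * η + 2 / Δ))) ≤
      qq0 * (1 + 2 * η + 3 / Δ) := by
  have hΔ0 : 0 < Δ := by linarith
  obtain ⟨y, hy⟩ : ∃ y, y = 1 / Δ := ⟨_, rfl⟩
  have hy0 : 0 < y := by rw [hy]; positivity
  have hy1 : y ≤ 1 / 1000 := by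
    rw [hy]
    exact one_div_le_one_div_of_le (by norm_num) hΔ
  have e1 : (1 + η) * Δ * (1 / (4 * Δ) * (Real.exp (-(3 / 4)) * (1 + 0.85 * η + 2 / Δ))) =
      qq0 * ((1 + η) * (1 + 0.85 * η + 2 * y)) := by
    unfold qq0
    rw [hy]
    field_simp
  have e2 : 3 / Δ = 3 * y := by rw [hy]; ring
  rw [e1, e2]
  refine mul_le_mul_of_nonneg_left ?_ (by have := qq0_lo; linarith)
  nlinarith [mul_nonneg h0 hy0.le, mul_le_mul h1 hy1 hy0.le (by norm_num : (0 : ℝ) ≤ 1 / 10),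
    mul_le_mul_of_nonneg_left h1 h0, mul_le_mul_of_nonneg_right h1 hy0.le]

theorem num_hit_lo {Δ η : ℝ} (hΔ : 1000 ≤ Δ) (h0 : 0 ≤ η) (h1 : η ≤ 1 / 10) :
    qq0 * (1 - 2 * η - 3 / Δ) ≤
      ((1 - η) * Δ - 1) * (1 / (4 * Δ) * (Real.exp (-(3 / 4)) * (1 - 0.8 * η - 1 / Δ))) := by
  have hΔ0 : 0 < Δ := by linarith
  obtain ⟨y, hy⟩ : ∃ y, y = 1 / Δ := ⟨_, rfl⟩
  have hy0 : 0 < y := by rw [hy]; positivity
  have e1 : ((1 - η) * Δ - 1) * (1 / (4 * Δ) * (Real.exp (-(3 / 4)) *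
      (1 - 0.8 * η - 1 / Δ))) = qq0 * ((1 - η - y) * (1 - 0.8 * η - y)) := by
    unfold qq0
    rw [hy]
    field_simp
  have e2 : 3 / Δ = 3 * y := by rw [hy]; ring
  rw [e1, e2]
  refine mul_le_mul_of_nonneg_left ?_ (by have := qq0_lo; linarith)
  nlinarith [mul_nonneg h0 hy0.le, mul_nonneg h0 h0, mul_nonneg hy0.le hy0.le]

theorem num_ie {Δ η a b : ℝ} (hΔ : 1000 ≤ Δ) (h0 : 0 ≤ η) (h1 : η ≤ 1 / 10)
    (ha : qq0 * (1 - 2 * η - 3 / Δ) ≤ a) (ha' : a ≤ qq0 * (1 + 2 * η + 3 / Δ))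
    (hb : qq0 * (1 - 2 * η - 3 / Δ) ≤ b) (hb' : b ≤ qq0 * (1 + 2 * η + 3 / Δ)) :
    (1 - qq0) ^ 2 * (1 - 0.55 * η - 1.3 / Δ) ≤
        1 / (4 * Δ) + (1 - 1 / (4 * Δ)) * ((1 - a) * (1 - b)) ∧
      1 / (4 * Δ) + (1 - 1 / (4 * Δ)) * ((1 - a) * (1 - b)) ≤
        (1 - qq0) ^ 2 * (1 + 0.55 * η + 1.3 / Δ) := by
  have hΔ0 : 0 < Δ := by linarith
  obtain ⟨y, hy⟩ : ∃ y, y = 1 / Δ := ⟨_, rfl⟩
  have hy0 : 0 < y := by rw [hy]; positivity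
  have hy1 : y ≤ 1 / 1000 := by
    rw [hy]
    exact one_div_le_one_div_of_le (by norm_num) hΔ
  have e2 : 3 / Δ = 3 * y := by rw [hy]; ring
  have e3 : 1.3 / Δ = 1.3 * y := by rw [hy]; ring
  have e4 : 1 / (4 * Δ) = y / 4 := by
    rw [hy]
    field_simp
  rw [e2] at ha ha' hb hb'
  rw [e3, e4]
  have hq1 := qq0_lo
  have hq2 := qq0_hi
  generalize qq0 = q at *
  obtain ⟨s, hs⟩ : ∃ s, s = 2 * η + 3 * y := ⟨_, rfl⟩
  have hs0 : 0 ≤ s := by rw [hs]; positivity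
  have hs1 : s ≤ 0.203 := by rw [hs]; linarith
  have ha2 : q - q * s ≤ a := by rw [hs]; linarith
  have ha3 : a ≤ q + q * s := by rw [hs]; linarith
  have hb2 : q - q * s ≤ b := by rw [hs]; linarith
  have hb3 : b ≤ q + q * s := by rw [hs]; linarith
  have hqs0 : 0 ≤ q * s := by positivity
  have hqs1 : q * s ≤ 0.1182 * 0.203 := mul_le_mul hq2 hs1 hs0 (by norm_num)
  have hP1 : (1 - a) * (1 - b) ≤ (1 - q + q * s) * (1 - q + q * s) :=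
    mul_le_mul (by linarith) (by linarith) (by linarith) (by linarith)
  have hP2 : (1 - q - q * s) * (1 - q - q * s) ≤ (1 - a) * (1 - b) :=
    mul_le_mul (by linarith) (by linarith) (by linarith) (by linarith)
  have hP3 : (1 - a) * (1 - b) ≤ 1 * 1 :=
    mul_le_mul (by linarith) (by linarith) (by linarith) (by norm_num)
  have hP0 : 0 ≤ (1 - a) * (1 - b) := le_trans (by nlinarith) hP2
  generalize (1 - a) * (1 - b) = P at *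
  have hr : q ≤ 0.1341 * (1 - q) := by linarith
  have hqq : 0.7775 ≤ (1 - q) ^ 2 := by nlinarith
  constructor
  · have h2 : P ≤ y / 4 + (1 - y / 4) * P := by nlinarith
    refine le_trans ?_ (le_trans hP2 h2)
    -- (1-q)^2 (1 - 0.55 η - 1.3 y) ≤ (1 - q)^2 - 2 q s (1 - q)
    have h3 : 2 * (q * s) * (1 - q) ≤ (1 - q) ^ 2 * (0.2682 * s) := by
      have h4 : q * (s * (1 - q)) ≤ 0.1341 * (1 - q) * (s * (1 - q)) :=
        mul_le_mul_of_nonneg_right hr (mul_nonneg hs0 (by linarith))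
      nlinarith
    have h5 : (1 - q) ^ 2 * (0.2682 * s) ≤ (1 - q) ^ 2 * (0.55 * η + 1.3 * y) := by
      refine mul_le_mul_of_nonneg_left ?_ (sq_nonneg _)
      rw [hs]
      linarith
    nlinarith [mul_nonneg hqs0 hqs0]
  · have h2 : y / 4 + (1 - y / 4) * P ≤ y / 4 + P := by nlinarith
    refine le_trans h2 (le_trans (add_le_add le_rfl hP1) ?_)
    have h3 : 2 * (q * s) * (1 - q) ≤ (1 - q) ^ 2 * (0.2682 * s) := by
      have h4 : q * (s * (1 - q)) ≤ 0.1341 * (1 - q) * (s * (1 - q)) :=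
        mul_le_mul_of_nonneg_right hr (mul_nonneg hs0 (by linarith))
      nlinarith
    have h6 : (q * s) * (q * s) ≤ (1 - q) ^ 2 * (0.0037 * s) := by
      have h7 : q * q ≤ 0.1341 * (1 - q) * (0.1341 * (1 - q)) :=
        mul_le_mul hr hr (by linarith) (by nlinarith)
      have h8 : q * q * (s * s) ≤ 0.1341 * (1 - q) * (0.1341 * (1 - q)) * (0.203 * s) :=
        mul_le_mul h7 (mul_le_mul_of_nonneg_right hs1 hs0) (mul_nonneg hs0 hs0)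
          (mul_self_nonneg _)
      have h9 : 0 ≤ (1 - q) ^ 2 * s := mul_nonneg (sq_nonneg _) hs0
      nlinarith
    have h5 : (1 - q) ^ 2 * (0.2719 * s) + y / 4 ≤ (1 - q) ^ 2 * (0.55 * η + 1.3 * y) := by
      have h10 : y / 4 ≤ (1 - q) ^ 2 * (0.33 * y) := by nlinarith
      have h11 : (1 - q) ^ 2 * (0.2719 * s + 0.33 * y) ≤
          (1 - q) ^ 2 * (0.55 * η + 1.3 * y) := by
        refine mul_le_mul_of_nonneg_left ?_ (sq_nonneg _)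
        rw [hs]
        linarith
      linarith
    nlinarith

/-- bounds for the new degree: `c` hyperedges, at most ten of them exceptional -/
theorem num_deg_hi {Δ η ξ c s : ℝ} (hΔ : 1000 ≤ Δ) (h0 : 0 ≤ η) (h1 : η ≤ 1 / 10)
    (hξ : 60 ≤ ξ * Δ) (hc0 : 0 ≤ c) (hc : c ≤ (1 + η) * Δ)
    (hs : s ≤ c * ((1 - qq0) ^ 2 * (1 + 0.55 * η + 1.3 / Δ)) + ξ * Δ / 2 + 10) :
    s ≤ (1 + (1.7 * η + ξ)) * ((1 - qq0) ^ 2 * Δ) := by
  have hΔ0 : 0 < Δ := by linarith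
  have hq1 := qq0_lo
  have hq2 := qq0_hi
  obtain ⟨Q, hQ⟩ : ∃ Q, Q = (1 - qq0) ^ 2 := ⟨_, rfl⟩
  have hQ1 : 0.7775 ≤ Q := by rw [hQ]; nlinarith
  have hQ2 : Q ≤ 0.778 := by rw [hQ]; nlinarith
  rw [← hQ] at hs ⊢
  have hK0 : 0 ≤ Q * (1 + 0.55 * η + 1.3 / Δ) := by positivity
  have h2 : c * (Q * (1 + 0.55 * η + 1.3 / Δ)) ≤
      (1 + η) * Δ * (Q * (1 + 0.55 * η + 1.3 / Δ)) := mul_le_mul_of_nonneg_right hc hK0
  have h3 : (1 + η) * Δ * (Q * (1 + 0.55 * η + 1.3 / Δ)) =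
      Q * ((1 + η) * (1 + 0.55 * η) * Δ) + Q * (1.3 * (1 + η)) := by
    field_simp
  have h4 : (1 + η) * (1 + 0.55 * η) * Δ ≤ (1 + 1.7 * η) * Δ := by
    refine mul_le_mul_of_nonneg_right ?_ hΔ0.le
    nlinarith
  have h5 : Q * ((1 + η) * (1 + 0.55 * η) * Δ) ≤ Q * ((1 + 1.7 * η) * Δ) :=
    mul_le_mul_of_nonneg_left h4 (by linarith)
  have h6 : Q * (1.3 * (1 + η)) ≤ 0.778 * (1.3 * 1.1) :=
    mul_le_mul hQ2 (by linarith) (by linarith) (by norm_num)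
  have h7 : 0.7775 * (ξ * Δ) ≤ Q * (ξ * Δ) := mul_le_mul_of_nonneg_right hQ1 (by linarith)
  have h8 : (1 + (1.7 * η + ξ)) * (Q * Δ) = Q * ((1 + 1.7 * η) * Δ) + Q * (ξ * Δ) := by ring
  rw [h8]
  linarith

theorem num_deg_lo {Δ η ξ c s : ℝ} (hΔ : 1000 ≤ Δ) (h0 : 0 ≤ η) (h1 : η ≤ 1 / 10)
    (hξ : 60 ≤ ξ * Δ) (hc : (1 - η) * Δ - 10 ≤ c)
    (hs : c * ((1 - qq0) ^ 2 * (1 - 0.55 * η - 1.3 / Δ)) - ξ * Δ / 2 ≤ s) :
    (1 - (1.7 * η + ξ)) * ((1 - qq0) ^ 2 * Δ) ≤ s := by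
  have hΔ0 : 0 < Δ := by linarith
  have hq1 := qq0_lo
  have hq2 := qq0_hi
  obtain ⟨Q, hQ⟩ : ∃ Q, Q = (1 - qq0) ^ 2 := ⟨_, rfl⟩
  have hQ1 : 0.7775 ≤ Q := by rw [hQ]; nlinarith
  have hQ2 : Q ≤ 0.778 := by rw [hQ]; nlinarith
  rw [← hQ] at hs ⊢
  have hy1 : 1.3 / Δ ≤ 0.0013 := by
    rw [div_le_iff₀ hΔ0]
    linarith
  have hy0 : 0 ≤ 1.3 / Δ := by positivity
  have hK0 : 0 ≤ Q * (1 - 0.55 * η - 1.3 / Δ) := mul_nonneg (by linarith) (by linarith)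
  have h2 : ((1 - η) * Δ - 10) * (Q * (1 - 0.55 * η - 1.3 / Δ)) ≤
      c * (Q * (1 - 0.55 * η - 1.3 / Δ)) := mul_le_mul_of_nonneg_right hc hK0
  have h3 : ((1 - η) * Δ - 10) * (Q * (1 - 0.55 * η - 1.3 / Δ)) =
      Q * ((1 - η) * (1 - 0.55 * η) * Δ) - Q * (1.3 * (1 - η)) -
      Q * (10 * (1 - 0.55 * η - 1.3 / Δ)) := by
    field_simp
  have h4 : (1 - 1.7 * η) * Δ ≤ (1 - η) * (1 - 0.55 * η) * Δ := by
    refine mul_le_mul_of_nonneg_right ?_ hΔ0.le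
    nlinarith
  have h5 : Q * ((1 - 1.7 * η) * Δ) ≤ Q * ((1 - η) * (1 - 0.55 * η) * Δ) :=
    mul_le_mul_of_nonneg_left h4 (by linarith)
  have h6 : Q * (1.3 * (1 - η)) ≤ 0.778 * 1.3 :=
    mul_le_mul hQ2 (by linarith) (by linarith) (by norm_num)
  have h9 : Q * (10 * (1 - 0.55 * η - 1.3 / Δ)) ≤ 0.778 * 10 :=
    mul_le_mul hQ2 (by linarith) (by linarith) (by norm_num)
  have h7 : 0.7775 * (ξ * Δ) ≤ Q * (ξ * Δ) := mul_le_mul_of_nonneg_right hQ1 (by linarith)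
  have h8 : (1 - (1.7 * η + ξ)) * (Q * Δ) = Q * ((1 - 1.7 * η) * Δ) - Q * (ξ * Δ) := by ring
  rw [h8]
  linarith

theorem num_test {Δ η : ℝ} (hΔ : 1000 ≤ Δ) (h0 : 0 ≤ η) (h1 : η ≤ 1 / 10) :
    1 - qq0 * (1 - 2 * η - 3 / Δ) ≤ (1 - qq0) * (1 + η / 2 + 1 / Δ) := by
  have hΔ0 : 0 < Δ := by linarith
  have hq1 := qq0_lo
  have hq2 := qq0_hi
  obtain ⟨y, hy⟩ : ∃ y, y = 1 / Δ := ⟨_, rfl⟩
  have hy0 : 0 < y := by rw [hy]; positivity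
  have e2 : 3 / Δ = 3 * y := by rw [hy]; ring
  rw [e2, ← hy]
  nlinarith [mul_le_mul_of_nonneg_right hq2 h0, mul_le_mul_of_nonneg_right hq2 hy0.le]

end Pool.Agent.Lib.CD
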