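import Pool.Agent.Lib.MP_dcb6ed_co_CD.Round
import Pool.Agent.Lib.MP_dcb6ed_co_CD.Num

/-!
# The nibble

Iterate `round_step` `J` times: `Δ_j = (1 - q)^(2 j) Δ₀`, `η_{j+1} = 1.7 η_j + ξ`, so
`η_j ≤ 1.7^j (η₀ + 2 ξ) ≤ 1/10` for `j ≤ J`.  The conditions of `round_step` at step `j < J`
follow from those for `Δ_J ≤ Δ_j`.  The union of the matchings is a matching (the matching of step
`j + 1` consists of hyperedges disjoint from those before), contained in `F₀`, and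
`Y₀ \ cov (M₁ ∪ M₂) = (Y₀ \ cov M₁) \ cov M₂`.
For a test `τ` let `U_j` be its number of uncovered members.  `U_0 ≤ |G τ|` and
`U_{j+1} ≤ (1 - q) (1 + η_j / 2 + 1 / Δ_j) U_j + ξ D`.  The product of the factors
`1 + η_j / 2 + 1 / Δ_j` over any set of steps is at most
`exp (∑ η_j / 2 + ∑ 1 / Δ_j) ≤ exp (0.08) ≤ 2`, since `∑_{j<J} η_j ≤ (η₀ + 2 ξ) 1.7^J / 0.7
≤ 1/7` and `∑_{j<J} 1 / Δ_j ≤ (1 / Δ_J) ∑_{i ≥ 1} (1 - q)^(2 i) ≤ 4 / 1000`.  So
`U_J ≤ 2 (1 - q)^J |G τ| + 2 ξ D ∑_i (1 - q)^i ≤ 2 (1 - q)^J |G τ| + 20 ξ D`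
(`2 / q ≤ 17`).

A convenient induction hypothesis: after `j` steps there are `M ⊆ F₀`, a matching, with
`Reg (F₀.filter (Disjoint (el e) (cov M))) (Y₀ \ cov M) Δ_j (1.7^j (η₀ + 2 ξ) - 2 ξ ...)` and
`U_j ≤ P_j ((1 - q)^j |G τ| + ξ D ∑_{i<j} (1 - q)^i)` where `P_j = ∏_{i<j} (1 + η_i/2 + 1/Δ_i)`.
-/

set_option autoImplicit false

namespace Pool.Agent.Lib.CD

open Finset

variable {E X : Type} [Fintype E] [DecidableEq E] [Fintype X] [DecidableEq X]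

/-- the exponent: `∑_{j<J} (η_j / 2 + 1 / Δ_j)` is at most this -/
private noncomputable def Nib_s (J : ℕ) (Δ a : ℝ) : ℝ :=
  a * (1.7 ^ J - 1) / 1.4 + ∑ j ∈ range J, 1 / ((1 - qq0) ^ (2 * j) * Δ)

private theorem Nib_c : 0.88 ≤ 1 - qq0 ∧ 1 - qq0 ≤ 0.882 := by
  have h1 := qq0_lo
  have h2 := qq0_hi
  constructor <;> linarith

private theorem Nib_s_succ (J : ℕ) {Δ η ξ : ℝ} (hξ : 0 ≤ ξ) :
    Nib_s J ((1 - qq0) ^ 2 * Δ) (1.7 * η + ξ + 2 * ξ) + (η / 2 + 1 / Δ) ≤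
      Nib_s (J + 1) Δ (η + 2 * ξ) := by
  unfold Nib_s
  rw [sum_range_succ', mul_zero, pow_zero, one_mul]
  have h1 : ∑ j ∈ range J, 1 / ((1 - qq0) ^ (2 * j) * ((1 - qq0) ^ 2 * Δ)) =
      ∑ j ∈ range J, 1 / ((1 - qq0) ^ (2 * (j + 1)) * Δ) := by
    refine sum_congr rfl fun j _ => ?_
    congr 1
    rw [← mul_assoc, ← pow_add]
    ring_nf
  rw [h1]
  have h2 : (1 : ℝ) ≤ 1.7 ^ J := one_le_pow₀ (by norm_num)
  have h3 : (1.7 : ℝ) ^ (J + 1) = 1.7 * 1.7 ^ J := by rw [pow_succ]; ring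
  have h4 : (1.7 * η + ξ + 2 * ξ) * (1.7 ^ J - 1) / 1.4 + η / 2 ≤
      (η + 2 * ξ) * (1.7 ^ (J + 1) - 1) / 1.4 := by
    rw [h3]
    have h5 : 0 ≤ ξ * (1.7 ^ J - 1) := mul_nonneg hξ (by linarith)
    have h6 : (η + 2 * ξ) * (1.7 * 1.7 ^ J - 1) / 1.4 -
        ((1.7 * η + ξ + 2 * ξ) * (1.7 ^ J - 1) / 1.4 + η / 2) =
        (0.4 * (ξ * (1.7 ^ J - 1)) + 1.4 * ξ) / 1.4 := by ring
    have h7 : 0 ≤ (0.4 * (ξ * (1.7 ^ J - 1)) + 1.4 * ξ) / 1.4 := by positivity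
    linarith
  linarith

private theorem Nib_sum (J : ℕ) {Δ : ℝ} (hΔ : 1000 ≤ (1 - qq0) ^ (2 * J) * Δ) :
    ∑ j ∈ range J, 1 / ((1 - qq0) ^ (2 * j) * Δ) ≤ 4 / ((1 - qq0) ^ (2 * J) * Δ) := by
  obtain ⟨hc1, hc2⟩ := Nib_c
  have hc0 : 0 < 1 - qq0 := by linarith
  have hΔ0 : 0 < Δ := by
    by_contra hcon
    push Not at hcon
    have h1 : (1 - qq0) ^ (2 * J) * Δ ≤ 0 :=
      mul_nonpos_of_nonneg_of_nonpos (by positivity) hcon
    linarith
  clear hΔ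
  induction J with
  | zero =>
    rw [range_zero, sum_empty]
    positivity
  | succ J ih =>
    rw [sum_range_succ]
    obtain ⟨x, hx⟩ : ∃ x, x = (1 - qq0) ^ (2 * J) * Δ := ⟨_, rfl⟩
    have hx0 : 0 < x := by rw [hx]; positivity
    have h1 : (1 - qq0) ^ (2 * (J + 1)) * Δ = (1 - qq0) ^ 2 * x := by
      rw [hx, ← mul_assoc, ← pow_add]
      ring_nf
    rw [h1, ← hx]
    rw [← hx] at ih
    have h2 : (1 - qq0) ^ 2 ≤ 0.78 := by nlinarith
    have h3 : 4 / x + 1 / x ≤ 4 / ((1 - qq0) ^ 2 * x) := by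
      rw [← add_div, div_le_div_iff₀ hx0 (by positivity)]
      nlinarith
    linarith

private theorem Nib_geo (J : ℕ) : ∑ i ∈ range J, (1 - qq0) ^ i ≤ 10 := by
  obtain ⟨hc1, hc2⟩ := Nib_c
  have h1 := geom_sum_eq (x := 1 - qq0) (by linarith) J
  rw [h1, div_le_iff_of_neg (by linarith)]
  have h2 : 0 ≤ (1 - qq0) ^ J := pow_nonneg (by linarith) J
  linarith

private theorem Nib_main {T : Type} [Fintype T] {el : E → Finset X} (hG : HG el)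
    {W : Finset E} (hTL : TL el W) {D : ℕ} (hD1 : 1 ≤ D)
    (hD : ∀ x, (star el W x).card ≤ D) {ξ : ℝ} (hξ0 : 0 ≤ ξ) {K : ℕ} {t : TestF E X T} (J : ℕ) :
    ∀ (F : Finset E) (Y : Finset X) (Δ η : ℝ), F ⊆ W → Reg el F Y Δ η →
    1000 ≤ (1 - qq0) ^ (2 * J) * Δ → Δ ≤ D → 0 ≤ η → (1.7 : ℝ) ^ J * (η + 2 * ξ) ≤ 1 / 10 →
    60 ≤ ξ * ((1 - qq0) ^ (2 * J) * Δ) → TestOK el W Y K t →
    3000 * ((K : ℝ) + 1) * (D : ℝ) ^ 5 *
      Real.exp (-(ξ ^ 2 * ((1 - qq0) ^ (2 * J) * Δ) / 20)) ≤ 1 →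
    ∃ M ⊆ F, IsM el M ∧ ∀ τ, (unc t (Y \ cov el M) τ : ℝ) ≤
      Real.exp (Nib_s J Δ (η + 2 * ξ)) * ((1 - qq0) ^ J * (unc t Y τ : ℝ) +
        ξ * D * ∑ i ∈ range J, (1 - qq0) ^ i) := by
  obtain ⟨hc1, hc2⟩ := Nib_c
  have hc0 : 0 < 1 - qq0 := by linarith
  induction J with
  | zero =>
    intro F Y Δ η _ _ _ _ _ _ _ _ _
    refine ⟨∅, empty_subset _, fun e he => absurd he (notMem_empty e), fun τ => ?_⟩
    have h1 : cov el (∅ : Finset E) = ∅ := by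
      unfold cov
      rw [biUnion_empty]
    have h2 : Nib_s 0 Δ (η + 2 * ξ) = 0 := by
      unfold Nib_s
      simp
    rw [h1, sdiff_empty, h2, Real.exp_zero, range_zero, sum_empty, pow_zero]
    linarith
  | succ J ih =>
    intro F Y Δ η hFW hR hΔ hΔD h0 h1 hξ ht hnum
    have hΔ0 : 0 < Δ := by
      by_contra hcon
      push Not at hcon
      have h2 : (1 - qq0) ^ (2 * (J + 1)) * Δ ≤ 0 :=
        mul_nonpos_of_nonneg_of_nonpos (by positivity) hcon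
      linarith
    have hle : (1 - qq0) ^ (2 * (J + 1)) * Δ ≤ Δ := by
      have h2 : (1 - qq0) ^ (2 * (J + 1)) ≤ 1 := pow_le_one₀ hc0.le (by linarith)
      nlinarith
    have hstep : (1 - qq0) ^ (2 * (J + 1)) * Δ = (1 - qq0) ^ (2 * J) * ((1 - qq0) ^ 2 * Δ) := by
      rw [← mul_assoc, ← pow_add]
      ring_nf
    have h7 : (1 : ℝ) ≤ 1.7 ^ J := one_le_pow₀ (by norm_num)
    have h7' : (1.7 : ℝ) ^ (J + 1) = 1.7 * 1.7 ^ J := by rw [pow_succ]; ring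
    have hη : η ≤ 1 / 10 := by
      rw [h7'] at h1
      nlinarith
    obtain ⟨M₁, hM₁F, hM₁, hR₁, hU₁⟩ := round_step hG hTL hD1 hD hFW hR (hΔ.trans hle) hΔD h0 hη
      hξ0 (hξ.trans (mul_le_mul_of_nonneg_left hle hξ0)) ht (by
        refine le_trans ?_ hnum
        refine mul_le_mul_of_nonneg_left (Real.exp_le_exp.2 ?_) (by positivity)
        have h2 : ξ ^ 2 * ((1 - qq0) ^ (2 * (J + 1)) * Δ) ≤ ξ ^ 2 * Δ :=
          mul_le_mul_of_nonneg_left hle (by positivity)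
        linarith)
    have ht₁ : TestOK el W (Y \ cov el M₁) K t :=
      ⟨ht.sub, ht.base_mem, ht.sl_mem, ht.sl_ne, fun τ h => ht.out τ (mem_sdiff.1 h).1, ht.few⟩
    obtain ⟨M₂, hM₂F, hM₂, hU₂⟩ := ih (F.filter (fun e => Disjoint (el e) (cov el M₁)))
      (Y \ cov el M₁) ((1 - qq0) ^ 2 * Δ) (1.7 * η + ξ) ((filter_subset _ _).trans hFW) hR₁
      (by rw [← hstep]; exact hΔ) (by
        have h2 : (1 - qq0) ^ 2 ≤ 1 := pow_le_one₀ hc0.le (by linarith)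
        nlinarith) (by positivity) (by
        rw [h7'] at h1
        have h2 : 0 ≤ ξ * 1.7 ^ J := by positivity
        nlinarith) (by rw [← hstep]; exact hξ) ht₁ (by rw [← hstep]; exact hnum)
    have hcov : cov el (M₁ ∪ M₂) = cov el M₁ ∪ cov el M₂ := by
      unfold cov
      rw [union_biUnion]
    have hdis : ∀ f ∈ M₂, ∀ e ∈ M₁, Disjoint (el f) (el e) := by
      intro f hf e he
      have h2 := (mem_filter.1 (hM₂F hf)).2
      exact h2.mono_right (subset_biUnion_of_mem el he)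
    refine ⟨M₁ ∪ M₂, union_subset hM₁F (hM₂F.trans (filter_subset _ _)), ?_, fun τ => ?_⟩
    · intro e he f hf hef
      rcases mem_union.1 he with he | he <;> rcases mem_union.1 hf with hf | hf
      · exact hM₁ e he f hf hef
      · exact (hdis f hf e he).symm
      · exact hdis e he f hf
      · exact hM₂ e he f hf hef
    · have hYY : Y \ (cov el M₁ ∪ cov el M₂) = (Y \ cov el M₁) \ cov el M₂ := by
        ext y
        simp only [mem_sdiff, mem_union, not_or, and_assoc]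
      rw [hcov, hYY]
      have hU := hU₂ τ
      have hV := hU₁ τ
      obtain ⟨u, hu⟩ : ∃ u : ℝ, u = (unc t Y τ : ℝ) := ⟨_, rfl⟩
      obtain ⟨v, hv⟩ : ∃ v : ℝ, v = (unc t (Y \ cov el M₁) τ : ℝ) := ⟨_, rfl⟩
      rw [← hu, ← hv] at hV
      rw [← hv] at hU
      rw [← hu]
      have hu0 : 0 ≤ u := by rw [hu]; positivity
      obtain ⟨s', hs'⟩ : ∃ s', s' = Nib_s J ((1 - qq0) ^ 2 * Δ) (1.7 * η + ξ + 2 * ξ) :=
        ⟨_, rfl⟩
      rw [← hs'] at hU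
      obtain ⟨g, hg⟩ : ∃ g, g = ∑ i ∈ range J, (1 - qq0) ^ i := ⟨_, rfl⟩
      rw [← hg] at hU
      have hg0 : 0 ≤ g := by rw [hg]; exact sum_nonneg fun i _ => by positivity
      rw [sum_range_succ, ← hg]
      obtain ⟨x, hx⟩ : ∃ x, x = η / 2 + 1 / Δ := ⟨_, rfl⟩
      have hx0 : 0 ≤ x := by rw [hx]; positivity
      have hV' : v ≤ (1 - qq0) * (1 + x) * u + ξ * D := by
        rw [hx, ← add_assoc]
        exact hV
      have hD0 : (0 : ℝ) ≤ D := by positivity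
      have hp : 0 ≤ (1 - qq0) ^ J := by positivity
      refine hU.trans (?_ : _ ≤ Real.exp (s' + x) *
        ((1 - qq0) ^ (J + 1) * u + ξ * D * (g + (1 - qq0) ^ J))) |>.trans ?_
      · have e1 : Real.exp (s' + x) *
            ((1 - qq0) ^ (J + 1) * u + ξ * D * (g + (1 - qq0) ^ J)) =
            Real.exp s' * (Real.exp x *
              ((1 - qq0) ^ (J + 1) * u + ξ * D * (g + (1 - qq0) ^ J))) := by
          rw [Real.exp_add]
          ring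
        rw [e1]
        refine mul_le_mul_of_nonneg_left ?_ (Real.exp_pos _).le
        have h2 : (1 - qq0) ^ J * v + ξ * D * g ≤
            (1 + x) * ((1 - qq0) ^ (J + 1) * u + ξ * D * (g + (1 - qq0) ^ J)) := by
          have h3 : (1 - qq0) ^ J * v ≤ (1 - qq0) ^ J * ((1 - qq0) * (1 + x) * u + ξ * D) :=
            mul_le_mul_of_nonneg_left hV' hp
          have h4 : 0 ≤ x * (ξ * D * (g + (1 - qq0) ^ J)) := by positivity
          rw [pow_succ]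
          nlinarith
        refine h2.trans (mul_le_mul_of_nonneg_right ?_ (by positivity))
        have := Real.add_one_le_exp x
        linarith
      · refine mul_le_mul_of_nonneg_right (Real.exp_le_exp.2 ?_) (by positivity)
        rw [hs', hx]
        exact Nib_s_succ J hξ0

theorem nibble {T : Type} [Fintype T] {el : E → Finset X} (hG : HG el) {W F : Finset E}
    (hTL : TL el W) {D : ℕ} (hD1 : 1 ≤ D) (hD : ∀ x, (star el W x).card ≤ D) (hFW : F ⊆ W)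
    {Y : Finset X} {Δ η ξ : ℝ} (hR : Reg el F Y Δ η) (J : ℕ)
    (hΔ : 1000 ≤ (1 - qq0) ^ (2 * J) * Δ) (hΔD : Δ ≤ D)
    (h0 : 0 ≤ η) (hξ0 : 0 ≤ ξ) (h1 : (1.7 : ℝ) ^ J * (η + 2 * ξ) ≤ 1 / 10)
    (hξ : 60 ≤ ξ * ((1 - qq0) ^ (2 * J) * Δ)) {K : ℕ} {t : TestF E X T}
    (ht : TestOK el W Y K t)
    (hnum : 3000 * ((K : ℝ) + 1) * (D : ℝ) ^ 5 *
      Real.exp (-(ξ ^ 2 * ((1 - qq0) ^ (2 * J) * Δ) / 20)) ≤ 1) :
    ∃ M ⊆ F, IsM el M ∧ ∀ τ, (unc t (Y \ cov el M) τ : ℝ) ≤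
      2 * (1 - qq0) ^ J * ((t.G τ).card : ℝ) + 20 * ξ * D := by
  obtain ⟨hc1, hc2⟩ := Nib_c
  have hc0 : 0 < 1 - qq0 := by linarith
  obtain ⟨M, hMF, hM, hU⟩ := Nib_main hG hTL hD1 hD hξ0 J F Y Δ η hFW hR hΔ hΔD h0 h1 hξ ht hnum
  refine ⟨M, hMF, hM, fun τ => (hU τ).trans ?_⟩
  have hs : Nib_s J Δ (η + 2 * ξ) ≤ 1 / 2 := by
    unfold Nib_s
    have h2 := Nib_sum J hΔ
    have h3 : 4 / ((1 - qq0) ^ (2 * J) * Δ) ≤ 4 / 1000 :=
      div_le_div_of_nonneg_left (by norm_num) (by norm_num) hΔ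
    have h4 : (η + 2 * ξ) * (1.7 ^ J - 1) / 1.4 ≤ 1 / 10 := by
      rw [div_le_iff₀ (by norm_num)]
      nlinarith
    linarith
  have he : Real.exp (Nib_s J Δ (η + 2 * ξ)) ≤ 2 := by
    have h2 : Real.exp (1 / 2) ≤ 2 := by
      have h3 : Real.exp (1 / 2) ^ 2 = Real.exp 1 := by
        rw [← Real.exp_nat_mul]
        norm_num
      have h4 := Real.exp_one_lt_d9
      have h5 := Real.exp_pos (1 / 2)
      nlinarith
    exact (Real.exp_le_exp.2 hs).trans h2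
  have hcard : (unc t Y τ : ℝ) ≤ ((t.G τ).card : ℝ) := by
    unfold unc
    exact_mod_cast card_le_card (filter_subset _ _)
  have hD0 : (0 : ℝ) ≤ D := by positivity
  have hg := Nib_geo J
  have hg0 : 0 ≤ ∑ i ∈ range J, (1 - qq0) ^ i := sum_nonneg fun i _ => by positivity
  have hp : 0 ≤ (1 - qq0) ^ J := by positivity
  calc Real.exp (Nib_s J Δ (η + 2 * ξ)) * ((1 - qq0) ^ J * (unc t Y τ : ℝ) +
        ξ * D * ∑ i ∈ range J, (1 - qq0) ^ i)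
      ≤ 2 * ((1 - qq0) ^ J * (unc t Y τ : ℝ) + ξ * D * ∑ i ∈ range J, (1 - qq0) ^ i) :=
        mul_le_mul_of_nonneg_right he (by positivity)
    _ ≤ 2 * ((1 - qq0) ^ J * ((t.G τ).card : ℝ) + ξ * D * 10) := by
        refine mul_le_mul_of_nonneg_left (add_le_add ?_ ?_) (by norm_num)
        · exact mul_le_mul_of_nonneg_left hcard hp
        · exact mul_le_mul_of_nonneg_left hg (by positivity)
    _ = 2 * (1 - qq0) ^ J * ((t.G τ).card : ℝ) + 20 * ξ * D := by ring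

end Pool.Agent.Lib.CD
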