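import Pool.Agent.Lib.MP_dcb6ed_co_CD.Num

/-!
# The number of rounds

`q = qq0`, `0.118 ≤ q ≤ 0.1182`.  Let `J` be minimal with `(1 - q)^J ≤ u^(-7)`; for `u > 1` we have
`J ≥ 1` and `(1 - q)^(J - 1) > u^(-7)`, so `(1 - q)^J ≥ 0.88 u^(-7)` and
`(1 - q)^(2 J) ≥ 0.77 u^(-14) ≥ u^(-15)` for `u ≥ 2`.
`1.7^4 = 8.3521 ≤ (1 / 0.882)^17 ≤ (1 / (1 - q))^17`, so `(1.7^J)^4 ≤ (1 / (1 - q)^J)^17
  ≤ (u^7 / 0.88)^17 ≤ 9 u^119 ≤ u^120` for `u ≥ 9`, i.e. `1.7^J ≤ u^30`.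
-/

set_option autoImplicit false

namespace Pool.Agent.Lib.CD

theorem num_J : ∀ u : ℝ, 9 ≤ u → ∃ J : ℕ, (1 - qq0) ^ J ≤ (u ^ 7)⁻¹ ∧
    (u ^ 15)⁻¹ ≤ (1 - qq0) ^ (2 * J) ∧ (1.7 : ℝ) ^ J ≤ u ^ 30 := by
  intro u hu
  have hq1 := qq0_lo
  have hq2 := qq0_hi
  obtain ⟨r, hr⟩ : ∃ r, r = 1 - qq0 := ⟨_, rfl⟩
  rw [← hr]
  have hr0 : 0 < r := by rw [hr]; linarith
  have hr1 : 0.8818 ≤ r := by rw [hr]; linarith
  have hr2 : r ≤ 0.882 := by rw [hr]; linarith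
  have hu0 : 0 < u := by linarith
  have hu7 : 0 < (u ^ 7)⁻¹ := by positivity
  have hex : ∃ J : ℕ, r ^ J ≤ (u ^ 7)⁻¹ := by
    obtain ⟨J, hJ⟩ := exists_pow_lt_of_lt_one hu7 (lt_of_le_of_lt hr2 (by norm_num))
    exact ⟨J, hJ.le⟩
  classical
  obtain ⟨J, hJ, hmin⟩ : ∃ J : ℕ, r ^ J ≤ (u ^ 7)⁻¹ ∧ ∀ i < J, ¬ r ^ i ≤ (u ^ 7)⁻¹ :=
    ⟨Nat.find hex, Nat.find_spec hex, fun i hi => Nat.find_min hex hi⟩
  have hJ0 : J ≠ 0 := by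
    rintro rfl
    rw [pow_zero] at hJ
    have h1 : (u ^ 7)⁻¹ < 1 := by
      apply inv_lt_one_of_one_lt₀
      exact one_lt_pow₀ (by linarith) (by norm_num)
    linarith
  obtain ⟨i, rfl⟩ := Nat.exists_eq_succ_of_ne_zero hJ0
  have h1 := not_le.1 (hmin i (Nat.lt_succ_self i))
  have h2 : 0.8818 * (u ^ 7)⁻¹ ≤ r ^ (i + 1) := by
    rw [pow_succ r i, mul_comm (r ^ i)]
    exact mul_le_mul hr1 h1.le hu7.le hr0.le
  have hy0 : 0 < r ^ (i + 1) := pow_pos hr0 _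
  refine ⟨i + 1, hJ, ?_, ?_⟩
  · have h3 : (0.8818 * (u ^ 7)⁻¹) ^ 2 ≤ r ^ (2 * (i + 1)) := by
      rw [mul_comm 2, pow_mul]
      exact pow_le_pow_left₀ (by positivity) h2 2
    refine le_trans ?_ h3
    have h4 : (0.8818 * (u ^ 7)⁻¹) ^ 2 = 0.8818 ^ 2 * u * (u ^ 15)⁻¹ := by
      field_simp
    rw [h4]
    have h5 : 0 < (u ^ 15)⁻¹ := by positivity
    have h6 : 1 ≤ 0.8818 ^ 2 * u := by
      norm_num
      linarith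
    calc (u ^ 15)⁻¹ = 1 * (u ^ 15)⁻¹ := (one_mul _).symm
      _ ≤ 0.8818 ^ 2 * u * (u ^ 15)⁻¹ := mul_le_mul_of_nonneg_right h6 h5.le
  · obtain ⟨x, hx⟩ : ∃ x, x = (1.7 : ℝ) ^ (i + 1) := ⟨_, rfl⟩
    rw [← hx]
    have hx0 : 0 < x := by rw [hx]; positivity
    have h3 : x ^ 4 * (r ^ (i + 1)) ^ 17 ≤ 1 := by
      have h4 : x ^ 4 * (r ^ (i + 1)) ^ 17 = ((1.7 : ℝ) ^ 4 * r ^ 17) ^ (i + 1) := by
        rw [hx, mul_pow, ← pow_mul, ← pow_mul, ← pow_mul, ← pow_mul, mul_comm 4, mul_comm 17]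
      rw [h4]
      refine pow_le_one₀ (by positivity) ?_
      have h5 : r ^ 17 ≤ 0.882 ^ 17 := pow_le_pow_left₀ hr0.le hr2 17
      have h6 : (1.7 : ℝ) ^ 4 * r ^ 17 ≤ 1.7 ^ 4 * 0.882 ^ 17 :=
        mul_le_mul_of_nonneg_left h5 (by positivity)
      refine h6.trans ?_
      norm_num
    have h4 : x ^ 4 * (0.8818 * (u ^ 7)⁻¹) ^ 17 ≤ 1 := by
      refine le_trans ?_ h3
      exact mul_le_mul_of_nonneg_left (pow_le_pow_left₀ (by positivity) h2 17) (by positivity)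
    have h5 : x ^ 4 * 0.8818 ^ 17 ≤ u ^ 119 := by
      have h6 : x ^ 4 * (0.8818 * (u ^ 7)⁻¹) ^ 17 = x ^ 4 * 0.8818 ^ 17 * (u ^ 119)⁻¹ := by
        rw [mul_pow, inv_pow, ← pow_mul, ← mul_assoc]
      rw [h6, ← div_eq_mul_inv, div_le_one (by positivity)] at h4
      exact h4
    have h6 : x ^ 4 ≤ (u ^ 30) ^ 4 := by
      have h7 : (1 : ℝ) / 9 ≤ 0.8818 ^ 17 := by norm_num
      have h8 : x ^ 4 * (1 / 9) ≤ u ^ 119 :=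
        (mul_le_mul_of_nonneg_left h7 (by positivity)).trans h5
      have h9 : (0 : ℝ) < u ^ 119 := by positivity
      have h10 : (u ^ 30) ^ 4 = u * u ^ 119 := by ring
      rw [h10]
      have h11 : 9 * u ^ 119 ≤ u * u ^ 119 := mul_le_mul_of_nonneg_right hu h9.le
      linarith
    exact le_of_pow_le_pow_left₀ (by norm_num) (by positivity) h6

end Pool.Agent.Lib.CD
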