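import Pool.Agent.Lib.MP_dcb6ed_co_CD.PtsW

/-!
# The large system is locally tree-like

Assumption: any `m ≤ 15` triples of `W` have together at least `m` points.

Let `x` be an element with the points `p, q`.  For `S ⊆ W` let `f (S) = |{p, q} ∪ pts S| - |S|`
(an integer), `pts S` the union of the `ptJ g`, `g ∈ S`.  `f (∅) = 2`, and `f (S) ≥ 0` if
`|S| ≤ 15`.  Let `j ≤ 2` be maximal such that there is `S ⊆ W` with `|S| ≤ 5 j`, `f (S) ≤ 2 - j`
(`j = 0` works with `S = ∅`, `j = 3` is impossible), and take `B = S`; `|B| ≤ 10`.  By maximality there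
is no `T ⊆ W` with `|T| ≤ 5`, `f (S ∪ T) ≤ f (S) - 1`  (*).

Write `P = {p, q} ∪ pts S`.  If we add a triple which is not in the current set, and which has at
least two points in the current set of points, `f` does not increase, and it decreases by at least
one if all three points are in the current set of points.  If the triple is already in the set,
nothing changes.

(1) Let `e ∈ W`, `x ∈ els e`, `e ∉ B`, `r_e` its third point (`ptJ e = {p, q, r_e}`).  Then
`r_e ∉ P`, otherwise `T = {e}` contradicts (*).  So no triple of `B` contains `r_e`.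

(2) Let `e ≠ f` be two such triples, `h ∈ Sup W x e ∩ Sup W x f`.  `r_e ≠ r_f`.
`h ∈ Sup W x e` means: `h = e`, or `h ≠ e` and there are `y ∈ els e`, `y ≠ x`, and `e₁ ∈ W`,
`e₁ ≠ e`, `y ∈ els e₁`, and `h = e₁` or `h` and `e₁` have an element in common.  Note that
`r_e ∈ ptE y ⊆ ptJ e₁` so `e₁ ∉ B`, and `e₁ ≠ f` (else `e₁` contains `x` and `y`, so `e₁ = e`).
Similarly `f₁`, `y'` for `f`.
* `h ≠ e`, `h ≠ f`.  Add `e, e₁, h, f₁` in this order to `S`: each of them has two points in the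
  current set of points (`e` has `p, q`; `e₁` has the points of `y`; `h` has two points of `e₁`;
  `f₁` has two points of `h`), so `f` does not increase.  `f` is not one of them (`f ≠ e`, `f ≠ e₁`,
  `f ≠ h`, `f ≠ f₁`) and `f ∉ S`, and all points `p, q, r_f` of `f` are present (`r_f ∈ ptE y' ⊆
  ptJ f₁`).  Adding `f` decreases `f`: contradiction to (*) with `T = {e, e₁, h, f₁, f}`.
* `h = f` (then `h ≠ e`).  `f` and `e₁` (`≠ f`) have two points in common, `ptJ f = {p, q, r_f}`,
  `ptJ e₁` contains `r_e` (not in `ptJ f`) and one of `p, q` (from `y`), not both (otherwise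
  `e₁ = e`).  So `ptJ e₁ ∩ ptJ f` consists of this point and the third point of `e₁`,
  which must be `r_f`.  Add `e`, `e₁`, and then `f`, all whose points are present.  Contradiction with
  `T = {e, e₁, f}`.
* `h = e`: the same with the roles of `e` and `f` exchanged.

(3) Let `e ∈ W`, `x ∈ els e`, `e ∉ B`, `y ≠ z` the other two elements of `e`,
`ptE y = {p, r_e}`, `ptE z = {q, r_e}` (or exchanged), `h ∈ RR W y e ∩ RR W z e`: there are
`f₁ ≠ e` with `y ∈ els f₁` and `f₂ ≠ e` with `z ∈ els f₂`, `h = f_i` or `h` and `f_i` have an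
element in common, `h ≠ e`.  `f₁ ≠ f₂`.  Let `t₂` be the third point of `f₂`
(`ptJ f₂ = {q, r_e, t₂}`), `ptJ f₁ = {p, r_e, t₁}`.  Triples which contain `r_e` are not in `B`.
* `t₂ ∈ ptJ h`, `h ≠ f₂`: add `e, f₁, h` and then `f₂`, all of whose points are present, and which
  is not in `S ∪ {e, f₁, h}`.  Contradiction to (*).
* Otherwise the two common points of `f₂` and `h` are `q, r_e`, or `h = f₂`; in both cases
  `q, r_e ∈ ptJ h`.  So `h ≠ f₁` (else `f₁ = e`), `h` and `f₁` have two points in common.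
  `ptJ h = {q, r_e, t}` with `t ≠ p` (else `h = e`); `q ∉ ptJ f₁` (else `f₁ = e`).  So the common
  points of `h` and `f₁` are `r_e` and `t = t₁`.  Add `e`, `f₁` and then `h`, all whose points are
  present (and `h ∉ S ∪ {e, f₁}`).  Contradiction to (*).
-/

set_option autoImplicit false

namespace Pool.Agent.Lib.CD

open Finset
open Pool.Agent.Lib.FR (J El Edge st Cf)

variable {n : ℕ}

/-- the points of `x` and of the triples of `S` -/
private noncomputable def TLnd_P (x : El n) (S : Finset (J n)) : Finset (Pt n) :=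
  ptE n x ∪ S.biUnion (ptJ n)

private noncomputable def TLnd_F (x : El n) (S : Finset (J n)) : ℤ :=
  ((TLnd_P x S).card : ℤ) - S.card

private theorem TLnd_ins (x : El n) (S : Finset (J n)) (g : J n) :
    TLnd_P x (insert g S) = TLnd_P x S ∪ ptJ n g := by
  unfold TLnd_P
  ext a
  simp only [mem_union, mem_biUnion, mem_insert]
  constructor
  · rintro (h | ⟨t, rfl | ht, ha⟩)
    · exact Or.inl (Or.inl h)
    · exact Or.inr ha
    · exact Or.inl (Or.inr ⟨t, ht, ha⟩)
  · rintro ((h | ⟨t, ht, ha⟩) | h)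
    · exact Or.inl h
    · exact Or.inr ⟨t, Or.inr ht, ha⟩
    · exact Or.inr ⟨g, Or.inl rfl, h⟩

private theorem TLnd_in {x : El n} {S : Finset (J n)} {g : J n} {a : Pt n}
    (h : a ∈ ptJ n g ∨ a ∈ TLnd_P x S) : a ∈ TLnd_P x (insert g S) := by
  rw [TLnd_ins, mem_union]
  exact h.symm

private theorem TLnd_inx {x : El n} {S : Finset (J n)} {a : Pt n} (h : a ∈ ptE n x) :
    a ∈ TLnd_P x S := mem_union_left _ h

/-- adding a triple with two points in the current set -/
private theorem TLnd_two {x : El n} {S : Finset (J n)} {g : J n} {a b : Pt n} (hab : a ≠ b)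
    (ha : a ∈ ptJ n g) (hb : b ∈ ptJ n g) (ha' : a ∈ TLnd_P x S) (hb' : b ∈ TLnd_P x S) :
    TLnd_F x (insert g S) ≤ TLnd_F x S := by
  by_cases hg : g ∈ S
  · rw [insert_eq_self.2 hg]
  · unfold TLnd_F
    rw [TLnd_ins, card_insert_of_notMem hg]
    have h1 := card_union_add_card_inter (TLnd_P x S) (ptJ n g)
    have h4 : ({a, b} : Finset (Pt n)) ⊆ TLnd_P x S ∩ ptJ n g := by
      intro c hc
      rw [mem_insert, mem_singleton] at hc
      rcases hc with rfl | rfl
      · exact mem_inter.2 ⟨ha', ha⟩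
      · exact mem_inter.2 ⟨hb', hb⟩
    have h2 := card_le_card h4
    rw [card_pair hab] at h2
    have h3 := card_ptJ g
    push_cast
    omega

/-- adding a triple with all points in the current set -/
private theorem TLnd_three {x : El n} {S : Finset (J n)} {g : J n} (hg : g ∉ S)
    (h : ∀ a ∈ ptJ n g, a ∈ TLnd_P x S) : TLnd_F x (insert g S) ≤ TLnd_F x S - 1 := by
  unfold TLnd_F
  rw [TLnd_ins, card_insert_of_notMem hg, union_eq_left.2 h]
  push_cast
  omega

/-- the maximal set -/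
private theorem TLnd_max {W : Finset (J n)}
    (hnd : ∀ S ⊆ W, S.card ≤ 15 → S.card ≤ (S.biUnion (ptJ n)).card) (x : El n) :
    ∃ B ⊆ W, B.card ≤ 10 ∧ ∀ g₁ ∈ W, ∀ g₂ ∈ W, ∀ g₃ ∈ W, ∀ g₄ ∈ W, ∀ g₅ ∈ W,
      TLnd_F x B ≤ TLnd_F x (insert g₅ (insert g₄ (insert g₃ (insert g₂ (insert g₁ B))))) := by
  by_contra hcon
  push Not at hcon
  have step : ∀ B ⊆ W, B.card ≤ 10 → ∃ B' ⊆ W, B'.card ≤ B.card + 5 ∧
      TLnd_F x B' + 1 ≤ TLnd_F x B := by
    intro B hB hc
    obtain ⟨g₁, h₁, g₂, h₂, g₃, h₃, g₄, h₄, g₅, h₅, hlt⟩ := hcon B hB hc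
    refine ⟨insert g₅ (insert g₄ (insert g₃ (insert g₂ (insert g₁ B)))), ?_, ?_, by omega⟩
    · exact insert_subset h₅ (insert_subset h₄ (insert_subset h₃ (insert_subset h₂
        (insert_subset h₁ hB))))
    · have a1 := card_insert_le g₁ B
      have a2 := card_insert_le g₂ (insert g₁ B)
      have a3 := card_insert_le g₃ (insert g₂ (insert g₁ B))
      have a4 := card_insert_le g₄ (insert g₃ (insert g₂ (insert g₁ B)))
      have a5 := card_insert_le g₅ (insert g₄ (insert g₃ (insert g₂ (insert g₁ B))))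
      omega
  obtain ⟨B1, hB1, hc1, hf1⟩ := step ∅ (empty_subset _) (by simp)
  rw [card_empty] at hc1
  obtain ⟨B2, hB2, hc2, hf2⟩ := step B1 hB1 (by omega)
  obtain ⟨B3, hB3, hc3, hf3⟩ := step B2 hB2 (by omega)
  have h0 : TLnd_F x (∅ : Finset (J n)) = 2 := by
    unfold TLnd_F TLnd_P
    rw [biUnion_empty, union_empty, card_ptE, card_empty]
    rfl
  have h1 := hnd B3 hB3 (by omega)
  have h2 : (B3.biUnion (ptJ n)).card ≤ (TLnd_P x B3).card := card_le_card subset_union_right
  unfold TLnd_F at hf3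
  unfold TLnd_F at hf2 hf1 h0
  omega

/-- triples with three common points are equal -/
private theorem TLnd_eq {g g' : J n} {a b c : Pt n} (hab : a ≠ b) (hac : a ≠ c) (hbc : b ≠ c)
    (ha : a ∈ ptJ n g) (hb : b ∈ ptJ n g) (hc : c ∈ ptJ n g) (ha' : a ∈ ptJ n g')
    (hb' : b ∈ ptJ n g') (hc' : c ∈ ptJ n g') : g = g' := by
  have h3 : ({a, b, c} : Finset (Pt n)).card = 3 := card_eq_three.2 ⟨a, b, c, hab, hac, hbc, rfl⟩
  have key : ∀ h : J n, a ∈ ptJ n h → b ∈ ptJ n h → c ∈ ptJ n h →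
      ({a, b, c} : Finset (Pt n)) = ptJ n h := by
    intro h h1 h2 h4
    refine eq_of_subset_of_card_le ?_ (by rw [h3, card_ptJ])
    intro d hd
    simp only [mem_insert, mem_singleton] at hd
    rcases hd with rfl | rfl | rfl <;> assumption
  exact ptJ_inj ((key g ha hb hc).symm.trans (key g' ha' hb' hc'))

/-- two common points -/
private theorem TLnd_adj {e₁ h : J n} (hh : h = e₁ ∨ ¬ Disjoint (els n e₁) (els n h)) :
    ∃ a b : Pt n, a ≠ b ∧ a ∈ ptJ n e₁ ∧ b ∈ ptJ n e₁ ∧ a ∈ ptJ n h ∧ b ∈ ptJ n h := by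
  rcases hh with rfl | hh
  · obtain ⟨a, b, c, hab, _, _, h3⟩ := card_eq_three.1 (card_ptJ h)
    refine ⟨a, b, hab, ?_, ?_, ?_, ?_⟩ <;> rw [h3] <;> simp
  · rw [not_disjoint_iff] at hh
    obtain ⟨y, hy1, hy2⟩ := hh
    rw [mem_els_iff] at hy1 hy2
    obtain ⟨a, b, hab, h2⟩ := card_eq_two.1 (card_ptE y)
    have ha : a ∈ ptE n y := by
      rw [h2]
      simp
    have hb : b ∈ ptE n y := by
      rw [h2]
      simp
    exact ⟨a, b, hab, hy1 ha, hy1 hb, hy2 ha, hy2 hb⟩

/-- the points of `x`, and the third point of a triple `e` through `x` -/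
private theorem TLnd_third {x : El n} {e : J n} (h : x ∈ els n e) :
    ∃ p q r : Pt n, p ≠ q ∧ r ≠ p ∧ r ≠ q ∧ ptE n x = {p, q} ∧ ptJ n e = {r, p, q} := by
  obtain ⟨p, q, hpq, h2⟩ := card_eq_two.1 (card_ptE x)
  obtain ⟨r, hr, hr'⟩ := third h
  rw [h2] at hr hr'
  simp only [mem_insert, mem_singleton, not_or] at hr
  exact ⟨p, q, r, hpq, hr.1, hr.2, h2, hr'⟩

/-- the points of the other elements of `e` -/
private theorem TLnd_other {x y : El n} {e : J n} {p q r : Pt n} (hx : ptE n x = {p, q})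
    (he : ptJ n e = {r, p, q}) (hy : y ∈ els n e) (hyx : y ≠ x) :
    ∃ s, (s = p ∨ s = q) ∧ s ≠ r ∧ ptE n y = {s, r} := by
  have h1 := mem_els_iff.1 hy
  rw [he] at h1
  obtain ⟨a, b, hab, h2⟩ := card_eq_two.1 (card_ptE y)
  have ha : a ∈ ({r, p, q} : Finset (Pt n)) := h1 (by rw [h2]; simp)
  have hb : b ∈ ({r, p, q} : Finset (Pt n)) := h1 (by rw [h2]; simp)
  simp only [mem_insert, mem_singleton] at ha hb
  have hne : ptE n y ≠ ptE n x := fun h => hyx (ptE_inj h)
  rcases ha with ha | ha | ha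
  · rcases hb with hb | hb | hb
    · exact absurd (ha.trans hb.symm) hab
    · refine ⟨b, Or.inl hb, fun h => hab (ha.trans h.symm), ?_⟩
      rw [h2, ha, pair_comm]
    · refine ⟨b, Or.inr hb, fun h => hab (ha.trans h.symm), ?_⟩
      rw [h2, ha, pair_comm]
  · rcases hb with hb | hb | hb
    · exact ⟨a, Or.inl ha, fun h => hab (h.trans hb.symm), by rw [h2, hb]⟩
    · exact absurd (ha.trans hb.symm) hab
    · exact absurd (by rw [h2, hx, ha, hb]) hne
  · rcases hb with hb | hb | hb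
    · exact ⟨a, Or.inr ha, fun h => hab (h.trans hb.symm), by rw [h2, hb]⟩
    · exact absurd (by rw [h2, hx, ha, hb, pair_comm]) hne
    · exact absurd (ha.trans hb.symm) hab

/-- the condition on `B` -/
private def TLnd_OK (W : Finset (J n)) (x : El n) (B : Finset (J n)) : Prop :=
  ∀ g₁ ∈ W, ∀ g₂ ∈ W, ∀ g₃ ∈ W, ∀ g₄ ∈ W, ∀ g₅ ∈ W,
    TLnd_F x B ≤ TLnd_F x (insert g₅ (insert g₄ (insert g₃ (insert g₂ (insert g₁ B)))))

/-- (1): triples with the third point of `e` are not in `B` -/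
private theorem TLnd_one {W B : Finset (J n)} {x : El n} (hB : TLnd_OK W x B) {e : J n}
    (heW : e ∈ W) (heB : e ∉ B) {p q r : Pt n} (hx : ptE n x = {p, q})
    (he : ptJ n e = {r, p, q}) {g : J n} (hg : r ∈ ptJ n g) : g ∉ B := by
  intro hgB
  have h1 := hB e heW e heW e heW e heW e heW
  simp only [insert_idem] at h1
  have h2 := TLnd_three (x := x) heB (by
    intro a ha
    rw [he] at ha
    simp only [mem_insert, mem_singleton] at ha
    rcases ha with rfl | rfl | rfl
    · exact mem_union_right _ (mem_biUnion.2 ⟨g, hgB, hg⟩)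
    · exact TLnd_inx (by rw [hx]; simp)
    · exact TLnd_inx (by rw [hx]; simp))
  omega

/-- the case `h = f` of (2) -/
private theorem TLnd_caseB {W B : Finset (J n)} {x y : El n} (hB : TLnd_OK W x B) {e f e₁ : J n}
    (heW : e ∈ W) (hfW : f ∈ W) (h1W : e₁ ∈ W) (heB : e ∉ B) (hfB : f ∉ B) {p q r r' : Pt n}
    (hpq : p ≠ q) (hrp : r ≠ p) (hrq : r ≠ q) (hrr : r ≠ r') (hx : ptE n x = {p, q})
    (he : ptJ n e = {r, p, q}) (hf : ptJ n f = {r', p, q}) (hye : y ∈ els n e) (hyx : y ≠ x)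
    (hy1 : y ∈ els n e₁) (h1e : e₁ ≠ e) (h : f = e₁ ∨ ¬ Disjoint (els n e₁) (els n f)) :
    False := by
  obtain ⟨s, hs, hsr, hy⟩ := TLnd_other hx he hye hyx
  have hy1' := mem_els_iff.1 hy1
  have hs1 : s ∈ ptJ n e₁ := hy1' (by rw [hy]; simp)
  have hr1 : r ∈ ptJ n e₁ := hy1' (by rw [hy]; simp)
  have hrf : r ∉ ptJ n f := by
    rw [hf]
    simp only [mem_insert, mem_singleton, not_or]
    exact ⟨hrr, hrp, hrq⟩
  have hf1 : f ≠ e₁ := by
    rintro rfl
    exact hrf hr1
  have hpe : p ∈ ptJ n e := by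
    rw [he]
    simp
  have hqe : q ∈ ptJ n e := by
    rw [he]
    simp
  have hre : r ∈ ptJ n e := by
    rw [he]
    simp
  have hfe : f ≠ e := by
    rintro rfl
    exact hrf hre
  obtain ⟨a, b, hab, ha1, hb1, haf, hbf⟩ := TLnd_adj h
  have hr'1 : r' ∈ ptJ n e₁ := by
    rw [hf] at haf hbf
    simp only [mem_insert, mem_singleton] at haf hbf
    rcases haf with rfl | haf
    · exact ha1
    rcases hbf with rfl | hbf
    · exact hb1
    exfalso
    have hp1 : p ∈ ptJ n e₁ := by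
      rcases haf with rfl | haf
      · exact ha1
      · rcases hbf with rfl | hbf
        · exact hb1
        · exact absurd (haf.trans hbf.symm) hab
    have hq1 : q ∈ ptJ n e₁ := by
      rcases haf with haf | rfl
      · rcases hbf with hbf | rfl
        · exact absurd (haf.trans hbf.symm) hab
        · exact hb1
      · exact ha1
    exact h1e (TLnd_eq hrp hrq hpq hr1 hp1 hq1 hre hpe hqe)
  have h2 := hB e heW e heW e heW e₁ h1W f hfW
  simp only [insert_idem] at h2
  have hpx : p ∈ ptE n x := by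
    rw [hx]
    simp
  have hqx : q ∈ ptE n x := by
    rw [hx]
    simp
  have a1 : TLnd_F x (insert e B) ≤ TLnd_F x B :=
    TLnd_two hpq hpe hqe (TLnd_inx hpx) (TLnd_inx hqx)
  have hse : s ∈ ptJ n e := by
    rcases hs with rfl | rfl
    · exact hpe
    · exact hqe
  have a2 : TLnd_F x (insert e₁ (insert e B)) ≤ TLnd_F x (insert e B) :=
    TLnd_two hsr hs1 hr1 (TLnd_in (Or.inl hse)) (TLnd_in (Or.inl hre))
  have a3 : TLnd_F x (insert f (insert e₁ (insert e B))) ≤
      TLnd_F x (insert e₁ (insert e B)) - 1 := by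
    refine TLnd_three ?_ ?_
    · rw [mem_insert, mem_insert]
      rintro (h | h | h)
      · exact hf1 h
      · exact hfe h
      · exact hfB h
    · intro c hc
      rw [hf] at hc
      simp only [mem_insert, mem_singleton] at hc
      rcases hc with rfl | rfl | rfl
      · exact TLnd_in (Or.inl hr'1)
      · exact TLnd_inx hpx
      · exact TLnd_inx hqx
  omega

/-- the elements of `Sup` -/
private theorem TLnd_sup {W : Finset (J n)} {x : El n} {e h : J n}
    (hh : h ∈ Sup (els n) W x e) : h = e ∨ (h ∈ W ∧ h ≠ e ∧ ∃ y ∈ els n e, y ≠ x ∧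
      ∃ e₁ ∈ W, e₁ ≠ e ∧ y ∈ els n e₁ ∧ (h = e₁ ∨ ¬ Disjoint (els n e₁) (els n h))) := by
  unfold Sup at hh
  rw [mem_insert] at hh
  rcases hh with hh | hh
  · exact Or.inl hh
  · right
    rw [mem_biUnion] at hh
    obtain ⟨y, hy, hh⟩ := hh
    rw [mem_erase] at hy
    unfold RR at hh
    rw [mem_filter] at hh
    obtain ⟨hW, hne, e₁, h1, h2, h3, h4⟩ := hh
    exact ⟨hW, hne, y, hy.2, hy.1, e₁, h1, h2, h3, h4⟩

/-- (2) -/
private theorem TLnd_partTwo {W B : Finset (J n)} {x : El n} (hB : TLnd_OK W x B) {e f : J n}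
    (heW : e ∈ W) (hfW : f ∈ W) (heB : e ∉ B) (hfB : f ∉ B) (hef : e ≠ f)
    (hxe : x ∈ els n e) (hxf : x ∈ els n f) :
    Disjoint (Sup (els n) W x e) (Sup (els n) W x f) := by
  obtain ⟨p, q, r, hpq, hrp, hrq, hx, he⟩ := TLnd_third hxe
  obtain ⟨r', hr', hr''⟩ := third hxf
  rw [hx] at hr' hr''
  simp only [mem_insert, mem_singleton, not_or] at hr'
  obtain ⟨hrp', hrq'⟩ := hr'
  have hf : ptJ n f = {r', p, q} := hr''
  have hrr : r ≠ r' := by
    rintro rfl
    exact hef (ptJ_inj (he.trans hf.symm))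
  rw [disjoint_left]
  intro h h1 h2
  rcases TLnd_sup h1 with h1 | ⟨hW, hhe, y, hye, hyx, e₁, he₁W, he₁e, hye₁, hadj⟩
  · rcases TLnd_sup h2 with h2 | ⟨_, _, z, hzf, hzx, f₁, hf₁W, hf₁f, hzf₁, hadj'⟩
    · exact hef (h1.symm.trans h2)
    · rw [h1] at hadj'
      exact TLnd_caseB hB hfW heW hf₁W hfB heB hpq hrp' hrq' hrr.symm hx hf he hzf hzx hzf₁
        hf₁f hadj'
  · rcases TLnd_sup h2 with h2 | ⟨_, hhf, z, hzf, hzx, f₁, hf₁W, hf₁f, hzf₁, hadj'⟩
    · rw [h2] at hadj
      exact TLnd_caseB hB heW hfW he₁W heB hfB hpq hrp hrq hrr hx he hf hye hyx hye₁ he₁e hadj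
    · obtain ⟨s, hs, hsr, hy⟩ := TLnd_other hx he hye hyx
      obtain ⟨s', _, _, hz⟩ := TLnd_other hx hf hzf hzx
      have hs1 : s ∈ ptJ n e₁ := mem_els_iff.1 hye₁ (by rw [hy]; simp)
      have hr1 : r ∈ ptJ n e₁ := mem_els_iff.1 hye₁ (by rw [hy]; simp)
      have hr'1 : r' ∈ ptJ n f₁ := mem_els_iff.1 hzf₁ (by rw [hz]; simp)
      have hrf : r ∉ ptJ n f := by
        rw [hf]
        simp only [mem_insert, mem_singleton, not_or]
        exact ⟨hrr, hrp, hrq⟩
      have hfe₁ : f ≠ e₁ := by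
        rintro rfl
        exact hrf hr1
      have hpe : p ∈ ptJ n e := by
        rw [he]
        simp
      have hqe : q ∈ ptJ n e := by
        rw [he]
        simp
      have hre : r ∈ ptJ n e := by
        rw [he]
        simp
      have hse : s ∈ ptJ n e := by
        rcases hs with rfl | rfl
        · exact hpe
        · exact hqe
      have hpx : p ∈ ptE n x := by
        rw [hx]
        simp
      have hqx : q ∈ ptE n x := by
        rw [hx]
        simp
      obtain ⟨a, b, hab, ha1, hb1, hah, hbh⟩ := TLnd_adj hadj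
      obtain ⟨a', b', hab', ha1', hb1', hah', hbh'⟩ := TLnd_adj hadj'
      have h0 := hB e heW e₁ he₁W h hW f₁ hf₁W f hfW
      have c1 : TLnd_F x (insert e B) ≤ TLnd_F x B :=
        TLnd_two hpq hpe hqe (TLnd_inx hpx) (TLnd_inx hqx)
      have c2 : TLnd_F x (insert e₁ (insert e B)) ≤ TLnd_F x (insert e B) :=
        TLnd_two hsr hs1 hr1 (TLnd_in (Or.inl hse)) (TLnd_in (Or.inl hre))
      have c3 : TLnd_F x (insert h (insert e₁ (insert e B))) ≤
          TLnd_F x (insert e₁ (insert e B)) :=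
        TLnd_two hab hah hbh (TLnd_in (Or.inl ha1)) (TLnd_in (Or.inl hb1))
      have c4 : TLnd_F x (insert f₁ (insert h (insert e₁ (insert e B)))) ≤
          TLnd_F x (insert h (insert e₁ (insert e B))) :=
        TLnd_two hab' ha1' hb1' (TLnd_in (Or.inl hah')) (TLnd_in (Or.inl hbh'))
      have c5 : TLnd_F x (insert f (insert f₁ (insert h (insert e₁ (insert e B))))) ≤
          TLnd_F x (insert f₁ (insert h (insert e₁ (insert e B)))) - 1 := by
        refine TLnd_three ?_ ?_
        · simp only [mem_insert, not_or]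
          exact ⟨hf₁f.symm, hhf.symm, hfe₁, hef.symm, hfB⟩
        · intro c hc
          rw [hf] at hc
          simp only [mem_insert, mem_singleton] at hc
          rcases hc with rfl | rfl | rfl
          · exact TLnd_in (Or.inl hr'1)
          · exact TLnd_inx hpx
          · exact TLnd_inx hqx
      omega

/-- (3) -/
private theorem TLnd_partThree {W B : Finset (J n)} {x y z : El n} (hB : TLnd_OK W x B) {e : J n}
    (heW : e ∈ W) (heB : e ∉ B) (hxe : x ∈ els n e) (hye : y ∈ els n e) (hyx : y ≠ x)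
    (hze : z ∈ els n e) (hzx : z ≠ x) (hyz : y ≠ z) :
    Disjoint (RR (els n) W y e) (RR (els n) W z e) := by
  obtain ⟨p, q, r, hpq, hrp, hrq, hx, he⟩ := TLnd_third hxe
  obtain ⟨s, hs, hsr, hy⟩ := TLnd_other hx he hye hyx
  obtain ⟨t, ht, htr, hz⟩ := TLnd_other hx he hze hzx
  have hst : s ≠ t := by
    rintro rfl
    exact hyz (ptE_inj (hy.trans hz.symm))
  have hpe : p ∈ ptJ n e := by
    rw [he]
    simp
  have hqe : q ∈ ptJ n e := by
    rw [he]
    simp
  have hre : r ∈ ptJ n e := by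
    rw [he]
    simp
  have hse : s ∈ ptJ n e := by
    rcases hs with rfl | rfl
    · exact hpe
    · exact hqe
  have hte : t ∈ ptJ n e := by
    rcases ht with rfl | rfl
    · exact hpe
    · exact hqe
  have hpx : p ∈ ptE n x := by
    rw [hx]
    simp
  have hqx : q ∈ ptE n x := by
    rw [hx]
    simp
  have hno : ∀ g : J n, g ≠ e → s ∈ ptJ n g → t ∈ ptJ n g → r ∈ ptJ n g → False :=
    fun g hg h1 h2 h3 => hg (TLnd_eq hst hsr htr h1 h2 h3 hse hte hre)
  rw [disjoint_left]
  intro h h1 h2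
  unfold RR at h1 h2
  rw [mem_filter] at h1 h2
  obtain ⟨hW, hhe, f₁, hf₁W, hf₁e, hyf₁, hadj⟩ := h1
  obtain ⟨_, _, f₂, hf₂W, hf₂e, hzf₂, hadj'⟩ := h2
  have hs1 : s ∈ ptJ n f₁ := mem_els_iff.1 hyf₁ (by rw [hy]; simp)
  have hr1 : r ∈ ptJ n f₁ := mem_els_iff.1 hyf₁ (by rw [hy]; simp)
  have ht2 : t ∈ ptJ n f₂ := mem_els_iff.1 hzf₂ (by rw [hz]; simp)
  have hr2 : r ∈ ptJ n f₂ := mem_els_iff.1 hzf₂ (by rw [hz]; simp)
  have hf₁₂ : f₁ ≠ f₂ := by
    rintro rfl
    exact hno f₁ hf₁e hs1 ht2 hr1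
  obtain ⟨t₁, ht₁, hf₁⟩ := third hyf₁
  obtain ⟨t₂, ht₂, hf₂⟩ := third hzf₂
  rw [hy] at ht₁ hf₁
  rw [hz] at ht₂ hf₂
  simp only [mem_insert, mem_singleton, not_or] at ht₁ ht₂
  have hB1 : ∀ g : J n, r ∈ ptJ n g → g ∉ B := fun g hg => TLnd_one hB heW heB hx he hg
  have c1 : TLnd_F x (insert e B) ≤ TLnd_F x B :=
    TLnd_two hpq hpe hqe (TLnd_inx hpx) (TLnd_inx hqx)
  have c2 : TLnd_F x (insert f₁ (insert e B)) ≤ TLnd_F x (insert e B) :=
    TLnd_two hsr hs1 hr1 (TLnd_in (Or.inl hse)) (TLnd_in (Or.inl hre))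
  by_cases hcase : t₂ ∈ ptJ n h ∧ h ≠ f₂
  · obtain ⟨a, b, hab, ha1, hb1, hah, hbh⟩ := TLnd_adj hadj
    have c3 : TLnd_F x (insert h (insert f₁ (insert e B))) ≤
        TLnd_F x (insert f₁ (insert e B)) :=
      TLnd_two hab hah hbh (TLnd_in (Or.inl ha1)) (TLnd_in (Or.inl hb1))
    have c4 : TLnd_F x (insert f₂ (insert h (insert f₁ (insert e B)))) ≤
        TLnd_F x (insert h (insert f₁ (insert e B))) - 1 := by
      refine TLnd_three ?_ ?_
      · simp only [mem_insert, not_or]
        exact ⟨hcase.2.symm, hf₁₂.symm, hf₂e, hB1 f₂ hr2⟩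
      · intro c hc
        rw [hf₂] at hc
        simp only [mem_insert, mem_singleton] at hc
        rcases hc with rfl | rfl | rfl
        · exact TLnd_in (Or.inl hcase.1)
        · exact TLnd_in (Or.inr (TLnd_in (Or.inr (TLnd_in (Or.inl hte)))))
        · exact TLnd_in (Or.inr (TLnd_in (Or.inr (TLnd_in (Or.inl hre)))))
    have h0 := hB e heW e heW f₁ hf₁W h hW f₂ hf₂W
    simp only [insert_idem] at h0
    omega
  · have hth : t ∈ ptJ n h ∧ r ∈ ptJ n h := by
      by_cases hh : h = f₂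
      · rw [hh]
        exact ⟨ht2, hr2⟩
      · have ht₂h : t₂ ∉ ptJ n h := fun h3 => hcase ⟨h3, hh⟩
        obtain ⟨a, b, hab, ha2, hb2, hah, hbh⟩ := TLnd_adj hadj'
        rw [hf₂] at ha2 hb2
        simp only [mem_insert, mem_singleton] at ha2 hb2
        rcases ha2 with rfl | ha2
        · exact absurd hah ht₂h
        rcases hb2 with rfl | hb2
        · exact absurd hbh ht₂h
        rcases ha2 with rfl | rfl
        · rcases hb2 with rfl | rfl
          · exact absurd rfl hab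
          · exact ⟨hah, hbh⟩
        · rcases hb2 with rfl | rfl
          · exact ⟨hbh, hah⟩
          · exact absurd rfl hab
    have hhf₁ : h ≠ f₁ := by
      rintro rfl
      exact hno h hf₁e hs1 hth.1 hth.2
    have hsh : s ∉ ptJ n h := fun h3 => hno h hhe h3 hth.1 hth.2
    have ht1 : t ∉ ptJ n f₁ := fun h3 => hno f₁ hf₁e hs1 h3 hr1
    have ht₁h : t₁ ∈ ptJ n h := by
      obtain ⟨a, b, hab, ha1, hb1, hah, hbh⟩ := TLnd_adj hadj
      rw [hf₁] at ha1 hb1
      simp only [mem_insert, mem_singleton] at ha1 hb1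
      rcases ha1 with rfl | rfl | rfl
      · exact hah
      · exact absurd hah hsh
      · rcases hb1 with rfl | rfl | rfl
        · exact hbh
        · exact absurd hbh hsh
        · exact absurd rfl hab
    have ht₁1 : t₁ ∈ ptJ n f₁ := by
      rw [hf₁]
      simp
    have htt₁ : t ≠ t₁ := by
      rintro rfl
      exact ht1 ht₁1
    have hh3 : ({t, r, t₁} : Finset (Pt n)) = ptJ n h := by
      refine eq_of_subset_of_card_le ?_ ?_
      · intro d hd
        simp only [mem_insert, mem_singleton] at hd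
        rcases hd with rfl | rfl | rfl
        · exact hth.1
        · exact hth.2
        · exact ht₁h
      · rw [card_ptJ, card_eq_three.2 ⟨t, r, t₁, htr, htt₁, fun h3 => ht₁.2 h3.symm, rfl⟩]
    have c3 : TLnd_F x (insert h (insert f₁ (insert e B))) ≤
        TLnd_F x (insert f₁ (insert e B)) - 1 := by
      refine TLnd_three ?_ ?_
      · simp only [mem_insert, not_or]
        exact ⟨hhf₁, hhe, hB1 h hth.2⟩
      · intro c hc
        rw [← hh3] at hc
        simp only [mem_insert, mem_singleton] at hc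
        rcases hc with rfl | rfl | rfl
        · exact TLnd_in (Or.inr (TLnd_in (Or.inl hte)))
        · exact TLnd_in (Or.inl hr1)
        · exact TLnd_in (Or.inl ht₁1)
    have h0 := hB e heW e heW e heW f₁ hf₁W h hW
    simp only [insert_idem] at h0
    omega

theorem tl_of_nd {n : ℕ} {W : Finset (J n)}
    (hnd : ∀ S ⊆ W, S.card ≤ 15 → S.card ≤ (S.biUnion (ptJ n)).card) : TL (els n) W := by
  intro x
  obtain ⟨B, hBW, hBc, hB⟩ := TLnd_max hnd x
  refine ⟨B, hBc, ?_, ?_⟩
  · intro e he f hf heB hfB hef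
    unfold star at he hf
    rw [mem_filter] at he hf
    exact TLnd_partTwo hB he.1 hf.1 heB hfB hef he.2 hf.2
  · intro e he heB y hy z hz hyz
    unfold star at he
    rw [mem_filter] at he
    rw [mem_erase] at hy hz
    exact TLnd_partThree hB he.1 heB he.2 hy.2 hy.1 hz.2 hz.1 hyz

end Pool.Agent.Lib.CD
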