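import Pool.Agent.Lib.MP_dcb6ed_co_CD.Nib
import Pool.Agent.Lib.MP_dcb6ed_co_CD.NumJ
import Pool.Agent.Lib.MP_dcb6ed_co_CD.TLnd

/-!
# Application of the nibble

Apply `nibble` with `el = els n`, `W = W1` (`tl_of_nd`), `F = F0`, `Y = Y0`, `D = ⌊4 u ^ 200⌋₊`,
`Δ = (1 - α) (1 - 2 u^(-3)) u ^ 200` (between `u ^ 200 / 2` and `u ^ 200`), `η = 2 u ^ (-36)`,
`ξ = u ^ (-36)`, `J` from `num_J`, `K = 4`.  The conditions, for large `u`:
`(1 - q)^(2 J) Δ ≥ u^(-15) u^200 / 2 ≥ 1000`; `1.7^J (η + 2 ξ) ≤ 4 u^30 u^(-36) ≤ 1/10`;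
`ξ (1 - q)^(2 J) Δ ≥ u^(-36) u^185 / 2 ≥ 60`; and
`15000 (4 u^200)^5 exp (- u^(-72) u^185 / 40) = 15000 · 1024 · u^1000 exp (- u^113 / 40) ≤ 1`.
Degrees: `star (els n) W1 x = W1 ∩ st n x` has at most `4 u ^ 200` elements, an integer.

The tests: `T` is the subtype of the `(a, s, i) : El n × Pt n × Bool` with `a ∉ Y0`, `s ∈ ptE a`;
the base is `a`, `G (a, s, false) = H ∩ st a`, `G (a, s, true)` the set of the `g ∈ H ∩ st a` such
that all `y ∈ els g` with `y ≠ a`, `s ∉ ptE y` have `cl y = 1`; `sl (a, s, i) g` is the element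
`y ≠ a` of `g` which contains `s` (`other_exists`, `other_unique`).  At most `2 · 2 = 4` tests have
the same base.
The conclusion for `M1`: `|{g ∈ G τ : sl g ∈ Y0 \ cov M1}| ≤ 2 (1 - q)^J |G τ| + 20 ξ D
≤ 2 u^(-7) |G τ| + 80 u^164`.  `tb`: `|G τ| ≤ 4 u^200`, and `8 u^193 + 80 u^164 ≤ 9 u^193`.
`ta`: `|G τ| ≤ 5 u^197` (`l6`), and `10 u^190 + 80 u^164 ≤ 11 u^190`.
-/

set_option autoImplicit false

namespace Pool.Agent.Lib.CD

open Finset Filter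
open Pool.Agent.Lib.FR (J El Edge st Cf)

/-- the index type of the tests -/
abbrev Nib1_T (n : ℕ) (Y : Finset (El n)) : Type :=
  {t : El n × Pt n × Bool // t.1 ∉ Y ∧ t.2.1 ∈ ptE n t.1}

open Classical in
/-- the tests -/
noncomputable def Nib1_t (n : ℕ) (Y : Finset (El n)) (H : Finset (J n)) (cl : El n → Fin 3) :
    TestF (J n) (El n) (Nib1_T n Y) where
  base := fun τ => τ.1.1
  G := fun τ => H.filter (fun g => g ∈ st n τ.1.1 ∧ (τ.1.2.2 = true →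
    ∀ y ∈ els n g, y ≠ τ.1.1 → τ.1.2.1 ∉ ptE n y → cl y = 1))
  sl := fun τ g => if h : ∃ y ∈ els n g, y ≠ τ.1.1 ∧ τ.1.2.1 ∈ ptE n y then h.choose else τ.1.1

private theorem Nib1_mem {n : ℕ} {Y : Finset (El n)} {H : Finset (J n)} {cl : El n → Fin 3}
    {τ : Nib1_T n Y} {g : J n} : g ∈ (Nib1_t n Y H cl).G τ ↔ g ∈ H ∧ (g ∈ st n τ.1.1 ∧
      (τ.1.2.2 = true → ∀ y ∈ els n g, y ≠ τ.1.1 → τ.1.2.1 ∉ ptE n y → cl y = 1)) := by
  classical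
  exact mem_filter

private theorem Nib1_sl {n : ℕ} {Y : Finset (El n)} {H : Finset (J n)} {cl : El n → Fin 3}
    {τ : Nib1_T n Y} {g : J n} (hg : g ∈ (Nib1_t n Y H cl).G τ) :
    (Nib1_t n Y H cl).sl τ g ∈ els n g ∧ (Nib1_t n Y H cl).sl τ g ≠ τ.1.1 ∧
      τ.1.2.1 ∈ ptE n ((Nib1_t n Y H cl).sl τ g) := by
  have h1 : τ.1.1 ∈ els n g := mem_els.2 (Nib1_mem.1 hg).2.1
  have h2 := other_exists h1 τ.2.2
  have h3 : (Nib1_t n Y H cl).sl τ g = h2.choose := dif_pos h2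
  rw [h3]
  exact h2.choose_spec

private theorem Nib1_few {n : ℕ} {Y : Finset (El n)} {H : Finset (J n)} {cl : El n → Fin 3}
    (x : El n) : (univ.filter (fun τ => (Nib1_t n Y H cl).base τ = x)).card ≤ 4 := by
  classical
  have h1 : (ptE n x ×ˢ (univ : Finset Bool)).card = 4 := by
    rw [card_product, card_ptE, card_univ, Fintype.card_bool]
  rw [← h1]
  refine card_le_card_of_injOn (fun τ => (τ.1.2.1, τ.1.2.2)) ?_ ?_
  · intro τ hτ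
    have h2 : τ.1.1 = x := (mem_filter.1 hτ).2
    rw [mem_coe, mem_product]
    refine ⟨?_, mem_univ _⟩
    have h3 := τ.2.2
    rw [h2] at h3
    exact h3
  · intro τ hτ τ' hτ' h
    have h2 : τ.1.1 = x := (mem_filter.1 hτ).2
    have h3 : τ'.1.1 = x := (mem_filter.1 hτ').2
    exact Subtype.ext (Prod.ext (h2.trans h3.symm) h)

private theorem Nib1_ok {n : ℕ} {Y : Finset (El n)} {H W : Finset (J n)} {cl : El n → Fin 3}
    (hH : H ⊆ W) : TestOK (els n) W Y 4 (Nib1_t n Y H cl) where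
  sub := fun _ g hg => hH (Nib1_mem.1 hg).1
  base_mem := fun _ g hg => mem_els.2 (Nib1_mem.1 hg).2.1
  sl_mem := fun _ g hg => (Nib1_sl hg).1
  sl_ne := fun _ g hg => (Nib1_sl hg).2.1
  out := fun τ => τ.2.1
  few := fun x => Nib1_few x

/-- the number of uncovered members of a test -/
private theorem Nib1_unc {n : ℕ} {Y Y' : Finset (El n)} {H : Finset (J n)} {cl : El n → Fin 3}
    (τ : Nib1_T n Y) : cnt (fun g : J n => g ∈ (Nib1_t n Y H cl).G τ ∧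
      ∃ y ∈ els n g, y ≠ τ.1.1 ∧ τ.1.2.1 ∈ ptE n y ∧ y ∈ Y') ≤
      unc (Nib1_t n Y H cl) Y' τ := by
  classical
  unfold cnt unc
  refine card_le_card fun g hg => ?_
  obtain ⟨hg1, y, hy1, hy2, hy3, hy4⟩ := (mem_filter.1 hg).2
  refine mem_filter.2 ⟨hg1, ?_⟩
  obtain ⟨h1, h2, h3⟩ := Nib1_sl hg1
  have h4 : τ.1.1 ∈ els n g := mem_els.2 (Nib1_mem.1 hg1).2.1
  rw [other_unique h4 τ.2.2 h1 h2 h3 hy1 hy2 hy3]
  exact hy4

private theorem Nib1_ev : ∀ᶠ u : ℝ in atTop, 2000 ≤ u ∧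
    15360000 * (u ^ 1000 * Real.exp (-u)) ≤ 1 := by
  have h := (Real.tendsto_pow_mul_exp_neg_atTop_nhds_zero 1000).eventually_lt_const
    (show (0 : ℝ) < 1 / 15360000 by norm_num)
  filter_upwards [eventually_ge_atTop (2000 : ℝ), h] with u h1 h2
  refine ⟨h1, ?_⟩
  linarith

theorem nib1 : ∀ᶠ u : ℝ in atTop, ∀ (n : ℕ) (α : ℝ), 0 ≤ α → α ≤ 1 / u →
    ∀ (Z : Finset (Pt n)) (W0 W1 H : Finset (J n)), Gd n u α Z W0 W1 → H ⊆ W1 →
    ∀ (cl : El n → Fin 3) (pre : El n → Bool) (co : J n → Bool), LabOK n u α Z W1 H cl pre co →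
    ∀ M0 : Finset (J n),
      Reg (els n) (F0 n Z M0 H cl co) (Y0 n Z M0 cl) ((1 - α) * (1 - 2 * (u ^ 3)⁻¹) * u ^ 200)
        (2 * (u ^ 36)⁻¹) → ∃ M1, M1OK n u Z H M0 M1 cl co := by
  filter_upwards [Nib1_ev] with u hu
  obtain ⟨hu1, hu2⟩ := hu
  intro n α hα0 hα1 Z W0 W1 H hGd hH cl pre co hLab M0 hReg
  have hu0 : 0 < u := by linarith
  obtain ⟨J', hJ1, hJ2, hJ3⟩ := num_J u (by linarith)
  obtain ⟨Δ, hΔ⟩ : ∃ Δ, Δ = (1 - α) * (1 - 2 * (u ^ 3)⁻¹) * u ^ 200 := ⟨_, rfl⟩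
  rw [← hΔ] at hReg
  have hpw : ∀ k : ℕ, k ≠ 0 → u ≤ u ^ k := fun k hk => le_self_pow₀ (by linarith) hk
  have hα2 : α ≤ 1 / 2000 := hα1.trans (one_div_le_one_div_of_le (by norm_num) hu1)
  have hu3 : (u ^ 3)⁻¹ ≤ 1 / 2000 := by
    rw [← one_div]
    exact one_div_le_one_div_of_le (by norm_num) (hu1.trans (hpw 3 (by norm_num)))
  have hu30 : 0 < (u ^ 3)⁻¹ := by positivity
  have h200 : 0 < u ^ 200 := by positivity
  have hΔ1 : u ^ 200 / 2 ≤ Δ := by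
    rw [hΔ]
    have h1 : 1 / 2 ≤ (1 - α) * (1 - 2 * (u ^ 3)⁻¹) := by nlinarith
    nlinarith
  have hΔ2 : Δ ≤ u ^ 200 := by
    rw [hΔ]
    have h1 : (1 - α) * (1 - 2 * (u ^ 3)⁻¹) ≤ 1 := by nlinarith
    nlinarith
  have hP : u ^ 185 / 2 ≤ (1 - qq0) ^ (2 * J') * Δ := by
    have h1 : (u ^ 15)⁻¹ * (u ^ 200 / 2) = u ^ 185 / 2 := by
      have h2 : u ^ 200 = u ^ 15 * u ^ 185 := by rw [← pow_add]
      rw [h2]
      field_simp
    rw [← h1]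
    exact mul_le_mul hJ2 hΔ1 (by positivity) (le_trans (by positivity) hJ2)
  obtain ⟨D, hDdef⟩ : ∃ D : ℕ, D = ⌊4 * u ^ 200⌋₊ := ⟨_, rfl⟩
  have hDle : (D : ℝ) ≤ 4 * u ^ 200 := by
    rw [hDdef]
    exact Nat.floor_le (by positivity)
  have hDge : 4 * u ^ 200 - 1 ≤ (D : ℝ) := by
    have h1 := Nat.lt_floor_add_one (4 * u ^ 200)
    rw [hDdef]
    linarith
  have h200u : u ≤ u ^ 200 := hpw 200 (by norm_num)
  have hD1 : 1 ≤ D := by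
    have h1 : (1 : ℝ) ≤ (D : ℝ) := by linarith
    exact_mod_cast h1
  have hD : ∀ x, (star (els n) W1 x).card ≤ D := by
    intro x
    rw [star_els, hDdef]
    exact Nat.le_floor (hGd.maxd x)
  have hFH : F0 n Z M0 H cl co ⊆ H := by
    intro g hg
    unfold F0 at hg
    exact (mem_filter.1 hg).1
  have hξ0 : 0 ≤ (u ^ 36)⁻¹ := by positivity
  have hΔ' : 1000 ≤ (1 - qq0) ^ (2 * J') * Δ := by
    have h1 := hpw 185 (by norm_num)
    linarith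
  have h1 : (1.7 : ℝ) ^ J' * (2 * (u ^ 36)⁻¹ + 2 * (u ^ 36)⁻¹) ≤ 1 / 10 := by
    have h2 : (u ^ 30 : ℝ) * (4 * (u ^ 36)⁻¹) = 4 / u ^ 6 := by
      have h3 : u ^ 36 = u ^ 30 * u ^ 6 := by rw [← pow_add]
      rw [h3]
      field_simp
    have h4 : (4 : ℝ) / u ^ 6 ≤ 1 / 10 := by
      rw [div_le_div_iff₀ (by positivity) (by norm_num)]
      have h5 := hpw 6 (by norm_num)
      linarith
    calc (1.7 : ℝ) ^ J' * (2 * (u ^ 36)⁻¹ + 2 * (u ^ 36)⁻¹) = 1.7 ^ J' * (4 * (u ^ 36)⁻¹) := by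
          ring
      _ ≤ u ^ 30 * (4 * (u ^ 36)⁻¹) := mul_le_mul_of_nonneg_right hJ3 (by positivity)
      _ ≤ 1 / 10 := by rw [h2]; exact h4
  have hξ : 60 ≤ (u ^ 36)⁻¹ * ((1 - qq0) ^ (2 * J') * Δ) := by
    have h2 : (u ^ 36)⁻¹ * (u ^ 185 / 2) = u ^ 149 / 2 := by
      have h3 : u ^ 185 = u ^ 36 * u ^ 149 := by rw [← pow_add]
      rw [h3]
      field_simp
    have h4 := hpw 149 (by norm_num)
    have h5 := mul_le_mul_of_nonneg_left hP hξ0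
    linarith
  have hnum : 3000 * (((4 : ℕ) : ℝ) + 1) * (D : ℝ) ^ 5 *
      Real.exp (-(((u ^ 36)⁻¹) ^ 2 * ((1 - qq0) ^ (2 * J') * Δ) / 20)) ≤ 1 := by
    have h2 : ((u ^ 36)⁻¹) ^ 2 * (u ^ 185 / 2) / 20 = u ^ 113 / 40 := by
      have h3 : u ^ 185 = (u ^ 36) ^ 2 * u ^ 113 := by rw [← pow_mul, ← pow_add]
      rw [h3]
      field_simp
      norm_num
    have h4 : u ^ 113 / 40 ≤ ((u ^ 36)⁻¹) ^ 2 * ((1 - qq0) ^ (2 * J') * Δ) / 20 := by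
      rw [← h2]
      have h5 : 0 ≤ ((u ^ 36)⁻¹) ^ 2 := by positivity
      have h6 := mul_le_mul_of_nonneg_left hP h5
      linarith
    have h7 : u ≤ u ^ 113 / 40 := by
      have h8 : u ^ 113 = u * u ^ 112 := by rw [← pow_succ']
      have h9 := hpw 112 (by norm_num)
      rw [h8]
      nlinarith
    have h8 : Real.exp (-(((u ^ 36)⁻¹) ^ 2 * ((1 - qq0) ^ (2 * J') * Δ) / 20)) ≤
        Real.exp (-u) := by
      refine Real.exp_le_exp.2 ?_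
      linarith
    have h9 : (D : ℝ) ^ 5 ≤ (4 * u ^ 200) ^ 5 := pow_le_pow_left₀ (by positivity) hDle 5
    have h10 : (4 * u ^ 200 : ℝ) ^ 5 = 1024 * u ^ 1000 := by
      rw [mul_pow, ← pow_mul]
      norm_num
    rw [h10] at h9
    have h11 : 0 ≤ 1024 * u ^ 1000 := by positivity
    have h12 : 3000 * (((4 : ℕ) : ℝ) + 1) * (D : ℝ) ^ 5 ≤ 15360000 * u ^ 1000 := by
      push_cast
      linarith
    calc 3000 * (((4 : ℕ) : ℝ) + 1) * (D : ℝ) ^ 5 *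
          Real.exp (-(((u ^ 36)⁻¹) ^ 2 * ((1 - qq0) ^ (2 * J') * Δ) / 20))
        ≤ 15360000 * u ^ 1000 * Real.exp (-u) :=
          mul_le_mul h12 h8 (Real.exp_pos _).le (by positivity)
      _ ≤ 1 := by linarith
  have hΔD : Δ ≤ D := by linarith
  obtain ⟨M1, hM1, hM2, hM3⟩ := nibble (hg_els n) (tl_of_nd hGd.nd) hD1 hD (hFH.trans hH) hReg J'
    hΔ' hΔD (by positivity) hξ0 h1 hξ (Nib1_ok (cl := cl) hH) hnum
  have h164 : 20 * (u ^ 36)⁻¹ * (D : ℝ) ≤ 80 * u ^ 164 := by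
    have h2 : 20 * (u ^ 36)⁻¹ * (4 * u ^ 200) = 80 * u ^ 164 := by
      have h3 : u ^ 200 = u ^ 36 * u ^ 164 := by rw [← pow_add]
      rw [h3]
      field_simp
      norm_num
    rw [← h2]
    exact mul_le_mul_of_nonneg_left hDle (by positivity)
  have hkey : ∀ (τ : Nib1_T n (Y0 n Z M0 cl)) (B : ℝ),
      (((Nib1_t n (Y0 n Z M0 cl) H cl).G τ).card : ℝ) ≤ B →
      (unc (Nib1_t n (Y0 n Z M0 cl) H cl) (Y0 n Z M0 cl \ cov (els n) M1) τ : ℝ) ≤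
        2 * ((u ^ 7)⁻¹ * B) + 80 * u ^ 164 := by
    intro τ B hB
    refine (hM3 τ).trans ?_
    have h2 : (1 - qq0) ^ J' * (((Nib1_t n (Y0 n Z M0 cl) H cl).G τ).card : ℝ) ≤
        (u ^ 7)⁻¹ * B := mul_le_mul hJ1 hB (Nat.cast_nonneg _) (by positivity)
    linarith
  refine ⟨M1, ⟨hM1, hM2, ?_, ?_⟩⟩
  · intro a ha s hs
    obtain ⟨τ, hτ⟩ : ∃ τ : Nib1_T n (Y0 n Z M0 cl), τ = ⟨(a, s, false), ha, hs⟩ := ⟨_, rfl⟩
    have e1 : τ.1.1 = a := by rw [hτ]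
    have e2 : τ.1.2.1 = s := by rw [hτ]
    have e3 : τ.1.2.2 = false := by rw [hτ]
    have hB : (((Nib1_t n (Y0 n Z M0 cl) H cl).G τ).card : ℝ) ≤ 4 * u ^ 200 := by
      refine le_trans ?_ (hGd.maxd a)
      refine Nat.cast_le.2 (card_le_card fun g hg => ?_)
      have h2 := Nib1_mem.1 hg
      rw [e1] at h2
      exact mem_inter.2 ⟨hH h2.1, h2.2.1⟩
    have h2 := hkey τ _ hB
    have h3 : (u ^ 7)⁻¹ * (4 * u ^ 200) = 4 * u ^ 193 := by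
      have h4 : u ^ 200 = u ^ 7 * u ^ 193 := by rw [← pow_add]
      rw [h4]
      field_simp
    rw [h3] at h2
    have h4 : 80 * u ^ 164 ≤ u ^ 193 := by
      have h5 : u ^ 193 = u ^ 29 * u ^ 164 := by rw [← pow_add]
      rw [h5]
      refine mul_le_mul_of_nonneg_right ?_ (by positivity)
      have h6 := hpw 29 (by norm_num)
      linarith
    have h5 : (cnt (fun g : J n => g ∈ H ∧ g ∈ st n a ∧
        ∃ y ∈ els n g, y ≠ a ∧ s ∈ ptE n y ∧ y ∈ Y0 n Z M0 cl ∧ y ∉ cov (els n) M1) : ℝ) ≤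
        (unc (Nib1_t n (Y0 n Z M0 cl) H cl) (Y0 n Z M0 cl \ cov (els n) M1) τ : ℝ) := by
      refine Nat.cast_le.2 (le_trans (cnt_mono fun g hg => ?_) (Nib1_unc τ))
      obtain ⟨h6, h7, y, h8, h9, h10, h11, h12⟩ := hg
      rw [Nib1_mem, e1, e2, e3]
      exact ⟨⟨h6, h7, fun h => absurd h Bool.false_ne_true⟩, y, h8, h9, h10,
        mem_sdiff.2 ⟨h11, h12⟩⟩
    linarith
  · intro a ha s hs
    obtain ⟨τ, hτ⟩ : ∃ τ : Nib1_T n (Y0 n Z M0 cl), τ = ⟨(a, s, true), ha, hs⟩ := ⟨_, rfl⟩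
    have e1 : τ.1.1 = a := by rw [hτ]
    have e2 : τ.1.2.1 = s := by rw [hτ]
    have e3 : τ.1.2.2 = true := by rw [hτ]
    have hB : (((Nib1_t n (Y0 n Z M0 cl) H cl).G τ).card : ℝ) ≤ 5 * u ^ 197 := by
      refine le_trans ?_ (hLab.l6 a s hs)
      rw [← cnt_mem]
      refine Nat.cast_le.2 (cnt_mono fun g hg => ?_)
      have h2 := Nib1_mem.1 hg
      rw [e1, e2] at h2
      exact ⟨h2.1, h2.2.1, h2.2.2 e3⟩
    have h2 := hkey τ _ hB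
    have h3 : (u ^ 7)⁻¹ * (5 * u ^ 197) = 5 * u ^ 190 := by
      have h4 : u ^ 197 = u ^ 7 * u ^ 190 := by rw [← pow_add]
      rw [h4]
      field_simp
    rw [h3] at h2
    have h4 : 80 * u ^ 164 ≤ u ^ 190 := by
      have h5 : u ^ 190 = u ^ 26 * u ^ 164 := by rw [← pow_add]
      rw [h5]
      refine mul_le_mul_of_nonneg_right ?_ (by positivity)
      have h6 := hpw 26 (by norm_num)
      linarith
    have h5 : (cnt (fun g : J n => g ∈ H ∧ g ∈ st n a ∧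
        (∀ y ∈ els n g, y ≠ a → s ∉ ptE n y → cl y = 1) ∧
        ∃ y ∈ els n g, y ≠ a ∧ s ∈ ptE n y ∧ y ∈ Y0 n Z M0 cl ∧ y ∉ cov (els n) M1) : ℝ) ≤
        (unc (Nib1_t n (Y0 n Z M0 cl) H cl) (Y0 n Z M0 cl \ cov (els n) M1) τ : ℝ) := by
      refine Nat.cast_le.2 (le_trans (cnt_mono fun g hg => ?_) (Nib1_unc τ))
      obtain ⟨h6, h7, h13, y, h8, h9, h10, h11, h12⟩ := hg
      rw [Nib1_mem, e1, e2, e3]
      exact ⟨⟨h6, h7, fun _ => h13⟩, y, h8, h9, h10, mem_sdiff.2 ⟨h11, h12⟩⟩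
    linarith

end Pool.Agent.Lib.CD
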