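import Pool.Agent.Lib.MP_dcb6ed_co_CD.Acc

/-!
# The probability that a hyperedge survives

`Ie x e ω = 1_[ω e] + (1 - 1_[ω e]) ∏_{y ∈ el e, y ≠ x} (1 - 1_[Hit y e])`.  The event `ω e = true`
depends on the coordinate `e` only (`P = π` as `e ∈ F`), `Hit y e` on the coordinates in
`RR W y e`, which does not contain `e`; the sets `RR W y e` of the (two) vertices `y ≠ x` are
disjoint by assumption.  So the product of the expectations is the expectation of the product
(`ew_prod`, `ew_mul`).
-/

set_option autoImplicit false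

namespace Pool.Agent.Lib.CD

open Finset

variable {E X : Type} [Fintype E] [DecidableEq E] [Fintype X] [DecidableEq X]
variable {el : E → Finset X} {F W : Finset E}

theorem ie_range (x : X) (e : E) (ω : E → Bool) : 0 ≤ Ie el F x e ω ∧ Ie el F x e ω ≤ 1 := by
  classical
  unfold Ie
  split_ifs <;> norm_num

theorem ie_dep (hFW : F ⊆ W) (x : X) (e : E) : Dep (Sup el W x e) (Ie el F x e) := by
  classical
  intro ω ω' h
  have h1 : ω e = ω' e := h e (mem_insert_self _ _)
  have h2 : ∀ y ∈ (el e).erase x, Hit el F y e ω = Hit el F y e ω' := by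
    intro y hy
    refine hit_dep hFW y e ω ω' fun i hi => h i ?_
    exact mem_insert_of_mem (mem_biUnion.2 ⟨y, hy, hi⟩)
  have h3 : (∃ y ∈ (el e).erase x, Hit el F y e ω) ↔ ∃ y ∈ (el e).erase x, Hit el F y e ω' := by
    constructor
    · rintro ⟨y, hy, h4⟩
      exact ⟨y, hy, by rw [← h2 y hy]; exact h4⟩
    · rintro ⟨y, hy, h4⟩
      exact ⟨y, hy, by rw [h2 y hy]; exact h4⟩
  unfold Ie
  rw [h1]
  by_cases h5 : ∃ y ∈ (el e).erase x, Hit el F y e ω
  · rw [if_pos h5, if_pos (h3.1 h5)]
  · rw [if_neg h5, if_neg (fun h => h5 (h3.2 h))]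

theorem ie_exp {π : ℝ} (h0 : 0 ≤ π) (h1 : π ≤ 1) (hFW : F ⊆ W) {x : X} {e : E} (he : e ∈ F)
    (hdis : ∀ y ∈ (el e).erase x, ∀ z ∈ (el e).erase x, y ≠ z →
      Disjoint (RR el W y e) (RR el W z e)) :
    EW (BW F π) (Ie el F x e) =
      π + (1 - π) * ∏ y ∈ (el e).erase x, (1 - PW (BW F π) (Hit el F y e)) := by
  classical
  have hw := bw_isW F h0 h1
  have e1 : Ie el F x e = fun ω : E → Bool => (if ω e = true then (1 : ℝ) else 0) +
      (if ω e = true then (0 : ℝ) else 1) *
        ∏ y ∈ (el e).erase x, (if ¬ Hit el F y e ω then (1 : ℝ) else 0) := by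
    funext ω
    unfold Ie
    by_cases hω : ω e = true
    · rw [if_pos hω, if_pos hω, if_pos hω]
      ring
    · rw [if_neg hω, if_neg hω, if_neg hω, zero_add, one_mul]
      by_cases h2 : ∃ y ∈ (el e).erase x, Hit el F y e ω
      · rw [if_pos h2]
        obtain ⟨y, hy, h3⟩ := h2
        exact (prod_eq_zero hy (if_neg (not_not.2 h3))).symm
      · rw [if_neg h2]
        refine (prod_eq_one fun y hy => if_pos ?_).symm
        exact fun h3 => h2 ⟨y, hy, h3⟩
  have e2 : EW (BW F π) (fun ω : E → Bool => if ω e = true then (1 : ℝ) else 0) = π := by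
    rw [ew_coord hw e (fun s : Bool => if s = true then (1 : ℝ) else 0), Fintype.sum_bool]
    unfold BW
    simp [he]
  have e3 : EW (BW F π) (fun ω : E → Bool => if ω e = true then (0 : ℝ) else 1) = 1 - π := by
    rw [ew_coord hw e (fun s : Bool => if s = true then (0 : ℝ) else 1), Fintype.sum_bool]
    unfold BW
    simp [he]
  have d1 : Dep {e} (fun ω : E → Bool => if ω e = true then (0 : ℝ) else 1) := by
    intro ω ω' h
    have h2 : ω e = ω' e := h e (mem_singleton_self e)
    simp only [h2]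
  have d2 : ∀ y ∈ (el e).erase x, Dep (RR el W y e)
      (fun ω : E → Bool => if ¬ Hit el F y e ω then (1 : ℝ) else 0) := by
    intro y _ ω ω' h
    have h2 : Hit el F y e ω = Hit el F y e ω' := hit_dep hFW y e ω ω' h
    simp only [h2]
  have d3 : Dep (((el e).erase x).biUnion fun y => RR el W y e)
      (fun ω : E → Bool => ∏ y ∈ (el e).erase x, (if ¬ Hit el F y e ω then (1 : ℝ) else 0)) := by
    intro ω ω' h
    refine prod_congr rfl fun y hy => d2 y hy ω ω' fun i hi => ?_
    exact h i (mem_biUnion.2 ⟨y, hy, hi⟩)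
  have hdj : Disjoint ({e} : Finset E) (((el e).erase x).biUnion fun y => RR el W y e) := by
    rw [disjoint_singleton_left, mem_biUnion]
    rintro ⟨y, -, hy⟩
    exact rr_notmem y e hy
  rw [e1, ew_add, e2, ew_mul hw hdj d1 d3, e3, ew_prod hw _ _ (fun y => RR el W y e) d2 hdis]
  congr 2
  refine prod_congr rfl fun y _ => ?_
  rw [← pw_not hw, Pw_eq]

end Pool.Agent.Lib.CD
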