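import Pool.Agent.Lib.MP_dcb6ed_co_CD.DefsD

/-!
# Points, elements and triples: elementary facts

`cnt P = (univ.filter P).card`.  An edge `e` of the complete graph has exactly two vertices (it is
not on the diagonal: write `e = s(v, w)`, `v ≠ w`).  So `ptE (inl e) = {inl v, inl w}`,
`ptE (inr (v, c)) = {inl v, inr c}`, `ptJ (c, s(v, w)) = {inl v, inl w, inr c}`.  All statements
follow by case distinction.  `card_st` etc. are in `Pool.Agent.Lib.FR` (`mem_st_inl`,
`mem_st_inr`, `st_card`, `st_inter`, `els_card`).  `hg_els`: a triple has exactly three elements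
(the edge and the two pairs), and two triples with two common elements have the same points.
`other_*`: if `ptJ g = {p, q, r}` and `ptE a = {p, q}`, the other two elements of `g` have the points
`{p, r}` and `{q, r}`.
-/

set_option autoImplicit false

namespace Pool.Agent.Lib.CD

open Finset
open Pool.Agent.Lib.FR (J El Edge st Cf)

section Cnt

variable {E : Type} [Fintype E] {P Q R : E → Prop}

theorem cnt_mono (h : ∀ g, P g → Q g) : cnt P ≤ cnt Q := by
  classical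
  exact Finset.card_le_card fun g hg =>
    Finset.mem_filter.2 ⟨Finset.mem_univ _, h g (Finset.mem_filter.1 hg).2⟩

theorem cnt_le_add (h : ∀ g, P g → Q g ∨ R g) : cnt P ≤ cnt Q + cnt R := by
  classical
  unfold cnt
  refine (Finset.card_le_card fun g hg => ?_).trans (Finset.card_union_le _ _)
  rw [Finset.mem_union, Finset.mem_filter, Finset.mem_filter]
  rcases h g (Finset.mem_filter.1 hg).2 with h1 | h1
  · exact Or.inl ⟨Finset.mem_univ _, h1⟩
  · exact Or.inr ⟨Finset.mem_univ _, h1⟩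

theorem cnt_congr (h : ∀ g, P g ↔ Q g) : cnt P = cnt Q := by
  exact le_antisymm (cnt_mono fun g => (h g).1) (cnt_mono fun g => (h g).2)

theorem cnt_mem (F : Finset E) : cnt (fun g => g ∈ F) = F.card := by
  classical
  unfold cnt
  congr 1
  ext g
  simp

open Classical in
theorem cnt_filter (F : Finset E) (P : E → Prop) :
    cnt (fun g => g ∈ F ∧ P g) = (F.filter P).card := by
  unfold cnt
  congr 1
  ext g
  simp

theorem cnt_exists {ι : Type} (T : Finset ι) (P : ι → E → Prop) :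
    cnt (fun g => ∃ i ∈ T, P i g) ≤ ∑ i ∈ T, cnt (P i) := by
  classical
  unfold cnt
  refine (Finset.card_le_card fun g hg => ?_).trans Finset.card_biUnion_le
  simp only [Finset.mem_filter, Finset.mem_univ, true_and] at hg
  obtain ⟨i, hi, h1⟩ := hg
  exact Finset.mem_biUnion.2 ⟨i, hi, Finset.mem_filter.2 ⟨Finset.mem_univ _, h1⟩⟩

/-- if the property `P` can be split into two properties which exclude each other -/
theorem cnt_add (h : ∀ g, P g ↔ Q g ∨ R g) (h' : ∀ g, ¬ (Q g ∧ R g)) :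
    cnt P = cnt Q + cnt R := by
  classical
  unfold cnt
  rw [← Finset.card_union_of_disjoint]
  · congr 1
    ext g
    simp [h g]
  · rw [Finset.disjoint_left]
    intro g h1 h2
    exact h' g ⟨(Finset.mem_filter.1 h1).2, (Finset.mem_filter.1 h2).2⟩

end Cnt

variable {n : ℕ} {g g' : J n} {a b y y' : El n} {p q s : Pt n}

theorem Pts_mem_J {g : J n} {p : Pt n} : p ∈ ptJ n g ↔ onJ n g p := by
  classical
  unfold ptJ
  rw [Finset.mem_filter]
  exact ⟨fun h => h.2, fun h => ⟨Finset.mem_univ _, h⟩⟩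

theorem Pts_mem_E {a : El n} {p : Pt n} : p ∈ ptE n a ↔ onE n a p := by
  classical
  unfold ptE
  rw [Finset.mem_filter]
  exact ⟨fun h => h.2, fun h => ⟨Finset.mem_univ _, h⟩⟩

theorem Pts_J (g : J n) : ∃ (c : Fin (2 * n - 1)) (v w : Fin (2 * n))
    (h : ¬ (s(v, w) : Sym2 (Fin (2 * n))).IsDiag), v ≠ w ∧ g = (c, ⟨s(v, w), h⟩) := by
  obtain ⟨c, ⟨e, he⟩⟩ := g
  induction e using Sym2.ind with
  | _ v w => exact ⟨c, v, w, he, fun h => he (Sym2.mk_isDiag_iff.2 h), rfl⟩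

theorem Pts_E (a : El n) : (∃ (v w : Fin (2 * n))
    (h : ¬ (s(v, w) : Sym2 (Fin (2 * n))).IsDiag), v ≠ w ∧ a = Sum.inl ⟨s(v, w), h⟩) ∨
    ∃ (v : Fin (2 * n)) (c : Fin (2 * n - 1)), a = Sum.inr (v, c) := by
  rcases a with ⟨e, he⟩ | ⟨v, c⟩
  · left
    induction e using Sym2.ind with
    | _ v w => exact ⟨v, w, he, fun h => he (Sym2.mk_isDiag_iff.2 h), rfl⟩
  · exact Or.inr ⟨v, c, rfl⟩

theorem mem_ptJ_inl {v : Fin (2 * n)} : Sum.inl v ∈ ptJ n g ↔ v ∈ g.2.1 := by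
  rw [Pts_mem_J]
  rfl

theorem mem_ptJ_inr {c : Fin (2 * n - 1)} : Sum.inr c ∈ ptJ n g ↔ g.1 = c := by
  rw [Pts_mem_J]
  rfl

theorem ptE_inr (v : Fin (2 * n)) (c : Fin (2 * n - 1)) :
    ptE n (Sum.inr (v, c)) = {Sum.inl v, Sum.inr c} := by
  ext p
  rw [Pts_mem_E, Finset.mem_insert, Finset.mem_singleton]
  rcases p with w | c'
  · simp only [onE, Sum.inl.injEq, reduceCtorEq, or_false]
    exact eq_comm
  · simp only [onE, Sum.inr.injEq, reduceCtorEq, false_or]
    exact eq_comm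

theorem ptE_inl (v w : Fin (2 * n)) (h : ¬ (s(v, w) : Sym2 (Fin (2 * n))).IsDiag) :
    ptE n (Sum.inl ⟨s(v, w), h⟩) = {Sum.inl v, Sum.inl w} := by
  ext p
  rw [Pts_mem_E, Finset.mem_insert, Finset.mem_singleton]
  rcases p with x | c'
  · simp only [onE, Sum.inl.injEq, Sym2.mem_iff]
  · simp only [onE, reduceCtorEq, or_false]

theorem ptJ_eq (c : Fin (2 * n - 1)) (v w : Fin (2 * n))
    (h : ¬ (s(v, w) : Sym2 (Fin (2 * n))).IsDiag) :
    ptJ n (c, ⟨s(v, w), h⟩) = {Sum.inl v, Sum.inl w, Sum.inr c} := by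
  ext p
  rw [Pts_mem_J, Finset.mem_insert, Finset.mem_insert, Finset.mem_singleton]
  rcases p with x | c'
  · simp only [onJ, Sum.inl.injEq, Sym2.mem_iff, reduceCtorEq, or_false]
  · simp only [onJ, Sum.inr.injEq, reduceCtorEq, false_or]
    exact eq_comm

theorem card_ptJ (g : J n) : (ptJ n g).card = 3 := by
  obtain ⟨c, v, w, h, hvw, rfl⟩ := Pts_J g
  rw [ptJ_eq, Finset.card_eq_three]
  exact ⟨_, _, _, fun h => hvw (Sum.inl.inj h), by simp, by simp, rfl⟩

theorem card_ptE (a : El n) : (ptE n a).card = 2 := by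
  rcases Pts_E a with ⟨v, w, h, hvw, rfl⟩ | ⟨v, c, rfl⟩
  · rw [ptE_inl]
    exact Finset.card_pair fun h => hvw (Sum.inl.inj h)
  · rw [ptE_inr]
    exact Finset.card_pair (by simp)

theorem mem_els : a ∈ els n g ↔ g ∈ st n a := by
  classical
  unfold els
  rw [Finset.mem_filter]
  exact ⟨fun h => h.2, fun h => ⟨Finset.mem_univ _, h⟩⟩

theorem mem_els_iff : a ∈ els n g ↔ ptE n a ⊆ ptJ n g := by
  rw [mem_els]
  rcases Pts_E a with ⟨v, w, h, hvw, rfl⟩ | ⟨v, c, rfl⟩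
  · rw [ptE_inl, Finset.insert_subset_iff, Finset.singleton_subset_iff, mem_ptJ_inl, mem_ptJ_inl,
      Sym2.mem_and_mem_iff hvw, FR.mem_st_inl]
    exact Subtype.ext_iff
  · rw [ptE_inr, Finset.insert_subset_iff, Finset.singleton_subset_iff, mem_ptJ_inl, mem_ptJ_inr,
      FR.mem_st_inr]
    exact and_comm

theorem ptE_inj (h : ptE n a = ptE n b) : a = b := by
  have h1 : ∀ p, onE n a p ↔ onE n b p := fun p => by
    rw [← Pts_mem_E, ← Pts_mem_E, h]
  rcases a with e | ⟨v, c⟩ <;> rcases b with e' | ⟨v', c'⟩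
  · congr 1
    exact Subtype.ext (Sym2.ext fun v => h1 (Sum.inl v))
  · exact absurd ((h1 (Sum.inr c')).2 rfl) id
  · exact absurd ((h1 (Sum.inr c)).1 rfl) id
  · have h2 : v' = v := (h1 (Sum.inl v)).1 rfl
    have h3 : c' = c := (h1 (Sum.inr c)).1 rfl
    rw [h2, h3]

theorem ptJ_inj (h : ptJ n g = ptJ n g') : g = g' := by
  have h1 : ∀ p, onJ n g p ↔ onJ n g' p := fun p => by
    rw [← Pts_mem_J, ← Pts_mem_J, h]
  exact Prod.ext ((h1 (Sum.inr g.1)).1 rfl).symm
    (Subtype.ext (Sym2.ext fun v => h1 (Sum.inl v)))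

/-- two points of a triple are the points of an element of the triple -/
theorem exists_el (hp : p ∈ ptJ n g) (hq : q ∈ ptJ n g) (hpq : p ≠ q) :
    ∃ a ∈ els n g, ptE n a = {p, q} := by
  rcases p with v | c <;> rcases q with w | c'
  · have hvw : v ≠ w := fun h => hpq (by rw [h])
    have h1 := (Sym2.mem_and_mem_iff hvw).1 ⟨mem_ptJ_inl.1 hp, mem_ptJ_inl.1 hq⟩
    have h2 : ¬ (s(v, w) : Sym2 (Fin (2 * n))).IsDiag := h1 ▸ g.2.2
    refine ⟨Sum.inl ⟨s(v, w), h2⟩, mem_els.2 (FR.mem_st_inl.2 (Subtype.ext h1)), ptE_inl v w h2⟩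
  · exact ⟨Sum.inr (v, c'), mem_els.2 (FR.mem_st_inr.2 ⟨mem_ptJ_inr.1 hq, mem_ptJ_inl.1 hp⟩),
      ptE_inr v c'⟩
  · exact ⟨Sum.inr (w, c), mem_els.2 (FR.mem_st_inr.2 ⟨mem_ptJ_inr.1 hp, mem_ptJ_inl.1 hq⟩),
      (ptE_inr w c).trans (Finset.pair_comm _ _)⟩
  · exact absurd (by rw [← mem_ptJ_inr.1 hp, ← mem_ptJ_inr.1 hq]) hpq

theorem hg_els (n : ℕ) : HG (els n) := by
  classical
  constructor
  · intro g
    obtain ⟨c, v, w, h, hvw, rfl⟩ := Pts_J g
    have h1 : els n ((c, ⟨s(v, w), h⟩) : J n) =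
        {Sum.inl ⟨s(v, w), h⟩, Sum.inr (v, c), Sum.inr (w, c)} := by
      ext a
      rw [mem_els, Finset.mem_insert, Finset.mem_insert, Finset.mem_singleton]
      rcases a with e | ⟨x, c'⟩
      · rw [FR.mem_st_inl]
        simp only [Sum.inl.injEq, reduceCtorEq, or_false]
        exact eq_comm
      · rw [FR.mem_st_inr]
        simp only [Sum.inr.injEq, reduceCtorEq, false_or, Prod.mk.injEq, Sym2.mem_iff]
        constructor
        · rintro ⟨h1, h2 | h2⟩
          · exact Or.inl ⟨h2, h1.symm⟩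
          · exact Or.inr ⟨h2, h1.symm⟩
        · rintro (⟨h1, h2⟩ | ⟨h1, h2⟩)
          · exact ⟨h2.symm, Or.inl h1⟩
          · exact ⟨h2.symm, Or.inr h1⟩
    rw [h1, Finset.card_eq_three]
    refine ⟨_, _, _, by simp, by simp, fun h => hvw ?_, rfl⟩
    exact congrArg Prod.fst (Sum.inr.inj h)
  · intro g g' hne
    rw [Finset.card_le_one]
    intro a ha b hb
    by_contra hab
    rw [Finset.mem_inter] at ha hb
    exact hne (FR.st_inter hab (mem_els.1 ha.1) (mem_els.1 hb.1) (mem_els.1 ha.2)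
      (mem_els.1 hb.2))

theorem cf_iff : Cf n g g' ↔ ¬ Disjoint (ptJ n g) (ptJ n g') := by
  rw [Finset.not_disjoint_iff]
  constructor
  · rintro (h | ⟨v, h1, h2⟩)
    · exact ⟨Sum.inr g.1, mem_ptJ_inr.2 rfl, mem_ptJ_inr.2 h.symm⟩
    · exact ⟨Sum.inl v, mem_ptJ_inl.2 h1, mem_ptJ_inl.2 h2⟩
  · rintro ⟨v | c, h1, h2⟩
    · exact Or.inr ⟨v, mem_ptJ_inl.1 h1, mem_ptJ_inl.1 h2⟩
    · exact Or.inl ((mem_ptJ_inr.1 h1).trans (mem_ptJ_inr.1 h2).symm)

theorem star_els (F : Finset (J n)) (a : El n) : star (els n) F a = F ∩ st n a := by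
  ext g
  unfold star
  rw [Finset.mem_filter, Finset.mem_inter, mem_els]

theorem mem_cov_els {M : Finset (J n)} : a ∈ cov (els n) M ↔ ∃ g ∈ M, g ∈ st n a := by
  unfold cov
  rw [Finset.mem_biUnion]
  exact ⟨fun ⟨g, hg, h⟩ => ⟨g, hg, mem_els.1 h⟩, fun ⟨g, hg, h⟩ => ⟨g, hg, mem_els.2 h⟩⟩

/-- two elements in common -/
theorem eq_of_two (hab : a ≠ b) (h1 : a ∈ els n g) (h2 : b ∈ els n g) (h3 : a ∈ els n g')
    (h4 : b ∈ els n g') : g = g' := by
  exact FR.st_inter hab (mem_els.1 h1) (mem_els.1 h2) (mem_els.1 h3) (mem_els.1 h4)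

theorem third (h : a ∈ els n g) : ∃ r, r ∉ ptE n a ∧ ptJ n g = insert r (ptE n a) := by
  classical
  have h1 := mem_els_iff.1 h
  have h2 : (ptJ n g \ ptE n a).card = 1 := by
    rw [Finset.card_sdiff_of_subset h1, card_ptJ, card_ptE]
  obtain ⟨r, hr⟩ := Finset.card_eq_one.1 h2
  have h3 : r ∈ ptJ n g \ ptE n a := by
    rw [hr]
    exact Finset.mem_singleton_self r
  refine ⟨r, (Finset.mem_sdiff.1 h3).2, ?_⟩
  rw [← Finset.sdiff_union_of_subset h1, hr]
  rfl

theorem other_exists (h : a ∈ els n g) (hs : s ∈ ptE n a) :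
    ∃ y ∈ els n g, y ≠ a ∧ s ∈ ptE n y := by
  obtain ⟨r, hr, h1⟩ := third h
  have hsr : s ≠ r := fun h2 => hr (h2 ▸ hs)
  obtain ⟨y, hy, h2⟩ := exists_el (g := g) (p := s) (q := r)
    (by rw [h1]; exact Finset.mem_insert_of_mem hs)
    (by rw [h1]; exact Finset.mem_insert_self _ _) hsr
  refine ⟨y, hy, ?_, by rw [h2]; exact Finset.mem_insert_self _ _⟩
  rintro rfl
  exact hr (by rw [h2]; exact Finset.mem_insert_of_mem (Finset.mem_singleton_self _))

theorem Pts_other {r : Pt n} (h1 : ptJ n g = insert r (ptE n a)) (hsr : s ≠ r)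
    (hy : y ∈ els n g) (hya : y ≠ a) (hys : s ∈ ptE n y) : ptE n y = {s, r} := by
  classical
  have h2 := mem_els_iff.1 hy
  have hr : r ∈ ptE n y := by
    by_contra hr
    have h3 : ptE n y ⊆ ptE n a := by
      intro p hp
      have h4 := h2 hp
      rw [h1, Finset.mem_insert] at h4
      rcases h4 with h4 | h4
      · exact absurd (h4 ▸ hp) hr
      · exact h4
    exact hya (ptE_inj (Finset.eq_of_subset_of_card_le h3 (by rw [card_ptE, card_ptE])))
  symm
  refine Finset.eq_of_subset_of_card_le ?_ (by rw [card_ptE, Finset.card_pair hsr])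
  intro p hp
  rcases Finset.mem_insert.1 hp with h3 | h3
  · exact h3 ▸ hys
  · exact (Finset.mem_singleton.1 h3) ▸ hr

theorem other_unique (ha : a ∈ els n g) (hs : s ∈ ptE n a) (hy : y ∈ els n g) (hya : y ≠ a)
    (hys : s ∈ ptE n y) (hy' : y' ∈ els n g) (hya' : y' ≠ a) (hys' : s ∈ ptE n y') : y = y' := by
  obtain ⟨r, hr, h1⟩ := third ha
  have hsr : s ≠ r := fun h2 => hr (h2 ▸ hs)
  exact ptE_inj ((Pts_other h1 hsr hy hya hys).trans (Pts_other h1 hsr hy' hya' hys').symm)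

theorem other_pt (ha : a ∈ els n g) (hy : y ∈ els n g) (hya : y ≠ a) :
    ∃ s ∈ ptE n a, s ∈ ptE n y := by
  classical
  have h1 : (ptE n a ∪ ptE n y).card ≤ 3 := by
    rw [← card_ptJ g]
    exact Finset.card_le_card (Finset.union_subset (mem_els_iff.1 ha) (mem_els_iff.1 hy))
  have h2 := Finset.card_union_add_card_inter (ptE n a) (ptE n y)
  rw [card_ptE, card_ptE] at h2
  have h3 : 0 < (ptE n a ∩ ptE n y).card := by omega
  obtain ⟨s, hs⟩ := Finset.card_pos.1 h3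
  exact ⟨s, (Finset.mem_inter.1 hs).1, (Finset.mem_inter.1 hs).2⟩

/-- at least one of the points of an element is a vertex -/
theorem ptE_left (a : El n) : ∃ p ∈ ptE n a, p.isLeft = true := by
  rcases Pts_E a with ⟨v, w, h, hvw, rfl⟩ | ⟨v, c, rfl⟩
  · exact ⟨Sum.inl v, by rw [ptE_inl]; exact Finset.mem_insert_self _ _, rfl⟩
  · exact ⟨Sum.inl v, by rw [ptE_inr]; exact Finset.mem_insert_self _ _, rfl⟩

theorem exists_ptE (hpq : p ≠ q) (h : p.isLeft = true ∨ q.isLeft = true) :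
    ∃ a : El n, ptE n a = {p, q} := by
  rcases p with v | c <;> rcases q with w | c'
  · have hvw : v ≠ w := fun h => hpq (by rw [h])
    have h2 : ¬ (s(v, w) : Sym2 (Fin (2 * n))).IsDiag := fun h => hvw (Sym2.mk_isDiag_iff.1 h)
    exact ⟨Sum.inl ⟨s(v, w), h2⟩, ptE_inl v w h2⟩
  · exact ⟨Sum.inr (v, c'), ptE_inr v c'⟩
  · exact ⟨Sum.inr (w, c), (ptE_inr w c).trans (Finset.pair_comm _ _)⟩
  · exact absurd h (by simp)

theorem ptJ_left (g : J n) : ((ptJ n g).filter (fun p => p.isLeft = true)).card = 2 := by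
  obtain ⟨c, v, w, h, hvw, rfl⟩ := Pts_J g
  have h1 : (ptJ n ((c, ⟨s(v, w), h⟩) : J n)).filter (fun p => p.isLeft = true) =
      {Sum.inl v, Sum.inl w} := by
    rw [ptJ_eq]
    ext p
    rcases p with x | c' <;> simp
  rw [h1]
  exact Finset.card_pair fun h => hvw (Sum.inl.inj h)

theorem ptJ_right (g : J n) : ((ptJ n g).filter (fun p => p.isRight = true)).card = 1 := by
  obtain ⟨c, v, w, h, hvw, rfl⟩ := Pts_J g
  have h1 : (ptJ n ((c, ⟨s(v, w), h⟩) : J n)).filter (fun p => p.isRight = true) =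
      {Sum.inr c} := by
    rw [ptJ_eq]
    ext p
    rcases p with x | c' <;> simp
  rw [h1, Finset.card_singleton]

theorem exists_ptJ {v w : Fin (2 * n)} (hvw : v ≠ w) (c : Fin (2 * n - 1)) :
    ∃ g : J n, ptJ n g = {Sum.inl v, Sum.inl w, Sum.inr c} := by
  have h2 : ¬ (s(v, w) : Sym2 (Fin (2 * n))).IsDiag := fun h => hvw (Sym2.mk_isDiag_iff.1 h)
  exact ⟨(c, ⟨s(v, w), h2⟩), ptJ_eq c v w h2⟩

end Pool.Agent.Lib.CD
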