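import Pool.Agent.Lib.MP_dcb6ed_co_CD.Defs

/-!
# Finite product probability spaces

Elementary facts on `EW` and `PW`.  Everything is a finite sum.  `ew_mul`: split the index set into
`V` and its complement (`F` depends on `V`, `G` on the complement because `V'` is disjoint from
`V`); the sum over all `ω : I → S` is the double sum over the restrictions
(`Equiv.piEquivPiSubtypeProd`), and the weight is a product.  `ew_prod` follows by induction on `T`.
The file `Pool/Agent/Lib/MP_6d56f7_co_FR/Api.lean` contains similar proofs for equal weights.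
-/

set_option autoImplicit false

namespace Pool.Agent.Lib.CD

open Finset

variable {I S : Type} [Fintype I] [DecidableEq I] [Fintype S] [DecidableEq S]

/-- expectation of a product of functions of the coordinates -/
theorem Pw_prod (w : I → S → ℝ) (φ : I → S → ℝ) :
    EW w (fun ω : I → S => ∏ i, φ i (ω i)) = ∏ i, ∑ s, w i s * φ i s := by
  unfold EW
  rw [Finset.prod_univ_sum, Fintype.piFinset_univ]
  exact Finset.sum_congr rfl (fun ω _ => by rw [Finset.prod_mul_distrib])

/-- exchange the coordinates outside `V` -/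
def Pw_swap (V : Finset I) (p : (I → S) × (I → S)) : (I → S) × (I → S) :=
  (fun i => if i ∈ V then p.1 i else p.2 i, fun i => if i ∈ V then p.2 i else p.1 i)

theorem Pw_eq (w : I → S → ℝ) (A : (I → S) → Prop) [DecidablePred A] :
    PW w A = EW w (fun ω => if A ω then 1 else 0) := by
  unfold PW EW
  refine Finset.sum_congr rfl fun ω _ => ?_
  congr 1
  by_cases h : A ω
  · simp only [if_pos h]
  · simp only [if_neg h]

theorem ew_const {w : I → S → ℝ} (hw : IsW w) (r : ℝ) : EW w (fun _ => r) = r := by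
  have h : ∑ ω : I → S, (∏ i, w i (ω i)) = 1 := by
    have h1 := Finset.prod_univ_sum (fun _ : I => (Finset.univ : Finset S)) (fun i s => w i s)
    rw [Fintype.piFinset_univ] at h1
    rw [← h1]
    exact Finset.prod_eq_one fun i _ => hw.one i
  rw [EW, ← Finset.sum_mul, h, one_mul]

theorem ew_mono {w : I → S → ℝ} (hw : IsW w) {F G : (I → S) → ℝ} (h : ∀ ω, F ω ≤ G ω) :
    EW w F ≤ EW w G := by
  exact Finset.sum_le_sum fun ω _ =>
    mul_le_mul_of_nonneg_left (h ω) (Finset.prod_nonneg fun i _ => hw.nonneg i _)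

/-- only points of positive weight matter -/
theorem ew_mono' {w : I → S → ℝ} (hw : IsW w) {F G : (I → S) → ℝ}
    (h : ∀ ω, (∀ i, 0 < w i (ω i)) → F ω ≤ G ω) : EW w F ≤ EW w G := by
  refine Finset.sum_le_sum fun ω _ => ?_
  by_cases hω : ∀ i, 0 < w i (ω i)
  · exact mul_le_mul_of_nonneg_left (h ω hω) (Finset.prod_nonneg fun i _ => hw.nonneg i _)
  · push Not at hω
    obtain ⟨i, hi⟩ := hω
    have h0 : w i (ω i) = 0 := le_antisymm hi (hw.nonneg i _)
    have h1 : ∏ i, w i (ω i) = 0 := Finset.prod_eq_zero (Finset.mem_univ i) h0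
    rw [h1, zero_mul, zero_mul]

theorem ew_add (w : I → S → ℝ) (F G : (I → S) → ℝ) :
    EW w (fun ω => F ω + G ω) = EW w F + EW w G := by
  simp only [EW, mul_add, Finset.sum_add_distrib]

theorem ew_smul (w : I → S → ℝ) (r : ℝ) (F : (I → S) → ℝ) :
    EW w (fun ω => r * F ω) = r * EW w F := by
  simp only [EW, Finset.mul_sum]
  exact Finset.sum_congr rfl fun ω _ => by ring

theorem ew_sum {κ : Type} (w : I → S → ℝ) (T : Finset κ) (F : κ → (I → S) → ℝ) :
    EW w (fun ω => ∑ k ∈ T, F k ω) = ∑ k ∈ T, EW w (F k) := by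
  simp only [EW, Finset.mul_sum]
  exact Finset.sum_comm

/-- a function of one coordinate -/
theorem ew_coord {w : I → S → ℝ} (hw : IsW w) (i : I) (f : S → ℝ) :
    EW w (fun ω => f (ω i)) = ∑ s, w i s * f s := by
  have h := Pw_prod w (fun j a => if j = i then f a else 1)
  rw [Finset.prod_eq_single i] at h
  · simp only [Finset.prod_ite_eq', Finset.mem_univ, if_true] at h
    exact h
  · intro j _ hj
    simp [hj, hw.one]
  · intro h
    exact absurd (Finset.mem_univ _) h

/-- functions of disjoint sets of coordinates are independent -/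
theorem ew_mul {w : I → S → ℝ} (hw : IsW w) {V V' : Finset I} (hV : Disjoint V V')
    {F G : (I → S) → ℝ} (hF : Dep V F) (hG : Dep V' G) :
    EW w (fun ω => F ω * G ω) = EW w F * EW w G := by
  have hinv : Function.Involutive (Pw_swap (S := S) V) := by
    rintro ⟨a, b⟩
    refine Prod.ext (funext fun i => ?_) (funext fun i => ?_)
    · by_cases hi : i ∈ V <;> simp [Pw_swap, hi]
    · by_cases hi : i ∈ V <;> simp [Pw_swap, hi]
  have h1 : EW w F * EW w G = ∑ p : (I → S) × (I → S),
      ((∏ i, w i (p.1 i)) * ∏ i, w i (p.2 i)) * (F p.1 * G p.2) := by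
    rw [EW, EW, Finset.sum_mul_sum, ← Finset.univ_product_univ, Finset.sum_product]
    refine Finset.sum_congr rfl fun a _ => Finset.sum_congr rfl fun b _ => ?_
    ring
  have h2 : EW w (fun ω => F ω * G ω) = ∑ p : (I → S) × (I → S),
      ((∏ i, w i (p.1 i)) * ∏ i, w i (p.2 i)) * (F p.1 * G p.1) := by
    have h3 : EW w (fun ω => F ω * G ω) = EW w (fun ω => F ω * G ω) * EW w (fun _ => 1) := by
      rw [ew_const hw, mul_one]
    rw [h3, EW, EW, Finset.sum_mul_sum, ← Finset.univ_product_univ, Finset.sum_product]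
    refine Finset.sum_congr rfl fun a _ => Finset.sum_congr rfl fun b _ => ?_
    ring
  rw [h1, h2, ← Equiv.sum_comp hinv.toPerm]
  refine Finset.sum_congr rfl fun p _ => ?_
  have h4 : (∏ i, w i ((Pw_swap V p).1 i)) * ∏ i, w i ((Pw_swap V p).2 i) =
      (∏ i, w i (p.1 i)) * ∏ i, w i (p.2 i) := by
    rw [← Finset.prod_mul_distrib, ← Finset.prod_mul_distrib]
    refine Finset.prod_congr rfl fun i _ => ?_
    by_cases hi : i ∈ V
    · simp [Pw_swap, hi]
    · simp [Pw_swap, hi, mul_comm]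
  have h5 : F (Pw_swap V p).1 = F p.1 := hF _ _ fun i hi => by simp [Pw_swap, hi]
  have h6 : G (Pw_swap V p).1 = G p.2 := hG _ _ fun i hi => by
    have hi' : i ∉ V := Finset.disjoint_right.1 hV hi
    simp [Pw_swap, hi']
  rw [Function.Involutive.coe_toPerm, h4, h5, h6]

theorem ew_prod {κ : Type} [DecidableEq κ] {w : I → S → ℝ} (hw : IsW w) (T : Finset κ)
    (F : κ → (I → S) → ℝ) (V : κ → Finset I) (hd : ∀ k ∈ T, Dep (V k) (F k))
    (hV : ∀ k ∈ T, ∀ l ∈ T, k ≠ l → Disjoint (V k) (V l)) :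
    EW w (fun ω => ∏ k ∈ T, F k ω) = ∏ k ∈ T, EW w (F k) := by
  induction T using Finset.induction_on with
  | empty => simp only [Finset.prod_empty]; exact ew_const hw 1
  | insert a T ha ih =>
    have hD : Dep (T.biUnion V) (fun ω : I → S => ∏ k ∈ T, F k ω) := by
      intro ω ω' h
      refine Finset.prod_congr rfl fun k hk => hd k (Finset.mem_insert_of_mem hk) _ _ fun i hi => ?_
      exact h i (Finset.mem_biUnion.2 ⟨k, hk, hi⟩)
    have hdis : Disjoint (V a) (T.biUnion V) := by
      rw [Finset.disjoint_biUnion_right]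
      intro k hk
      exact hV a (Finset.mem_insert_self _ _) k (Finset.mem_insert_of_mem hk)
        (fun h => ha (h ▸ hk))
    have h1 := ew_mul hw hdis (hd a (Finset.mem_insert_self _ _)) hD
    rw [Finset.prod_insert ha, ← ih (fun k hk => hd k (Finset.mem_insert_of_mem hk))
      (fun k hk l hl => hV k (Finset.mem_insert_of_mem hk) l (Finset.mem_insert_of_mem hl)), ← h1]
    congr 1
    funext ω
    rw [Finset.prod_insert ha]

theorem pw_nonneg {w : I → S → ℝ} (hw : IsW w) (A : (I → S) → Prop) : 0 ≤ PW w A := by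
  classical
  rw [Pw_eq]
  refine Finset.sum_nonneg fun ω _ =>
    mul_nonneg (Finset.prod_nonneg fun i _ => hw.nonneg i _) ?_
  dsimp only
  split_ifs <;> norm_num

theorem pw_le_one {w : I → S → ℝ} (hw : IsW w) (A : (I → S) → Prop) : PW w A ≤ 1 := by
  classical
  rw [Pw_eq]
  refine le_trans (ew_mono hw (G := fun _ => 1) fun ω => ?_) (ew_const hw 1).le
  split_ifs <;> norm_num

theorem pw_mono {w : I → S → ℝ} (hw : IsW w) {A B : (I → S) → Prop} (h : ∀ ω, A ω → B ω) :
    PW w A ≤ PW w B := by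
  classical
  rw [Pw_eq, Pw_eq]
  refine ew_mono hw fun ω => ?_
  by_cases hA : A ω
  · rw [if_pos hA, if_pos (h ω hA)]
  · rw [if_neg hA]
    split_ifs <;> norm_num

theorem pw_or {w : I → S → ℝ} (hw : IsW w) (A B : (I → S) → Prop) :
    PW w (fun ω => A ω ∨ B ω) ≤ PW w A + PW w B := by
  classical
  rw [Pw_eq, Pw_eq w A, Pw_eq w B, ← ew_add]
  refine ew_mono hw fun ω => ?_
  by_cases hA : A ω <;> by_cases hB : B ω <;> simp [hA, hB]

theorem pw_ex {κ : Type} {w : I → S → ℝ} (hw : IsW w) (T : Finset κ) (A : κ → (I → S) → Prop) :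
    PW w (fun ω => ∃ k ∈ T, A k ω) ≤ ∑ k ∈ T, PW w (A k) := by
  classical
  simp only [Pw_eq w (A _), ← ew_sum]
  rw [Pw_eq]
  refine ew_mono hw fun ω => ?_
  by_cases hA : ∃ k ∈ T, A k ω
  · rw [if_pos hA]
    obtain ⟨k, hk, hs⟩ := hA
    calc (1 : ℝ) = if A k ω then 1 else 0 := by rw [if_pos hs]
      _ ≤ _ := Finset.single_le_sum (f := fun k => if A k ω then (1 : ℝ) else 0)
          (fun k _ => by split_ifs <;> norm_num) hk
  · rw [if_neg hA]
    exact Finset.sum_nonneg fun k _ => by split_ifs <;> norm_num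

theorem pw_ex_eq {κ : Type} {w : I → S → ℝ} (T : Finset κ) (A : κ → (I → S) → Prop)
    (hd : ∀ k ∈ T, ∀ l ∈ T, k ≠ l → ∀ ω, ¬ (A k ω ∧ A l ω)) :
    PW w (fun ω => ∃ k ∈ T, A k ω) = ∑ k ∈ T, PW w (A k) := by
  classical
  simp only [Pw_eq w (A _), ← ew_sum]
  rw [Pw_eq]
  congr 1
  funext ω
  by_cases hA : ∃ k ∈ T, A k ω
  · rw [if_pos hA]
    obtain ⟨k, hk, hs⟩ := hA
    rw [Finset.sum_eq_single k, if_pos hs]
    · intro l hl hlk
      rw [if_neg fun h => hd l hl k hk hlk ω ⟨h, hs⟩]
    · intro h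
      exact absurd hk h
  · rw [if_neg hA]
    refine (Finset.sum_eq_zero fun k hk => ?_).symm
    rw [if_neg fun h => hA ⟨k, hk, h⟩]

theorem pw_not {w : I → S → ℝ} (hw : IsW w) (A : (I → S) → Prop) :
    PW w (fun ω => ¬ A ω) = 1 - PW w A := by
  classical
  have h : PW w (fun ω => ¬ A ω) + PW w A = 1 := by
    rw [Pw_eq, Pw_eq w A, ← ew_add]
    refine Eq.trans ?_ (ew_const hw 1)
    congr 1
    funext ω
    by_cases hA : A ω <;> simp [hA]
  linarith

theorem pw_false (w : I → S → ℝ) : PW w (fun _ => False) = 0 := by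
  classical
  rw [Pw_eq]
  simp [EW]

/-- `1_A` times `1_B` -/
theorem pw_and {w : I → S → ℝ} (hw : IsW w) {V V' : Finset I} (hV : Disjoint V V')
    {A B : (I → S) → Prop} (hA : Dep V A) (hB : Dep V' B) :
    PW w (fun ω => A ω ∧ B ω) = PW w A * PW w B := by
  classical
  rw [Pw_eq, Pw_eq w A, Pw_eq w B, ← ew_mul hw hV]
  · congr 1
    funext ω
    by_cases hA : A ω <;> by_cases hB : B ω <;> simp [hA, hB]
  · intro ω ω' h
    have := hA ω ω' h
    simp only [this]
  · intro ω ω' h
    have := hB ω ω' h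
    simp only [this]

/-- probability that all coordinates in `T` have prescribed properties -/
theorem pw_all {w : I → S → ℝ} (hw : IsW w) (T : Finset I) (P : I → S → Prop)
    [∀ i s, Decidable (P i s)] :
    PW w (fun ω => ∀ i ∈ T, P i (ω i)) = ∏ i ∈ T, ∑ s, if P i s then w i s else 0 := by
  classical
  have h := Pw_prod w (fun j a => if j ∈ T then (if P j a then (1 : ℝ) else 0) else 1)
  have h1 : ∀ ω : I → S, (∏ i, if i ∈ T then (if P i (ω i) then (1 : ℝ) else 0) else 1) =
      if ∀ i ∈ T, P i (ω i) then 1 else 0 := by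
    intro ω
    by_cases hA : ∀ i ∈ T, P i (ω i)
    · rw [if_pos hA]
      refine Finset.prod_eq_one fun i _ => ?_
      by_cases hi : i ∈ T
      · rw [if_pos hi, if_pos (hA i hi)]
      · rw [if_neg hi]
    · rw [if_neg hA]
      push Not at hA
      obtain ⟨i, hi, hP⟩ := hA
      refine Finset.prod_eq_zero (Finset.mem_univ i) ?_
      rw [if_pos hi, if_neg hP]
  rw [Pw_eq]
  simp only [h1] at h
  rw [h]
  rw [← Finset.prod_subset (Finset.subset_univ T)]
  · refine Finset.prod_congr rfl fun i hi => Finset.sum_congr rfl fun s _ => ?_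
    rw [if_pos hi]
    split_ifs <;> simp
  · intro i _ hi
    simp [hi, hw.one]

theorem markov {w : I → S → ℝ} (hw : IsW w) {A : (I → S) → Prop} {F : (I → S) → ℝ}
    (h0 : ∀ ω, 0 ≤ F ω) (h : ∀ ω, A ω → 1 ≤ F ω) : PW w A ≤ EW w F := by
  classical
  rw [Pw_eq]
  refine ew_mono hw fun ω => ?_
  by_cases hA : A ω
  · rw [if_pos hA]
    exact h ω hA
  · rw [if_neg hA]
    exact h0 ω

theorem pw_pos {w : I → S → ℝ} (hw : IsW w) {A : (I → S) → Prop} (h : 0 < PW w A) :
    ∃ ω, (∀ i, 0 < w i (ω i)) ∧ A ω := by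
  classical
  by_contra hc
  push Not at hc
  have h1 : PW w A ≤ EW w (fun _ => 0) := by
    rw [Pw_eq]
    refine ew_mono' hw fun ω hω => ?_
    rw [if_neg (hc ω hω)]
  rw [ew_const hw] at h1
  exact absurd h (not_lt.2 h1)

theorem dep_mono {T : Type} {V V' : Finset I} (h : V ⊆ V') {F : (I → S) → T} (hF : Dep V F) :
    Dep V' F := by
  exact fun ω ω' h' => hF ω ω' fun i hi => h' i (h hi)

end Pool.Agent.Lib.CD
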