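import Pool.Agent.Lib.MP_dcb6ed_co_CD.PtsW

/-!
# The nibble hypergraph is regular

`ρ = u ^ (-3)`, `η₀ = u ^ (-36)`, `d = u ^ 200`, `t = u ^ 102`, `Δ₀ = (1 - α) (1 - 2 ρ) d ≥ d / 2`.
Every `a ∈ Y0` is not covered by `M0`, hence not bad, and as `W0 ⊆ H ⊆ W1`,
`|H ∩ stz a 0| = (1 ± η₀) (1 - α) d`, `|H ∩ stz a 1| = (1 ± η₀) α d`.

Case `wE a = 0`.  A triple `g ∈ F0` through `a` is in `stz a 0` (`wJ g = 0`) and has `co g = true`, or it
is in `stz a 1` (`wJ g = 1`), and then its elements `y ≠ a` have `wE y = 1` (`w_one`) and `cl y = 0`.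
So the degree is at most (by `l1`, `l1'`)
`tau (1 + η₀) (1 - α) d + (1 - 2 ρ)² (1 + η₀) α d + 2 t = (1 + η₀) Δ₀ + 2 t`, because
`tau (1 - α) + (1 - 2 ρ)² α = (1 - 2 ρ) (1 - α)`.  Conversely, a triple of one of these two kinds is
in `F0` unless one of its elements `y ≠ a` is covered by `M0`; there are at most `10 u ^ 152` such
triples (`M0OK.loss`).  So the degree is at least `(1 - η₀) Δ₀ - 2 t - 10 u ^ 152`.

Case `wE a = 1`, `cl a = 0`.  A triple `g ∈ F0` through `a` has no element with `wE = 2`, so `wJ g = 1`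
(`w_two`, `w_three`), `g ∈ stz a 0`, and its element `y ≠ a` with `wE y = 1` has `cl y = 0`.
Conversely such a triple is in `F0` unless one of its elements `y ≠ a` is covered by `M0`.  By `l3` the
degree is between `(1 - 2 ρ) (1 - η₀) (1 - α) d - t - 10 u ^ 152` and
`(1 - 2 ρ) (1 + η₀) (1 - α) d + t`.

`2 t + 10 u ^ 152 ≤ 12 u ^ 152 ≤ η₀ Δ₀`.
-/

set_option autoImplicit false

namespace Pool.Agent.Lib.CD

open Finset Filter
open Pool.Agent.Lib.FR (J El Edge st Cf)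

theorem Reg0_num {u α : ℝ} (hu : 10 ≤ u) (h0 : 0 ≤ α) (h1 : α ≤ 1 / u) :
    0 ≤ 1 - 2 * (u ^ 3)⁻¹ ∧ 0 ≤ tau u α ∧ 0 ≤ 1 - α ∧
    tau u α * (1 - α) + (1 - 2 * (u ^ 3)⁻¹) ^ 2 * α = (1 - α) * (1 - 2 * (u ^ 3)⁻¹) ∧
    2 * u ^ 102 + 10 * u ^ 152 ≤
      (u ^ 36)⁻¹ * ((1 - α) * (1 - 2 * (u ^ 3)⁻¹) * u ^ 200) := by
  have hu0 : 0 < u := by linarith
  have hα : α ≤ 1 / 10 := by
    refine h1.trans ?_
    exact one_div_le_one_div_of_le (by norm_num) hu
  have hρ0 : 0 < (u ^ 3)⁻¹ := by positivity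
  have hρ1 : (u ^ 3)⁻¹ ≤ 1 / 10 := by
    have h2 : (10 : ℝ) ≤ u ^ 3 := by
      have h3 : u ^ 1 ≤ u ^ 3 := pow_le_pow_right₀ (by linarith) (by norm_num)
      linarith
    have h4 := inv_anti₀ (by norm_num : (0 : ℝ) < 10) h2
    linarith
  obtain ⟨ρ, hρ⟩ : ∃ ρ, ρ = (u ^ 3)⁻¹ := ⟨_, rfl⟩
  unfold tau
  rw [← hρ] at hρ0 hρ1 ⊢
  have hA : 0 < 1 - α := by linarith
  have hB : 0 < 1 - 2 * ρ := by linarith
  have hC : 0 ≤ 1 - α * (1 - 2 * ρ) / (1 - α) := by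
    have h2 : α * (1 - 2 * ρ) / (1 - α) ≤ 1 := by
      rw [div_le_one hA]
      nlinarith
    linarith
  refine ⟨hB.le, mul_nonneg hB.le hC, hA.le, ?_, ?_⟩
  · field_simp
    ring
  · have h2 : u ^ 102 ≤ u ^ 152 := pow_le_pow_right₀ (by linarith) (by norm_num)
    have h3 : (u ^ 36)⁻¹ * ((1 - α) * (1 - 2 * ρ) * u ^ 200) =
        (1 - α) * (1 - 2 * ρ) * (u ^ 12 * u ^ 152) := by
      field_simp
    rw [h3]
    have h4 : 1 / 2 ≤ (1 - α) * (1 - 2 * ρ) := by nlinarith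
    have h5 : (24 : ℝ) ≤ u ^ 12 := by
      have h6 : u ^ 2 ≤ u ^ 12 := pow_le_pow_right₀ (by linarith) (by norm_num)
      nlinarith
    have h7 : (0 : ℝ) < u ^ 152 := by positivity
    have h8 : 24 * u ^ 152 ≤ u ^ 12 * u ^ 152 := mul_le_mul_of_nonneg_right h5 h7.le
    have h9 : 1 / 2 * (u ^ 12 * u ^ 152) ≤ (1 - α) * (1 - 2 * ρ) * (u ^ 12 * u ^ 152) :=
      mul_le_mul_of_nonneg_right h4 (by positivity)
    linarith

theorem Reg0_mem_Y0 {n : ℕ} {Z : Finset (Pt n)} {M0 : Finset (J n)} {cl : El n → Fin 3}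
    {a : El n} : a ∈ Y0 n Z M0 cl ↔ a ∉ cov (els n) M0 ∧
    (wE n Z a = 0 ∨ (wE n Z a = 1 ∧ cl a = 0)) := by
  classical
  unfold Y0
  rw [mem_filter]
  exact ⟨fun h => h.2, fun h => ⟨mem_univ _, h⟩⟩

theorem Reg0_mem_F0 {n : ℕ} {Z : Finset (Pt n)} {M0 H : Finset (J n)} {cl : El n → Fin 3}
    {co : J n → Bool} {g : J n} : g ∈ F0 n Z M0 H cl co ↔ g ∈ H ∧ els n g ⊆ Y0 n Z M0 cl ∧
    (wJ n Z g = 0 → co g = true) := by
  classical
  unfold F0
  rw [mem_filter]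

theorem Reg0_star {n : ℕ} (F : Finset (J n)) (a : El n) :
    (star (els n) F a).card = cnt (fun g : J n => g ∈ F ∧ a ∈ els n g) := by
  unfold cnt star
  congr 1
  ext g
  simp only [mem_filter, mem_univ, true_and]

/-- the element with `wE = 0` in a triple with `wJ = 1` -/
theorem Reg0_w_one {n : ℕ} {Z : Finset (Pt n)} {g : J n} {a y : El n} (h : wJ n Z g = 1)
    (ha : a ∈ els n g) (ha0 : wE n Z a = 0) (hy : y ∈ els n g) (hya : y ≠ a) :
    wE n Z y = 1 := by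
  obtain ⟨x, hx, hx0, hx1⟩ := w_one h
  have hxa : x = a := by
    by_contra h2
    have h3 := hx1 a ha (fun h4 => h2 h4.symm)
    omega
  exact hx1 y hy (hxa ▸ hya)

theorem reg0 : ∀ᶠ u : ℝ in atTop, ∀ (n : ℕ) (α : ℝ), 0 ≤ α → α ≤ 1 / u →
    ∀ (Z : Finset (Pt n)) (W0 W1 H : Finset (J n)), W0 ⊆ H → H ⊆ W1 →
    ∀ (cl : El n → Fin 3) (pre : El n → Bool) (co : J n → Bool), LabOK n u α Z W1 H cl pre co →
    ∀ M0, M0OK n u α Z W0 W1 H M0 →
      Reg (els n) (F0 n Z M0 H cl co) (Y0 n Z M0 cl) ((1 - α) * (1 - 2 * (u ^ 3)⁻¹) * u ^ 200)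
        (2 * (u ^ 36)⁻¹) := by
  filter_upwards [eventually_ge_atTop (10 : ℝ)] with u hu
  intro n α h0 h1 Z W0 W1 H hW0 hW1 cl pre co hL M0 hM
  obtain ⟨hB, ht, hA, hid, hnum⟩ := Reg0_num hu h0 h1
  have hu0 : 0 < u := by linarith
  have hη0 : 0 < (u ^ 36)⁻¹ := by positivity
  have hd0 : 0 < u ^ 200 := by positivity
  have h152 : 0 < u ^ 152 := by positivity
  have h102 : 0 < u ^ 102 := by positivity
  -- the degree bounds
  have key : ∀ a, a ∈ Y0 n Z M0 cl →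
      (1 - 2 * (u ^ 36)⁻¹) * ((1 - α) * (1 - 2 * (u ^ 3)⁻¹) * u ^ 200) ≤
        ((star (els n) (F0 n Z M0 H cl co) a).card : ℝ) ∧
      ((star (els n) (F0 n Z M0 H cl co) a).card : ℝ) ≤
        (1 + 2 * (u ^ 36)⁻¹) * ((1 - α) * (1 - 2 * (u ^ 3)⁻¹) * u ^ 200) := by
    intro a ha
    obtain ⟨hac, haw⟩ := Reg0_mem_Y0.1 ha
    have hnb : ¬ BadT n u α Z W0 W1 a := fun h => hac (hM.bad a h)
    unfold BadT at hnb
    push Not at hnb
    obtain ⟨b1, b2, b3, b4⟩ := hnb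
    have c0 : ((W0 ∩ stz n Z a 0).card : ℝ) ≤ ((H ∩ stz n Z a 0).card : ℝ) := by
      exact_mod_cast card_le_card (inter_subset_inter_right hW0)
    have c1 : ((H ∩ stz n Z a 0).card : ℝ) ≤ ((W1 ∩ stz n Z a 0).card : ℝ) := by
      exact_mod_cast card_le_card (inter_subset_inter_right hW1)
    have c2 : ((W0 ∩ stz n Z a 1).card : ℝ) ≤ ((H ∩ stz n Z a 1).card : ℝ) := by
      exact_mod_cast card_le_card (inter_subset_inter_right hW0)
    have c3 : ((H ∩ stz n Z a 1).card : ℝ) ≤ ((W1 ∩ stz n Z a 1).card : ℝ) := by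
      exact_mod_cast card_le_card (inter_subset_inter_right hW1)
    have hloss := hM.loss a hac
    obtain ⟨L, hLdef⟩ : ∃ L : J n → Prop, L = fun g : J n => g ∈ W1 ∧ g ∈ st n a ∧
      ∃ y ∈ els n g, y ≠ a ∧ y ∈ cov (els n) M0 := ⟨_, rfl⟩
    rw [← hLdef] at hloss
    have hunc : ∀ g : J n, g ∈ H → a ∈ els n g → ¬ L g → ∀ y ∈ els n g,
        y ∉ cov (els n) M0 := by
      intro g hg hag hn y hy hyc
      by_cases hya : y = a
      · exact hac (hya ▸ hyc)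
      · apply hn
        rw [hLdef]
        exact ⟨hW1 hg, mem_els.1 hag, y, hy, hya, hyc⟩
    rw [Reg0_star]
    generalize hP : (fun g : J n => g ∈ F0 n Z M0 H cl co ∧ a ∈ els n g) = P
    generalize hh0 : ((H ∩ stz n Z a 0).card : ℝ) = s0 at c0 c1
    generalize hh1 : ((H ∩ stz n Z a 1).card : ℝ) = s1 at c2 c3
    rcases haw with hw | ⟨hw, hcl⟩
    · obtain ⟨A, hAd⟩ : ∃ A : J n → Prop, A = fun g : J n => g ∈ H ∧ g ∈ stz n Z a 0 ∧
        co g = true := ⟨_, rfl⟩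
      obtain ⟨B, hBd⟩ : ∃ B : J n → Prop, B = fun g : J n => g ∈ H ∧ g ∈ stz n Z a 1 ∧
        ∀ y ∈ els n g, y ≠ a → cl y = 0 := ⟨_, rfl⟩
      have l1 := hL.l1 a hw
      have l2 := hL.l1' a hw
      rw [← hAd, hh0] at l1
      rw [← hBd, hh1] at l2
      have k1 : cnt P ≤ cnt A + cnt B := by
        refine cnt_le_add fun g hg => ?_
        rw [← hP] at hg
        obtain ⟨hgF, hag⟩ := hg
        obtain ⟨hgH, hgY, hgc⟩ := Reg0_mem_F0.1 hgF
        rcases wJ_cases (Z := Z) hag with h2 | h2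
        · left
          rw [hAd]
          exact ⟨hgH, mem_stz.2 ⟨hag, by omega⟩, hgc (by omega)⟩
        · right
          rw [hBd]
          refine ⟨hgH, mem_stz.2 ⟨hag, by omega⟩, fun y hy hya => ?_⟩
          have h3 := Reg0_w_one (by omega) hag hw hy hya
          rcases (Reg0_mem_Y0.1 (hgY hy)).2 with h4 | h4
          · omega
          · exact h4.2
      have k2 : cnt A + cnt B ≤ cnt P + cnt L := by
        have k3 : cnt (fun g => A g ∨ B g) = cnt A + cnt B := by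
          refine cnt_add (fun g => Iff.rfl) (fun g hg => ?_)
          rw [hAd, hBd] at hg
          have h2 := (mem_stz.1 hg.1.2.1).2
          have h3 := (mem_stz.1 hg.2.2.1).2
          omega
        rw [← k3]
        refine cnt_le_add fun g hg => ?_
        by_cases hLg : L g
        · exact Or.inr hLg
        · left
          rw [← hP]
          rcases hg with hg | hg
          · rw [hAd] at hg
            obtain ⟨hgH, hgs, hgc⟩ := hg
            obtain ⟨hag, hgw⟩ := mem_stz.1 hgs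
            refine ⟨Reg0_mem_F0.2 ⟨hgH, fun y hy => ?_, fun _ => hgc⟩, hag⟩
            exact Reg0_mem_Y0.2 ⟨hunc g hgH hag hLg y hy,
              Or.inl (w_zero (by omega) y hy)⟩
          · rw [hBd] at hg
            obtain ⟨hgH, hgs, hgc⟩ := hg
            obtain ⟨hag, hgw⟩ := mem_stz.1 hgs
            refine ⟨Reg0_mem_F0.2 ⟨hgH, fun y hy => ?_, fun h => ?_⟩, hag⟩
            · refine Reg0_mem_Y0.2 ⟨hunc g hgH hag hLg y hy, ?_⟩
              by_cases hya : y = a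
              · rw [hya]
                exact Or.inl hw
              · exact Or.inr ⟨Reg0_w_one (by omega) hag hw hy hya, hgc y hy hya⟩
            · omega
      have k1' : (cnt P : ℝ) ≤ cnt A + cnt B := by exact_mod_cast k1
      have k2' : (cnt A : ℝ) + cnt B ≤ cnt P + cnt L := by exact_mod_cast k2
      obtain ⟨l1a, l1b⟩ := abs_le.1 l1
      obtain ⟨l2a, l2b⟩ := abs_le.1 l2
      have u0 : tau u α * s0 ≤ tau u α * ((1 + (u ^ 36)⁻¹) * ((1 - α) * u ^ 200)) :=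
        mul_le_mul_of_nonneg_left (c1.trans b2) ht
      have u1 : (1 - 2 * (u ^ 3)⁻¹) ^ 2 * s1 ≤
          (1 - 2 * (u ^ 3)⁻¹) ^ 2 * ((1 + (u ^ 36)⁻¹) * (α * u ^ 200)) :=
        mul_le_mul_of_nonneg_left (c3.trans b4) (sq_nonneg _)
      have v0 : tau u α * ((1 - (u ^ 36)⁻¹) * ((1 - α) * u ^ 200)) ≤ tau u α * s0 :=
        mul_le_mul_of_nonneg_left (b1.trans c0) ht
      have v1 : (1 - 2 * (u ^ 3)⁻¹) ^ 2 * ((1 - (u ^ 36)⁻¹) * (α * u ^ 200)) ≤
          (1 - 2 * (u ^ 3)⁻¹) ^ 2 * s1 :=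
        mul_le_mul_of_nonneg_left (b3.trans c2) (sq_nonneg _)
      have e1 : tau u α * ((1 + (u ^ 36)⁻¹) * ((1 - α) * u ^ 200)) +
          (1 - 2 * (u ^ 3)⁻¹) ^ 2 * ((1 + (u ^ 36)⁻¹) * (α * u ^ 200)) =
          (1 + (u ^ 36)⁻¹) * ((1 - α) * (1 - 2 * (u ^ 3)⁻¹) * u ^ 200) := by
        rw [← hid]
        ring
      have e2 : tau u α * ((1 - (u ^ 36)⁻¹) * ((1 - α) * u ^ 200)) +
          (1 - 2 * (u ^ 3)⁻¹) ^ 2 * ((1 - (u ^ 36)⁻¹) * (α * u ^ 200)) =
          (1 - (u ^ 36)⁻¹) * ((1 - α) * (1 - 2 * (u ^ 3)⁻¹) * u ^ 200) := by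
        rw [← hid]
        ring
      constructor
      · linarith
      · linarith
    · obtain ⟨C, hCd⟩ : ∃ C : J n → Prop, C = fun g : J n => g ∈ H ∧ g ∈ stz n Z a 0 ∧
        ∀ y ∈ els n g, y ≠ a → wE n Z y = 1 → cl y = 0 := ⟨_, rfl⟩
      have l3 := hL.l3 a hw
      rw [← hCd, hh0] at l3
      have k1 : cnt P ≤ cnt C := by
        refine cnt_mono fun g hg => ?_
        rw [← hP] at hg
        obtain ⟨hgF, hag⟩ := hg
        obtain ⟨hgH, hgY, hgc⟩ := Reg0_mem_F0.1 hgF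
        rw [hCd]
        have h3 : wJ n Z g = wE n Z a := by
          rcases wJ_cases (Z := Z) hag with h2 | h2
          · exact h2
          · exfalso
            obtain ⟨r, hr, hr2, -⟩ := w_two (Z := Z) (g := g) (by omega)
            rcases (Reg0_mem_Y0.1 (hgY hr)).2 with h4 | h4 <;> omega
        refine ⟨hgH, mem_stz.2 ⟨hag, by omega⟩, fun y hy hya hy1 => ?_⟩
        rcases (Reg0_mem_Y0.1 (hgY hy)).2 with h4 | h4
        · omega
        · exact h4.2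
      have k2 : cnt C ≤ cnt P + cnt L := by
        refine cnt_le_add fun g hg => ?_
        by_cases hLg : L g
        · exact Or.inr hLg
        · left
          rw [← hP]
          rw [hCd] at hg
          obtain ⟨hgH, hgs, hgc⟩ := hg
          obtain ⟨hag, hgw⟩ := mem_stz.1 hgs
          obtain ⟨x, hx, hx0, hx1⟩ := w_one (Z := Z) (g := g) (by omega)
          refine ⟨Reg0_mem_F0.2 ⟨hgH, fun y hy => ?_, fun h => ?_⟩, hag⟩
          · refine Reg0_mem_Y0.2 ⟨hunc g hgH hag hLg y hy, ?_⟩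
            by_cases hyx : y = x
            · rw [hyx]
              exact Or.inl hx0
            · right
              refine ⟨hx1 y hy hyx, ?_⟩
              by_cases hya : y = a
              · rw [hya]
                exact hcl
              · exact hgc y hy hya (hx1 y hy hyx)
          · omega
      have k1' : (cnt P : ℝ) ≤ cnt C := by exact_mod_cast k1
      have k2' : (cnt C : ℝ) ≤ cnt P + cnt L := by exact_mod_cast k2
      obtain ⟨l3a, l3b⟩ := abs_le.1 l3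
      have u0 : (1 - 2 * (u ^ 3)⁻¹) * s0 ≤
          (1 - 2 * (u ^ 3)⁻¹) * ((1 + (u ^ 36)⁻¹) * ((1 - α) * u ^ 200)) :=
        mul_le_mul_of_nonneg_left (c1.trans b2) hB
      have v0 : (1 - 2 * (u ^ 3)⁻¹) * ((1 - (u ^ 36)⁻¹) * ((1 - α) * u ^ 200)) ≤
          (1 - 2 * (u ^ 3)⁻¹) * s0 :=
        mul_le_mul_of_nonneg_left (b1.trans c0) hB
      have e1 : (1 - 2 * (u ^ 3)⁻¹) * ((1 + (u ^ 36)⁻¹) * ((1 - α) * u ^ 200)) =
          (1 + (u ^ 36)⁻¹) * ((1 - α) * (1 - 2 * (u ^ 3)⁻¹) * u ^ 200) := by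
        ring
      have e2 : (1 - 2 * (u ^ 3)⁻¹) * ((1 - (u ^ 36)⁻¹) * ((1 - α) * u ^ 200)) =
          (1 - (u ^ 36)⁻¹) * ((1 - α) * (1 - 2 * (u ^ 3)⁻¹) * u ^ 200) := by
        ring
      constructor
      · linarith
      · linarith
  refine ⟨fun g hg => (Reg0_mem_F0.1 hg).2.1, fun a ha => (key a ha).1,
    fun a ha => (key a ha).2⟩

end Pool.Agent.Lib.CD
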