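import Pool.Agent.Lib.MP_dcb6ed_co_CD.DefsE
import Pool.Agent.Lib.MP_6d56f7_co_FR.DefsT

/-!
# Random subsets as mixtures of initial segments of uniform orderings

`rev`: fix `t ≤ m`.  For a set `S` with `|S| = t` the number `c_t` of the `σ` with `{j : σ j < t} = S` does not
depend on `S` (if `|S'| = t`, a permutation `π` of `J` with `π (S) = S'` gives the bijection
`σ ↦ σ ∘ π⁻¹`), and every `σ` belongs to exactly one such `S`; so `c_t C(m, t) = m!`, the number of
all `σ` (`Nat.card (J ≃ Fin m)`).  Hence, if `N_t` is the number of the `S` with `|S| = t` and `Q S`,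
then `N_t c_t` is the number of the `σ` with `Q {j : σ j < t}`, at most `share · m!`, i.e.
`N_t ≤ share · C(m, t)`.  The left side is
`∑_t N_t p^t (1 - p)^(m - t) ≤ share · ∑_t C(m, t) p^t (1 - p)^(m - t) = share`.

`listProb_sum`: the bijection `L ↦ {(c, e) : c ∈ L e}`; the product of the weights is
`p^|S| (1 - p)^(m - |S|)`, `m = |J n|`.
-/

set_option autoImplicit false

namespace Pool.Agent.Lib.CD

open Finset
open Pool.Agent.Lib.FR (J El Edge st Cf listProb)

private def Rev_I {J : Type} [Fintype J] {m : ℕ} (σ : J ≃ Fin m) (t : ℕ) : Finset J :=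
  univ.filter (fun j => (σ j : ℕ) < t)

private theorem Rev_mem {J : Type} [Fintype J] {m : ℕ} {σ : J ≃ Fin m} {t : ℕ} {j : J} :
    j ∈ Rev_I σ t ↔ (σ j : ℕ) < t := by
  unfold Rev_I
  rw [mem_filter]
  exact ⟨fun h => h.2, fun h => ⟨mem_univ _, h⟩⟩

private theorem Rev_card {J : Type} [Fintype J] {m : ℕ} (σ : J ≃ Fin m) {t : ℕ} (ht : t ≤ m) :
    (Rev_I σ t).card = t := by
  classical
  have h1 : (Rev_I σ t).card = (range t).card := by
    refine card_bij (fun j _ => (σ j : ℕ)) ?_ ?_ ?_
    · intro j hj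
      exact mem_range.2 (Rev_mem.1 hj)
    · intro j _ j' _ h
      exact σ.injective (Fin.ext h)
    · intro k hk
      have hk' := mem_range.1 hk
      refine ⟨σ.symm ⟨k, by omega⟩, ?_, ?_⟩
      · rw [Rev_mem, Equiv.apply_symm_apply]
        exact hk'
      · rw [Equiv.apply_symm_apply]
  rw [h1, card_range]

private theorem Rev_fib {J : Type} [Fintype J] [DecidableEq J] {m : ℕ} {S S' : Finset J}
    (h : S.card = S'.card) (t : ℕ) :
    (univ.filter (fun σ : J ≃ Fin m => Rev_I σ t = S)).card =
      (univ.filter (fun σ : J ≃ Fin m => Rev_I σ t = S')).card := by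
  classical
  have e : {x // x ∈ S} ≃ {x // x ∈ S'} := Finset.equivOfCardEq h
  obtain ⟨π, hπ⟩ : ∃ π : Equiv.Perm J, ∀ x, π x ∈ S' ↔ x ∈ S := by
    refine ⟨e.extendSubtype, fun x => ⟨fun hx => ?_, fun hx => ?_⟩⟩
    · by_contra hcon
      exact e.extendSubtype_not_mem x hcon hx
    · exact e.extendSubtype_mem x hx
  refine card_bij' (fun σ _ => π.symm.trans σ) (fun σ _ => π.trans σ) ?_ ?_ ?_ ?_
  · intro σ hσ
    rw [mem_filter] at hσ ⊢
    refine ⟨mem_univ _, ?_⟩
    ext j
    rw [Rev_mem]
    change ((σ (π.symm j) : Fin m) : ℕ) < t ↔ _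
    rw [← Rev_mem, hσ.2, ← hπ, Equiv.apply_symm_apply]
  · intro σ hσ
    rw [mem_filter] at hσ ⊢
    refine ⟨mem_univ _, ?_⟩
    ext j
    rw [Rev_mem]
    change ((σ (π j) : Fin m) : ℕ) < t ↔ _
    rw [← Rev_mem, hσ.2, hπ]
  · intro σ _
    ext j
    simp
  · intro σ _
    ext j
    simp

open Classical in
private theorem Rev_count {J : Type} [Fintype J] [DecidableEq J] {m : ℕ}
    (hm : Fintype.card J = m) {t : ℕ} (ht : t ≤ m) (Q : Finset J → Prop) :
    (univ.filter (fun S : Finset J => S.card = t ∧ Q S)).card * Fintype.card (J ≃ Fin m) =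
      m.choose t * (univ.filter (fun σ : J ≃ Fin m => Q (Rev_I σ t))).card := by
  obtain ⟨S0, -, hS0⟩ := exists_subset_card_eq (s := (univ : Finset J)) (n := t)
    (by rw [card_univ, hm]; exact ht)
  have key : ∀ P : Finset J → Prop, (univ.filter (fun σ : J ≃ Fin m => P (Rev_I σ t))).card =
      (univ.filter (fun S : Finset J => S.card = t ∧ P S)).card *
        (univ.filter (fun σ : J ≃ Fin m => Rev_I σ t = S0)).card := by
    intro P
    rw [card_eq_sum_card_fiberwise (f := fun σ : J ≃ Fin m => Rev_I σ t)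
      (t := univ.filter (fun S : Finset J => S.card = t ∧ P S))]
    · rw [sum_const_nat]
      intro S hS
      have hS' := (mem_filter.1 hS).2
      rw [← Rev_fib (m := m) (hS'.1.trans hS0.symm) t]
      congr 1
      ext σ
      simp only [mem_filter, mem_univ, true_and]
      constructor
      · exact fun h => h.2
      · intro h
        refine ⟨?_, h⟩
        rw [h]
        exact hS'.2
    · intro σ hσ
      have hσ' : P (Rev_I σ t) := (mem_filter.1 (mem_coe.1 hσ)).2
      exact mem_coe.2 (mem_filter.2 ⟨mem_univ _, Rev_card σ ht, hσ'⟩)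
  have h1 := key Q
  have h2 := key (fun _ => True)
  have h3 : (univ.filter (fun σ : J ≃ Fin m => True)).card = Fintype.card (J ≃ Fin m) := by
    rw [filter_true_of_mem (fun _ _ => trivial), card_univ]
  have h4 : (univ.filter (fun S : Finset J => S.card = t ∧ True)).card = m.choose t := by
    have h5 : univ.filter (fun S : Finset J => S.card = t ∧ True) =
        powersetCard t (univ : Finset J) := by
      ext S
      rw [mem_filter, mem_powersetCard]
      exact ⟨fun h => ⟨subset_univ _, h.2.1⟩, fun h => ⟨mem_univ _, h.2, trivial⟩⟩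
    rw [h5, card_powersetCard, card_univ, hm]
  have h6 : Fintype.card (J ≃ Fin m) = m.choose t *
      (univ.filter (fun σ : J ≃ Fin m => Rev_I σ t = S0)).card := by
    refine (h3.symm.trans ?_).trans (h2.trans ?_)
    · congr
    · rw [← h4]
      congr
  rw [h1, h6]
  ring

open Classical in
theorem rev {J : Type} [Fintype J] [DecidableEq J] {m : ℕ} (hm : Fintype.card J = m) {p : ℝ}
    (h0 : 0 ≤ p) (h1 : p ≤ 1) (Q : Finset J → Prop) :
    ∑ S : Finset J, (if Q S then p ^ S.card * (1 - p) ^ (m - S.card) else 0) ≤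
      (Set.ncard {σ : J ≃ Fin m | ∃ t : ℕ, Q (univ.filter (fun j => (σ j : ℕ) < t))} : ℝ) /
        (Nat.card (J ≃ Fin m) : ℝ) := by
  have hne : Nonempty (J ≃ Fin m) := ⟨Fintype.equivFinOfCardEq hm⟩
  have hM : (0 : ℝ) < (Nat.card (J ≃ Fin m) : ℝ) := by
    rw [Nat.card_eq_fintype_card]
    exact_mod_cast Fintype.card_pos
  set a : ℝ := (Set.ncard {σ : J ≃ Fin m |
    ∃ t : ℕ, Q (univ.filter (fun j => (σ j : ℕ) < t))} : ℝ) with ha
  have hq : 0 ≤ 1 - p := by linarith
  have hN : ∀ t ∈ range (m + 1),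
      ((univ.filter (fun S : Finset J => S.card = t ∧ Q S)).card : ℝ) ≤
        (m.choose t : ℝ) * (a / (Nat.card (J ≃ Fin m) : ℝ)) := by
    intro t ht
    have ht' : t ≤ m := by
      have := mem_range.1 ht
      omega
    have e1 := Rev_count hm ht' Q
    have e2 : ((univ.filter (fun σ : J ≃ Fin m => Q (Rev_I σ t))).card : ℝ) ≤ a := by
      rw [ha, ← Set.ncard_coe_finset]
      have e3 : Set.ncard (↑(univ.filter (fun σ : J ≃ Fin m => Q (Rev_I σ t))) :
          Set (J ≃ Fin m)) ≤ Set.ncard {σ : J ≃ Fin m |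
            ∃ t : ℕ, Q (univ.filter (fun j => (σ j : ℕ) < t))} := by
        refine Set.ncard_le_ncard ?_ (Set.toFinite _)
        intro σ hσ
        refine ⟨t, ?_⟩
        have e4 : Q (Rev_I σ t) := (mem_filter.1 (mem_coe.1 hσ)).2
        exact e4
      exact_mod_cast e3
    rw [← mul_div_assoc, le_div_iff₀ hM, Nat.card_eq_fintype_card]
    have e5 : ((univ.filter (fun S : Finset J => S.card = t ∧ Q S)).card : ℝ) *
        (Fintype.card (J ≃ Fin m) : ℝ) =
        (m.choose t : ℝ) * ((univ.filter (fun σ : J ≃ Fin m => Q (Rev_I σ t))).card : ℝ) := by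
      exact_mod_cast e1
    rw [e5]
    exact mul_le_mul_of_nonneg_left e2 (Nat.cast_nonneg _)
  have hmap : ∀ S ∈ (univ : Finset (Finset J)), S.card ∈ range (m + 1) := by
    intro S _
    rw [mem_range]
    have := card_le_univ S
    omega
  rw [← sum_fiberwise_of_maps_to hmap]
  have hterm : ∀ t ∈ range (m + 1), ∑ S ∈ (univ : Finset (Finset J)) with S.card = t,
      (if Q S then p ^ S.card * (1 - p) ^ (m - S.card) else 0) ≤
      (p ^ t * (1 - p) ^ (m - t) * (m.choose t : ℝ)) * (a / (Nat.card (J ≃ Fin m) : ℝ)) := by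
    intro t ht
    rw [← sum_filter, filter_filter]
    have e1 : ∑ S ∈ (univ : Finset (Finset J)) with S.card = t ∧ Q S,
        p ^ S.card * (1 - p) ^ (m - S.card) =
        ∑ S ∈ (univ : Finset (Finset J)) with S.card = t ∧ Q S, p ^ t * (1 - p) ^ (m - t) := by
      refine sum_congr rfl fun S hS => ?_
      rw [(mem_filter.1 hS).2.1]
    rw [e1, sum_const, nsmul_eq_mul]
    have e2 := mul_le_mul_of_nonneg_right (hN t ht)
      (mul_nonneg (pow_nonneg h0 t) (pow_nonneg hq (m - t)))
    refine e2.trans (le_of_eq ?_)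
    ring
  refine (sum_le_sum hterm).trans ?_
  rw [← sum_mul, ← add_pow]
  rw [show p + (1 - p) = 1 by ring, one_pow, one_mul]

open Classical in
theorem listProb_sum (n : ℕ) (p : ℝ)
    (Q : (Edge (Fin (2 * n)) → Finset (Fin (2 * n - 1))) → Prop) :
    listProb n p Q = ∑ S : Finset (J n),
      if Q (fun e => univ.filter (fun c => (c, e) ∈ S)) then
        p ^ S.card * (1 - p) ^ (Nat.card (J n) - S.card) else 0 := by
  unfold listProb
  symm
  refine Fintype.sum_equiv
    { toFun := fun S e => univ.filter (fun c => (c, e) ∈ S)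
      invFun := fun L => univ.filter (fun g => g.1 ∈ L g.2)
      left_inv := ?_
      right_inv := ?_ } _ _ ?_
  · intro S
    ext g
    simp
  · intro L
    funext e
    ext c
    simp
  · intro S
    simp only [Equiv.coe_fn_mk]
    split_ifs with h
    · have e1 : ∏ e : Edge (Fin (2 * n)), ∏ c : Fin (2 * n - 1),
          (if c ∈ univ.filter (fun c => (c, e) ∈ S) then p else 1 - p) =
          ∏ g : J n, (if g ∈ S then p else 1 - p) := by
        rw [Fintype.prod_prod_type_right]
        simp
      rw [e1, prod_ite, prod_const, prod_const]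
      congr 2
      · rw [filter_mem_eq_inter, univ_inter]
      · rw [Nat.card_eq_fintype_card]
        have e2 := card_compl S
        rw [← e2]
        congr 1
        ext g
        simp
    · rfl

end Pool.Agent.Lib.CD
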