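import Pool.Agent.Lib.MP_dcb6ed_co_CD.Defs

/-!
# The deterministic part of one round

`mof_isM`: two accepted hyperedges which meet would forbid each other.
`surv_iff`: let `e ∈ F`, `x ∈ el e`, `x` not covered by `M = Mof F ω`.  Claim: `el e` is disjoint
from `cov M` iff `Ie x e ω = 1` (otherwise `Ie = 0`).
If `ω e = true`: no hyperedge which meets `e` is accepted, and `e` is not accepted as `x` is not
covered; so `el e` is disjoint from `cov M`, and `Ie = 1`.
If `ω e = false`: a vertex `y ∈ el e`, `y ≠ x`, is covered iff some `f ∈ F`, `y ∈ el f`, is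
accepted; then `f ≠ e`, and `Acc f` is the same as the event in `Hit y e` (the additional
condition of `Acc`, `ω e = false` if `e` meets `f`, holds).  So `y` is covered iff `Hit y e`.
`deg_eq`: sum `surv_iff` over `e ∈ star F x`.
`cov_iff_hit`: for `g ∉ F` the restriction `≠ g` in `Hit z g` is void, so `z` is covered iff
`Hit z g`.
-/

set_option autoImplicit false

namespace Pool.Agent.Lib.CD

open Finset

variable {E X : Type} [Fintype E] [DecidableEq E] [Fintype X] [DecidableEq X]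
variable {el : E → Finset X} {F : Finset E}

omit [Fintype E] [Fintype X] in
private theorem RoundD_mem {ω : E → Bool} {f : E} : f ∈ Mof el F ω ↔ f ∈ F ∧ Acc el F ω f := by
  classical
  unfold Mof
  rw [mem_filter]

omit [Fintype E] [Fintype X] in
private theorem RoundD_cov {ω : E → Bool} {z : X} :
    z ∈ cov el (Mof el F ω) ↔ ∃ f ∈ F, Acc el F ω f ∧ z ∈ el f := by
  unfold cov
  rw [mem_biUnion]
  constructor
  · rintro ⟨f, hf, hz⟩
    exact ⟨f, (RoundD_mem.1 hf).1, (RoundD_mem.1 hf).2, hz⟩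
  · rintro ⟨f, hf, ha, hz⟩
    exact ⟨f, RoundD_mem.2 ⟨hf, ha⟩, hz⟩

theorem mof_sub (ω : E → Bool) : Mof el F ω ⊆ F := fun _ hf => (RoundD_mem.1 hf).1

theorem mof_isM (ω : E → Bool) : IsM el (Mof el F ω) := by
  intro e he f hf hef
  by_contra hd
  have h1 := (RoundD_mem.1 he).2.2 f (RoundD_mem.1 hf).1 ⟨hef.symm, hd⟩
  rw [(RoundD_mem.1 hf).2.1] at h1
  exact Bool.noConfusion h1

omit [Fintype E] [Fintype X] in
private theorem RoundD_disj (ω : E → Bool) {x : X} (hx : x ∉ cov el (Mof el F ω)) {e : E}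
    (he : e ∈ F) (hxe : x ∈ el e) (hω : ω e = true) : Disjoint (el e) (cov el (Mof el F ω)) := by
  rw [Finset.disjoint_left]
  intro y hy hyc
  obtain ⟨f, hf, ha, hyf⟩ := RoundD_cov.1 hyc
  by_cases hfe : f = e
  · subst hfe
    exact hx (RoundD_cov.2 ⟨f, hf, ha, hxe⟩)
  · have h1 := ha.2 e he ⟨fun h => hfe h.symm, fun h => Finset.disjoint_left.1 h hyf hy⟩
    rw [hω] at h1
    exact Bool.noConfusion h1

omit [Fintype E] [Fintype X] in
private theorem RoundD_iff (ω : E → Bool) {x : X} (hx : x ∉ cov el (Mof el F ω)) {e : E}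
    (hω : ω e = false) : (∃ y ∈ (el e).erase x, Hit el F y e ω) ↔
      ¬ Disjoint (el e) (cov el (Mof el F ω)) := by
  constructor
  · rintro ⟨y, hy, f, hf, hfe, hyf, hωf, hg⟩ hd
    have hye := (mem_erase.1 hy).2
    refine Finset.disjoint_left.1 hd hye (RoundD_cov.2 ⟨f, hf, ⟨hωf, fun g hgF hfg => ?_⟩, hyf⟩)
    by_cases hge : g = e
    · subst hge
      exact hω
    · exact hg g hgF hge hfg
  · intro hd
    rw [Finset.not_disjoint_iff] at hd
    obtain ⟨y, hye, hyc⟩ := hd
    obtain ⟨f, hf, ha, hyf⟩ := RoundD_cov.1 hyc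
    refine ⟨y, mem_erase.2 ⟨?_, hye⟩, f, hf, ?_, hyf, ha.1, fun g hgF _ hfg => ha.2 g hgF hfg⟩
    · intro h
      rw [h] at hyc
      exact hx hyc
    · intro h
      have h1 := ha.1
      rw [h, hω] at h1
      exact Bool.noConfusion h1

open Classical in
theorem surv_iff (hG : HG el) (ω : E → Bool) {x : X} (hx : x ∉ cov el (Mof el F ω)) {e : E}
    (he : e ∈ F) (hxe : x ∈ el e) :
    Ie el F x e ω = if Disjoint (el e) (cov el (Mof el F ω)) then 1 else 0 := by
  unfold Ie
  by_cases hω : ω e = true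
  · rw [if_pos hω, if_pos (RoundD_disj ω hx he hxe hω)]
  · rw [if_neg hω]
    have hω' : ω e = false := by
      simpa using hω
    have h1 := RoundD_iff ω hx hω'
    by_cases hd : Disjoint (el e) (cov el (Mof el F ω))
    · rw [if_pos hd, if_neg (fun h => h1.1 h hd)]
    · rw [if_neg hd, if_pos (h1.2 hd)]

theorem deg_eq (hG : HG el) (ω : E → Bool) {x : X} (hx : x ∉ cov el (Mof el F ω)) :
    ((star el (F.filter (fun e => Disjoint (el e) (cov el (Mof el F ω)))) x).card : ℝ) =
      ∑ e ∈ star el F x, Ie el F x e ω := by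
  classical
  have h1 : ∀ e ∈ star el F x, Ie el F x e ω =
      if Disjoint (el e) (cov el (Mof el F ω)) then (1 : ℝ) else 0 := by
    intro e he
    have h2 := mem_filter.1 he
    rw [surv_iff hG ω hx h2.1 h2.2]
  rw [sum_congr rfl h1, ← Finset.sum_filter, Finset.sum_const, nsmul_eq_mul, mul_one]
  congr 2
  unfold star
  rw [Finset.filter_comm]

theorem cov_iff_hit (ω : E → Bool) {g : E} (hg : g ∉ F) (z : X) :
    z ∈ cov el (Mof el F ω) ↔ Hit el F z g ω := by
  rw [RoundD_cov]
  constructor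
  · rintro ⟨f, hf, ha, hz⟩
    exact ⟨f, hf, fun h => hg (h ▸ hf), hz, ha.1, fun g' hg' _ h => ha.2 g' hg' h⟩
  · rintro ⟨f, hf, _, hz, hω, h⟩
    exact ⟨f, hf, ⟨hω, fun g' hg' h' => h g' hg' (fun e => hg (e ▸ hg')) h'⟩, hz⟩

end Pool.Agent.Lib.CD
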