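import Pool.Agent.Lib.MP_dcb6ed_co_CD.EvDeg
import Pool.Agent.Lib.MP_dcb6ed_co_CD.EvTest
import Pool.Agent.Lib.MP_dcb6ed_co_CD.RoundD
import Pool.Agent.Lib.MP_dcb6ed_co_CD.LLLs

/-!
# One round of the nibble

Apply `lll_deg` with `K = X ⊕ T` (or `Option`-like index): for `x ∈ Y` the event of `ev_deg`
(with the set `B` given by `TL` at `x`), for `x ∉ Y` the event `False`; for `τ` the event of
`ev_test` (with `B` from `TL` at `base τ`).  Supports: for `x` the union of `Sup W x e`,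
`e ∈ star F x`, at most `D · 9 D²` hyperedges (`sup_card`); for `τ` the union of
`RR W (sl τ g) g`, `g ∈ G τ`, at most `D · 4 D²` (`G τ ⊆ star W (base τ)` has at most `D` members).
`P = 2 exp (-ξ² Δ / 20)` resp. `exp (-ξ² Δ / 20)`.  By `sup_rev`, `rr_rev`
every coordinate is in the supports of events with total probability at most
`σ = (80 D² + 36 K D²) exp (-ξ² Δ / 20) ≤ 80 (K + 1) D² exp (-ξ² Δ / 20)`; `m = 9 D³`, and
`P + m σ ≤ 2 exp (..) + 720 (K + 1) D⁵ exp (..) ≤ 1/4` by `hnum`.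
So there is `ω` for which no event occurs; `M = Mof F ω`.  `RoundD` translates: for
`x ∈ Y \ cov M` the degree in the new hypergraph is `∑ Ie` (`deg_eq`), and for a test the number of
`g ∈ G τ` with `sl τ g ∈ Y \ cov M` is the number in `ev_test` (`cov_iff_hit`, `g ∉ F` because
`base τ ∈ el g`, `base τ ∉ Y`).
-/

set_option autoImplicit false

namespace Pool.Agent.Lib.CD

open Finset

variable {E X : Type} [Fintype E] [DecidableEq E] [Fintype X] [DecidableEq X]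

/-- the supports of the events -/
noncomputable def Round_V {T : Type} (el : E → Finset X) (W : Finset E) (t : TestF E X T) :
    X ⊕ T → Finset E :=
  Sum.elim (fun x => (star el W x).biUnion (fun e => Sup el W x e))
    (fun τ => (t.G τ).biUnion (fun g => RR el W (t.sl τ g) g))

open Classical in
/-- the events -/
noncomputable def Round_A {T : Type} (el : E → Finset X) (F : Finset E) (Y : Finset X)
    (Δ η ξ : ℝ) (D : ℕ) (t : TestF E X T) : X ⊕ T → (E → Bool) → Prop :=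
  Sum.elim (fun x ω => x ∈ Y ∧ ¬ ((1 - (1.7 * η + ξ)) * ((1 - qq0) ^ 2 * Δ) ≤
        ∑ e ∈ star el F x, Ie el F x e ω ∧
      ∑ e ∈ star el F x, Ie el F x e ω ≤ (1 + (1.7 * η + ξ)) * ((1 - qq0) ^ 2 * Δ)))
    (fun τ ω => (1 - qq0) * (1 + η / 2 + 1 / Δ) *
      (((t.G τ).filter (fun g => t.sl τ g ∈ Y)).card : ℝ) + ξ * D <
        (((t.G τ).filter (fun g => t.sl τ g ∈ Y ∧ ¬ Hit el F (t.sl τ g) g ω)).card : ℝ))

theorem Round_dep {T : Type} {el : E → Finset X} {W F : Finset E} (hFW : F ⊆ W)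
    (Y : Finset X) (Δ η ξ : ℝ) (D : ℕ) (t : TestF E X T) (k : X ⊕ T) :
    Dep (Round_V el W t k) (Round_A el F Y Δ η ξ D t k) := by
  classical
  intro ω ω' h
  rcases k with x | τ
  · have h1 : ∀ e ∈ star el F x, Ie el F x e ω = Ie el F x e ω' := by
      intro e he
      refine ie_dep hFW x e ω ω' fun i hi => h i ?_
      have he' : e ∈ star el W x := by
        unfold star at he ⊢
        rw [mem_filter] at he ⊢
        exact ⟨hFW he.1, he.2⟩
      exact mem_biUnion.2 ⟨e, he', hi⟩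
    have h2 : ∑ e ∈ star el F x, Ie el F x e ω = ∑ e ∈ star el F x, Ie el F x e ω' :=
      sum_congr rfl h1
    simp only [Round_A, Sum.elim_inl, h2]
  · have h1 : ∀ g ∈ t.G τ, (t.sl τ g ∈ Y ∧ ¬ Hit el F (t.sl τ g) g ω) ↔
        (t.sl τ g ∈ Y ∧ ¬ Hit el F (t.sl τ g) g ω') := by
      intro g hg
      have h2 : Hit el F (t.sl τ g) g ω = Hit el F (t.sl τ g) g ω' :=
        hit_dep hFW (t.sl τ g) g ω ω' fun i hi => h i (mem_biUnion.2 ⟨g, hg, hi⟩)
      rw [h2]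
    have h2 := filter_congr h1
    simp only [Round_A, Sum.elim_inr, h2]

theorem Round_card {T : Type} {el : E → Finset X} (hG : HG el) {W : Finset E} {D : ℕ}
    (hD1 : 1 ≤ D) (hD : ∀ x, (star el W x).card ≤ D) (t : TestF E X T)
    (htD : ∀ τ, (t.G τ).card ≤ D) (k : X ⊕ T) : (Round_V el W t k).card ≤ 9 * D ^ 3 := by
  rcases k with x | τ
  · have h1 := card_biUnion_le_card_mul (star el W x) (fun e => Sup el W x e) (9 * D ^ 2)
      fun e he => sup_card hG hD1 hD (mem_filter.1 he).2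
    have h2 : (star el W x).card * (9 * D ^ 2) ≤ D * (9 * D ^ 2) :=
      Nat.mul_le_mul_right _ (hD x)
    calc ((star el W x).biUnion (fun e => Sup el W x e)).card ≤ D * (9 * D ^ 2) := h1.trans h2
      _ = 9 * D ^ 3 := by ring
  · have h1 := card_biUnion_le_card_mul (t.G τ) (fun g => RR el W (t.sl τ g) g) (4 * D ^ 2)
      fun g _ => rr_card hG hD _ g
    have h2 : (t.G τ).card * (4 * D ^ 2) ≤ D * (4 * D ^ 2) :=
      Nat.mul_le_mul_right _ (htD τ)
    calc ((t.G τ).biUnion (fun g => RR el W (t.sl τ g) g)).card ≤ D * (4 * D ^ 2) :=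
          h1.trans h2
      _ = 4 * D ^ 3 := by ring
      _ ≤ 9 * D ^ 3 := Nat.mul_le_mul_right _ (by norm_num)

open Classical in
theorem Round_rev {T : Type} [Fintype T] {el : E → Finset X} (hG : HG el) {W : Finset E}
    {D : ℕ} (hD1 : 1 ≤ D) (hD : ∀ x, (star el W x).card ≤ D) {Y : Finset X} {K : ℕ}
    {t : TestF E X T} (ht : TestOK el W Y K t) {p : ℝ} (hp : 0 ≤ p) (i : E) :
    ∑ _l ∈ univ.filter (fun l : X ⊕ T => i ∈ Round_V el W t l), p ≤
      p * ((40 + 36 * (K : ℝ)) * (D : ℝ) ^ 2) := by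
  rw [sum_filter, Fintype.sum_sum_type]
  have h1 : ∑ x : X, (if i ∈ Round_V el W t (Sum.inl x) then p else 0) ≤
      p * (40 * (D : ℝ) ^ 2) := by
    rw [← sum_filter, sum_const, nsmul_eq_mul, mul_comm]
    refine mul_le_mul_of_nonneg_left ?_ hp
    have h2 : (univ.filter (fun x : X => i ∈ Round_V el W t (Sum.inl x))) =
        univ.filter (fun x => ∃ e ∈ star el W x, i ∈ Sup el W x e) := by
      apply filter_congr
      intro x _
      exact mem_biUnion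
    rw [h2]
    exact_mod_cast sup_rev hG hD1 hD i
  have h3 : ∑ τ : T, (if i ∈ Round_V el W t (Sum.inr τ) then p else 0) ≤
      p * (36 * (K : ℝ) * (D : ℝ) ^ 2) := by
    rw [← sum_filter, sum_const, nsmul_eq_mul, mul_comm]
    refine mul_le_mul_of_nonneg_left ?_ hp
    have h2 : (univ.filter (fun τ : T => i ∈ Round_V el W t (Sum.inr τ))) =
        univ.filter (fun τ => ∃ g ∈ t.G τ, i ∈ RR el W (t.sl τ g) g) := by
      apply filter_congr
      intro x _
      exact mem_biUnion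
    rw [h2]
    exact_mod_cast rr_rev hG hD ht i
  calc _ ≤ p * (40 * (D : ℝ) ^ 2) + p * (36 * (K : ℝ) * (D : ℝ) ^ 2) := add_le_add h1 h3
    _ = _ := by ring

theorem round_step {T : Type} [Fintype T] {el : E → Finset X} (hG : HG el) {W F : Finset E}
    (hTL : TL el W) {D : ℕ} (hD1 : 1 ≤ D) (hD : ∀ x, (star el W x).card ≤ D) (hFW : F ⊆ W)
    {Y : Finset X} {Δ η ξ : ℝ} (hR : Reg el F Y Δ η) (hΔ : 1000 ≤ Δ) (hΔD : Δ ≤ D)
    (h0 : 0 ≤ η) (h1 : η ≤ 1 / 10) (hξ0 : 0 ≤ ξ) (hξ : 60 ≤ ξ * Δ) {K : ℕ} {t : TestF E X T}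
    (ht : TestOK el W Y K t)
    (hnum : 3000 * ((K : ℝ) + 1) * (D : ℝ) ^ 5 * Real.exp (-(ξ ^ 2 * Δ / 20)) ≤ 1) :
    ∃ M ⊆ F, IsM el M ∧
      Reg el (F.filter (fun e => Disjoint (el e) (cov el M))) (Y \ cov el M)
        ((1 - qq0) ^ 2 * Δ) (1.7 * η + ξ) ∧
      ∀ τ, (unc t (Y \ cov el M) τ : ℝ) ≤
        (1 - qq0) * (1 + η / 2 + 1 / Δ) * (unc t Y τ : ℝ) + ξ * D := by
  classical
  have hw : IsW (BW F (1 / (4 * Δ))) := bw_isW F (by positivity) (by
    rw [div_le_one (by linarith)]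
    linarith)
  have hq : 0 < Real.exp (-(ξ ^ 2 * Δ / 20)) := Real.exp_pos _
  choose B hB hB1 hB2 using hTL
  have htG : ∀ τ, t.G τ ⊆ star el W (t.base τ) := fun τ g hg =>
    mem_filter.2 ⟨ht.sub τ hg, ht.base_mem τ g hg⟩
  have htD : ∀ τ, (t.G τ).card ≤ D := fun τ => (card_le_card (htG τ)).trans (hD _)
  have hP : ∀ k, PW (BW F (1 / (4 * Δ))) (Round_A el F Y Δ η ξ D t k) ≤
      2 * Real.exp (-(ξ ^ 2 * Δ / 20)) := by
    rintro (x | τ)
    · by_cases hx : x ∈ Y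
      · refine le_trans (pw_mono hw fun ω h => ?_)
          (ev_deg hG hR hΔ h0 h1 hFW hξ0 hξ hx (B x) (hB x) (hB1 x) (hB2 x))
        exact h.2
      · refine le_trans (pw_mono hw (B := fun _ => False) fun ω h => hx h.1) ?_
        rw [pw_false]
        positivity
    · refine le_trans (ev_test hG hR hΔ h0 h1 hFW hξ0 hξ hΔD (ht.out τ) (B (t.base τ))
        (hB _) (hB1 _) (t.G τ) (htG τ) (htD τ) (t.sl τ) fun g hg => ?_) (by linarith)
      exact mem_erase.2 ⟨ht.sl_ne τ g hg, ht.sl_mem τ g hg⟩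
  obtain ⟨ω, -, hω⟩ := lll_deg hw (Round_A el F Y Δ η ξ D t) (Round_V el W t)
    (Round_dep hFW Y Δ η ξ D t) (fun _ => 2 * Real.exp (-(ξ ^ 2 * Δ / 20)))
    (fun _ => by positivity) hP
    (2 * Real.exp (-(ξ ^ 2 * Δ / 20)) * ((40 + 36 * (K : ℝ)) * (D : ℝ) ^ 2))
    (9 * (D : ℝ) ^ 3) (by positivity) (fun i => Round_rev hG hD1 hD ht (by positivity) i)
    (fun k => by exact_mod_cast Round_card hG hD1 hD t htD k) (fun k => by
      have hD1' : (1 : ℝ) ≤ D := by exact_mod_cast hD1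
      have hD5 : (1 : ℝ) ≤ (D : ℝ) ^ 5 := one_le_pow₀ hD1'
      have hK0 : (0 : ℝ) ≤ K := Nat.cast_nonneg K
      have e1 : 2 * Real.exp (-(ξ ^ 2 * Δ / 20)) + 9 * (D : ℝ) ^ 3 *
          (2 * Real.exp (-(ξ ^ 2 * Δ / 20)) * ((40 + 36 * (K : ℝ)) * (D : ℝ) ^ 2)) =
          Real.exp (-(ξ ^ 2 * Δ / 20)) *
            (2 + (720 + 648 * (K : ℝ)) * (D : ℝ) ^ 5) := by ring
      have e2 : 2 + (720 + 648 * (K : ℝ)) * (D : ℝ) ^ 5 ≤
          750 * ((K : ℝ) + 1) * (D : ℝ) ^ 5 := by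
        nlinarith [mul_nonneg hK0 (zero_le_one.trans hD5)]
      have e3 := mul_le_mul_of_nonneg_left e2 hq.le
      rw [e1]
      linarith)
  refine ⟨Mof el F ω, mof_sub ω, mof_isM ω, ⟨?_, ?_, ?_⟩, ?_⟩
  · intro e he
    obtain ⟨he1, he2⟩ := mem_filter.1 he
    intro x hx
    exact mem_sdiff.2 ⟨hR.sub e he1 hx, disjoint_left.1 he2 hx⟩
  · intro x hx
    obtain ⟨hx1, hx2⟩ := mem_sdiff.1 hx
    rw [deg_eq hG ω hx2]
    have h2 := hω (Sum.inl x)
    by_contra h3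
    exact h2 ⟨hx1, fun h4 => h3 h4.1⟩
  · intro x hx
    obtain ⟨hx1, hx2⟩ := mem_sdiff.1 hx
    rw [deg_eq hG ω hx2]
    have h2 := hω (Sum.inl x)
    by_contra h3
    exact h2 ⟨hx1, fun h4 => h3 h4.2⟩
  · intro τ
    have h2 : (1 - qq0) * (1 + η / 2 + 1 / Δ) *
        (((t.G τ).filter (fun g => t.sl τ g ∈ Y)).card : ℝ) + ξ * D ≥
        (((t.G τ).filter (fun g => t.sl τ g ∈ Y ∧ ¬ Hit el F (t.sl τ g) g ω)).card : ℝ) :=
      not_lt.1 (hω (Sum.inr τ))
    have h3 : (t.G τ).filter (fun g => t.sl τ g ∈ Y \ cov el (Mof el F ω)) =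
        (t.G τ).filter (fun g => t.sl τ g ∈ Y ∧ ¬ Hit el F (t.sl τ g) g ω) := by
      apply filter_congr
      intro g hg
      have hgF : g ∉ F := fun hgF => ht.out τ (hR.sub g hgF (ht.base_mem τ g hg))
      rw [mem_sdiff, cov_iff_hit ω hgF]
    unfold unc
    rw [h3]
    exact h2

end Pool.Agent.Lib.CD
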