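import Pool.Agent.Lib.MP_dcb6ed_co_CD.Pair
import Pool.Agent.Lib.MP_dcb6ed_co_CD.Num

/-!
# Expectations in one round

`Reg el F Y Δ η`, activation probability `π = 1 / (4 Δ)`.  For `f ∈ F` the number
`n(f) = |{g ∈ F : Adj f g}| = ∑_{w ∈ el f} (deg w - 1)` (`nadj_card`, `el f ⊆ Y`) is between
`3 ((1 - η) Δ - 1)` and `3 ((1 + η) Δ - 1)`.
`hit_bounds`: `e ∈ F`, `y ∈ el e`.  `(star F y).erase e` has between `(1 - η) Δ - 1` and
`(1 + η) Δ` members `f`, and each of them is met by `e`, so the exponent in `hit_prob` is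
`n(f) - 1`, between `3 (1 - η) Δ - 4` and `3 (1 + η) Δ`.  Use `num_pow`, `num_hit_hi`, `num_hit_lo`.
`hit_test`: `g ∉ F`, `z ∈ Y`: now `(star F z).erase g = star F z` has at least `(1 - η) Δ` members,
the exponent is `n(f)`.
`ie_bounds`: `ie_exp`, `hit_bounds`, `num_ie` (`(el e).erase x` has two elements).
-/

set_option autoImplicit false

namespace Pool.Agent.Lib.CD

open Finset

variable {E X : Type} [Fintype E] [DecidableEq E] [Fintype X] [DecidableEq X]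
variable {el : E → Finset X} {F W : Finset E} {Y : Finset X} {Δ η : ℝ}

open Classical in
theorem RoundE_n (hG : HG el) (hR : Reg el F Y Δ η) {f : E} (hf : f ∈ F) :
    3 * ((1 - η) * Δ - 1) ≤ ((F.filter (fun g => Adj el f g)).card : ℝ) ∧
      ((F.filter (fun g => Adj el f g)).card : ℝ) ≤ 3 * ((1 + η) * Δ - 1) := by
  have h1 : ((F.filter (fun g => Adj el f g)).card : ℝ) =
      ∑ w ∈ el f, (((star el F w).card : ℝ) - 1) := by
    rw [nadj_card hG hf, Nat.cast_sum]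
    refine Finset.sum_congr rfl fun w hw => ?_
    have h2 : 1 ≤ (star el F w).card :=
      Finset.card_pos.2 ⟨f, Finset.mem_filter.2 ⟨hf, hw⟩⟩
    rw [Nat.cast_sub h2, Nat.cast_one]
  rw [h1]
  constructor
  · have h3 : ∑ w ∈ el f, ((1 - η) * Δ - 1) ≤ ∑ w ∈ el f, (((star el F w).card : ℝ) - 1) :=
      Finset.sum_le_sum fun w hw => sub_le_sub_right (hR.lo w (hR.sub f hf hw)) 1
    rwa [Finset.sum_const, hG.card3, nsmul_eq_mul, Nat.cast_ofNat] at h3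
  · have h3 : ∑ w ∈ el f, (((star el F w).card : ℝ) - 1) ≤ ∑ w ∈ el f, ((1 + η) * Δ - 1) :=
      Finset.sum_le_sum fun w hw => sub_le_sub_right (hR.hi w (hR.sub f hf hw)) 1
    rwa [Finset.sum_const, hG.card3, nsmul_eq_mul, Nat.cast_ofNat] at h3

open Classical in
/-- the exponent -/
theorem RoundE_k (hG : HG el) (hR : Reg el F Y Δ η) {e f : E} {y : X} (hf : f ∈ star el F y)
    (hfe : f ≠ e) (he : e ∉ F ∨ e ∈ F ∧ y ∈ el e) :
    3 * (1 - η) * Δ - 4 ≤ ((F.filter (fun g => g ≠ e ∧ Adj el f g)).card : ℝ) ∧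
      ((F.filter (fun g => g ≠ e ∧ Adj el f g)).card : ℝ) ≤ 3 * (1 + η) * Δ := by
  obtain ⟨hfF, hfy⟩ := Finset.mem_filter.1 hf
  have h1 := RoundE_n hG hR hfF
  rcases he with he | ⟨he, hy⟩
  · have h2 : F.filter (fun g => g ≠ e ∧ Adj el f g) = F.filter (fun g => Adj el f g) := by
      refine Finset.filter_congr fun g hg => ⟨fun h => h.2, fun h => ⟨?_, h⟩⟩
      rintro rfl
      exact he hg
    rw [h2]
    constructor <;> linarith [h1.1, h1.2]
  · have h2 : F.filter (fun g => g ≠ e ∧ Adj el f g) =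
        (F.filter (fun g => Adj el f g)).erase e := by
      ext g
      simp only [Finset.mem_filter, Finset.mem_erase]
      tauto
    have h3 : e ∈ F.filter (fun g => Adj el f g) :=
      Finset.mem_filter.2 ⟨he, hfe.symm, fun hd => Finset.disjoint_left.1 hd hfy hy⟩
    have h4 : 1 ≤ (F.filter (fun g => Adj el f g)).card := Finset.card_pos.2 ⟨e, h3⟩
    rw [h2, Finset.card_erase_of_mem h3, Nat.cast_sub h4, Nat.cast_one]
    constructor <;> linarith [h1.1, h1.2]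

theorem RoundE_pi (hΔ : 1000 ≤ Δ) : 0 ≤ 1 / (4 * Δ) ∧ 1 / (4 * Δ) ≤ 1 := by
  have h : 0 < Δ := by linarith
  refine ⟨by positivity, ?_⟩
  rw [div_le_one (by positivity)]
  linarith

theorem RoundE_lo (hΔ : 1000 ≤ Δ) (h1 : η ≤ 1 / 10) :
    0 ≤ Real.exp (-(3 / 4)) * (1 - 0.8 * η - 1 / Δ) := by
  refine mul_nonneg (Real.exp_pos _).le ?_
  have h2 : 1 / Δ ≤ 1 / 1000 := one_div_le_one_div_of_le (by norm_num) hΔ
  linarith

theorem hit_bounds (hG : HG el) (hR : Reg el F Y Δ η) (hΔ : 1000 ≤ Δ) (h0 : 0 ≤ η)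
    (h1 : η ≤ 1 / 10) {e : E} (he : e ∈ F) {y : X} (hy : y ∈ el e) :
    qq0 * (1 - 2 * η - 3 / Δ) ≤ PW (BW F (1 / (4 * Δ))) (Hit el F y e) ∧
      PW (BW F (1 / (4 * Δ))) (Hit el F y e) ≤ qq0 * (1 + 2 * η + 3 / Δ) := by
  classical
  obtain ⟨p0, p1⟩ := RoundE_pi hΔ
  have hyY : y ∈ Y := hR.sub e he hy
  have hes : e ∈ star el F y := Finset.mem_filter.2 ⟨he, hy⟩
  have hc1 : 1 ≤ (star el F y).card := Finset.card_pos.2 ⟨e, hes⟩
  have hc : (((star el F y).erase e).card : ℝ) = ((star el F y).card : ℝ) - 1 := by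
    rw [Finset.card_erase_of_mem hes, Nat.cast_sub hc1, Nat.cast_one]
  have hk : ∀ f ∈ (star el F y).erase e, _ := fun f hf =>
    num_pow hΔ h0 h1 (RoundE_k hG hR (Finset.mem_erase.1 hf).2 (Finset.mem_erase.1 hf).1
      (Or.inr ⟨he, hy⟩)).1 (RoundE_k hG hR (Finset.mem_erase.1 hf).2 (Finset.mem_erase.1 hf).1
      (Or.inr ⟨he, hy⟩)).2
  rw [hit_prob p0 p1]
  constructor
  · refine (num_hit_lo hΔ h0 h1).trans ?_
    have e1 : ∑ f ∈ (star el F y).erase e,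
        (1 / (4 * Δ) * (Real.exp (-(3 / 4)) * (1 - 0.8 * η - 1 / Δ))) ≤
        ∑ f ∈ (star el F y).erase e, 1 / (4 * Δ) *
          (1 - 1 / (4 * Δ)) ^ (F.filter (fun g => g ≠ e ∧ Adj el f g)).card :=
      Finset.sum_le_sum fun f hf => mul_le_mul_of_nonneg_left (hk f hf).1 p0
    refine le_trans ?_ e1
    rw [Finset.sum_const, nsmul_eq_mul, hc]
    refine mul_le_mul_of_nonneg_right ?_ (mul_nonneg p0 (RoundE_lo hΔ h1))
    have := hR.lo y hyY
    linarith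
  · refine le_trans ?_ (num_hit_hi hΔ h0 h1)
    have e1 : ∑ f ∈ (star el F y).erase e, 1 / (4 * Δ) *
          (1 - 1 / (4 * Δ)) ^ (F.filter (fun g => g ≠ e ∧ Adj el f g)).card ≤
        ∑ f ∈ (star el F y).erase e,
        (1 / (4 * Δ) * (Real.exp (-(3 / 4)) * (1 + 0.85 * η + 2 / Δ))) :=
      Finset.sum_le_sum fun f hf => mul_le_mul_of_nonneg_left (hk f hf).2 p0
    refine e1.trans ?_
    rw [Finset.sum_const, nsmul_eq_mul, hc]
    have hΔ' : 0 < Δ := by linarith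
    refine mul_le_mul_of_nonneg_right ?_ (mul_nonneg p0 (by positivity))
    have := hR.hi y hyY
    linarith

theorem hit_test (hG : HG el) (hR : Reg el F Y Δ η) (hΔ : 1000 ≤ Δ) (h0 : 0 ≤ η)
    (h1 : η ≤ 1 / 10) {g : E} (hg : g ∉ F) {z : X} (hz : z ∈ Y) :
    qq0 * (1 - 2 * η - 3 / Δ) ≤ PW (BW F (1 / (4 * Δ))) (Hit el F z g) := by
  classical
  obtain ⟨p0, p1⟩ := RoundE_pi hΔ
  have hes : g ∉ star el F z := fun h => hg (Finset.mem_filter.1 h).1
  have hk : ∀ f ∈ (star el F z).erase g, _ := fun f hf =>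
    num_pow hΔ h0 h1 (RoundE_k hG hR (Finset.mem_erase.1 hf).2 (Finset.mem_erase.1 hf).1
      (Or.inl hg)).1 (RoundE_k hG hR (Finset.mem_erase.1 hf).2 (Finset.mem_erase.1 hf).1
      (Or.inl hg)).2
  rw [hit_prob p0 p1]
  refine (num_hit_lo hΔ h0 h1).trans ?_
  have e1 : ∑ f ∈ (star el F z).erase g,
      (1 / (4 * Δ) * (Real.exp (-(3 / 4)) * (1 - 0.8 * η - 1 / Δ))) ≤
      ∑ f ∈ (star el F z).erase g, 1 / (4 * Δ) *
        (1 - 1 / (4 * Δ)) ^ (F.filter (fun g' => g' ≠ g ∧ Adj el f g')).card :=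
    Finset.sum_le_sum fun f hf => mul_le_mul_of_nonneg_left (hk f hf).1 p0
  refine le_trans ?_ e1
  rw [Finset.sum_const, nsmul_eq_mul, Finset.erase_eq_of_notMem hes]
  refine mul_le_mul_of_nonneg_right ?_ (mul_nonneg p0 (RoundE_lo hΔ h1))
  have := hR.lo z hz
  linarith

theorem ie_bounds (hG : HG el) (hR : Reg el F Y Δ η) (hΔ : 1000 ≤ Δ) (h0 : 0 ≤ η)
    (h1 : η ≤ 1 / 10) (hFW : F ⊆ W) {e : E} (he : e ∈ F) {x : X} (hx : x ∈ el e)
    (hdis : ∀ y ∈ (el e).erase x, ∀ z ∈ (el e).erase x, y ≠ z →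
      Disjoint (RR el W y e) (RR el W z e)) :
    (1 - qq0) ^ 2 * (1 - 0.55 * η - 1.3 / Δ) ≤ EW (BW F (1 / (4 * Δ))) (Ie el F x e) ∧
      EW (BW F (1 / (4 * Δ))) (Ie el F x e) ≤ (1 - qq0) ^ 2 * (1 + 0.55 * η + 1.3 / Δ) := by
  obtain ⟨p0, p1⟩ := RoundE_pi hΔ
  have hcard : ((el e).erase x).card = 2 := by
    rw [Finset.card_erase_of_mem hx, hG.card3]
  obtain ⟨a, b, hab, hs⟩ := Finset.card_eq_two.1 hcard
  have ha : a ∈ el e := Finset.mem_of_mem_erase (hs ▸ Finset.mem_insert_self a {b})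
  have hb : b ∈ el e := Finset.mem_of_mem_erase
    (hs ▸ Finset.mem_insert_of_mem (Finset.mem_singleton_self b))
  have h2 := hit_bounds hG hR hΔ h0 h1 he ha
  have h3 := hit_bounds hG hR hΔ h0 h1 he hb
  rw [ie_exp p0 p1 hFW he hdis, hs, Finset.prod_pair hab]
  exact num_ie hΔ h0 h1 h2.1 h2.2 h3.1 h3.2

end Pool.Agent.Lib.CD
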