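import Pool.Agent.Lib.MP_dcb6ed_co_CD.Count

/-!
# The sets of uncovered elements are empty or large

`gf_at`: let `P ∉ Z`, `z ∈ UP P`, `x` the element with `ptE x = {P, z}`; it is not covered, `wE x = 1`.
For `g ∈ Gf ∩ st x`: `wJ_two_at` gives `t ∈ Z` with `ptJ g = {P, z, t}`; the element `{P, t}` of
`g` is not covered by `M` (`g ∈ Gf`), so `t ∈ UP P`.

`size_vertex`: `P = inl v`, `A`, `C` the parts of `UP P`; `|A| = |C|` by `up_vertex`, and both are
nonempty if `UP P` is.  Suppose `|A| ≤ n / (512 u^4)`.  For every `z ∈ A` there are at least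
`u^196 / 4` triples `g = {P, z, t} ∈ Gf ⊆ W1`, `t ∈ UP P`, `t` is a colour (`ptJ_right`,
`ptJ_left`), so `t ∈ C`, `g ∈ lks W1 P A C`; the sets of triples for different `z` are disjoint (`g` has
exactly the vertices `v` and `z`).  So `|A| u^196 / 4 ≤ |lks W1 P A C| ≤ (u^196 / 32) (2 |A|)` by
`sp2`, a contradiction.
`size_colour`: `P = inr c`, `U = UP P`; suppose `|U| ≤ n / (512 u^4)`.  Every `z ∈ U` is in at least
`u^196 / 4` triples `{P, z, t} ∈ lks W1 P U U`, and every triple is counted for at most two `z`.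
So `|U| u^196 / 8 ≤ (u^196 / 32) (2 |U|)`, a contradiction.
-/

set_option autoImplicit false

namespace Pool.Agent.Lib.CD

open Finset
open Pool.Agent.Lib.FR (J El Edge st Cf)

theorem Size_mem {n : ℕ} {Z : Finset (Pt n)} {M : Finset (J n)} {P z : Pt n} :
    z ∈ UP n Z M P ↔ z ∈ Z ∧ ∃ a : El n, ptE n a = {P, z} ∧ a ∉ cov (els n) M := by
  classical
  unfold UP
  rw [mem_filter]

theorem Size_Gf {n : ℕ} {Z : Finset (Pt n)} {H M : Finset (J n)} {g : J n} :
    g ∈ Gf n Z H M ↔ g ∈ H ∧ wJ n Z g = 2 ∧ ∀ y ∈ els n g, y ∉ cov (els n) M := by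
  classical
  unfold Gf
  rw [mem_filter]

theorem Size_lks {n : ℕ} {W : Finset (J n)} {P : Pt n} {X Y : Finset (Pt n)} {g : J n} :
    g ∈ lks n W P X Y ↔ g ∈ W ∧ ∃ x ∈ X, ∃ y ∈ Y, x ≠ y ∧ x ≠ P ∧ y ≠ P ∧
      ptJ n g = {P, x, y} := by
  classical
  unfold lks
  rw [mem_filter]

theorem Size_count {n : ℕ} (L : Finset (J n)) (A : Finset (Pt n)) (k : ℕ) (c : ℝ)
    (hk : ∀ g ∈ L, (A.filter (fun z => z ∈ ptJ n g)).card ≤ k)
    (hc : ∀ z ∈ A, c ≤ ((L.filter (fun g => z ∈ ptJ n g)).card : ℝ)) :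
    A.card * c ≤ k * (L.card : ℝ) := by
  have h1 : ∑ z ∈ A, (L.filter (fun g => z ∈ ptJ n g)).card =
      ∑ g ∈ L, (A.filter (fun z => z ∈ ptJ n g)).card := by
    simp only [card_filter]
    exact sum_comm
  have h2 : ∑ g ∈ L, (A.filter (fun z => z ∈ ptJ n g)).card ≤ L.card * k := by
    refine (sum_le_sum hk).trans (le_of_eq ?_)
    rw [sum_const, smul_eq_mul]
  have h3 : (A.card : ℝ) * c ≤ ∑ z ∈ A, ((L.filter (fun g => z ∈ ptJ n g)).card : ℝ) := by
    have := sum_le_sum hc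
    rwa [sum_const, nsmul_eq_mul] at this
  refine h3.trans ?_
  rw [← Nat.cast_sum, h1]
  have h4 : ((∑ g ∈ L, (A.filter (fun z => z ∈ ptJ n g)).card : ℕ) : ℝ) ≤
      ((L.card * k : ℕ) : ℝ) := by exact_mod_cast h2
  refine h4.trans (le_of_eq ?_)
  rw [Nat.cast_mul, mul_comm]

theorem gf_at {n : ℕ} {Z : Finset (Pt n)} {H M : Finset (J n)} {P z : Pt n} (hP : P ∉ Z)
    (hz : z ∈ UP n Z M P) :
    ∃ x : El n, ptE n x = {P, z} ∧ wE n Z x = 1 ∧ x ∉ cov (els n) M ∧
      ∀ g ∈ Gf n Z H M ∩ st n x, ∃ t ∈ UP n Z M P, t ≠ z ∧ t ≠ P ∧ ptJ n g = {P, z, t} := by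
  obtain ⟨hzZ, x, hx, hxc⟩ := Size_mem.1 hz
  refine ⟨x, hx, wE_pair hP hzZ hx, hxc, fun g hg => ?_⟩
  obtain ⟨hg1, hg2⟩ := mem_inter.1 hg
  obtain ⟨-, hw, hcov⟩ := Size_Gf.1 hg1
  obtain ⟨t, htZ, htz, htP, hpt⟩ := wJ_two_at hP hzZ hx (mem_els.2 hg2) hw
  obtain ⟨a, ha, hae⟩ := exists_el (g := g) (p := P) (q := t) (by
    rw [hpt]
    exact mem_insert_self _ _) (by
    rw [hpt]
    exact mem_insert_of_mem (mem_insert_of_mem (mem_singleton_self _))) htP.symm
  exact ⟨t, Size_mem.2 ⟨htZ, a, hae, hcov a ha⟩, htz, htP, hpt⟩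

theorem size_vertex {n : ℕ} {u α : ℝ} (hu : 0 < u) {Z : Finset (Pt n)} {W0 W1 H M : Finset (J n)}
    (hg : Gd n u α Z W0 W1) (h1 : H ⊆ W1) (hM : Stg n u Z W1 H M) {v : Fin (2 * n)}
    (hv : Sum.inl v ∉ Z) (hne : (UP n Z M (Sum.inl v)).Nonempty) :
    n / (512 * u ^ 4) <
      (((UP n Z M (Sum.inl v)).filter (fun z => z.isLeft = true)).card : ℝ) := by
  by_contra hcon
  rw [not_lt] at hcon
  have hcard := up_vertex hM.mat hM.zero hv
  obtain ⟨U, hU⟩ : ∃ U, U = UP n Z M (Sum.inl v) := ⟨_, rfl⟩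
  rw [← hU] at hcard hcon hne
  have hUZ : ∀ z ∈ U, z ∈ Z := fun z hz => by
    rw [hU] at hz
    exact (Size_mem.1 hz).1
  obtain ⟨A, hA⟩ : ∃ A, A = U.filter (fun z => z.isLeft = true) := ⟨_, rfl⟩
  obtain ⟨C, hC⟩ : ∃ C, C = U.filter (fun z => z.isRight = true) := ⟨_, rfl⟩
  rw [← hA, ← hC] at hcard
  rw [← hA] at hcon
  have hApos : 0 < A.card := by
    obtain ⟨z, hz⟩ := hne
    rcases z with w | c
    · exact card_pos.2 ⟨Sum.inl w, by rw [hA]; exact mem_filter.2 ⟨hz, rfl⟩⟩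
    · rw [hcard]
      exact card_pos.2 ⟨Sum.inr c, by rw [hC]; exact mem_filter.2 ⟨hz, rfl⟩⟩
  have hsp := hg.sp2 (Sum.inl v) A C hcon (by rw [← hcard]; exact hcon)
  rw [← hcard] at hsp
  have hPA : Sum.inl v ∉ A := fun h => hv (hUZ _ (by
    rw [hA] at h
    exact (mem_filter.1 h).1))
  have hlow := Size_count (lks n W1 (Sum.inl v) A C) A 1 (u ^ 196 / 4) (by
    intro g hgl
    obtain ⟨-, x, -, y, -, -, -, -, hpt⟩ := Size_lks.1 hgl
    have h2 := ptJ_left g
    have h3 : Sum.inl v ∈ (ptJ n g).filter (fun p => p.isLeft = true) := by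
      rw [mem_filter, hpt]
      exact ⟨mem_insert_self _ _, rfl⟩
    have h4 : A.filter (fun z => z ∈ ptJ n g) ⊆
        ((ptJ n g).filter (fun p => p.isLeft = true)).erase (Sum.inl v) := by
      intro z hz
      obtain ⟨h5, h6⟩ := mem_filter.1 hz
      rw [mem_erase, mem_filter]
      refine ⟨fun h7 => hPA (h7 ▸ h5), h6, ?_⟩
      rw [hA] at h5
      exact (mem_filter.1 h5).2
    refine (card_le_card h4).trans ?_
    rw [card_erase_of_mem h3, h2]) (by
    intro z hz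
    have hz' := hz
    rw [hA] at hz'
    obtain ⟨hzU, hzl⟩ := mem_filter.1 hz'
    have hzU' := hzU
    rw [hU] at hzU'
    obtain ⟨x, hx, hwx, hxc, hxg⟩ := gf_at (H := H) hv hzU'
    refine (hM.deg x hwx hxc).trans ?_
    have h2 : Gf n Z H M ∩ st n x ⊆
        (lks n W1 (Sum.inl v) A C).filter (fun g => z ∈ ptJ n g) := by
      intro g hgg
      obtain ⟨t, htU, htz, htP, hpt⟩ := hxg g hgg
      rw [← hU] at htU
      have htr : t.isRight = true := by
        rcases t with w | c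
        · exfalso
          have h3 := ptJ_left g
          have h4 : ({Sum.inl v, z, Sum.inl w} : Finset (Pt n)) ⊆
              (ptJ n g).filter (fun p => p.isLeft = true) := by
            intro p hp
            rw [mem_filter, hpt]
            refine ⟨hp, ?_⟩
            rw [mem_insert, mem_insert, mem_singleton] at hp
            rcases hp with rfl | rfl | rfl
            · rfl
            · exact hzl
            · rfl
          have h5 : ({Sum.inl v, z, Sum.inl w} : Finset (Pt n)).card = 3 := by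
            rw [← hpt]
            exact card_ptJ g
          have h6 := card_le_card h4
          omega
        · rfl
      have hgW : g ∈ W1 := h1 (Size_Gf.1 (mem_inter.1 hgg).1).1
      rw [mem_filter]
      refine ⟨Size_lks.2 ⟨hgW, z, hz, t, ?_, htz.symm, ?_, htP, hpt⟩, ?_⟩
      · rw [hC]
        exact mem_filter.2 ⟨htU, htr⟩
      · rintro rfl
        exact hv (hUZ _ hzU)
      · rw [hpt]
        exact mem_insert_of_mem (mem_insert_self _ _)
    exact_mod_cast card_le_card h2)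
  have hAR : (0 : ℝ) < A.card := by exact_mod_cast hApos
  have hup : 0 < u ^ 196 := by positivity
  have hprod : 0 < (A.card : ℝ) * u ^ 196 := by positivity
  rw [Nat.cast_one, one_mul] at hlow
  nlinarith

theorem size_colour {n : ℕ} {u α : ℝ} (hu : 0 < u) {Z : Finset (Pt n)} {W0 W1 H M : Finset (J n)}
    (hg : Gd n u α Z W0 W1) (h1 : H ⊆ W1) (hM : Stg n u Z W1 H M) {c : Fin (2 * n - 1)}
    (hc : Sum.inr c ∉ Z) (hne : (UP n Z M (Sum.inr c)).Nonempty) :
    n / (512 * u ^ 4) < ((UP n Z M (Sum.inr c)).card : ℝ) := by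
  by_contra hcon
  rw [not_lt] at hcon
  obtain ⟨U, hU⟩ : ∃ U, U = UP n Z M (Sum.inr c) := ⟨_, rfl⟩
  rw [← hU] at hcon hne
  have hUZ : ∀ z ∈ U, z ∈ Z := fun z hz => by
    rw [hU] at hz
    exact (Size_mem.1 hz).1
  have hPU : Sum.inr c ∉ U := fun h => hc (hUZ _ h)
  have hUpos : 0 < U.card := card_pos.2 hne
  have hsp := hg.sp2 (Sum.inr c) U U hcon hcon
  have hlow := Size_count (lks n W1 (Sum.inr c) U U) U 2 (u ^ 196 / 4) (by
    intro g hgl
    obtain ⟨-, x, -, y, -, -, -, -, hpt⟩ := Size_lks.1 hgl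
    have h3 : Sum.inr c ∈ ptJ n g := by
      rw [hpt]
      exact mem_insert_self _ _
    have h4 : U.filter (fun z => z ∈ ptJ n g) ⊆ (ptJ n g).erase (Sum.inr c) := by
      intro z hz
      obtain ⟨h5, h6⟩ := mem_filter.1 hz
      exact mem_erase.2 ⟨fun h7 => hPU (h7 ▸ h5), h6⟩
    refine (card_le_card h4).trans ?_
    rw [card_erase_of_mem h3, card_ptJ]) (by
    intro z hz
    have hzU' := hz
    rw [hU] at hzU'
    obtain ⟨x, hx, hwx, hxc, hxg⟩ := gf_at (H := H) hc hzU'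
    refine (hM.deg x hwx hxc).trans ?_
    have h2 : Gf n Z H M ∩ st n x ⊆
        (lks n W1 (Sum.inr c) U U).filter (fun g => z ∈ ptJ n g) := by
      intro g hgg
      obtain ⟨t, htU, htz, htP, hpt⟩ := hxg g hgg
      rw [← hU] at htU
      have hgW : g ∈ W1 := h1 (Size_Gf.1 (mem_inter.1 hgg).1).1
      rw [mem_filter]
      refine ⟨Size_lks.2 ⟨hgW, z, hz, t, htU, htz.symm, ?_, htP, hpt⟩, ?_⟩
      · rintro rfl
        exact hPU hz
      · rw [hpt]
        exact mem_insert_of_mem (mem_insert_self _ _)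
    exact_mod_cast card_le_card h2)
  have hUR : (0 : ℝ) < U.card := by exact_mod_cast hUpos
  have hup : 0 < u ^ 196 := by positivity
  have hprod : 0 < (U.card : ℝ) * u ^ 196 := by positivity
  rw [Nat.cast_ofNat] at hlow
  nlinarith

end Pool.Agent.Lib.CD
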