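import Pool.Agent.Lib.MP_dcb6ed_co_CD.BadM
import Pool.Agent.Lib.MP_dcb6ed_co_CD.Lab
import Pool.Agent.Lib.MP_dcb6ed_co_CD.Reg0
import Pool.Agent.Lib.MP_dcb6ed_co_CD.Nib1
import Pool.Agent.Lib.MP_dcb6ed_co_CD.Left

/-!
# The matching before the last step

Combine `lab`, `bad_match`, `reg0`, `nib1`, `left`; `M = M0 ∪ M1 ∪ Ms`.  The elements covered by `M1` are
in `Y0` (`wE = 0`, or `wE = 1` and `cl = 0`), those covered by `Ms` have `wE = 0`, or `wE = 1` and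
`cl = 1`.

`deg`: let `wE x = 1`, `x ∉ cov M`.  `x` is not bad, so
`|H ∩ stz x 1| ≥ (1 - u^(-36)) α u^200`, `α ≥ 1 / (2 u)`.  By `l4` there are at least
`u^(-3) |H ∩ stz x 1| - u^102` triples `g ∈ H ∩ stz x 1` (`wJ g = 2`) whose element `y ≠ x` with
`wE y = 1` has `cl y = 2`; at most `10 u^152` of them have an element `≠ x` in `cov M0`; all others
are in `Gf` (the element with `wE = 2` and the element with class `2` are not covered by `M1` or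
`Ms`).  In total at least `u^196 / 4`.
`res`: let `wE r = 2`, `g ∈ Gf ∩ st r`.  `wJ g = 2`, so `g ∈ stz r 0`, the elements `y ≠ r` of `g` have
`wE y = 1` (`w_two`) and are not covered by `M`.  If both have `cl y ≠ 0`: at most `17 u^194` triples
(`l7`).  Otherwise some `y` has `cl y = 0`, so `y ∈ Y0`, `y ∉ cov M1`; with a point `s` of `r` on `y`
(`other_pt`) `g` is counted in `M1OK.tb` for `(r, s)` (`r ∉ Y0`): at most `2 · 9 u^193`.
`17 u^194 + 18 u^193 ≤ 18 u^194`.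
`loss`: an element `r` with `wE r = 2` which is covered by `M` is covered by `M0`, `r ≠ x`;
`M0OK.loss`.
-/

set_option autoImplicit false

namespace Pool.Agent.Lib.CD

open Finset Filter
open Pool.Agent.Lib.FR (J El Edge st Cf)

/-- the numerical bound for `deg` -/
private theorem Stage_num {u α : ℝ} (hu : 18 ≤ u) (h1 : 1 / (2 * u) ≤ α) :
    u ^ 196 / 4 + u ^ 102 + 10 * u ^ 152 ≤
      (u ^ 3)⁻¹ * ((1 - (u ^ 36)⁻¹) * (α * u ^ 200)) := by
  have hu0 : (0 : ℝ) < u := by linarith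
  have e1 : u ^ 196 = u ^ 152 * u ^ 44 := by rw [← pow_add]
  have h2 : (2 : ℝ) ^ 44 ≤ u ^ 44 := pow_le_pow_left₀ (by norm_num) (by linarith) 44
  have h3 : u ^ 102 ≤ u ^ 152 := pow_le_pow_right₀ (by linarith) (by norm_num)
  have h4 : u ^ 152 * (2 : ℝ) ^ 44 ≤ u ^ 196 := by
    rw [e1]
    exact mul_le_mul_of_nonneg_left h2 (by positivity)
  norm_num at h4
  have h5 : (u ^ 36)⁻¹ ≤ 1 / 4 := by
    have h6 : (2 : ℝ) ^ 36 ≤ u ^ 36 := pow_le_pow_left₀ (by norm_num) (by linarith) 36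
    rw [inv_le_comm₀ (by positivity) (by norm_num)]
    norm_num at h6 ⊢
    linarith
  have h6 : u ^ 199 / 2 ≤ α * u ^ 200 := by
    have h7 : 1 / (2 * u) * u ^ 200 ≤ α * u ^ 200 :=
      mul_le_mul_of_nonneg_right h1 (by positivity)
    have h8 : 1 / (2 * u) * u ^ 200 = u ^ 199 / 2 := by
      field_simp
    linarith
  have h7 : 3 / 4 * (u ^ 199 / 2) ≤ (1 - (u ^ 36)⁻¹) * (α * u ^ 200) :=
    mul_le_mul (by linarith) h6 (by positivity) (by linarith)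
  have h8 : (u ^ 3)⁻¹ * (3 / 4 * (u ^ 199 / 2)) ≤
      (u ^ 3)⁻¹ * ((1 - (u ^ 36)⁻¹) * (α * u ^ 200)) :=
    mul_le_mul_of_nonneg_left h7 (by positivity)
  have h9 : (u ^ 3)⁻¹ * (3 / 4 * (u ^ 199 / 2)) = 3 / 8 * u ^ 196 := by
    field_simp
    ring
  have h10 : (0 : ℝ) ≤ u ^ 152 := by positivity
  linarith

private theorem Stage_cov {n : ℕ} (M0 M1 Ms : Finset (J n)) (a : El n) :
    a ∈ cov (els n) (M0 ∪ M1 ∪ Ms) ↔
      a ∈ cov (els n) M0 ∨ a ∈ cov (els n) M1 ∨ a ∈ cov (els n) Ms := by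
  simp only [mem_cov_els, mem_union]
  constructor
  · rintro ⟨g, (h | h) | h, h'⟩
    · exact Or.inl ⟨g, h, h'⟩
    · exact Or.inr (Or.inl ⟨g, h, h'⟩)
    · exact Or.inr (Or.inr ⟨g, h, h'⟩)
  · rintro (⟨g, h, h'⟩ | ⟨g, h, h'⟩ | ⟨g, h, h'⟩)
    · exact ⟨g, Or.inl (Or.inl h), h'⟩
    · exact ⟨g, Or.inl (Or.inr h), h'⟩
    · exact ⟨g, Or.inr h, h'⟩

private theorem Stage_Gf {n : ℕ} {Z : Finset (Pt n)} {H M : Finset (J n)} {g : J n} :
    g ∈ Gf n Z H M ↔ g ∈ H ∧ wJ n Z g = 2 ∧ ∀ y ∈ els n g, y ∉ cov (els n) M := by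
  unfold Gf
  rw [mem_filter]

private theorem Stage_Y0 {n : ℕ} {Z : Finset (Pt n)} {M0 : Finset (J n)} {cl : El n → Fin 3}
    {a : El n} : a ∈ Y0 n Z M0 cl ↔
      a ∉ cov (els n) M0 ∧ (wE n Z a = 0 ∨ (wE n Z a = 1 ∧ cl a = 0)) := by
  unfold Y0
  rw [mem_filter]
  exact ⟨fun h => h.2, fun h => ⟨mem_univ _, h⟩⟩

private theorem Stage_main {n : ℕ} {u α : ℝ} (hu : 18 ≤ u) (h1 : 1 / (2 * u) ≤ α)
    {Z : Finset (Pt n)} {W0 W1 H : Finset (J n)} (hW0 : W0 ⊆ H) (hW1 : H ⊆ W1)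
    {cl : El n → Fin 3} {pre : El n → Bool} {co : J n → Bool}
    (hL : LabOK n u α Z W1 H cl pre co) {M0 : Finset (J n)} (h0 : M0OK n u α Z W0 W1 H M0)
    {M1 : Finset (J n)} (hM1 : M1OK n u Z H M0 M1 cl co) {Ms : Finset (J n)} (hs : Ms ⊆ H)
    (hm : IsM (els n) (M0 ∪ M1 ∪ Ms))
    (hz : ∀ a, wE n Z a = 0 → a ∈ cov (els n) (M0 ∪ M1 ∪ Ms))
    (hc : ∀ a ∈ cov (els n) Ms, wE n Z a = 0 ∨ (wE n Z a = 1 ∧ cl a = 1)) :
    Stg n u Z W1 H (M0 ∪ M1 ∪ Ms) := by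
  have hF0 : ∀ g ∈ M1, g ∈ H ∧ els n g ⊆ Y0 n Z M0 cl := by
    intro g hg
    have h2 := hM1.sub hg
    unfold F0 at h2
    rw [mem_filter] at h2
    exact ⟨h2.1, h2.2.1⟩
  have hc1 : ∀ a ∈ cov (els n) M1, wE n Z a = 0 ∨ (wE n Z a = 1 ∧ cl a = 0) := by
    intro a ha
    rw [mem_cov_els] at ha
    obtain ⟨g, hg, hg'⟩ := ha
    exact (Stage_Y0.1 ((hF0 g hg).2 (mem_els.2 hg'))).2
  -- elements with two special points
  have hr2 : ∀ r, wE n Z r = 2 → r ∈ cov (els n) (M0 ∪ M1 ∪ Ms) → r ∈ cov (els n) M0 := by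
    intro r hr hrM
    rcases (Stage_cov M0 M1 Ms r).1 hrM with h | h | h
    · exact h
    · rcases hc1 r h with h' | h'
      · omega
      · have := h'.1
        omega
    · rcases hc r h with h' | h'
      · omega
      · have := h'.1
        omega
  refine ⟨?_, hm, hz, ?_, ?_, ?_⟩
  · intro g hg
    rcases mem_union.1 hg with h | h
    · rcases mem_union.1 h with h | h
      · exact h0.sub h
      · exact (hF0 g h).1
    · exact hs h
  · intro x hx hxM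
    have hx0 : x ∉ cov (els n) M0 := fun h => hxM ((Stage_cov M0 M1 Ms x).2 (Or.inl h))
    have hb : ¬ BadT n u α Z W0 W1 x := fun h => hx0 (h0.bad x h)
    have h2 : (1 - (u ^ 36)⁻¹) * (α * u ^ 200) ≤ ((H ∩ stz n Z x 1).card : ℝ) := by
      have h3 : ¬ ((W0 ∩ stz n Z x 1).card : ℝ) < (1 - (u ^ 36)⁻¹) * (α * u ^ 200) :=
        fun h => hb (Or.inr (Or.inr (Or.inl h)))
      push Not at h3
      refine h3.trans ?_
      exact_mod_cast card_le_card (inter_subset_inter_right hW0)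
    have h3 := hL.l4 x hx
    have h4 := h0.loss x hx0
    have h5 : cnt (fun g : J n => g ∈ H ∧ g ∈ stz n Z x 1 ∧
        ∀ y ∈ els n g, y ≠ x → wE n Z y = 1 → cl y = 2) ≤
        cnt (fun g : J n => g ∈ Gf n Z H (M0 ∪ M1 ∪ Ms) ∩ st n x) +
        cnt (fun g : J n => g ∈ W1 ∧ g ∈ st n x ∧
          ∃ y ∈ els n g, y ≠ x ∧ y ∈ cov (els n) M0) := by
      refine cnt_le_add fun g hg => ?_
      obtain ⟨g1, g2, g3⟩ := hg
      obtain ⟨g4, g5⟩ := mem_stz.1 g2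
      by_cases hy : ∃ y ∈ els n g, y ≠ x ∧ y ∈ cov (els n) M0
      · exact Or.inr ⟨hW1 g1, mem_els.1 g4, hy⟩
      · left
        have hw : wJ n Z g = 2 := by omega
        refine mem_inter.2 ⟨Stage_Gf.2 ⟨g1, hw, ?_⟩, mem_els.1 g4⟩
        intro y hyg hyM
        by_cases hyx : y = x
        · exact hxM (hyx ▸ hyM)
        · have hy0 : y ∉ cov (els n) M0 := fun h => hy ⟨y, hyg, hyx, h⟩
          obtain ⟨r, hr, hr', hr''⟩ := w_two hw
          by_cases hyr : y = r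
          · rw [hyr] at hyM hy0
            exact hy0 (hr2 r hr' hyM)
          · have h6 := hr'' y hyg hyr
            have h7 := g3 y hyg hyx h6
            rcases (Stage_cov M0 M1 Ms y).1 hyM with h | h | h
            · exact hy0 h
            · rcases hc1 y h with h' | h'
              · omega
              · rw [h'.2] at h7
                exact absurd h7 (by decide)
            · rcases hc y h with h' | h'
              · omega
              · rw [h'.2] at h7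
                exact absurd h7 (by decide)
    rw [cnt_mem] at h5
    have h6 : (cnt (fun g : J n => g ∈ H ∧ g ∈ stz n Z x 1 ∧
        ∀ y ∈ els n g, y ≠ x → wE n Z y = 1 → cl y = 2) : ℝ) ≤
        ((Gf n Z H (M0 ∪ M1 ∪ Ms) ∩ st n x).card : ℝ) +
        (cnt (fun g : J n => g ∈ W1 ∧ g ∈ st n x ∧
          ∃ y ∈ els n g, y ≠ x ∧ y ∈ cov (els n) M0) : ℝ) := by
      exact_mod_cast h5
    have h7 := Stage_num hu h1
    have h8 : (u ^ 3)⁻¹ * ((1 - (u ^ 36)⁻¹) * (α * u ^ 200)) ≤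
        (u ^ 3)⁻¹ * ((H ∩ stz n Z x 1).card : ℝ) :=
      mul_le_mul_of_nonneg_left h2 (by positivity)
    linarith
  · intro r hr
    have hrY : r ∉ Y0 n Z M0 cl := by
      intro h
      rcases (Stage_Y0.1 h).2 with h' | h'
      · omega
      · have := h'.1
        omega
    have h2 := hL.l7 r hr
    have h3 : cnt (fun g : J n => g ∈ Gf n Z H (M0 ∪ M1 ∪ Ms) ∩ st n r) ≤
        cnt (fun g : J n => g ∈ H ∧ g ∈ stz n Z r 0 ∧ ∀ y ∈ els n g, y ≠ r → cl y ≠ 0) +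
        cnt (fun g : J n => ∃ s ∈ ptE n r, g ∈ H ∧ g ∈ st n r ∧
          ∃ y ∈ els n g, y ≠ r ∧ s ∈ ptE n y ∧ y ∈ Y0 n Z M0 cl ∧ y ∉ cov (els n) M1) := by
      refine cnt_le_add fun g hg => ?_
      obtain ⟨hg1, hg2⟩ := mem_inter.1 hg
      obtain ⟨g1, g2, g3⟩ := Stage_Gf.1 hg1
      by_cases hy : ∀ y ∈ els n g, y ≠ r → cl y ≠ 0
      · exact Or.inl ⟨g1, mem_stz.2 ⟨mem_els.2 hg2, by omega⟩, hy⟩
      · right
        push Not at hy
        obtain ⟨y, hy1, hy2, hy3⟩ := hy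
        obtain ⟨r', hr', hr1, hr3⟩ := w_two g2
        have hrr : r = r' := by
          by_contra hne
          have := hr3 r (mem_els.2 hg2) hne
          omega
        subst hrr
        have hy4 := hr3 y hy1 hy2
        have hy5 := g3 y hy1
        rw [Stage_cov] at hy5
        push Not at hy5
        obtain ⟨s, hs1, hs2⟩ := other_pt (mem_els.2 hg2) hy1 hy2
        exact ⟨s, hs1, g1, hg2, y, hy1, hy2, hs2, Stage_Y0.2 ⟨hy5.1, Or.inr ⟨hy4, hy3⟩⟩, hy5.2.1⟩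
    have h4 := cnt_exists (ptE n r) (fun (s : Pt n) (g : J n) => g ∈ H ∧ g ∈ st n r ∧
          ∃ y ∈ els n g, y ≠ r ∧ s ∈ ptE n y ∧ y ∈ Y0 n Z M0 cl ∧ y ∉ cov (els n) M1)
    have h5 : ((∑ s ∈ ptE n r, cnt (fun g : J n => g ∈ H ∧ g ∈ st n r ∧
          ∃ y ∈ els n g, y ≠ r ∧ s ∈ ptE n y ∧ y ∈ Y0 n Z M0 cl ∧ y ∉ cov (els n) M1) : ℕ) : ℝ)
        ≤ 2 * (9 * u ^ 193) := by
      push_cast
      refine (sum_le_sum fun s hs => hM1.tb r hrY s hs).trans ?_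
      rw [sum_const, card_ptE, nsmul_eq_mul]
      norm_num
    rw [cnt_mem] at h3
    have h6 : ((Gf n Z H (M0 ∪ M1 ∪ Ms) ∩ st n r).card : ℝ) ≤
        (cnt (fun g : J n => g ∈ H ∧ g ∈ stz n Z r 0 ∧
          ∀ y ∈ els n g, y ≠ r → cl y ≠ 0) : ℝ) +
        ((∑ s ∈ ptE n r, cnt (fun g : J n => g ∈ H ∧ g ∈ st n r ∧
          ∃ y ∈ els n g, y ≠ r ∧ s ∈ ptE n y ∧ y ∈ Y0 n Z M0 cl ∧
            y ∉ cov (els n) M1) : ℕ) : ℝ) := by
      exact_mod_cast h3.trans (Nat.add_le_add_left h4 _)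
    have h7 : 18 * u ^ 193 ≤ u ^ 194 := by
      rw [pow_succ u 193, mul_comm]
      exact mul_le_mul_of_nonneg_left hu (by positivity)
    linarith
  · intro x hx hxM
    have hx0 : x ∉ cov (els n) M0 := fun h => hxM ((Stage_cov M0 M1 Ms x).2 (Or.inl h))
    refine le_trans ?_ (h0.loss x hx0)
    have h2 : cnt (fun g : J n => g ∈ W1 ∧ g ∈ st n x ∧
        ∃ r ∈ els n g, wE n Z r = 2 ∧ r ∈ cov (els n) (M0 ∪ M1 ∪ Ms)) ≤
        cnt (fun g : J n => g ∈ W1 ∧ g ∈ st n x ∧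
          ∃ y ∈ els n g, y ≠ x ∧ y ∈ cov (els n) M0) := by
      refine cnt_mono fun g hg => ?_
      obtain ⟨g1, g2, r, hr1, hr3, hr4⟩ := hg
      refine ⟨g1, g2, r, hr1, ?_, hr2 r hr3 hr4⟩
      rintro rfl
      omega
    exact_mod_cast h2

theorem stage : ∀ᶠ u : ℝ in atTop, ∀ (n : ℕ) (α : ℝ), 1 / (2 * u) ≤ α → α ≤ 1 / u →
    ∀ (Z : Finset (Pt n)) (W0 W1 H : Finset (J n)), Gd n u α Z W0 W1 → W0 ⊆ H → H ⊆ W1 →
    (∀ a, ∃ g ∈ H, g ∈ st n a) → ∃ M, Stg n u Z W1 H M := by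
  filter_upwards [lab, bad_match, reg0, nib1, left, eventually_ge_atTop (18 : ℝ)] with u hlab
    hbad hreg hnib hleft hu n α ha1 ha2 Z W0 W1 H hg hW0 hW1 hcov
  have ha0 : 0 ≤ α := le_trans (by positivity) ha1
  obtain ⟨cl, pre, co, hL⟩ := hlab n α ha0 ha2 Z W1 H hW1 hg.maxd
  obtain ⟨M0, h0⟩ := hbad n α ha0 ha2 Z W0 W1 H hg hW0 hW1 hcov cl pre co hL
  have hR := hreg n α ha0 ha2 Z W0 W1 H hW0 hW1 cl pre co hL M0 h0
  obtain ⟨M1, h1⟩ := hnib n α ha0 ha2 Z W0 W1 H hg hW1 cl pre co hL M0 hR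
  obtain ⟨Ms, hs, hm, hz, hc⟩ := hleft n α ha1 ha2 Z W0 W1 H hW0 hW1 cl pre co hL M0 h0 M1 h1
  exact ⟨M0 ∪ M1 ∪ Ms, Stage_main hu ha1 hW0 hW1 hL h0 h1 hs hm hz hc⟩

end Pool.Agent.Lib.CD
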