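import Pool.Agent.Lib.MP_dcb6ed_co_CD.Hit
import Pool.Agent.Lib.MP_dcb6ed_co_CD.Rev
import Pool.Agent.Lib.MP_6d56f7_co_FR.ListP

/-!
# The threshold theorem

`thr_bad`: `listProb_sum` and `rev` with `m = Nat.card (J n)` and
`Q S` = (the lists `L e = {c : (c, e) ∈ S}` are covering and there is no `ColOK` colouring): if
`Q {j : σ j < t}` for some `t` then `¬ HitOK n A C σ`; apply `hit_bad`.

`thr`: `1 = listProb (everything)` (`FR.listProb_eq`, `FR.Ex_const`); the lists are not covering with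
probability at most `6 n² exp (- (2 n - 1) p)` (`FR.listProb_eq`, `FR.cov_high` with `pm = pp = p`: an
element `a` with `s j = 0` for all `j ∈ st a`; for `a = inl e` this says `L e = ∅`, for `a = inr (v, c)` it
says that `c ∉ L e` for all `e` at `v`), and `(2 n - 1) p ≥ (2 - 1/n) (1 + ε) log n ≥ (2 + ε) log n` for
large `n`, so this tends to zero.  `listProb` is additive: the probability that there is no colouring is at most
the probability that the lists are not covering plus the probability in `thr_bad`, which tends to zero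
because `9 / (2 log n)^(1/200)` does.
-/

set_option autoImplicit false

namespace Pool.Agent.Lib.CD

open Finset Filter Topology
open Pool.Agent.Lib.FR (J El Edge st Cf qq Pr Compat listProb)

private theorem ThrC_log : Tendsto (fun n : ℕ => Real.log n) atTop atTop :=
  Real.tendsto_log_atTop.comp tendsto_natCast_atTop_atTop

private theorem ThrC_root :
    Tendsto (fun n : ℕ => 9 / (2 * Real.log n) ^ (1 / 200 : ℝ)) atTop (𝓝 0) := by
  refine tendsto_const_nhds.div_atTop ?_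
  exact (tendsto_rpow_atTop (by norm_num : (0 : ℝ) < 1 / 200)).comp
    (ThrC_log.const_mul_atTop two_pos)

private theorem ThrC_exp {ε : ℝ} (hε : 0 < ε) :
    Tendsto (fun n : ℕ => 6 * Real.exp (-(ε * Real.log n))) atTop (𝓝 0) := by
  have h2 : Tendsto (fun n : ℕ => ε * Real.log n) atTop atTop :=
    ThrC_log.const_mul_atTop hε
  have h3 := (Real.tendsto_exp_neg_atTop_nhds_zero.comp h2).const_mul 6
  simpa using h3

/-- the numerical bound for the probability that the lists are not covering -/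
private theorem ThrC_num {ε : ℝ} {n : ℕ} (hn : 1 ≤ n) (hn2 : 1 + ε ≤ ε * n)
    {p : ℝ} (hp : (1 + ε) * Real.log n / n ≤ p) :
    6 * (n : ℝ) ^ 2 * Real.exp (-((2 * n - 1) * p)) ≤ 6 * Real.exp (-(ε * Real.log n)) := by
  have hn0 : (1 : ℝ) ≤ n := by exact_mod_cast hn
  have hn1 : (0 : ℝ) < n := by linarith
  have hl : 0 ≤ Real.log n := Real.log_nonneg hn0
  have h1 : (n : ℝ) ^ 2 = Real.exp (2 * Real.log n) := by
    rw [show (2 : ℝ) * Real.log n = ((2 : ℕ) : ℝ) * Real.log n by norm_num, Real.exp_nat_mul,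
      Real.exp_log hn1]
  rw [h1, mul_assoc, ← Real.exp_add]
  refine mul_le_mul_of_nonneg_left (Real.exp_le_exp.2 ?_) (by norm_num)
  rw [div_le_iff₀ hn1] at hp
  have h2 : (2 + ε) * Real.log n ≤ (2 * n - 1) * p := by
    have h3 : (2 * n - 1) * ((1 + ε) * Real.log n) ≤ (2 * n - 1) * (p * n) :=
      mul_le_mul_of_nonneg_left hp (by linarith)
    have h4 : n * ((2 + ε) * Real.log n) ≤ (2 * n - 1) * ((1 + ε) * Real.log n) := by
      have h5 : (n * (2 + ε)) * Real.log n ≤ ((2 * n - 1) * (1 + ε)) * Real.log n := by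
        refine mul_le_mul_of_nonneg_right ?_ hl
        nlinarith
      calc n * ((2 + ε) * Real.log n) = (n * (2 + ε)) * Real.log n := by ring
        _ ≤ ((2 * n - 1) * (1 + ε)) * Real.log n := h5
        _ = (2 * n - 1) * ((1 + ε) * Real.log n) := by ring
    have h6 : n * ((2 + ε) * Real.log n) ≤ n * ((2 * n - 1) * p) := by
      calc n * ((2 + ε) * Real.log n) ≤ (2 * n - 1) * (p * n) := h4.trans h3
        _ = n * ((2 * n - 1) * p) := by ring
    exact le_of_mul_le_mul_left h6 hn1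
  linarith

/-- lists are covering unless some element is avoided -/
private theorem ThrC_cov {n : ℕ} (s : J n → Fin 3) (h : ¬ ∃ a : El n, ∀ j ∈ st n a, s j = 0)
    (L : Edge (Fin (2 * n)) → Finset (Fin (2 * n - 1)))
    (hL : ∀ e c, c ∈ L e ↔ s (c, e) ≠ 0) :
    (∀ e, (L e).Nonempty) ∧
      ∀ v : Fin (2 * n), ∀ c : Fin (2 * n - 1), ∃ e, v ∈ e.1 ∧ c ∈ L e := by
  push Not at h
  constructor
  · intro e
    obtain ⟨j, hj, hs⟩ := h (Sum.inl e)
    rw [FR.mem_st_inl] at hj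
    refine ⟨j.1, (hL e j.1).2 ?_⟩
    rw [← hj]
    exact hs
  · intro v c
    obtain ⟨j, hj, hs⟩ := h (Sum.inr (v, c))
    rw [FR.mem_st_inr] at hj
    refine ⟨j.2, hj.2, (hL j.2 c).2 ?_⟩
    rw [← hj.1]
    exact hs

private theorem ThrC_split {n : ℕ} (hn : 1 ≤ n) {p : ℝ} (h0 : 0 ≤ p) (h1 : p ≤ 1)
    (Good : (Edge (Fin (2 * n)) → Finset (Fin (2 * n - 1))) → Prop) :
    1 - listProb n p Good ≤ 6 * (n : ℝ) ^ 2 * Real.exp (-((2 * n - 1) * p)) +
      listProb n p (fun L => ((∀ e, (L e).Nonempty) ∧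
        ∀ v : Fin (2 * n), ∀ c : Fin (2 * n - 1), ∃ e, v ∈ e.1 ∧ c ∈ L e) ∧ ¬ Good L) := by
  classical
  have hq := FR.qq_nonneg h0 (le_refl p) h1
  have h2 := FR.cov_high hn h0 (le_refl p) h1
  refine le_trans ?_ (add_le_add h2 le_rfl)
  rw [FR.listProb_eq, FR.listProb_eq, ← FR.Pr_not (FR.qq_sum p p)]
  refine (FR.Pr_mono hq ?_).trans (FR.Pr_or hq _ _)
  intro s hs
  by_cases h : ∃ a : El n, ∀ j ∈ st n a, s j = 0
  · exact Or.inl h
  · refine Or.inr ⟨ThrC_cov s h _ fun e c => ?_, hs⟩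
    simp only [mem_filter, mem_univ, true_and]

/-- the random lists as a mixture of initial segments -/
private theorem ThrC_mix {n : ℕ} {p : ℝ} (h0 : 0 ≤ p) (h1 : p ≤ 1)
    (Bad : (Edge (Fin (2 * n)) → Finset (Fin (2 * n - 1))) → Prop) :
    listProb n p Bad ≤ (Set.ncard {σ : J n ≃ Fin (Nat.card (J n)) |
      ∃ t : ℕ, Bad (fun e => univ.filter (fun c => (σ (c, e) : ℕ) < t))} : ℝ) /
        (Nat.card (J n ≃ Fin (Nat.card (J n))) : ℝ) := by
  classical
  have hm : Fintype.card (J n) = Nat.card (J n) := Nat.card_eq_fintype_card.symm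
  have h2 := rev hm h0 h1 (fun S : Finset (J n) =>
    Bad (fun e => univ.filter (fun c => ((c, e) : J n) ∈ S)))
  have h3 : listProb n p Bad = ∑ S : Finset (J n),
      if Bad (fun e => univ.filter (fun c => ((c, e) : J n) ∈ S)) then
        p ^ S.card * (1 - p) ^ (Nat.card (J n) - S.card) else 0 := by
    rw [listProb_sum]
  have h4 : {σ : J n ≃ Fin (Nat.card (J n)) |
      ∃ t : ℕ, Bad (fun e => univ.filter (fun c => (σ (c, e) : ℕ) < t))} =
      {σ : J n ≃ Fin (Nat.card (J n)) | ∃ t : ℕ, Bad (fun e => univ.filter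
        (fun c => ((c, e) : J n) ∈ univ.filter (fun j => (σ j : ℕ) < t)))} := by
    ext σ
    refine exists_congr fun t => ?_
    have h5 : (fun e : Edge (Fin (2 * n)) => univ.filter (fun c : Fin (2 * n - 1) =>
        (σ (c, e) : ℕ) < t)) = fun e => univ.filter
        (fun c => ((c, e) : J n) ∈ univ.filter (fun j => (σ j : ℕ) < t)) := by
      funext e
      ext c
      simp only [mem_filter, mem_univ, true_and]
    rw [h5]
  rw [h3, h4]
  convert h2

theorem thr_bad : ∀ᶠ n : ℕ in atTop, ∀ (A : Finset (Fin (2 * n))) (C : Finset (Fin (2 * n - 1)))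
    (p : ℝ), 0 ≤ p → p ≤ 1 → 2 * n / Real.log n ^ (1 / 200 : ℝ) ≤ (A.card : ℝ) →
    2 * n / Real.log n ^ (1 / 200 : ℝ) ≤ (C.card : ℝ) →
    listProb n p (fun L => ((∀ e, (L e).Nonempty) ∧
      ∀ v : Fin (2 * n), ∀ c : Fin (2 * n - 1), ∃ e, v ∈ e.1 ∧ c ∈ L e) ∧
      ¬ ∃ φ, ColOK n A C L φ) ≤ 9 / (2 * Real.log n) ^ (1 / 200 : ℝ) := by
  classical
  filter_upwards [hit_bad] with n hb
  intro A C p h0 h1 hA hC
  refine le_trans (ThrC_mix h0 h1 _) (le_trans ?_ (hb A C hA hC))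
  refine div_le_div_of_nonneg_right ?_ (Nat.cast_nonneg _)
  have hsub : {σ : J n ≃ Fin (Nat.card (J n)) | ∃ t : ℕ,
      ((∀ e : Edge (Fin (2 * n)), (univ.filter (fun c : Fin (2 * n - 1) =>
        (σ (c, e) : ℕ) < t)).Nonempty) ∧
      ∀ v : Fin (2 * n), ∀ c : Fin (2 * n - 1), ∃ e : Edge (Fin (2 * n)), v ∈ e.1 ∧
        c ∈ univ.filter (fun c : Fin (2 * n - 1) => (σ (c, e) : ℕ) < t)) ∧
      ¬ ∃ φ, ColOK n A C (fun e => univ.filter (fun c => (σ (c, e) : ℕ) < t)) φ} ⊆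
      {σ : J n ≃ Fin (Nat.card (J n)) | ¬ HitOK n A C σ} := by
    rintro σ ⟨t, ⟨h2, h3⟩, h4⟩ hH
    apply h4
    have h5 := hH t (fun e => by
      obtain ⟨c, hc⟩ := h2 e
      exact ⟨c, (mem_filter.1 hc).2⟩) (fun v c => by
      obtain ⟨e, hv, hc⟩ := h3 v c
      exact ⟨e, hv, (mem_filter.1 hc).2⟩)
    convert h5
  have h6 := Set.ncard_le_ncard hsub (Set.toFinite _)
  exact_mod_cast h6

theorem thr {ε : ℝ} (hε : 0 < ε) (p : ℕ → ℝ)
    (hp : ∀ᶠ n : ℕ in atTop, (1 + ε) * Real.log n / n ≤ p n ∧ p n ≤ 1)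
    (A : ∀ n : ℕ, Finset (Fin (2 * n))) (C : ∀ n : ℕ, Finset (Fin (2 * n - 1)))
    (hA : ∀ᶠ n : ℕ in atTop, 2 * n / Real.log n ^ (1 / 200 : ℝ) ≤ ((A n).card : ℝ))
    (hC : ∀ᶠ n : ℕ in atTop, 2 * n / Real.log n ^ (1 / 200 : ℝ) ≤ ((C n).card : ℝ)) :
    Tendsto (fun n : ℕ => listProb n (p n) (fun L => ∃ φ, ColOK n (A n) (C n) L φ)) atTop
      (𝓝 1) := by
  classical
  have hlow : Tendsto (fun n : ℕ => 1 - (6 * Real.exp (-(ε * Real.log n)) +
      9 / (2 * Real.log n) ^ (1 / 200 : ℝ))) atTop (𝓝 1) := by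
    have h := ((ThrC_exp hε).add ThrC_root).const_sub 1
    simpa using h
  refine tendsto_of_tendsto_of_tendsto_of_le_of_le' hlow tendsto_const_nhds ?_ ?_
  · filter_upwards [hp, hA, hC, thr_bad, eventually_ge_atTop 1,
      eventually_ge_atTop ⌈(1 + ε) / ε⌉₊] with n hpn hAn hCn hb hn hn2
    have hn0 : (1 : ℝ) ≤ n := by exact_mod_cast hn
    have hp0 : 0 ≤ p n := by
      refine le_trans ?_ hpn.1
      have := Real.log_nonneg hn0
      positivity
    have hn3 : 1 + ε ≤ ε * n := by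
      have h1 : (1 + ε) / ε ≤ n := (Nat.le_ceil _).trans (by exact_mod_cast hn2)
      rw [div_le_iff₀ hε] at h1
      linarith
    have h1 := hb (A n) (C n) (p n) hp0 hpn.2 hAn hCn
    have h2 := ThrC_num hn hn3 hpn.1
    have h3 := ThrC_split hn hp0 hpn.2 (fun L => ∃ φ, ColOK n (A n) (C n) L φ)
    linarith
  · filter_upwards [hp, eventually_ge_atTop 1] with n hpn hn
    have hn0 : (1 : ℝ) ≤ n := by exact_mod_cast hn
    have hp0 : 0 ≤ p n := by
      refine le_trans ?_ hpn.1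
      have := Real.log_nonneg hn0
      positivity
    rw [FR.listProb_eq]
    exact FR.Pr_le_one (FR.qq_nonneg hp0 le_rfl hpn.2) (FR.qq_sum _ _) _

end Pool.Agent.Lib.CD
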